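import Pool.Agent.Lib.MP_848037_lc.Kol

set_option autoImplicit false

namespace Pool.Agent.Lib.MP_848037_lc

open Pool.Agent.Shared.Type2

/-- Initial segments. -/
def xs (x : ℕ → Bool) (n : ℕ) : Str := List.ofFn fun i : Fin n => x i

@[simp] theorem length_xs (x : ℕ → Bool) (n : ℕ) : (xs x n).length = n := by simp [xs]

theorem xs_take (x : ℕ → Bool) {m n : ℕ} (h : m ≤ n) : (xs x n).take m = xs x m :=
  List.ext_getElem (by simp [h]) fun i _ _ => by simp [xs]

theorem xs_pre (x : ℕ → Bool) {m n : ℕ} (h : m ≤ n) : xs x m <+: xs x n :=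
  xs_take x h ▸ List.take_prefix _ _

theorem eq_xs {x : ℕ → Bool} {n : ℕ} {u : Str} (h : u <+: xs x n) : u = xs x u.length := by
  rw [← xs_take x (n := n) (by simpa using h.length_le)]
  exact List.prefix_iff_eq_take.1 h

theorem uncount (P : Str → Prop) (h0 : P [])
    (hs : ∀ τ, P τ → ∃ u0 u1, P (τ ++ u0) ∧ P (τ ++ u1) ∧ ¬ u0 <+: u1 ∧ ¬ u1 <+: u0)
    (Z : Set (ℕ → Bool)) (hZ : ∀ z, (∀ n, ∃ m, n ≤ m ∧ P (xs z m)) → z ∈ Z) : ¬ Z.Countable := by
  intro hc
  obtain ⟨e, he⟩ := Set.countable_iff_exists_subset_range.1 hc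
  have step : ∀ (τ : {τ // P τ}) (y : ℕ → Bool), ∃ τ' : {τ // P τ}, τ.1 <+: τ'.1 ∧
      τ.1.length < τ'.1.length ∧ τ'.1 ≠ xs y τ'.1.length := by
    rintro ⟨τ, hτ⟩ y
    obtain ⟨u0, u1, a0, a1, b0, b1⟩ := hs τ hτ
    have l0 : 0 < u0.length := List.length_pos_iff.2 (by rintro rfl; exact b0 List.nil_prefix)
    have l1 : 0 < u1.length := List.length_pos_iff.2 (by rintro rfl; exact b1 List.nil_prefix)
    by_cases c0 : τ ++ u0 = xs y (τ ++ u0).length
    · refine ⟨⟨_, a1⟩, List.prefix_append _ _, by simpa using l1, fun c1 => ?_⟩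
      simp only at c1
      rcases le_total (τ ++ u0).length (τ ++ u1).length with h | h
      · have := xs_pre y h
        rw [← c0, ← c1, List.prefix_append_right_inj] at this
        exact b0 this
      · have := xs_pre y h
        rw [← c0, ← c1, List.prefix_append_right_inj] at this
        exact b1 this
    · exact ⟨⟨_, a0⟩, List.prefix_append _ _, by simpa using l0, c0⟩
  choose F hF using step
  let t : ℕ → {τ // P τ} := fun k => Nat.rec ⟨[], h0⟩ (fun k τ => F τ (e k)) k
  have ht : ∀ k, t (k + 1) = F (t k) (e k) := fun k => rfl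
  have h1 : ∀ k, k ≤ (t k).1.length := fun k => by
    induction k with
    | zero => exact Nat.zero_le _
    | succ k ih => have := (hF (t k) (e k)).2.1; rw [ht]; omega
  have h2 : ∀ k l, k ≤ l → (t k).1 <+: (t l).1 := fun k l h => by
    induction l, h using Nat.le_induction with
    | base => exact List.prefix_rfl
    | succ l _ ih => exact ih.trans (hF (t l) (e l)).1
  let z : ℕ → Bool := fun i => (t (i + 1)).1.getD i false
  have h3 : ∀ k, xs z (t k).1.length = (t k).1 := fun k => by
    refine List.ext_getElem (by simp) fun i a b => ?_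
    have c := h1 (i + 1)
    simp only [xs, List.getElem_ofFn, z]
    rw [List.getD_eq_getElem _ _ (by omega)]
    rcases le_total k (i + 1) with h | h
    · exact ((h2 _ _ h).getElem b).symm
    · exact (h2 _ _ h).getElem _
  obtain ⟨k, hk⟩ := he (hZ z fun n => ⟨_, h1 n, by rw [h3]; exact (t n).2⟩)
  exact (hF (t k) (e k)).2.2 (by rw [← ht, hk]; exact (h3 (k + 1)).symm)

/-- One step of the decoder. -/
def dstep (W : List (List ℕ)) (mk : Str → Str → Bool) (st : Str × Str) (b : Bool) : Str × Str :=
  (look W (mk st.1) (st.2 ++ [b])).elim (st.1, st.2 ++ [b]) fun r => (st.1 ++ r, [])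

/-- The decoder. -/
def dec (W : List (List ℕ)) (mk : Str → Str → Bool) (τ : Str) : Str × Str :=
  τ.foldl (fun st b => dstep W mk st b) ([], [])

/-- The string held through the word `w`. -/
def hh (W : List (List ℕ)) (mk : Str → Str → Bool) (w : List ℕ) (τ : Str) : Str :=
  (dec W mk τ).1 ++ app w.reverse (dec W mk τ).2

theorem td_hh (W : List (List ℕ)) {mk : Str → Str → Bool}
    (hmk : TD fun p : Str × Str => mk p.1 p.2) (w : List ℕ) : TD (hh W mk w) := by
  have h0 := td_look W hmk
  have h1 : TD fun p : (Str × Str) × Bool => look W (mk p.1.1) (p.1.2 ++ [p.2]) :=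
    h0.comp' (f := fun p : (Str × Str) × Bool => (p.1.1, p.1.2 ++ [p.2])) (by fun_prop)
  have h2 : TD fun p : (Str × Str) × Bool => dstep W mk p.1 p.2 := by
    unfold dstep
    exact TD.elim' h1 (by fun_prop) (by fun_prop)
  have h3 : TD (dec W mk) := by
    unfold dec
    exact TD.foldl TD.id' (by fun_prop)
      (h2.comp' (f := fun p : Str × (Str × Str) × Bool => p.2) (by fun_prop))
  unfold hh; fun_prop

variable {W : List (List ℕ)} {mk : Str → Str → Bool} {B : Str → Str → Prop}

theorem dec_snoc (τ : Str) (b : Bool) : dec W mk (τ ++ [b]) = dstep W mk (dec W mk τ) b := by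
  simp [dec]

theorem dec_level (hW : Expands W) (hm : ∀ σ, Marks (mk σ) (B σ)) {τ σ u r : Str}
    (h : dec W mk τ = (σ, [])) (hl : look W (mk σ) u = some r) :
    (∀ u', u' <+: u → u' ≠ u → dec W mk (τ ++ u') = (σ, u')) ∧
      dec W mk (τ ++ u) = (σ ++ r, []) := by
  have h1 : ∀ u', u' <+: u → u' ≠ u → dec W mk (τ ++ u') = (σ, u') := by
    intro u'
    induction u' using List.reverseRecOn with
    | nil => simpa using fun _ => h
    | append_singleton u' b ih =>
      intro a c
      have d : u' <+: u := (List.prefix_append _ _).trans a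
      rw [← List.append_assoc, dec_snoc, ih d, dstep, look_first hW (hm σ) hl a c]
      · rfl
      · rintro rfl
        simpa using a.length_le
  refine ⟨h1, ?_⟩
  rcases List.eq_nil_or_concat' u with rfl | ⟨u', b, rfl⟩
  · exact absurd rfl (look_adj hW (hm σ) hl).1
  · rw [← List.append_assoc, dec_snoc, h1 u' (List.prefix_append _ _) (by simp), dstep, hl]
    rfl

theorem cone_uncount (hW : Expands W) (hm : ∀ σ, Marks (mk σ) (B σ)) (x : ℕ → Bool)
    (hx : ∀ l, ∃ r, mk (xs x l) r = true ∧ xs x l ++ r = xs x (l + r.length)) :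
    ¬ {z : ℕ → Bool | ∀ n, ∃ w ∈ [] :: W, hh W mk w (xs z n) = xs x n}.Countable := by
  refine uncount (fun τ => dec W mk τ = (xs x τ.length, []) ∧
    ∀ n ≤ τ.length, ∃ w ∈ [] :: W, hh W mk w (τ.take n) = xs x n) ⟨rfl, ?_⟩ ?_ _ ?_
  · intro n hn
    obtain rfl : n = 0 := by simpa using hn
    exact ⟨[], by simp, rfl⟩
  · rintro τ ⟨h1, h2⟩
    obtain ⟨r, hr, e⟩ := hx τ.length
    have key : ∀ u r', r' <+: r → look W (mk (xs x τ.length)) u = some r' →
        dec W mk (τ ++ u) = (xs x (τ ++ u).length, []) ∧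
        ∀ n ≤ (τ ++ u).length, ∃ w ∈ [] :: W, hh W mk w ((τ ++ u).take n) = xs x n := by
      intro u r' a b
      obtain ⟨-, w, hw, rfl⟩ := look_adj hW (hm _) b
      obtain ⟨c, d⟩ := dec_level hW hm h1 b
      have f : ∀ i, xs x τ.length ++ r'.take i = xs x (τ.length + min i r'.length) := fun i => by
        have : xs x τ.length ++ r'.take i <+: xs x (τ.length + r.length) := by
          rw [← e, List.prefix_append_right_inj]
          exact (List.take_prefix _ _).trans a
        rw [eq_xs this]
        simp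
      have g : dec W mk (τ ++ app w r') = (xs x (τ ++ app w r').length, []) := by
        have := f r'.length
        rw [List.take_length, min_self] at this
        rw [d, this]; simp
      refine ⟨g, fun n hn => ?_⟩
      rcases le_total n τ.length with h | h
      · rw [List.take_append_of_le_length h]; exact h2 n h
      obtain ⟨i, rfl⟩ := Nat.exists_eq_add_of_le h
      rcases eq_or_lt_of_le hn with hn | hn
      · refine ⟨[], by simp, ?_⟩
        rw [hn, List.take_length, hh, g]
        simp [app]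
      · have hi : i < r'.length := by simpa using hn
        refine ⟨w, by simp [hw], ?_⟩
        rw [List.take_length_add_append, hh, c _ (List.take_prefix _ _) (fun h => by
          have := congrArg List.length h
          simp at this
          omega)]
        simp only
        rw [← app_take, app_rev, f, min_eq_left hi.le]
    obtain ⟨u0, u1, r0, r1, a0, a1, b0, b1, c0, c1⟩ := look_serve hW (hm _) hr
    exact ⟨u0, u1, key _ _ a0 b0, key _ _ a1 b1, c0, c1⟩
  · intro z hz n
    obtain ⟨m, hm, -, h⟩ := hz n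
    have := h n (by simpa using hm)
    rwa [xs_take z hm] at this

variable {K : Str → ℕ}

theorem IsK.uncountable (hK : IsK K) (x : ℕ → Bool) (hx : ∀ c, ∃ n, K (xs x n) + c ≤ n) :
    ¬ {z : ℕ → Bool | ∃ c, ∀ n, K (xs x n) ≤ K (xs z n) + c}.Countable := by
  obtain ⟨W, hW⟩ := exists_expands
  obtain ⟨k1, a1, a2, a3⟩ := re_approx hK.re
  let mk : Str → Str → Bool := fun σ r => (List.range (r.length + 1)).any fun i =>
    decide (4 ≤ i) && k1 (σ ++ r.take i, i - 4) r.length
  have hmk : TD fun p : Str × Str => mk p.1 p.2 := by unfold mk; fun_prop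
  have hm : ∀ σ, Marks (mk σ) (Bad K σ) := fun σ => by
    refine ⟨fun r h => ?_, ?_, hK.small σ⟩
    · simp only [mk, List.any_eq_true, List.mem_range, Bool.and_eq_true, decide_eq_true_eq] at h
      obtain ⟨i, a, b, c⟩ := h
      have := (a3 _).2 ⟨_, c⟩
      exact ⟨i, by omega, by simp only at this; omega⟩
    · rintro r _ ⟨i, a, b⟩ ⟨t, rfl⟩
      exact ⟨i, by simp; omega, by rwa [List.take_append_of_le_length a]⟩
  have hc : ∀ L : List (List ℕ), ∃ c, ∀ w ∈ L, ∀ τ, (hh W mk w τ).length = τ.length →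
      K (hh W mk w τ) ≤ K τ + c := by
    intro L
    induction L with
    | nil => exact ⟨0, by simp⟩
    | cons w L ih =>
      obtain ⟨c, hc⟩ := ih
      obtain ⟨d, hd⟩ := hK.comp (td_hh W hmk w)
      refine ⟨c + d, fun v hv τ e => ?_⟩
      rcases List.mem_cons.1 hv with rfl | hv
      · have := hd τ e; omega
      · have := hc v hv τ e; omega
  obtain ⟨c, hc⟩ := hc ([] :: W)
  refine fun h => cone_uncount hW hm x (fun l => ?_) (h.mono fun z hz => Exists.intro c fun n => ?_)
  · obtain ⟨n, hn⟩ := hx (l + 4)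
    obtain ⟨i, rfl⟩ := Nat.exists_eq_add_of_le (show l ≤ n by omega)
    obtain ⟨s, hs⟩ := (a3 (xs x (l + i), i - 4)).1 (by simp only; omega)
    have e : ∀ j, xs x l ++ (xs x (l + j)).drop l = xs x (l + j) := fun j => by
      conv_lhs => rw [← xs_take x (Nat.le_add_right l j)]
      exact List.take_append_drop _ _
    refine ⟨(xs x (l + max i s)).drop l, ?_, by simpa using e _⟩
    simp only [mk, List.any_eq_true, List.mem_range, Bool.and_eq_true, decide_eq_true_eq]
    refine ⟨i, by simp, by omega, a2 _ s _ (by simp) ?_⟩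
    rwa [List.take_drop, xs_take x (by omega), e]
  · obtain ⟨w, hw, e⟩ := hz n
    have := hc w hw (xs z n) (by simp [e])
    rwa [e] at this

theorem IsK.not_max (hK : IsK K) (x : ℕ → Bool) (hx : ∀ c, ∃ n, K (xs x n) + c ≤ n) :
    ¬ ∃ C, ∀ N, ∃ n ≥ N, K (List.replicate n false) + n ≤ K (xs x n) + C := by
  rintro ⟨C, hC⟩
  obtain ⟨c, hc⟩ := hK.ext
  obtain ⟨m, hm⟩ := hx (C + c + 1)
  obtain ⟨n, h1, h2⟩ := hC m
  have h3 := hc ((xs x n).take m) ((xs x n).drop m)
  rw [← List.length_append, List.take_append_drop, xs_take x h1] at h3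
  simp only [List.length_drop, length_xs] at h3
  omega

end Pool.Agent.Lib.MP_848037_lc
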