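import Mathlib

set_option autoImplicit false

namespace Pool.Agent.Lib.MP_848037_lc

open Finset Matrix

abbrev V (n : ℕ) := Fin n → ZMod 2

/-- The sign character of `ZMod 2`. -/
def sg (x : ZMod 2) : ℝ := if x = 0 then 1 else -1

theorem z2 (x : ZMod 2) : x = 0 ∨ x = 1 := by revert x; decide

theorem sg_add (x y : ZMod 2) : sg (x + y) = sg x * sg y := by
  have h : (1 : ZMod 2) + 1 = 0 := by decide
  rcases z2 x with rfl | rfl <;> rcases z2 y with rfl | rfl <;> simp [sg, h]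

theorem sg_zero : sg 0 = 1 := by simp [sg]
theorem sg_one : sg 1 = -1 := by simp [sg]

variable {n : ℕ}

theorem add_self_V (w : V n) : w + w = 0 := by
  funext i; exact CharTwo.add_self_eq_zero _

theorem sum_sg (u : V n) : ∑ w : V n, sg (w ⬝ᵥ u) = if u = 0 then (2 : ℝ) ^ n else 0 := by
  split_ifs with h
  · simp [h, sg_zero]
  · obtain ⟨k, hk⟩ := Function.ne_iff.1 h
    have hk1 : u k = 1 := (z2 _).resolve_left hk
    have h1 : ∑ w : V n, sg (w ⬝ᵥ u) = ∑ w : V n, sg ((w + Pi.single k 1) ⬝ᵥ u) :=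
      (Equiv.sum_comp (Equiv.addRight (Pi.single k 1 : V n)) fun w => sg (w ⬝ᵥ u)).symm
    simp only [add_dotProduct, single_dotProduct, one_mul, hk1, sg_add, sg_one, mul_neg, mul_one,
      sum_neg_distrib] at h1
    linarith

/-- Walsh transform. -/
noncomputable def wt (f : V n → ℝ) (ω : V n) : ℝ := ∑ w, f w * sg (ω ⬝ᵥ w)

theorem parseval (f : V n → ℝ) : ∑ ω, wt f ω ^ 2 = 2 ^ n * ∑ w, f w ^ 2 := by
  have h1 : ∀ ω, wt f ω ^ 2 = ∑ w, ∑ v, f w * f v * sg (ω ⬝ᵥ (w + v)) := by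
    intro ω
    rw [sq, wt, sum_mul_sum]
    refine sum_congr rfl fun w _ => sum_congr rfl fun v _ => ?_
    rw [dotProduct_add, sg_add]; ring
  simp only [h1]
  rw [sum_comm, mul_sum]
  refine sum_congr rfl fun w _ => ?_
  rw [sum_comm]
  simp only [← mul_sum, sum_sg]
  rw [sum_eq_single w]
  · rw [if_pos (add_self_V w)]; ring
  · intro v _ hv
    rw [if_neg, mul_zero]
    intro h
    apply hv
    have := congrArg (fun t => w + t) h
    simpa [← add_assoc, add_self_V] using this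
  · simp

theorem wt_sub (f g : V n → ℝ) (ω : V n) : wt (fun w => f w - g w) ω = wt f ω - wt g ω := by
  simp [wt, sub_mul, sum_sub_distrib]

theorem wt_shift (f : V n → ℝ) (u ω : V n) :
    wt (fun w => f (w + u)) ω = sg (ω ⬝ᵥ u) * wt f ω := by
  rw [wt, wt, mul_sum, ← Equiv.sum_comp (Equiv.addRight u)]
  refine sum_congr rfl fun w _ => ?_
  simp only [Equiv.coe_addRight, add_assoc, add_self_V, add_zero, dotProduct_add, sg_add]
  ring

theorem wt_lin (f : V n → ℝ) (M : Matrix (Fin n) (Fin n) (ZMod 2))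
    (hM : ∀ w, M *ᵥ (M *ᵥ w) = w) (ω : V n) :
    wt (fun w => f (M *ᵥ w)) ω = wt f (ω ᵥ* M) := by
  let e : V n ≃ V n := Function.Involutive.toPerm (fun w => M *ᵥ w) hM
  rw [wt, wt, ← Equiv.sum_comp e]
  refine sum_congr rfl fun w _ => ?_
  have : e w = M *ᵥ w := rfl
  simp only [this, hM, dotProduct_mulVec]

/-- Coordinates extended by zero. -/
def ex (w : V n) (k : ℕ) : ZMod 2 := if h : k < n then w ⟨k, h⟩ else 0

theorem ex_fin (w : V n) (k : Fin n) : ex w k = w k := by simp [ex]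

/-- Adds coordinate `k - d` to coordinate `k` for all `k` of parity `p`. -/
def Mt (n d p : ℕ) : Matrix (Fin n) (Fin n) (ZMod 2) :=
  (1 : Matrix (Fin n) (Fin n) (ZMod 2)) +
    Matrix.of fun (k l : Fin n) => if (k : ℕ) % 2 = p ∧ (k : ℕ) = l + d then 1 else 0

theorem Mt_mulVec (d p : ℕ) (w : V n) (k : Fin n) :
    (Mt n d p *ᵥ w) k = w k + if (k : ℕ) % 2 = p ∧ d ≤ k then ex w (k - d) else 0 := by
  rw [Mt, add_mulVec, one_mulVec, Pi.add_apply]
  congr 1
  simp only [mulVec, dotProduct, of_apply, ite_mul, one_mul, zero_mul]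
  split_ifs with h
  · have h1 : (k : ℕ) - d < n := by omega
    rw [sum_eq_single ⟨k - d, h1⟩]
    · rw [if_pos ⟨h.1, by simp; omega⟩, ex, dif_pos h1]
    · intro l _ hl
      rw [if_neg]
      rintro ⟨-, h2⟩
      exact hl (Fin.ext (by simp; omega))
    · simp
  · refine sum_eq_zero fun l _ => if_neg ?_
    rintro ⟨h1, h2⟩
    exact h ⟨h1, by omega⟩

theorem ex_vecMul (d p : ℕ) (ω : V n) (l : ℕ) :
    ex (ω ᵥ* Mt n d p) l = ex ω l + if (l + d) % 2 = p then ex ω (l + d) else 0 := by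
  by_cases hl : l < n
  · rw [ex, dif_pos hl, ex, dif_pos hl, Mt, vecMul_add, vecMul_one, Pi.add_apply]
    congr 1
    simp only [vecMul, dotProduct, of_apply, mul_ite, mul_one, mul_zero]
    by_cases h1 : l + d < n
    · rw [sum_eq_single ⟨l + d, h1⟩]
      · simp [ex, h1]
      · intro k _ hk
        rw [if_neg]
        rintro ⟨-, h2⟩
        exact hk (Fin.ext h2)
      · simp
    · rw [ex, dif_neg h1, ite_self]
      refine sum_eq_zero fun k _ => if_neg ?_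
      rintro ⟨-, h2⟩
      have := k.2
      omega
  · have h1 : ¬ l + d < n := by omega
    simp [ex, hl, h1]

theorem Mt_invol (d p : ℕ) (hd : d % 2 = 1) (w : V n) : Mt n d p *ᵥ (Mt n d p *ᵥ w) = w := by
  funext k
  rw [Mt_mulVec, Mt_mulVec]
  split_ifs with h
  · have h1 : (k : ℕ) - d < n := by omega
    have h2 : ex (Mt n d p *ᵥ w) (k - d) = ex w (k - d) := by
      rw [ex, dif_pos h1, Mt_mulVec, if_neg, add_zero, ex, dif_pos h1]
      rintro ⟨h3, -⟩
      simp only at h3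
      omega
    rw [h2, add_assoc, CharTwo.add_self_eq_zero, add_zero]
  · simp

theorem vecMul_inj (d p : ℕ) (hd : d % 2 = 1) :
    Function.Injective fun ω : V n => ω ᵥ* Mt n d p := by
  intro ω ω' h
  funext k
  have h1 : ∀ w, ω ⬝ᵥ w = ω' ⬝ᵥ w := fun w => by
    rw [← Mt_invol d p hd w, dotProduct_mulVec, dotProduct_mulVec ω']
    exact congrArg (fun t => t ⬝ᵥ (Mt n d p *ᵥ w)) h
  simpa using h1 (Pi.single k 1)

/-- `l` is the first nonzero coordinate. -/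
def Low (ω : V n) (l : ℕ) : Prop := ex ω l ≠ 0 ∧ ∀ k < l, ex ω k = 0

theorem Low.unique {ω : V n} {l l' : ℕ} (h : Low ω l) (h' : Low ω l') : l = l' := by
  rcases lt_trichotomy l l' with h1 | h1 | h1
  · exact absurd (h'.2 l h1) h.1
  · exact h1
  · exact absurd (h.2 l' h1) h'.1

theorem exists_low {ω : V n} (h : ω ≠ 0) : ∃ l, Low ω l := by
  classical
  obtain ⟨k, hk⟩ := Function.ne_iff.1 h
  have : ∃ l, ex ω l ≠ 0 := ⟨k, by rwa [ex_fin]⟩
  exact ⟨Nat.find this, Nat.find_spec this, fun j hj => not_not.1 (Nat.find_min this hj)⟩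

theorem Low.move {ω : V n} {l d p : ℕ} (h : Low ω l) (hp : l % 2 = p) (hd : d % 2 = 1)
    (hl : d ≤ l) : Low (ω ᵥ* Mt n d p) (l - d) ∧ ex (ω ᵥ* Mt n d p) l ≠ 0 ∧
      (d = 3 → ex (ω ᵥ* Mt n d p) (l - d + 1) = 0) := by
  refine ⟨⟨?_, fun k hk => ?_⟩, ?_, fun h3 => ?_⟩
  · rw [ex_vecMul, Nat.sub_add_cancel hl, if_pos hp, h.2 _ (by omega), zero_add]; exact h.1
  · rw [ex_vecMul, h.2 k (by omega), h.2 (k + d) (by omega)]; simp
  · rw [ex_vecMul, if_neg (by omega), add_zero]; exact h.1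
  · rw [ex_vecMul, if_neg (by omega), add_zero]; exact h.2 _ (by omega)

theorem key_half (F : V n → ℝ) (p : ℕ) (hp : p < 2) (E : ℝ)
    (h : ∀ d, d = 1 ∨ d = 3 → ∑ ω, (F (ω ᵥ* Mt n d p) - F ω) ^ 2 ≤ E)
    (A B : Finset (V n)) (hA : ∀ ω ∈ A, ∃ l, Low ω l ∧ l % 2 = p ∧ 3 ≤ l)
    (hB : ∀ ω l, Low ω l → l % 2 ≠ p → ω ∈ B) :
    2 * ∑ ω ∈ A, F ω ^ 2 ≤ 3 / 2 * ∑ ω ∈ B, F ω ^ 2 + 6 * E := by
  classical
  have h1 : ∀ d, d = 1 ∨ d = 3 → ∑ ω ∈ A, F ω ^ 2 ≤
      3 / 2 * ∑ ω ∈ A.image (fun ω => ω ᵥ* Mt n d p), F ω ^ 2 + 3 * E := by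
    intro d hd
    rw [sum_image fun a _ b _ e => vecMul_inj d p (by omega) e]
    have h2 : ∑ ω ∈ A, (F (ω ᵥ* Mt n d p) - F ω) ^ 2 ≤ E :=
      (sum_le_sum_of_subset_of_nonneg (subset_univ A) fun _ _ _ => sq_nonneg _).trans (h d hd)
    have h3 : ∑ ω ∈ A, F ω ^ 2 ≤ ∑ ω ∈ A, (3 / 2 * F (ω ᵥ* Mt n d p) ^ 2 +
        3 * (F (ω ᵥ* Mt n d p) - F ω) ^ 2) := sum_le_sum fun ω _ => by
      nlinarith [sq_nonneg (3 * F (ω ᵥ* Mt n d p) - 2 * F ω)]
    rw [sum_add_distrib, ← mul_sum, ← mul_sum] at h3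
    linarith
  have h4 : Disjoint (A.image fun ω => ω ᵥ* Mt n 1 p) (A.image fun ω => ω ᵥ* Mt n 3 p) := by
    rw [disjoint_left]
    intro ω h5 h6
    obtain ⟨a, ha, rfl⟩ := mem_image.1 h5
    obtain ⟨b, hb, e⟩ := mem_image.1 h6
    obtain ⟨l, hl, hl1, hl2⟩ := hA a ha
    obtain ⟨l', hl', hl1', hl2'⟩ := hA b hb
    obtain ⟨m1, m2, -⟩ := hl.move hl1 (d := 1) rfl (by omega)
    obtain ⟨m3, -, m4⟩ := hl'.move hl1' (d := 3) rfl hl2'
    rw [e] at m3 m4
    have := m1.unique m3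
    exact m2 (by rw [← m4 rfl]; congr 1; omega)
  have h5 : (A.image fun ω => ω ᵥ* Mt n 1 p) ∪ (A.image fun ω => ω ᵥ* Mt n 3 p) ⊆ B := by
    intro ω h5
    rcases mem_union.1 h5 with h6 | h6 <;> obtain ⟨a, ha, rfl⟩ := mem_image.1 h6 <;>
      obtain ⟨l, hl, hl1, hl2⟩ := hA a ha
    · exact hB _ _ (hl.move hl1 (d := 1) rfl (by omega)).1 (by omega)
    · exact hB _ _ (hl.move hl1 (d := 3) rfl hl2).1 (by omega)
  have h6 := sum_le_sum_of_subset_of_nonneg h5 (f := fun ω => F ω ^ 2) fun _ _ _ => sq_nonneg _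
  rw [sum_union h4] at h6
  linarith [h1 1 (Or.inl rfl), h1 3 (Or.inr rfl)]

/-- The unit vector (zero if out of range). -/
def uv (n a : ℕ) : V n := fun k => if (k : ℕ) = a then 1 else 0

theorem dot_uv (ω : V n) (a : ℕ) : ω ⬝ᵥ uv n a = ex ω a := by
  simp only [dotProduct, uv, mul_ite, mul_one, mul_zero, ex]
  split_ifs with h
  · rw [sum_eq_single ⟨a, h⟩]
    · simp
    · intro b _ hb; exact if_neg fun e => hb (Fin.ext e)
    · simp
  · refine sum_eq_zero fun k _ => if_neg fun (e : (k : ℕ) = a) => h (e ▸ k.2)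

/-- The seven generators. -/
def Gv (n a : ℕ) (w : V n) : V n :=
  if a < 3 then w + uv n a else Mt n (2 * ((a - 3) / 2) + 1) ((a - 3) % 2) *ᵥ w

theorem gap (f : V n → ℝ) (E : ℝ) (h : ∀ a < 7, ∑ w, (f (Gv n a w) - f w) ^ 2 ≤ E) :
    2 ^ n * ∑ w, f w ^ 2 ≤ (∑ w, f w) ^ 2 + 27 * (2 ^ n * E) := by
  classical
  have hE : ∀ a < 7, ∑ ω, (wt (fun w => f (Gv n a w)) ω - wt f ω) ^ 2 ≤ 2 ^ n * E := by
    intro a ha
    simp only [← wt_sub]
    rw [parseval]
    exact mul_le_mul_of_nonneg_left (h a ha) (by positivity)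
  have hT : ∀ a < 3, 4 * ∑ ω ∈ univ.filter (fun ω => ex ω a ≠ 0), wt f ω ^ 2 ≤ 2 ^ n * E := by
    intro a ha
    refine le_trans ?_ (hE a (by omega))
    simp only [Gv, if_pos ha, wt_shift, dot_uv]
    rw [mul_sum]
    refine le_trans (le_of_eq (sum_congr rfl fun ω hω => ?_))
      (sum_le_sum_of_subset_of_nonneg (filter_subset _ _) fun _ _ _ => sq_nonneg _)
    rw [(z2 _).resolve_left (mem_filter.1 hω).2, sg_one]; ring
  have hL : ∀ p < 2, ∀ d, d = 1 ∨ d = 3 →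
      ∑ ω, (wt f (ω ᵥ* Mt n d p) - wt f ω) ^ 2 ≤ 2 ^ n * E := by
    intro p hp d hd
    have := hE (3 + (d - 1) + p) (by omega)
    have e1 : ¬ (3 + (d - 1) + p < 3) := by omega
    have e2 : 2 * ((3 + (d - 1) + p - 3) / 2) + 1 = d := by omega
    have e3 : (3 + (d - 1) + p - 3) % 2 = p := by omega
    simp only [Gv, if_neg e1, e2, e3] at this
    simpa only [wt_lin f _ (Mt_invol d p (by omega))] using this
  let P : ℕ → Finset (V n) := fun p => univ.filter fun ω => ∃ l, Low ω l ∧ l % 2 = p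
  let A : ℕ → Finset (V n) := fun p => univ.filter fun ω => ∃ l, Low ω l ∧ l % 2 = p ∧ 3 ≤ l
  have k0 := key_half (wt f) 0 (by omega) _ (hL 0 (by omega)) (A 0) (P 1)
    (fun ω h => (mem_filter.1 h).2) (fun ω l h1 h2 => mem_filter.2 ⟨mem_univ _, l, h1, by omega⟩)
  have k1 := key_half (wt f) 1 (by omega) _ (hL 1 (by omega)) (A 1) (P 0)
    (fun ω h => (mem_filter.1 h).2) (fun ω l h1 h2 => mem_filter.2 ⟨mem_univ _, l, h1, by omega⟩)
  have hd : Disjoint (P 0) (P 1) := by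
    rw [disjoint_left]
    intro ω h0 h1
    obtain ⟨l, hl, e⟩ := (mem_filter.1 h0).2
    obtain ⟨l', hl', e'⟩ := (mem_filter.1 h1).2
    have := hl.unique hl'
    omega
  have hsub : P 0 ∪ P 1 ⊆ univ.erase 0 := by
    intro ω hω
    refine mem_erase.2 ⟨?_, mem_univ _⟩
    rintro rfl
    rcases mem_union.1 hω with h0 | h0 <;> obtain ⟨l, hl, -⟩ := (mem_filter.1 h0).2 <;>
      exact hl.1 (by simp [ex])
  have h1 := sum_le_sum_of_subset_of_nonneg hsub (f := fun ω => wt f ω ^ 2)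
    fun _ _ _ => sq_nonneg _
  rw [sum_union hd] at h1
  have h2 : ∑ ω ∈ univ.erase 0, wt f ω ^ 2 ≤ ∑ ω ∈ A 0, wt f ω ^ 2 + ∑ ω ∈ A 1, wt f ω ^ 2 +
      ∑ ω ∈ univ.filter (fun ω => ex ω 0 ≠ 0), wt f ω ^ 2 +
      ∑ ω ∈ univ.filter (fun ω => ex ω 1 ≠ 0), wt f ω ^ 2 +
      ∑ ω ∈ univ.filter (fun ω => ex ω 2 ≠ 0), wt f ω ^ 2 := by
    simp only [A, sum_filter, ← sum_add_distrib]
    rw [← filter_ne', sum_filter]
    refine sum_le_sum fun ω _ => ?_
    have hs := sq_nonneg (wt f ω)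
    by_cases h0 : ω = 0
    · rw [if_neg (not_not.2 h0)]
      split_ifs <;> linarith
    · rw [if_pos h0]
      obtain ⟨l, hl⟩ := exists_low h0
      by_cases c0 : l = 0
      · rw [if_pos (c0 ▸ hl.1 : ex ω 0 ≠ 0)]; split_ifs <;> linarith
      by_cases c1 : l = 1
      · rw [if_pos (c1 ▸ hl.1 : ex ω 1 ≠ 0)]; split_ifs <;> linarith
      by_cases c2 : l = 2
      · rw [if_pos (c2 ▸ hl.1 : ex ω 2 ≠ 0)]; split_ifs <;> linarith
      by_cases c3 : l % 2 = 0
      · rw [if_pos ⟨l, hl, c3, by omega⟩]; split_ifs <;> linarith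
      · rw [if_pos (c := ∃ l, Low ω l ∧ l % 2 = 1 ∧ 3 ≤ l) ⟨l, hl, by omega, by omega⟩]
        split_ifs <;> linarith
  have h3 := parseval f
  rw [← add_sum_erase _ _ (mem_univ (0 : V n))] at h3
  have h4 : wt f 0 = ∑ w, f w := by simp [wt, sg_zero]
  rw [h4] at h3
  linarith [hT 0 (by omega), hT 1 (by omega), hT 2 (by omega)]

theorem Gv_invol (a : ℕ) (w : V n) : Gv n a (Gv n a w) = w := by
  unfold Gv
  split_ifs
  · rw [add_assoc, add_self_V, add_zero]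
  · exact Mt_invol _ _ (by omega) w

/-- Vertex expansion. -/
theorem expand_V (S : Finset (V n)) (hS : 2 * S.card ≤ 2 ^ n) :
    ∃ a < 7, S.card ≤ 108 * (S.image (Gv n a) \ S).card := by
  classical
  by_contra hc
  push Not at hc
  have hpos : 0 < S.card := lt_of_le_of_lt (Nat.zero_le _) (hc 0 (by omega))
  let f : V n → ℝ := fun w => if w ∈ S then 1 else 0
  have h1 : ∀ a < 7, ∑ w, (f (Gv n a w) - f w) ^ 2 ≤ 2 * ((S.card - 1 : ℝ) / 108) := by
    intro a ha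
    have hi : Function.Injective (Gv n a) := Function.Involutive.injective (Gv_invol a)
    have e1 : ∀ w, Gv n a w ∈ S ↔ w ∈ S.image (Gv n a) := fun w =>
      ⟨fun h => mem_image.2 ⟨_, h, Gv_invol a w⟩, fun h => by
        obtain ⟨v, hv, rfl⟩ := mem_image.1 h; rwa [Gv_invol]⟩
    have e2 : ∑ w, (f (Gv n a w) - f w) ^ 2 =
        (S.image (Gv n a) \ S).card + (S \ S.image (Gv n a)).card := by
      rw [card_eq_sum_ones, card_eq_sum_ones]
      push_cast
      rw [← sum_ite_mem_eq (S.image (Gv n a) \ S), ← sum_ite_mem_eq (S \ S.image (Gv n a)),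
        ← sum_add_distrib]
      refine sum_congr rfl fun w _ => ?_
      simp only [f, e1, mem_sdiff]
      by_cases c1 : w ∈ S <;> by_cases c2 : w ∈ S.image (Gv n a) <;> simp [c1, c2]
    have e3 : (S \ S.image (Gv n a)).card = (S.image (Gv n a) \ S).card :=
      card_sdiff_comm (card_image_of_injective S hi).symm
    have e4 : (108 * (S.image (Gv n a) \ S).card + 1 : ℝ) ≤ S.card := by
      exact_mod_cast hc a ha
    rw [e2, e3]; linarith
  have h2 := gap f _ h1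
  have h3 : ∑ w, f w = S.card := by simp [f]
  have h4 : ∑ w, f w ^ 2 = S.card := by simp [f]
  rw [h3, h4] at h2
  have h5 : (2 * S.card : ℝ) ≤ 2 ^ n := by exact_mod_cast hS
  have h6 : (0 : ℝ) < S.card := by exact_mod_cast hpos
  have h7 : (0 : ℝ) < 2 ^ n := by positivity
  nlinarith

end Pool.Agent.Lib.MP_848037_lc
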