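import Pool.Agent.Lib.MP_848037_lc.Fourier
import Pool.Agent.Shared.Type2.Disc

set_option autoImplicit false

namespace Pool.Agent.Lib.MP_848037_lc

open Finset Pool.Agent.Shared.Type2

abbrev Str := List Bool

/-- All strings of length `n`. -/
def allS (n : ℕ) : List Str :=
  nrec n [[]] fun _ L => L.map (fun s => false :: s) ++ L.map (fun s => true :: s)

theorem mem_allS {n : ℕ} {s : Str} : s ∈ allS n ↔ s.length = n := by
  induction n generalizing s with
  | zero => simp [allS]
  | succ n ih =>
    have : allS (n + 1) = (allS n).map (fun s => false :: s) ++ (allS n).map (fun s => true :: s) :=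
      rfl
    rw [this]
    rcases s with _ | ⟨_ | _, s⟩ <;> simp [ih]

theorem nodup_allS (n : ℕ) : (allS n).Nodup := by
  induction n with
  | zero => simp [allS]
  | succ n ih =>
    have : allS (n + 1) = (allS n).map (fun s => false :: s) ++ (allS n).map (fun s => true :: s) :=
      rfl
    rw [this, List.nodup_append]
    refine ⟨ih.map fun _ _ h => by simpa using h, ih.map fun _ _ h => by simpa using h, ?_⟩
    simp

@[fun_prop] theorem td_allS {X : Type} [Rep X] {f : X → ℕ} (hf : TD f) :
    TD fun x => allS (f x) := by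
  unfold allS; fun_prop

/-- The finite set of strings of length `n`. -/
def Om (n : ℕ) : Finset Str := (allS n).toFinset

@[simp] theorem mem_Om {n : ℕ} {s : Str} : s ∈ Om n ↔ s.length = n := by simp [Om, mem_allS]

/-- The strings of length `n` whose child `b` lies in `X`. -/
def ch (n : ℕ) (X : Finset Str) (b : Bool) : Finset Str := (Om n).filter fun u => u ++ [b] ∈ X

@[simp] theorem mem_ch {n : ℕ} {X : Finset Str} {b : Bool} {u : Str} :
    u ∈ ch n X b ↔ u.length = n ∧ u ++ [b] ∈ X := by simp [ch]

theorem card_split {n : ℕ} {X : Finset Str} (hX : X ⊆ Om (n + 1)) :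
    X.card = (ch n X false).card + (ch n X true).card := by
  have h1 : ∀ b, (ch n X b).card = ((ch n X b).image fun u => u ++ [b]).card := fun b =>
    (card_image_of_injective _ fun _ _ h => by simpa using h).symm
  rw [h1, h1, ← card_union_of_disjoint]
  · congr 1
    ext s
    simp only [mem_union, mem_image, mem_ch]
    constructor
    · intro hs
      have hl := mem_Om.1 (hX hs)
      obtain ⟨u, b, rfl⟩ : ∃ u b, s = u ++ [b] := by
        rcases List.eq_nil_or_concat s with rfl | ⟨u, b, rfl⟩
        · simp at hl
        · exact ⟨u, b, by simp⟩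
      have hu : u.length = n := by simpa using hl
      cases b
      · exact Or.inl ⟨u, ⟨hu, hs⟩, rfl⟩
      · exact Or.inr ⟨u, ⟨hu, hs⟩, rfl⟩
    · rintro (⟨u, ⟨-, h⟩, rfl⟩ | ⟨u, ⟨-, h⟩, rfl⟩) <;> exact h
  · rw [disjoint_left]
    intro s h1 h2
    obtain ⟨u, -, rfl⟩ := mem_image.1 h1
    obtain ⟨v, -, h⟩ := mem_image.1 h2
    simpa using congrArg List.getLast? h

/-- The generators acting on strings. -/
def gen (a : ℕ) (l : Str) : Str :=
  (List.range l.length).map fun k => xor (l.getD k false)
    (if a < 3 then decide (k = a) else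
      decide (k % 2 = (a - 3) % 2) && decide (2 * ((a - 3) / 2) + 1 ≤ k) &&
        l.getD (k - (2 * ((a - 3) / 2) + 1)) false)

@[simp] theorem length_gen (a : ℕ) (l : Str) : (gen a l).length = l.length := by simp [gen]

theorem gen_take (a m : ℕ) (l : Str) : gen a (l.take m) = (gen a l).take m := by
  apply List.ext_getElem (by simp)
  intro k h1 h2
  have h3 : k < m := by simp at h1; omega
  have h4 : ∀ i ≤ k, (l.take m).getD i false = l.getD i false := fun i hi => by
    simp [List.getD, show i < m by omega]
  simp only [gen, List.getElem_map, List.getElem_range, List.getElem_take]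
  rw [h4 k le_rfl, h4 _ (Nat.sub_le _ _)]

@[fun_prop] theorem td_gen {X : Type} [Rep X] {f : X → ℕ} {g : X → Str} (hf : TD f) (hg : TD g) :
    TD fun x => gen (f x) (g x) := by
  unfold gen; fun_prop

/-- Bits. -/
def bz (x : ZMod 2) : Bool := decide (x = 1)

theorem bz_add (x y : ZMod 2) : bz (x + y) = xor (bz x) (bz y) := by
  revert x y; decide

theorem bz_zero : bz 0 = false := by decide
theorem bz_one : bz 1 = true := by decide

/-- Vectors as strings. -/
def toL {n : ℕ} (w : V n) : Str := List.ofFn fun i => bz (w i)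

theorem length_toL {n : ℕ} (w : V n) : (toL w).length = n := by simp [toL]

theorem getD_toL {n : ℕ} (w : V n) (k : ℕ) : (toL w).getD k false = bz (ex w k) := by
  by_cases h : k < n
  · simp [toL, ex, h, List.getD]
  · simp [toL, ex, h, List.getD, bz_zero]

theorem toL_inj {n : ℕ} : Function.Injective (toL : V n → Str) := by
  intro w v h
  funext i
  have := congrFun (List.ofFn_injective h) i
  rcases z2 (w i) with h1 | h1 <;> rcases z2 (v i) with h2 | h2 <;>
    simp_all [bz_zero, bz_one]

theorem toL_surj (l : Str) : ∃ w : V l.length, toL w = l := by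
  refine ⟨fun i => if l[i] then 1 else 0, List.ext_getElem (length_toL _) fun k h1 h2 => ?_⟩
  simp only [toL, List.getElem_ofFn, Fin.getElem_fin]
  cases l[k] <;> simp [bz_zero, bz_one]

theorem gen_toL {n : ℕ} (a : ℕ) (w : V n) : gen a (toL w) = toL (Gv n a w) := by
  apply List.ext_getElem (by simp [length_toL])
  intro k h1 h2
  have hk : k < n := by simpa [length_toL] using h2
  simp only [gen, List.getElem_map, List.getElem_range, getD_toL]
  simp only [toL, List.getElem_ofFn, Gv]
  split_ifs with h
  · rw [Pi.add_apply, bz_add, ← ex_fin w]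
    congr 1
    by_cases e : k = a <;> simp [uv, e, bz_zero, bz_one]
  · rw [Mt_mulVec, bz_add, ← ex_fin w]
    congr 1
    by_cases e1 : k % 2 = (a - 3) % 2 <;> by_cases e2 : 2 * ((a - 3) / 2) + 1 ≤ k <;>
      simp [e1, e2, bz_zero]

theorem gen_gen (a : ℕ) (l : Str) : gen a (gen a l) = l := by
  obtain ⟨w, h⟩ := toL_surj l
  rw [← h, gen_toL, gen_toL, Gv_invol]

theorem expand_L {n : ℕ} {S : Finset Str} (hS : S ⊆ Om n) (h : 2 * S.card ≤ 2 ^ n) :
    ∃ a < 7, S.card ≤ 108 * (S.image (gen a) \ S).card := by
  let T : Finset (V n) := univ.filter fun w => toL w ∈ S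
  have h1 : T.image toL = S := by
    ext l
    simp only [T, mem_image, mem_filter, mem_univ, true_and]
    constructor
    · rintro ⟨w, h, rfl⟩; exact h
    · intro hl
      have := mem_Om.1 (hS hl)
      subst this
      obtain ⟨w, h⟩ := toL_surj l
      exact ⟨w, h.symm ▸ hl, h⟩
  have h2 : T.card = S.card := by rw [← h1, card_image_of_injective _ toL_inj]
  obtain ⟨a, ha, h3⟩ := expand_V T (h2 ▸ h)
  refine ⟨a, ha, ?_⟩
  rw [← h2, ← h1, image_image]
  have : (gen a ∘ toL : V n → Str) = toL ∘ Gv n a := funext fun w => gen_toL a w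
  rw [this, ← image_image, ← image_sdiff _ _ toL_inj, card_image_of_injective _ toL_inj]
  exact h3

/-- Action of a word. -/
def app (w : List ℕ) (l : Str) : Str := w.foldr gen l

@[simp] theorem length_app (w : List ℕ) (l : Str) : (app w l).length = l.length := by
  induction w with
  | nil => rfl
  | cons a w ih => exact (length_gen _ _).trans ih

theorem app_take (w : List ℕ) (m : ℕ) (l : Str) : app w (l.take m) = (app w l).take m := by
  induction w with
  | nil => rfl
  | cons a w ih => change gen a (app w _) = (gen a (app w l)).take m; rw [ih, gen_take]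

theorem app_rev (w : List ℕ) (l : Str) : app w.reverse (app w l) = l := by
  induction w with
  | nil => rfl
  | cons a w ih =>
    change app (a :: w).reverse (gen a (app w l)) = l
    rw [List.reverse_cons, app, List.foldr_append]
    change app w.reverse (gen a (gen a _)) = l
    rw [gen_gen, ih]

theorem app_inj (w : List ℕ) : Function.Injective (app w) :=
  Function.LeftInverse.injective (app_rev w)

@[fun_prop] theorem td_app {X : Type} [Rep X] {f : X → List ℕ} {g : X → Str} (hf : TD f)
    (hg : TD g) : TD fun x => app (f x) (g x) := by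
  have : TD fun x => (f x).foldr (fun a l => gen a l) (g x) := by fun_prop
  exact this

/-- Neighbours of a left vertex `v`: the images of its tail under the words of `W`. -/
def nb (W : List (List ℕ)) (v : Str) : List Str := W.map fun w => app w v.tail

/-- The expansion property of a list of words. -/
def Expands (W : List (List ℕ)) : Prop :=
  ∀ (j : ℕ) (S : Finset Str), S ⊆ Om (j + 1) → 4 * S.card ≤ 2 ^ j →
    2 * S.card ≤ (S.biUnion fun v => (nb W v).toFinset).card

theorem exists_words (k : ℕ) : ∃ W : List (List ℕ), ∀ (n : ℕ) (T : Finset Str), T ⊆ Om n →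
    2 ^ n < 2 * (T.biUnion fun l => (W.map fun w => app w l).toFinset).card ∨
      109 ^ k * T.card ≤ 108 ^ k * (T.biUnion fun l => (W.map fun w => app w l).toFinset).card := by
  induction k with
  | zero => exact ⟨[[]], fun n T _ => Or.inr (by simp [app])⟩
  | succ k ih =>
    obtain ⟨W, hW⟩ := ih
    refine ⟨W ++ W.flatMap fun w => (List.range 7).map fun a => a :: w, fun n T hT => ?_⟩
    set N := T.biUnion fun l => (W.map fun w => app w l).toFinset with hN
    set N' := T.biUnion fun l => ((W ++ W.flatMap fun w => (List.range 7).map fun a =>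
      a :: w).map fun w => app w l).toFinset with hN'
    have h1 : N ⊆ N' := biUnion_mono fun l _ u hu => by
      simp only [List.map_append, List.toFinset_append, mem_union]; exact Or.inl hu
    have h2 : ∀ a < 7, N.image (gen a) ⊆ N' := by
      intro a ha u hu
      obtain ⟨v, hv, rfl⟩ := mem_image.1 hu
      obtain ⟨l, hl, hv⟩ := mem_biUnion.1 hv
      obtain ⟨w, hw, rfl⟩ := List.mem_map.1 (List.mem_toFinset.1 hv)
      refine mem_biUnion.2 ⟨l, hl, List.mem_toFinset.2 (List.mem_map.2 ⟨a :: w, ?_, rfl⟩)⟩
      exact List.mem_append_right _ (List.mem_flatMap.2 ⟨w, hw, List.mem_map.2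
        ⟨a, List.mem_range.2 ha, rfl⟩⟩)
    have h3 := card_le_card h1
    by_cases h4 : 2 ^ n < 2 * N.card
    · left; omega
    · right
      have h5 := (hW n T hT).resolve_left h4
      have h6 : N ⊆ Om n := by
        intro v hv
        obtain ⟨l, hl, hv⟩ := mem_biUnion.1 hv
        obtain ⟨w, hw, rfl⟩ := List.mem_map.1 (List.mem_toFinset.1 hv)
        simpa using hT hl
      obtain ⟨a, ha, h7⟩ := expand_L h6 (not_lt.1 h4)
      have h8 : (N.image (gen a) \ N).card + N.card ≤ N'.card := by
        rw [card_sdiff_add_card]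
        exact card_le_card (union_subset (h2 a ha) h1)
      calc 109 ^ (k + 1) * T.card = 109 * (109 ^ k * T.card) := by ring
        _ ≤ 109 * (108 ^ k * N.card) := Nat.mul_le_mul_left _ h5
        _ = 108 ^ k * (109 * N.card) := by ring
        _ ≤ 108 ^ k * (108 * N'.card) := Nat.mul_le_mul_left _ (by omega)
        _ = _ := by ring

theorem card_le_tail {j : ℕ} {S : Finset Str} (hS : S ⊆ Om (j + 1)) :
    S.card ≤ 2 * (S.image List.tail).card := by
  refine card_le_mul_card_image _ 2 fun t _ => ?_
  refine (card_le_card (t := {false :: t, true :: t}) fun v hv => ?_).trans card_le_two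
  obtain ⟨h1, rfl⟩ := mem_filter.1 hv
  have := mem_Om.1 (hS h1)
  rcases v with _ | ⟨_ | _, v⟩ <;> simp at this ⊢

theorem tail_subset {j : ℕ} {S : Finset Str} (hS : S ⊆ Om (j + 1)) : S.image List.tail ⊆ Om j := by
  intro t ht
  obtain ⟨v, hv, rfl⟩ := mem_image.1 ht
  have := mem_Om.1 (hS hv)
  simp [this]

theorem exists_expands : ∃ W, Expands W := by
  obtain ⟨W, hW⟩ := exists_words 151
  refine ⟨W, fun j S hS h => ?_⟩
  have h1 := card_le_tail hS
  have h2 := tail_subset hS
  have h3 := hW j _ h2
  rw [image_biUnion] at h3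
  change _ < 2 * (S.biUnion fun v => (nb W v).toFinset).card ∨
    _ ≤ _ * (S.biUnion fun v => (nb W v).toFinset).card at h3
  rcases h3 with h3 | h3
  · omega
  · have h4 : 108 ^ 151 * 4 ≤ 109 ^ 151 := by norm_num
    have h5 : 108 ^ 151 * (4 * (S.image List.tail).card) ≤
        108 ^ 151 * (S.biUnion fun v => (nb W v).toFinset).card := by
      rw [← mul_assoc]
      exact (Nat.mul_le_mul_right _ h4).trans h3
    have := Nat.le_of_mul_le_mul_left h5 (by positivity)
    omega

end Pool.Agent.Lib.MP_848037_lc
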