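import Pool.Agent.Lib.MP_848037_lc.Match

set_option autoImplicit false

namespace Pool.Agent.Lib.MP_848037_lc

open Finset Pool.Agent.Shared.Type2

theorem re_approx {p : Str × ℕ → Prop} (hp : REPred p) : ∃ k : Str × ℕ → ℕ → Bool,
    TD (fun q : (Str × ℕ) × ℕ => k q.1 q.2) ∧ (∀ a s t, s ≤ t → k a s = true → k a t = true) ∧
      ∀ a, p a ↔ ∃ s, k a s = true := by
  obtain ⟨c, hc⟩ := Nat.Partrec.Code.exists_code.1 hp
  refine ⟨fun a s => (Nat.Partrec.Code.evaln s c (Encodable.encode a)).isSome, ?_, ?_, ?_⟩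
  · refine TD.of_primrec (Primrec.option_isSome.comp (Nat.Partrec.Code.primrec_evaln.comp
      ((Primrec.snd.pair (Primrec.const c)).pair (Primrec.encode.comp Primrec.fst))))
  · intro a s t h h1
    obtain ⟨y, hy⟩ := Option.isSome_iff_exists.1 h1
    exact Option.isSome_iff_exists.2 ⟨y, Nat.Partrec.Code.evaln_mono h hy⟩
  · intro a
    have h1 : p a ↔ (c.eval (Encodable.encode a)).Dom := by
      rw [hc]; simp [Part.assert]
    rw [h1, Part.dom_iff_mem]
    simp only [Nat.Partrec.Code.evaln_complete, Option.isSome_iff_exists]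
    exact exists_comm

theorem re_of_test {p : Str × ℕ → Prop} {k : Str × ℕ → ℕ → Bool}
    (hk : TD fun q : (Str × ℕ) × ℕ => k q.1 q.2) (h : ∀ a, p a ↔ ∃ s, k a s = true) :
    REPred p := by
  have h1 : Computable₂ k := hk.computable
  have h2 := (Partrec.rfind (p := fun a s => (k a s : Part Bool)) h1.partrec₂).dom_re
  refine h2.of_eq fun a => ?_
  rw [h, Nat.rfind_dom]
  simp

/-- The three properties that characterise prefix-free complexity up to a constant. -/
structure IsK (K : Str → ℕ) : Prop where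
  re : REPred (fun p : Str × ℕ => K p.1 ≤ p.2)
  kraft : (∑' σ : Str, (2⁻¹ : ENNReal) ^ K σ) ≤ 1
  min : ∀ f : Str → ℕ, REPred (fun p : Str × ℕ => f p.1 ≤ p.2) →
    (∑' σ : Str, (2⁻¹ : ENNReal) ^ f σ) ≤ 1 → ∃ c : ℕ, ∀ σ : Str, K σ ≤ f σ + c

theorem half_anti {a b : ℕ} (h : a ≤ b) : (2⁻¹ : ENNReal) ^ b ≤ 2⁻¹ ^ a :=
  pow_le_pow_right_of_le_one' (by simp) h

variable {K : Str → ℕ}

theorem IsK.req (hK : IsK K) {R : Str × ℕ → Prop} (hR : REPred R) (g : Str → ENNReal)
    (hg : ∀ σ k, R (σ, k) → (2⁻¹ : ENNReal) ^ k ≤ g σ) (hs : ∑' σ, g σ ≤ 1) :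
    ∃ c, ∀ σ k, R (σ, k) → K σ ≤ k + c := by
  obtain ⟨k1, a1, -, a3⟩ := re_approx hK.re
  obtain ⟨k2, b1, -, b3⟩ := re_approx hR
  let T : Str → Set ℕ := fun σ => {k | ∃ k' < k, K σ ≤ k' ∨ R (σ, k')}
  have hT : ∀ σ, (T σ).Nonempty := fun σ => ⟨K σ + 1, K σ, by omega, Or.inl le_rfl⟩
  have h1 : ∀ σ k, sInf (T σ) ≤ k ↔ k ∈ T σ := fun σ k =>
    ⟨fun h => by
      obtain ⟨k', a, b⟩ := Nat.sInf_mem (hT σ)
      exact ⟨k', by omega, b⟩, fun h => Nat.sInf_le h⟩
  refine Exists.elim (hK.min (fun σ => sInf (T σ)) (re_of_test (k := fun a s =>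
    (List.range a.2).any fun k' => k1 (a.1, k') s || k2 (a.1, k') s) (by fun_prop) ?_) ?_)
    fun c hc => ⟨c + 1, fun σ k h => by
      have := hc σ
      have := (h1 σ (k + 1)).2 ⟨k, by omega, Or.inr h⟩
      omega⟩
  · rintro ⟨σ, k⟩
    simp only [h1, T, Set.mem_ofPred_eq, List.any_eq_true, List.mem_range, Bool.or_eq_true]
    constructor
    · rintro ⟨k', a, b | b⟩
      · obtain ⟨s, hs⟩ := (a3 (σ, k')).1 b
        exact ⟨s, k', a, Or.inl hs⟩
      · obtain ⟨s, hs⟩ := (b3 _).1 b
        exact ⟨s, k', a, Or.inr hs⟩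
    · rintro ⟨s, k', a, b | b⟩
      · exact ⟨k', a, Or.inl ((a3 (σ, k')).2 ⟨s, b⟩)⟩
      · exact ⟨k', a, Or.inr ((b3 _).2 ⟨s, b⟩)⟩
  · calc _ ≤ ∑' σ, (2⁻¹ * 2⁻¹ ^ K σ + 2⁻¹ * g σ) := ENNReal.tsum_le_tsum fun σ => by
          obtain ⟨k', a, b⟩ := Nat.sInf_mem (hT σ)
          refine (half_anti (Nat.succ_le_of_lt a)).trans ?_
          rw [pow_succ']
          rcases b with b | b
          · exact le_add_right (mul_le_mul_right (half_anti b) _)
          · exact le_add_left (by gcongr; exact hg _ _ b)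
      _ ≤ 2⁻¹ * 1 + 2⁻¹ * 1 := by
          rw [ENNReal.tsum_add, ENNReal.tsum_mul_left, ENNReal.tsum_mul_left]
          gcongr
          exact hK.kraft
      _ = 1 := by rw [mul_one, ENNReal.inv_two_add_inv_two]

theorem IsK.comp (hK : IsK K) {h : Str → Str} (hh : TD h) :
    ∃ c, ∀ τ, (h τ).length = τ.length → K (h τ) ≤ K τ + c := by
  classical
  obtain ⟨k1, a1, -, a3⟩ := re_approx hK.re
  refine Exists.elim (hK.req
    (R := fun p => ∃ τ : Str, τ.length = p.1.length ∧ h τ = p.1 ∧ K τ ≤ p.2)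
    (re_of_test (k := fun a s => (allS a.1.length).any fun τ => decide (h τ = a.1) &&
      k1 (τ, a.2) s) (by fun_prop) ?_) (fun σ => ∑' τ, if h τ = σ then 2⁻¹ ^ K τ else 0) ?_ ?_)
    fun c hc => ⟨c, fun τ e => hc _ _ ⟨τ, e.symm, rfl, le_rfl⟩⟩
  · rintro ⟨σ, k⟩
    simp only [List.any_eq_true, mem_allS, Bool.and_eq_true, decide_eq_true_eq]
    constructor
    · rintro ⟨τ, a, b, d⟩
      obtain ⟨s, hs⟩ := (a3 (τ, k)).1 d
      exact ⟨s, τ, a, b, hs⟩
    · rintro ⟨s, τ, a, b, d⟩
      exact ⟨τ, a, b, (a3 (τ, k)).2 ⟨s, d⟩⟩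
  · rintro σ k ⟨τ, -, b, d⟩
    refine (half_anti d).trans (le_trans ?_ (ENNReal.le_tsum τ))
    rw [if_pos b]
  · rw [ENNReal.tsum_comm]
    refine le_trans (le_of_eq (tsum_congr fun τ => ?_)) hK.kraft
    simp only [eq_comm (a := h τ)]
    exact tsum_ite_eq _ _

theorem tsum_len (F : ℕ → ENNReal) :
    ∑' θ : Str, 2⁻¹ ^ θ.length * F θ.length = ∑' i, F i := by
  rw [← (List.equivSigmaTuple (α := Bool)).symm.tsum_eq, ENNReal.tsum_sigma']
  refine tsum_congr fun i => ?_
  have : ∀ f : Fin i → Bool, ((List.equivSigmaTuple (α := Bool)).symm ⟨i, f⟩).length = i :=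
    fun f => by simp [List.equivSigmaTuple]
  simp only [this]
  rw [tsum_fintype, sum_const, card_univ, nsmul_eq_mul, ← mul_assoc]
  simp only [Fintype.card_pi, Fintype.card_bool, prod_const, card_univ, Fintype.card_fin,
    Nat.cast_pow, Nat.cast_ofNat]
  rw [← mul_pow, ENNReal.mul_inv_cancel (by simp) (by simp), one_pow, one_mul]

theorem IsK.ext (hK : IsK K) : ∃ c, ∀ (η θ : Str),
    K (η ++ θ) ≤ K η + θ.length + K (List.replicate (η.length + θ.length) false) + c := by
  classical
  obtain ⟨k1, a1, a2, a3⟩ := re_approx hK.re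
  refine Exists.elim (hK.req (R := fun p => ∃ η θ : Str, η ++ θ = p.1 ∧
      K η + θ.length + K (List.replicate (η.length + θ.length) false) ≤ p.2)
    (re_of_test (k := fun a s => (List.range (a.1.length + 1)).any fun m =>
      (List.range (a.2 + 1)).any fun i => (List.range (a.2 + 1)).any fun j =>
        decide (i + (a.1.length - m) + j ≤ a.2) && k1 (a.1.take m, i) s &&
          k1 (List.replicate a.1.length false, j) s) (by fun_prop) ?_)
    (fun σ => ∑' p : Str × Str, if p.1 ++ p.2 = σ then 2⁻¹ ^ (K p.1 + p.2.length +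
      K (List.replicate (p.1.length + p.2.length) false)) else 0) ?_ ?_)
    fun c hc => ⟨c, fun η θ => hc _ _ ⟨η, θ, rfl, le_rfl⟩⟩
  · rintro ⟨σ, k⟩
    simp only [List.any_eq_true, List.mem_range, Bool.and_eq_true, decide_eq_true_eq]
    constructor
    · rintro ⟨η, θ, rfl, d⟩
      obtain ⟨s, hs⟩ := (a3 (η, K η)).1 le_rfl
      obtain ⟨t, ht⟩ := (a3 (List.replicate (η.length + θ.length) false,
        K (List.replicate (η.length + θ.length) false))).1 le_rfl
      refine ⟨max s t, η.length, by simp, K η, by omega,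
        K (List.replicate (η.length + θ.length) false), by omega, ⟨by simpa using d, ?_⟩, ?_⟩
      · simpa using a2 _ _ _ (le_max_left s t) hs
      · simpa using a2 _ _ _ (le_max_right s t) ht
    · rintro ⟨s, m, a, i, -, j, -, ⟨b, d⟩, e⟩
      have d' := (a3 _).2 ⟨s, d⟩
      have e' := (a3 _).2 ⟨s, e⟩
      refine ⟨σ.take m, σ.drop m, List.take_append_drop _ _, ?_⟩
      rw [← List.length_append, List.take_append_drop, List.length_drop]
      simp only at d' e'
      omega
  · rintro σ k ⟨η, θ, b, d⟩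
    refine (half_anti d).trans (le_trans ?_ (ENNReal.le_tsum (η, θ)))
    rw [if_pos b]
  · rw [ENNReal.tsum_comm]
    have h1 : ∀ p : Str × Str, (∑' σ, if p.1 ++ p.2 = σ then (2⁻¹ : ENNReal) ^ (K p.1 +
        p.2.length + K (List.replicate (p.1.length + p.2.length) false)) else 0) =
        2⁻¹ ^ K p.1 * (2⁻¹ ^ p.2.length *
          2⁻¹ ^ K (List.replicate (p.1.length + p.2.length) false)) := fun p => by
      simp only [eq_comm (a := p.1 ++ p.2)]
      rw [tsum_ite_eq, pow_add, pow_add, mul_assoc]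
    rw [tsum_congr h1, ENNReal.tsum_prod']
    refine le_trans (ENNReal.tsum_le_tsum fun η => ?_) hK.kraft
    simp only
    rw [ENNReal.tsum_mul_left,
      tsum_len fun i => 2⁻¹ ^ K (List.replicate (η.length + i) false)]
    refine mul_le_of_le_one_right' (le_trans ?_ hK.kraft)
    exact ENNReal.tsum_comp_le_tsum_of_injective
      (f := fun i => List.replicate (η.length + i) false)
      (fun a b h => by simpa using congrArg List.length h) fun σ => 2⁻¹ ^ K σ

/-- An initial segment of `r` is compressible relative to the start `σ`. -/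
def Bad (K : Str → ℕ) (σ r : Str) : Prop := ∃ i ≤ r.length, K (σ ++ r.take i) + 4 ≤ i

theorem IsK.small (hK : IsK K) (σ : Str) (j : ℕ) (T : Finset Str) (hT : T ⊆ Om j)
    (hB : ∀ r ∈ T, Bad K σ r) : 16 * T.card ≤ 2 ^ j := by
  have key : ∀ j : ℕ, ∃ F : Finset Str, (∀ η ∈ F, η.length ≤ σ.length + j) ∧
      ∀ T : Finset Str, T ⊆ Om j → (∀ r ∈ T, Bad K σ r) →
        (16 * T.card : ENNReal) ≤ 2 ^ j * ∑ η ∈ F, 2⁻¹ ^ K η := by
    intro j
    induction j with
    | zero =>
      refine ⟨∅, by simp, fun T hT hB => ?_⟩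
      have : T = ∅ := eq_empty_of_forall_notMem fun r hr => by
        obtain ⟨i, a, b⟩ := hB r hr
        have := mem_Om.1 (hT hr)
        omega
      simp [this]
    | succ j ih =>
      obtain ⟨F, hF, ih⟩ := ih
      have hd : Disjoint F ((Om (j + 1)).image fun r => σ ++ r) := disjoint_left.2 fun η a b => by
        obtain ⟨r, hr, rfl⟩ := mem_image.1 b
        have := hF _ a
        simp [mem_Om.1 hr] at this
      refine ⟨F ∪ (Om (j + 1)).image fun r => σ ++ r, fun η h => ?_, fun T hT hB => ?_⟩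
      · rcases mem_union.1 h with a | b
        · have := hF _ a; omega
        · obtain ⟨r, hr, rfl⟩ := mem_image.1 b
          simp [mem_Om.1 hr]
      rw [sum_union hd, sum_image fun _ _ _ _ h => List.append_cancel_left h, mul_add,
        ← card_filter_add_card_filter_not (s := T) fun r => ¬ K (σ ++ r) + 4 ≤ j + 1]
      rw [Nat.cast_add, mul_add]
      refine add_le_add ?_ ?_
      · set T' := T.filter fun r => ¬ K (σ ++ r) + 4 ≤ j + 1
        have h1 : ∀ b, (16 * (ch j T' b).card : ENNReal) ≤ 2 ^ j * ∑ η ∈ F, 2⁻¹ ^ K η := by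
          intro b
          refine ih _ (filter_subset _ _) fun r hr => ?_
          obtain ⟨a1, a2⟩ := mem_ch.1 hr
          obtain ⟨a3, a4⟩ := mem_filter.1 a2
          obtain ⟨i, b1, b2⟩ := hB _ a3
          have b3 : i ≤ r.length := by
            by_contra b4
            rw [List.take_of_length_le (by simp; omega)] at b2
            simp at b1
            omega
          exact ⟨i, b3, by rwa [List.take_append_of_le_length b3] at b2⟩
        rw [card_split (n := j) (X := T') ((filter_subset _ _).trans hT)]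
        push_cast
        rw [mul_add, pow_succ', mul_assoc, two_mul]
        exact add_le_add (h1 _) (h1 _)
      · rw [card_eq_sum_ones, mul_sum]
        push_cast
        rw [mul_sum]
        refine le_trans (sum_le_sum fun r hr => ?_) (sum_le_sum_of_subset
          ((filter_subset _ _).trans hT))
        have h0 : K (σ ++ r) + 4 ≤ j + 1 := by
          have := not_not.1 (mem_filter.1 hr).2
          omega
        calc (16 * 1 : ENNReal) = 2 ^ (K (σ ++ r) + 4) * 2⁻¹ ^ K (σ ++ r) := by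
              rw [pow_add, mul_right_comm, ← mul_pow,
                ENNReal.mul_inv_cancel (by simp) (by simp), one_pow, one_mul]
              norm_num
          _ ≤ _ := mul_le_mul_left (pow_le_pow_right₀ (by simp) h0) _
  obtain ⟨F, -, hF⟩ := key j
  have h1 := (hF T hT hB).trans (mul_le_of_le_one_right'
    ((ENNReal.sum_le_tsum F).trans hK.kraft))
  exact_mod_cast h1

end Pool.Agent.Lib.MP_848037_lc
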