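import Pool.Agent.Lib.MP_848037_lc.Graph

set_option autoImplicit false

namespace Pool.Agent.Lib.MP_848037_lc

open Finset Pool.Agent.Shared.Type2

section abstract

variable {α β : Type} [DecidableEq α] [DecidableEq β]

/-- The Friedman-Pippenger invariant. -/
def FP (L : Finset α) (N : α → Finset β) (t : ℕ) (M : Finset α) (U : Finset β) : Prop :=
  ∀ S ⊆ L, Disjoint S M → 4 * S.card ≤ t → S.card ≤ (S.biUnion N \ U).card

variable {L : Finset α} {N : α → Finset β} {t : ℕ} {M : Finset α} {U : Finset β}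

omit [DecidableEq α] in
theorem slack (hexp : ∀ S ⊆ L, 4 * S.card ≤ t → 2 * S.card ≤ (S.biUnion N).card)
    (hU : 8 * U.card ≤ t) {S : Finset α} (hS : S ⊆ L) (h1 : 4 * S.card ≤ t)
    (h2 : t < 8 * S.card) : S.card < (S.biUnion N \ U).card := by
  have := hexp S hS h1
  have := le_card_sdiff U (S.biUnion N)
  omega

theorem unit_step (hexp : ∀ S ⊆ L, 4 * S.card ≤ t → 2 * S.card ≤ (S.biUnion N).card)
    (hU : 8 * U.card ≤ t) (ht : 8 ≤ t) (h : FP L N t M U) {v : α} (hv : v ∈ L) (hM : v ∉ M) :
    ∃ u ∈ N v, u ∉ U ∧ FP L N t (insert v M) (insert u U) := by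
  by_contra hc
  push Not at hc
  let Crit : Finset α → Prop := fun S => S ⊆ L ∧ Disjoint S (insert v M) ∧ 8 * S.card ≤ t ∧
    (S.biUnion N \ U).card ≤ S.card
  have hd : ∀ {S}, Disjoint S (insert v M) → Disjoint S M := fun h =>
    h.mono_right (subset_insert _ _)
  have hu : ∀ A B, Crit A → Crit B → Crit (A ∪ B) := by
    rintro A B ⟨a1, a2, a3, a4⟩ ⟨b1, b2, b3, b4⟩
    have h1 := card_union_add_card_inter A B
    have h2 := card_union_add_card_inter (A.biUnion N \ U) (B.biUnion N \ U)
    have h3 : (A ∪ B).biUnion N \ U = (A.biUnion N \ U) ∪ (B.biUnion N \ U) := by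
      rw [union_biUnion, union_sdiff_distrib]
    have h4 : (A ∩ B).biUnion N \ U ⊆ (A.biUnion N \ U) ∩ (B.biUnion N \ U) :=
      subset_inter (sdiff_subset_sdiff (biUnion_subset_biUnion_of_subset_left _ inter_subset_left)
        Subset.rfl) (sdiff_subset_sdiff
          (biUnion_subset_biUnion_of_subset_left _ inter_subset_right) Subset.rfl)
    have h5 := card_le_card h4
    have h6 := card_le_card (inter_subset_left (s₁ := A) (s₂ := B))
    have h7 := h (A ∩ B) (inter_subset_left.trans a1) ((hd a2).mono_left inter_subset_left)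
      (by omega)
    have h8 : ((A ∪ B).biUnion N \ U).card ≤ (A ∪ B).card := by rw [h3]; omega
    refine ⟨union_subset a1 b1, disjoint_union_left.2 ⟨a2, b2⟩, ?_, h8⟩
    by_contra h9
    have := slack hexp hU (union_subset a1 b1) (by omega) (not_le.1 h9)
    omega
  have hall : ∀ T : Finset β, T ⊆ N v \ U → ∃ S, Crit S ∧ T ⊆ S.biUnion N := by
    intro T
    induction T using Finset.induction_on with
    | empty => exact fun _ => ⟨∅, ⟨empty_subset _, by simp, by simp, by simp⟩, empty_subset _⟩
    | insert u T _ ih =>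
      intro hT
      obtain ⟨S, hS, hS'⟩ := ih ((subset_insert _ _).trans hT)
      obtain ⟨u1, u2⟩ := mem_sdiff.1 (hT (mem_insert_self _ _))
      have h1 := hc u u1 u2
      unfold FP at h1
      push Not at h1
      obtain ⟨R, r1, r2, r3, r4⟩ := h1
      have h2 := h R r1 (hd r2) r3
      rw [sdiff_insert] at r4
      have h3 : u ∈ R.biUnion N \ U := by
        by_contra h4
        rw [erase_eq_of_notMem h4] at r4
        omega
      rw [card_erase_of_mem h3] at r4
      have h5 : Crit R := by
        refine ⟨r1, r2, ?_, by omega⟩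
        by_contra h9
        have := slack hexp hU r1 r3 (not_le.1 h9)
        omega
      refine ⟨S ∪ R, hu _ _ hS h5, ?_⟩
      rw [union_biUnion]
      exact insert_subset (mem_union_right _ (mem_sdiff.1 h3).1) (hS'.trans subset_union_left)
  obtain ⟨S, ⟨s1, s2, s3, s4⟩, hT⟩ := hall (N v \ U) Subset.rfl
  have h1 : v ∉ S := fun h => disjoint_left.1 s2 h (mem_insert_self _ _)
  have h2 := h (insert v S) (insert_subset hv s1) (disjoint_insert_left.2 ⟨hM, hd s2⟩)
    (by rw [card_insert_of_notMem h1]; omega)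
  have h3 : (insert v S).biUnion N \ U ⊆ S.biUnion N \ U := by
    intro u hu
    obtain ⟨u1, u2⟩ := mem_sdiff.1 hu
    rw [biUnion_insert] at u1
    rcases mem_union.1 u1 with u3 | u3
    · exact mem_sdiff.2 ⟨hT (mem_sdiff.2 ⟨u3, u2⟩), u2⟩
    · exact mem_sdiff.2 ⟨u3, u2⟩
  have h4 := card_le_card h3
  rw [card_insert_of_notMem h1] at h2
  omega

end abstract

@[fun_prop] theorem td_filter {X Y : Type} [Rep X] [Rep Y] [Primcodable Y] [Disc Y]
    {l : X → List Y} {h : X → Y → Bool} (hl : TD l) (hh : TD fun p : X × Y => h p.1 p.2) :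
    TD fun x => (l x).filter (h x) := by
  have h1 : TD fun x => (l x).flatMap fun y => cond (h x y) [y] [] := by fun_prop
  refine h1.of_eq fun x => ?_
  induction l x with
  | nil => rfl
  | cons a t ih => cases e : h x a <;> simp [e, ih]

/-- Some member of `P` is an initial segment of `v`. -/
def pre (P : List Str) (v : Str) : Bool := P.any fun p => decide (v.take p.length = p)

theorem pre_iff {P : List Str} {v : Str} : pre P v = true ↔ ∃ p ∈ P, p <+: v := by
  simp only [pre, List.any_eq_true, decide_eq_true_eq]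
  exact exists_congr fun p => and_congr_right fun _ => by
    rw [List.prefix_iff_eq_take, eq_comm]

@[fun_prop] theorem td_pre {X : Type} [Rep X] {f : X → List Str} {g : X → Str} (hf : TD f)
    (hg : TD g) : TD fun x => pre (f x) (g x) := by
  unfold pre; fun_prop

@[fun_prop] theorem td_nb {X : Type} [Rep X] (W : List (List ℕ)) {g : X → Str}
    (hg : TD g) : TD fun x => nb W (g x) := by
  unfold nb; fun_prop

abbrev St := List (Str × Str)

/-- Served left vertices. -/
def MM (j : ℕ) (A : St) : Finset Str := (Om (j + 1)).filter fun v => ∃ p ∈ A, p.1 <+: v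
/-- Used cells. -/
def UU (j : ℕ) (A : St) : Finset Str := (Om j).filter fun u => ∃ p ∈ A, p.2 <+: u

theorem mem_MM {j : ℕ} {A : St} {v : Str} :
    v ∈ MM j A ↔ v.length = j + 1 ∧ ∃ p ∈ A, p.1 <+: v := by simp only [MM, mem_filter, mem_Om]
theorem mem_UU {j : ℕ} {A : St} {v : Str} :
    v ∈ UU j A ↔ v.length = j ∧ ∃ p ∈ A, p.2 <+: v := by simp only [UU, mem_filter, mem_Om]

theorem pre_fst {A : St} {v : Str} : pre (A.map fun p => p.1) v = true ↔ ∃ p ∈ A, p.1 <+: v := by
  rw [pre_iff]
  exact ⟨fun ⟨_, h, e⟩ => by obtain ⟨p, hp, rfl⟩ := List.mem_map.1 h; exact ⟨p, hp, e⟩,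
    fun ⟨p, hp, e⟩ => ⟨_, List.mem_map.2 ⟨p, hp, rfl⟩, e⟩⟩
theorem pre_snd {A : St} {v : Str} : pre (A.map fun p => p.2) v = true ↔ ∃ p ∈ A, p.2 <+: v := by
  rw [pre_iff]
  exact ⟨fun ⟨_, h, e⟩ => by obtain ⟨p, hp, rfl⟩ := List.mem_map.1 h; exact ⟨p, hp, e⟩,
    fun ⟨p, hp, e⟩ => ⟨_, List.mem_map.2 ⟨p, hp, rfl⟩, e⟩⟩

/-- The invariant at level `j`. -/
def Inv (W : List (List ℕ)) (j : ℕ) (A : St) : Prop :=
  FP (Om (j + 1)) (fun v => (nb W v).toFinset) (2 ^ j) (MM j A) (UU j A)

/-- All sublists. -/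
def subs (l : List Str) : List (List Str) :=
  l.foldr (fun a acc => acc ++ acc.map fun S => a :: S) [[]]

theorem subs_eq (l : List Str) : subs l = l.sublists' := by
  induction l with
  | nil => rfl
  | cons a l ih => rw [List.sublists'_cons, ← ih]; rfl

/-- The invariant as a test. -/
def invB (W : List (List ℕ)) (j : ℕ) (A : St) : Bool :=
  (subs (allS (j + 1))).all fun S => S.any (fun v => pre (A.map fun p => p.1) v) ||
    decide (2 ^ j < 4 * S.length) || decide (S.length ≤ ((allS j).filter fun u =>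
      !pre (A.map fun p => p.2) u && S.any fun v => (nb W v).any fun u' => decide (u' = u)).length)

@[fun_prop] theorem td_invB {X : Type} [Rep X] (W : List (List ℕ)) {f : X → ℕ} {g : X → St}
    (hf : TD f) (hg : TD g) : TD fun x => invB W (f x) (g x) := by
  unfold invB subs; fun_prop

theorem length_nb {W : List (List ℕ)} {v u : Str} (h : u ∈ nb W v) : u.length = v.length - 1 := by
  obtain ⟨w, -, rfl⟩ := List.mem_map.1 h
  simp

theorem invB_iff (W : List (List ℕ)) (j : ℕ) (A : St) : invB W j A = true ↔ Inv W j A := by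
  have key : ∀ S : List Str, S.Sublist (allS (j + 1)) →
      ((S.any (fun v => pre (A.map fun p => p.1) v) ||
        decide (2 ^ j < 4 * S.length) || decide (S.length ≤ ((allS j).filter fun u =>
        !pre (A.map fun p => p.2) u &&
          S.any fun v => (nb W v).any fun u' => decide (u' = u)).length)) = true ↔
      (Disjoint S.toFinset (MM j A) → 4 * S.toFinset.card ≤ 2 ^ j → S.toFinset.card ≤
        (S.toFinset.biUnion (fun v => (nb W v).toFinset) \ UU j A).card)) := by
    intro S hS
    have hl : ∀ v ∈ S, v.length = j + 1 := fun v hv => mem_allS.1 (hS.subset hv)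
    have h1 : S.toFinset.card = S.length := List.toFinset_card_of_nodup (hS.nodup (nodup_allS _))
    have h2 : ((allS j).filter fun u => !pre (A.map fun p => p.2) u &&
          S.any fun v => (nb W v).any fun u' => decide (u' = u)).length =
        (S.toFinset.biUnion (fun v => (nb W v).toFinset) \ UU j A).card := by
      rw [← List.toFinset_card_of_nodup ((nodup_allS j).filter _)]
      congr 1
      ext u
      simp only [List.mem_toFinset, List.mem_filter, mem_allS, Bool.and_eq_true, Bool.not_eq_true',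
        ← Bool.not_eq_true, pre_snd, List.any_eq_true, decide_eq_true_eq, mem_sdiff, mem_biUnion,
        mem_UU, exists_eq_right]
      constructor
      · rintro ⟨a, b, c⟩
        exact ⟨c, fun h => b h.2⟩
      · rintro ⟨⟨v, a, b⟩, c⟩
        have : u.length = j := by rw [length_nb b, hl v a]; rfl
        exact ⟨this, fun h => c ⟨this, h⟩, v, a, b⟩
    have h3 : Disjoint S.toFinset (MM j A) ↔
        ¬ S.any (fun v => pre (A.map fun p => p.1) v) = true := by
      simp only [disjoint_left, List.mem_toFinset, mem_MM, List.any_eq_true, pre_fst]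
      constructor
      · rintro h ⟨v, a, b⟩
        exact h a ⟨hl v a, b⟩
      · rintro h v a ⟨-, b⟩
        exact h ⟨v, a, b⟩
    rw [h1, h2, h3]
    simp only [Bool.or_eq_true, decide_eq_true_eq]
    constructor
    · rintro ((h | h) | h) a b
      · exact absurd h a
      · omega
      · exact h
    · intro h
      by_contra hc
      push Not at hc
      exact absurd (h hc.1.1 hc.1.2) (not_le.2 hc.2)
  rw [invB, List.all_eq_true, subs_eq]
  constructor
  · intro h S hS
    have h1 : ((allS (j + 1)).filter fun v => decide (v ∈ S)).toFinset = S := by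
      ext v
      simp only [List.mem_toFinset, List.mem_filter, decide_eq_true_eq, mem_allS]
      exact ⟨fun h => h.2, fun h => ⟨mem_Om.1 (hS h), h⟩⟩
    have := (key ((allS (j + 1)).filter fun v => decide (v ∈ S)) List.filter_sublist).1
      (h _ (List.mem_sublists'.2 List.filter_sublist))
    rwa [h1] at this
  · intro h S hS
    rw [List.mem_sublists'] at hS
    exact (key S hS).2 (h _ fun v hv => List.mem_toFinset.2 (hS.subset (List.mem_toFinset.1 hv)))

theorem pre_snoc {p u : Str} {b : Bool} (h : p.length ≤ u.length) : p <+: u ++ [b] ↔ p <+: u :=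
  ⟨fun h1 => List.prefix_of_prefix_length_le h1 (List.prefix_append _ _) h,
    fun h1 => h1.trans (List.prefix_append _ _)⟩

theorem app_snoc (w : List ℕ) (l : Str) (b : Bool) : ∃ c, app w (l ++ [b]) = app w l ++ [c] := by
  have h1 : (app w (l ++ [b])).take l.length = app w l := by rw [← app_take]; simp
  have h2 := List.take_append_drop l.length (app w (l ++ [b]))
  have h3 : ((app w (l ++ [b])).drop l.length).length = 1 := by simp
  obtain ⟨c, hc⟩ := List.length_eq_one_iff.1 h3
  exact ⟨c, by rw [← h2, h1, hc]⟩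

theorem app_snoc' (w : List ℕ) (l : Str) (c : Bool) : ∃ b, app w (l ++ [b]) = app w l ++ [c] := by
  obtain ⟨c0, h0⟩ := app_snoc w l false
  obtain ⟨c1, h1⟩ := app_snoc w l true
  by_cases e0 : c0 = c
  · exact ⟨false, e0 ▸ h0⟩
  by_cases e1 : c1 = c
  · exact ⟨true, e1 ▸ h1⟩
  have : c0 = c1 := by cases c <;> cases c0 <;> cases c1 <;> simp_all
  have := app_inj w (h0.trans (this ▸ h1.symm))
  simp at this

/-- The full invariant of the construction. -/
structure Good (W : List (List ℕ)) (Bad : Str → Prop) (j : ℕ) (A : St) : Prop where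
  len : ∀ p ∈ A, p.1.length = p.2.length + 1 ∧ p.2.length ≤ j ∧ p.2 ∈ nb W p.1 ∧ Bad p.1.tail
  pw : ∀ p ∈ A, ∀ q ∈ A, p.2 <+: q.2 → p = q
  card : (UU j A).card ≤ (MM j A).card
  inv : Inv W j A

/-- Hypotheses on the marking. -/
structure Marks (mk : Str → Bool) (Bad : Str → Prop) : Prop where
  sound : ∀ r, mk r = true → Bad r
  mono : ∀ r r', Bad r → r <+: r' → Bad r'
  small : ∀ (j : ℕ) (T : Finset Str), T ⊆ Om j → (∀ r ∈ T, Bad r) → 16 * T.card ≤ 2 ^ j

variable {W : List (List ℕ)} {mk : Str → Bool} {Bad : Str → Prop} {j : ℕ} {A : St}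

theorem Good.bound (hm : Marks mk Bad) (h : Good W Bad j A) : 8 * (UU j A).card ≤ 2 ^ j := by
  have hS : MM j A ⊆ Om (j + 1) := filter_subset _ _
  have h1 := card_le_tail hS
  have h2 := hm.small j _ (tail_subset hS) fun r hr => by
    obtain ⟨v, hv, rfl⟩ := mem_image.1 hr
    obtain ⟨-, p, hp, h3⟩ := mem_MM.1 hv
    refine hm.mono _ _ (h.len p hp).2.2.2 ?_
    obtain ⟨t, rfl⟩ := h3
    have := (h.len p hp).1
    rw [List.tail_append_of_ne_nil (by rintro e; simp [e] at this)]
    exact List.prefix_append _ _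
  have := h.card
  omega

theorem Good.refine (hW : Expands W) (hm : Marks mk Bad) (h : Good W Bad j A) :
    Good W Bad (j + 1) A := by
  have hU : ∀ u b, u.length = j → (u ++ [b] ∈ UU (j + 1) A ↔ u ∈ UU j A) := by
    intro u b hu
    simp only [mem_UU, List.length_append, hu, List.length_singleton, true_and]
    exact exists_congr fun p => and_congr_right fun hp => pre_snoc (hu ▸ (h.len p hp).2.1)
  have hM : ∀ u b, u.length = j + 1 → (u ++ [b] ∈ MM (j + 1) A ↔ u ∈ MM j A) := by
    intro u b hu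
    simp only [mem_MM, List.length_append, hu, List.length_singleton, true_and]
    refine exists_congr fun p => and_congr_right fun hp => pre_snoc ?_
    have := h.len p hp
    omega
  have cU : (UU (j + 1) A).card = 2 * (UU j A).card := by
    have : ∀ b, ch j (UU (j + 1) A) b = UU j A := fun b => by
      ext u
      rw [mem_ch]
      exact ⟨fun h => (hU u b h.1).1 h.2, fun h => ⟨(mem_UU.1 h).1, (hU u b (mem_UU.1 h).1).2 h⟩⟩
    rw [card_split (n := j) (X := UU (j + 1) A) (filter_subset _ _), this, this, two_mul]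
  have cM : (MM (j + 1) A).card = 2 * (MM j A).card := by
    have : ∀ b, ch (j + 1) (MM (j + 1) A) b = MM j A := fun b => by
      ext u
      rw [mem_ch]
      exact ⟨fun h => (hM u b h.1).1 h.2, fun h => ⟨(mem_MM.1 h).1, (hM u b (mem_MM.1 h).1).2 h⟩⟩
    rw [card_split (n := j + 1) (X := MM (j + 1) A) (filter_subset _ _), this, this, two_mul]
  have hb := h.bound hm
  refine ⟨fun p hp => ?_, h.pw, by have := h.card; omega, fun S hS hd h4 => ?_⟩
  · obtain ⟨a, b, c⟩ := h.len p hp
    exact ⟨a, by omega, c⟩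
  by_cases h8 : 2 ^ (j + 1) < 8 * S.card
  · exact (slack (hW (j + 1)) (by omega) hS h4 h8).le
  set X := S.biUnion (fun v => (nb W v).toFinset) \ UU (j + 1) A with hX
  have hX1 : X ⊆ Om (j + 1) := by
    intro u hu
    obtain ⟨v, hv, hu⟩ := mem_biUnion.1 (mem_sdiff.1 hu).1
    rw [mem_Om, length_nb (List.mem_toFinset.1 hu), mem_Om.1 (hS hv)]; rfl
  have k0 : ∀ v b w, v ∈ ch (j + 1) S b → w ∈ W → app w v.tail ∉ UU j A → ∀ c,
      app w (v.tail ++ [b]) = app w v.tail ++ [c] → app w v.tail ∈ ch j X c := by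
    intro v b w hv hw hu c hc
    obtain ⟨v1, v2⟩ := mem_ch.1 hv
    have hl : (app w v.tail).length = j := by simp [v1]
    refine mem_ch.2 ⟨hl, mem_sdiff.2 ⟨mem_biUnion.2 ⟨_, v2, List.mem_toFinset.2
      (List.mem_map.2 ⟨w, hw, ?_⟩)⟩, fun h => hu ((hU _ _ hl).1 h)⟩⟩
    rw [List.tail_append_of_ne_nil (by rintro e; simp [e] at v1), hc]
  have k1 : (ch (j + 1) S false ∪ ch (j + 1) S true).biUnion (fun v => (nb W v).toFinset) \
      UU j A ⊆ ch j X false ∪ ch j X true := by
    intro u hu
    obtain ⟨u1, u2⟩ := mem_sdiff.1 hu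
    obtain ⟨v, hv, u3⟩ := mem_biUnion.1 u1
    obtain ⟨w, hw, rfl⟩ := List.mem_map.1 (List.mem_toFinset.1 u3)
    obtain ⟨b, hb⟩ : ∃ b, v ∈ ch (j + 1) S b := (mem_union.1 hv).elim (⟨_, ·⟩) (⟨_, ·⟩)
    obtain ⟨c, hc⟩ := app_snoc w v.tail b
    have := k0 v b w hb hw u2 c hc
    cases c
    · exact mem_union_left _ this
    · exact mem_union_right _ this
  have k2 : (ch (j + 1) S false ∩ ch (j + 1) S true).biUnion (fun v => (nb W v).toFinset) \
      UU j A ⊆ ch j X false ∩ ch j X true := by
    intro u hu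
    obtain ⟨u1, u2⟩ := mem_sdiff.1 hu
    obtain ⟨v, hv, u3⟩ := mem_biUnion.1 u1
    obtain ⟨w, hw, rfl⟩ := List.mem_map.1 (List.mem_toFinset.1 u3)
    have : ∀ c, app w v.tail ∈ ch j X c := fun c => by
      obtain ⟨b, hb⟩ := app_snoc' w v.tail c
      refine k0 v b w ?_ hw u2 c hb
      cases b
      · exact (mem_inter.1 hv).1
      · exact (mem_inter.1 hv).2
    exact mem_inter.2 ⟨this _, this _⟩
  have s0 : ∀ b, ch (j + 1) S b ⊆ Om (j + 1) := fun b => filter_subset _ _
  have s1 : ∀ b, Disjoint (ch (j + 1) S b) (MM j A) := fun b => disjoint_left.2 fun v hv h' =>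
    disjoint_left.1 hd (mem_ch.1 hv).2 ((hM v b (mem_ch.1 hv).1).2 h')
  have e1 := card_split hS
  have e2 := card_split hX1
  have e3 := card_union_add_card_inter (ch (j + 1) S false) (ch (j + 1) S true)
  have e4 := card_union_add_card_inter (ch j X false) (ch j X true)
  have e5 := h.inv _ (union_subset (s0 false) (s0 true)) (disjoint_union_left.2 ⟨s1 _, s1 _⟩)
    (by omega)
  have e6 := h.inv _ (inter_subset_left.trans (s0 false))
    ((s1 false).mono_left (inter_subset_left (s₂ := ch (j + 1) S true))) (by omega)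
  have e7 := card_le_card k1
  have e8 := card_le_card k2
  omega

/-- Serving one left vertex. -/
def ustep (W : List (List ℕ)) (mk : Str → Bool) (j : ℕ) (A : St) (v : Str) : St :=
  cond (mk v.tail && !pre (A.map fun p => p.1) v)
    ((((nb W v).filter fun u => !pre (A.map fun p => p.2) u &&
      invB W j ((v, u) :: A)).head?.map fun u => (v, u) :: A).getD A) A

/-- The assignments made up to level `j`. -/
def stage (W : List (List ℕ)) (mk : Str → Bool) (j : ℕ) : St :=
  nrec j [] fun i A => (allS (i + 2)).foldl (fun A v => ustep W mk (i + 1) A v) A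

/-- The owner of a cell. -/
def look (W : List (List ℕ)) (mk : Str → Bool) (u : Str) : Option Str :=
  ((stage W mk u.length).filter fun p => decide (p.2 = u)).head?.map fun p => p.1.tail

theorem td_look (W : List (List ℕ)) {mk : Str → Str → Bool}
    (hmk : TD fun p : Str × Str => mk p.1 p.2) : TD fun p : Str × Str => look W (mk p.1) p.2 := by
  have h1 : TD fun p : (Str × ℕ) × St × Str => ustep W (mk p.1.1) p.1.2 p.2.1 p.2.2 := by
    unfold ustep; fun_prop
  have h2 : TD fun p : Str × ℕ => stage W (mk p.1) p.2 := by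
    unfold stage
    refine TD.nrec' (by fun_prop) (by fun_prop) (TD.foldl (by fun_prop) (by fun_prop) ?_)
    exact h1.comp' (f := fun p : ((Str × ℕ) × ℕ × St) × St × Str => ((p.1.1.1, p.1.2.1 + 1), p.2))
      (by fun_prop)
  have h3 : TD fun p : Str × Str => stage W (mk p.1) p.2.length :=
    h2.comp' (f := fun p : Str × Str => (p.1, p.2.length)) (by fun_prop)
  unfold look; fun_prop

theorem eq_of_pre {u v : Str} (h : u <+: v) (hl : v.length ≤ u.length) : u = v :=
  h.eq_of_length (le_antisymm h.length_le hl)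

theorem Good.ustep (hW : Expands W) (hm : Marks mk Bad) (h : Good W Bad j A) {v : Str}
    (hv : v.length = j + 1) : Good W Bad j (ustep W mk j A v) ∧
      (mk v.tail = true → ∃ p ∈ ustep W mk j A v, p.1 <+: v) ∧
      ∃ B : St, ustep W mk j A v = B ++ A ∧ ∀ p ∈ B, p.2.length = j := by
  unfold Pool.Agent.Lib.MP_848037_lc.ustep
  by_cases hc : (mk v.tail && !pre (A.map fun p => p.1) v) = true
  swap
  · rw [Bool.not_eq_true] at hc
    rw [hc, cond_false]
    refine ⟨h, fun h1 => pre_fst.1 ?_, [], rfl, by simp⟩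
    simpa [h1] using hc
  rw [hc, cond_true]
  simp only [Bool.and_eq_true, Bool.not_eq_true', ← Bool.not_eq_true, pre_fst] at hc
  have hM : ∀ u, MM j ((v, u) :: A) = insert v (MM j A) := fun u => by
    ext y
    simp only [mem_MM, List.mem_cons, exists_eq_or_imp, mem_insert]
    constructor
    · rintro ⟨a, b | b⟩
      · exact Or.inl (eq_of_pre b (by omega)).symm
      · exact Or.inr ⟨a, b⟩
    · rintro (rfl | ⟨a, b⟩)
      · exact ⟨hv, Or.inl List.prefix_rfl⟩
      · exact ⟨a, Or.inr b⟩
  have hU : ∀ u, u.length = j → UU j ((v, u) :: A) = insert u (UU j A) := fun u hu => by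
    ext y
    simp only [mem_UU, List.mem_cons, exists_eq_or_imp, mem_insert]
    constructor
    · rintro ⟨a, b | b⟩
      · exact Or.inl (eq_of_pre b (by omega)).symm
      · exact Or.inr ⟨a, b⟩
    · rintro (rfl | ⟨a, b⟩)
      · exact ⟨hu, Or.inl List.prefix_rfl⟩
      · exact ⟨a, Or.inr b⟩
  have hl : ∀ u ∈ nb W v, u.length = j := fun u hu => by rw [length_nb hu, hv]; rfl
  have hvM : v ∉ MM j A := fun h => hc.2 (mem_MM.1 h).2
  have h16 := hm.small j {v.tail} (by simp [hv]) (by simpa using hm.sound _ hc.1)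
  obtain ⟨u0, a1, a2, a3⟩ := unit_step (hW j) (h.bound hm) (by simp at h16; omega) h.inv
    (mem_Om.2 hv) hvM
  rw [List.mem_toFinset] at a1
  cases e : ((nb W v).filter fun u => !pre (A.map fun p => p.2) u &&
      invB W j ((v, u) :: A)).head? with
  | none =>
    exfalso
    rw [List.head?_eq_none_iff, List.filter_eq_nil_iff] at e
    refine e u0 a1 ?_
    simp only [Bool.and_eq_true, Bool.not_eq_true', ← Bool.not_eq_true, pre_snd, invB_iff]
    refine ⟨fun h => a2 (mem_UU.2 ⟨hl _ a1, h⟩), ?_⟩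
    rw [Inv, hM, hU _ (hl _ a1)]
    exact a3
  | some u =>
    obtain ⟨b1, b2⟩ := List.mem_filter.1 (List.mem_of_head? e)
    simp only [Bool.and_eq_true, Bool.not_eq_true', ← Bool.not_eq_true, pre_snd, invB_iff] at b2
    have hu := hl u b1
    simp only [Option.map_some, Option.getD_some]
    refine ⟨⟨?_, ?_, ?_, b2.2⟩, fun _ => ⟨_, List.mem_cons_self, List.prefix_rfl⟩,
      [(v, u)], rfl, by simpa using hu⟩
    · intro p hp
      rcases List.mem_cons.1 hp with rfl | hp
      · exact ⟨by simp [hv, hu], hu.le, b1, hm.sound _ hc.1⟩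
      · exact h.len p hp
    · intro p hp q hq e
      rcases List.mem_cons.1 hp with rfl | hp <;> rcases List.mem_cons.1 hq with rfl | hq
      · rfl
      · have := eq_of_pre e (by simpa [hu] using (h.len q hq).2.1)
        exact absurd ⟨q, hq, this ▸ List.prefix_rfl⟩ b2.1
      · exact absurd ⟨p, hp, e⟩ b2.1
      · exact h.pw p hp q hq e
    · rw [hM, hU _ hu, card_insert_of_notMem hvM]
      have := card_insert_le u (UU j A)
      have := h.card
      omega

theorem Good.foldl (hW : Expands W) (hm : Marks mk Bad) (l : List Str)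
    (hl : ∀ v ∈ l, v.length = j + 1) : ∀ A, Good W Bad j A →
      Good W Bad j (l.foldl (fun A v => Pool.Agent.Lib.MP_848037_lc.ustep W mk j A v) A) ∧
      (∀ v ∈ l, mk v.tail = true → ∃ p ∈ l.foldl
        (fun A v => Pool.Agent.Lib.MP_848037_lc.ustep W mk j A v) A, p.1 <+: v) ∧
      ∃ B : St, l.foldl (fun A v => Pool.Agent.Lib.MP_848037_lc.ustep W mk j A v) A = B ++ A ∧
        ∀ p ∈ B, p.2.length = j := by
  induction l with
  | nil => exact fun A h => ⟨h, by simp, [], rfl, by simp⟩
  | cons v l ih =>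
    intro A h
    obtain ⟨a1, a2, B, a3, a4⟩ := h.ustep hW hm (hl v List.mem_cons_self)
    obtain ⟨b1, b2, B', b3, b4⟩ := ih (fun y hy => hl y (List.mem_cons_of_mem _ hy)) _ a1
    rw [List.foldl_cons]
    refine ⟨b1, fun y hy h1 => ?_, B' ++ B, by rw [b3, a3, List.append_assoc], fun p hp =>
      (List.mem_append.1 hp).elim (b4 p) (a4 p)⟩
    rcases List.mem_cons.1 hy with rfl | hy
    · obtain ⟨p, hp, e⟩ := a2 h1
      exact ⟨p, by rw [b3]; exact List.mem_append_right _ hp, e⟩
    · exact b2 y hy h1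

theorem good_nil : Good W Bad 0 [] := by
  refine ⟨by simp, by simp, by simp [UU, MM], fun S _ _ h => ?_⟩
  have : S.card = 0 := by omega
  omega

theorem stage_spec (hW : Expands W) (hm : Marks mk Bad) (j : ℕ) :
    Good W Bad j (stage W mk j) ∧
      (∀ v : Str, v.length = j + 1 → mk v.tail = true → ∃ p ∈ stage W mk j, p.1 <+: v) ∧
      ∃ B : St, stage W mk (j + 1) = B ++ stage W mk j ∧ ∀ p ∈ B, p.2.length = j + 1 := by
  have key : ∀ j, Good W Bad j (stage W mk j) := by
    intro j
    induction j with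
    | zero => exact good_nil
    | succ j ih =>
      exact (Good.foldl hW hm _ (fun v hv => mem_allS.1 hv) _ (ih.refine hW hm)).1
  refine ⟨key j, fun v hv h => ?_,
    (Good.foldl hW hm _ (fun v hv => mem_allS.1 hv) _ ((key j).refine hW hm)).2.2⟩
  cases j with
  | zero =>
    have := hm.small 0 {v.tail} (by simp [hv]) (by simpa using hm.sound _ h)
    simp at this
  | succ j =>
    exact (Good.foldl hW hm _ (fun v hv => mem_allS.1 hv) _ ((key j).refine hW hm)).2.1 v
      (mem_allS.2 hv) h

theorem mem_stage (hW : Expands W) (hm : Marks mk Bad) {i j : ℕ} (h : i ≤ j) (p : Str × Str) :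
    p ∈ stage W mk i ↔ p ∈ stage W mk j ∧ p.2.length ≤ i := by
  induction j, h using Nat.le_induction with
  | base => exact ⟨fun h => ⟨h, ((stage_spec hW hm i).1.len p h).2.1⟩, fun h => h.1⟩
  | succ j h ih =>
    obtain ⟨B, e, hB⟩ := (stage_spec hW hm j).2.2
    rw [ih, e, List.mem_append]
    constructor
    · exact fun h => ⟨Or.inr h.1, h.2⟩
    · rintro ⟨h1 | h1, h2⟩
      · have := hB p h1; omega
      · exact ⟨h1, h2⟩

theorem look_iff (hW : Expands W) (hm : Marks mk Bad) {u r : Str} :
    look W mk u = some r ↔ ∃ v, (v, u) ∈ stage W mk u.length ∧ v.tail = r := by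
  unfold look
  constructor
  · intro h
    obtain ⟨p, hp, rfl⟩ := Option.map_eq_some_iff.1 h
    obtain ⟨a, b⟩ := List.mem_filter.1 (List.mem_of_head? hp)
    obtain rfl : p.2 = u := by simpa using b
    exact ⟨p.1, a, rfl⟩
  · rintro ⟨v, hv, rfl⟩
    cases e : ((stage W mk u.length).filter fun p => decide (p.2 = u)).head? with
    | none =>
      rw [List.head?_eq_none_iff, List.filter_eq_nil_iff] at e
      simpa using e _ hv
    | some p =>
      obtain ⟨a, b⟩ := List.mem_filter.1 (List.mem_of_head? e)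
      have b' : p.2 = u := by simpa using b
      have := (stage_spec hW hm _).1.pw p a _ hv (b' ▸ List.prefix_rfl)
      simp [this]

theorem look_adj (hW : Expands W) (hm : Marks mk Bad) {u r : Str} (h : look W mk u = some r) :
    u ≠ [] ∧ ∃ w ∈ W, app w r = u := by
  obtain ⟨v, hv, rfl⟩ := (look_iff hW hm).1 h
  refine ⟨?_, List.mem_map.1 ((stage_spec hW hm _).1.len _ hv).2.2.1⟩
  rintro rfl
  simp [stage] at hv

theorem look_first (hW : Expands W) (hm : Marks mk Bad) {u r : Str} (h : look W mk u = some r)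
    {u' : Str} (h1 : u' <+: u) (h2 : u' ≠ u) : look W mk u' = none := by
  obtain ⟨v, hv, rfl⟩ := (look_iff hW hm).1 h
  cases e : look W mk u' with
  | none => rfl
  | some r' =>
    obtain ⟨v', hv', -⟩ := (look_iff hW hm).1 e
    have := (stage_spec hW hm _).1.pw _ ((mem_stage hW hm h1.length_le _).1 hv').1 _ hv h1
    exact absurd (congrArg Prod.snd this) h2

theorem look_serve (hW : Expands W) (hm : Marks mk Bad) {r : Str} (h : mk r = true) :
    ∃ u0 u1 r0 r1 : Str, r0 <+: r ∧ r1 <+: r ∧ look W mk u0 = some r0 ∧ look W mk u1 = some r1 ∧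
      ¬ u0 <+: u1 ∧ ¬ u1 <+: u0 := by
  obtain ⟨hG, hs, -⟩ := stage_spec hW hm r.length
  have key : ∀ b, ∃ p ∈ stage W mk r.length, p.1.head? = some b ∧ p.1.tail <+: r ∧
      look W mk p.2 = some p.1.tail := by
    intro b
    obtain ⟨⟨v, u⟩, hp, e⟩ := hs (b :: r) rfl h
    obtain ⟨a1, a2, -⟩ := hG.len _ hp
    rcases v with _ | ⟨c, v⟩
    · simp at a1
    · obtain ⟨rfl, e'⟩ := List.cons_prefix_cons.1 e
      exact ⟨_, hp, rfl, e', (look_iff hW hm).2 ⟨_, (mem_stage hW hm a2 _).2 ⟨hp, le_rfl⟩, rfl⟩⟩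
  obtain ⟨p, a1, a2, a3, a4⟩ := key false
  obtain ⟨q, b1, b2, b3, b4⟩ := key true
  have hne : p ≠ q := by rintro rfl; simp [a2] at b2
  exact ⟨p.2, q.2, _, _, a3, b3, a4, b4, fun e => hne (hG.pw p a1 q b1 e),
    fun e => hne (hG.pw q b1 p a1 e).symm⟩

end Pool.Agent.Lib.MP_848037_lc
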