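import Pool.Agent.Lib.MP_848037_lc.NDefs

/-!
Basic facts on cylinders, the design parameters, kids, cells, payments and tilings.
-/

set_option autoImplicit false

namespace Pool.Agent.Lib.MP_848037_lc.Neg

open Finset Pool.Agent.Shared.Type2

/-! ### Cylinders -/

@[simp] theorem mem_Zs {ζ τ : Str} {l : ℕ} : τ ∈ Zs ζ l ↔ τ.length = l ∧ ζ <+: τ := by
  simp [Zs]

theorem Zs_nil (l : ℕ) : Zs [] l = Om l := by ext; simp

theorem Zs_subset (ζ : Str) (l : ℕ) : Zs ζ l ⊆ Om l := filter_subset _ _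

theorem length_allS (n : ℕ) : (allS n).length = 2 ^ n := by
  rw [← card_Om, Om, List.toFinset_card_of_nodup (nodup_allS n)]

theorem mem_zsL {ζ τ : Str} {l : ℕ} (h : ζ.length ≤ l) : τ ∈ zsL ζ l ↔ τ ∈ Zs ζ l := by
  simp only [zsL, List.mem_map, mem_allS, mem_Zs]
  constructor
  · rintro ⟨u, hu, rfl⟩
    exact ⟨by simp; omega, List.prefix_append _ _⟩
  · rintro ⟨h1, u, rfl⟩
    exact ⟨u, by simp at h1; omega, rfl⟩

theorem nodup_zsL (ζ : Str) (l : ℕ) : (zsL ζ l).Nodup :=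
  (nodup_allS _).map fun _ _ h => List.append_cancel_left h

theorem length_zsL (ζ : Str) (l : ℕ) : (zsL ζ l).length = 2 ^ (l - ζ.length) := by
  simp [zsL, length_allS]

theorem toFinset_zsL {ζ : Str} {l : ℕ} (h : ζ.length ≤ l) : (zsL ζ l).toFinset = Zs ζ l := by
  ext; rw [List.mem_toFinset, mem_zsL h]

theorem card_Zs {ζ : Str} {l : ℕ} (h : ζ.length ≤ l) : (Zs ζ l).card = 2 ^ (l - ζ.length) := by
  rw [← toFinset_zsL h, List.toFinset_card_of_nodup (nodup_zsL _ _), length_zsL]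

theorem card_Zs_le (ζ : Str) (l : ℕ) : (Zs ζ l).card ≤ 2 ^ (l - ζ.length) := by
  rcases le_or_gt ζ.length l with h | h
  · exact (card_Zs h).le
  · have : Zs ζ l = ∅ := eq_empty_of_forall_notMem fun τ hτ => by
      have := (mem_Zs.1 hτ).2.length_le
      have := (mem_Zs.1 hτ).1
      omega
    simp [this]

theorem pre_iff_take {u v : Str} {l : ℕ} (h : u.length = l) : u <+: v ↔ v.take l = u := by
  rw [List.prefix_iff_eq_take, h, eq_comm]

theorem take_pre {u v : Str} {l : ℕ} (h : u <+: v) (hl : u.length ≤ l) : u <+: v.take l :=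
  List.prefix_take_iff.2 ⟨h, hl⟩

theorem take_of_pre {u v : Str} {l : ℕ} (h : u <+: v) (hl : l ≤ u.length) :
    u.take l = v.take l := by
  obtain ⟨w, rfl⟩ := h
  rw [List.take_append_of_le_length hl]

theorem take_mem_Zs {ζ ξ : Str} {l m : ℕ} (hξ : ξ ∈ Zs ζ m) (h1 : ζ.length ≤ l) (h2 : l ≤ m) :
    ξ.take l ∈ Zs ζ l := by
  obtain ⟨a, b⟩ := mem_Zs.1 hξ
  exact mem_Zs.2 ⟨by simp; omega, take_pre b h1⟩

theorem pre_eq_of_length {u v w : Str} (hu : u <+: w) (hv : v <+: w) (h : u.length = v.length) :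
    u = v := by
  rw [pre_iff_take rfl] at hu hv
  rw [← hu, ← hv, h]

theorem sum_Zs {β : Type*} [AddCommMonoid β] {ζ : Str} {l m : ℕ} (h1 : ζ.length ≤ l) (h2 : l ≤ m)
    (F : Str → β) : ∑ ξ ∈ Zs ζ m, F ξ = ∑ τ ∈ Zs ζ l, ∑ ξ ∈ Zs τ m, F ξ := by
  rw [← sum_fiberwise_of_maps_to (s := Zs ζ m) (t := Zs ζ l) (g := fun ξ => ξ.take l)
    fun ξ hξ => take_mem_Zs hξ h1 h2]
  refine sum_congr rfl fun τ hτ => sum_congr ?_ fun _ _ => rfl
  obtain ⟨a, b⟩ := mem_Zs.1 hτ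
  ext ξ
  simp only [mem_filter, mem_Zs, pre_iff_take a]
  constructor
  · rintro ⟨⟨c, -⟩, d⟩; exact ⟨c, d⟩
  · rintro ⟨c, d⟩
    exact ⟨⟨c, b.trans (d ▸ List.take_prefix _ _)⟩, d⟩

theorem sum_Om_Zs {β : Type*} [AddCommMonoid β] {l m : ℕ} (h2 : l ≤ m) (F : Str → β) :
    ∑ ξ ∈ Om m, F ξ = ∑ τ ∈ Om l, ∑ ξ ∈ Zs τ m, F ξ := by
  rw [← Zs_nil, ← Zs_nil, sum_Zs (Nat.zero_le l) h2]

/-- Exactly one string of length `l` lies below `w`. -/
theorem sum_Om_pre {β : Type*} [AddCommMonoid β] {w : Str} {l : ℕ} (h : l ≤ w.length)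
    (F : Str → β) : (∑ ρ ∈ Om l, if ρ <+: w then F ρ else 0) = F (w.take l) := by
  rw [sum_eq_single (w.take l)]
  · rw [if_pos (List.take_prefix _ _)]
  · intro ρ hρ hne
    exact if_neg fun e => hne ((pre_iff_take (mem_Om.1 hρ)).1 e).symm
  · intro hn
    exact absurd (mem_Om.2 (by simp; omega)) hn

/-! ### Parameters -/

theorem tw_succ (n r : ℕ) : tw n (r + 1) = 2 ^ tw n r := rfl

theorem tw_ge (n r : ℕ) : 2 ^ r * (n + 2) ≤ tw n r := by
  induction r with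
  | zero => simp [tw]
  | succ r ih =>
    rw [tw_succ]
    have h1 : ∀ u, 1 ≤ u → 2 * u ≤ 2 ^ u := fun u hu => by
      obtain ⟨v, rfl⟩ := Nat.exists_eq_add_of_le' hu
      have := @Nat.lt_two_pow_self v
      rw [pow_succ]; omega
    have h2 : 1 ≤ 2 ^ r * (n + 2) := Nat.mul_pos (by positivity) (by omega)
    have := h1 (tw n r) (by omega)
    rw [pow_succ]; nlinarith

theorem tw_mono (n : ℕ) : StrictMono (tw n) :=
  strictMono_nat_of_lt_succ fun r => by rw [tw_succ]; exact Nat.lt_two_pow_self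

theorem zz_mono (n : ℕ) : StrictMono (zz n) := fun _ _ h => tw_mono n (by omega)

theorem zz_ge (n i : ℕ) : 2 ^ (n + 2) ≤ zz n i := (zz_mono n).monotone (Nat.zero_le i)

theorem lin_le_pow {n : ℕ} (hn : 5 ≤ n) : 4 * n + 1 ≤ 2 ^ n := by
  induction n, hn using Nat.le_induction with
  | base => norm_num
  | succ n _ ih => rw [pow_succ]; omega

theorem zz_ge' {n : ℕ} (hn : 20 ≤ n) (i : ℕ) : 16 * n ≤ zz n i := by
  have h1 := zz_ge n i
  have h2 := lin_le_pow (n := n) (by omega)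
  rw [pow_add] at h1; omega

theorem zz_succ {n : ℕ} (hn : 20 ≤ n) (i : ℕ) : 2 * zz n i + 2 ^ (4 * zz n i) ≤ zz n (i + 1) := by
  have h0 := zz_ge' hn i
  have h1 : zz n (i + 1) = 2 ^ 2 ^ zz n i := rfl
  have h2 := lin_le_pow (n := zz n i) (by omega)
  have h3 : 2 ^ (4 * zz n i + 1) ≤ 2 ^ 2 ^ zz n i := Nat.pow_le_pow_right (by norm_num) h2
  have h4 := @Nat.lt_two_pow_self (4 * zz n i)
  rw [pow_succ] at h3; omega

theorem nT_pos (n : ℕ) : 0 < nT n := by unfold nT; positivity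

theorem jT_big (n : ℕ) : 12 * n + mm n + 8 ≤ jT n := by
  have h1 := tw_ge n (2 * nT n + 1)
  have h2 := nT_pos n
  have h3 : 2 * nT n + 4 ≤ 2 ^ (2 * nT n + 1) := by
    have := @Nat.lt_two_pow_self (2 * nT n)
    rw [pow_succ]; omega
  have h4 : 7 * n + 1 ≤ nT n := Nat.lt_two_pow_self
  unfold jT zz mm
  nlinarith

theorem so_zero (n : ℕ) : so n 0 = 0 := rfl

theorem so_succ (n r : ℕ) : so n (r + 1) = 3 * tw n (r + 1) := by simp [so]

theorem so_mono (n : ℕ) : Monotone (so n) := monotone_nat_of_le_succ fun r => by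
  rw [so_succ]
  unfold so
  have := (tw_mono n).monotone (Nat.le_succ r)
  split_ifs <;> simp at * <;> omega

theorem tw_mm (n : ℕ) : tw n (mm n) = 2 ^ jT n := rfl

theorem le_n0 (n : ℕ) : n ≤ n0 n := Nat.le_add_right _ _
theorem n0_lt_nC (n : ℕ) : n0 n < nC n := by
  have : 0 < 2 ^ (6 * jT n) := by positivity
  unfold nC; omega
theorem nC_le_nEnd (n : ℕ) : nC n ≤ nEnd n := Nat.le_add_right _ _
theorem lt_nEnd (n : ℕ) : n < nEnd n := (le_n0 n).trans_lt ((n0_lt_nC n).trans_le (nC_le_nEnd n))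

theorem le_sub_so {n l r : ℕ} (hr : r ≤ mm n) (hl : n0 n ≤ l) : n + so n r ≤ l := by
  have := so_mono n hr
  unfold n0 at hl; omega

theorem nEnd_le (n : ℕ) : nEnd n + 2 ≤ 2 ^ (7 * jT n) := by
  have h1 := jT_big n
  have h2 : so n (mm n) = 3 * 2 ^ jT n := by rw [← tw_mm]; exact so_succ n _
  have h3 := @Nat.lt_two_pow_self (jT n)
  have h4 : 2 ^ jT n ≤ 2 ^ (6 * jT n) := Nat.pow_le_pow_right (by norm_num) (by omega)
  have h5 : 2 ^ (6 * jT n + 3) ≤ 2 ^ (7 * jT n) := Nat.pow_le_pow_right (by norm_num) (by omega)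
  unfold nEnd nC n0
  rw [pow_add] at h5; omega

theorem pow_le_nEnd (n : ℕ) : 2 ^ (6 * jT n) ≤ nEnd n := by unfold nEnd nC; omega

theorem tgt_lt {D : Lab} (hD : DesignOK D) {n : ℕ} {ζ : Str} {i l : ℕ} (hn : 20 ≤ n)
    (hζ : ζ.length ≤ n) (h0 : n0 n ≤ l) (h1 : l ≤ nEnd n) (τ : Str) {b : ℕ} (hb : b < 2 ^ zz n i) :
    tgt D n ζ i l τ b < zz n (i + 1) := by
  have h2 := (hD n ζ i l hn hζ h0 h1).1 τ b
  have h3 := zz_succ hn i
  have h4 : (b + 1) * 2 ^ (3 * zz n i) ≤ 2 ^ zz n i * 2 ^ (3 * zz n i) := Nat.mul_le_mul_right _ hb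
  rw [← pow_add, show zz n i + 3 * zz n i = 4 * zz n i by ring, add_mul] at h4
  unfold tgt; omega

theorem tgt_lt_jT {D : Lab} (hD : DesignOK D) {n : ℕ} {ζ : Str} {i l : ℕ} (hn : 20 ≤ n)
    (hζ : ζ.length ≤ n) (h0 : n0 n ≤ l) (h1 : l ≤ nEnd n) (hi : i < nT n) (τ : Str) {b : ℕ}
    (hb : b < 2 ^ zz n i) : tgt D n ζ i l τ b < jT n :=
  (tgt_lt hD hn hζ h0 h1 τ hb).trans_le ((zz_mono n).monotone hi)

@[simp] theorem length_hot (D : Lab) (n : ℕ) (ζ : Str) (i l : ℕ) (τ : Str) (b : ℕ) :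
    (hot D n ζ i l τ b).length = τ.length + tgt D n ζ i l τ b := by simp [hot]

theorem mem_design {D : Lab} {x : Emi} (hζ : x.root.length ≤ x.n) {r : Rq} :
    r ∈ design D x ↔ ∃ l ∈ Ico (n0 x.n) (nC x.n), ∃ i < nT x.n, ∃ τ ∈ Zs x.root l,
      ∃ b < 2 ^ zz x.n i, r = (hot D x.n x.root i l τ b, l + tgt D x.n x.root i l τ b,
        x.A + (l - x.root.length) + 6 * jT x.n + 7 * x.n + zz x.n i) := by
  have h0 := le_n0 x.n
  simp only [design, List.mem_flatMap, List.mem_range, List.mem_map, mem_Ico]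
  constructor
  · rintro ⟨a, ha, i, hi, τ, hτ, b, hb, rfl⟩
    exact ⟨n0 x.n + a, ⟨by omega, by unfold nC; omega⟩, i, hi, τ, (mem_zsL (by omega)).1 hτ,
      b, hb, rfl⟩
  · rintro ⟨l, ⟨h1, h2⟩, i, hi, τ, hτ, b, hb, rfl⟩
    obtain ⟨a, rfl⟩ := Nat.exists_eq_add_of_le h1
    exact ⟨a, by unfold nC at h2; omega, i, hi, τ, (mem_zsL (by omega)).2 hτ, b, hb, rfl⟩

/-! ### Kids and cells -/

theorem getD_allS {n i : ℕ} (h : i < 2 ^ n) : ((allS n).getD i []).length = n := by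
  rw [List.getD_eq_getElem _ _ (by rwa [length_allS])]
  exact mem_allS.1 (List.getElem_mem _)

theorem getD_allS_inj {n i j : ℕ} (hi : i < 2 ^ n) (hj : j < 2 ^ n)
    (h : (allS n).getD i [] = (allS n).getD j []) : i = j := by
  rw [List.getD_eq_getElem _ _ (by rwa [length_allS]),
    List.getD_eq_getElem _ _ (by rwa [length_allS])] at h
  exact (List.Nodup.getElem_inj_iff (nodup_allS n)).1 h

theorem getD_allS_surj {n : ℕ} {u : Str} (h : u.length = n) :
    ∃ i < 2 ^ n, (allS n).getD i [] = u := by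
  obtain ⟨i, hi, e⟩ := List.getElem_of_mem (mem_allS.2 h)
  exact ⟨i, by rwa [length_allS] at hi, by rw [List.getD_eq_getElem _ _ hi, e]⟩

theorem pre_kidS (σ : Str) (N t : ℕ) : σ <+: kidS σ N t := List.prefix_append _ _

theorem length_kidS {σ : Str} {N : ℕ} (h : σ.length ≤ N) (t : ℕ) : (kidS σ N t).length = N := by
  rw [kidS, List.length_append, getD_allS (Nat.mod_lt _ (by positivity))]; omega

theorem kidS_mod (σ : Str) (N t : ℕ) : kidS σ N (t % 2 ^ (N - σ.length)) = kidS σ N t := by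
  simp [kidS]

theorem kidS_inj {σ : Str} {N s t : ℕ} (h : kidS σ N s = kidS σ N t) :
    s % 2 ^ (N - σ.length) = t % 2 ^ (N - σ.length) :=
  getD_allS_inj (Nat.mod_lt _ (by positivity)) (Nat.mod_lt _ (by positivity))
    (List.append_cancel_left h)

theorem image_kidS {σ : Str} {N : ℕ} (h : σ.length ≤ N) :
    (range (2 ^ (N - σ.length))).image (kidS σ N) = Zs σ N := by
  ext y
  simp only [mem_image, mem_range, mem_Zs]
  constructor
  · rintro ⟨s, -, rfl⟩; exact ⟨length_kidS h s, pre_kidS _ _ _⟩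
  · rintro ⟨a, u, rfl⟩
    obtain ⟨i, hi, e⟩ := getD_allS_surj (n := N - σ.length) (u := u) (by simp at a; omega)
    exact ⟨i, hi, by rw [kidS, Nat.mod_eq_of_lt hi, e]⟩

theorem sum_kidS {β : Type*} [AddCommMonoid β] {σ : Str} {N : ℕ} (h : σ.length ≤ N)
    (F : Str → β) : ∑ y ∈ Zs σ N, F y = ∑ s ∈ range (2 ^ (N - σ.length)), F (kidS σ N s) := by
  rw [← image_kidS h, sum_image]
  intro a ha b hb e
  have := kidS_inj e
  rwa [Nat.mod_eq_of_lt (mem_range.1 ha), Nat.mod_eq_of_lt (mem_range.1 hb)] at this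

theorem length_cell {F : Fr} {i : ℕ} (h : i < 2 ^ F.k) : (F.cell i).length = F.k := getD_allS h

/-! ### Payments and values -/

theorem PayL_nonneg (K : Str → ℕ) (y : Str) (l : ℕ) : 0 ≤ PayL K y l :=
  sum_nonneg fun _ _ => by positivity

theorem Pay_nonneg (K : Str → ℕ) (y : Str) (a b : ℕ) : 0 ≤ Pay K y a b :=
  sum_nonneg fun _ _ => PayL_nonneg _ _ _

theorem Kr.sum_PayL {K : Str → ℕ} (hK : Kr K) (y : Str) (U : Finset ℕ) :
    ∑ l ∈ U, PayL K y l ≤ 1 := by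
  have := hK (U.biUnion fun l => Zs y l)
  rwa [sum_biUnion] at this
  intro a _ b _ hab
  exact disjoint_left.2 fun ρ h1 h2 => hab ((mem_Zs.1 h1).1.symm.trans (mem_Zs.1 h2).1)

theorem PayL_kids (K : Str → ℕ) {σ : Str} {N l : ℕ} (h : σ.length ≤ N) (hl : N ≤ l) :
    PayL K σ l = ∑ s ∈ range (2 ^ (N - σ.length)), PayL K (kidS σ N s) l := by
  rw [PayL, sum_Zs h hl, sum_kidS h]; rfl

theorem Pay_kids (K : Str → ℕ) {σ : Str} {N a : ℕ} (h : σ.length ≤ N) (hl : N ≤ a) (b : ℕ) :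
    Pay K σ a b = ∑ s ∈ range (2 ^ (N - σ.length)), Pay K (kidS σ N s) a b := by
  unfold Pay
  rw [sum_comm]
  exact sum_congr rfl fun l hl' => PayL_kids K h (hl.trans (mem_Ico.1 hl').1)

theorem kr_of_isK {K : Str → ℕ} (hK : IsK K) : Kr K := fun F => by
  have h1 := (ENNReal.sum_le_tsum F).trans hK.kraft
  have h2 := ENNReal.toReal_mono ENNReal.one_ne_top h1
  rw [ENNReal.toReal_sum fun _ _ => by simp] at h2
  simpa using h2

theorem Emi.val_pos (x : Emi) : 0 < x.val := by unfold Emi.val; positivity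

theorem ValS_nonneg (X : ℕ → Emi) (a b : ℕ) : 0 ≤ ValS X a b :=
  sum_nonneg fun _ _ => (Emi.val_pos _).le

theorem ValS_add (X : ℕ → Emi) {a b c : ℕ} (h1 : a ≤ b) (h2 : b ≤ c) :
    ValS X a b + ValS X b c = ValS X a c := sum_Ico_consecutive _ h1 h2

theorem GG_nonneg (X : ℕ → Emi) (e a b : ℕ) (z : Str) : 0 ≤ GG X e a b z :=
  sum_nonneg fun j _ => by
    have := (X j).val_pos
    split_ifs <;> positivity

theorem ww_nonneg (X : ℕ → Emi) (e a b : ℕ) (ρ τ : Str) : 0 ≤ ww X e a b ρ τ :=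
  sum_nonneg fun j _ => by
    have := (X j).val_pos
    split_ifs <;> positivity

theorem PW_nonneg (K : Str → ℕ) (X : ℕ → Emi) (e : ℕ) (σ : Str) (a b : ℕ) :
    0 ≤ PW K X e σ a b :=
  sum_nonneg fun j _ => by
    have := Pay_nonneg K σ (X j).n (nEnd (X j).n)
    split_ifs <;> positivity

theorem sum_GG (X : ℕ → Emi) (e a b ns : ℕ) (h : ∀ j ∈ Ico a b, (X j).root.length ≤ ns) :
    ∑ z ∈ Om ns, (2⁻¹ : ℝ) ^ ns * GG X e a b z = ValE X e a b := by
  simp only [GG, ValE, mul_sum]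
  rw [sum_comm]
  refine sum_congr rfl fun j hj => ?_
  by_cases he : (X j).e = e
  · simp only [he, true_and, if_true, mul_ite, mul_zero]
    rw [← sum_filter, sum_const, ← Zs, card_Zs (h j hj), nsmul_eq_mul]
    obtain ⟨d, rfl⟩ := Nat.exists_eq_add_of_le (h j hj)
    rw [Nat.add_sub_cancel_left, pow_add]
    push_cast
    simp only [inv_pow]
    field_simp
  · simp [he]

/-! ### Tilings -/

theorem Tiles.le {lo hi : ℕ} {rs : List Rec} (h : Tiles lo rs hi) : lo ≤ hi := by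
  induction rs generalizing lo with
  | nil => exact le_of_eq h
  | cons c rs ih => obtain ⟨a, b, d⟩ := h; have := ih d; omega

theorem Tiles.mem {lo hi : ℕ} {rs : List Rec} (h : Tiles lo rs hi) {c : Rec} (hc : c ∈ rs) :
    lo ≤ c.a ∧ c.a ≤ c.b ∧ c.b ≤ hi := by
  induction rs generalizing lo with
  | nil => simp at hc
  | cons c' rs ih =>
    obtain ⟨a, b, d⟩ := h
    rcases List.mem_cons.1 hc with rfl | hc
    · exact ⟨a.ge, b, d.le⟩
    · have := ih d hc; omega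

theorem Tiles.sum {β : Type*} [AddCommMonoid β] {lo hi : ℕ} {rs : List Rec} (h : Tiles lo rs hi)
    (φ : ℕ → β) : ∑ j ∈ Ico lo hi, φ j = (rs.map fun c => ∑ j ∈ Ico c.a c.b, φ j).sum := by
  induction rs generalizing lo with
  | nil => have : lo = hi := h; simp [this]
  | cons c rs ih =>
    obtain ⟨a, b, d⟩ := h
    rw [List.map_cons, List.sum_cons, ← ih d, ← a, sum_Ico_consecutive _ b d.le]

theorem Tiles.snoc {lo mid hi : ℕ} {rs : List Rec} (h : Tiles lo rs mid) (h2 : mid ≤ hi)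
    (t r : ℕ) : Tiles lo (rs ++ [⟨t, mid, hi, r⟩]) hi := by
  induction rs generalizing lo with
  | nil => exact ⟨Eq.symm h, h2, rfl⟩
  | cons c rs ih => exact ⟨h.1, h.2.1, ih h.2.2⟩

/-- Sums over lists as sums over positions. -/
theorem sum_map_eq {α β : Type*} [AddCommMonoid β] (rs : List α) (φ : α → β) :
    (rs.map φ).sum = ∑ i : Fin rs.length, φ rs[i] := by
  simp only [Fin.getElem_fin]
  rw [← List.sum_ofFn, List.ofFn_getElem_eq_map]

end Pool.Agent.Lib.MP_848037_lc.Neg
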