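import Pool.Agent.Lib.MP_848037_lc.NBasic

/-!
Blocked routes: their number is bounded, and they account for the unpaid part of a wave.
-/

set_option autoImplicit false

namespace Pool.Agent.Lib.MP_848037_lc.Neg

open Finset Pool.Agent.Shared.Type2

namespace NBlk

theorem count_le (K : Str → ℕ) {l N : ℕ} (h : l ≤ N) (c : ℕ) :
    (∑ y ∈ Om N, if K (y.take l) ≤ l + c then (2⁻¹ : ℝ) ^ N else 0) ≤ 2 ^ c * PayL K [] l := by
  rw [sum_Om_Zs h, PayL, Zs_nil, mul_sum]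
  refine sum_le_sum fun ρ hρ => ?_
  have hl := mem_Om.1 hρ
  rw [sum_congr rfl fun y hy => by rw [(pre_iff_take hl).1 (mem_Zs.1 hy).2], sum_const,
    card_Zs (hl.trans_le h), nsmul_eq_mul, hl]
  split_ifs with hk
  · obtain ⟨a, rfl⟩ := Nat.exists_eq_add_of_le h
    have h1 : (2⁻¹ : ℝ) ^ (l + c) ≤ 2⁻¹ ^ K ρ := pow_le_pow_of_le_one (by norm_num) (by norm_num) hk
    refine le_trans (le_of_eq ?_) (mul_le_mul_of_nonneg_left h1 (by positivity))
    rw [Nat.add_sub_cancel_left]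
    push_cast
    simp only [inv_pow, pow_add]
    field_simp
  · rw [mul_zero]; positivity

theorem k_lt_N (F : Fr) {i : ℕ} (hi : i < 2 ^ F.k) : F.k + 1 + i ≤ F.N := by
  unfold Fr.N; omega

theorem take_take {w : Str} {a N : ℕ} (h : a ≤ N) : (w.take N).take a = w.take a := by
  rw [List.take_take, min_eq_left h]

end NBlk

theorem blk_le {K : Str → ℕ} (hK : Kr K) (req : List Rq) (F : Fr) (e : ℕ) :
    ((Blk K req F e).card : ℝ) * 2⁻¹ ^ F.N ≤ 2 ^ (e + F.h) := by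
  have h1 : Blk K req F e ⊆ (Om F.N ×ˢ range (2 ^ F.k)).filter fun p =>
      K (p.1.take (F.k + 1 + p.2)) ≤ F.k + 1 + p.2 + (e + F.h) := fun p hp => by
    simp only [Blk, mem_filter, mem_product] at hp ⊢
    exact ⟨⟨Zs_subset _ _ hp.1.1, hp.1.2⟩, by omega⟩
  calc ((Blk K req F e).card : ℝ) * 2⁻¹ ^ F.N = ∑ _p ∈ Blk K req F e, (2⁻¹ : ℝ) ^ F.N := by
        rw [sum_const, nsmul_eq_mul]
    _ ≤ ∑ i ∈ range (2 ^ F.k), ∑ y ∈ Om F.N,
          if K (y.take (F.k + 1 + i)) ≤ F.k + 1 + i + (e + F.h) then (2⁻¹ : ℝ) ^ F.N else 0 := by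
        refine (sum_le_sum_of_subset_of_nonneg h1 fun _ _ _ => by positivity).trans (le_of_eq ?_)
        rw [sum_filter, sum_product_right]
    _ ≤ ∑ i ∈ range (2 ^ F.k), 2 ^ (e + F.h) * PayL K [] (F.k + 1 + i) :=
        sum_le_sum fun i hi => NBlk.count_le K (NBlk.k_lt_N F (mem_range.1 hi)) _
    _ ≤ 2 ^ (e + F.h) := by
        rw [← mul_sum]
        have h2 := hK.sum_PayL [] (Ico (F.k + 1) (F.k + 1 + 2 ^ F.k))
        rw [sum_Ico_eq_sum_range, Nat.add_sub_cancel_left] at h2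
        exact mul_le_of_le_one_right (by positivity) h2

theorem blk_mono (K : Str → ℕ) {req req' : List Rq} (h : ∀ r ∈ req, r ∈ req') (F : Fr) (e : ℕ) :
    Blk K req F e ⊆ Blk K req' F e := fun p hp => by
  simp only [Blk, mem_filter] at hp ⊢
  obtain ⟨h1, h2, r, hr, h3⟩ := hp
  exact ⟨h1, h2, r, h r hr, h3⟩

theorem wave_account (K : Str → ℕ) (X : ℕ → Emi) (F : Fr) (a b e n l d lu lw u : ℕ)
    (H : Finset Str) (req req' : List Rq) (hσ : F.σ.length ≤ l) (hl : l ≤ F.k)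
    (hH : ∀ τ ∈ H, τ.length = l ∧ (τ, l, l + d) ∈ req') (hr : ∀ r ∈ req, r ∈ req')
    (hp : ∀ i < 2 ^ F.k, F.pin i 0 ∈ req)
    (hX : ∀ j ∈ Ico a b, F.σ <+: (X j).own ∧ F.N ≤ (X j).own.length ∧ F.k ≤ (X j).root.length ∧
      ((X j).e = e → ∀ r ∈ req, r.2.1 ≤ F.N → r.1 <+: (X j).root →
        K ((X j).own.take r.2.1) ≤ r.2.2 + e))
    (hcap : ∀ y ∈ Om F.N, (∑ j ∈ Ico a b, if y <+: (X j).own then (X j).val else 0) ≤
      2 ^ lw * 2⁻¹ ^ (lu + F.N)) :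
    (2⁻¹ : ℝ) ^ d * ∑ ρ ∈ Om l, min (8 * 2⁻¹ ^ (l + 3 * n))
        (2 ^ (u + lu) * ∑ τ ∈ H, ww X e a b ρ τ) ≤
      8 * 2 ^ e * 2⁻¹ ^ (3 * n) * PayL K F.σ l +
        2⁻¹ ^ d * 2 ^ (u + lw) * 2⁻¹ ^ F.N *
          (((Blk K req' F e).card : ℝ) - (Blk K req F e).card) := by
  have hkN : F.k ≤ F.N := Nat.le_add_right _ _
  set P : Str → Prop := fun ρ => F.σ <+: ρ ∧ K ρ ≤ l + d + e with hP
  set B := Blk K req' F e \ Blk K req F e with hB
  have hBc : (B.card : ℝ) = (Blk K req' F e).card - (Blk K req F e).card := by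
    rw [hB, card_sdiff_of_subset (blk_mono K hr F e), Nat.cast_sub (card_le_card (blk_mono K hr F e))]
  have h1 : (2⁻¹ : ℝ) ^ d * ∑ ρ ∈ (Om l).filter P, min (8 * 2⁻¹ ^ (l + 3 * n))
      (2 ^ (u + lu) * ∑ τ ∈ H, ww X e a b ρ τ) ≤ 8 * 2 ^ e * 2⁻¹ ^ (3 * n) * PayL K F.σ l := by
    rw [PayL, mul_sum, mul_sum]
    refine le_trans (sum_le_sum (g := fun ρ => 8 * 2 ^ e * 2⁻¹ ^ (3 * n) * (2⁻¹ : ℝ) ^ K ρ)
      fun ρ hρ => ?_) (sum_le_sum_of_subset_of_nonneg (fun ρ hρ => ?_) fun _ _ _ => by positivity)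
    · have h2 : (2⁻¹ : ℝ) ^ (l + d + e) ≤ 2⁻¹ ^ K ρ :=
        pow_le_pow_of_le_one (by norm_num) (by norm_num) (mem_filter.1 hρ).2.2
      refine (mul_le_mul_of_nonneg_left (min_le_left _ _) (by positivity)).trans
        (le_trans (le_of_eq ?_) (mul_le_mul_of_nonneg_left h2 (by positivity)))
      simp only [inv_pow, pow_add]
      field_simp
    · exact mem_filter.2 ⟨(mem_filter.1 hρ).1, (mem_filter.1 hρ).2.1⟩
  have h2 : ∀ j ∈ Ico a b, (∑ ρ ∈ (Om l).filter fun ρ => ¬P ρ, ∑ τ ∈ H,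
      if (X j).e = e ∧ ρ <+: (X j).own ∧ τ <+: (X j).root then (X j).val else 0) ≤
      ∑ p ∈ B, if p.1 <+: (X j).own then (X j).val else 0 := fun j hj => by
    have hv := (X j).val_pos
    have hnn : ∀ p ∈ B, 0 ≤ if p.1 <+: (X j).own then (X j).val else 0 := fun p _ => by
      split_ifs <;> positivity
    by_cases hex : ∃ ρ ∈ (Om l).filter fun ρ => ¬P ρ, ∃ τ ∈ H,
        (X j).e = e ∧ ρ <+: (X j).own ∧ τ <+: (X j).root
    swap
    · rw [sum_eq_zero fun ρ hρ => sum_eq_zero fun τ hτ => if_neg fun hc => hex ⟨ρ, hρ, τ, hτ, hc⟩]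
      exact sum_nonneg hnn
    obtain ⟨ρ, hρ, τ, hτ, he, c1, c2⟩ := hex
    obtain ⟨x1, x2, x3, x4⟩ := hX j hj
    have hρl := mem_Om.1 (mem_filter.1 hρ).1
    obtain ⟨hτl, hτr⟩ := hH τ hτ
    rw [sum_eq_single_of_mem ρ hρ fun ρ' hρ' hne => sum_eq_zero fun τ' _ => if_neg fun hc =>
        hne (pre_eq_of_length hc.2.1 c1 ((mem_Om.1 (mem_filter.1 hρ').1).trans hρl.symm)),
      sum_eq_single_of_mem τ hτ fun τ' hτ' hne => if_neg fun hc =>
        hne (pre_eq_of_length hc.2.2 c2 ((hH τ' hτ').1.trans hτl.symm)), if_pos ⟨he, c1, c2⟩]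
    obtain ⟨i, hi, hc⟩ := getD_allS_surj (n := F.k) (u := (X j).root.take F.k) (by simp; omega)
    have hc' : F.cell i = (X j).root.take F.k := hc
    have hcr : F.cell i <+: (X j).root := hc' ▸ List.take_prefix _ _
    have hρt : (X j).own.take l = ρ := (pre_iff_take hρl).1 c1
    have hmem : ((X j).own.take F.N, i) ∈ B := by
      simp only [hB, Blk, mem_sdiff, mem_filter, mem_product, mem_range, mem_Zs]
      refine ⟨⟨⟨⟨by simp; omega, take_pre x1 (by omega)⟩, hi⟩, ?_, (τ, l, l + d), hτr,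
        hl.trans hkN, hc' ▸ take_pre c2 (hτl.trans_le hl), ?_⟩, ?_⟩
      · rw [NBlk.take_take (NBlk.k_lt_N F hi)]
        exact x4 he _ (hp i hi) (NBlk.k_lt_N F hi) hcr
      · rw [NBlk.take_take (hl.trans hkN), hρt]
        exact not_le.1 fun hk => (mem_filter.1 hρ).2 ⟨hρt ▸ take_pre x1 hσ, hk⟩
      · rintro ⟨-, -, r, r1, r2, r3, r4⟩
        rw [NBlk.take_take r2] at r4
        exact r4.not_ge (x4 he r r1 r2 (r3.trans hcr))
    refine le_trans (le_of_eq ?_) (single_le_sum hnn hmem)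
    exact (if_pos (List.take_prefix _ _)).symm
  have h3 : (∑ ρ ∈ (Om l).filter fun ρ => ¬P ρ, ∑ τ ∈ H, ww X e a b ρ τ) ≤
      B.card * (2 ^ lw * 2⁻¹ ^ (lu + F.N)) := by
    simp only [ww]
    rw [sum_congr rfl fun ρ _ => sum_comm, sum_comm]
    refine (sum_le_sum h2).trans ?_
    rw [sum_comm, ← nsmul_eq_mul]
    refine sum_le_card_nsmul _ _ _ fun p hp => hcap _ ?_
    exact Zs_subset _ _ (mem_product.1 (mem_filter.1 (mem_sdiff.1 hp).1).1).1
  rw [← sum_filter_add_sum_filter_not (Om l) P, mul_add, ← hBc]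
  refine add_le_add h1 ?_
  refine (mul_le_mul_of_nonneg_left (sum_le_sum fun ρ _ => min_le_right _ _)
    (by positivity)).trans ?_
  rw [← mul_sum]
  refine (mul_le_mul_of_nonneg_left (mul_le_mul_of_nonneg_left h3 (by positivity))
    (by positivity)).trans (le_of_eq ?_)
  simp only [inv_pow, pow_add]
  field_simp

end Pool.Agent.Lib.MP_848037_lc.Neg
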