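import Pool.Agent.Lib.MP_848037_lc.NBasic

/-!
Charging a layer of later emissions to the payments of an earlier one; totals of an epoch.
-/

set_option autoImplicit false

namespace Pool.Agent.Lib.MP_848037_lc.Neg

open Finset Pool.Agent.Shared.Type2

/-- The static bound, as a statement. -/
def NCharge.StaticStmt : Prop := ∀ {D : Lab} (_ : DesignOK D) (K : Str → ℕ) (x : Emi) (_ : 20 ≤ x.n)
    (_ : x.root.length ≤ x.n) {y : Str} (_ : y.length ≤ x.n) {ι : Type} (I : Finset ι)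
    (f : ι → Str → Str → ℝ) (lw : ℕ) (_ : I.card * 2 ^ lw ≤ 2 ^ x.n) (_ : ∀ c ρ ξ, 0 ≤ f c ρ ξ)
    (_ : ∀ c ∈ I, ∀ ξ ∈ Zs x.root (nEnd x.n), ∑ ρ ∈ Om (nEnd x.n), f c ρ ξ ≤ 2⁻¹ ^ nEnd x.n)
    (_ : ∀ c ∈ I, ∀ ρ ∈ Om (nEnd x.n),
      ∑ ξ ∈ Zs x.root (nEnd x.n), f c ρ ξ ≤ 2 ^ lw * 2⁻¹ ^ nEnd x.n)
    (_ : ∀ c ∈ I, ∀ ρ ∈ Om (nEnd x.n), ∀ ξ ∈ Zs x.root (nEnd x.n), 0 < f c ρ ξ → y <+: ρ ∧
      ∀ r ∈ design D x, r.1 <+: ξ → K (ρ.take r.2.1) ≤ r.2.2 + x.e)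
    (_ : ∀ c ∈ I, NoBad D x.n x.root (f c)),
    x.val * 2 ^ x.root.length * ∑ ξ ∈ Zs x.root (nEnd x.n),
        min (2⁻¹ ^ nEnd x.n) (∑ c ∈ I, ∑ ρ ∈ Om (nEnd x.n), f c ρ ξ) ≤
      2 * 2 ^ x.e * Pay K y x.n (nEnd x.n) + 9 * x.val * 2⁻¹ ^ x.n

namespace NCharge

/-- The ratio between the truncated density and the density. -/
noncomputable def kap (lu : ℕ) (G : ℝ) : ℝ := min 1 (2 ^ lu * G) / G

theorem kap_nonneg (lu : ℕ) {G : ℝ} (hG : 0 ≤ G) : 0 ≤ kap lu G :=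
  div_nonneg (le_min zero_le_one (by positivity)) hG

theorem kap_le (lu : ℕ) {G : ℝ} (hG : 0 ≤ G) : kap lu G ≤ 2 ^ lu :=
  div_le_of_le_mul₀ hG (by positivity) (min_le_right _ _)

theorem kap_mul (lu : ℕ) (G : ℝ) : kap lu G * G = min 1 (2 ^ lu * G) := by
  by_cases h : G = 0
  · simp [h]
  · exact div_mul_cancel₀ _ h

/-- The part of the density at `z` owned above `ρ`. -/
noncomputable def gg (X : ℕ → Emi) (e a b : ℕ) (ρ z : Str) : ℝ :=
  ∑ j ∈ Ico a b, if (X j).e = e ∧ ρ <+: (X j).own ∧ (X j).root <+: z then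
    (X j).val * 2 ^ (X j).root.length else 0

theorem gg_nonneg (X : ℕ → Emi) (e a b : ℕ) (ρ z : Str) : 0 ≤ gg X e a b ρ z :=
  sum_nonneg fun j _ => by
    have := (X j).val_pos
    split_ifs <;> positivity

theorem sum_gg (X : ℕ → Emi) (e a b l : ℕ) (h : ∀ j ∈ Ico a b, l ≤ (X j).own.length) (z : Str) :
    ∑ ρ ∈ Om l, gg X e a b ρ z = GG X e a b z := by
  unfold gg GG
  rw [sum_comm]
  refine sum_congr rfl fun j hj => ?_
  rw [← sum_Om_pre (h j hj) fun _ => if (X j).e = e ∧ (X j).root <+: z then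
    (X j).val * 2 ^ (X j).root.length else 0]
  refine sum_congr rfl fun ρ _ => ?_
  by_cases h1 : ρ <+: (X j).own <;> simp [h1]

theorem card_mul_le (ζ : Str) {ns : ℕ} (h : ζ.length ≤ ns) :
    ((Zs ζ ns).card : ℝ) * 2⁻¹ ^ ns = 2⁻¹ ^ ζ.length := by
  rw [card_Zs h]
  obtain ⟨d, rfl⟩ := Nat.exists_eq_add_of_le h
  rw [Nat.add_sub_cancel_left, pow_add]
  push_cast
  simp only [inv_pow]
  field_simp

theorem sum_gg_le (X : ℕ → Emi) (e a b ns : ℕ) (ρ ξ : Str)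
    (h : ∀ j ∈ Ico a b, ξ.length ≤ (X j).root.length ∧ (X j).root.length ≤ ns) :
    ∑ z ∈ Zs ξ ns, (2⁻¹ : ℝ) ^ ns * gg X e a b ρ z ≤ ww X e a b ρ ξ := by
  unfold gg ww
  simp only [mul_sum]
  rw [sum_comm]
  refine sum_le_sum fun j hj => ?_
  have hv := (X j).val_pos
  by_cases h1 : (X j).e = e ∧ ρ <+: (X j).own ∧ ξ <+: (X j).root
  · rw [if_pos h1]
    have h2 : ∑ z ∈ Zs ξ ns, (2⁻¹ : ℝ) ^ ns *
        (if (X j).e = e ∧ ρ <+: (X j).own ∧ (X j).root <+: z then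
          (X j).val * 2 ^ (X j).root.length else 0) ≤
        ∑ z ∈ Zs (X j).root ns, (2⁻¹ : ℝ) ^ ns * ((X j).val * 2 ^ (X j).root.length) := by
      simp only [mul_ite, mul_zero]
      rw [← sum_filter]
      refine sum_le_sum_of_subset_of_nonneg (fun z hz => ?_) fun _ _ _ => by positivity
      obtain ⟨h3, h4⟩ := mem_filter.1 hz
      exact mem_Zs.2 ⟨(mem_Zs.1 h3).1, h4.2.2⟩
    refine h2.trans (le_of_eq ?_)
    rw [sum_const, nsmul_eq_mul, ← mul_assoc, card_mul_le _ (h j hj).2]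
    simp only [inv_pow]
    field_simp
  · rw [if_neg h1]
    refine le_of_eq (sum_eq_zero fun z hz => ?_)
    rw [if_neg, mul_zero]
    rintro ⟨h2, h3, h4⟩
    exact h1 ⟨h2, h3, List.prefix_of_prefix_length_le (mem_Zs.1 hz).2 h4 (h j hj).1⟩

theorem sum_ww_le (X : ℕ → Emi) (e a b l : ℕ) (ρ ζ : Str)
    (h : ∀ j ∈ Ico a b, l ≤ (X j).root.length) :
    ∑ ξ ∈ Zs ζ l, ww X e a b ρ ξ ≤ ∑ j ∈ Ico a b, if ρ <+: (X j).own then (X j).val else 0 := by
  refine (sum_le_sum_of_subset_of_nonneg (Zs_subset ζ l)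
    fun ξ _ _ => ww_nonneg X e a b ρ ξ).trans ?_
  unfold ww
  rw [sum_comm]
  refine sum_le_sum fun j hj => ?_
  have hv := (X j).val_pos
  rw [← sum_Om_pre (h j hj) fun _ => if ρ <+: (X j).own then (X j).val else 0]
  refine sum_le_sum fun ξ _ => ?_
  split_ifs <;> first | exact le_rfl | exact hv.le | tauto

/-- The flow used in the charging argument. -/
noncomputable def fl (X : ℕ → Emi) (e a b lu ns : ℕ) (ρ ξ : Str) : ℝ :=
  ∑ z ∈ Zs ξ ns, (2⁻¹ : ℝ) ^ ns * (kap lu (GG X e a b z) * gg X e a b ρ z)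

theorem fl_nonneg (X : ℕ → Emi) (e a b lu ns : ℕ) (ρ ξ : Str) : 0 ≤ fl X e a b lu ns ρ ξ :=
  sum_nonneg fun z _ => mul_nonneg (by positivity)
    (mul_nonneg (kap_nonneg _ (GG_nonneg X e a b z)) (gg_nonneg X e a b ρ z))

theorem sum_fl (X : ℕ → Emi) (e a b lu ns l : ℕ) (h : ∀ j ∈ Ico a b, l ≤ (X j).own.length)
    (ξ : Str) : ∑ ρ ∈ Om l, fl X e a b lu ns ρ ξ =
      ∑ z ∈ Zs ξ ns, (2⁻¹ : ℝ) ^ ns * min 1 (2 ^ lu * GG X e a b z) := by
  unfold fl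
  rw [sum_comm]
  refine sum_congr rfl fun z _ => ?_
  rw [← mul_sum, ← mul_sum, sum_gg X e a b l h, kap_mul]

theorem fl_le (X : ℕ → Emi) (e a b lu ns : ℕ) (ρ ξ : Str)
    (h : ∀ j ∈ Ico a b, ξ.length ≤ (X j).root.length ∧ (X j).root.length ≤ ns) :
    fl X e a b lu ns ρ ξ ≤ 2 ^ lu * ww X e a b ρ ξ := by
  refine le_trans ?_ (mul_le_mul_of_nonneg_left (sum_gg_le X e a b ns ρ ξ h) (by positivity))
  unfold fl
  rw [mul_sum]
  refine sum_le_sum fun z _ => ?_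
  rw [mul_left_comm]
  exact mul_le_mul_of_nonneg_right (kap_le _ (GG_nonneg X e a b z))
    (mul_nonneg (by positivity) (gg_nonneg X e a b ρ z))

theorem sum_le_unit {ξ : Str} {ns : ℕ} (h : ξ.length ≤ ns) (g : Str → ℝ) (hg : ∀ z, g z ≤ 1) :
    ∑ z ∈ Zs ξ ns, (2⁻¹ : ℝ) ^ ns * g z ≤ 2⁻¹ ^ ξ.length := by
  rw [← card_mul_le ξ h, ← nsmul_eq_mul, ← sum_const]
  exact sum_le_sum fun z _ => mul_le_of_le_one_right (by positivity) (hg z)

theorem slots_le {rs : List Rec} (T : Finset ℕ)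
    (h : ∀ t, (rs.map fun c => if c.t = t then (2⁻¹ : ℝ) ^ c.r else 0).sum ≤ 1)
    (φ : Rec → ℝ) {w : ℝ} (hw : 0 ≤ w)
    (hφ : ∀ c ∈ rs, φ c ≤ if c.t ∈ T then (2⁻¹ : ℝ) ^ c.r * w else 0) :
    (rs.map φ).sum ≤ T.card * w := by
  have h1 : (rs.map φ).sum ≤
      (∑ t ∈ T, (rs.map fun c => if c.t = t then (2⁻¹ : ℝ) ^ c.r else 0).sum) * w := by
    simp only [sum_map_eq]
    rw [sum_comm, sum_mul]
    refine sum_le_sum fun i _ => (hφ _ (List.getElem_mem _)).trans (le_of_eq ?_)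
    rw [sum_ite_eq]
    split_ifs <;> simp_all
  refine h1.trans (mul_le_mul_of_nonneg_right ?_ hw)
  simpa using sum_le_card_nsmul T _ 1 fun t _ => h t

end NCharge

open NCharge

theorem NCharge.charge_of (static : NCharge.StaticStmt) {K : Str → ℕ} {D : Lab} (hD : DesignOK D) (X : ℕ → Emi) (x : Emi) (hn : 20 ≤ x.n)
    (hζ : x.root.length ≤ x.n) {y : Str} (hy : y.length ≤ x.n) {ι : Type} (J : Finset ι)
    (a b lu : ι → ℕ) (lw : ℕ) (hJ : J.card * 2 ^ lw ≤ 2 ^ x.n)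
    (hg : ∀ c ∈ J, GoodR K D X x y (lu c) lw (a c) (b c)) (ns : ℕ)
    (hns : ∀ c ∈ J, ∀ j ∈ Ico (a c) (b c), (X j).root.length ≤ ns) :
    x.val * 2 ^ x.root.length * ∑ z ∈ Zs x.root ns, (2⁻¹ : ℝ) ^ ns *
        min 1 (∑ c ∈ J, min 1 (2 ^ lu c * GG X x.e (a c) (b c) z)) ≤
      2 * 2 ^ x.e * Pay K y x.n (nEnd x.n) + 9 * x.val * 2⁻¹ ^ x.n := by
  have hv := x.val_pos
  have hn1 := (lt_nEnd x.n).le
  rcases lt_or_ge ns (nEnd x.n) with hlt | hge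
  · have h0 : ∀ c ∈ J, ∀ z, GG X x.e (a c) (b c) z = 0 := fun c hc z =>
      sum_eq_zero fun j hj => by
        have h1 := ((hg c hc).len j hj).1
        have h2 := hns c hc j hj
        omega
    have h1 : ∑ z ∈ Zs x.root ns, (2⁻¹ : ℝ) ^ ns *
        min 1 (∑ c ∈ J, min 1 (2 ^ lu c * GG X x.e (a c) (b c) z)) = 0 := by
      refine sum_eq_zero fun z _ => ?_
      rw [sum_eq_zero fun c hc => by rw [h0 c hc z]; simp]
      simp
    rw [h1, mul_zero]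
    have := Pay_nonneg K y x.n (nEnd x.n)
    positivity
  have hsum : ∀ c ∈ J, ∀ ξ, ∑ ρ ∈ Om (nEnd x.n), fl X x.e (a c) (b c) (lu c) ns ρ ξ =
      ∑ z ∈ Zs ξ ns, (2⁻¹ : ℝ) ^ ns * min 1 (2 ^ lu c * GG X x.e (a c) (b c) z) :=
    fun c hc ξ => sum_fl X _ _ _ _ _ _ (fun j hj => ((hg c hc).len j hj).2.1) ξ
  have hle : ∀ c ∈ J, ∀ ρ, ∀ ξ ∈ Zs x.root (nEnd x.n), fl X x.e (a c) (b c) (lu c) ns ρ ξ ≤
      2 ^ lu c * ww X x.e (a c) (b c) ρ ξ := fun c hc ρ ξ hξ =>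
    fl_le X _ _ _ _ _ ρ ξ fun j hj =>
      ⟨(mem_Zs.1 hξ).1.trans_le ((hg c hc).len j hj).1, hns c hc j hj⟩
  have hz : ∀ c ∈ J, ∀ ξ ∈ Zs x.root (nEnd x.n),
      ∑ ρ ∈ Om (nEnd x.n), fl X x.e (a c) (b c) (lu c) ns ρ ξ ≤ 2⁻¹ ^ nEnd x.n := by
    intro c hc ξ hξ
    have h1 := (mem_Zs.1 hξ).1
    rw [hsum c hc, ← h1]
    exact sum_le_unit (h1.trans_le hge) _ fun z => min_le_left _ _
  refine le_trans ?_ (static hD K x hn hζ hy J
    (fun c => fl X x.e (a c) (b c) (lu c) ns) lw hJ (fun c ρ ξ => fl_nonneg X _ _ _ _ _ ρ ξ) hz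
    (fun c hc ρ hρ => ?_) (fun c hc ρ hρ ξ hξ hpos => ?_)
    fun c hc => (hg c hc).nob _ (fun ρ ξ => fl_nonneg X _ _ _ _ _ ρ ξ)
      (fun ρ _ ξ hξ => hle c hc ρ ξ hξ) (hz c hc))
  · refine mul_le_mul_of_nonneg_left ?_ (by positivity)
    rw [sum_Zs (hζ.trans hn1) hge]
    refine sum_le_sum fun ξ hξ => le_min ?_ ?_
    · have h1 := (mem_Zs.1 hξ).1
      rw [← h1]
      exact sum_le_unit (h1.trans_le hge) _ fun z => min_le_left _ _
    · rw [sum_congr rfl fun c hc => hsum c hc ξ, sum_comm]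
      refine sum_le_sum fun z _ => ?_
      rw [← mul_sum]
      exact mul_le_mul_of_nonneg_left (min_le_right _ _) (by positivity)
  · refine (sum_le_sum fun ξ hξ => hle c hc ρ ξ hξ).trans ?_
    rw [← mul_sum]
    refine (mul_le_mul_of_nonneg_left ((sum_ww_le X _ _ _ _ ρ _
      fun j hj => ((hg c hc).len j hj).1).trans ((hg c hc).cap ρ hρ)) (by positivity)).trans
      (le_of_eq ?_)
    rw [pow_add]
    simp only [inv_pow]
    field_simp
  · have h1 : ww X x.e (a c) (b c) ρ ξ ≠ 0 := fun h2 => by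
      have h3 := hle c hc ρ ξ hξ
      rw [h2, mul_zero] at h3
      exact absurd hpos (not_lt.2 h3)
    obtain ⟨j, hj, h2⟩ := exists_ne_zero_of_sum_ne_zero h1
    have h3 : (X j).e = x.e ∧ ρ <+: (X j).own ∧ ξ <+: (X j).root := by
      by_contra h4
      exact h2 (if_neg h4)
    have hρ' := mem_Om.1 hρ
    refine ⟨List.prefix_of_prefix_length_le ((hg c hc).len j hj).2.2 h3.2.1 (by omega),
      fun r hr hrξ => ?_⟩
    have h4 : r.2.1 ≤ ρ.length := by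
      obtain ⟨l, hl, i, hi, τ, -, b', hb', rfl⟩ := (mem_design hζ).1 hr
      have h5 := mem_Ico.1 hl
      have h6 := tgt_lt_jT hD hn hζ h5.1 (h5.2.le.trans (nC_le_nEnd _)) hi τ hb'
      rw [hρ']
      unfold nEnd
      change l + _ ≤ _
      omega
    rw [take_of_pre h3.2.1 h4]
    exact (hg c hc).sat j hj h3.1 r hr (hrξ.trans h3.2.2)

theorem ep_tot {K : Str → ℕ} {D : Lab} {X : ℕ → Emi} {σ : Str} {N q cb : ℕ} {rs : List Rec}
    {lo hi tb : ℕ} (h : EpOK K D X σ N q cb rs lo hi tb) :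
    ValS X lo hi ≤ tb * 2⁻¹ ^ (3 + cb) := by
  unfold ValS
  rw [h.til.sum]
  have h1 := slots_le (range tb) (fun t => (h.slot t).wt)
    (fun c => ∑ j ∈ Ico c.a c.b, (X j).val) (w := 2⁻¹ ^ (3 + cb)) (by positivity) fun c hc => by
      rw [if_pos (mem_range.2 (h.lt c hc)), mul_comm, ← pow_add]
      exact (h.rec' c hc).tot
  rwa [card_range] at h1

theorem ep_kid {K : Str → ℕ} {D : Lab} {X : ℕ → Emi} {σ : Str} {N q cb : ℕ} {rs : List Rec}
    {lo hi tb : ℕ} (h : EpOK K D X σ N q cb rs lo hi tb) (hσ : σ.length ≤ N)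
    (htb : tb ≤ 2 ^ (q + 6 + (N - σ.length))) (y : Str) (hy : y.length = N) :
    (∑ j ∈ Ico lo hi, if y <+: (X j).own then (X j).val else 0) ≤
      2 ^ (q + 6) * 2⁻¹ ^ (3 + cb) := by
  rw [h.til.sum]
  have h1 := slots_le ((range tb).filter fun t => kidS σ N t = y) (fun t => (h.slot t).wt)
    (fun c => ∑ j ∈ Ico c.a c.b, if y <+: (X j).own then (X j).val else 0)
    (w := 2⁻¹ ^ (3 + cb)) (by positivity) fun c hc => by
      by_cases h2 : kidS σ N c.t = y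
      · rw [if_pos (mem_filter.2 ⟨mem_range.2 (h.lt c hc), h2⟩), mul_comm, ← pow_add]
        refine le_trans (sum_le_sum fun j _ => ?_) (h.rec' c hc).tot
        split_ifs
        · exact le_rfl
        · exact (X j).val_pos.le
      · have h4 : c.t ∉ (range tb).filter fun t => kidS σ N t = y :=
          fun h3 => h2 (mem_filter.1 h3).2
        rw [if_neg h4]
        refine le_of_eq (sum_eq_zero fun j hj => if_neg fun h3 => h2 ?_)
        exact pre_eq_of_length ((h.rec' c hc).own j hj) h3 ((length_kidS hσ _).trans hy.symm)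
  refine h1.trans (mul_le_mul_of_nonneg_right ?_ (by positivity))
  have h2 : ((range tb).filter fun t => kidS σ N t = y).card ≤ (range (2 ^ (q + 6))).card := by
    refine card_le_card_of_injOn (fun t => t / 2 ^ (N - σ.length)) (fun t ht => ?_)
      fun s hs t ht hst => ?_
    · have h3 := mem_range.1 (mem_filter.1 (mem_coe.1 ht)).1
      refine mem_coe.2 (mem_range.2 (Nat.div_lt_of_lt_mul ?_))
      rw [mul_comm, ← pow_add]
      omega
    · have h3 := kidS_inj ((mem_filter.1 (mem_coe.1 hs)).2.trans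
        (mem_filter.1 (mem_coe.1 ht)).2.symm)
      have h4 : s / 2 ^ (N - σ.length) = t / 2 ^ (N - σ.length) := hst
      rw [← Nat.div_add_mod s (2 ^ (N - σ.length)), ← Nat.div_add_mod t (2 ^ (N - σ.length)),
        h3, h4]
  rw [card_range] at h2
  exact_mod_cast h2

end Pool.Agent.Lib.MP_848037_lc.Neg
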