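import Pool.Agent.Lib.MP_848037_lc.NStatic
import Pool.Agent.Lib.MP_848037_lc.NChargeA

/-!
Charging a layer of later emissions to the payments of an earlier one.
-/

set_option autoImplicit false

namespace Pool.Agent.Lib.MP_848037_lc.Neg

open Finset Pool.Agent.Shared.Type2

theorem charge {K : Str → ℕ} {D : Lab} (hD : DesignOK D) (X : ℕ → Emi) (x : Emi) (hn : 20 ≤ x.n)
    (hζ : x.root.length ≤ x.n) {y : Str} (hy : y.length ≤ x.n) {ι : Type} (J : Finset ι)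
    (a b lu : ι → ℕ) (lw : ℕ) (hJ : J.card * 2 ^ lw ≤ 2 ^ x.n)
    (hg : ∀ c ∈ J, GoodR K D X x y (lu c) lw (a c) (b c)) (ns : ℕ) (_hx : x.root.length ≤ ns)
    (hns : ∀ c ∈ J, ∀ j ∈ Ico (a c) (b c), (X j).root.length ≤ ns) :
    x.val * 2 ^ x.root.length * ∑ z ∈ Zs x.root ns, (2⁻¹ : ℝ) ^ ns *
        min 1 (∑ c ∈ J, min 1 (2 ^ lu c * GG X x.e (a c) (b c) z)) ≤
      2 * 2 ^ x.e * Pay K y x.n (nEnd x.n) + 9 * x.val * 2⁻¹ ^ x.n :=
  NCharge.charge_of (fun hD K x hn hζ _ hy _ I f lw hI h0 hz hx hs hb =>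
    static hD K x hn hζ hy I f lw hI h0 hz hx hs hb) hD X x hn hζ hy J a b lu lw hJ hg ns hns

end Pool.Agent.Lib.MP_848037_lc.Neg
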