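import Pool.Agent.Lib.MP_848037_lc.NBasic

/-!
The run of the machine is computable from the approximation and the label system.
-/

set_option autoImplicit false

namespace Pool.Agent.Lib.MP_848037_lc.Neg

open Finset Pool.Agent.Shared.Type2

namespace NComp

variable {X : Type} [Rep X]

/-! ### Records -/

theorem td_emi {f : X → Emi} (hf : TD f) : TD fun x => Emi.eqv (f x) := hf
theorem td_fr {f : X → Fr} (hf : TD f) : TD fun x => Fr.eqv (f x) := hf
theorem td_ms {f : X → MS} (hf : TD f) : TD fun x => MS.eqv (f x) := hf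

@[fun_prop] theorem emi_e {f : X → Emi} (hf : TD f) : TD fun x => (f x).e := (td_emi hf).fst
@[fun_prop] theorem emi_own {f : X → Emi} (hf : TD f) : TD fun x => (f x).own :=
  (td_emi hf).snd.fst
@[fun_prop] theorem emi_root {f : X → Emi} (hf : TD f) : TD fun x => (f x).root :=
  (td_emi hf).snd.snd.fst
@[fun_prop] theorem emi_A {f : X → Emi} (hf : TD f) : TD fun x => (f x).A :=
  (td_emi hf).snd.snd.snd.fst
@[fun_prop] theorem emi_n {f : X → Emi} (hf : TD f) : TD fun x => (f x).n :=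
  (td_emi hf).snd.snd.snd.snd

@[fun_prop] theorem emi_mk {f1 : X → ℕ} {f2 f3 : X → Str} {f4 f5 : X → ℕ} (h1 : TD f1)
    (h2 : TD f2) (h3 : TD f3) (h4 : TD f4) (h5 : TD f5) :
    TD fun x => Emi.mk (f1 x) (f2 x) (f3 x) (f4 x) (f5 x) := by
  have : TD fun x => (f1 x, f2 x, f3 x, f4 x, f5 x) := by fun_prop
  exact this

@[fun_prop] theorem fr_σ {f : X → Fr} (hf : TD f) : TD fun x => (f x).σ := (td_fr hf).fst.fst
@[fun_prop] theorem fr_k {f : X → Fr} (hf : TD f) : TD fun x => (f x).k := (td_fr hf).fst.snd.fst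
@[fun_prop] theorem fr_b {f : X → Fr} (hf : TD f) : TD fun x => (f x).b :=
  (td_fr hf).fst.snd.snd.fst
@[fun_prop] theorem fr_q {f : X → Fr} (hf : TD f) : TD fun x => (f x).q :=
  (td_fr hf).fst.snd.snd.snd
@[fun_prop] theorem fr_m {f : X → Fr} (hf : TD f) : TD fun x => (f x).m := (td_fr hf).snd.fst.fst
@[fun_prop] theorem fr_rem {f : X → Fr} (hf : TD f) : TD fun x => (f x).rem :=
  (td_fr hf).snd.fst.snd.fst
@[fun_prop] theorem fr_J {f : X → Fr} (hf : TD f) : TD fun x => (f x).J :=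
  (td_fr hf).snd.fst.snd.snd.fst
@[fun_prop] theorem fr_t {f : X → Fr} (hf : TD f) : TD fun x => (f x).t :=
  (td_fr hf).snd.fst.snd.snd.snd
@[fun_prop] theorem fr_i0 {f : X → Fr} (hf : TD f) : TD fun x => (f x).i0 :=
  (td_fr hf).snd.snd.fst.fst
@[fun_prop] theorem fr_i1 {f : X → Fr} (hf : TD f) : TD fun x => (f x).i1 :=
  (td_fr hf).snd.snd.fst.snd.fst
@[fun_prop] theorem fr_iE {f : X → Fr} (hf : TD f) : TD fun x => (f x).iE :=
  (td_fr hf).snd.snd.fst.snd.snd
@[fun_prop] theorem fr_rl {f : X → Fr} (hf : TD f) : TD fun x => (f x).rl :=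
  (td_fr hf).snd.snd.snd.fst
@[fun_prop] theorem fr_wv {f : X → Fr} (hf : TD f) : TD fun x => (f x).wv :=
  (td_fr hf).snd.snd.snd.snd

@[fun_prop] theorem fr_mk {f1 : X → Str} {f2 f3 f4 f5 f6 f7 f8 f9 f10 f11 : X → ℕ}
    {f12 : X → List ℕ} {f13 : X → List (ℕ × ℕ)} (h1 : TD f1) (h2 : TD f2) (h3 : TD f3)
    (h4 : TD f4) (h5 : TD f5) (h6 : TD f6) (h7 : TD f7) (h8 : TD f8) (h9 : TD f9) (h10 : TD f10)
    (h11 : TD f11) (h12 : TD f12) (h13 : TD f13) :
    TD fun x => Fr.mk (f1 x) (f2 x) (f3 x) (f4 x) (f5 x) (f6 x) (f7 x) (f8 x) (f9 x) (f10 x)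
      (f11 x) (f12 x) (f13 x) := by
  have : TD fun x => ((f1 x, f2 x, f3 x, f4 x), (f5 x, f6 x, f7 x, f8 x), (f9 x, f10 x, f11 x),
      f12 x, f13 x) := by fun_prop
  exact this

@[fun_prop] theorem ms_n {f : X → MS} (hf : TD f) : TD fun x => (f x).n := (td_ms hf).fst
@[fun_prop] theorem ms_req {f : X → MS} (hf : TD f) : TD fun x => (f x).req := (td_ms hf).snd.fst
@[fun_prop] theorem ms_em {f : X → MS} (hf : TD f) : TD fun x => (f x).em :=
  (td_ms hf).snd.snd.fst
@[fun_prop] theorem ms_fs {f : X → MS} (hf : TD f) : TD fun x => (f x).fs :=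
  (td_ms hf).snd.snd.snd

@[fun_prop] theorem ms_mk {f1 : X → ℕ} {f2 : X → List Rq} {f3 : X → List Emi} {f4 : X → List Fr}
    (h1 : TD f1) (h2 : TD f2) (h3 : TD f3) (h4 : TD f4) :
    TD fun x => MS.mk (f1 x) (f2 x) (f3 x) (f4 x) := by
  have : TD fun x => (f1 x, f2 x, f3 x, f4 x) := by fun_prop
  exact this

/-! ### Arithmetic -/

attribute [local fun_prop] td_lsum

@[fun_prop] theorem td_log {f : X → ℕ} (hf : TD f) : TD fun x => Nat.log 2 (f x) := by
  have h : ∀ x, ∃ j, decide (f x < 2 ^ (j + 1)) = true := fun x =>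
    ⟨f x, decide_eq_true (lt_trans Nat.lt_two_pow_self (Nat.pow_lt_pow_right (by norm_num)
      (Nat.lt_succ_self _)))⟩
  refine (TD.find' (c := fun x j => decide (f x < 2 ^ (j + 1))) (by fun_prop) h).of_eq fun x => ?_
  rw [Nat.find_eq_iff]
  refine ⟨decide_eq_true (Nat.lt_pow_succ_log_self (by norm_num) _), fun j hj => ?_⟩
  have h0 : f x ≠ 0 := by
    rintro h0
    simp [h0] at hj
  have h1 : 2 ^ (j + 1) ≤ f x :=
    (Nat.pow_le_pow_right (by norm_num) hj).trans (Nat.pow_log_le_self 2 h0)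
  simpa using h1

@[fun_prop] theorem td_subs {f : X → List Str} (hf : TD f) : TD fun x => subs (f x) := by
  unfold subs; fun_prop

@[fun_prop] theorem td_zsL {f : X → Str} {g : X → ℕ} (hf : TD f) (hg : TD g) :
    TD fun x => zsL (f x) (g x) := by
  unfold zsL; fun_prop

@[fun_prop] theorem td_tw {f g : X → ℕ} (hf : TD f) (hg : TD g) :
    TD fun x => tw (f x) (g x) := by
  unfold tw; fun_prop

@[fun_prop] theorem td_nT {f : X → ℕ} (hf : TD f) : TD fun x => nT (f x) := by
  unfold nT; fun_prop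

@[fun_prop] theorem td_zz {f g : X → ℕ} (hf : TD f) (hg : TD g) :
    TD fun x => zz (f x) (g x) := by
  unfold zz; fun_prop

@[fun_prop] theorem td_so {f g : X → ℕ} (hf : TD f) (hg : TD g) :
    TD fun x => so (f x) (g x) := by
  unfold so; fun_prop

@[fun_prop] theorem td_mm {f : X → ℕ} (hf : TD f) : TD fun x => mm (f x) := by
  unfold mm; fun_prop

@[fun_prop] theorem td_jT {f : X → ℕ} (hf : TD f) : TD fun x => jT (f x) := by
  unfold jT; fun_prop

@[fun_prop] theorem td_n0 {f : X → ℕ} (hf : TD f) : TD fun x => n0 (f x) := by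
  unfold n0; fun_prop

@[fun_prop] theorem td_nC {f : X → ℕ} (hf : TD f) : TD fun x => nC (f x) := by
  unfold nC; fun_prop

@[fun_prop] theorem td_nEnd {f : X → ℕ} (hf : TD f) : TD fun x => nEnd (f x) := by
  unfold nEnd; fun_prop

@[fun_prop] theorem td_kidS {f : X → Str} {g h : X → ℕ} (hf : TD f) (hg : TD g) (hh : TD h) :
    TD fun x => kidS (f x) (g x) (h x) := by
  unfold kidS; fun_prop

@[fun_prop] theorem td_lB {f : X → ℕ} (hf : TD f) : TD fun x => lB (f x) := by
  unfold lB; fun_prop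

@[fun_prop] theorem td_itE {f g : X → ℕ} (hf : TD f) (hg : TD g) :
    TD fun x => itE (f x) (g x) := by
  unfold itE; fun_prop

/-! ### Frames -/

@[fun_prop] theorem fr_N {f : X → Fr} (hf : TD f) : TD fun x => (f x).N := by
  unfold Fr.N; fun_prop

@[fun_prop] theorem fr_S {f : X → Fr} (hf : TD f) : TD fun x => (f x).S := by
  unfold Fr.S; fun_prop

@[fun_prop] theorem fr_slots {f : X → Fr} (hf : TD f) : TD fun x => (f x).slots := by
  unfold Fr.slots; fun_prop

@[fun_prop] theorem fr_cb {f : X → Fr} (hf : TD f) : TD fun x => (f x).cb := by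
  unfold Fr.cb; fun_prop

@[fun_prop] theorem fr_h {f : X → Fr} (hf : TD f) : TD fun x => (f x).h := by
  unfold Fr.h; fun_prop

@[fun_prop] theorem fr_e {f : X → Fr} (hf : TD f) : TD fun x => (f x).e := by
  unfold Fr.e; fun_prop

@[fun_prop] theorem fr_kid {f : X → Fr} (hf : TD f) : TD fun x => (f x).kid := by
  unfold Fr.kid; fun_prop

@[fun_prop] theorem fr_cell {f : X → Fr} {g : X → ℕ} (hf : TD f) (hg : TD g) :
    TD fun x => (f x).cell (g x) := by
  unfold Fr.cell; fun_prop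

@[fun_prop] theorem fr_rc {f : X → Fr} {g : X → ℕ} (hf : TD f) (hg : TD g) :
    TD fun x => (f x).rc (g x) := by
  unfold Fr.rc; fun_prop

@[fun_prop] theorem fr_cnt {f : X → Fr} {g : X → ℕ} (hf : TD f) (hg : TD g) :
    TD fun x => (f x).cnt (g x) := by
  unfold Fr.cnt; fun_prop

@[fun_prop] theorem fr_pin {f : X → Fr} {g h : X → ℕ} (hf : TD f) (hg : TD g) (hh : TD h) :
    TD fun x => (f x).pin (g x) (h x) := by
  unfold Fr.pin; fun_prop

@[fun_prop] theorem fr_fresh {f : X → Fr} (hf : TD f) : TD fun x => (f x).fresh := by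
  unfold Fr.fresh; fun_prop

@[fun_prop] theorem fr_next {f : X → Fr} (hf : TD f) : TD fun x => (f x).next := by
  unfold Fr.next; fun_prop

@[fun_prop] theorem fr_wA {f : X → Fr} (hf : TD f) : TD fun x => (f x).wA := by
  unfold Fr.wA; fun_prop

@[fun_prop] theorem td_pins {f : X → Fr} (hf : TD f) : TD fun x => pins (f x) := by
  unfold pins; fun_prop

@[fun_prop] theorem td_bump {f : X → List Fr} (hf : TD f) : TD fun x => bump (f x) := by
  unfold bump; fun_prop

@[fun_prop] theorem td_child {f : X → MS} {g : X → Fr} (hf : TD f) (hg : TD g) :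
    TD fun x => child (f x) (g x) := by
  unfold child; fun_prop

@[fun_prop] theorem td_push {f : X → MS} (hf : TD f) : TD fun x => push (f x) := by
  unfold push; fun_prop

/-! ### Waves -/

@[fun_prop] theorem td_lc {f : X → Emi} (hf : TD f) : TD fun x => lc (f x) := by
  unfold lc; fun_prop

@[fun_prop] theorem td_wN {L : X → List Emi} {e l : X → ℕ} {ρ : X → Str} {H : X → List Str}
    (h1 : TD L) (h2 : TD e) (h3 : TD l) (h4 : TD ρ) (h5 : TD H) :
    TD fun x => wN (L x) (e x) (l x) (ρ x) (H x) := by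
  unfold wN; fun_prop

@[fun_prop] theorem td_wtest {F : X → Fr} {L : X → List Emi} {j : X → ℕ} {y : X → Emi}
    {w : X → ℕ × List Str × ℕ} (h1 : TD F) (h2 : TD L) (h3 : TD j) (h4 : TD y) (h5 : TD w) :
    TD fun x => wtest (F x) (L x) (j x) (y x) (w x) := by
  unfold wtest
  refine TD.and' (TD.and' (TD.and' (TD.not' (TD.any (by fun_prop) (TD.decide_eq (by fun_prop)
    (by fun_prop)))) (TD.decide_le (by fun_prop) (by fun_prop)))
    (TD.decide_le (by fun_prop) (by fun_prop))) (TD.decide_le (by fun_prop)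
    (TD.mul (by fun_prop) (td_lsum (TD.map (by fun_prop) (TD.min' (by fun_prop)
      (TD.mul (by fun_prop) (td_wN ?_ ?_ ?_ ?_ ?_)))))))
  all_goals fun_prop

@[fun_prop] theorem td_cands {f : X → Emi} (hf : TD f) : TD fun x => cands (f x) := by
  unfold cands; fun_prop

@[fun_prop] theorem td_waves {f : X → List Emi} {g : X → Fr} (hf : TD f) (hg : TD g) :
    TD fun x => waves (f x) (g x) := by
  unfold waves
  refine TD.flatMap (by fun_prop) (TD.cond' (TD.decide_lt (by fun_prop) (by fun_prop))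
    (TD.map (TD.take (TD.const _) (td_filter (td_cands (by fun_prop))
      (td_wtest ?_ ?_ ?_ ?_ ?_))) (by fun_prop)) (TD.const _))
  all_goals fun_prop

@[fun_prop] theorem td_waveRq {f : X → List (ℕ × ℕ × List Str × ℕ)} (hf : TD f) :
    TD fun x => waveRq (f x) := by
  unfold waveRq; fun_prop

@[fun_prop] theorem td_lastIdx {p : X → ℕ → Bool} {n : X → ℕ}
    (hp : TD fun q : X × ℕ => p q.1 q.2) (hn : TD n) : TD fun x => lastIdx (p x) (n x) := by
  unfold lastIdx; fun_prop

/-! ### The parts that read the oracles -/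

/-- The approximation is computable. -/
class HK (kl : Str × ℕ → ℕ → Bool) : Prop where
  out : TD fun q : (Str × ℕ) × ℕ => kl q.1 q.2

/-- The label system is computable. -/
class HD (D : Lab) : Prop where
  out : TD fun p : (ℕ × Str × ℕ × ℕ) × Str × ℕ => D p.1 p.2.1 p.2.2

variable {kl : Str × ℕ → ℕ → Bool} {D : Lab}

@[fun_prop] theorem td_tgt [hD : HD D] {n : X → ℕ} {ζ : X → Str} {i l : X → ℕ} {τ : X → Str}
    {b : X → ℕ} (h1 : TD n) (h2 : TD ζ) (h3 : TD i) (h4 : TD l) (h5 : TD τ) (h6 : TD b) :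
    TD fun x => tgt D (n x) (ζ x) (i x) (l x) (τ x) (b x) := by
  have h : TD fun x => D (n x, ζ x, i x, l x) (τ x) (b x) :=
    hD.out.comp' (f := fun x => ((n x, ζ x, i x, l x), τ x, b x)) (by fun_prop)
  unfold tgt
  exact TD.add (by fun_prop) h

@[fun_prop] theorem td_hot [HD D] {n : X → ℕ} {ζ : X → Str} {i l : X → ℕ} {τ : X → Str}
    {b : X → ℕ} (h1 : TD n) (h2 : TD ζ) (h3 : TD i) (h4 : TD l) (h5 : TD τ) (h6 : TD b) :
    TD fun x => hot D (n x) (ζ x) (i x) (l x) (τ x) (b x) := by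
  unfold hot; fun_prop

@[fun_prop] theorem td_design [HD D] {f : X → Emi} (hf : TD f) : TD fun x => design D (f x) := by
  unfold design; fun_prop

@[fun_prop] theorem td_valid [hk : HK kl] {s : X → ℕ} {req : X → List Rq} {e : X → ℕ}
    {y ζ : X → Str} (h1 : TD s) (h2 : TD req) (h3 : TD e) (h4 : TD y) (h5 : TD ζ) :
    TD fun x => valid kl (s x) (req x) (e x) (y x) (ζ x) := by
  have hk' := hk.out
  unfold valid; fun_prop

@[fun_prop] theorem td_wide [HK kl] {s : X → ℕ} {req : X → List Rq} {F : X → Fr} {y : X → Str}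
    (h1 : TD s) (h2 : TD req) (h3 : TD F) (h4 : TD y) :
    TD fun x => wide kl (s x) (req x) (F x) (y x) := by
  unfold wide
  exact TD.decide_le (by fun_prop) (TD.length (td_filter (by fun_prop)
    (td_valid (by fun_prop) (by fun_prop) (by fun_prop) (by fun_prop) (by fun_prop))))

@[fun_prop] theorem td_ovr [HK kl] {s : X → ℕ} {req : X → List Rq} {F : X → Fr} {i : X → ℕ}
    (h1 : TD s) (h2 : TD req) (h3 : TD F) (h4 : TD i) :
    TD fun x => ovr kl (s x) (req x) (F x) (i x) := by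
  unfold ovr; fun_prop

@[fun_prop] theorem td_chosen [HK kl] {s : X → ℕ} {req : X → List Rq} {F : X → Fr} {y : X → Str}
    (h1 : TD s) (h2 : TD req) (h3 : TD F) (h4 : TD y) :
    TD fun x => chosen kl (s x) (req x) (F x) (y x) := by
  unfold chosen; fun_prop

@[fun_prop] theorem td_trig [HK kl] {s : X → ℕ} {req : X → List Rq} {F : X → Fr}
    (h1 : TD s) (h2 : TD req) (h3 : TD F) : TD fun x => trig kl (s x) (req x) (F x) := by
  unfold trig; fun_prop

@[fun_prop] theorem td_allW [HK kl] {s : X → ℕ} {req : X → List Rq} {fs : X → List Fr}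
    {m : X → ℕ} (h1 : TD s) (h2 : TD req) (h3 : TD fs) (h4 : TD m) :
    TD fun x => allW kl (s x) (req x) (fs x) (m x) := by
  unfold allW; fun_prop

@[fun_prop] theorem td_fin [HK kl] {s : X → ℕ} {req : X → List Rq} {F : X → Fr}
    (h1 : TD s) (h2 : TD req) (h3 : TD F) : TD fun x => fin kl (s x) (req x) (F x) := by
  unfold fin; fun_prop

@[fun_prop] theorem td_act [HK kl] {s : X → ℕ} {req : X → List Rq} {fs : X → List Fr}
    (h1 : TD s) (h2 : TD req) (h3 : TD fs) : TD fun x => act kl (s x) (req x) (fs x) := by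
  unfold act; fun_prop

@[fun_prop] theorem td_pairs [HK kl] {s : X → ℕ} {req : X → List Rq} {F : X → Fr}
    (h1 : TD s) (h2 : TD req) (h3 : TD F) : TD fun x => pairs kl (s x) (req x) (F x) := by
  unfold pairs; fun_prop

@[fun_prop] theorem td_newEm [HK kl] {s : X → ℕ} {st : X → MS} {F : X → Fr}
    (h1 : TD s) (h2 : TD st) (h3 : TD F) : TD fun x => newEm kl (s x) (st x) (F x) := by
  unfold newEm; fun_prop

@[fun_prop] theorem td_overs [HK kl] {s : X → ℕ} {req : X → List Rq} {F : X → Fr}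
    (h1 : TD s) (h2 : TD req) (h3 : TD F) : TD fun x => overs kl (s x) (req x) (F x) := by
  unfold overs; fun_prop

@[fun_prop] theorem td_endEp [HK kl] [HD D] {s : X → ℕ} {st : X → MS} {F : X → Fr}
    {ps : X → List Fr} (h1 : TD s) (h2 : TD st) (h3 : TD F) (h4 : TD ps) :
    TD fun x => endEp kl D (s x) (st x) (F x) (ps x) := by
  unfold endEp; fun_prop

@[fun_prop] theorem td_step [HK kl] [HD D] {s : X → ℕ} {st : X → MS} (h1 : TD s) (h2 : TD st) :
    TD fun x => step kl D (s x) (st x) := by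
  unfold step; fun_prop

end NComp

theorem td_run {kl : Str × ℕ → ℕ → Bool} {D : Lab} (hk : TD fun q : (Str × ℕ) × ℕ => kl q.1 q.2)
    (hD : TD fun p : (ℕ × Str × ℕ × ℕ) × Str × ℕ => D p.1 p.2.1 p.2.2) : TD (run kl D) := by
  have : NComp.HK kl := ⟨hk⟩
  have : NComp.HD D := ⟨hD⟩
  unfold run
  exact TD.nrec' TD.id' (TD.const _) (NComp.td_step (by fun_prop) (by fun_prop))

end Pool.Agent.Lib.MP_848037_lc.Neg
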