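import Pool.Agent.Lib.MP_848037_lc.NWF

/-!
The emissions made at the end of an epoch.
-/

set_option autoImplicit false

namespace Pool.Agent.Lib.MP_848037_lc.Neg

open Finset Pool.Agent.Shared.Type2

variable {K : Str → ℕ} {kl : Str × ℕ → ℕ → Bool} {D : Lab} {X : ℕ → Emi} {s : ℕ} {st : MS}
  {F : Fr} {ps : List Fr}

namespace NEmit

theorem two_le {a b c d : ℕ} (h : a + d ≤ c + b) :
    (2 : ℝ) ^ a * 2⁻¹ ^ b ≤ 2 ^ c * 2⁻¹ ^ d := by
  have h1 : (2 : ℝ) ^ (a + d) ≤ 2 ^ (c + b) := pow_le_pow_right₀ (by norm_num) h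
  rw [inv_pow, inv_pow, ← div_eq_mul_inv, ← div_eq_mul_inv, div_le_div_iff₀ (by positivity)
    (by positivity), ← pow_add, ← pow_add]
  exact h1

theorem two_eq {a b c d : ℕ} (h : a + d = c + b) :
    (2 : ℝ) ^ a * 2⁻¹ ^ b = 2 ^ c * 2⁻¹ ^ d := le_antisymm (two_le h.le) (two_le (by omega))

theorem len_eq : (endEp kl D s st F ps).em.length = st.em.length + (pairs kl s st.req F).length := by
  simp [endEp, newEm]

theorem X_new (hX : Agree X (endEp kl D s st F ps)) {a : ℕ} (ha : a < (pairs kl s st.req F).length) :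
    X (st.em.length + a) = ⟨F.e, ((pairs kl s st.req F)[a]).1, ((pairs kl s st.req F)[a]).2,
      F.wA, itE a st.n⟩ := by
  rw [← hX _ (by rw [len_eq]; omega)]
  simp [MS.ex, endEp, newEm, List.getD_append_right, ha]

theorem sum_new (hX : Agree X (endEp kl D s st F ps)) (g : Emi → ℝ) (g' : Str → Str → ℝ)
    (hg : ∀ y ζ n, g ⟨F.e, y, ζ, F.wA, n⟩ = g' y ζ) :
    ∑ j ∈ Ico st.em.length (endEp kl D s st F ps).em.length, g (X j) =
      ((pairs kl s st.req F).map fun p => g' p.1 p.2).sum := by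
  rw [len_eq, sum_Ico_eq_sum_range, Nat.add_sub_cancel_left, sum_map_eq, sum_range]
  exact sum_congr rfl fun a _ => by rw [X_new hX a.2, hg]; rfl

theorem nodup_chosen (req : List Rq) (y : Str) : (chosen kl s req F y).Nodup :=
  (List.nodup_range.filter _).sublist (List.take_sublist _ _)

theorem mem_chosen {req : List Rq} {y : Str} {i : ℕ} (h : i ∈ chosen kl s req F y) :
    i < 2 ^ F.k ∧ valid kl s req F.e y (F.cell i) = true ∧ ovr kl s req F i = false := by
  have := List.mem_filter.1 (List.mem_of_mem_take h)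
  simpa using this

theorem pairs_cases (hσ : F.σ.length ≤ F.N) (req : List Rq) :
    (pairs kl s req F = [] ∧ (trig kl s req F = false ∨ F.slots ≤ F.t + 1)) ∨
    (trig kl s req F = true ∧ F.t + 1 < F.slots ∧ ∀ g : Str → Str → ℝ,
      ((pairs kl s req F).map fun p => g p.1 p.2).sum =
        ∑ y ∈ (Zs F.σ F.N).filter fun y => wide kl s req F y = true,
          ∑ i ∈ (chosen kl s req F y).toFinset, g y (F.cell i)) := by
  unfold pairs
  by_cases h : trig kl s req F = true ∧ F.t + 1 < F.slots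
  · refine Or.inr ⟨h.1, h.2, fun g => ?_⟩
    rw [h.1, decide_eq_true h.2, Bool.and_self, cond_true, ← toFinset_zsL hσ,
      ← List.toFinset_filter, List.sum_toFinset _ ((nodup_zsL _ _).filter _)]
    induction (zsL F.σ F.N).filter fun y => wide kl s req F y with
    | nil => rfl
    | cons y l ih =>
      rw [List.flatMap_cons, List.map_append, List.sum_append, ih, List.map_cons, List.sum_cons,
        List.sum_toFinset _ (nodup_chosen req y), List.map_map]
      rfl
  · have : (trig kl s req F && decide (F.t + 1 < F.slots)) = false := by simpa using h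
    refine Or.inl ⟨by rw [this]; rfl, ?_⟩
    by_cases h1 : trig kl s req F = true
    · exact Or.inr (not_lt.1 fun e => h ⟨h1, e⟩)
    · exact Or.inl (by simpa using h1)

theorem card_chosen (req : List Rq) (y : Str) :
    ((chosen kl s req F y).toFinset.card : ℝ) ≤ 2 ^ lB F.e := by
  rw [List.toFinset_card_of_nodup (nodup_chosen req y)]
  exact_mod_cast List.length_take_le _ _

theorem wA_add (h : F.t + 1 < F.slots) : F.wA + Nat.log 2 (F.slots - (F.t + 1)) =
    3 + F.cb + lB F.e + (F.N - F.σ.length) ∧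
      Nat.log 2 (F.slots - (F.t + 1)) ≤ F.q + 6 + (F.N - F.σ.length) := by
  have h1 : Nat.log 2 (F.slots - (F.t + 1)) ≤ F.q + 6 + (F.N - F.σ.length) :=
    (Nat.log_mono_right (Nat.sub_le _ _)).trans (Nat.log_pow (by norm_num) _).le
  refine ⟨?_, h1⟩
  unfold Fr.wA Fr.cb
  omega

theorem log_le (h : F.t + 1 < F.slots) :
    (2 : ℝ) ^ Nat.log 2 (F.slots - (F.t + 1)) ≤ (F.slots - (F.t + 1) : ℕ) := by
  exact_mod_cast Nat.pow_log_le_self 2 (by omega)

theorem valid_K (hkl : Appr K kl) {req : List Rq} {e : ℕ} {y ζ : Str}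
    (h : valid kl s req e y ζ = true) {r : Rq} (hr : r ∈ req) (h1 : r.2.1 ≤ y.length)
    (h2 : r.1 <+: ζ) : K (y.take r.2.1) ≤ r.2.2 + e := by
  simp only [valid, List.all_eq_true, Bool.or_eq_true, decide_eq_true_eq, Bool.not_eq_true',
    decide_eq_false_iff_not] at h
  rcases h r hr with (a | a) | a
  · omega
  · exact absurd ((pre_iff_take rfl).1 h2) a
  · exact (hkl.iff (_, _)).2 ⟨s, a⟩

theorem deg_le (hK : Kr K) (hkl : Appr K kl) (hF : FrWF st F) (hR : RCok K F) {i : ℕ}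
    (hi : i < 2 ^ F.k) :
    (((Zs F.σ F.N).filter fun y => valid kl s st.req F.e y (F.cell i) = true).card : ℝ) ≤
      2 ^ (F.N + F.h + F.e) * 2⁻¹ ^ F.rc i * PayL K [] (F.k + 1 + i) := by
  have h1 : F.rc i ≤ F.h + F.k := by
    rcases hR i hi with a | a
    · omega
    · by_contra b
      have c1 := hK.sum_PayL [] {F.k + 1 + i}
      rw [sum_singleton] at c1
      have c2 := two_le (a := 0) (b := 0) (c := F.rc i) (d := F.h + F.k) (by omega)
      simp only [pow_zero] at c2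
      linarith
  have h2 : F.k + 1 + i ≤ F.N := by unfold Fr.N; omega
  rw [card_filter, PayL, Zs_nil, mul_sum]
  push_cast
  refine (sum_le_sum_of_subset_of_nonneg (Zs_subset _ _) fun _ _ _ => by positivity).trans ?_
  rw [sum_Om_Zs h2]
  refine sum_le_sum fun ρ hρ => ?_
  by_cases c : K ρ ≤ F.k + 1 + i + F.h - F.rc i + F.e
  · calc _ ≤ ∑ _y ∈ Zs ρ F.N, (1 : ℝ) := sum_le_sum fun y _ => by split_ifs <;> norm_num
      _ = 2 ^ (F.N - (F.k + 1 + i)) * 2⁻¹ ^ 0 := by
          rw [sum_const, card_Zs (by rw [mem_Om.1 hρ]; exact h2), mem_Om.1 hρ]; simp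
      _ ≤ 2 ^ (F.N + F.h + F.e) * 2⁻¹ ^ (F.rc i + K ρ) := two_le (by omega)
      _ = _ := by rw [pow_add (2⁻¹ : ℝ), mul_assoc]
  · rw [sum_eq_zero fun y hy => if_neg fun v => c ?_]
    · positivity
    · obtain ⟨a, b⟩ := mem_Zs.1 hy
      have := valid_K hkl v (hF.pinc i hi) (by rw [a]; exact h2) List.prefix_rfl
      rwa [show y.take (F.pin i (F.rc i)).2.1 = ρ from (pre_iff_take (mem_Om.1 hρ)).1 b] at this

theorem ovr_iff (hσ : F.σ.length ≤ F.N) (req : List Rq) (i : ℕ) : ovr kl s req F i = true ↔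
    2 ^ (F.e + 6 + 2 ^ F.k) ≤
      ((Zs F.σ F.N).filter fun y => valid kl s req F.e y (F.cell i) = true).card := by
  rw [ovr, decide_eq_true_eq, ← toFinset_zsL hσ, ← List.toFinset_filter,
    List.toFinset_card_of_nodup ((nodup_zsL _ _).filter _)]

end NEmit

open NEmit

theorem emit_valid (hkl : Appr K kl) (hF : FrWF st F) (hX : Agree X (endEp kl D s st F ps)) :
    ∀ j ∈ Ico st.em.length (endEp kl D s st F ps).em.length, (X j).e = F.e ∧
      (X j).own ∈ Zs F.σ F.N ∧ (X j).root.length = F.k ∧ st.n ≤ (X j).n ∧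
      ∀ r ∈ st.req, r.2.1 ≤ F.N → r.1 <+: (X j).root →
        K ((X j).own.take r.2.1) ≤ r.2.2 + F.e := by
  intro j hj
  obtain ⟨j0, j1⟩ := mem_Ico.1 hj
  obtain ⟨a, rfl⟩ := Nat.exists_eq_add_of_le j0
  have ha : a < (pairs kl s st.req F).length := by rw [len_eq] at j1; omega
  rw [X_new hX ha]
  have hm := List.getElem_mem ha
  generalize (pairs kl s st.req F)[a] = p at hm
  unfold pairs at hm
  cases hc : (trig kl s st.req F && decide (F.t + 1 < F.slots)) with
  | false => rw [hc] at hm; simp at hm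
  | true =>
    rw [hc, cond_true] at hm
    obtain ⟨y, hy, hm⟩ := List.mem_flatMap.1 hm
    obtain ⟨i, hi, rfl⟩ := List.mem_map.1 hm
    have h1 := (mem_zsL (NWF.sig_le hF)).1 (List.mem_filter.1 hy).1
    obtain ⟨b1, b2, -⟩ := mem_chosen hi
    exact ⟨rfl, h1, length_cell b1, NWF.le_itE _ _, fun r hr c1 c2 =>
      valid_K hkl b2 hr (by rw [(mem_Zs.1 h1).1]; exact c1) c2⟩

theorem emit_le (hF : FrWF st F) (hX : Agree X (endEp kl D s st F ps)) :
    ValS X st.em.length (endEp kl D s st F ps).em.length ≤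
      (F.slots - (F.t + 1) : ℕ) * 2⁻¹ ^ (3 + F.cb) := by
  rw [ValS, sum_new hX Emi.val (fun _ _ => 2⁻¹ ^ F.wA) fun _ _ _ => rfl]
  rcases pairs_cases (kl := kl) (s := s) (NWF.sig_le hF) st.req with ⟨e, -⟩ | ⟨-, h1, h2⟩
  · rw [e]; simp only [List.map_nil, List.sum_nil]; positivity
  rw [h2 fun _ _ => 2⁻¹ ^ F.wA]
  obtain ⟨w1, -⟩ := wA_add h1
  calc _ ≤ ∑ _y ∈ Zs F.σ F.N, (2 : ℝ) ^ lB F.e * 2⁻¹ ^ F.wA := by
        refine (sum_le_sum fun y _ => ?_).trans
          (sum_le_sum_of_subset_of_nonneg (filter_subset _ _) fun _ _ _ => by positivity)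
        rw [sum_const, nsmul_eq_mul]
        have := card_chosen (kl := kl) (s := s) (F := F) st.req y
        gcongr
    _ = 2 ^ Nat.log 2 (F.slots - (F.t + 1)) * 2⁻¹ ^ (3 + F.cb) := by
        rw [sum_const, card_Zs (NWF.sig_le hF), nsmul_eq_mul]
        push_cast
        rw [← mul_assoc, ← pow_add]
        exact two_eq (by omega)
    _ ≤ _ := by have := log_le h1; gcongr

theorem emit_kid (hF : FrWF st F) (hX : Agree X (endEp kl D s st F ps)) (y : Str)
    (hy : y.length = F.N) :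
    (∑ j ∈ Ico st.em.length (endEp kl D s st F ps).em.length,
      if y <+: (X j).own then (X j).val else 0) ≤ 2 ^ (F.q + 6) * 2⁻¹ ^ (3 + F.cb) := by
  rw [sum_new hX (fun x => if y <+: x.own then x.val else 0)
    (fun y' _ => if y <+: y' then 2⁻¹ ^ F.wA else 0) fun _ _ _ => rfl]
  rcases pairs_cases (kl := kl) (s := s) (NWF.sig_le hF) st.req with ⟨e, -⟩ | ⟨-, h1, h2⟩
  · rw [e]; simp only [List.map_nil, List.sum_nil]; positivity
  rw [h2 fun y' _ => if y <+: y' then 2⁻¹ ^ F.wA else 0]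
  obtain ⟨w1, w2⟩ := wA_add h1
  calc _ ≤ ∑ y' ∈ (Zs F.σ F.N).filter fun y => wide kl s st.req F y = true,
        if y = y' then (2 : ℝ) ^ lB F.e * 2⁻¹ ^ F.wA else 0 := by
        refine sum_le_sum fun y' hy' => ?_
        rw [sum_const, nsmul_eq_mul]
        have := card_chosen (kl := kl) (s := s) (F := F) st.req y'
        by_cases e : y = y'
        · rw [if_pos e, if_pos (e ▸ List.prefix_rfl)]; gcongr
        · rw [if_neg e, if_neg fun a => e (a.eq_of_length (hy.trans
            (mem_Zs.1 (mem_filter.1 hy').1).1.symm)), mul_zero]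
    _ ≤ 2 ^ lB F.e * 2⁻¹ ^ F.wA := by
        rw [sum_ite_eq]; split_ifs
        · exact le_rfl
        · positivity
    _ ≤ _ := two_le (by omega)

theorem emit_dens (hF : FrWF st F) (hX : Agree X (endEp kl D s st F ps)) :
    ∃ φ : ℝ, 0 ≤ φ ∧ φ * F.slots ≤ (F.slots - (F.t + 1) : ℕ) ∧
      ∀ z, GG X F.e st.em.length (endEp kl D s st F ps).em.length z ≤
        φ * (2 ^ (F.q + 6 + F.N) * 2⁻¹ ^ (3 + F.cb)) * 2⁻¹ ^ 2 ^ (2 * F.e + 12) := by
  have hσ := NWF.sig_le hF
  have h0 : ∀ z, GG X F.e st.em.length (endEp kl D s st F ps).em.length z =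
      ((pairs kl s st.req F).map fun p =>
        if p.2 <+: z then (2⁻¹ : ℝ) ^ F.wA * 2 ^ p.2.length else 0).sum := fun z =>
    sum_new hX (fun x => if x.e = F.e ∧ x.root <+: z then x.val * 2 ^ x.root.length else 0)
      (fun _ ζ => if ζ <+: z then 2⁻¹ ^ F.wA * 2 ^ ζ.length else 0) fun _ _ _ => by
        simp [Emi.val]
  rcases pairs_cases (kl := kl) (s := s) hσ st.req with ⟨e, -⟩ | ⟨-, h1, h2⟩
  · exact ⟨0, le_rfl, by rw [zero_mul]; positivity, fun z => by rw [h0, e]; simp⟩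
  obtain ⟨w1, w2⟩ := wA_add h1
  refine ⟨2 ^ Nat.log 2 (F.slots - (F.t + 1)) * 2⁻¹ ^ (F.q + 6 + (F.N - F.σ.length)),
    by positivity, le_trans (le_of_eq ?_) (log_le h1), fun z => ?_⟩
  · conv_lhs => enter [2]; unfold Fr.slots
    push_cast
    rw [mul_assoc, ← mul_pow]; simp
  rw [h0, h2 fun _ ζ => if ζ <+: z then 2⁻¹ ^ F.wA * 2 ^ ζ.length else 0]
  by_cases hz : ∃ i < 2 ^ F.k, F.cell i <+: z ∧ ovr kl s st.req F i = false
  swap
  · rw [sum_eq_zero fun y _ => sum_eq_zero fun i hi => if_neg fun a => hz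
      ⟨i, (mem_chosen (List.mem_toFinset.1 hi)).1, a, (mem_chosen (List.mem_toFinset.1 hi)).2.2⟩]
    positivity
  obtain ⟨i0, a1, a2, a3⟩ := hz
  have a4 : (((Zs F.σ F.N).filter fun y =>
      valid kl s st.req F.e y (F.cell i0) = true).card : ℝ) ≤ 2 ^ (F.e + 6 + 2 ^ F.k) := by
    have := mt (ovr_iff (kl := kl) (s := s) hσ st.req i0).2 (by simp [a3])
    exact_mod_cast (not_le.1 this).le
  calc _ ≤ ∑ y ∈ Zs F.σ F.N, if valid kl s st.req F.e y (F.cell i0) = true then
        (2⁻¹ : ℝ) ^ F.wA * 2 ^ F.k else 0 := by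
        refine (sum_le_sum fun y _ => ?_).trans (sum_le_sum_of_subset_of_nonneg
          (filter_subset _ _) fun _ _ _ => by split_ifs <;> positivity)
        by_cases b : i0 ∈ (chosen kl s st.req F y).toFinset
        · rw [if_pos (mem_chosen (List.mem_toFinset.1 b)).2.1, sum_eq_single_of_mem i0 b
            fun i hi hne => if_neg fun c => hne ?_, if_pos a2, length_cell a1]
          have b1 := (mem_chosen (List.mem_toFinset.1 hi)).1
          exact getD_allS_inj b1 a1 (pre_eq_of_length c a2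
            ((length_cell b1).trans (length_cell a1).symm))
        · rw [sum_eq_zero fun i hi => if_neg fun c => b ?_]
          · split_ifs <;> positivity
          · have b1 := (mem_chosen (List.mem_toFinset.1 hi)).1
            rwa [← getD_allS_inj b1 a1 (pre_eq_of_length c a2
              ((length_cell b1).trans (length_cell a1).symm))]
    _ ≤ 2 ^ (F.e + 6 + 2 ^ F.k) * (2⁻¹ ^ F.wA * 2 ^ F.k) := by
        rw [← sum_filter, sum_const, nsmul_eq_mul]; gcongr
    _ = 2 ^ (F.e + 6 + 2 ^ F.k + F.k) * 2⁻¹ ^ F.wA := by rw [pow_add _ _ F.k]; ring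
    _ = 2 ^ (Nat.log 2 (F.slots - (F.t + 1)) + (F.q + 6 + F.N)) *
        2⁻¹ ^ (F.q + 6 + (F.N - F.σ.length) + (3 + F.cb) + 2 ^ (2 * F.e + 12)) :=
        two_eq (by
          have : F.N = F.k + 2 ^ F.k := rfl
          unfold lB at w1; omega)
    _ = _ := by simp only [pow_add (2⁻¹ : ℝ), pow_add _ (Nat.log _ _)]; ring

theorem over_paid (hK : Kr K) (hkl : Appr K kl) (hF : FrWF st F) (hR : RCok K F) {i : ℕ}
    (hi : i ∈ overs kl s st.req F) :
    (64 : ℝ) * 2 ^ F.rc i * 2⁻¹ ^ (F.h + F.k) ≤ PayL K [] (F.k + 1 + i) := by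
  obtain ⟨a1, a2⟩ := List.mem_filter.1 hi
  have h1 := deg_le (s := s) hK hkl hF hR (List.mem_range.1 a1)
  have h2 : (2 : ℝ) ^ (F.e + 6 + 2 ^ F.k) ≤ (((Zs F.σ F.N).filter fun y =>
      valid kl s st.req F.e y (F.cell i) = true).card : ℝ) := by
    exact_mod_cast (ovr_iff (NWF.sig_le hF) st.req i).1 a2
  have h3 : (2 : ℝ) ^ (F.N + F.h + F.e) * 2⁻¹ ^ F.rc i * (64 * 2 ^ F.rc i * 2⁻¹ ^ (F.h + F.k)) =
      2 ^ (F.e + 6 + 2 ^ F.k) := by
    rw [Fr.N]
    simp only [pow_add, inv_pow]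
    field_simp
    norm_num
  exact le_of_mul_le_mul_left (h3.le.trans (h2.trans h1)) (by positivity)

theorem emit_ge (hK : Kr K) (hkl : Appr K kl) (hF : FrWF st F) (hR : RCok K F)
    (hX : Agree X (endEp kl D s st F ps)) (hfin : fin kl s st.req F = true) :
    (F.slots - (F.t + 1) : ℕ) * 2⁻¹ ^ (3 + F.cb) / 4 -
        ((overs kl s st.req F).map fun i => lostC K F i * 2⁻¹ ^ F.rc i).sum ≤
      ValS X st.em.length (endEp kl D s st F ps).em.length := by
  have hσ := NWF.sig_le hF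
  have hn : (overs kl s st.req F).Nodup := List.nodup_range.filter _
  have hl : ∀ i, 0 ≤ lostC K F i * 2⁻¹ ^ F.rc i := fun i => by
    have := PayL_nonneg K [] (F.k + 1 + i)
    unfold lostC; positivity
  rw [← List.sum_toFinset _ hn]
  rcases pairs_cases (kl := kl) (s := s) hσ st.req with ⟨-, e⟩ | ⟨h0, h1, h2⟩
  · have : F.slots - (F.t + 1) = 0 := by
      rcases e with e | e
      · simp only [fin, e, Bool.or_false, decide_eq_true_eq] at hfin; omega
      · omega
    have h3 := ValS_nonneg X st.em.length (endEp kl D s st F ps).em.length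
    have h4 := sum_nonneg fun i (_ : i ∈ (overs kl s st.req F).toFinset) => hl i
    rw [this]; simp only [Nat.cast_zero, zero_mul, zero_div]; linarith
  rw [ValS, sum_new hX Emi.val (fun _ _ => 2⁻¹ ^ F.wA) (fun _ _ _ => rfl), h2 fun _ _ => 2⁻¹ ^ F.wA]
  obtain ⟨w1, w2⟩ := wA_add h1
  set Wd := (Zs F.σ F.N).filter fun y => wide kl s st.req F y = true with hWd
  have c1 : (2 : ℝ) ^ (F.N - F.σ.length) ≤ 2 * Wd.card := by
    rw [trig, decide_eq_true_eq, ← List.toFinset_card_of_nodup ((nodup_zsL _ _).filter _),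
      List.toFinset_filter, toFinset_zsL hσ] at h0
    exact_mod_cast h0
  have c2 : ∀ y ∈ Wd, (2 : ℝ) ^ lB F.e ≤ (chosen kl s st.req F y).toFinset.card +
      ∑ i ∈ (overs kl s st.req F).toFinset,
        if valid kl s st.req F.e y (F.cell i) = true then (1 : ℝ) else 0 := by
    intro y hy
    have d1 := (mem_filter.1 hy).2
    rw [wide, decide_eq_true_eq] at d1
    have d2 : ((List.range (2 ^ F.k)).filter fun i => valid kl s st.req F.e y (F.cell i)).length ≤
        ((List.range (2 ^ F.k)).filter fun i =>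
          valid kl s st.req F.e y (F.cell i) && !ovr kl s st.req F i).length +
        ((overs kl s st.req F).filter fun i => valid kl s st.req F.e y (F.cell i)).length := by
      unfold overs
      induction List.range (2 ^ F.k) with
      | nil => simp
      | cons i l ih =>
        cases e1 : valid kl s st.req F.e y (F.cell i) <;> cases e2 : ovr kl s st.req F i <;>
          simp [List.filter_cons, e1, e2] at ih ⊢ <;> omega
    rw [← sum_filter, sum_const, ← List.toFinset_filter, List.toFinset_card_of_nodup (hn.filter _),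
      List.toFinset_card_of_nodup (nodup_chosen _ _), chosen, List.length_take, nsmul_one]
    exact_mod_cast (by omega)
  have c3 : ∑ y ∈ Wd, ∑ i ∈ (overs kl s st.req F).toFinset,
      (if valid kl s st.req F.e y (F.cell i) = true then (1 : ℝ) else 0) * 2⁻¹ ^ F.wA ≤
      ∑ i ∈ (overs kl s st.req F).toFinset, lostC K F i * 2⁻¹ ^ F.rc i := by
    rw [sum_comm]
    refine sum_le_sum fun i hi => ?_
    have d1 := deg_le (s := s) hK hkl hF hR
      (List.mem_range.1 (List.mem_filter.1 (List.mem_toFinset.1 hi)).1)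
    have d2 := PayL_nonneg K [] (F.k + 1 + i)
    have d3 := two_le (a := F.N + F.h + F.e) (b := F.wA) (c := F.σ.length + F.e + F.h)
      (d := 3 + F.b + F.k + lB F.e) (by unfold Fr.cb at w1; omega)
    rw [← sum_mul]
    calc _ ≤ (∑ y ∈ Zs F.σ F.N, if valid kl s st.req F.e y (F.cell i) = true then (1 : ℝ) else 0) *
          2⁻¹ ^ F.wA := by
          gcongr
          exact filter_subset _ _
      _ ≤ 2 ^ (F.N + F.h + F.e) * 2⁻¹ ^ F.rc i * PayL K [] (F.k + 1 + i) * 2⁻¹ ^ F.wA := by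
          rw [← sum_filter, sum_const, nsmul_one]; gcongr
      _ = 2 ^ (F.N + F.h + F.e) * 2⁻¹ ^ F.wA * (PayL K [] (F.k + 1 + i) * 2⁻¹ ^ F.rc i) := by ring
      _ ≤ _ := by rw [lostC, mul_assoc _ (PayL _ _ _)]; gcongr
  have c4 : ∑ _y ∈ Wd, (2 : ℝ) ^ lB F.e * 2⁻¹ ^ F.wA ≤
      ∑ y ∈ Wd, ∑ _i ∈ (chosen kl s st.req F y).toFinset, (2⁻¹ : ℝ) ^ F.wA +
      ∑ y ∈ Wd, ∑ i ∈ (overs kl s st.req F).toFinset,
        (if valid kl s st.req F.e y (F.cell i) = true then (1 : ℝ) else 0) * 2⁻¹ ^ F.wA := by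
    rw [← sum_add_distrib]
    refine sum_le_sum fun y hy => ?_
    rw [sum_const, nsmul_eq_mul, ← sum_mul, ← add_mul]
    have := c2 y hy
    gcongr
  have c5 : ((F.slots - (F.t + 1) : ℕ) : ℝ) ≤ 2 * 2 ^ Nat.log 2 (F.slots - (F.t + 1)) := by
    have := Nat.lt_pow_succ_log_self (b := 2) (by norm_num) (F.slots - (F.t + 1))
    rw [pow_succ'] at this
    exact_mod_cast this.le
  have c6 : (2 : ℝ) ^ (F.N - F.σ.length) * (2 ^ lB F.e * 2⁻¹ ^ F.wA) =
      2 ^ Nat.log 2 (F.slots - (F.t + 1)) * 2⁻¹ ^ (3 + F.cb) := by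
    rw [← mul_assoc, ← pow_add]; exact two_eq (by omega)
  rw [sum_const, nsmul_eq_mul] at c4
  have c7 := mul_le_mul_of_nonneg_right c1
    (by positivity : (0 : ℝ) ≤ 2 ^ lB F.e * 2⁻¹ ^ F.wA)
  have c8 := mul_le_mul_of_nonneg_right c5 (by positivity : (0 : ℝ) ≤ 2⁻¹ ^ (3 + F.cb))
  linarith

end Pool.Agent.Lib.MP_848037_lc.Neg
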