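import Pool.Agent.Lib.MP_848037_lc.NWF
import Pool.Agent.Lib.MP_848037_lc.NEmit

/-!
The total cost of the requests of the machine.
-/

set_option autoImplicit false

namespace Pool.Agent.Lib.MP_848037_lc.Neg

open Finset Pool.Agent.Shared.Type2

namespace NCost

theorem lsum_range {β : Type*} [AddCommMonoid β] (f : ℕ → β) (n : ℕ) :
    ((List.range n).map f).sum = ∑ i ∈ range n, f i := by
  induction n with
  | zero => simp
  | succ n ih => simp [List.range_succ, sum_range_succ, ih]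

theorem lsum_flat {α β : Type*} (L : List α) (g : α → List β) (φ : β → ℝ) :
    ((L.flatMap g).map φ).sum = (L.map fun a => ((g a).map φ).sum).sum := by
  induction L with
  | nil => simp
  | cons a L ih => simp [ih]

theorem lsum_le {α : Type*} (L : List α) (φ : α → ℝ) {c : ℝ} (h : ∀ a ∈ L, φ a ≤ c) :
    (L.map φ).sum ≤ L.length * c := by
  simpa using List.sum_le_card_nsmul (L.map φ) c (by simpa using h)

theorem lsum_fib {α : Type*} (L : List α) (p : α → ℕ) (S : Finset ℕ) (φ : ℕ → ℝ)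
    (h : ∀ a ∈ L, p a ∈ S) :
    (L.map fun a => φ (p a)).sum = ∑ j ∈ S, ((L.filter fun a => decide (p a = j)).length : ℝ) * φ j := by
  induction L with
  | nil => simp
  | cons a L ih =>
    have e : ∀ j, (((a :: L).filter fun a => decide (p a = j)).length : ℝ) * φ j
        = (if p a = j then φ j else 0) + ((L.filter fun a => decide (p a = j)).length : ℝ) * φ j :=
      fun j => by by_cases g : p a = j <;> simp [g]; ring
    simp only [e, sum_add_distrib, sum_ite_eq, h a List.mem_cons_self, if_true, List.map_cons,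
      List.sum_cons, ih fun b hb => h b (List.mem_cons_of_mem _ hb)]

theorem lsum_app (L M : List Emi) (φ : Emi → ℝ) :
    (M.map φ).sum = ∑ j ∈ Ico L.length (L ++ M).length, φ ((L ++ M).getD j default) := by
  rw [sum_Ico_eq_sum_range, List.length_append, Nat.add_sub_cancel_left, ← lsum_range]
  congr 1
  refine List.ext_getElem (by simp) fun i h1 h2 => ?_
  simp only [List.length_map] at h1
  simp [List.getElem?_append_right, h1]

theorem pow_sub_le (a c : ℕ) : (2⁻¹ : ℝ) ^ (a - c) ≤ 2 ^ c * 2⁻¹ ^ a := by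
  have h : (2⁻¹ : ℝ) ^ (a - c + c) ≤ 2⁻¹ ^ a :=
    pow_le_pow_of_le_one (by norm_num) (by norm_num) (by omega)
  calc (2⁻¹ : ℝ) ^ (a - c) = 2 ^ c * 2⁻¹ ^ (a - c + c) := by
        rw [pow_add, mul_left_comm, ← mul_pow]; simp
    _ ≤ _ := by gcongr

theorem two_mul_inv (a : ℕ) : (2 : ℝ) ^ a * 2⁻¹ ^ a = 1 := by rw [← mul_pow]; simp

theorem rcost_pin (F : Fr) {i : ℕ} (hi : i < 2 ^ F.k) (c : ℕ) :
    rcost (F.pin i c) ≤ 2 ^ c * 2⁻¹ ^ (F.h + F.k) := by
  simp only [rcost, Fr.pin, length_cell hi]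
  rw [show F.k + 1 + i - F.k = 1 + i by omega]
  refine (mul_le_mul_of_nonneg_left (pow_sub_le _ c) (by positivity)).trans_eq ?_
  rw [show F.k + 1 + i + F.h = (1 + i) + (F.h + F.k) by omega, pow_add _ (1 + i)]
  linear_combination (2 ^ c * 2⁻¹ ^ (F.h + F.k) : ℝ) * two_mul_inv (1 + i)

theorem len_zsL {ζ τ : Str} {l : ℕ} (h : τ ∈ zsL ζ l) : l ≤ τ.length := by
  obtain ⟨u, hu, rfl⟩ := List.mem_map.1 h
  rw [List.length_append, mem_allS.1 hu]; omega

theorem cost_design (D : Lab) (x : Emi) : ((design D x).map rcost).sum ≤ x.val := by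
  rw [design, lsum_flat]
  refine (lsum_le _ _ (c := x.val * 2⁻¹ ^ (6 * jT x.n)) fun a _ => ?_).trans_eq ?_
  swap
  · rw [List.length_range]; push_cast
    linear_combination x.val * two_mul_inv (6 * jT x.n)
  rw [lsum_flat]
  refine (lsum_le _ _ (c := x.val * 2⁻¹ ^ (6 * jT x.n) * 2⁻¹ ^ (7 * x.n)) fun i _ => ?_).trans_eq ?_
  swap
  · rw [List.length_range, nT]; push_cast
    linear_combination x.val * 2⁻¹ ^ (6 * jT x.n) * two_mul_inv (7 * x.n)
  rw [lsum_flat]
  refine (lsum_le _ _ (c := x.val * 2⁻¹ ^ (6 * jT x.n) * 2⁻¹ ^ (7 * x.n)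
    * 2⁻¹ ^ (n0 x.n + a - x.root.length)) fun τ hτ => ?_).trans_eq ?_
  swap
  · rw [length_zsL]; push_cast
    linear_combination x.val * 2⁻¹ ^ (6 * jT x.n) * 2⁻¹ ^ (7 * x.n)
      * two_mul_inv (n0 x.n + a - x.root.length)
  rw [List.map_map]
  refine (lsum_le _ _ (c := x.val * 2⁻¹ ^ (6 * jT x.n) * 2⁻¹ ^ (7 * x.n)
    * 2⁻¹ ^ (n0 x.n + a - x.root.length) * 2⁻¹ ^ zz x.n i) fun b _ => le_of_eq ?_).trans_eq ?_
  · have := len_zsL hτ
    simp only [Function.comp, rcost, length_hot, Emi.val, pow_add]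
    rw [Nat.sub_eq_zero_of_le (by omega)]; ring
  · rw [List.length_range]; push_cast
    linear_combination x.val * 2⁻¹ ^ (6 * jT x.n) * 2⁻¹ ^ (7 * x.n)
      * 2⁻¹ ^ (n0 x.n + a - x.root.length) * two_mul_inv (zz x.n i)

theorem mem_waves {em : List Emi} {F : Fr} {w : ℕ × ℕ × List Str × ℕ} (h : w ∈ waves em F) :
    w.1 ∈ Ico F.i0 F.i1 ∧ F.cnt w.1 < 2 ^ (5 * jT (em.getD w.1 default).n) ∧
      ((w.2.2.1.map fun τ => ((τ, w.2.1, w.2.1 + w.2.2.2) : Rq)).map rcost).sum
        ≤ 2⁻¹ ^ lc (em.getD w.1 default) := by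
  obtain ⟨a, ha, h⟩ := List.mem_flatMap.1 h
  rw [List.mem_range] at ha
  by_cases g : F.cnt (F.i0 + a) < 2 ^ (5 * jT (em.getD (F.i0 + a) default).n)
  swap
  · rw [decide_eq_false g, cond_false] at h
    exact absurd h List.not_mem_nil
  rw [decide_eq_true g, cond_true] at h
  obtain ⟨⟨l, H, d⟩, h1, rfl⟩ := List.mem_map.1 h
  obtain ⟨h2, h3⟩ := List.mem_filter.1 (List.mem_of_mem_take h1)
  refine ⟨mem_Ico.2 ⟨by omega, by omega⟩, g, ?_⟩
  generalize em.getD (F.i0 + a) default = x at *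
  simp only [wtest, Bool.and_eq_true, decide_eq_true_eq] at h3
  have h4 : (H.length * 2 ^ lc x : ℝ) ≤ 2 ^ (l + d) := by exact_mod_cast h3.1.2
  have h5 : ∀ τ ∈ H, l ≤ τ.length := by
    simp only [cands, List.mem_flatMap, List.mem_map, Prod.mk.injEq, subs_eq,
      List.mem_sublists'] at h2
    obtain ⟨b, -, H', h6, d', -, rfl, rfl, -⟩ := h2
    exact fun τ hτ => len_zsL (h6.subset hτ)
  rw [List.map_map]
  refine (lsum_le _ _ (c := 2⁻¹ ^ (l + d)) fun τ hτ => le_of_eq ?_).trans ?_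
  · simp [rcost, Nat.sub_eq_zero_of_le (h5 τ hτ)]
  · simp only [inv_pow]
    rw [← div_eq_mul_inv, ← one_div, div_le_div_iff₀ (by positivity) (by positivity), one_mul]
    exact h4

theorem cnt_waves (em : List Emi) (F : Fr) (j : ℕ) :
    ((waves em F).filter fun w => decide (w.1 = j)).length ≤ 1 := by
  rw [waves, List.filter_flatMap, List.length_flatMap, lsum_range]
  refine (sum_le_sum (g := fun a => if F.i0 + a = j then 1 else 0) fun a _ => ?_).trans ?_
  · split_ifs with g
    · refine (List.length_filter_le _ _).trans ?_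
      cases decide (F.cnt (F.i0 + a) < 2 ^ (5 * jT (em.getD (F.i0 + a) default).n)) <;> simp
    · rw [List.filter_eq_nil_iff.2, List.length_nil]
      intro w hw
      cases hc : decide (F.cnt (F.i0 + a) < 2 ^ (5 * jT (em.getD (F.i0 + a) default).n)) <;>
        rw [hc] at hw
      · simp at hw
      · obtain ⟨w', -, rfl⟩ := List.mem_map.1 hw
        simpa using g
  · rw [sum_boole]
    exact card_le_one.2 fun a ha b hb => by simp only [mem_filter] at ha hb; omega

/-- The mass of a slot. -/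
noncomputable def slot (F : Fr) : ℝ := 2⁻¹ ^ (3 + F.cb) * (1 + 2⁻¹ ^ (F.q + 1))

theorem slot_pos (F : Fr) : 0 < slot F := by unfold slot; positivity

theorem bud_ge {K : Str → ℕ} {X : ℕ → Emi} {F : Fr} (hR : RCok K F)
    (hc : ∀ j ∈ Ico F.i0 F.i1, F.cnt j ≤ 2 ^ (5 * jT (X j).n)) :
    slot F * ((2 ^ F.k - F.J) * F.slots - F.t - 1) ≤ budT K X F := by
  have a : ∑ i ∈ range (2 ^ F.k), (2 : ℝ) * 2 ^ F.rc i * 2⁻¹ ^ (F.h + F.k) ≤
      ∑ i ∈ range (2 ^ F.k), (PayL K [] (F.k + 1 + i) / 16 + 2 * 2⁻¹ ^ (F.h + F.k)) :=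
    sum_le_sum fun i hi => by
      have := PayL_nonneg K [] (F.k + 1 + i)
      have : (0 : ℝ) < 2⁻¹ ^ (F.h + F.k) := by positivity
      rcases hR i (mem_range.1 hi) with h | h
      · rw [h]; linarith
      · linarith
  rw [sum_add_distrib, ← sum_div, sum_const, card_range, nsmul_eq_mul, pow_add] at a
  have b : 0 ≤ ∑ j ∈ Ico F.i0 F.i1, ((2 : ℝ) ^ (5 * jT (X j).n) - F.cnt j) * 2⁻¹ ^ lc (X j) :=
    sum_nonneg fun j hj => mul_nonneg (sub_nonneg.2 (by exact_mod_cast hc j hj)) (by positivity)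
  have c := congrArg (fun u : ℝ => 2 * 2⁻¹ ^ F.h * u) (two_mul_inv F.k)
  unfold budT slot
  push_cast at a
  simp only [pow_add (2⁻¹ : ℝ) F.h] at a c ⊢
  linarith

theorem bud_wf {K : Str → ℕ} {X : ℕ → Emi} {st : MS} {F : Fr} (hF : FrWF st F) (hX : Agree X st)
    (hR : RCok K F) : slot F * (F.slots - F.t - 1) ≤ budT K X F := by
  refine le_trans (mul_le_mul_of_nonneg_left ?_ (slot_pos F).le) (bud_ge hR fun j hj => ?_)
  · have : (F.J + 1 : ℝ) ≤ 2 ^ F.k := by exact_mod_cast hF.J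
    have : (0 : ℝ) ≤ F.slots := by positivity
    nlinarith
  · rw [mem_Ico] at hj
    rw [← hX j (by have := hF.i1E; have := hF.iE; omega)]
    exact hF.cnt j hj.1 hj.2

theorem tail_t {G : Fr} {L : List Fr} (h : (G :: L).IsChain LinkWF) : ∀ F ∈ L, F.t < F.slots := by
  induction L generalizing G with
  | nil => simp
  | cons H L ih =>
    rw [List.isChain_cons_cons] at h
    intro F hF
    rcases List.mem_cons.1 hF with rfl | hF
    · exact h.1.t
    · exact ih h.2 F hF

theorem avail {K : Str → ℕ} {D : Lab} {X : ℕ → Emi} {st : MS} (h : WF D st) (hX : Agree X st)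
    (hR : ∀ F ∈ st.fs, RCok K F) {pre rest : List Fr} (e : st.fs = pre ++ rest) :
    0 ≤ (pre.map (budT K X)).sum + slot (st.fs.getD 0 default) := by
  rcases pre with _ | ⟨G, pre⟩
  · simpa using (slot_pos _).le
  have hc := h.chain
  have m : ∀ F ∈ G :: pre, F ∈ st.fs := fun F hF => e ▸ List.mem_append_left _ hF
  have a := bud_wf (h.frs G (m G List.mem_cons_self)) hX (hR G (m G List.mem_cons_self))
  have b : (G.t : ℝ) ≤ G.slots := by exact_mod_cast (h.frs G (m G List.mem_cons_self)).t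
  have c : 0 ≤ (pre.map (budT K X)).sum := List.sum_nonneg fun u hu => by
    obtain ⟨F, hF, rfl⟩ := List.mem_map.1 hu
    have h1 := m F (List.mem_cons_of_mem _ hF)
    have h2 : (F.t + 1 : ℝ) ≤ F.slots := by
      rw [e] at hc
      exact_mod_cast tail_t hc F (List.mem_append_left _ hF)
    exact (mul_nonneg (slot_pos F).le (by linarith)).trans (bud_wf (h.frs F h1) hX (hR F h1))
  have := mul_nonneg (slot_pos G).le (sub_nonneg.2 b)
  rw [e]
  simp only [List.map_cons, List.sum_cons, List.cons_append, List.getD_cons_zero]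
  linarith

theorem bud_next (K : Str → ℕ) (X : ℕ → Emi) (F : Fr) :
    budT K X F.next + slot F.next = budT K X F := by
  change _ + _ - _ + slot F * ((2 ^ F.k - F.J) * F.slots - (F.t + 1 : ℕ) - 1) + _ + slot F
    = _ + _ - _ + slot F * ((2 ^ F.k - F.J) * F.slots - F.t - 1) + _
  push_cast
  simp only [Fr.next, Fr.h, Fr.rc, Fr.cnt]
  ring

theorem new_frame (K : Str → ℕ) (X : ℕ → Emi) {F : Fr} (hJ : F.J = 0) (ht : F.t = 0)
    (hr : F.rl = []) (hw : F.wv = []) :
    ((pins F).map rcost).sum + budT K X F + slot F ≤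
      (∑ i ∈ range (2 ^ F.k), PayL K [] (F.k + 1 + i)) / 16 + 2⁻¹ ^ (F.b + F.q + 7)
        + 2⁻¹ ^ (3 + F.b) * (1 + 2⁻¹ ^ (F.q + 1))
        + ∑ j ∈ Ico F.i0 F.i1, (2⁻¹ : ℝ) ^ (2 * (X j).n) * (X j).val := by
  have a : ((pins F).map rcost).sum
      ≤ (List.range (2 ^ F.k)).length * (2 ^ 0 * 2⁻¹ ^ (F.h + F.k)) := by
    rw [pins, List.map_map]
    exact lsum_le _ _ fun i hi => rcost_pin F (List.mem_range.1 hi) 0
  have b : ∑ j ∈ Ico F.i0 F.i1, ((2 : ℝ) ^ (5 * jT (X j).n) - F.cnt j) * 2⁻¹ ^ lc (X j)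
      = ∑ j ∈ Ico F.i0 F.i1, (2⁻¹ : ℝ) ^ (2 * (X j).n) * (X j).val := sum_congr rfl fun j _ => by
    simp only [Fr.cnt, hw, List.filter_nil, List.length_nil, lc, Emi.val, pow_add]
    push_cast
    linear_combination (2⁻¹ : ℝ) ^ (2 * (X j).n) * 2⁻¹ ^ (X j).A * two_mul_inv (5 * jT (X j).n)
  have c := congrArg (fun u : ℝ => 2⁻¹ ^ F.h * u) (two_mul_inv F.k)
  have d : (2⁻¹ : ℝ) ^ (3 + F.cb) * (2 ^ F.k * F.slots) = 2⁻¹ ^ (3 + F.b) := by
    rw [show 3 + F.cb = 3 + F.b + F.k + (F.q + 6 + (F.N - F.σ.length)) by unfold Fr.cb; omega,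
      Fr.slots, pow_add _ (3 + F.b + F.k), pow_add _ (3 + F.b)]
    push_cast
    linear_combination (2⁻¹ : ℝ) ^ (3 + F.b) * (2 ^ F.k * 2⁻¹ ^ F.k)
      * two_mul_inv (F.q + 6 + (F.N - F.σ.length)) + 2⁻¹ ^ (3 + F.b) * two_mul_inv F.k
  rw [budT, b, slot, ← d, hJ, ht]
  simp only [Fr.rc, hr, List.filter_nil, List.length_nil, sum_const, card_range, nsmul_eq_mul,
    List.length_range, pow_add (2⁻¹ : ℝ) F.h] at a c ⊢
  change _ ≤ _ + 2⁻¹ ^ F.h + _ + _
  push_cast at a ⊢
  linarith

theorem pay_pins (K : Str → ℕ) (F : Fr) : ∑ l ∈ range F.k, PayL K [] l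
    + ∑ i ∈ range (2 ^ F.k), PayL K [] (F.k + 1 + i) ≤ ∑ l ∈ range F.fresh, PayL K [] l := by
  have a := sum_range_add (PayL K []) (F.k + 1) (2 ^ F.k)
  have b := sum_le_sum_of_subset_of_nonneg (f := PayL K []) (range_subset_range.2
    (show F.k + 1 + 2 ^ F.k ≤ F.fresh by unfold Fr.fresh Fr.N; omega))
    fun l _ _ => PayL_nonneg K [] l
  rw [sum_range_succ] at a
  linarith [PayL_nonneg K [] F.k]

theorem init_aux (K : Str → ℕ) (X : ℕ → Emi) {F : Fr} (hJ : F.J = 0) (ht : F.t = 0)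
    (hr : F.rl = []) (hw : F.wv = []) (hb : F.b = 0) (hq : F.q = 0) (h0 : F.i0 = 0)
    (h1 : F.i1 = 0) : CostInv K X ⟨F.fresh, pins F, [], [F]⟩ := by
  have a := new_frame K X hJ ht hr hw
  have b := pay_pins K F
  have c : 0 ≤ ∑ l ∈ range F.k, PayL K [] l := sum_nonneg fun l _ => PayL_nonneg K [] l
  rw [hb, hq, h0, h1, Ico_self, sum_empty] at a
  change ((pins F).map rcost).sum + (budT K X F + 0) + slot F
    ≤ 1 / 4 + (∑ l ∈ range F.fresh, PayL K [] l) / 16
  norm_num at a
  linarith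

theorem le_itE (j n : ℕ) : n ≤ itE j n := by
  induction j with
  | zero => exact le_rfl
  | succ j ih => exact ih.trans (lt_nEnd _).le

section upd

variable (kl : Str × ℕ → ℕ → Bool) (s : ℕ) (st : MS) (F : Fr)

/-- The frame after the end of an epoch. -/
def upd : Fr :=
  { F with
    J := F.J + 1
    t := 0
    iE := (st.em ++ newEm kl s st F).length
    rl := F.rl ++ overs kl s st.req F
    wv := F.wv ++ (waves (st.em ++ newEm kl s st F) F).map fun w => (w.1, w.2.1) }

theorem rc_upd (i : ℕ) : (upd kl s st F).rc i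
    = F.rc i + ((overs kl s st.req F).filter fun j => decide (j = i)).length := by
  simp [upd, Fr.rc]

theorem cnt_upd (j : ℕ) : (upd kl s st F).cnt j
    = F.cnt j + ((waves (st.em ++ newEm kl s st F) F).filter fun w => decide (w.1 = j)).length := by
  simp [upd, Fr.cnt, List.filter_map, Function.comp_def]

theorem cnt_overs (i : ℕ) : ((overs kl s st.req F).filter fun j => decide (j = i)).length
    = if i ∈ overs kl s st.req F then 1 else 0 := by
  have : (overs kl s st.req F).Nodup := List.nodup_range.filter _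
  rw [← List.countP_eq_length_filter, ← this.count]
  exact List.countP_congr fun a _ => by simp

variable {kl s st F}

theorem rc_ok {K : Str → ℕ} (hK : Kr K) (hkl : Appr K kl) (hF : FrWF st F) (hR : RCok K F) :
    RCok K (upd kl s st F) := fun i hi => by
  rw [rc_upd, cnt_overs]
  split_ifs with g
  · refine Or.inr (le_trans (le_of_eq ?_) (over_paid hK hkl hF hR g))
    change (32 : ℝ) * 2 ^ (F.rc i + 1) * 2⁻¹ ^ (F.h + F.k) = _
    ring
  · exact hR i hi

theorem upd_cost {K : Str → ℕ} {D : Lab} {X : ℕ → Emi} {ps : List Fr} (hF : FrWF st F)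
    (hX : Agree X (endEp kl D s st F ps)) :
    ((endEp kl D s st F ps).req.map rcost).sum + budT K X (upd kl s st F) + slot F ≤
      (st.req.map rcost).sum + budT K X F + if F.t < F.slots then 0 else slot F := by
  have e : ∀ j < (st.em ++ newEm kl s st F).length,
      (st.em ++ newEm kl s st F).getD j default = X j := hX
  have a1 : (((newEm kl s st F).flatMap (design D)).map rcost).sum ≤
      (F.slots - (F.t + 1) : ℕ) * 2⁻¹ ^ (3 + F.cb) := by
    rw [lsum_flat]
    refine (List.sum_le_sum fun x _ => cost_design D x).trans (le_trans (le_of_eq ?_) (emit_le hF hX))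
    rw [lsum_app st.em]
    exact sum_congr rfl fun j hj => by rw [e j (mem_Ico.1 hj).2]
  have a2 : ((waveRq (waves (st.em ++ newEm kl s st F) F)).map rcost).sum ≤
      ∑ j ∈ Ico F.i0 F.i1, (((waves (st.em ++ newEm kl s st F) F).filter
        fun w => decide (w.1 = j)).length : ℝ) * 2⁻¹ ^ lc (X j) := by
    rw [waveRq, lsum_flat, ← lsum_fib _ Prod.fst _ (fun j => 2⁻¹ ^ lc (X j))
      fun w hw => (mem_waves hw).1]
    refine List.sum_le_sum fun w hw => (mem_waves hw).2.2.trans_eq ?_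
    have := mem_Ico.1 (mem_waves hw).1
    have := hF.i1E; have := hF.iE
    rw [e _ (by rw [List.length_append]; omega)]
  have a3 : (((overs kl s st.req F).map fun i => F.pin i (F.rc i + 1)).map rcost).sum ≤
      ∑ i ∈ range (2 ^ F.k), (((overs kl s st.req F).filter fun j => decide (j = i)).length : ℝ)
        * (2 ^ (F.rc i + 1) * 2⁻¹ ^ (F.h + F.k)) := by
    have m : ∀ i ∈ overs kl s st.req F, i < 2 ^ F.k := fun i hi =>
      List.mem_range.1 (List.mem_filter.1 hi).1
    have := lsum_fib (overs kl s st.req F) id (range (2 ^ F.k))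
      (fun i => 2 ^ (F.rc i + 1) * 2⁻¹ ^ (F.h + F.k)) fun i hi => mem_range.2 (m i hi)
    simp only [id] at this
    rw [← this, List.map_map]
    exact List.sum_le_sum fun i hi => rcost_pin F (m i hi) _
  have b1 : ∑ i ∈ range (2 ^ F.k), (2 : ℝ) * 2 ^ (upd kl s st F).rc i * 2⁻¹ ^ (F.h + F.k)
      = ∑ i ∈ range (2 ^ F.k), (2 : ℝ) * 2 ^ F.rc i * 2⁻¹ ^ (F.h + F.k)
        + ∑ i ∈ range (2 ^ F.k), (((overs kl s st.req F).filter fun j => decide (j = i)).length : ℝ)
          * (2 ^ (F.rc i + 1) * 2⁻¹ ^ (F.h + F.k)) := by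
    rw [← sum_add_distrib]
    refine sum_congr rfl fun i _ => ?_
    rw [rc_upd, cnt_overs]
    split_ifs <;> push_cast <;> ring
  have b2 : ∑ j ∈ Ico F.i0 F.i1, ((2 : ℝ) ^ (5 * jT (X j).n) - (upd kl s st F).cnt j) * 2⁻¹ ^ lc (X j)
      = ∑ j ∈ Ico F.i0 F.i1, ((2 : ℝ) ^ (5 * jT (X j).n) - F.cnt j) * 2⁻¹ ^ lc (X j)
        - ∑ j ∈ Ico F.i0 F.i1, (((waves (st.em ++ newEm kl s st F) F).filter
          fun w => decide (w.1 = j)).length : ℝ) * 2⁻¹ ^ lc (X j) := by
    rw [← sum_sub_distrib]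
    refine sum_congr rfl fun j _ => ?_
    rw [cnt_upd]; push_cast; ring
  have b3 : budT K X (upd kl s st F) =
      (∑ i ∈ range (2 ^ F.k), PayL K [] (F.k + 1 + i)) / 16 + 2 * 2⁻¹ ^ F.h -
        ∑ i ∈ range (2 ^ F.k), (2 : ℝ) * 2 ^ (upd kl s st F).rc i * 2⁻¹ ^ (F.h + F.k) +
        slot F * ((2 ^ F.k - (F.J + 1 : ℕ)) * F.slots - (0 : ℕ) - 1) +
        ∑ j ∈ Ico F.i0 F.i1, ((2 : ℝ) ^ (5 * jT (X j).n) - (upd kl s st F).cnt j)
          * 2⁻¹ ^ lc (X j) := rfl
  have b4 : (F.slots - (F.t + 1) : ℕ) * (2⁻¹ : ℝ) ^ (3 + F.cb) + slot F ≤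
      slot F * (F.slots - F.t) + if F.t < F.slots then 0 else slot F := by
    have c1 : (2⁻¹ : ℝ) ^ (3 + F.cb) ≤ slot F := le_mul_of_one_le_right (by positivity) (by simp)
    split_ifs with g
    · rw [Nat.cast_sub g]
      have : (F.t + 1 : ℝ) ≤ F.slots := by exact_mod_cast g
      push_cast
      nlinarith
    · have : F.t = F.slots := le_antisymm hF.t (not_lt.1 g)
      simp [this]
  rw [b3, b1, b2]
  simp only [endEp, List.map_append, List.sum_append]
  change _ ≤ _ + (_ + _ - _ + slot F * _ + _) + _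
  push_cast
  linarith

end upd

end NCost

open NCost

theorem rc_step {K : Str → ℕ} (hK : Kr K) {kl : Str × ℕ → ℕ → Bool} (hkl : Appr K kl) {D : Lab}
    {s : ℕ} {st : MS} (h : WF D st) (hR : ∀ F ∈ st.fs, RCok K F) :
    ∀ F ∈ (step kl D s st).fs, RCok K F := by
  rcases step_cases kl D s st with ⟨-, e⟩ | ⟨pre, F, ps, hfs, -, ⟨-, e⟩ | ⟨-, -, -, e⟩⟩ <;> rw [e]
  · intro G hG
    rcases List.mem_cons.1 hG with rfl | hG
    · exact fun i _ => Or.inl rfl
    · exact hR G hG
  all_goals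
    have m : ∀ G ∈ F :: ps, G ∈ st.fs := fun G hG => hfs ▸ List.mem_append_right _ hG
    have m1 := m F List.mem_cons_self
    have m2 : ∀ G ∈ ps, RCok K G := fun G hG => hR G (m G (List.mem_cons_of_mem _ hG))
    intro G hG
  · simp only [endEp] at hG
    cases hc : decide (F.J + 1 < 2 ^ F.k) <;> rw [hc] at hG
    · rcases List.mem_append.1 hG with hG | hG
      · obtain ⟨G', h1, rfl⟩ := List.mem_map.1 hG
        exact m2 G' (List.mem_of_mem_take h1)
      · exact m2 G (List.mem_of_mem_drop hG)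
    · rcases List.mem_cons.1 hG with rfl | hG
      · exact rc_ok hK hkl (h.frs F m1) (hR F m1)
      · exact m2 G hG
  · rcases List.mem_cons.1 hG with rfl | hG
    · exact hR F m1
    · exact m2 G hG

theorem cost_init (K : Str → ℕ) (X : ℕ → Emi) (kl : Str × ℕ → ℕ → Bool) (D : Lab) :
    CostInv K X (run kl D 0) :=
  init_aux K X (F := root) rfl rfl rfl rfl rfl rfl rfl rfl

theorem cost_step {K : Str → ℕ} (hK : Kr K) {kl : Str × ℕ → ℕ → Bool} (hkl : Appr K kl) {D : Lab}
    {X : ℕ → Emi} {s : ℕ} {st : MS} (h : WF D st) (hne : st.fs ≠ [])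
    (hne' : (step kl D s st).fs ≠ []) (hX0 : Agree X st) (hX : Agree X (step kl D s st))
    (hR : ∀ F ∈ st.fs, RCok K F)
    (hV : ∀ F ps, st.fs = F :: ps → ValS X F.iE st.em.length ≤ 1) (hc : CostInv K X st) :
    CostInv K X (step kl D s st) := by
  replace hc : (st.req.map rcost).sum + (st.fs.map (budT K X)).sum + slot (st.fs.getD 0 default) ≤
    1 / 4 + (∑ l ∈ range st.n, PayL K [] l) / 16 := hc
  rcases step_cases kl D s st with ⟨-, e⟩ | ⟨pre, F, ps, hfs, -, ⟨-, e⟩ | ⟨-, -, -, e⟩⟩ <;>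
    rw [e] at hne' hX ⊢
  · obtain ⟨F, ps, hfs⟩ := List.exists_cons_of_ne_nil hne
    have hF := h.frs F (hfs ▸ List.mem_cons_self)
    have e0 : st.fs.getD 0 default = F := by rw [hfs]; rfl
    have a := new_frame K X (F := child st F) rfl rfl rfl rfl
    have b := pay_pins K (child st F)
    have c : ∑ j ∈ Ico F.iE st.em.length, (2⁻¹ : ℝ) ^ (2 * (X j).n) * (X j).val
        ≤ 2⁻¹ ^ (F.cb + F.q + 6) * ValS X F.iE st.em.length := by
      rw [ValS, mul_sum]
      refine sum_le_sum fun j hj => mul_le_mul_of_nonneg_right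
        (pow_le_pow_of_le_one (by norm_num) (by norm_num) ?_) (X j).val_pos.le
      rw [mem_Ico] at hj
      have := (hF.new j (hF.i1E.trans hj.1) hj.2).1
      rw [hX0 j hj.2, Fr.fresh] at this
      omega
    have d := mul_le_mul_of_nonneg_left (hV F ps hfs)
      (show (0 : ℝ) ≤ 2⁻¹ ^ (F.cb + F.q + 6) by positivity)
    change _ ≤ _ + 2⁻¹ ^ (F.cb + (F.q + 1) + 7) + 2⁻¹ ^ (3 + F.cb) * (1 + 2⁻¹ ^ (F.q + 1 + 1))
      + ∑ j ∈ Ico F.iE st.em.length, _ at a
    change ∑ l ∈ range st.n, _ + _ ≤ _ at b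
    change ((st.req ++ pins (child st (st.fs.getD 0 default))).map rcost).sum
      + (budT K X (child st (st.fs.getD 0 default)) + (st.fs.map (budT K X)).sum)
      + slot (child st (st.fs.getD 0 default))
      ≤ 1 / 4 + (∑ l ∈ range (child st (st.fs.getD 0 default)).fresh, PayL K [] l) / 16
    rw [e0, slot] at hc
    rw [e0, List.map_append, List.sum_append]
    have p : (0 : ℝ) ≤ 2⁻¹ ^ F.cb * 2⁻¹ ^ F.q := by positivity
    simp only [pow_add] at a c d hc
    linarith
  · have m1 : F ∈ st.fs := hfs ▸ List.mem_append_right _ List.mem_cons_self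
    have hF := h.frs F m1
    have a := upd_cost (K := K) hF hX
    have b : (if F.t < F.slots then 0 else slot F)
        ≤ (pre.map (budT K X)).sum + slot (st.fs.getD 0 default) := by
      split_ifs with g
      · exact avail h hX0 hR hfs
      · rcases pre with _ | ⟨G, pre⟩
        · simp [hfs]
        · have := h.chain
          rw [hfs] at this
          exact absurd (tail_t this F (List.mem_append_right _ List.mem_cons_self)) g
    have c : ∑ l ∈ range st.n, PayL K [] l ≤ ∑ l ∈ range (endEp kl D s st F ps).n, PayL K [] l :=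
      sum_le_sum_of_subset_of_nonneg (range_subset_range.2 (le_itE _ _))
        fun l _ _ => PayL_nonneg K [] l
    have d : (st.fs.map (budT K X)).sum
        = (pre.map (budT K X)).sum + (budT K X F + (ps.map (budT K X)).sum) := by simp [hfs]
    change _ + _ + slot _ ≤ _
    by_cases g : F.J + 1 < 2 ^ F.k
    · have e1 : (endEp kl D s st F ps).fs = upd kl s st F :: ps := by
        simp only [endEp, decide_eq_true g]; rfl
      rw [e1, List.map_cons, List.sum_cons]
      change _ + _ + slot F ≤ _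
      linarith
    · have e1 : (endEp kl D s st F ps).fs = bump ps := by
        simp only [endEp, decide_eq_false g]; rfl
      rw [e1] at hne' ⊢
      rcases ps with _ | ⟨G, ps⟩
      · exact absurd rfl hne'
      have f1 := bud_next K X G
      have f2 := bud_ge (X := X) (rc_ok (s := s) hK hkl hF (hR F m1)) fun j hj => by
        have hj' := mem_Ico.1 (show j ∈ Ico F.i0 F.i1 from hj)
        have h1 : j < st.em.length := by have := hF.i1E; have := hF.iE; omega
        have h2 := hF.cnt j hj'.1 hj'.2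
        have h3 := cnt_waves (st.em ++ newEm kl s st F) F j
        rw [hX0 j h1] at h2
        rw [cnt_upd]
        rcases h4 : (waves (st.em ++ newEm kl s st F) F).filter fun w => decide (w.1 = j) with
          _ | ⟨w, L⟩
        · rw [h4]; simpa using h2
        have h5 := List.mem_filter.1 (h4 ▸ List.mem_cons_self : w ∈ _)
        have h6 := (mem_waves h5.1).2.1
        rw [of_decide_eq_true h5.2, show (st.em ++ newEm kl s st F).getD j default = X j from
          hX j (by simp [endEp]; omega)] at h6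
        omega
      change slot F * ((2 ^ F.k - (F.J + 1 : ℕ)) * F.slots - (0 : ℕ) - 1) ≤ _ at f2
      rw [show F.J + 1 = 2 ^ F.k by have := hF.J; omega] at f2
      push_cast at f2
      change _ + (budT K X G.next + (ps.map (budT K X)).sum) + slot G.next ≤ _
      rw [List.map_cons, List.sum_cons] at d
      linarith
  · have a := avail h hX0 hR hfs
    have b := bud_next K X F
    have d : (st.fs.map (budT K X)).sum
        = (pre.map (budT K X)).sum + (budT K X F + (ps.map (budT K X)).sum) := by simp [hfs]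
    change (st.req.map rcost).sum + (budT K X F.next + (ps.map (budT K X)).sum) + slot F.next
      ≤ 1 / 4 + (∑ l ∈ range st.n, PayL K [] l) / 16
    linarith

theorem cost_le {K : Str → ℕ} (hK : Kr K) {D : Lab} {X : ℕ → Emi} {st : MS} (h : WF D st)
    (hne : st.fs ≠ []) (hX0 : Agree X st) (hR : ∀ F ∈ st.fs, RCok K F) (hc : CostInv K X st) :
    (st.req.map rcost).sum ≤ 1 := by
  have _ := hne
  replace hc : (st.req.map rcost).sum + (st.fs.map (budT K X)).sum + slot (st.fs.getD 0 default) ≤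
    1 / 4 + (∑ l ∈ range st.n, PayL K [] l) / 16 := hc
  linarith [avail h hX0 hR (List.append_nil _).symm, hK.sum_PayL [] (range st.n)]

end Pool.Agent.Lib.MP_848037_lc.Neg
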