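import Pool.Agent.Lib.MP_848037_lc.NBasic
import Pool.Agent.Shared.FunProb

/-!
Existence of labelings with the design property, by counting.
-/

set_option autoImplicit false

namespace Pool.Agent.Lib.MP_848037_lc.Neg

open Finset Pool.Agent.Shared.Type2 Pool.Agent.Shared.FunProb

namespace NCount

section Prob

variable {P F : Type*} [Fintype P] [DecidableEq P] [Fintype F] [Nonempty F]

omit [Nonempty F] in
theorem pr_mono {E E' : (P → F) → Prop} (h : ∀ f, E f → E' f) : pr E ≤ pr E' := by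
  classical
  unfold pr cnt
  refine div_le_div_of_nonneg_right (Nat.cast_le.2 (card_le_card fun f hf => ?_)) (by positivity)
  simp only [mem_filter, mem_univ, true_and] at hf ⊢
  exact h f hf

omit [Nonempty F] in
theorem pr_ex_le {ι : Type*} (J : Finset ι) (E : ι → (P → F) → Prop) :
    pr (fun f => ∃ j ∈ J, E j f) ≤ ∑ j ∈ J, pr (E j) := by
  classical
  unfold pr cnt
  rw [← sum_div, ← Nat.cast_sum]
  refine div_le_div_of_nonneg_right (Nat.cast_le.2 (le_trans (card_le_card fun f hf => ?_)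
    (card_biUnion_le (s := J) (t := fun j => univ.filter (E j))))) (by positivity)
  simp only [mem_filter, mem_univ, true_and, mem_biUnion] at hf ⊢
  exact hf

omit [Nonempty F] in
theorem pr_fiber (G : (P → F) → Prop) (y : P) :
    ∑ a : F, pr (fun f => G f ∧ f y = a) = pr G := by
  classical
  unfold pr cnt
  rw [← sum_div, ← Nat.cast_sum, card_eq_sum_card_fiberwise (f := fun f : P → F => f y)
    (s := univ.filter G) (t := univ) fun _ _ => mem_univ _]
  congr 2
  refine sum_congr rfl fun a _ => ?_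
  rw [filter_filter]
  congr

theorem exists_not {E : (P → F) → Prop} (h : pr E < 1) : ∃ f, ¬ E f := by
  by_contra hn
  push Not at hn
  rw [pr_congr (E' := fun _ => True) fun f => iff_true_intro (hn f), pr_true] at h
  exact lt_irrefl _ h

/-- Coincidences with earlier coordinates are unlikely. -/
theorem seq (rk : P → ℕ) (ear : P → Finset P) (h1 : ∀ x, ∀ y ∈ ear x, rk y < rk x) {A : ℕ}
    (h2 : ∀ x, (ear x).card ≤ A) (B : Finset P) :
    pr (fun f : P → F => ∀ x ∈ B, ∃ y ∈ ear x, f y = f x) ≤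
      ((A : ℝ) / Fintype.card F) ^ B.card := by
  classical
  have hF : (0 : ℝ) < Fintype.card F := by exact_mod_cast Fintype.card_pos
  induction B using Finset.induction_on_max_value rk with
  | empty => simpa using pr_le_one _
  | insert x B hx hmax ih =>
    set G : (P → F) → Prop := fun f => ∀ x ∈ B, ∃ y ∈ ear x, f y = f x with hG
    have hne : ∀ w ∈ B, ∀ y ∈ ear w, y ≠ x := fun w hw y hy e => by
      have := h1 w y hy
      have := hmax w hw
      rw [e] at *
      omega
    have hdep : Dep G (univ.erase x) := fun f g hfg hf w hw => by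
      obtain ⟨y, hy, e⟩ := hf w hw
      refine ⟨y, hy, ?_⟩
      rw [← hfg y (by simpa using hne w hw y hy), ← hfg w (by
        simpa using fun e : w = x => hx (e ▸ hw)), e]
    have key : ∀ y ∈ ear x, pr (fun f : P → F => G f ∧ f y = f x) ≤ pr G / Fintype.card F := by
      intro y hy
      have hyx : y ≠ x := fun e => by have := h1 x y hy; rw [e] at this; omega
      calc pr (fun f : P → F => G f ∧ f y = f x)
          ≤ pr (fun f : P → F => ∃ a ∈ (univ : Finset F), (G f ∧ f y = a) ∧ f x = a) :=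
            pr_mono fun f hf => ⟨f x, mem_univ _, hf, rfl⟩
        _ ≤ ∑ a : F, pr (fun f : P → F => (G f ∧ f y = a) ∧ f x = a) := pr_ex_le _ _
        _ = ∑ a : F, pr (fun f : P → F => G f ∧ f y = a) / Fintype.card F := by
            refine sum_congr rfl fun a _ => ?_
            rw [pr_and (T := univ.erase x) (T' := {x}), pr_coord, mul_one_div]
            · intro f g hfg hf
              exact ⟨hdep f g hfg hf.1, by rw [← hfg y (by simpa using hyx)]; exact hf.2⟩
            · intro f g hfg hf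
              rwa [← hfg x (mem_singleton_self x)]
            · simp
        _ = pr G / Fintype.card F := by rw [← sum_div, pr_fiber]
    calc pr (fun f : P → F => ∀ w ∈ insert x B, ∃ y ∈ ear w, f y = f w)
        ≤ pr (fun f : P → F => ∃ y ∈ ear x, G f ∧ f y = f x) := pr_mono fun f hf => by
          obtain ⟨y, hy, e⟩ := hf x (mem_insert_self _ _)
          exact ⟨y, hy, fun w hw => hf w (mem_insert_of_mem hw), e⟩
      _ ≤ ∑ y ∈ ear x, pr (fun f : P → F => G f ∧ f y = f x) := pr_ex_le _ _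
      _ ≤ (ear x).card • (pr G / Fintype.card F) := sum_le_card_nsmul _ _ _ key
      _ ≤ A * (((A : ℝ) / Fintype.card F) ^ B.card / Fintype.card F) := by
          rw [nsmul_eq_mul]
          have := pr_nonneg G
          exact mul_le_mul (Nat.cast_le.2 (h2 x)) (div_le_div_of_nonneg_right ih hF.le)
            (by positivity) (by positivity)
      _ = _ := by rw [card_insert_of_notMem hx, pow_succ]; ring

end Prob

/-- The number of small subsets of a pool. -/
theorem card_small {α : Type*} (S : Finset α) {g M : ℕ} (h : S.card ≤ 2 ^ g * M) :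
    (S.powerset.filter fun T => T.card ≤ M).card ≤ 2 ^ ((g + 2) * M) := by
  classical
  set t : ℝ := (2 ^ g)⁻¹ with ht
  have t0 : 0 < t := by positivity
  have t1 : t ≤ 1 := inv_le_one_of_one_le₀ (one_le_pow₀ (by norm_num))
  have h1 : ((S.powerset.filter fun T => T.card ≤ M).card : ℝ) * t ^ M ≤ (1 + t) ^ S.card := by
    rw [← prod_const, prod_one_add, ← nsmul_eq_mul]
    refine (card_nsmul_le_sum _ (fun T => ∏ _i ∈ T, t) _ fun T hT => ?_).trans
      (sum_le_sum_of_subset_of_nonneg (filter_subset _ _) fun T _ _ => by positivity)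
    rw [prod_const]
    exact pow_le_pow_of_le_one t0.le t1 (mem_filter.1 hT).2
  have h2 : (1 + t) ^ S.card ≤ 4 ^ M := by
    calc (1 + t) ^ S.card ≤ (1 + t) ^ (2 ^ g * M) := pow_le_pow_right₀ (by linarith) h
      _ ≤ Real.exp t ^ (2 ^ g * M) :=
          pow_le_pow_left₀ (by linarith) (by linarith [Real.add_one_le_exp t]) _
      _ = Real.exp 1 ^ M := by
          rw [pow_mul, ← Real.exp_nat_mul]
          congr 2
          push_cast
          rw [ht, mul_inv_cancel₀ (by positivity)]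
      _ ≤ 4 ^ M := pow_le_pow_left₀ (Real.exp_pos _).le (by linarith [Real.exp_one_lt_d9]) _
  have h3 : ((S.powerset.filter fun T => T.card ≤ M).card : ℝ) ≤ 2 ^ ((g + 2) * M) := by
    have h4 := h1.trans h2
    rw [ht, inv_pow, ← div_eq_mul_inv, div_le_iff₀ (by positivity)] at h4
    refine h4.trans (le_of_eq ?_)
    rw [pow_mul, ← mul_pow, pow_add]
    norm_num [mul_comm]
  exact_mod_cast h3

/-- The chains of small edge sets. -/
def Adm (n : ℕ) (ζ : Str) (l : ℕ) (E : ℕ → Finset (Str × Str)) : Prop :=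
  (∀ r ≤ mm n, E r ⊆ Om (l - so n r) ×ˢ Zs ζ (l - so n r)) ∧
    (∀ r ≤ mm n, (E r).card ≤ 2 ^ (6 * n + r + (l - so n r - ζ.length))) ∧
    ∀ r < mm n, ∀ p ∈ E r,
      (p.1.take (l - so n (r + 1)), p.2.take (l - so n (r + 1))) ∈ E (r + 1)

theorem mul_pow_le {a b c d : ℕ} (h : a ≤ 2 ^ b) (h' : b + c ≤ d) : a * 2 ^ c ≤ 2 ^ d :=
  (Nat.mul_le_mul_right _ h).trans (by rw [← pow_add]; exact Nat.pow_le_pow_right two_pos h')

theorem chains {n : ℕ} {ζ : Str} {l : ℕ} (hn : 20 ≤ n) (hζ : ζ.length ≤ n) (h0 : n0 n ≤ l)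
    (h1 : l ≤ nEnd n) (j : ℕ) : ∀ r, r + j = mm n → ∃ 𝓕 : Finset (Finset (Str × Str)),
      𝓕.card ≤ 2 ^ ((j + 1) * 2 ^ (7 * n + 4 + (l - ζ.length))) ∧
      (∀ S ∈ 𝓕, S.card ≤ 2 ^ (6 * n + r + (l - so n r - ζ.length)) ∧
        ∀ p ∈ S, p.1.length = l - so n r ∧ p.2.length = l - so n r) ∧
      ∀ E, Adm n ζ l E → E r ∈ 𝓕 := by
  classical
  induction j with
  | zero =>
    intro r hr
    obtain rfl : r = mm n := hr
    have a1 := le_sub_so (n := n) le_rfl h0
    refine ⟨(Om (l - so n (mm n)) ×ˢ Zs ζ (l - so n (mm n))).powerset.filter fun T =>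
      T.card ≤ 2 ^ (6 * n + mm n + (l - so n (mm n) - ζ.length)), ?_, fun S hS => ?_,
      fun E hE => mem_filter.2 ⟨mem_powerset.2 (hE.1 _ le_rfl), hE.2.1 _ le_rfl⟩⟩
    · refine (card_small (g := l) _ ?_).trans (Nat.pow_le_pow_right two_pos ?_)
      · rw [card_product, card_Om, card_Zs (by omega)]
        exact Nat.mul_le_mul (Nat.pow_le_pow_right two_pos (by omega))
          (Nat.pow_le_pow_right two_pos (by omega))
      · have a2 := nEnd_le n
        have a3 := jT_big n
        have a4 := lin_le_pow (n := jT n) (by omega)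
        have a5 : so n (mm n) = 3 * 2 ^ jT n := by rw [← tw_mm]; exact so_succ n _
        rw [zero_add, one_mul]
        exact mul_pow_le (b := 7 * jT n) (by omega) (by omega)
    · obtain ⟨b1, b2⟩ := mem_filter.1 hS
      refine ⟨b2, fun p hp => ?_⟩
      have := mem_product.1 (mem_powerset.1 b1 hp)
      exact ⟨mem_Om.1 this.1, (mem_Zs.1 this.2).1⟩
  | succ j ih =>
    intro r hr
    obtain ⟨𝓖, g1, g2, g3⟩ := ih (r + 1) (by omega)
    have a1 := le_sub_so (n := n) (r := r + 1) (by omega) h0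
    have a2 : so n r ≤ so n (r + 1) := so_mono n (Nat.le_succ r)
    let pool : Finset (Str × Str) → Finset (Str × Str) := fun S =>
      S.biUnion fun p => Zs p.1 (l - so n r) ×ˢ Zs p.2 (l - so n r)
    refine ⟨𝓖.biUnion fun S => (pool S).powerset.filter fun T =>
      T.card ≤ 2 ^ (6 * n + r + (l - so n r - ζ.length)), ?_, fun S hS => ?_, fun E hE => ?_⟩
    · refine (card_biUnion_le_card_mul _ _ (2 ^ 2 ^ (7 * n + 4 + (l - ζ.length)))
        fun S hS => ?_).trans ?_
      · refine (card_small (g := so n (r + 1) - so n r + 1) _ ?_).trans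
          (Nat.pow_le_pow_right two_pos ?_)
        · refine (card_biUnion_le_card_mul _ _ (2 ^ (2 * (so n (r + 1) - so n r)))
            fun p hp => ?_).trans ?_
          · obtain ⟨c1, c2⟩ := (g2 S hS).2 p hp
            rw [card_product, card_Zs (by omega), card_Zs (by omega), ← pow_add, c1, c2]
            exact Nat.pow_le_pow_right two_pos (by omega)
          · rw [← pow_add]
            exact mul_pow_le (g2 S hS).1 (by omega)
        · have a3 := so_succ n r
          rw [tw_succ] at a3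
          have a4 : 0 < 2 ^ tw n r := by positivity
          rcases Nat.eq_zero_or_pos r with rfl | hr0
          · have a5 : tw n 0 = n + 2 := by simp [tw]
            have a6 : 4 ≤ 2 ^ (n + 2) := by rw [pow_add]; have : 0 < 2 ^ n := by positivity
                                            omega
            rw [a5] at a3
            refine mul_pow_le (b := n + 2 + 2) ?_ (by rw [so_zero]; omega)
            rw [pow_add 2 (n + 2) 2]; omega
          · have a5 : so n r = 3 * tw n r := by simp [so, hr0.ne']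
            have a6 := tw_ge n r
            have a7 := @Nat.lt_two_pow_self r
            have a8 : r ≤ tw n r := by nlinarith
            refine mul_pow_le (b := tw n r + 3) ?_ (by omega)
            rw [pow_add]; omega
      · refine (Nat.mul_le_mul_right _ g1).trans (le_of_eq ?_)
        rw [← pow_add]
        congr 1
        ring
    · obtain ⟨S', -, hS⟩ := mem_biUnion.1 hS
      obtain ⟨b1, b2⟩ := mem_filter.1 hS
      refine ⟨b2, fun p hp => ?_⟩
      obtain ⟨p', -, hp⟩ := mem_biUnion.1 (mem_powerset.1 b1 hp)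
      have := mem_product.1 hp
      exact ⟨(mem_Zs.1 this.1).1, (mem_Zs.1 this.2).1⟩
    · refine mem_biUnion.2 ⟨E (r + 1), g3 E hE, mem_filter.2 ⟨mem_powerset.2 fun p hp => ?_,
        hE.2.1 r (by omega)⟩⟩
      have := mem_product.1 (hE.1 r (by omega) hp)
      exact mem_biUnion.2 ⟨_, hE.2.2 r (by omega) p hp, mem_product.2
        ⟨mem_Zs.2 ⟨mem_Om.1 this.1, List.take_prefix _ _⟩,
          mem_Zs.2 ⟨(mem_Zs.1 this.2).1, List.take_prefix _ _⟩⟩⟩

/-- The labeling given by a function on a finite set of positions. -/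
def labOf {I : Finset (Str × ℕ)} {Q : ℕ} (f : I → Fin Q) (τ : Str) (b : ℕ) : ℕ :=
  if h : (τ, b) ∈ I then f ⟨(τ, b), h⟩ else 0

/-- All strings of a fixed set are exceptional with small probability. -/
theorem all_exc {n i : ℕ} (hn : 20 ≤ n) (Z : Finset Str) (E : Finset (Str × Str))
    (hE : ∀ p ∈ E, p.2 ∈ Z) (hA : ∀ τ, (earl E τ).card ≤ 2 ^ (6 * n + 2 * zz n i))
    {X : Finset Str} (hX : X ⊆ Z) :
    pr (fun f : (Z ×ˢ range (2 ^ zz n i) : Finset (Str × ℕ)) → Fin (2 ^ (3 * zz n i)) =>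
      ∀ τ ∈ X, 2 ^ zz n i ≤ 2 ^ n * (coin n i (labOf f) E τ).card) ≤
      (2⁻¹ : ℝ) ^ (X.card * 2 ^ zz n i) := by
  classical
  set I : Finset (Str × ℕ) := Z ×ˢ range (2 ^ zz n i) with hI
  let ear : I → Finset I := fun x => univ.filter fun y => y.1.1 ∈ earl E x.1.1 ∧ y.1.2 = x.1.2
  have e1 : ∀ x, ∀ y ∈ ear x, Encodable.encode y.1.1 < Encodable.encode x.1.1 := fun x y hy =>
    (mem_filter.1 (mem_filter.1 hy).2.1).2.1
  have e2 : ∀ x, (ear x).card ≤ 2 ^ (6 * n + 2 * zz n i) := fun x => by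
    refine le_trans (card_le_card_of_injOn (fun y => y.1.1) (fun y hy => ?_) ?_) (hA x.1.1)
    · exact (mem_filter.1 hy).2.1
    · intro y hy y' hy' e
      exact Subtype.ext (Prod.ext e ((mem_filter.1 hy).2.2.trans (mem_filter.1 hy').2.2.symm))
  have hXI : X ×ˢ range (2 ^ zz n i) ⊆ I := product_subset_product_left hX
  let J := (X ×ˢ range (2 ^ zz n i)).powerset.filter fun B =>
    X.card * 2 ^ zz n i ≤ 2 ^ n * B.card
  have hz : 6 * n + 2 * 2 ^ n ≤ zz n i := by
    have a1 := zz_ge n i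
    have a2 := lin_le_pow (n := n) (by omega)
    rw [pow_add] at a1
    omega
  calc _ ≤ pr (fun f : I → Fin (2 ^ (3 * zz n i)) => ∃ B ∈ J,
        ∀ x ∈ B.subtype (· ∈ I), ∃ y ∈ ear x, f y = f x) := pr_mono fun f hf => ?_
    _ ≤ ∑ B ∈ J, pr (fun f : I → Fin (2 ^ (3 * zz n i)) =>
        ∀ x ∈ B.subtype (· ∈ I), ∃ y ∈ ear x, f y = f x) := pr_ex_le _ _
    _ ≤ J.card • (2⁻¹ : ℝ) ^ (2 * (X.card * 2 ^ zz n i)) := sum_le_card_nsmul _ _ _ fun B hB => ?_
    _ ≤ 2 ^ (X.card * 2 ^ zz n i) * (2⁻¹ : ℝ) ^ (2 * (X.card * 2 ^ zz n i)) := by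
        rw [nsmul_eq_mul]
        refine mul_le_mul_of_nonneg_right ?_ (by positivity)
        have := card_filter_le (X ×ˢ range (2 ^ zz n i)).powerset fun B =>
          X.card * 2 ^ zz n i ≤ 2 ^ n * B.card
        rw [card_powerset, card_product, card_range] at this
        exact_mod_cast this
    _ = _ := by rw [two_mul, pow_add, ← mul_assoc, ← mul_pow]; norm_num
  · refine ⟨(X ×ˢ range (2 ^ zz n i)).filter fun p => p.2 ∈ coin n i (labOf f) E p.1,
      mem_filter.2 ⟨mem_powerset.2 (filter_subset _ _), ?_⟩, fun x hx => ?_⟩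
    · rw [card_filter, sum_product, mul_sum, ← smul_eq_mul]
      refine card_nsmul_le_sum _ _ _ fun τ hτ => (hf τ hτ).trans (Nat.mul_le_mul_left _ ?_)
      rw [← card_filter]
      exact card_le_card fun b hb => mem_filter.2 ⟨(mem_filter.1 hb).1, hb⟩
    · obtain ⟨b1, τ', b2, b3⟩ := mem_filter.1 (mem_filter.1 (mem_subtype.1 hx)).2
      obtain ⟨p, hp, rfl⟩ := mem_image.1 (mem_filter.1 b2).1
      have b4 : (p.2, x.1.2) ∈ I := mem_product.2 ⟨hE p hp, b1⟩
      refine ⟨⟨_, b4⟩, mem_filter.2 ⟨mem_univ _, b2, rfl⟩, Fin.ext ?_⟩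
      simpa only [labOf, b4, dite_true, Prod.mk.eta, x.2] using b3
  · obtain ⟨b1, b2⟩ := mem_filter.1 hB
    refine (seq (fun x : I => Encodable.encode x.1.1) ear e1 e2 _).trans ?_
    rw [card_subtype, filter_true_of_mem fun p hp => hXI (mem_powerset.1 b1 hp), Fintype.card_fin]
    calc _ ≤ ((2⁻¹ : ℝ) ^ (2 * 2 ^ n)) ^ B.card := by
          refine pow_le_pow_left₀ (by positivity) ?_ _
          push_cast
          rw [div_le_iff₀ (by positivity), inv_pow, inv_mul_eq_div, le_div_iff₀ (by positivity),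
            ← pow_add]
          exact pow_le_pow_right₀ (by norm_num) (by omega)
      _ ≤ _ := by
          rw [← pow_mul]
          exact pow_le_pow_of_le_one (by norm_num) (by norm_num) (by rw [mul_assoc]; omega)

end NCount

open NCount in
theorem exists_lab (n : ℕ) (ζ : Str) (i l : ℕ) (hn : 20 ≤ n) (hζ : ζ.length ≤ n) (h0 : n0 n ≤ l)
    (h1 : l ≤ nEnd n) : ∃ lab : Str → ℕ → ℕ, (∀ τ b, lab τ b < 2 ^ (3 * zz n i)) ∧
      DP n ζ i l lab := by
  classical
  obtain ⟨𝓕, f1, -, f3⟩ := chains hn hζ h0 h1 (mm n) 0 (zero_add _)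
  have hl : ζ.length ≤ l := hζ.trans ((le_n0 n).trans h0)
  set W := 2 ^ (l - ζ.length) with hW
  have W0 : 0 < W := by positivity
  have : Nonempty (Fin (2 ^ (3 * zz n i))) := ⟨⟨0, by positivity⟩⟩
  let J := (𝓕.filter fun E => (∀ p ∈ E, p.2 ∈ Zs ζ l) ∧
      ∀ τ, (earl E τ).card ≤ 2 ^ (6 * n + 2 * zz n i)) ×ˢ
    ((Zs ζ l).powerset.filter fun X => W < 2 ^ n * X.card)
  have hJ : J.card ≤ 2 ^ (2 ^ (15 * n) * W) := by
    rw [card_product]
    refine (Nat.mul_le_mul ((card_filter_le _ _).trans f1) (card_filter_le _ _)).trans ?_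
    rw [card_powerset, card_Zs hl, ← pow_add]
    refine Nat.pow_le_pow_right two_pos ?_
    have a1 : mm n + 1 ≤ 2 ^ (7 * n + 2) := by
      have : 2 ^ 1 ≤ 2 ^ (7 * n) := Nat.pow_le_pow_right two_pos (by omega)
      unfold mm nT
      rw [pow_add]; omega
    have a2 := mul_pow_le (c := 7 * n + 4) (d := 15 * n - 1) a1 (by omega)
    have a3 : 2 ^ (15 * n) = 2 ^ (15 * n - 1) * 2 := by rw [← pow_succ]; congr 1; omega
    have a4 : 0 < 2 ^ (15 * n - 1) := by positivity
    rw [pow_add 2 (7 * n + 4), ← hW, ← mul_assoc, ← Nat.succ_mul]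
    exact Nat.mul_le_mul_right _ (by omega)
  obtain ⟨f, hf⟩ := exists_not (E := fun f : (Zs ζ l ×ˢ range (2 ^ zz n i) : Finset (Str × ℕ)) →
      Fin (2 ^ (3 * zz n i)) => ∃ u ∈ J,
      ∀ τ ∈ u.2, 2 ^ zz n i ≤ 2 ^ n * (coin n i (labOf f) u.1 τ).card) (by
    refine (pr_ex_le _ _).trans_lt ((sum_le_card_nsmul _ _
      ((2⁻¹ : ℝ) ^ (2 ^ (15 * n) * W + 1)) fun u hu => ?_).trans_lt ?_)
    · obtain ⟨u1, u2⟩ := mem_product.1 hu
      obtain ⟨-, u3, u4⟩ := mem_filter.1 u1
      obtain ⟨u5, u6⟩ := mem_filter.1 u2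
      refine (all_exc hn _ _ u3 u4 (mem_powerset.1 u5)).trans
        (pow_le_pow_of_le_one (by norm_num) (by norm_num) ?_)
      have a1 : 2 ^ (15 * n) * 2 ^ n ≤ 2 ^ zz n i := by
        rw [← pow_add]
        exact Nat.pow_le_pow_right two_pos (by have := zz_ge' hn i; omega)
      have a2 : 2 ^ (15 * n) * W < 2 ^ (15 * n) * (2 ^ n * u.2.card) :=
        Nat.mul_lt_mul_of_pos_left u6 (by positivity)
      have a3 := Nat.mul_le_mul_left u.2.card a1
      rw [← mul_assoc, mul_comm _ u.2.card] at a2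
      omega
    · rw [nsmul_eq_mul, pow_succ, ← mul_assoc]
      have a1 : (J.card : ℝ) * 2⁻¹ ^ (2 ^ (15 * n) * W) ≤ 1 := by
        rw [inv_pow, ← div_eq_mul_inv, div_le_one (by positivity)]
        exact_mod_cast hJ
      linarith)
  refine ⟨labOf f, fun τ b => ?_, fun E a1 a2 a3 a4 => ?_⟩
  · unfold labOf
    split_ifs
    · exact Fin.is_lt _
    · positivity
  · by_contra hc
    refine hf ⟨(E 0, _), mem_product.2 ⟨mem_filter.2 ⟨f3 E ⟨a1, a2, a3⟩, fun p hp => ?_, a4⟩,
      mem_filter.2 ⟨mem_powerset.2 (filter_subset _ _), not_le.1 hc⟩⟩,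
      fun τ hτ => (mem_filter.1 hτ).2⟩
    exact (mem_product.1 (a1 0 (Nat.zero_le _) hp)).2

end Pool.Agent.Lib.MP_848037_lc.Neg
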