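import Pool.Agent.Lib.MP_848037_lc.ThinMass

/-!
Definitions for the construction of a limit computable sequence whose upper `K`-cone is countable:
design parameters, hot strings, the machine and its records.
-/

set_option autoImplicit false

namespace Pool.Agent.Lib.MP_848037_lc.Neg

open Finset Pool.Agent.Shared.Type2

/-! ### Cylinders and payments -/

/-- The extensions of `ζ` of length `l`, as a list. -/
def zsL (ζ : Str) (l : ℕ) : List Str := (allS (l - ζ.length)).map fun u => ζ ++ u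

/-- The extensions of `ζ` of length `l`. -/
def Zs (ζ : Str) (l : ℕ) : Finset Str := (Om l).filter fun τ => ζ <+: τ

/-- Finite Kraft inequality. -/
def Kr (K : Str → ℕ) : Prop := ∀ F : Finset Str, ∑ ρ ∈ F, (2⁻¹ : ℝ) ^ K ρ ≤ 1

/-- The weight of the extensions of `y` of length `l`. -/
noncomputable def PayL (K : Str → ℕ) (y : Str) (l : ℕ) : ℝ := ∑ ρ ∈ Zs y l, (2⁻¹ : ℝ) ^ K ρ

/-- The weight of the extensions of `y` with length in `[a, b)`. -/
noncomputable def Pay (K : Str → ℕ) (y : Str) (a b : ℕ) : ℝ := ∑ l ∈ Ico a b, PayL K y l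

/-! ### Design parameters (all functions of the start `n` of the window) -/

/-- The tower `n + 2, 2 ^ (n + 2), ...`. -/
def tw (n r : ℕ) : ℕ := nrec r (n + 2) fun _ u => 2 ^ u
/-- Number of tiers. -/
def nT (n : ℕ) : ℕ := 2 ^ (7 * n)
/-- Size of tier `i`. -/
def zz (n i : ℕ) : ℕ := tw n (2 * i + 1)
/-- Offsets. -/
def so (n r : ℕ) : ℕ := if r = 0 then 0 else 3 * tw n r
/-- The last offset index. -/
def mm (n : ℕ) : ℕ := 2 * nT n + 2
/-- Bound for all run lengths. -/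
def jT (n : ℕ) : ℕ := zz n (nT n)
/-- First level at which runs start. -/
def n0 (n : ℕ) : ℕ := n + so n (mm n)
/-- End of the levels at which runs start. -/
def nC (n : ℕ) : ℕ := n0 n + 2 ^ (6 * jT n)
/-- End of the window. -/
def nEnd (n : ℕ) : ℕ := nC n + jT n

/-- Label systems: `D (n, ζ, i, l) τ b`. -/
abbrev Lab := ℕ × Str × ℕ × ℕ → Str → ℕ → ℕ

/-- Strings held together with `τ` that come earlier in the coding. -/
noncomputable def earl (E : Finset (Str × Str)) (τ : Str) : Finset Str :=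
  (E.image Prod.snd).filter fun τ' => Encodable.encode τ' < Encodable.encode τ ∧
    ∃ ρ ∈ E.image Prod.fst, (ρ, τ) ∈ E ∧ (ρ, τ') ∈ E

/-- The positions at which the label of `τ` is the label of an earlier string held with it. -/
noncomputable def coin (n i : ℕ) (lab : Str → ℕ → ℕ) (E : Finset (Str × Str)) (τ : Str) :
    Finset ℕ :=
  (range (2 ^ zz n i)).filter fun b => ∃ τ' ∈ earl E τ, lab τ' b = lab τ b

/-- The design property: few strings have many coinciding labels, for every edge set that hangs on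
a chain of small edge sets. -/
def DP (n : ℕ) (ζ : Str) (i l : ℕ) (lab : Str → ℕ → ℕ) : Prop :=
  ∀ E : ℕ → Finset (Str × Str),
    (∀ r ≤ mm n, E r ⊆ Om (l - so n r) ×ˢ Zs ζ (l - so n r)) →
    (∀ r ≤ mm n, (E r).card ≤ 2 ^ (6 * n + r + (l - so n r - ζ.length))) →
    (∀ r < mm n, ∀ p ∈ E r,
      (p.1.take (l - so n (r + 1)), p.2.take (l - so n (r + 1))) ∈ E (r + 1)) →
    (∀ τ, (earl (E 0) τ).card ≤ 2 ^ (6 * n + 2 * zz n i)) →
    2 ^ n * ((Zs ζ l).filter fun τ => 2 ^ zz n i ≤ 2 ^ n * (coin n i lab (E 0) τ).card).card ≤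
      2 ^ (l - ζ.length)

/-- A good label system. -/
def DesignOK (D : Lab) : Prop :=
  ∀ (n : ℕ) (ζ : Str) (i l : ℕ), 20 ≤ n → ζ.length ≤ n → n0 n ≤ l → l ≤ nEnd n →
    (∀ τ b, D (n, ζ, i, l) τ b < 2 ^ (3 * zz n i)) ∧ DP n ζ i l (D (n, ζ, i, l))

/-- Length of the run of zeros. -/
def tgt (D : Lab) (n : ℕ) (ζ : Str) (i l : ℕ) (τ : Str) (b : ℕ) : ℕ :=
  2 * zz n i + b * 2 ^ (3 * zz n i) + D (n, ζ, i, l) τ b

/-- The hot string above `τ`. -/
def hot (D : Lab) (n : ℕ) (ζ : Str) (i l : ℕ) (τ : Str) (b : ℕ) : Str :=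
  τ ++ List.replicate (tgt D n ζ i l τ b) false

/-- Requests `(root, level, length)`: all extensions of `root` of length `level` get a description
of the given length. -/
abbrev Rq := Str × ℕ × ℕ

/-- An emission: slack, owner, root, value exponent, start of the window. -/
structure Emi where
  e : ℕ
  own : Str
  root : Str
  A : ℕ
  n : ℕ

instance : Inhabited Emi := ⟨⟨0, [], [], 0, 0⟩⟩

/-- The requests of an emission. -/
def design (D : Lab) (x : Emi) : List Rq :=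
  (List.range (2 ^ (6 * jT x.n))).flatMap fun a => (List.range (nT x.n)).flatMap fun i =>
    (zsL x.root (n0 x.n + a)).flatMap fun τ => (List.range (2 ^ zz x.n i)).map fun b =>
      (hot D x.n x.root i (n0 x.n + a) τ b, n0 x.n + a + tgt D x.n x.root i (n0 x.n + a) τ b,
        x.A + (n0 x.n + a - x.root.length) + 6 * jT x.n + 7 * x.n + zz x.n i)

/-- Normalised number of hot strings of tier `i` started at level `l` below `ξ`. -/
noncomputable def Yv (D : Lab) (n : ℕ) (ζ : Str) (i l : ℕ) (ξ : Str) : ℝ :=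
  (∑ b ∈ range (2 ^ zz n i), if hot D n ζ i l (ξ.take l) b <+: ξ then
    (2 : ℝ) ^ tgt D n ζ i l (ξ.take l) b else 0) / 2 ^ zz n i

/-- Average over the tiers. -/
noncomputable def Uv (D : Lab) (n : ℕ) (ζ : Str) (l : ℕ) (ξ : Str) : ℝ :=
  (∑ i ∈ range (nT n), Yv D n ζ i l ξ) / nT n

/-- Tilted flow through the edge `(ρ0, τ0)`. -/
noncomputable def ev (D : Lab) (n : ℕ) (ζ : Str) (l : ℕ) (f : Str → Str → ℝ) (ρ0 τ0 : Str) : ℝ :=
  ∑ ρ ∈ Zs ρ0 (nEnd n), ∑ ξ ∈ Zs τ0 (nEnd n), f ρ ξ * Uv D n ζ l ξ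

/-- Tilted flow through light edges at level `l - so n r`. -/
noncomputable def badL (D : Lab) (n : ℕ) (ζ : Str) (r l : ℕ) (f : Str → Str → ℝ) : ℝ :=
  ∑ ρ0 ∈ Om (l - so n r), ∑ τ0 ∈ Zs ζ (l - so n r),
    if ev D n ζ l f ρ0 τ0 ≤ (2⁻¹ : ℝ) ^ (l - so n r + 5 * n + r) then ev D n ζ l f ρ0 τ0 else 0

/-- Little tilted flow passes through light edges. -/
def NoBad (D : Lab) (n : ℕ) (ζ : Str) (f : Str → Str → ℝ) : Prop :=
  ∀ r ≤ mm n, ∑ l ∈ Ico (n0 n) (nC n), badL D n ζ r l f ≤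
    (2⁻¹ : ℝ) ^ (2 * n + r + ζ.length) * 2 ^ (6 * jT n)

/-! ### Records -/

/-- Value of an emission. -/
noncomputable def Emi.val (x : Emi) : ℝ := (2⁻¹ : ℝ) ^ x.A

/-- Total value of the emissions with index in `[a, b)`. -/
noncomputable def ValS (X : ℕ → Emi) (a b : ℕ) : ℝ := ∑ j ∈ Ico a b, (X j).val

/-- Total value of the emissions with slack `e`. -/
noncomputable def ValE (X : ℕ → Emi) (e a b : ℕ) : ℝ :=
  ∑ j ∈ Ico a b, if (X j).e = e then (X j).val else 0

/-- Density at `z` of the emissions with slack `e`. -/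
noncomputable def GG (X : ℕ → Emi) (e a b : ℕ) (z : Str) : ℝ :=
  ∑ j ∈ Ico a b, if (X j).e = e ∧ (X j).root <+: z then (X j).val * 2 ^ (X j).root.length else 0

/-- Payments above `σ` in the windows of the emissions with slack `e`. -/
noncomputable def PW (K : Str → ℕ) (X : ℕ → Emi) (e : ℕ) (σ : Str) (a b : ℕ) : ℝ :=
  ∑ j ∈ Ico a b, if (X j).e = e then Pay K σ (X j).n (nEnd (X j).n) else 0

/-- Flow from `ρ` to `τ` of the emissions with slack `e`. -/
noncomputable def ww (X : ℕ → Emi) (e a b : ℕ) (ρ τ : Str) : ℝ :=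
  ∑ j ∈ Ico a b, if (X j).e = e ∧ ρ <+: (X j).own ∧ τ <+: (X j).root then (X j).val else 0

/-- The entropy bound for the emissions in `[a, b)`. -/
def EntB (K : Str → ℕ) (X : ℕ → Emi) (σ : Str) (q : ℕ) (ρ0 : ℝ) (a b : ℕ) (err : ℝ) : Prop :=
  ∀ e ns : ℕ, (∀ j ∈ Ico a b, (X j).root.length ≤ ns) →
    ∑ z ∈ Om ns, (2⁻¹ : ℝ) ^ ns * (GG X e a b z * Real.log (GG X e a b z / ρ0)) ≤
      -(2 ^ (2 * e + 12) * Real.log 2 - 1 - 2 * 2⁻¹ ^ q) * ValE X e a b +
        4 * 2 ^ e * PW K X e σ a b + err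

/-- The emissions in `[a, b)` form a good layer over the earlier emission `x`; `2⁻¹ ^ lu` is the
unit of density and `2 ^ lw` the capacity. -/
structure GoodR (K : Str → ℕ) (D : Lab) (X : ℕ → Emi) (x : Emi) (σ : Str) (lu lw a b : ℕ) :
    Prop where
  len : ∀ j ∈ Ico a b, nEnd x.n ≤ (X j).root.length ∧ nEnd x.n ≤ (X j).own.length ∧
    σ <+: (X j).own
  sat : ∀ j ∈ Ico a b, (X j).e = x.e → ∀ r ∈ design D x, r.1 <+: (X j).root →
    K ((X j).own.take r.2.1) ≤ r.2.2 + x.e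
  cap : ∀ ρ ∈ Om (nEnd x.n), (∑ j ∈ Ico a b, if ρ <+: (X j).own then (X j).val else 0) ≤
    2 ^ lw * 2⁻¹ ^ (lu + nEnd x.n)
  nob : ∀ f : Str → Str → ℝ, (∀ ρ ξ, 0 ≤ f ρ ξ) →
    (∀ ρ ∈ Om (nEnd x.n), ∀ ξ ∈ Zs x.root (nEnd x.n), f ρ ξ ≤ 2 ^ lu * ww X x.e a b ρ ξ) →
    (∀ ξ ∈ Zs x.root (nEnd x.n), ∑ ρ ∈ Om (nEnd x.n), f ρ ξ ≤ 2⁻¹ ^ nEnd x.n) →
    NoBad D x.n x.root f

/-- A record: slot, interval of emissions, and weight exponent. -/
structure Rec where
  t : ℕ
  a : ℕ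
  b : ℕ
  r : ℕ

/-- The intervals of the records tile `[lo, hi)`. -/
def Tiles : ℕ → List Rec → ℕ → Prop
  | lo, [], hi => lo = hi
  | lo, c :: rs, hi => c.a = lo ∧ c.a ≤ c.b ∧ Tiles c.b rs hi

/-- The extension of `σ` of length `N` visited in slot `t`. -/
def kidS (σ : Str) (N t : ℕ) : Str := σ ++ (allS (N - σ.length)).getD (t % 2 ^ (N - σ.length)) []

/-- Facts about one record of an epoch with data `σ, N, q, cb`. -/
structure RecOK (K : Str → ℕ) (X : ℕ → Emi) (σ : Str) (N q cb : ℕ) (c : Rec) : Prop where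
  own : ∀ j ∈ Ico c.a c.b, kidS σ N c.t <+: (X j).own
  big : ∀ j ∈ Ico c.a c.b, N + cb + 2 * q + 20 ≤ (X j).n ∧ (X j).root.length ≤ (X j).n
  tot : ValS X c.a c.b ≤ 2⁻¹ ^ (3 + cb + c.r)
  ent : EntB K X (kidS σ N c.t) (q + 1) (2 ^ N * 2⁻¹ ^ (3 + cb + c.r)) c.a c.b
    ((1 + 2⁻¹ ^ (q + 1)) * 2⁻¹ ^ (3 + cb + c.r))

open Classical in
/-- Weight of the records of slot `t` that are not good over `x`. -/
noncomputable def badW (K : Str → ℕ) (D : Lab) (X : ℕ → Emi) (σ : Str) (N q cb : ℕ)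
    (rs : List Rec) (x : Emi) (t : ℕ) : ℝ :=
  (rs.map fun c => if c.t = t ∧
    ¬ GoodR K D X x (kidS σ N t) (3 + cb + c.r + (q + 1)) (N + q + 2) c.a c.b then
      (2⁻¹ : ℝ) ^ c.r else 0).sum

/-- Facts about the records of slot `t`. -/
structure SlotOK (K : Str → ℕ) (D : Lab) (X : ℕ → Emi) (σ : Str) (N q cb : ℕ) (rs : List Rec)
    (t : ℕ) : Prop where
  wt : (rs.map fun c => if c.t = t then (2⁻¹ : ℝ) ^ c.r else 0).sum ≤ 1
  good : ∀ c ∈ rs, c.t < t → ∀ j ∈ Ico c.a c.b,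
    (X j).val ≤ 2 ^ (X j).e * Pay K (kidS σ N t) (X j).n (nEnd (X j).n) ∨
      badW K D X σ N q cb rs (X j) t ≤ 2⁻¹ ^ (X j).n

/-- The records of an epoch, all in slots below `tb`. -/
structure EpOK (K : Str → ℕ) (D : Lab) (X : ℕ → Emi) (σ : Str) (N q cb : ℕ) (rs : List Rec)
    (lo hi tb : ℕ) : Prop where
  til : Tiles lo rs hi
  lt : ∀ c ∈ rs, c.t < tb
  rec' : ∀ c ∈ rs, RecOK K X σ N q cb c
  slot : ∀ t, SlotOK K D X σ N q cb rs t

/-! ### The machine -/

/-- A frame of the stack. -/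
structure Fr where
  σ : Str
  k : ℕ
  b : ℕ
  q : ℕ
  m : ℕ
  rem : ℕ
  J : ℕ
  t : ℕ
  i0 : ℕ
  i1 : ℕ
  iE : ℕ
  rl : List ℕ
  wv : List (ℕ × ℕ)

instance : Inhabited Fr := ⟨⟨[], 0, 0, 0, 0, 0, 0, 0, 0, 0, 0, [], []⟩⟩

/-- The state: first fresh level, requests, emissions, stack (top first). -/
structure MS where
  n : ℕ
  req : List Rq
  em : List Emi
  fs : List Fr

namespace Fr

/-- Length of the kids. -/
def N (F : Fr) : ℕ := F.k + 2 ^ F.k
/-- Number of kids. -/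
def S (F : Fr) : ℕ := 2 ^ (F.N - F.σ.length)
/-- Number of slots of an epoch. -/
def slots (F : Fr) : ℕ := 2 ^ (F.q + 6 + (F.N - F.σ.length))
/-- Mass exponent of a slot. -/
def cb (F : Fr) : ℕ := F.b + F.k + (F.q + 6 + (F.N - F.σ.length))
/-- Base exponent of the pins. -/
def h (F : Fr) : ℕ := F.b + F.q + 7
/-- The slack handled by the frame. -/
def e (F : Fr) : ℕ := (Nat.unpair F.m).1
/-- The current kid. -/
def kid (F : Fr) : Str := kidS F.σ F.N F.t
/-- The cells. -/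
def cell (F : Fr) (i : ℕ) : Str := (allS F.k).getD i []
/-- Number of raises of cell `i`. -/
def rc (F : Fr) (i : ℕ) : ℕ := (F.rl.filter fun j => decide (j = i)).length
/-- Number of waves made for emission `j`. -/
def cnt (F : Fr) (j : ℕ) : ℕ := (F.wv.filter fun w => decide (w.1 = j)).length
/-- The pin of cell `i` after `c` raises. -/
def pin (F : Fr) (i c : ℕ) : Rq := (F.cell i, F.k + 1 + i, F.k + 1 + i + F.h - c)
/-- First free level after the frame was made. -/
def fresh (F : Fr) : ℕ := F.N + F.cb + 2 * F.q + 20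
/-- The frame with the next slot. -/
def next (F : Fr) : Fr := { F with t := F.t + 1 }

end Fr

/-- Logarithm of the width. -/
def lB (e : ℕ) : ℕ := e + 6 + 2 ^ (2 * e + 12)

section machine

variable (kl : Str × ℕ → ℕ → Bool) (D : Lab)

/-- All requests below `ζ` up to the length of `y` are met by `y` with slack `e` at stage `s`. -/
def valid (s : ℕ) (req : List Rq) (e : ℕ) (y ζ : Str) : Bool :=
  req.all fun r => decide (y.length < r.2.1) || !decide (ζ.take r.1.length = r.1) ||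
    kl (y.take r.2.1, r.2.2 + e) s

/-- `y` has many valid cells. -/
def wide (s : ℕ) (req : List Rq) (F : Fr) (y : Str) : Bool :=
  decide (2 ^ lB F.e ≤
    ((List.range (2 ^ F.k)).filter fun i => valid kl s req F.e y (F.cell i)).length)

/-- Cell `i` is valid for many kids. -/
def ovr (s : ℕ) (req : List Rq) (F : Fr) (i : ℕ) : Bool :=
  decide (2 ^ (F.e + 6 + 2 ^ F.k) ≤
    ((zsL F.σ F.N).filter fun y => valid kl s req F.e y (F.cell i)).length)

/-- The cells attacked from `y`. -/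
def chosen (s : ℕ) (req : List Rq) (F : Fr) (y : Str) : List ℕ :=
  ((List.range (2 ^ F.k)).filter fun i =>
    valid kl s req F.e y (F.cell i) && !ovr kl s req F i).take (2 ^ lB F.e)

/-- Half of the kids are wide. -/
def trig (s : ℕ) (req : List Rq) (F : Fr) : Bool :=
  decide (F.S ≤ 2 * ((zsL F.σ F.N).filter fun y => wide kl s req F y).length)

/-- All frames of block `m` have a wide kid. -/
def allW (s : ℕ) (req : List Rq) (fs : List Fr) (m : ℕ) : Bool :=
  fs.all fun G => !decide (G.m = m) || wide kl s req G G.kid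

/-- The epoch of `F` ends. -/
def fin (s : ℕ) (req : List Rq) (F : Fr) : Bool := decide (F.slots ≤ F.t) || trig kl s req F

/-- The head of `fs` acts. -/
def act (s : ℕ) (req : List Rq) (fs : List Fr) : Bool :=
  fin kl s req (fs.getD 0 default) ||
    (decide ((fs.getD 0 default).rem = 1) && allW kl s req fs (fs.getD 0 default).m)

/-- The pairs attacked at the end of the epoch. -/
def pairs (s : ℕ) (req : List Rq) (F : Fr) : List (Str × Str) :=
  cond (trig kl s req F && decide (F.t + 1 < F.slots))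
    (((zsL F.σ F.N).filter fun y => wide kl s req F y).flatMap fun y =>
      (chosen kl s req F y).map fun i => (y, F.cell i)) []

/-- Iterated window ends. -/
def itE (j n : ℕ) : ℕ := nrec j n fun _ a => nEnd a

/-- Value exponent of the emissions at the end of the epoch. -/
def Fr.wA (F : Fr) : ℕ :=
  3 + F.cb + lB F.e + (F.N - F.σ.length) - Nat.log 2 (F.slots - (F.t + 1))

/-- The new emissions. -/
def newEm (s : ℕ) (st : MS) (F : Fr) : List Emi :=
  (List.range (pairs kl s st.req F).length).map fun j =>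
    ⟨F.e, ((pairs kl s st.req F).getD j ([], [])).1, ((pairs kl s st.req F).getD j ([], [])).2,
      F.wA, itE j st.n⟩

/-- Cost exponent of a wave. -/
def lc (x : Emi) : ℕ := 2 * x.n + x.A + 5 * jT x.n

/-- Scaled flow from `ρ` into `H` at level `l`. -/
def wN (L : List Emi) (e l : ℕ) (ρ : Str) (H : List Str) : ℕ :=
  (L.map fun y => cond (decide (y.e = e) && decide (y.own.take l = ρ) &&
    H.any fun τ => decide (y.root.take l = τ)) (2 ^ ((L.map fun y => y.A).sum - y.A)) 0).sum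

/-- The test for a wave `(l, H, d)` for emission number `j`, which is `x`, against the list `L` of
the emissions of the epoch. -/
def wtest (F : Fr) (L : List Emi) (j : ℕ) (x : Emi) (w : ℕ × List Str × ℕ) : Bool :=
  !(F.wv.any fun p => decide (p = (j, w.1))) && decide (lc x ≤ w.2.2 + 2 * jT x.n) &&
    decide (w.2.1.length * 2 ^ lc x ≤ 2 ^ (w.1 + w.2.2)) &&
    decide (2 ^ (w.2.2 + w.1 + 3 * x.n + (L.map fun y => y.A).sum) ≤ 2 ^ (lc x + 3) *
      ((allS w.1).map fun ρ => min (2 ^ ((L.map fun y => y.A).sum + 3))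
        (2 ^ (2 * jT x.n + (3 + F.b + F.k + F.q) + w.1 + 3 * x.n) * wN L x.e w.1 ρ w.2.1)).sum)

/-- All conceivable waves for `x`. -/
def cands (x : Emi) : List (ℕ × List Str × ℕ) :=
  (List.range (nC x.n - x.n)).flatMap fun a => (subs (zsL x.root (x.n + a))).flatMap fun H =>
    (List.range (lc x + jT x.n + 1)).map fun d => (x.n + a, H, d)

/-- The waves at the end of the epoch; `em` is the new list of emissions. -/
def waves (em : List Emi) (F : Fr) : List (ℕ × ℕ × List Str × ℕ) :=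
  (List.range (F.i1 - F.i0)).flatMap fun a =>
    cond (decide (F.cnt (F.i0 + a) < 2 ^ (5 * jT (em.getD (F.i0 + a) default).n)))
      ((((cands (em.getD (F.i0 + a) default)).filter
        (wtest F (em.drop F.iE) (F.i0 + a) (em.getD (F.i0 + a) default))).take 1).map
          fun w => (F.i0 + a, w)) []

/-- The requests of a list of waves. -/
def waveRq (ws : List (ℕ × ℕ × List Str × ℕ)) : List Rq :=
  ws.flatMap fun w => w.2.2.1.map fun τ => (τ, w.2.1, w.2.1 + w.2.2.2)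

/-- The cells that are raised. -/
def overs (s : ℕ) (req : List Rq) (F : Fr) : List ℕ :=
  (List.range (2 ^ F.k)).filter fun i => ovr kl s req F i

/-- Move the head of the stack to its next slot. -/
def bump (ps : List Fr) : List Fr := (ps.take 1).map Fr.next ++ ps.drop 1

/-- End of the epoch of `F`, whose parents are `ps`. -/
def endEp (s : ℕ) (st : MS) (F : Fr) (ps : List Fr) : MS where
  n := itE (pairs kl s st.req F).length st.n
  req := st.req ++ ((newEm kl s st F).flatMap (design D) ++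
    (waveRq (waves (st.em ++ newEm kl s st F) F) ++
      (overs kl s st.req F).map fun i => F.pin i (F.rc i + 1)))
  em := st.em ++ newEm kl s st F
  fs := cond (decide (F.J + 1 < 2 ^ F.k))
    ({ F with
        J := F.J + 1
        t := 0
        iE := (st.em ++ newEm kl s st F).length
        rl := F.rl ++ overs kl s st.req F
        wv := F.wv ++ (waves (st.em ++ newEm kl s st F) F).map fun w => (w.1, w.2.1) } :: ps)
    (bump ps)

/-- The child of `F`. -/
def child (st : MS) (F : Fr) : Fr where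
  σ := F.kid
  k := st.n
  b := F.cb
  q := F.q + 1
  m := cond (decide (F.rem = 1)) (F.m + 1) F.m
  rem := cond (decide (F.rem = 1)) (F.q + 5) (F.rem - 1)
  J := 0
  t := 0
  i0 := F.iE
  i1 := st.em.length
  iE := st.em.length
  rl := []
  wv := []

/-- The first pins of a frame. -/
def pins (F : Fr) : List Rq := (List.range (2 ^ F.k)).map fun i => F.pin i 0

/-- Push the child of the top frame. -/
def push (st : MS) : MS where
  n := (child st (st.fs.getD 0 default)).fresh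
  req := st.req ++ pins (child st (st.fs.getD 0 default))
  em := st.em
  fs := child st (st.fs.getD 0 default) :: st.fs

/-- The largest `i < n` with `p i`. -/
def lastIdx (p : ℕ → Bool) (n : ℕ) : Option ℕ := nrec n none fun i o => cond (p i) (some i) o

/-- One step of the machine. -/
def step (s : ℕ) (st : MS) : MS :=
  (lastIdx (fun i => act kl s st.req (st.fs.drop i)) st.fs.length).elim (push st) fun i =>
    cond (fin kl s st.req (st.fs.getD i default))
      (endEp kl D s st (st.fs.getD i default) (st.fs.drop (i + 1)))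
      { st with fs := bump (st.fs.drop i) }

/-- The first frame. -/
def root : Fr := ⟨[], 20, 0, 0, 0, 4, 0, 0, 0, 0, 0, [], []⟩

/-- The run of the machine. -/
def run (s : ℕ) : MS := nrec s ⟨root.fresh, pins root, [], [root]⟩ fun s st => step kl D s st

end machine

/-- Cost of a request. -/
noncomputable def rcost (r : Rq) : ℝ := 2 ^ (r.2.1 - r.1.length) * 2⁻¹ ^ r.2.2

/-- Monotone approximation of `K` from above. -/
structure Appr (K : Str → ℕ) (kl : Str × ℕ → ℕ → Bool) : Prop where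
  mono : ∀ a s t, s ≤ t → kl a s = true → kl a t = true
  iff : ∀ a : Str × ℕ, K a.1 ≤ a.2 ↔ ∃ s, kl a s = true

/-- Routes of `F` that have paid the first pin and are blocked by a request. -/
noncomputable def Blk (K : Str → ℕ) (req : List Rq) (F : Fr) (e : ℕ) : Finset (Str × ℕ) :=
  (Zs F.σ F.N ×ˢ range (2 ^ F.k)).filter fun p =>
    K (p.1.take (F.k + 1 + p.2)) ≤ F.k + 1 + p.2 + F.h + e ∧
      ∃ r ∈ req, r.2.1 ≤ F.N ∧ r.1 <+: F.cell p.2 ∧ r.2.2 + e < K (p.1.take r.2.1)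

/-! ### Structural invariants -/

/-- Emission number `j`. -/
def MS.ex (st : MS) (j : ℕ) : Emi := st.em.getD j default

/-- Structural facts about a frame. -/
structure FrWF (st : MS) (F : Fr) : Prop where
  lo : F.σ.length + F.b + 2 * F.q + 18 ≤ F.k
  fr : F.fresh ≤ st.n
  mq : F.m ≤ F.q
  rem : 1 ≤ F.rem
  J : F.J < 2 ^ F.k
  t : F.t ≤ F.slots
  i01 : F.i0 ≤ F.i1
  i1E : F.i1 ≤ F.iE
  iE : F.iE ≤ st.em.length
  old : ∀ j < F.i1, nEnd (st.ex j).n ≤ F.k
  mid : ∀ j, F.i0 ≤ j → j < st.em.length → F.σ.length + F.b + 2 * F.q + 18 ≤ (st.ex j).n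
  new : ∀ j, F.i1 ≤ j → j < st.em.length → F.fresh ≤ (st.ex j).n ∧ F.σ <+: (st.ex j).own ∧
    F.N ≤ (st.ex j).own.length ∧ F.k ≤ (st.ex j).root.length
  pin0 : ∀ i < 2 ^ F.k, F.pin i 0 ∈ st.req
  pinc : ∀ i < 2 ^ F.k, F.pin i (F.rc i) ∈ st.req
  nd : F.wv.Nodup
  wv : ∀ w ∈ F.wv, F.i0 ≤ w.1 ∧ w.1 < F.i1 ∧ (st.ex w.1).n ≤ w.2 ∧ w.2 < nC (st.ex w.1).n
  cnt : ∀ j, F.i0 ≤ j → j < F.i1 → F.cnt j ≤ 2 ^ (5 * jT (st.ex j).n)

/-- `c` is the child of `F`. -/
structure LinkWF (c F : Fr) : Prop where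
  t : F.t < F.slots
  σ : c.σ = F.kid
  b : c.b = F.cb
  q : c.q = F.q + 1
  m : c.m = if F.rem = 1 then F.m + 1 else F.m
  rem : c.rem = if F.rem = 1 then F.q + 5 else F.rem - 1
  i0 : c.i0 = F.iE
  k : F.fresh ≤ c.k

/-- Structural facts about a state. -/
structure WF (D : Lab) (st : MS) : Prop where
  ems : ∀ j < st.em.length, 20 ≤ (st.ex j).n ∧ (st.ex j).root.length ≤ (st.ex j).n ∧
    (st.ex j).e ≤ (st.ex j).n ∧ nEnd (st.ex j).n ≤ st.n ∧ ∀ r ∈ design D (st.ex j), r ∈ st.req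
  ord : ∀ i j, i < j → j < st.em.length → nEnd (st.ex i).n ≤ (st.ex j).n
  rq : ∀ r ∈ st.req, r.1.length ≤ r.2.1
  frs : ∀ F ∈ st.fs, FrWF st F
  chain : st.fs.IsChain LinkWF
  root : ∀ F ∈ st.fs.getLast?, F.σ = [] ∧ F.k = 20 ∧ F.b = 0 ∧ F.q = 0 ∧ F.m = 0 ∧ F.rem = 4 ∧
    F.i0 = 0 ∧ F.i1 = 0

/-- `X` lists the emissions of `st`. -/
def Agree (X : ℕ → Emi) (st : MS) : Prop := ∀ j < st.em.length, st.ex j = X j

/-- Raised pins have been paid. -/
def RCok (K : Str → ℕ) (F : Fr) : Prop :=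
  ∀ i < 2 ^ F.k, F.rc i = 0 ∨
    (32 : ℝ) * 2 ^ F.rc i * 2⁻¹ ^ (F.h + F.k) ≤ PayL K [] (F.k + 1 + i)

/-- Budget reserved for a frame, without its current slot. -/
noncomputable def budT (K : Str → ℕ) (X : ℕ → Emi) (F : Fr) : ℝ :=
  (∑ i ∈ range (2 ^ F.k), PayL K [] (F.k + 1 + i)) / 16 + 2 * 2⁻¹ ^ F.h -
    ∑ i ∈ range (2 ^ F.k), (2 : ℝ) * 2 ^ F.rc i * 2⁻¹ ^ (F.h + F.k) +
    2⁻¹ ^ (3 + F.cb) * (1 + 2⁻¹ ^ (F.q + 1)) * ((2 ^ F.k - F.J) * F.slots - F.t - 1) +
    ∑ j ∈ Ico F.i0 F.i1, ((2 : ℝ) ^ (5 * jT (X j).n) - F.cnt j) * 2⁻¹ ^ lc (X j)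

/-- The cost invariant. -/
def CostInv (K : Str → ℕ) (X : ℕ → Emi) (st : MS) : Prop :=
  (st.req.map rcost).sum + (st.fs.map (budT K X)).sum +
      2⁻¹ ^ (3 + (st.fs.getD 0 default).cb) * (1 + 2⁻¹ ^ ((st.fs.getD 0 default).q + 1)) ≤
    1 / 4 + (∑ l ∈ range st.n, PayL K [] l) / 16

/-- Value lost at cell `i` if it is valid for many kids. -/
noncomputable def lostC (K : Str → ℕ) (F : Fr) (i : ℕ) : ℝ :=
  2 ^ (F.σ.length + F.e + F.h) * 2⁻¹ ^ (3 + F.b + F.k + lB F.e) * PayL K [] (F.k + 1 + i)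

/-! ### Codings -/

/-- Emissions as tuples. -/
def Emi.eqv : Emi ≃ ℕ × Str × Str × ℕ × ℕ where
  toFun x := (x.e, x.own, x.root, x.A, x.n)
  invFun p := ⟨p.1, p.2.1, p.2.2.1, p.2.2.2.1, p.2.2.2.2⟩
  left_inv _ := rfl
  right_inv _ := rfl

/-- Frames as tuples. -/
def Fr.eqv : Fr ≃ (Str × ℕ × ℕ × ℕ) × (ℕ × ℕ × ℕ × ℕ) × (ℕ × ℕ × ℕ) × List ℕ × List (ℕ × ℕ) where
  toFun F := ((F.σ, F.k, F.b, F.q), (F.m, F.rem, F.J, F.t), (F.i0, F.i1, F.iE), F.rl, F.wv)
  invFun p := ⟨p.1.1, p.1.2.1, p.1.2.2.1, p.1.2.2.2, p.2.1.1, p.2.1.2.1, p.2.1.2.2.1, p.2.1.2.2.2,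
    p.2.2.1.1, p.2.2.1.2.1, p.2.2.1.2.2, p.2.2.2.1, p.2.2.2.2⟩
  left_inv _ := rfl
  right_inv _ := rfl

instance : Primcodable Emi := Primcodable.ofEquiv _ Emi.eqv
instance : Primcodable Fr := Primcodable.ofEquiv _ Fr.eqv

/-- States as tuples. -/
def MS.eqv : MS ≃ ℕ × List Rq × List Emi × List Fr where
  toFun s := (s.n, s.req, s.em, s.fs)
  invFun p := ⟨p.1, p.2.1, p.2.2.1, p.2.2.2⟩
  left_inv _ := rfl
  right_inv _ := rfl

instance : Primcodable MS := Primcodable.ofEquiv _ MS.eqv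
instance : Rep Emi := ⟨fun a => nm (Emi.eqv a)⟩
instance : Rep Fr := ⟨fun a => nm (Fr.eqv a)⟩
instance : Rep MS := ⟨fun a => nm (MS.eqv a)⟩

theorem disc_eqv {Y Z : Type} [Rep Z] [Primcodable Z] [Disc Z] (E : Y ≃ Z) :
    @Disc Y ⟨fun a => nm (E a)⟩ (Primcodable.ofEquiv _ E) := by
  let _ : Rep Y := ⟨fun a => nm (E a)⟩
  let _ : Primcodable Y := Primcodable.ofEquiv _ E
  have h1 : TD fun a : Y => E a := C1.orc (X := Y)
  obtain ⟨d, hd, hd'⟩ := Disc.dec (Y := Z)
  refine ⟨(Disc.enc (Y := Z)).comp' h1, fun n => E.symm (d n), ?_, fun y => ?_⟩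
  · exact C1.of_eq hd fun n m => by
      change _ = nm (E (E.symm (d n))) m
      rw [E.apply_symm_apply]
  · change E.symm (d (Encodable.encode (E y))) = y
    rw [hd', E.symm_apply_apply]

instance : Disc Emi := disc_eqv Emi.eqv
instance : Disc Fr := disc_eqv Fr.eqv
instance : Disc MS := disc_eqv MS.eqv

end Pool.Agent.Lib.MP_848037_lc.Neg
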