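import Pool.Agent.Lib.MP_848037_lc.NBasic

/-!
Limit computable sequences do not have maximal complexity infinitely often.
-/

set_option autoImplicit false

namespace Pool.Agent.Lib.MP_848037_lc.Neg

open Finset Pool.Agent.Shared.Type2

namespace NDelta

/-- The test for the requests. -/
def test (k1 : Str × ℕ → ℕ → Bool) (a : ℕ → ℕ → Bool) (p : Str × ℕ) (s : ℕ) : Bool :=
  (List.range (p.1.length + 1)).any fun k => (List.range (p.2 + 1)).any fun j =>
    decide (2 * k ≤ p.1.length) && decide (p.2 + k = p.1.length + j + 2) &&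
      decide (p.1.length ≤ s) && k1 (List.replicate p.1.length false, j) s &&
      ((List.range s).all fun t =>
        !(decide (p.1.length ≤ t) && k1 (List.replicate p.1.length false, j) t)) &&
      decide (p.1.take (2 * k) = (List.range (2 * k)).map fun i => a s i)

theorem td_test {k1 : Str × ℕ → ℕ → Bool} {a : ℕ → ℕ → Bool}
    (h1 : TD fun q : (Str × ℕ) × ℕ => k1 q.1 q.2) (h2 : TD fun q : ℕ × ℕ => a q.1 q.2) :
    TD fun q : (Str × ℕ) × ℕ => test k1 a q.1 q.2 := by
  unfold test
  fun_prop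

theorem test_iff {k1 : Str × ℕ → ℕ → Bool} {a : ℕ → ℕ → Bool} {τ : Str} {m s : ℕ} :
    test k1 a (τ, m) s = true ↔ ∃ k j, 2 * k ≤ τ.length ∧ m + k = τ.length + j + 2 ∧
      (τ.length ≤ s ∧ k1 (List.replicate τ.length false, j) s = true) ∧
      (∀ t < s, ¬ (τ.length ≤ t ∧ k1 (List.replicate τ.length false, j) t = true)) ∧
      τ.take (2 * k) = (List.range (2 * k)).map fun i => a s i := by
  simp only [test, List.any_eq_true, List.mem_range, Bool.and_eq_true, decide_eq_true_eq,
    List.all_eq_true, Bool.not_eq_true', Bool.and_eq_false_iff, decide_eq_false_iff_not]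
  constructor
  · rintro ⟨k, -, j, -, ⟨⟨⟨⟨b1, b2⟩, b3⟩, b4⟩, b5⟩, b6⟩
    refine ⟨k, j, b1, b2, ⟨b3, b4⟩, fun t ht h => ?_, b6⟩
    rcases b5 t ht with c | c
    · exact c h.1
    · rw [h.2] at c; exact absurd c (by simp)
  · rintro ⟨k, j, b1, b2, ⟨b3, b4⟩, b5, b6⟩
    refine ⟨k, by omega, j, by omega, ⟨⟨⟨⟨b1, b2⟩, b3⟩, b4⟩, fun t ht => ?_⟩, b6⟩
    by_cases c : τ.length ≤ t
    · exact Or.inr (Bool.eq_false_iff.2 fun h => b5 t ht ⟨c, h⟩)
    · exact Or.inl c

/-- The first stage from `n` on at which the bound `j` is seen. -/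
noncomputable def st (k1 : Str × ℕ → ℕ → Bool) (n j : ℕ) : ℕ :=
  sInf {s | n ≤ s ∧ k1 (List.replicate n false, j) s = true}

theorem geo : ∑' k : ℕ, (2⁻¹ : ENNReal) ^ (k + 1) = 1 := by
  simp only [pow_succ, ENNReal.tsum_mul_right, ENNReal.tsum_geometric, ENNReal.one_sub_inv_two,
    inv_inv]
  exact ENNReal.mul_inv_cancel (by simp) (by simp)

theorem weight {K : Str → ℕ} (hK : IsK K) :
    ∑' p : ℕ × ℕ × Str, (2⁻¹ : ENNReal) ^ (p.1 + p.2.2.length +
      (K (List.replicate (2 * p.1 + p.2.2.length) false) + p.2.1) + 2) ≤ 1 := by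
  have h1 : ∀ k : ℕ, ∑' θ : Str, (2⁻¹ : ENNReal) ^ θ.length *
      2⁻¹ ^ K (List.replicate (2 * k + θ.length) false) ≤ 1 := fun k => by
    rw [tsum_len fun i => 2⁻¹ ^ K (List.replicate (2 * k + i) false)]
    refine le_trans ?_ hK.kraft
    exact ENNReal.tsum_comp_le_tsum_of_injective
      (f := fun i => List.replicate (2 * k + i) false)
      (fun a b h => by simpa using congrArg List.length h) fun σ => 2⁻¹ ^ K σ
  rw [ENNReal.tsum_prod', ← geo]
  refine ENNReal.tsum_le_tsum fun k => ?_
  rw [ENNReal.tsum_prod', ← mul_one (2⁻¹ ^ (k + 1)), ← geo, ← ENNReal.tsum_mul_left]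
  refine ENNReal.tsum_le_tsum fun i => ?_
  have h2 : ∀ θ : Str, (2⁻¹ : ENNReal) ^ (k + θ.length +
      (K (List.replicate (2 * k + θ.length) false) + i) + 2) =
      2⁻¹ ^ (k + 1) * 2⁻¹ ^ (i + 1) * (2⁻¹ ^ θ.length *
        2⁻¹ ^ K (List.replicate (2 * k + θ.length) false)) := fun θ => by
    rw [← pow_add, ← pow_add, ← pow_add]
    congr 1
    omega
  simp only [h2]
  rw [ENNReal.tsum_mul_left]
  exact mul_le_of_le_one_right' (h1 k)

end NDelta

open NDelta in
theorem delta2_not_max {K : Str → ℕ} (hK : IsK K) (x : ℕ → Bool) (a : ℕ → ℕ → Bool)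
    (ha : Computable₂ a) (hx : ∀ i, ∃ s0, ∀ s ≥ s0, a s i = x i) :
    ¬ ∃ C : ℕ, ∀ N : ℕ, ∃ n ≥ N, K (List.replicate n false) + n ≤ K (xs x n) + C := by
  classical
  rintro ⟨C, hC⟩
  obtain ⟨k1, a1, a2, a3⟩ := re_approx hK.re
  have h2 : TD fun q : ℕ × ℕ => a q.1 q.2 := TD.of_computable ha
  let T : ℕ × ℕ × Str → Str := fun p => ((List.range (2 * p.1)).map fun i =>
    a (st k1 (2 * p.1 + p.2.2.length)
      (K (List.replicate (2 * p.1 + p.2.2.length) false) + p.2.1)) i) ++ p.2.2
  let w : ℕ × ℕ × Str → ENNReal := fun p => (2⁻¹ : ENNReal) ^ (p.1 + p.2.2.length +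
      (K (List.replicate (2 * p.1 + p.2.2.length) false) + p.2.1) + 2)
  obtain ⟨c, hc⟩ := hK.req (R := fun p => ∃ s, test k1 a p s = true)
    (re_of_test (td_test a1 h2) fun _ => Iff.rfl)
    (fun τ => ∑' p, if T p = τ then w p else 0) (by
      rintro τ m ⟨s, hs⟩
      obtain ⟨k, j, b1, b2, b3, b4, b5⟩ := test_iff.1 hs
      have c1 : K (List.replicate τ.length false) ≤ j := (a3 (_, j)).2 ⟨s, b3.2⟩
      have c2 : st k1 τ.length j = s := by
        refine le_antisymm (Nat.sInf_le b3) (not_lt.1 fun h => b4 _ h ?_)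
        exact Nat.sInf_mem (s := {s | τ.length ≤ s ∧
          k1 (List.replicate τ.length false, j) s = true}) ⟨s, b3⟩
      have c3 : 2 * k + (τ.drop (2 * k)).length = τ.length := by
        rw [List.length_drop]; omega
      have c4 : K (List.replicate τ.length false) + (j - K (List.replicate τ.length false)) = j :=
        by omega
      refine le_trans ?_ (ENNReal.le_tsum
        (k, j - K (List.replicate τ.length false), τ.drop (2 * k)))
      have c5 : T (k, j - K (List.replicate τ.length false), τ.drop (2 * k)) = τ := by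
        simp only [T, c3, c4, c2]
        rw [← b5, List.take_append_drop]
      rw [if_pos c5]
      simp only [w, c3, c4]
      exact half_anti (by omega)) (by
      rw [ENNReal.tsum_comm]
      refine le_trans (le_of_eq (tsum_congr fun p => ?_)) (weight hK)
      simp only [eq_comm (a := T p)]
      exact tsum_ite_eq _ _)
  choose s0 hs0 using hx
  obtain ⟨n, hn, h⟩ := hC (2 * (c + C + 3) + ∑ i ∈ range (2 * (c + C + 3)), s0 i)
  obtain ⟨s1, hs1⟩ := (a3 (List.replicate n false, K (List.replicate n false))).1 le_rfl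
  have hne : {s | n ≤ s ∧
      k1 (List.replicate n false, K (List.replicate n false)) s = true}.Nonempty :=
    ⟨max n s1, le_max_left _ _, a2 _ _ _ (le_max_right _ _) hs1⟩
  have hm := Nat.sInf_mem hne
  have h3 := hc (xs x n) (n + K (List.replicate n false) + 2 - (c + C + 3))
    ⟨st k1 n (K (List.replicate n false)), test_iff.2 ⟨c + C + 3, K (List.replicate n false),
      by rw [length_xs]; omega, by rw [length_xs]; omega, by rw [length_xs]; exact hm,
      by rw [length_xs]; exact fun t ht => Nat.notMem_of_lt_sInf ht, by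
        rw [xs_take x (by omega)]
        refine List.ext_getElem (by simp) fun i hi _ => ?_
        have hi' : i < 2 * (c + C + 3) := by simpa using hi
        have d1 : s0 i ≤ ∑ i ∈ range (2 * (c + C + 3)), s0 i :=
          single_le_sum (f := s0) (fun _ _ => Nat.zero_le _) (mem_range.2 hi')
        have d2 : n ≤ st k1 n (K (List.replicate n false)) := hm.1
        simp only [xs, List.getElem_ofFn, List.getElem_map, List.getElem_range]
        exact (hs0 i _ (by omega)).symm⟩⟩
  omega

end Pool.Agent.Lib.MP_848037_lc.Neg
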