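import Pool.Agent.Lib.MP_848037_lc.NBasic

/-!
A computable label system with the design property: the property is decided by a finite test, and
the first coded labeling that passes the test is taken.
-/

set_option autoImplicit false

namespace Pool.Agent.Lib.MP_848037_lc.Neg

open Finset Pool.Agent.Shared.Type2

namespace NDesign

/-- All sublists of a list of triples. -/
def subT (l : List (ℕ × Str × Str)) : List (List (ℕ × Str × Str)) :=
  l.foldr (fun a acc => acc ++ acc.map fun S => a :: S) [[]]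

theorem subT_eq (l : List (ℕ × Str × Str)) : subT l = l.sublists' := by
  induction l with
  | nil => rfl
  | cons a l ih => rw [List.sublists'_cons, ← ih]; rfl

/-- All edges at level `l`. -/
def pl (ζ : Str) (l : ℕ) : List (Str × Str) :=
  (allS l).flatMap fun ρ => (zsL ζ l).map fun τ => (ρ, τ)

theorem mem_pl {ζ : Str} {l : ℕ} (h : ζ.length ≤ l) {p : Str × Str} :
    p ∈ pl ζ l ↔ p ∈ Om l ×ˢ Zs ζ l := by
  obtain ⟨ρ, τ⟩ := p
  simp only [pl, List.mem_flatMap, List.mem_map, mem_allS, mem_zsL h, mem_product, mem_Om,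
    Prod.mk.injEq]
  constructor
  · rintro ⟨a, ha, b, hb, rfl, rfl⟩
    exact ⟨ha, hb⟩
  · rintro ⟨ha, hb⟩
    exact ⟨ρ, ha, τ, hb, rfl, rfl⟩

theorem nodup_pl (ζ : Str) (l : ℕ) : (pl ζ l).Nodup :=
  (nodup_allS l).product (nodup_zsL ζ l)

/-- All edges at all levels of a chain. -/
def pool (n : ℕ) (ζ : Str) (l : ℕ) : List (ℕ × Str × Str) :=
  (List.range (mm n + 1)).flatMap fun r => (pl ζ (l - so n r)).map fun p => (r, p)

theorem mem_pool {n : ℕ} {ζ : Str} {l r : ℕ} {p : Str × Str} :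
    (r, p) ∈ pool n ζ l ↔ r ≤ mm n ∧ p ∈ pl ζ (l - so n r) := by
  simp only [pool, List.mem_flatMap, List.mem_map, List.mem_range, Prod.mk.injEq]
  constructor
  · rintro ⟨a, ha, b, hb, rfl, rfl⟩
    exact ⟨by omega, hb⟩
  · rintro ⟨ha, hb⟩
    exact ⟨r, by omega, p, hb, rfl, rfl⟩

/-- Membership as a test. -/
def mB {α : Type} [DecidableEq α] (L : List α) (a : α) : Bool := L.any fun b => decide (b = a)

theorem mB_iff {α : Type} [DecidableEq α] {L : List α} {a : α} : mB L a = true ↔ a ∈ L := by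
  simp [mB]

/-- The edges of layer `r` that are listed in `T`. -/
def sl (n : ℕ) (ζ : Str) (l : ℕ) (T : List (ℕ × Str × Str)) (r : ℕ) : List (Str × Str) :=
  (pl ζ (l - so n r)).filter fun p => mB T (r, p)

theorem mem_sl {n : ℕ} {ζ : Str} {l r : ℕ} {T : List (ℕ × Str × Str)} {p : Str × Str} :
    p ∈ sl n ζ l T r ↔ p ∈ pl ζ (l - so n r) ∧ (r, p) ∈ T := by
  simp only [sl, List.mem_filter, mB_iff]

theorem nodup_sl (n : ℕ) (ζ : Str) (l : ℕ) (T : List (ℕ × Str × Str)) (r : ℕ) :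
    (sl n ζ l T r).Nodup := (nodup_pl _ _).filter _

/-- The list form of `earl`. -/
def earlL (L : List (Str × Str)) (Z : List Str) (τ : Str) : List Str :=
  Z.filter fun τ' => decide (Encodable.encode τ' < Encodable.encode τ) &&
    L.any fun p => decide (p.2 = τ) && mB L (p.1, τ')

theorem earl_eq {L : List (Str × Str)} {Z : List Str} (h : ∀ p ∈ L, p.2 ∈ Z) (τ : Str) :
    earl L.toFinset τ = (earlL L Z τ).toFinset := by
  ext τ'
  simp only [earl, earlL, mem_filter, mem_image, List.mem_toFinset, List.mem_filter,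
    Bool.and_eq_true, decide_eq_true_eq, List.any_eq_true, mB_iff]
  constructor
  · rintro ⟨-, h1, ρ, -, h2, h3⟩
    exact ⟨h _ h3, h1, (ρ, τ), h2, rfl, h3⟩
  · rintro ⟨-, h1, ⟨ρ, τ0⟩, h2, rfl, h3⟩
    exact ⟨⟨_, h3, rfl⟩, h1, ρ, ⟨_, h2, rfl⟩, h2, h3⟩

theorem card_earl {L : List (Str × Str)} {Z : List Str} (h : ∀ p ∈ L, p.2 ∈ Z) (hZ : Z.Nodup)
    (τ : Str) : (earl L.toFinset τ).card = (earlL L Z τ).length := by
  rw [earl_eq h]
  exact List.toFinset_card_of_nodup (hZ.filter _)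

/-- The list form of `coin`. -/
def coinL (z : ℕ) (lab : Str → ℕ → ℕ) (L : List (Str × Str)) (Z : List Str) (τ : Str) : List ℕ :=
  (List.range (2 ^ z)).filter fun b => (earlL L Z τ).any fun τ' => decide (lab τ' b = lab τ b)

theorem card_coin {L : List (Str × Str)} {Z : List Str} (h : ∀ p ∈ L, p.2 ∈ Z) (n i : ℕ)
    (lab : Str → ℕ → ℕ) (τ : Str) :
    (coin n i lab L.toFinset τ).card = (coinL (zz n i) lab L Z τ).length := by
  rw [coinL, ← List.toFinset_card_of_nodup (List.nodup_range.filter _)]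
  congr 1
  ext b
  simp only [coin, earl_eq h, mem_filter, mem_range, List.mem_toFinset, List.mem_filter,
    List.mem_range, List.any_eq_true, decide_eq_true_eq]

/-- The hypotheses on the chain listed in `T`. -/
def hypB (n : ℕ) (ζ : Str) (i l : ℕ) (T : List (ℕ × Str × Str)) : Bool :=
  ((List.range (mm n + 1)).all fun r =>
      decide ((sl n ζ l T r).length ≤ 2 ^ (6 * n + r + (l - so n r - ζ.length)))) &&
    ((List.range (mm n)).all fun r => (sl n ζ l T r).all fun p =>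
      mB (sl n ζ l T (r + 1)) (p.1.take (l - so n (r + 1)), p.2.take (l - so n (r + 1)))) &&
    (zsL ζ l).all fun τ =>
      decide ((earlL (sl n ζ l T 0) (zsL ζ l) τ).length ≤ 2 ^ (6 * n + 2 * zz n i))

/-- The conclusion for the chain listed in `T`. -/
def conB (n : ℕ) (ζ : Str) (i l : ℕ) (lab : Str → ℕ → ℕ) (T : List (ℕ × Str × Str)) : Bool :=
  decide (2 ^ n * ((zsL ζ l).filter fun τ => decide (2 ^ zz n i ≤
    2 ^ n * (coinL (zz n i) lab (sl n ζ l T 0) (zsL ζ l) τ).length)).length ≤ 2 ^ (l - ζ.length))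

/-- The design property as a test. -/
def dpB (n : ℕ) (ζ : Str) (i l : ℕ) (lab : Str → ℕ → ℕ) : Bool :=
  (subT (pool n ζ l)).all fun T => !hypB n ζ i l T || conB n ζ i l lab T

section test

variable {n : ℕ} {ζ : Str} {i l : ℕ}

theorem sl_zero (hl : ζ.length ≤ l) (T : List (ℕ × Str × Str)) :
    ∀ p ∈ sl n ζ l T 0, p.2 ∈ zsL ζ l := fun p hp => by
  have h1 := (mem_sl.1 hp).1
  rw [so_zero, Nat.sub_zero, mem_pl hl] at h1
  exact (mem_zsL hl).2 (mem_product.1 h1).2

theorem hypB_iff (hl : ζ.length ≤ l) (T : List (ℕ × Str × Str)) :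
    hypB n ζ i l T = true ↔
      (∀ r ≤ mm n, (sl n ζ l T r).toFinset.card ≤ 2 ^ (6 * n + r + (l - so n r - ζ.length))) ∧
      (∀ r < mm n, ∀ p ∈ (sl n ζ l T r).toFinset,
        (p.1.take (l - so n (r + 1)), p.2.take (l - so n (r + 1))) ∈
          (sl n ζ l T (r + 1)).toFinset) ∧
      ∀ τ, (earl (sl n ζ l T 0).toFinset τ).card ≤ 2 ^ (6 * n + 2 * zz n i) := by
  simp only [hypB, Bool.and_eq_true, List.all_eq_true, List.mem_range, decide_eq_true_eq, mB_iff,
    List.mem_toFinset, List.toFinset_card_of_nodup (nodup_sl _ _ _ _ _), Nat.lt_succ_iff,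
    card_earl (sl_zero hl T) (nodup_zsL ζ l), and_assoc]
  refine and_congr_right fun _ => and_congr_right fun _ => ⟨fun h τ => ?_, fun h τ _ => h τ⟩
  by_cases hτ : τ ∈ zsL ζ l
  · exact h τ hτ
  · have : earlL (sl n ζ l T 0) (zsL ζ l) τ = [] := by
      rw [earlL, List.filter_eq_nil_iff]
      intro τ' _ h'
      simp only [Bool.and_eq_true, List.any_eq_true, decide_eq_true_eq] at h'
      obtain ⟨-, p, hp, rfl, -⟩ := h'
      exact hτ (sl_zero hl T p hp)
    simp [this]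

theorem conB_iff (hl : ζ.length ≤ l) (lab : Str → ℕ → ℕ) (T : List (ℕ × Str × Str)) :
    conB n ζ i l lab T = true ↔
      2 ^ n * ((Zs ζ l).filter fun τ =>
        2 ^ zz n i ≤ 2 ^ n * (coin n i lab (sl n ζ l T 0).toFinset τ).card).card ≤
          2 ^ (l - ζ.length) := by
  rw [conB, decide_eq_true_eq, ← List.toFinset_card_of_nodup ((nodup_zsL ζ l).filter _),
    List.toFinset_filter, toFinset_zsL hl]
  simp only [card_coin (sl_zero hl T), decide_eq_true_eq]

theorem dpB_iff (hζ : ∀ r ≤ mm n, ζ.length ≤ l - so n r) (lab : Str → ℕ → ℕ) :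
    dpB n ζ i l lab = true ↔ DP n ζ i l lab := by
  have hl : ζ.length ≤ l := (hζ 0 (Nat.zero_le _)).trans (Nat.sub_le _ _)
  simp only [dpB, List.all_eq_true, subT_eq, List.mem_sublists', Bool.or_eq_true,
    Bool.not_eq_true', ← Bool.not_eq_true]
  constructor
  · intro h E h1 h2 h3 h4
    have key : ∀ r ≤ mm n,
        (sl n ζ l ((pool n ζ l).filter fun t => decide (t.2 ∈ E t.1)) r).toFinset = E r := by
      intro r hr
      ext p
      simp only [List.mem_toFinset, mem_sl, List.mem_filter, mem_pool, decide_eq_true_eq]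
      exact ⟨fun h => h.2.2, fun h => by
        have := (mem_pl (hζ r hr)).2 (h1 r hr h)
        exact ⟨this, ⟨hr, this⟩, h⟩⟩
    have h5 := h ((pool n ζ l).filter fun t => decide (t.2 ∈ E t.1)) List.filter_sublist
    rw [conB_iff hl, key 0 (Nat.zero_le _), hypB_iff hl] at h5
    refine h5.resolve_left (not_not.2 ⟨fun r hr => ?_, fun r hr => ?_, ?_⟩)
    · rw [key r hr]; exact h2 r hr
    · rw [key r hr.le, key (r + 1) hr]; exact h3 r hr
    · rw [key 0 (Nat.zero_le _)]; exact h4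
  · intro h T _
    rw [conB_iff hl, hypB_iff hl]
    refine or_iff_not_imp_left.2 fun h' => ?_
    obtain ⟨h2, h3, h4⟩ := not_not.1 h'
    exact h (fun r => (sl n ζ l T r).toFinset)
      (fun r hr p hp => (mem_pl (hζ r hr)).1 (mem_sl.1 (List.mem_toFinset.1 hp)).1) h2 h3 h4

theorem dp_congr {lab lab' : Str → ℕ → ℕ}
    (h : ∀ τ ∈ Zs ζ l, ∀ b < 2 ^ zz n i, lab τ b = lab' τ b) (hd : DP n ζ i l lab) :
    DP n ζ i l lab' := by
  intro E h1 h2 h3 h4
  refine le_of_eq_of_le ?_ (hd E h1 h2 h3 h4)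
  congr 2
  refine filter_congr fun τ hτ => ?_
  have : coin n i lab' (E 0) τ = coin n i lab (E 0) τ := by
    refine filter_congr fun b hb => exists_congr fun τ' => and_congr_right fun hτ' => ?_
    obtain ⟨p, hp, rfl⟩ := mem_image.1 (mem_filter.1 hτ').1
    have h5 : p.2 ∈ Zs ζ l := (mem_product.1 (h1 0 (Nat.zero_le _) hp)).2
    rw [h _ h5 b (mem_range.1 hb), h _ hτ b (mem_range.1 hb)]
  rw [this]

end test

/-- The labeling with code `c`. -/
def labOf (c z : ℕ) (τ : Str) (b : ℕ) : ℕ :=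
  ((Encodable.decode c : Option (List ℕ)).getD []).getD (Nat.pair (Encodable.encode τ) b) 0 %
    2 ^ (3 * z)

theorem labOf_lt (c z : ℕ) (τ : Str) (b : ℕ) : labOf c z τ b < 2 ^ (3 * z) :=
  Nat.mod_lt _ (by positivity)

theorem exists_code (Z : Finset Str) (z : ℕ) {lab : Str → ℕ → ℕ}
    (h : ∀ τ b, lab τ b < 2 ^ (3 * z)) :
    ∃ c, ∀ τ ∈ Z, ∀ b < 2 ^ z, lab τ b = labOf c z τ b := by
  obtain ⟨M, hM⟩ := ((Z ×ˢ range (2 ^ z)).image fun p =>
    Nat.pair (Encodable.encode p.1) p.2).bddAbove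
  refine ⟨Encodable.encode ((List.range (M + 1)).map fun k =>
    lab ((Encodable.decode k.unpair.1 : Option Str).getD []) k.unpair.2), fun τ hτ b hb => ?_⟩
  have h1 : Nat.pair (Encodable.encode τ) b ≤ M :=
    hM (mem_coe.2 (mem_image.2 ⟨(τ, b), mem_product.2 ⟨hτ, mem_range.2 hb⟩, rfl⟩))
  rw [labOf, Encodable.encodek, Option.getD_some, List.getD_eq_getElem _ _ (by simp; omega)]
  simp [Nat.mod_eq_of_lt (h τ b)]

section td

variable {X : Type} [Rep X]

@[fun_prop] theorem td_zsL {f : X → Str} {g : X → ℕ} (hf : TD f) (hg : TD g) :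
    TD fun x => zsL (f x) (g x) := by
  unfold zsL; fun_prop

@[fun_prop] theorem td_tw {f g : X → ℕ} (hf : TD f) (hg : TD g) :
    TD fun x => tw (f x) (g x) := by
  unfold tw; fun_prop

@[fun_prop] theorem td_zz {f g : X → ℕ} (hf : TD f) (hg : TD g) :
    TD fun x => zz (f x) (g x) := by
  unfold zz; fun_prop

@[fun_prop] theorem td_so {f g : X → ℕ} (hf : TD f) (hg : TD g) :
    TD fun x => so (f x) (g x) := by
  unfold so; fun_prop

@[fun_prop] theorem td_mm {f : X → ℕ} (hf : TD f) : TD fun x => mm (f x) := by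
  unfold mm nT; fun_prop

@[fun_prop] theorem td_jT {f : X → ℕ} (hf : TD f) : TD fun x => jT (f x) := by
  unfold jT nT; fun_prop

@[fun_prop] theorem td_n0 {f : X → ℕ} (hf : TD f) : TD fun x => n0 (f x) := by
  unfold n0; fun_prop

@[fun_prop] theorem td_nEnd {f : X → ℕ} (hf : TD f) : TD fun x => nEnd (f x) := by
  unfold nEnd nC; fun_prop

@[fun_prop] theorem td_subT {f : X → List (ℕ × Str × Str)} (hf : TD f) :
    TD fun x => subT (f x) := by
  unfold subT; fun_prop

@[fun_prop] theorem td_pl {f : X → Str} {g : X → ℕ} (hf : TD f) (hg : TD g) :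
    TD fun x => pl (f x) (g x) := by
  unfold pl; fun_prop

@[fun_prop] theorem td_pool {n l : X → ℕ} {f : X → Str} (hn : TD n) (hf : TD f) (hl : TD l) :
    TD fun x => pool (n x) (f x) (l x) := by
  unfold pool; fun_prop

@[fun_prop] theorem td_mB {Y : Type} [DecidableEq Y] [Rep Y] [Primcodable Y] [Disc Y]
    {L : X → List Y} {a : X → Y} (hL : TD L) (ha : TD a) : TD fun x => mB (L x) (a x) := by
  unfold mB; fun_prop

@[fun_prop] theorem td_sl {n l r : X → ℕ} {f : X → Str} {T : X → List (ℕ × Str × Str)}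
    (hn : TD n) (hf : TD f) (hl : TD l) (hT : TD T) (hr : TD r) :
    TD fun x => sl (n x) (f x) (l x) (T x) (r x) := by
  unfold sl; fun_prop

@[fun_prop] theorem td_earlL {L : X → List (Str × Str)} {Z : X → List Str} {τ : X → Str}
    (hL : TD L) (hZ : TD Z) (hτ : TD τ) : TD fun x => earlL (L x) (Z x) (τ x) := by
  unfold earlL; fun_prop

@[fun_prop] theorem td_labOf {c z b : X → ℕ} {τ : X → Str} (hc : TD c) (hz : TD z) (hτ : TD τ)
    (hb : TD b) : TD fun x => labOf (c x) (z x) (τ x) (b x) := by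
  unfold labOf; fun_prop

@[fun_prop] theorem td_coinL {c z z' : X → ℕ} {L : X → List (Str × Str)} {Z : X → List Str}
    {τ : X → Str} (hc : TD c) (hz : TD z) (hz' : TD z') (hL : TD L) (hZ : TD Z) (hτ : TD τ) :
    TD fun x => coinL (z x) (labOf (c x) (z' x)) (L x) (Z x) (τ x) := by
  unfold coinL; fun_prop

@[fun_prop] theorem td_hypB {n i l : X → ℕ} {f : X → Str} {T : X → List (ℕ × Str × Str)}
    (hn : TD n) (hf : TD f) (hi : TD i) (hl : TD l) (hT : TD T) :
    TD fun x => hypB (n x) (f x) (i x) (l x) (T x) := by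
  unfold hypB; fun_prop

theorem td_conB {n i l c z : X → ℕ} {f : X → Str} {T : X → List (ℕ × Str × Str)}
    (hn : TD n) (hf : TD f) (hi : TD i) (hl : TD l) (hc : TD c) (hz : TD z) (hT : TD T) :
    TD fun x => conB (n x) (f x) (i x) (l x) (labOf (c x) (z x)) (T x) := by
  unfold conB
  refine TD.decide_le (TD.mul (by fun_prop) (TD.length (td_filter (by fun_prop)
    (TD.decide_le (by fun_prop) (TD.mul (by fun_prop) (TD.length ?_)))))) (by fun_prop)
  exact td_coinL (by fun_prop) (by fun_prop) (by fun_prop) (by fun_prop) (by fun_prop)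
    (by fun_prop)

theorem td_dpB {n i l c z : X → ℕ} {f : X → Str}
    (hn : TD n) (hf : TD f) (hi : TD i) (hl : TD l) (hc : TD c) (hz : TD z) :
    TD fun x => dpB (n x) (f x) (i x) (l x) (labOf (c x) (z x)) := by
  unfold dpB
  refine TD.all (by fun_prop) (TD.or' (by fun_prop) ?_)
  exact td_conB (by fun_prop) (by fun_prop) (by fun_prop) (by fun_prop) (by fun_prop)
    (by fun_prop) (by fun_prop)

end td

/-- The code `c` is acceptable for the parameters `p`. -/
def okB (p : ℕ × Str × ℕ × ℕ) (c : ℕ) : Bool :=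
  !(decide (20 ≤ p.1) && decide (p.2.1.length ≤ p.1) && decide (n0 p.1 ≤ p.2.2.2) &&
    decide (p.2.2.2 ≤ nEnd p.1)) || dpB p.1 p.2.1 p.2.2.1 p.2.2.2 (labOf c (zz p.1 p.2.2.1))

theorem td_okB : TD fun q : (ℕ × Str × ℕ × ℕ) × ℕ => okB q.1 q.2 := by
  unfold okB
  refine TD.or' (by fun_prop) ?_
  exact td_dpB (by fun_prop) (by fun_prop) (by fun_prop) (by fun_prop) (by fun_prop) (by fun_prop)

theorem okB_iff {n : ℕ} {ζ : Str} {i l c : ℕ} : okB (n, ζ, i, l) c = true ↔
    (20 ≤ n → ζ.length ≤ n → n0 n ≤ l → l ≤ nEnd n → DP n ζ i l (labOf c (zz n i))) := by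
  have key : ζ.length ≤ n → n0 n ≤ l → ∀ r ≤ mm n, ζ.length ≤ l - so n r := fun h1 h2 r hr => by
    have := le_sub_so hr h2
    omega
  simp only [okB, Bool.or_eq_true, Bool.not_eq_true', ← Bool.not_eq_true, Bool.and_eq_true,
    decide_eq_true_eq]
  constructor
  · intro h h1 h2 h3 h4
    exact (dpB_iff (key h2 h3) _).1 (h.resolve_left (not_not.2 ⟨⟨⟨h1, h2⟩, h3⟩, h4⟩))
  · intro h
    refine or_iff_not_imp_left.2 fun h' => ?_
    obtain ⟨⟨⟨h1, h2⟩, h3⟩, h4⟩ := not_not.1 h'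
    exact (dpB_iff (key h2 h3) _).2 (h h1 h2 h3 h4)

end NDesign

open NDesign in
/-- Good labelings can be found computably. -/
theorem design_of_lab (h : ∀ (n : ℕ) (ζ : Str) (i l : ℕ), 20 ≤ n → ζ.length ≤ n → n0 n ≤ l →
    l ≤ nEnd n → ∃ lab : Str → ℕ → ℕ, (∀ τ b, lab τ b < 2 ^ (3 * zz n i)) ∧ DP n ζ i l lab) :
    ∃ D : Lab, (TD fun p : (ℕ × Str × ℕ × ℕ) × Str × ℕ => D p.1 p.2.1 p.2.2) ∧ DesignOK D := by
  have hex : ∀ p : ℕ × Str × ℕ × ℕ, ∃ c, okB p c = true := by
    rintro ⟨n, ζ, i, l⟩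
    by_cases hh : 20 ≤ n ∧ ζ.length ≤ n ∧ n0 n ≤ l ∧ l ≤ nEnd n
    · obtain ⟨lab, h1, h2⟩ := h n ζ i l hh.1 hh.2.1 hh.2.2.1 hh.2.2.2
      obtain ⟨c, hc⟩ := exists_code (Zs ζ l) (zz n i) h1
      exact ⟨c, okB_iff.2 fun _ _ _ _ => dp_congr hc h2⟩
    · exact ⟨0, okB_iff.2 fun a b c d => absurd ⟨a, b, c, d⟩ hh⟩
  have hf : TD fun p : ℕ × Str × ℕ × ℕ => Nat.find (hex p) := TD.find' td_okB hex
  refine ⟨fun p => labOf (Nat.find (hex p)) (zz p.1 p.2.2.1), ?_, fun n ζ i l h1 h2 h3 h4 =>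
    ⟨fun τ b => labOf_lt _ _ _ _, okB_iff.1 (Nat.find_spec (hex (n, ζ, i, l))) h1 h2 h3 h4⟩⟩
  exact td_labOf (hf.comp' (f := fun p : (ℕ × Str × ℕ × ℕ) × Str × ℕ => p.1) (by fun_prop))
    (by fun_prop) (by fun_prop) (by fun_prop)

end Pool.Agent.Lib.MP_848037_lc.Neg
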