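import Pool.Agent.Lib.MP_848037_lc.NGibbs
import Pool.Agent.Lib.MP_848037_lc.NCharge

/-! The entropy bound for an epoch. -/

set_option autoImplicit false

namespace Pool.Agent.Lib.MP_848037_lc.Neg

open Finset Pool.Agent.Shared.Type2

namespace NEp

/-- The log-sum inequality with the weights of the Gibbs bound. -/
theorem pointwise {ι : Type} (I : Finset ι) (G ω m L : ι → ℝ) {ρ R : ℝ} (hρ : 0 < ρ) (hR : 0 < R)
    (hG : ∀ c, 0 ≤ G c) (hω : ∀ c, 0 < ω c) (hm : ∀ c, 0 < m c)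
    (h : ∑ c ∈ I, ω c * min 1 (m c * G c) * Real.exp (-L c) ≤ R + 8) :
    (∑ c ∈ I, G c) * Real.log ((∑ c ∈ I, G c) / ρ) ≤
      ∑ c ∈ I, (G c * Real.log (G c / (ρ * ω c / R)) + (m c)⁻¹ + G c * L c + 8 / R * G c) := by
  set T := ∑ c ∈ I, G c with hT
  have hT0 : 0 ≤ T := sum_nonneg fun c _ => hG c
  have hR8 : 0 < R + 8 := by linarith
  have key : ∀ c ∈ I, G c * Real.log (T / ρ) ≤
      (G c * Real.log (G c / (ρ * ω c / R)) + (m c)⁻¹ + G c * L c + 8 / R * G c) +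
        (T / (R + 8) * (ω c * min 1 (m c * G c) * Real.exp (-L c)) - G c) := by
    intro c hc
    have hω' := hω c
    have hm' := hm c
    rcases (hG c).eq_or_lt with h0 | h0
    · rw [← h0]
      simp only [zero_mul, mul_zero, zero_add, add_zero, sub_zero]
      positivity
    have hTp : 0 < T := h0.trans_le (single_le_sum (fun c _ => hG c) hc)
    have hθ : 0 < min 1 (m c * G c) := lt_min one_pos (mul_pos hm' h0)
    set θ := min 1 (m c * G c) with hθd
    have h1 : Real.log (T / ρ) = Real.log (G c / (ρ * ω c / R)) + Real.log ((R + 8) / R) +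
        Real.log θ⁻¹ + L c +
        Real.log (T / (R + 8) * (ω c * θ * Real.exp (-L c)) / G c) := by
      rw [← Real.log_exp (L c), ← Real.log_mul (by positivity) (by positivity),
        ← Real.log_mul (by positivity) (by positivity),
        ← Real.log_mul (by positivity) (by positivity),
        ← Real.log_mul (by positivity) (by positivity), Real.log_exp, Real.exp_neg]
      congr 1
      field_simp
    have h2 : Real.log ((R + 8) / R) ≤ 8 / R := by
      refine (Real.log_le_sub_one_of_pos (by positivity)).trans (le_of_eq ?_)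
      field_simp
      ring
    have h3 : G c * Real.log θ⁻¹ ≤ (m c)⁻¹ := by
      rcases le_total 1 (m c * G c) with h4 | h4
      · rw [hθd, min_eq_left h4, inv_one, Real.log_one, mul_zero]
        positivity
      · rw [hθd, min_eq_right h4]
        have h5 := Real.log_le_sub_one_of_pos (x := (m c * G c)⁻¹) (by positivity)
        have h6 : G c * ((m c * G c)⁻¹ - 1) = (m c)⁻¹ - G c := by field_simp
        have h7 := mul_le_mul_of_nonneg_left h5 h0.le
        linarith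
    have h4 := Real.log_le_sub_one_of_pos
      (x := T / (R + 8) * (ω c * θ * Real.exp (-L c)) / G c) (by positivity)
    have h5 := mul_le_mul_of_nonneg_left h4 h0.le
    have h6 : G c * (T / (R + 8) * (ω c * θ * Real.exp (-L c)) / G c - 1) =
        T / (R + 8) * (ω c * θ * Real.exp (-L c)) - G c := by field_simp
    have h7 := mul_le_mul_of_nonneg_left h2 h0.le
    rw [h1]
    nlinarith
  have h1 := sum_le_sum key
  rw [← sum_mul, sum_add_distrib, sum_sub_distrib, ← mul_sum, ← hT] at h1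
  have h2 : T / (R + 8) * ∑ c ∈ I, ω c * min 1 (m c * G c) * Real.exp (-L c) ≤ T := by
    refine (mul_le_mul_of_nonneg_left h (by positivity)).trans (le_of_eq ?_)
    field_simp
  linarith

theorem sum_slots {ι : Type} (I : Finset ι) (tt : ι → ℕ) (U : Finset ℕ) (h : ∀ c ∈ I, tt c ∈ U)
    (φ : ι → ℝ) : ∑ c ∈ I, φ c = ∑ t ∈ U, ∑ c ∈ I, if tt c = t then φ c else 0 := by
  rw [sum_comm]
  refine sum_congr rfl fun c hc => ?_
  rw [sum_ite_eq, if_pos (h c hc)]

theorem card_res (R S s : ℕ) : ((range (R * S)).filter fun t => t % S = s).card ≤ R := by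
  rw [← card_range R]
  refine card_le_card_of_injOn (fun t => t / S) (fun t ht => ?_) fun t ht t' ht' e => ?_
  · have h1 := mem_range.1 (mem_filter.1 (mem_coe.1 ht)).1
    rw [card_range] at h1
    exact mem_coe.2 (mem_range.2 (Nat.div_lt_of_lt_mul (by rwa [mul_comm] at h1)))
  · have h1 := (mem_filter.1 (mem_coe.1 ht)).2
    have h2 := (mem_filter.1 (mem_coe.1 ht')).2
    have e' : t / S = t' / S := e
    rw [← Nat.div_add_mod t S, ← Nat.div_add_mod t' S, e', h1, h2]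

/-- Truncated density of a record. -/
noncomputable def th (X : ℕ → Emi) (e q cb : ℕ) (c : Rec) (z : Str) : ℝ :=
  min 1 (2 ^ (3 + cb + c.r + (q + 1)) * GG X e c.a c.b z)

/-- Truncated density of a slot. -/
noncomputable def tht (X : ℕ → Emi) (e q cb : ℕ) (rs : List Rec) (z : Str) (t : ℕ) : ℝ :=
  ∑ i : Fin rs.length, if rs[i].t = t then 2⁻¹ ^ rs[i].r * th X e q cb rs[i] z else 0

/-- Overlap with the later slots of residue `s`. -/
noncomputable def ov (X : ℕ → Emi) (e q cb : ℕ) (rs : List Rec) (R S t s : ℕ) (z : Str) : ℝ :=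
  min 1 (∑ t' ∈ range (R * S), if t < t' ∧ t' % S = s then tht X e q cb rs z t' else 0)

theorem th_nonneg (X : ℕ → Emi) (e q cb : ℕ) (c : Rec) (z : Str) : 0 ≤ th X e q cb c z :=
  le_min zero_le_one (mul_nonneg (by positivity) (GG_nonneg _ _ _ _ _))

theorem th_le (X : ℕ → Emi) (e q cb : ℕ) (c : Rec) (z : Str) : th X e q cb c z ≤ 1 :=
  min_le_left _ _

theorem tht_nonneg (X : ℕ → Emi) (e q cb : ℕ) (rs : List Rec) (z : Str) (t : ℕ) :
    0 ≤ tht X e q cb rs z t :=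
  sum_nonneg fun i _ => by
    have := th_nonneg X e q cb rs[i] z
    split_ifs <;> positivity

variable {K : Str → ℕ} {D : Lab} {X : ℕ → Emi} {σ : Str} {N q cb : ℕ} {rs : List Rec}
  {lo hi tb : ℕ}

theorem wt_le (h : EpOK K D X σ N q cb rs lo hi tb) (t : ℕ) :
    (∑ i : Fin rs.length, if rs[i].t = t then (2⁻¹ : ℝ) ^ rs[i].r else 0) ≤ 1 := by
  have := (h.slot t).wt
  rwa [sum_map_eq] at this

theorem tht_le (h : EpOK K D X σ N q cb rs lo hi tb) (e : ℕ) (z : Str) (t : ℕ) :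
    tht X e q cb rs z t ≤ 1 := by
  refine le_trans (sum_le_sum fun i _ => ?_) (wt_le h t)
  split_ifs
  · exact mul_le_of_le_one_right (by positivity) (th_le _ _ _ _ _ _)
  · exact le_rfl

theorem wt_tot (h : EpOK K D X σ N q cb rs lo hi tb) :
    ∑ i : Fin rs.length, (2⁻¹ : ℝ) ^ rs[i].r ≤ tb := by
  rw [sum_slots univ (fun i : Fin rs.length => rs[i].t) (range tb)
    (fun i _ => mem_range.2 (h.lt _ (List.getElem_mem _)))]
  refine (sum_le_sum fun t _ => wt_le h t).trans ?_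
  simp

theorem cyl {ζ : Str} {ns : ℕ} (hζ : ζ.length ≤ ns) :
    (2 : ℝ) ^ ζ.length * ∑ _z ∈ Zs ζ ns, (2⁻¹ : ℝ) ^ ns = 1 := by
  rw [sum_const, card_Zs hζ, nsmul_eq_mul]
  obtain ⟨d, rfl⟩ := Nat.exists_eq_add_of_le hζ
  rw [Nat.add_sub_cancel_left, pow_add]
  push_cast
  simp only [inv_pow]
  field_simp

open Classical in
/-- The overlap of one emission with the later slots of one residue is paid. -/
theorem term_le (hD : DesignOK D) (h : EpOK K D X σ N q cb rs lo hi tb) (hσ : σ.length ≤ N)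
    {ns : ℕ} (hns : ∀ j ∈ Ico lo hi, (X j).root.length ≤ ns) {c : Rec} (hc : c ∈ rs) {j : ℕ}
    (hj : j ∈ Ico c.a c.b) (s : ℕ) :
    (X j).val * 2 ^ (X j).root.length * ∑ z ∈ Zs (X j).root ns, (2⁻¹ : ℝ) ^ ns *
        ov X (X j).e q cb rs (2 ^ (q + 6)) (2 ^ (N - σ.length)) c.t s z ≤
      4 * 2 ^ (X j).e * Pay K (kidS σ N s) (X j).n (nEnd (X j).n) +
        (18 + 2 ^ (q + 6)) * (X j).val * 2⁻¹ ^ (X j).n := by
  have hsub : ∀ c' ∈ rs, ∀ j' ∈ Ico c'.a c'.b, j' ∈ Ico lo hi := fun c' hc' j' hj' => by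
    have := h.til.mem hc'
    have := mem_Ico.1 hj'
    exact mem_Ico.2 ⟨by omega, by omega⟩
  obtain ⟨hbig, hroot⟩ := (h.rec' c hc).big j hj
  have hl := hns j (hsub c hc j hj)
  have hgood := fun t' (h1 : c.t < t') => (h.slot t').good c hc h1 j hj
  generalize X j = x at hbig hroot hl hgood ⊢
  obtain ⟨R, hR⟩ : ∃ R : ℕ, R = 2 ^ (q + 6) := ⟨_, rfl⟩
  obtain ⟨S, hS⟩ : ∃ S : ℕ, S = 2 ^ (N - σ.length) := ⟨_, rfl⟩
  rw [← hR, ← hS]
  have hv := x.val_pos
  have hP := Pay_nonneg K (kidS σ N s) x.n (nEnd x.n)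
  have hkid : ∀ t', t' % S = s → kidS σ N t' = kidS σ N s := fun t' e => by
    rw [← kidS_mod σ N t', ← hS, e]
  by_cases hA : ∃ t', c.t < t' ∧ t' % S = s ∧ x.val ≤ 2 ^ x.e * Pay K (kidS σ N t') x.n (nEnd x.n)
  · obtain ⟨t', -, h2, h3⟩ := hA
    rw [hkid t' h2] at h3
    have h4 : ∑ z ∈ Zs x.root ns, (2⁻¹ : ℝ) ^ ns * ov X x.e q cb rs R S c.t s z ≤
        ∑ _z ∈ Zs x.root ns, (2⁻¹ : ℝ) ^ ns :=
      sum_le_sum fun z _ => mul_le_of_le_one_right (by positivity) (min_le_left _ _)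
    have h5 := mul_le_mul_of_nonneg_left h4 (a := x.val * 2 ^ x.root.length) (by positivity)
    rw [mul_assoc x.val _ (∑ _z ∈ Zs x.root ns, (2⁻¹ : ℝ) ^ ns), cyl hl, mul_one] at h5
    have h6 : 0 ≤ (2 : ℝ) ^ x.e * Pay K (kidS σ N s) x.n (nEnd x.n) := by positivity
    have h7 : 0 ≤ (18 + (2 : ℝ) ^ (q + 6)) * x.val * 2⁻¹ ^ x.n := by positivity
    linarith
  have hB : ∀ t', c.t < t' → t' % S = s → badW K D X σ N q cb rs x t' ≤ 2⁻¹ ^ x.n :=
    fun t' h1 h2 => (hgood t' h1).resolve_left fun h3 => hA ⟨t', h1, h2, h3⟩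
  set U := (range (R * S)).filter fun t' => t' % S = s with hU
  set I : Finset (Fin rs.length) := univ.filter fun i => rs[i].t ∈ U ∧
    GoodR K D X x (kidS σ N rs[i].t) (3 + cb + rs[i].r + (q + 1)) (N + q + 2) rs[i].a rs[i].b
    with hI
  have hUc : U.card ≤ R := card_res R S s
  have h1 : ∀ z, ov X x.e q cb rs R S c.t s z ≤
      min 1 (∑ i ∈ I, 2⁻¹ ^ rs[i].r * th X x.e q cb rs[i] z) + R * 2⁻¹ ^ x.n := by
    intro z
    have h2 : (∑ t' ∈ range (R * S), if c.t < t' ∧ t' % S = s then tht X x.e q cb rs z t' else 0) ≤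
        ∑ t' ∈ U, ((∑ i ∈ I, if rs[i].t = t' then 2⁻¹ ^ rs[i].r * th X x.e q cb rs[i] z else 0) +
          2⁻¹ ^ x.n) := by
      rw [hU, sum_filter]
      refine sum_le_sum fun t' ht' => ?_
      have h3 : 0 ≤ ∑ i ∈ I,
          if rs[i].t = t' then (2⁻¹ : ℝ) ^ rs[i].r * th X x.e q cb rs[i] z else 0 :=
        sum_nonneg fun i _ => by
          have := th_nonneg X x.e q cb rs[i] z
          split_ifs <;> positivity
      by_cases h4 : t' % S = s
      · rw [if_pos h4]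
        by_cases h5 : c.t < t'
        · rw [if_pos ⟨h5, h4⟩]
          refine le_trans ?_ (add_le_add le_rfl (hB t' h5 h4))
          rw [tht, badW, sum_map_eq, hI, sum_filter, ← sum_add_distrib]
          refine sum_le_sum fun i _ => ?_
          have h6 := th_nonneg X x.e q cb rs[i] z
          have h7 := th_le X x.e q cb rs[i] z
          by_cases h8 : rs[i].t = t'
          · have h9 : rs[i].t ∈ U := by
              rw [h8]; exact mem_filter.2 ⟨ht', h4⟩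
            by_cases h10 : GoodR K D X x (kidS σ N t') (3 + cb + rs[i].r + (q + 1)) (N + q + 2)
              rs[i].a rs[i].b
            · rw [if_pos h8, if_pos ⟨h9, h8 ▸ h10⟩, if_neg fun hh => hh.2 h10, add_zero]
            · rw [if_pos h8, if_neg fun hh => h10 (h8 ▸ hh.2), if_pos ⟨h8, h10⟩, zero_add]
              exact mul_le_of_le_one_right (by positivity) h7
          · simp only [h8, if_false, false_and, ite_self, add_zero, le_refl]
        · rw [if_neg fun hh => h5 hh.1]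
          positivity
      · rw [if_neg fun hh => h4 hh.2, if_neg h4]
    rw [sum_add_distrib, ← sum_slots I (fun i => rs[i].t) U (fun i hi => (mem_filter.1 hi).2.1),
      sum_const, nsmul_eq_mul] at h2
    have h3 : (U.card : ℝ) * 2⁻¹ ^ x.n ≤ R * 2⁻¹ ^ x.n :=
      mul_le_mul_of_nonneg_right (by exact_mod_cast hUc) (by positivity)
    have h4 : 0 ≤ (R : ℝ) * 2⁻¹ ^ x.n := by positivity
    rcases le_total 1 (∑ i ∈ I, 2⁻¹ ^ rs[i].r * th X x.e q cb rs[i] z) with h5 | h5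
    · rw [min_eq_left h5]
      exact (min_le_left _ _).trans (by linarith)
    · rw [min_eq_right h5]
      exact (min_le_right _ _).trans (by linarith)
  obtain ⟨J, hJI, hJ, h2⟩ := select (Zs x.root ns) I U (fun i => rs[i].t)
    (fun i => (2⁻¹ : ℝ) ^ rs[i].r) (fun i z => th X x.e q cb rs[i] z) (fun i => by positivity)
    (fun t => le_trans (sum_le_sum_of_subset_of_nonneg (subset_univ _) fun i _ _ => by
      split_ifs <;> positivity) (wt_le h t))
    (fun i z => th_nonneg _ _ _ _ _ _) (fun i z => th_le _ _ _ _ _ _)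
    (fun i hi => (mem_filter.1 hi).2.1)
  have h3 := charge (K := K) hD X x (by omega) hroot (y := kidS σ N s)
    (by rw [length_kidS hσ]; omega) J (fun i => rs[i].a) (fun i => rs[i].b)
    (fun i => 3 + cb + rs[i].r + (q + 1)) (N + q + 2)
    (by
      refine (Nat.mul_le_mul_right _ (hJ.trans hUc)).trans ?_
      rw [hR, ← pow_add]
      exact Nat.pow_le_pow_right (by norm_num) (by omega))
    (fun i hi => by
      have h4 := (mem_filter.1 (hJI hi)).2
      rw [← hkid _ (mem_filter.1 h4.1).2]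
      exact h4.2) ns hl
    (fun i _ j' hj' => hns j' (hsub _ (List.getElem_mem _) j' hj'))
  have h4 : ∑ z ∈ Zs x.root ns, (2⁻¹ : ℝ) ^ ns * ov X x.e q cb rs R S c.t s z ≤
      2 * (∑ z ∈ Zs x.root ns, (2⁻¹ : ℝ) ^ ns * min 1 (∑ i ∈ J, th X x.e q cb rs[i] z)) +
        R * 2⁻¹ ^ x.n * ∑ _z ∈ Zs x.root ns, (2⁻¹ : ℝ) ^ ns := by
    have h5 := mul_le_mul_of_nonneg_left h2 (a := (2⁻¹ : ℝ) ^ ns) (by positivity)
    rw [← mul_sum, ← mul_sum, mul_left_comm]
    have h6 := mul_le_mul_of_nonneg_left (sum_le_sum fun z (_ : z ∈ Zs x.root ns) => h1 z)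
      (a := (2⁻¹ : ℝ) ^ ns) (by positivity)
    rw [sum_add_distrib, mul_add] at h6
    have h7 : (2⁻¹ : ℝ) ^ ns * ∑ _z ∈ Zs x.root ns, (R : ℝ) * 2⁻¹ ^ x.n =
        R * 2⁻¹ ^ x.n * ∑ _z ∈ Zs x.root ns, (2⁻¹ : ℝ) ^ ns := by
      rw [sum_const, sum_const, nsmul_eq_mul, nsmul_eq_mul]
      ring
    linarith
  have h5 := mul_le_mul_of_nonneg_left h4 (a := x.val * 2 ^ x.root.length) (by positivity)
  have h6 : x.val * 2 ^ x.root.length * (R * 2⁻¹ ^ x.n * ∑ _z ∈ Zs x.root ns, (2⁻¹ : ℝ) ^ ns) =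
      2 ^ (q + 6) * x.val * 2⁻¹ ^ x.n := by
    have h7 := cyl hl
    have h8 : (R : ℝ) = 2 ^ (q + 6) := by rw [hR]; push_cast; rfl
    rw [h8]
    linear_combination (2 ^ (q + 6) * x.val * 2⁻¹ ^ x.n) * h7
  rw [mul_add, h6] at h5
  simp only [th] at h5
  linarith

/-- Total overlap with the later slots of the other residues. -/
noncomputable def LL (X : ℕ → Emi) (e q cb : ℕ) (rs : List Rec) (R S t : ℕ) (z : Str) : ℝ :=
  ∑ s ∈ (range S).erase (t % S), ov X e q cb rs R S t s z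

theorem small {N q n l : ℕ} (h : N + 2 * q + 20 ≤ n) :
    (2 : ℝ) ^ (N - l) * ((18 + 2 ^ (q + 6)) * 2⁻¹ ^ n) + 8 / 2 ^ (q + 6) ≤ 2⁻¹ ^ q := by
  obtain ⟨d, rfl⟩ := Nat.exists_eq_add_of_le h
  have h1 : (2 : ℝ) ^ (N - l) ≤ 2 ^ N := pow_le_pow_right₀ (by norm_num) (Nat.sub_le _ _)
  have h2 : (1 : ℝ) ≤ 2 ^ q := one_le_pow₀ (by norm_num)
  have h3 : (18 : ℝ) + 2 ^ (q + 6) ≤ 2 ^ q * 2 ^ 7 := by rw [pow_add]; linarith
  have h4 : (2⁻¹ : ℝ) ^ (N + 2 * q + 20 + d) ≤ 2⁻¹ ^ (N + 2 * q + 20) :=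
    pow_le_pow_of_le_one (by norm_num) (by norm_num) (Nat.le_add_right _ _)
  have h5 : (2 : ℝ) ^ (N - l) * ((18 + 2 ^ (q + 6)) * 2⁻¹ ^ (N + 2 * q + 20 + d)) ≤
      2 ^ N * (2 ^ q * 2 ^ 7 * 2⁻¹ ^ (N + 2 * q + 20)) := by gcongr
  have h6 : (2 : ℝ) ^ N * (2 ^ q * 2 ^ 7 * 2⁻¹ ^ (N + 2 * q + 20)) = 2⁻¹ ^ q / 2 ^ 13 := by
    simp only [pow_add, two_mul, inv_pow]
    field_simp
  have h7 : (8 : ℝ) / 2 ^ (q + 6) = 2⁻¹ ^ q / 8 := by
    simp only [pow_add, inv_pow]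
    field_simp
    norm_num
  have h8 : (0 : ℝ) ≤ 2⁻¹ ^ q := by positivity
  linarith

theorem emi_le (hD : DesignOK D) (h : EpOK K D X σ N q cb rs lo hi tb) (hσ : σ.length ≤ N)
    {ns : ℕ} (hns : ∀ j ∈ Ico lo hi, (X j).root.length ≤ ns) {c : Rec} (hc : c ∈ rs) {j : ℕ}
    (hj : j ∈ Ico c.a c.b) :
    (X j).val * 2 ^ (X j).root.length * (∑ z ∈ Zs (X j).root ns, (2⁻¹ : ℝ) ^ ns *
        LL X (X j).e q cb rs (2 ^ (q + 6)) (2 ^ (N - σ.length)) c.t z) +
      4 * 2 ^ (X j).e * Pay K (kidS σ N c.t) (X j).n (nEnd (X j).n) +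
        8 / 2 ^ (q + 6) * (X j).val ≤
      4 * 2 ^ (X j).e * Pay K σ (X j).n (nEnd (X j).n) + 2⁻¹ ^ q * (X j).val := by
  have h1 := fun s => term_le hD h hσ hns hc hj s
  obtain ⟨hbig, -⟩ := (h.rec' c hc).big j hj
  generalize X j = x at hbig h1 ⊢
  have hv := x.val_pos
  have h2 := sum_le_sum fun s (_ : s ∈ (range (2 ^ (N - σ.length))).erase
    (c.t % 2 ^ (N - σ.length))) => h1 s
  have hm : c.t % 2 ^ (N - σ.length) ∈ range (2 ^ (N - σ.length)) :=
    mem_range.2 (Nat.mod_lt _ (by positivity))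
  rw [← mul_sum, sum_comm, sum_add_distrib, ← mul_sum, sum_const, nsmul_eq_mul] at h2
  have h3 := add_sum_erase _ (fun s => Pay K (kidS σ N s) x.n (nEnd x.n)) hm
  rw [← Pay_kids K hσ (by omega), kidS_mod] at h3
  have h4 : ((#((range (2 ^ (N - σ.length))).erase (c.t % 2 ^ (N - σ.length))) : ℕ) : ℝ) ≤
      2 ^ (N - σ.length) := by
    have := card_erase_le (s := range (2 ^ (N - σ.length))) (a := c.t % 2 ^ (N - σ.length))
    rw [card_range] at this
    exact_mod_cast this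
  have h5 := mul_le_mul_of_nonneg_right h4
    (a := (18 + (2 : ℝ) ^ (q + 6)) * x.val * 2⁻¹ ^ x.n) (by positivity)
  have h6 := mul_le_mul_of_nonneg_right (small (N := N) (q := q) (n := x.n) (l := σ.length)
    (by omega)) hv.le
  simp only [LL, mul_sum (a := (2⁻¹ : ℝ) ^ ns)]
  rw [← h3]
  linarith

theorem rec_le (hD : DesignOK D) (h : EpOK K D X σ N q cb rs lo hi tb) (hσ : σ.length ≤ N)
    (e : ℕ) {ns : ℕ} (hns : ∀ j ∈ Ico lo hi, (X j).root.length ≤ ns) {c : Rec} (hc : c ∈ rs) :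
    (∑ z ∈ Om ns, (2⁻¹ : ℝ) ^ ns * (GG X e c.a c.b z *
        LL X e q cb rs (2 ^ (q + 6)) (2 ^ (N - σ.length)) c.t z)) +
      4 * 2 ^ e * PW K X e (kidS σ N c.t) c.a c.b + 8 / 2 ^ (q + 6) * ValE X e c.a c.b ≤
      4 * 2 ^ e * PW K X e σ c.a c.b + 2⁻¹ ^ q * ValE X e c.a c.b := by
  simp only [GG, PW, ValE, sum_mul, mul_sum]
  rw [sum_comm, ← sum_add_distrib, ← sum_add_distrib, ← sum_add_distrib]
  refine sum_le_sum fun j hj => ?_
  by_cases he : (X j).e = e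
  · subst he
    have h1 := emi_le hD h hσ hns hc hj
    simp only [true_and, if_true, ite_mul, zero_mul, mul_ite, mul_zero]
    rw [← sum_filter, ← Zs]
    rw [mul_sum] at h1
    refine le_trans (le_of_eq ?_) h1
    congr 2
    exact sum_congr rfl fun z _ => by ring
  · simp [he]

theorem point_le (h : EpOK K D X σ N q cb rs lo hi tb)
    (htb : tb ≤ 2 ^ (q + 6 + (N - σ.length))) (e : ℕ) (z : Str) :
    GG X e lo hi z * Real.log (GG X e lo hi z / (2 ^ (q + 6 + N) * 2⁻¹ ^ (3 + cb))) ≤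
      ∑ i : Fin rs.length, (GG X e rs[i].a rs[i].b z *
          Real.log (GG X e rs[i].a rs[i].b z / (2 ^ N * 2⁻¹ ^ (3 + cb + rs[i].r))) +
        2⁻¹ ^ (3 + cb + rs[i].r + (q + 1)) +
        GG X e rs[i].a rs[i].b z *
          LL X e q cb rs (2 ^ (q + 6)) (2 ^ (N - σ.length)) rs[i].t z +
        8 / 2 ^ (q + 6) * GG X e rs[i].a rs[i].b z) := by
  have h1 : GG X e lo hi z = ∑ i : Fin rs.length, GG X e rs[i].a rs[i].b z := by
    rw [GG, h.til.sum, sum_map_eq]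
    rfl
  have h2 := gibbs (2 ^ (q + 6)) (2 ^ (N - σ.length)) (tht X e q cb rs z)
    (tht_nonneg X e q cb rs z) (tht_le h e z)
  have h3 := pointwise (univ : Finset (Fin rs.length)) (fun i => GG X e rs[i].a rs[i].b z)
    (fun i => (2⁻¹ : ℝ) ^ rs[i].r) (fun i => (2 : ℝ) ^ (3 + cb + rs[i].r + (q + 1)))
    (fun i => LL X e q cb rs (2 ^ (q + 6)) (2 ^ (N - σ.length)) rs[i].t z)
    (ρ := 2 ^ (q + 6 + N) * 2⁻¹ ^ (3 + cb)) (R := 2 ^ (q + 6)) (by positivity) (by positivity)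
    (fun i => GG_nonneg _ _ _ _ _) (fun i => by positivity) (fun i => by positivity) (by
      rw [sum_slots univ (fun i : Fin rs.length => rs[i].t)
        (range (2 ^ (q + 6) * 2 ^ (N - σ.length))) (fun i _ => mem_range.2 (by
          rw [← pow_add]
          exact (h.lt _ (List.getElem_mem _)).trans_le htb))]
      push_cast at h2
      refine le_trans (le_of_eq (sum_congr rfl fun t _ => ?_)) h2
      rw [tht, sum_mul]
      refine sum_congr rfl fun i _ => ?_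
      split_ifs with h4
      · rw [← h4]
        rfl
      · rw [zero_mul])
  rw [h1]
  refine h3.trans (le_of_eq (sum_congr rfl fun i _ => ?_))
  have h4 : (2 : ℝ) ^ (q + 6 + N) * 2⁻¹ ^ (3 + cb) * 2⁻¹ ^ rs[i].r / 2 ^ (q + 6) =
      2 ^ N * 2⁻¹ ^ (3 + cb + rs[i].r) := by
    rw [pow_add _ (q + 6) N, pow_add _ (3 + cb)]
    field_simp
  rw [h4, inv_pow _ (3 + cb + rs[i].r + (q + 1))]

end NEp

open NEp in
theorem epoch_ent {K : Str → ℕ} {D : Lab} (hD : DesignOK D) {X : ℕ → Emi} {σ : Str}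
    {N q cb : ℕ} {rs : List Rec} {lo hi tb : ℕ} (h : EpOK K D X σ N q cb rs lo hi tb)
    (hσ : σ.length ≤ N) (htb : tb ≤ 2 ^ (q + 6 + (N - σ.length))) :
    EntB K X σ q (2 ^ (q + 6 + N) * 2⁻¹ ^ (3 + cb)) lo hi
      ((1 + 2⁻¹ ^ q) * (tb * 2⁻¹ ^ (3 + cb))) := by
  intro e ns hns
  have hsub : ∀ i : Fin rs.length, ∀ j ∈ Ico rs[i].a rs[i].b, (X j).root.length ≤ ns :=
    fun i j hj => hns j (by
      have := h.til.mem (List.getElem_mem i.2)
      have := mem_Ico.1 hj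
      simp only [Fin.getElem_fin] at *
      exact mem_Ico.2 ⟨by omega, by omega⟩)
  have hV : ValE X e lo hi = ∑ i : Fin rs.length, ValE X e rs[i].a rs[i].b := by
    rw [ValE, h.til.sum, sum_map_eq]
    rfl
  have hP : PW K X e σ lo hi = ∑ i : Fin rs.length, PW K X e σ rs[i].a rs[i].b := by
    rw [PW, h.til.sum, sum_map_eq]
    rfl
  have h1 := sum_le_sum fun z (_ : z ∈ Om ns) => mul_le_mul_of_nonneg_left (point_le h htb e z)
    (a := (2⁻¹ : ℝ) ^ ns) (by positivity)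
  refine h1.trans ?_
  simp only [mul_sum]
  rw [sum_comm]
  have h2 : ∀ i : Fin rs.length, ∑ z ∈ Om ns, (2⁻¹ : ℝ) ^ ns * (GG X e rs[i].a rs[i].b z *
          Real.log (GG X e rs[i].a rs[i].b z / (2 ^ N * 2⁻¹ ^ (3 + cb + rs[i].r))) +
        2⁻¹ ^ (3 + cb + rs[i].r + (q + 1)) +
        GG X e rs[i].a rs[i].b z *
          LL X e q cb rs (2 ^ (q + 6)) (2 ^ (N - σ.length)) rs[i].t z +
        8 / 2 ^ (q + 6) * GG X e rs[i].a rs[i].b z) ≤
      -(2 ^ (2 * e + 12) * Real.log 2 - 1 - 2 * 2⁻¹ ^ q) * ValE X e rs[i].a rs[i].b +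
        4 * 2 ^ e * PW K X e σ rs[i].a rs[i].b +
        (1 + 2⁻¹ ^ q) * 2⁻¹ ^ (3 + cb) * 2⁻¹ ^ rs[i].r := by
    intro i
    have hc : rs[i] ∈ rs := List.getElem_mem i.2
    have h3 := hsub i
    generalize rs[i] = c at hc h3 ⊢
    have h4 := (h.rec' c hc).ent e ns h3
    have h5 := rec_le hD h hσ e hns hc
    have h6 := sum_GG X e c.a c.b ns h3
    have h7 : ∑ _z ∈ Om ns, (2⁻¹ : ℝ) ^ ns * 2⁻¹ ^ (3 + cb + c.r + (q + 1)) =
        2⁻¹ ^ (3 + cb + c.r + (q + 1)) := by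
      have h8 := cyl (ζ := []) (ns := ns) (Nat.zero_le _)
      rw [Zs_nil, List.length_nil, pow_zero, one_mul] at h8
      rw [← sum_mul, h8, one_mul]
    have h8 : ∑ z ∈ Om ns, (2⁻¹ : ℝ) ^ ns * (8 / 2 ^ (q + 6) * GG X e c.a c.b z) =
        8 / 2 ^ (q + 6) * ValE X e c.a c.b := by
      rw [← h6, mul_sum]
      exact sum_congr rfl fun z _ => by ring
    simp only [mul_add (2⁻¹ ^ ns : ℝ), sum_add_distrib]
    rw [h7, h8]
    rw [pow_add _ (3 + cb) c.r, pow_succ (2⁻¹ : ℝ) q] at h4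
    rw [pow_add _ (3 + cb + c.r) (q + 1), pow_add _ (3 + cb) c.r, pow_succ (2⁻¹ : ℝ) q]
    linarith
  refine (sum_le_sum fun i _ => h2 i).trans ?_
  rw [sum_add_distrib, sum_add_distrib, ← mul_sum, ← mul_sum, ← mul_sum, ← hV, ← hP]
  have h3 := mul_le_mul_of_nonneg_left (wt_tot h)
    (a := (1 + (2⁻¹ : ℝ) ^ q) * 2⁻¹ ^ (3 + cb)) (by positivity)
  linarith

end Pool.Agent.Lib.MP_848037_lc.Neg
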