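import Pool.Agent.Lib.MP_848037_lc.NWF
import Pool.Agent.Lib.MP_848037_lc.NComp

/-!
The limit of the machine: it is limit computable, and its upper `K`-cone is countable.
-/

set_option autoImplicit false

namespace Pool.Agent.Lib.MP_848037_lc.Neg

open Finset Pool.Agent.Shared.Type2

namespace NFinish

/-- Progress of a frame. -/
def mu (F : Fr) : ℕ := F.J * (F.slots + 1) + F.t

/-- Bound for the progress of a frame. -/
def bd (F : Fr) : ℕ := 2 ^ F.k * (F.slots + 1)

theorem mu_lt {st : MS} {F : Fr} (h : FrWF st F) : mu F < bd F := by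
  have h1 := Nat.mul_le_mul_right (F.slots + 1) (Nat.succ_le_of_lt h.J)
  have h2 := h.t
  unfold mu bd
  rw [Nat.succ_mul] at h1
  omega

variable {kl : Str × ℕ → ℕ → Bool} {D : Lab}

/-- What a step does to a tail `P` of the stack that it keeps. -/
theorem shape (hD : DesignOK D) {s : ℕ} {st : MS} (h : WF D st)
    (hne : (step kl D s st).fs ≠ []) {P : List Fr} (h1 : P <:+ st.fs)
    (h2 : P <:+ (step kl D s st).fs) :
    (P ≠ [] → act kl s st.req P = false) ∧
    (∃ nw, (step kl D s st).req = st.req ++ nw ∧ ∀ r ∈ nw, ∀ G ∈ P, G.N < r.2.1) ∧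
    (∃ G, G :: P <:+ (step kl D s st).fs) ∧
    ∀ G, G :: P <:+ st.fs → G :: P <:+ (step kl D s st).fs ∨
      ∃ G', G' :: P <:+ (step kl D s st).fs ∧ bd G' = bd G ∧ mu G < mu G' := by
  rcases step_cases kl D s st with ⟨a, b⟩ | ⟨pre, F, ps, a, b, c⟩
  · obtain ⟨nw, c, d⟩ := push_lev h
    have e : (step kl D s st).fs = child st (st.fs.getD 0 default) :: st.fs := by rw [b]; rfl
    refine ⟨a P h1, ⟨nw, by rw [b, c], fun r hr G hG => d r hr G (h1.subset hG)⟩, ?_,
      fun G hG => Or.inl (e ▸ hG.trans (List.suffix_cons _ _))⟩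
    rw [e]
    obtain ⟨u, hu⟩ := h1
    rcases List.eq_nil_or_concat' u with rfl | ⟨u', G, rfl⟩
    · rw [List.nil_append] at hu
      exact ⟨_, by rw [hu]⟩
    · exact ⟨G, List.IsSuffix.trans ⟨u', by rw [← hu]; simp⟩ (List.suffix_cons _ _)⟩
  have hF : FrWF st F := h.frs F (by rw [a]; simp)
  have key : ∃ G G' rs, G :: rs <:+ st.fs ∧ rs <:+ ps ∧ (step kl D s st).fs = G' :: rs ∧
      bd G' = bd G ∧ mu G < mu G' := by
    have a' : F :: ps <:+ st.fs := ⟨pre, a.symm⟩
    rcases c with ⟨-, c⟩ | ⟨-, -, -, c⟩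
    · by_cases hJ : F.J + 1 < 2 ^ F.k
      · have e : ∃ iE rl wv, (step kl D s st).fs =
            { F with J := F.J + 1, t := 0, iE := iE, rl := rl, wv := wv } :: ps :=
          ⟨_, _, _, by rw [c]; simp only [endEp, hJ, decide_true, cond_true]; rfl⟩
        obtain ⟨iE, rl, wv, e⟩ := e
        refine ⟨F, _, ps, a', List.suffix_rfl, e, rfl, ?_⟩
        have := hF.t
        change F.J * (F.slots + 1) + F.t < (F.J + 1) * (F.slots + 1) + 0
        rw [Nat.succ_mul]; omega
      · have e : (step kl D s st).fs = bump ps := by rw [c]; simp only [endEp, hJ]; rfl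
        rcases ps with _ | ⟨G, rs⟩
        · exact absurd e hne
        · exact ⟨G, G.next, rs, (List.suffix_cons _ _).trans a', List.suffix_cons _ _, e, rfl,
            Nat.lt_succ_self _⟩
    · exact ⟨F, F.next, ps, a', List.suffix_rfl, by rw [c], rfl, Nat.lt_succ_self _⟩
  obtain ⟨G, G', rs, k1, k2, k3, k4, k5⟩ := key
  have k6 : P <:+ rs := by
    rw [k3] at h2
    rcases List.suffix_cons_iff.1 h2 with e | e
    · have := (List.suffix_of_suffix_length_le k1 h1 (by rw [e]; simp)).eq_of_length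
        (by rw [e]; simp)
      rw [e] at this
      rw [(List.cons.inj this).1] at k5
      exact absurd k5 (lt_irrefl _)
    · exact e
  refine ⟨b P (k6.trans k2), ?_, ?_, fun H hH => ?_⟩
  · rcases c with ⟨-, c⟩ | ⟨-, -, -, c⟩
    · obtain ⟨nw, d, e⟩ := endEp_lev (kl := kl) (s := s) hD h a
      exact ⟨nw, by rw [c, d], fun r hr H hH => e r hr H ((k6.trans k2).subset hH)⟩
    · exact ⟨[], by rw [c]; simp, by simp⟩
  · rw [k3]
    obtain ⟨u, hu⟩ := k6
    rcases List.eq_nil_or_concat' u with rfl | ⟨u', H, rfl⟩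
    · exact ⟨G', by rw [← hu]; simp⟩
    · exact ⟨H, List.IsSuffix.trans ⟨u', by rw [← hu]; simp⟩ (List.suffix_cons _ _)⟩
  · have k7 : H :: P <:+ G :: rs :=
      List.suffix_of_suffix_length_le hH k1 (by simpa using k6.length_le)
    rw [k3]
    rcases List.suffix_cons_iff.1 k7 with e | e
    · obtain ⟨rfl, rfl⟩ := List.cons.inj e
      exact Or.inr ⟨G', List.suffix_rfl, k4, k5⟩
    · exact Or.inl (e.trans (List.suffix_cons _ _))

theorem run_succ (s : ℕ) : run kl D (s + 1) = step kl D s (run kl D s) := rfl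

/-- `P` is a tail of the stack from stage `s0` on. -/
def Stab (kl : Str × ℕ → ℕ → Bool) (D : Lab) (s0 : ℕ) (P : List Fr) : Prop :=
  ∀ s ≥ s0, P <:+ (run kl D s).fs

theorem stab_step (hD : DesignOK D) (hne : ∀ s, (run kl D s).fs ≠ []) {s0 : ℕ} {P : List Fr}
    (h : Stab kl D s0 P) : ∃ s1 F, Stab kl D s1 (F :: P) := by
  have wf : ∀ s, WF D (run kl D s) := fun s => wf_run hD s fun s' _ => hne s'
  have sh := fun s (hs : s0 ≤ s) => shape hD (wf s) (hne (s + 1)) (h s hs) (h (s + 1) (by omega))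
  have main : ∀ n s G, s0 ≤ s → G :: P <:+ (run kl D s).fs → bd G - mu G ≤ n →
      ∃ s1 F, Stab kl D s1 (F :: P) := by
    intro n
    induction n with
    | zero =>
      intro s G _ hG hn
      have := mu_lt ((wf s).frs G (hG.subset (by simp)))
      omega
    | succ n ih =>
      intro s G hs hG hn
      by_contra hc
      refine hc ⟨s, G, fun s' hs' => ?_⟩
      induction s', hs' using Nat.le_induction with
      | base => exact hG
      | succ s' hs' ih' =>
        rcases (sh s' (by omega)).2.2.2 G ih' with e | ⟨G', e1, e2, e3⟩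
        · exact e
        · exact absurd (ih (s' + 1) G' (by omega) e1 (by omega)) hc
  obtain ⟨G, hG⟩ := (sh s0 le_rfl).2.2.1
  exact main _ (s0 + 1) G (by omega) hG le_rfl

theorem tower (hD : DesignOK D) (hne : ∀ s, (run kl D s).fs ≠ []) :
    ∃ (F : ℕ → Fr) (P : ℕ → List Fr), P 0 = [] ∧ (∀ q, P (q + 1) = F q :: P q) ∧
      ∀ q, ∃ s0, Stab kl D s0 (P q) := by
  have h : ∀ P : {P : List Fr // ∃ s0, Stab kl D s0 P}, ∃ F, ∃ s0, Stab kl D s0 (F :: P.1) := by
    rintro ⟨P, s0, hP⟩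
    obtain ⟨s1, F, hF⟩ := stab_step hD hne hP
    exact ⟨F, s1, hF⟩
  choose f hf using h
  let t : ℕ → {P : List Fr // ∃ s0, Stab kl D s0 P} := fun q =>
    Nat.rec ⟨[], 0, fun _ _ => List.nil_suffix⟩ (fun _ P => ⟨f P :: P.1, hf P⟩) q
  exact ⟨fun q => f (t q), fun q => (t q).1, rfl, fun _ => rfl, fun q => (t q).2⟩

theorem top_pre : ∀ L : List Fr, L.IsChain LinkWF → ∀ G ∈ L, G.σ <+: (L.getD 0 default).σ := by
  intro L
  induction L with
  | nil => simp
  | cons c L ih =>
    intro h G hG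
    rcases List.mem_cons.1 hG with rfl | hG
    · exact List.prefix_rfl
    · rcases L with _ | ⟨F, L⟩
      · simp at hG
      · obtain ⟨a, b⟩ := List.isChain_cons_cons.1 h
        refine (ih b G hG).trans ?_
        change F.σ <+: c.σ
        rw [a.σ]
        exact pre_kidS _ _ _

theorem getD_of_pre {u v : Str} (h : u <+: v) {i : ℕ} (hi : i < u.length) :
    v.getD i false = u.getD i false := by
  obtain ⟨w, rfl⟩ := h
  rw [List.getD_append _ _ _ _ hi]

/-- The facts on the limit stack that are used below. -/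
structure Lim (kl : Str × ℕ → ℕ → Bool) (D : Lab) (F : ℕ → Fr) (P : ℕ → List Fr) : Prop where
  zero : P 0 = []
  succ : ∀ q, P (q + 1) = F q :: P q
  stab : ∀ q, ∃ s0, Stab kl D s0 (P q)
  wf : ∀ s, WF D (run kl D s)

namespace Lim

variable {F : ℕ → Fr} {P : ℕ → List Fr}

theorem mem (h : Lim kl D F P) {G : Fr} {q : ℕ} (hG : G ∈ P q) : ∃ q' < q, G = F q' := by
  induction q with
  | zero => simp [h.zero] at hG
  | succ q ih =>
    rw [h.succ] at hG
    rcases List.mem_cons.1 hG with e | hG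
    · exact ⟨q, by omega, e⟩
    · obtain ⟨q', a, b⟩ := ih hG
      exact ⟨q', by omega, b⟩

theorem fr (h : Lim kl D F P) (q : ℕ) : ∃ st, FrWF st (F q) := by
  obtain ⟨s, hs⟩ := h.stab (q + 1)
  exact ⟨_, (h.wf s).frs _ ((hs s le_rfl).subset (by rw [h.succ]; simp))⟩

theorem link (h : Lim kl D F P) (q : ℕ) : LinkWF (F (q + 1)) (F q) := by
  obtain ⟨s, hs⟩ := h.stab (q + 2)
  have := (h.wf s).chain.suffix (hs s le_rfl)
  rw [h.succ, h.succ] at this
  exact (List.isChain_cons_cons.1 this).1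

theorem m_zero (h : Lim kl D F P) : (F 0).m = 0 := by
  obtain ⟨s, hs⟩ := h.stab 1
  obtain ⟨u, hu⟩ := hs s le_rfl
  rw [h.succ, h.zero] at hu
  exact ((h.wf s).root (F 0) (by rw [← hu]; simp)).2.2.2.2.1

theorem len_lt (h : Lim kl D F P) (q : ℕ) : (F q).σ.length < (F q).N := by
  obtain ⟨st, a⟩ := h.fr q
  have := a.lo
  have : 0 < 2 ^ (F q).k := by positivity
  unfold Fr.N; omega

theorem len_succ (h : Lim kl D F P) (q : ℕ) : (F (q + 1)).σ.length = (F q).N := by
  rw [(h.link q).σ]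
  exact length_kidS (h.len_lt q).le _

theorem le_len (h : Lim kl D F P) (q : ℕ) : q ≤ (F q).σ.length := by
  induction q with
  | zero => exact Nat.zero_le _
  | succ q ih => have := h.len_lt q; rw [h.len_succ]; omega

theorem pre (h : Lim kl D F P) {q q' : ℕ} (hq : q ≤ q') : (F q).σ <+: (F q').σ := by
  induction q', hq using Nat.le_induction with
  | base => exact List.prefix_rfl
  | succ q' _ ih =>
    refine ih.trans ?_
    rw [(h.link q').σ]
    exact pre_kidS _ _ _

/-- The limit sequence. -/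
def lx (F : ℕ → Fr) (i : ℕ) : Bool := (F (i + 1)).σ.getD i false

theorem xs_lx (h : Lim kl D F P) (q : ℕ) : xs (lx F) (F q).σ.length = (F q).σ := by
  refine List.ext_getElem (by simp) fun i a b => ?_
  have c := h.le_len (i + 1)
  simp only [xs, List.getElem_ofFn, lx]
  rw [List.getD_eq_getElem _ _ (by omega)]
  rcases le_total q (i + 1) with e | e
  · exact ((h.pre e).getElem b).symm
  · exact (h.pre e).getElem _

theorem kid_eq (h : Lim kl D F P) (q : ℕ) : (F q).kid = xs (lx F) (F q).N := by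
  rw [← (h.link q).σ, ← h.len_succ, h.xs_lx]

theorem conv (h : Lim kl D F P) (i : ℕ) : ∃ s0, ∀ s ≥ s0,
    ((run kl D s).fs.getD 0 default).σ.getD i false = lx F i := by
  obtain ⟨s0, hs⟩ := h.stab (i + 2)
  refine ⟨s0, fun s a => ?_⟩
  have b := top_pre _ (h.wf s).chain (F (i + 1)) ((hs s a).subset (by rw [h.succ]; simp))
  exact getD_of_pre b (h.le_len (i + 1))

theorem reach (h : Lim kl D F P) (m : ℕ) : ∃ q, (F q).m = m ∧ (F q).rem = 1 := by
  have h1 : ∀ r q, (F q).rem = r + 1 → ∃ q', (F q').m = (F q).m ∧ (F q').rem = 1 := by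
    intro r
    induction r with
    | zero => exact fun q a => ⟨q, rfl, a⟩
    | succ r ih =>
      intro q a
      have b := (h.link q).m
      have c := (h.link q).rem
      rw [if_neg (by omega)] at b c
      obtain ⟨q', d, e⟩ := ih (q + 1) (by omega)
      exact ⟨q', d.trans b, e⟩
  have h2 : ∀ q, ∃ q', (F q').m = (F q).m ∧ (F q').rem = 1 := fun q => by
    obtain ⟨st, a⟩ := h.fr q
    have := a.rem
    exact h1 ((F q).rem - 1) q (by omega)
  induction m with
  | zero =>
    obtain ⟨q, a, b⟩ := h2 0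
    exact ⟨q, a.trans h.m_zero, b⟩
  | succ m ih =>
    obtain ⟨q, a, b⟩ := ih
    have c := (h.link q).m
    rw [if_pos b] at c
    obtain ⟨q', d, e⟩ := h2 (q + 1)
    exact ⟨q', by omega, e⟩

end Lim


theorem comp_a (ht : TD (run kl D)) :
    Computable₂ fun s i : ℕ => ((run kl D s).fs.getD 0 default).σ.getD i false := by
  have h1 : TD fun p : ℕ × ℕ => run kl D p.1 := by fun_prop
  have h2 : TD fun p : ℕ × ℕ => ((run kl D p.1).fs.getD 0 default).σ.getD p.2 false := by
    fun_prop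
  exact h2.computable

/-- Some request of the list asks for a description of `a.1` of length `a.2`. -/
def ask (L : List Rq) (a : Str × ℕ) : Bool :=
  L.any fun r => decide (a.1.take r.1.length = r.1) && decide (a.1.length = r.2.1) &&
    decide (a.2 = r.2.2)

theorem ask_iff {L : List Rq} {a : Str × ℕ} :
    ask L a = true ↔ ∃ r ∈ L, r.1 <+: a.1 ∧ a.1.length = r.2.1 ∧ a.2 = r.2.2 := by
  simp only [ask, List.any_eq_true, Bool.and_eq_true, decide_eq_true_eq, ← pre_iff_take rfl,
    and_assoc]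

theorem re_ask (ht : TD (run kl D)) :
    REPred fun a : Str × ℕ => ∃ s, ask (run kl D s).req a = true := by
  refine re_of_test (k := fun a s => ask (run kl D s).req a) ?_ fun _ => Iff.rfl
  have h1 : TD fun p : (Str × ℕ) × ℕ => run kl D p.2 := by fun_prop
  unfold ask
  fun_prop

theorem req_mono (hD : DesignOK D) (hne : ∀ s, (run kl D s).fs ≠ []) {s t : ℕ} (h : s ≤ t) :
    (run kl D s).req <+: (run kl D t).req := by
  induction t, h using Nat.le_induction with
  | base => exact List.prefix_rfl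
  | succ t _ ih =>
    obtain ⟨nw, a, -⟩ := (shape hD (wf_run hD t fun s' _ => hne s') (hne (t + 1))
      List.nil_suffix List.nil_suffix).2.1
    exact ih.trans ⟨nw, a.symm⟩

/-- Weight that a list of requests puts on `σ`. -/
noncomputable def wt (L : List Rq) (σ : Str) : ENNReal :=
  (L.map fun r => if σ ∈ Zs r.1 r.2.1 then (2⁻¹ : ENNReal) ^ r.2.2 else 0).sum

theorem wt_mono {L L' : List Rq} (h : L <+: L') (σ : Str) : wt L σ ≤ wt L' σ := by
  obtain ⟨u, rfl⟩ := h
  simp [wt]

theorem sum_wt (L : List Rq) (S : Finset Str) :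
    ∑ σ ∈ S, wt L σ ≤ ENNReal.ofReal (L.map rcost).sum := by
  induction L with
  | nil => simp [wt]
  | cons r L ih =>
    have h0 : ∀ r, 0 ≤ rcost r := fun r => by unfold rcost; positivity
    have h1 : 0 ≤ (L.map rcost).sum := List.sum_nonneg fun x hx => by
      obtain ⟨r, -, rfl⟩ := List.mem_map.1 hx
      exact h0 r
    simp only [wt, List.map_cons, List.sum_cons, sum_add_distrib] at ih ⊢
    rw [ENNReal.ofReal_add (h0 r) h1]
    refine add_le_add ?_ ih
    rw [← sum_filter, sum_const, nsmul_eq_mul, rcost, ENNReal.ofReal_mul (by positivity),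
      ENNReal.ofReal_pow (by norm_num), ENNReal.ofReal_pow (by norm_num),
      ENNReal.ofReal_inv_of_pos (by norm_num), ENNReal.ofReal_ofNat]
    refine mul_le_mul_left ?_ _
    have := (card_le_card (fun σ hσ => (mem_filter.1 hσ).2 :
      S.filter (fun σ => σ ∈ Zs r.1 r.2.1) ⊆ Zs r.1 r.2.1)).trans (card_Zs_le r.1 r.2.1)
    exact_mod_cast this

theorem req_met {K : Str → ℕ} (hK : IsK K) (hD : DesignOK D) (ht : TD (run kl D))
    (hne : ∀ s, (run kl D s).fs ≠ []) (hc : ∀ s, ((run kl D s).req.map rcost).sum ≤ 1) :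
    ∃ c, ∀ s, ∀ r ∈ (run kl D s).req, ∀ τ, r.1 <+: τ → τ.length = r.2.1 → K τ ≤ r.2.2 + c := by
  refine (hK.req (re_ask ht) (fun σ => ⨆ s, wt (run kl D s).req σ) ?_ ?_).imp
    fun c h s r hr τ a b => h τ _ ⟨s, ask_iff.2 ⟨r, hr, a, b, rfl⟩⟩
  · rintro σ k ⟨s, hs⟩
    obtain ⟨r, hr, a, b, c⟩ := ask_iff.1 hs
    refine le_iSup_of_le s (List.single_le_sum (fun _ _ => zero_le) _
      (List.mem_map.2 ⟨r, hr, ?_⟩))
    rw [if_pos (mem_Zs.2 ⟨b, a⟩), ← c]
  · rw [ENNReal.tsum_eq_iSup_sum]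
    refine iSup_le fun S => ?_
    rw [ENNReal.finsetSum_iSup_of_monotone fun σ s t h => wt_mono (req_mono hD hne h) σ]
    exact iSup_le fun s => (sum_wt _ _).trans (ENNReal.ofReal_le_one.2 (hc s))

theorem sep (S : Finset (ℕ → Bool)) : ∃ j, ∀ k ≥ j, Set.InjOn (fun z => xs z k) S := by
  have h1 : ∀ p : (ℕ → Bool) × (ℕ → Bool), ∃ j, ∀ k ≥ j, xs p.1 k = xs p.2 k → p.1 = p.2 := by
    rintro ⟨y, z⟩
    by_cases e : y = z
    · exact ⟨0, fun _ _ _ => e⟩
    · obtain ⟨i, hi⟩ := Function.ne_iff.1 e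
      refine ⟨i + 1, fun k hk a => absurd ?_ hi⟩
      have := List.ofFn_injective a
      exact congrFun this ⟨i, hk⟩
  choose f hf using h1
  exact ⟨(S ×ˢ S).sup f, fun k hk y hy z hz a =>
    hf (y, z) k ((le_sup (mem_product.2 ⟨hy, hz⟩)).trans hk) a⟩

theorem late {K : Str → ℕ} (hkl : Appr K kl) (L : List (Str × ℕ)) (s1 : ℕ) :
    ∃ s ≥ s1, ∀ a ∈ L, K a.1 ≤ a.2 → kl a s = true := by
  induction L with
  | nil => exact ⟨s1, le_rfl, by simp⟩
  | cons a L ih =>
    obtain ⟨s, h1, h2⟩ := ih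
    by_cases h : K a.1 ≤ a.2
    · obtain ⟨t, ht⟩ := (hkl.iff a).1 h
      refine ⟨max s t, h1.trans (le_max_left _ _), fun b hb hb' => ?_⟩
      rcases List.mem_cons.1 hb with rfl | hb
      · exact hkl.mono _ _ _ (le_max_right _ _) ht
      · exact hkl.mono _ _ _ (le_max_left _ _) (h2 b hb hb')
    · refine ⟨s, h1, fun b hb hb' => ?_⟩
      rcases List.mem_cons.1 hb with rfl | hb
      · exact absurd hb' h
      · exact h2 b hb hb'

theorem wide_of {s : ℕ} {req : List Rq} {G : Fr} {y : Str} {S : Finset (ℕ → Bool)}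
    (h1 : S.card = 2 ^ lB G.e) (h2 : Set.InjOn (fun z => xs z G.k) S)
    (h3 : ∀ z ∈ S, valid kl s req G.e y (xs z G.k) = true) : wide kl s req G y = true := by
  rw [wide, decide_eq_true_eq, ← h1, ← card_image_of_injOn h2, ← List.length_map G.cell]
  refine (card_le_card fun u hu => ?_).trans (List.toFinset_card_le _)
  obtain ⟨z, hz, rfl⟩ := mem_image.1 hu
  obtain ⟨i, a, b⟩ := getD_allS_surj (length_xs z G.k)
  have c : G.cell i = xs z G.k := b
  exact List.mem_toFinset.2 (List.mem_map.2 ⟨i, List.mem_filter.2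
    ⟨List.mem_range.2 a, by rw [c]; exact h3 z hz⟩, c⟩)

theorem fin_T {K : Str → ℕ} (hkl : Appr K kl) (hD : DesignOK D)
    (hne : ∀ s, (run kl D s).fs ≠ []) {F : ℕ → Fr} {P : ℕ → List Fr} (h : Lim kl D F P) (e : ℕ) :
    Set.Finite {z : ℕ → Bool | ∀ s, ∀ r ∈ (run kl D s).req, r.1 <+: xs z r.2.1 →
      K (xs (Lim.lx F) r.2.1) ≤ r.2.2 + e} := by
  by_contra hinf
  obtain ⟨S, hS, hcard⟩ := Set.Infinite.exists_subset_card_eq hinf (2 ^ lB e)
  obtain ⟨j, hj⟩ := sep S
  obtain ⟨q, hm, hrem⟩ := h.reach (Nat.pair e j)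
  obtain ⟨s1, hs1⟩ := h.stab (q + 1)
  have sh := fun s (hs : s1 ≤ s) =>
    shape hD (h.wf s) (hne (s + 1)) (hs1 s hs) (hs1 (s + 1) (by omega))
  have old : ∀ s ≥ s1, ∀ r ∈ (run kl D s).req, ∀ G ∈ P (q + 1), r.2.1 ≤ G.N →
      r ∈ (run kl D s1).req := by
    intro s hs
    induction s, hs using Nat.le_induction with
    | base => exact fun r hr _ _ _ => hr
    | succ s hs ih =>
      intro r hr G hG hle
      obtain ⟨nw, a, b⟩ := (sh s hs).2.1
      rw [run_succ, a] at hr
      rcases List.mem_append.1 hr with hr | hr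
      · exact ih r hr G hG hle
      · exact absurd (b r hr G hG) (by omega)
  obtain ⟨s2, hs2, hk⟩ := late hkl
    ((run kl D s1).req.map fun r => (xs (Lim.lx F) r.2.1, r.2.2 + e)) s1
  have hact := (sh s2 hs2).1 (by rw [h.succ]; simp)
  have hall : allW kl s2 (run kl D s2).req (P (q + 1)) (Nat.pair e j) = true := by
    rw [allW, List.all_eq_true]
    intro G hG
    by_cases hG' : G.m = Nat.pair e j
    swap
    · simp [hG']
    obtain ⟨q', -, rfl⟩ := h.mem hG
    obtain ⟨st, a⟩ := h.fr q'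
    have he : (F q').e = e := by rw [Fr.e, hG', Nat.unpair_pair]
    have hjk : j ≤ (F q').k := by
      have := a.lo
      have := a.mq
      have := Nat.right_le_pair e j
      omega
    rw [wide_of (S := S) (by rw [he, hcard]) (hj _ hjk) fun z hz => ?_, Bool.or_true]
    rw [valid, List.all_eq_true, he, h.kid_eq]
    intro r hr
    by_cases c1 : (F q').N < r.2.1
    · simp [c1]
    by_cases c2 : (xs z (F q').k).take r.1.length = r.1
    swap
    · simp [c2]
    have c3 : r.1 <+: xs z r.2.1 := by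
      rw [eq_xs ((pre_iff_take rfl).2 c2)]
      exact xs_pre z ((h.wf s2).rq r hr)
    rw [xs_take (Lim.lx F) (not_lt.1 c1), hk _ (List.mem_map.2 ⟨r, old s2 hs2 r hr _ hG (by omega), rfl⟩)
      (hS hz s2 r hr c3), Bool.or_true]
  rw [act, h.succ] at hact
  rw [h.succ] at hall
  simp [hm, hrem, hall] at hact

end NFinish

open NFinish

/-- The limit of the machine is limit computable and its upper cone is countable. -/
theorem finish {K : Str → ℕ} (hK : IsK K) {kl : Str × ℕ → ℕ → Bool} (hkl : Appr K kl) {D : Lab}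
    (hD : DesignOK D) (ht : TD (run kl D)) (hne : ∀ s, (run kl D s).fs ≠ [])
    (hc : ∀ s, ((run kl D s).req.map rcost).sum ≤ 1) :
    ∃ (x : ℕ → Bool) (a : ℕ → ℕ → Bool), Computable₂ a ∧ (∀ i, ∃ s0, ∀ s ≥ s0, a s i = x i) ∧
      Set.Countable {z : ℕ → Bool | ∃ c : ℕ, ∀ n : ℕ, K (xs x n) ≤ K (xs z n) + c} := by
  obtain ⟨F, P, h0, h1, h2⟩ := tower hD hne
  have h : Lim kl D F P := ⟨h0, h1, h2, fun s => wf_run hD s fun s' _ => hne s'⟩
  obtain ⟨c, hc⟩ := req_met hK hD ht hne hc
  refine ⟨Lim.lx F, _, comp_a ht, h.conv,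
    (Set.countable_iUnion fun e => (fin_T hkl hD hne h e).countable).mono ?_⟩
  rintro z ⟨c', hz⟩
  refine Set.mem_iUnion.2 ⟨c + c', fun s r hr a => ?_⟩
  have := hz r.2.1
  have := hc s r hr _ a (length_xs _ _)
  omega

end Pool.Agent.Lib.MP_848037_lc.Neg
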