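import Pool.Agent.Lib.MP_848037_lc.NBasic

/-!
Real analysis on finite sums: the Gibbs bound over rounds, selection of one record per slot,
the entropy bound after a wide attack, and the bound at the root.
-/

set_option autoImplicit false

namespace Pool.Agent.Lib.MP_848037_lc.Neg

open Finset Pool.Agent.Shared.Type2

namespace NGibbs

theorem sum_range_mul (R S : ℕ) (f : ℕ → ℝ) :
    ∑ t ∈ range (R * S), f t = ∑ r ∈ range R, ∑ s ∈ range S, f (r * S + s) := by
  induction R with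
  | zero => simp
  | succ R ih => rw [Nat.succ_mul, sum_range_add, ih, sum_range_succ]

/-- Mass of residue `s` from time `t` on. -/
noncomputable def bb (N S : ℕ) (θ : ℕ → ℝ) (t s : ℕ) : ℝ :=
  ∑ t' ∈ range N, if t ≤ t' ∧ t' % S = s then θ t' else 0

theorem bb_nonneg {N S : ℕ} {θ : ℕ → ℝ} (h0 : ∀ t, 0 ≤ θ t) (t s : ℕ) : 0 ≤ bb N S θ t s :=
  sum_nonneg fun t' _ => by
    have := h0 t'
    split_ifs <;> simp [this]

theorem bb_le {N S : ℕ} {θ : ℕ → ℝ} (h0 : ∀ t, 0 ≤ θ t) {t u s : ℕ}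
    (h : ∀ t', t ≤ t' → t' % S = s → u ≤ t') : bb N S θ t s ≤ bb N S θ u s :=
  sum_le_sum fun t' _ => by
    have := h0 t'
    by_cases h1 : t ≤ t' ∧ t' % S = s
    · rw [if_pos h1, if_pos ⟨h t' h1.1 h1.2, h1.2⟩]
    · rw [if_neg h1]
      split_ifs <;> simp [this]

theorem bb_ne {N S : ℕ} {θ : ℕ → ℝ} {t s : ℕ} (h : s ≠ t % S) :
    bb N S θ t s = bb N S θ (t + 1) s :=
  sum_congr rfl fun t' _ => by
    refine if_congr ?_ rfl rfl
    constructor
    · rintro ⟨a, b⟩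
      refine ⟨?_, b⟩
      rcases a.eq_or_lt with rfl | a
      · exact absurd b.symm h
      · exact a
    · rintro ⟨a, b⟩
      exact ⟨by omega, b⟩

theorem bb_eq {N S : ℕ} {θ : ℕ → ℝ} {t : ℕ} (h : t < N) :
    bb N S θ t (t % S) = θ t + bb N S θ (t + 1) (t % S) := by
  have h1 : θ t = ∑ t' ∈ range N, if t' = t then θ t' else 0 := by
    rw [sum_ite_eq' (range N) t θ, if_pos (mem_range.2 h)]
  rw [h1, bb, bb, ← sum_add_distrib]
  refine sum_congr rfl fun t' _ => ?_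
  by_cases h2 : t' = t
  · subst h2
    simp
  · rw [if_neg h2, zero_add]
    refine if_congr ?_ rfl rfl
    constructor
    · rintro ⟨a, b⟩
      exact ⟨by omega, b⟩
    · rintro ⟨a, b⟩
      exact ⟨by omega, b⟩

/-- The potential. -/
noncomputable def Psi (N S : ℕ) (θ : ℕ → ℝ) (t : ℕ) : ℝ := ∑ s ∈ range S, min 1 (bb N S θ t s)

/-- The exponent of the Gibbs weight. -/
noncomputable def LL (N S : ℕ) (θ : ℕ → ℝ) (t : ℕ) : ℝ :=
  ∑ s ∈ (range S).erase (t % S), min 1 (bb N S θ (t + 1) s)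

theorem exp_two_le : Real.exp 2 ≤ 8 := by
  have h := Real.exp_one_lt_d9
  have h2 : Real.exp 2 = Real.exp 1 * Real.exp 1 := by rw [← Real.exp_add]; norm_num
  have h3 := Real.exp_pos 1
  rw [h2]; nlinarith

theorem point {N S : ℕ} {θ : ℕ → ℝ} (h0 : ∀ t, 0 ≤ θ t) (h1 : ∀ t, θ t ≤ 1) {t : ℕ}
    (ht : t < N) (hS : 0 < S) :
    θ t * Real.exp (-LL N S θ t) ≤
      8 * (Real.exp (-Psi N S θ (t + 1)) - Real.exp (-Psi N S θ t)) +
        min 1 (bb N S θ (t + 1) (t % S)) * Real.exp (-LL N S θ t) := by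
  have hm : t % S ∈ range S := mem_range.2 (Nat.mod_lt _ hS)
  have e1 : Psi N S θ (t + 1) = min 1 (bb N S θ (t + 1) (t % S)) + LL N S θ t := by
    rw [Psi, LL, add_sum_erase _ (fun s => min 1 (bb N S θ (t + 1) s)) hm]
  have e2 : Psi N S θ t = min 1 (θ t + bb N S θ (t + 1) (t % S)) + LL N S θ t := by
    rw [Psi, LL, ← add_sum_erase _ (fun s => min 1 (bb N S θ t s)) hm, bb_eq ht]
    congr 1
    exact sum_congr rfl fun s hs => by rw [bb_ne (ne_of_mem_erase hs)]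
  have hB := bb_nonneg (N := N) (S := S) h0 (t + 1) (t % S)
  have a0 := h0 t
  have a1 := h1 t
  set B := bb N S θ (t + 1) (t % S)
  set L := LL N S θ t
  set u := min 1 B with hu
  set v := min 1 (θ t + B) with hv
  have hu0 : 0 ≤ u := le_min zero_le_one hB
  have huv : u ≤ v := min_le_min le_rfl (by linarith)
  have hv1 : v ≤ 1 := min_le_left _ _
  have hr : θ t ≤ (v - u) + u := by
    have : θ t ≤ v := le_min a1 (by linarith)
    linarith
  have hE := Real.exp_pos (-L)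
  have h2 : (v - u) * Real.exp (-L) ≤ 8 * (Real.exp (-(u + L)) - Real.exp (-(v + L))) := by
    have h3 : Real.exp (-(u + L)) = Real.exp (-(v + L)) * Real.exp (v - u) := by
      rw [← Real.exp_add]; congr 1; ring
    have h4 : v - u + 1 ≤ Real.exp (v - u) := Real.add_one_le_exp _
    have h5 : Real.exp (-L) ≤ Real.exp (-(v + L)) * 8 := by
      calc Real.exp (-L) = Real.exp (-(v + L)) * Real.exp v := by
            rw [← Real.exp_add]; congr 1; ring
        _ ≤ _ := mul_le_mul_of_nonneg_left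
            ((Real.exp_le_exp.2 (by linarith)).trans exp_two_le) (Real.exp_pos _).le
    have h6 := Real.exp_pos (-(v + L))
    have h7 : 0 ≤ v - u := by linarith
    rw [h3]
    nlinarith [mul_le_mul_of_nonneg_left h5 h7, mul_le_mul_of_nonneg_left h4 h6.le]
  rw [e1, e2]
  nlinarith [mul_le_mul_of_nonneg_right hr hE.le]

theorem round {N S : ℕ} {θ : ℕ → ℝ} (h0 : ∀ t, 0 ≤ θ t) (r : ℕ) :
    ∑ s ∈ range S, min 1 (bb N S θ (r * S + s + 1) ((r * S + s) % S)) *
      Real.exp (-LL N S θ (r * S + s)) ≤ 1 := by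
  set M := Psi N S θ ((r + 1) * S) with hM
  have h1 : ∀ s ∈ range S, min 1 (bb N S θ (r * S + s + 1) ((r * S + s) % S)) *
      Real.exp (-LL N S θ (r * S + s)) ≤
        min 1 (bb N S θ ((r + 1) * S) s) * Real.exp (1 - M) := by
    intro s hs
    have hs' := mem_range.1 hs
    have e : (r * S + s) % S = s := by
      rw [Nat.mul_add_mod_of_lt hs']
    have h2 : bb N S θ (r * S + s + 1) s ≤ bb N S θ ((r + 1) * S) s := by
      refine bb_le h0 fun t' a b => ?_
      have h3 := Nat.div_add_mod t' S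
      rw [b] at h3
      have h4 : r < t' / S := by
        by_contra h5
        have h6 : S * (t' / S) ≤ S * r := Nat.mul_le_mul_left _ (not_lt.1 h5)
        rw [mul_comm S r] at h6
        omega
      have h6 : S * (r + 1) ≤ S * (t' / S) := Nat.mul_le_mul_left _ h4
      rw [mul_comm S (r + 1)] at h6
      omega
    have h3 : M - 1 ≤ LL N S θ (r * S + s) := by
      rw [hM, Psi, ← add_sum_erase _ (fun s => min 1 (bb N S θ ((r + 1) * S) s)) hs, LL, e]
      have h4 : ∑ x ∈ (range S).erase s, min 1 (bb N S θ ((r + 1) * S) x) ≤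
          ∑ x ∈ (range S).erase s, min 1 (bb N S θ (r * S + s + 1) x) :=
        sum_le_sum fun x _ => min_le_min le_rfl (bb_le h0 fun t' a _ => by
          rw [Nat.succ_mul] at a; omega)
      have h5 : min 1 (bb N S θ ((r + 1) * S) s) ≤ 1 := min_le_left _ _
      linarith
    rw [e]
    exact mul_le_mul (min_le_min le_rfl h2) (Real.exp_le_exp.2 (by linarith))
      (Real.exp_pos _).le (le_min zero_le_one (bb_nonneg h0 _ _))
  refine (sum_le_sum h1).trans ?_
  rw [← sum_mul]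
  change M * Real.exp (1 - M) ≤ 1
  have h2 : M - 1 + 1 ≤ Real.exp (M - 1) := Real.add_one_le_exp _
  have h3 : Real.exp (M - 1) * Real.exp (1 - M) = 1 := by rw [← Real.exp_add]; simp
  have h4 := Real.exp_pos (1 - M)
  nlinarith

theorem prod_mul_le {ι : Type*} (T : Finset ι) (a : ι → ℝ) (h0 : ∀ t ∈ T, 0 ≤ a t)
    (h1 : ∀ t ∈ T, a t ≤ 1) : (∏ t ∈ T, (1 - a t)) * (1 + ∑ t ∈ T, a t) ≤ 1 := by
  classical
  induction T using Finset.induction_on with
  | empty => simp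
  | insert t T ht ih =>
    rw [prod_insert ht, sum_insert ht]
    have a0 := h0 t (mem_insert_self _ _)
    have h2 := ih (fun u hu => h0 u (mem_insert_of_mem hu)) fun u hu => h1 u (mem_insert_of_mem hu)
    have h3 : 0 ≤ ∏ t ∈ T, (1 - a t) :=
      prod_nonneg fun u hu => sub_nonneg.2 (h1 u (mem_insert_of_mem hu))
    have h4 : 0 ≤ ∑ t ∈ T, a t := sum_nonneg fun u hu => h0 u (mem_insert_of_mem hu)
    nlinarith [mul_nonneg h3 (mul_nonneg a0 a0), mul_nonneg h3 (mul_nonneg a0 h4)]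

theorem one_sub_prod_le {ι : Type*} (T : Finset ι) (a : ι → ℝ) (h0 : ∀ t ∈ T, 0 ≤ a t)
    (h1 : ∀ t ∈ T, a t ≤ 1) : 1 - ∏ t ∈ T, (1 - a t) ≤ ∑ t ∈ T, a t := by
  classical
  induction T using Finset.induction_on with
  | empty => simp
  | insert t T ht ih =>
    rw [prod_insert ht, sum_insert ht]
    have a0 := h0 t (mem_insert_self _ _)
    have h2 := ih (fun u hu => h0 u (mem_insert_of_mem hu)) fun u hu => h1 u (mem_insert_of_mem hu)
    have h3 : ∏ t ∈ T, (1 - a t) ≤ 1 :=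
      prod_le_one (fun u hu => sub_nonneg.2 (h1 u (mem_insert_of_mem hu)))
        fun u hu => by linarith [h0 u (mem_insert_of_mem hu)]
    nlinarith [mul_le_mul_of_nonneg_left h3 a0]

theorem select_aux {Z ι : Type} [DecidableEq ι] (Zf : Finset Z) (I : Finset ι)
    (tt : ι → ℕ) (ω : ι → ℝ)
    (θ : ι → Z → ℝ) (hω : ∀ c, 0 ≤ ω c) (hw : ∀ t, (∑ c ∈ I, if tt c = t then ω c else 0) ≤ 1)
    (h0 : ∀ c z, 0 ≤ θ c z) (h1 : ∀ c z, θ c z ≤ 1) (T : Finset ℕ) :
    ∀ φ : Z → ℝ, (∀ z, 0 ≤ φ z) → ∃ J ⊆ I, (∀ c ∈ J, tt c ∈ T) ∧ J.card ≤ T.card ∧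
      ∑ z ∈ Zf, φ z * ∏ c ∈ J, (1 - θ c z) ≤
        ∑ z ∈ Zf, φ z * ∏ t ∈ T, (1 - ∑ c ∈ I, if tt c = t then ω c * θ c z else 0) := by
  have hav : ∀ t z, (∑ c ∈ I, if tt c = t then ω c * θ c z else 0) ≤ 1 := fun t z =>
    (sum_le_sum fun c _ => by
      split_ifs
      · exact mul_le_of_le_one_right (hω c) (h1 c z)
      · exact le_rfl).trans (hw t)
  induction T using Finset.induction_on with
  | empty => exact fun φ _ => ⟨∅, empty_subset _, by simp, by simp, by simp⟩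
  | insert t T ht ih =>
    intro φ hφ
    set ψ : Z → ℝ := fun z =>
      φ z * ∏ t ∈ T, (1 - ∑ c ∈ I, if tt c = t then ω c * θ c z else 0) with hψ
    have hψ0 : ∀ z, 0 ≤ ψ z := fun z =>
      mul_nonneg (hφ z) (prod_nonneg fun u _ => sub_nonneg.2 (hav u z))
    set B : ι → ℝ := fun c => ∑ z ∈ Zf, ψ z * θ c z with hB
    have hB0 : ∀ c, 0 ≤ B c := fun c => sum_nonneg fun z _ => mul_nonneg (hψ0 z) (h0 c z)
    have hR : ∑ z ∈ Zf, φ z * ∏ u ∈ insert t T,
        (1 - ∑ c ∈ I, if tt c = u then ω c * θ c z else 0) =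
        ∑ z ∈ Zf, ψ z - ∑ c ∈ I.filter fun c => tt c = t, ω c * B c := by
      simp only [hB, mul_sum]
      rw [sum_comm, ← sum_sub_distrib]
      refine sum_congr rfl fun z _ => ?_
      rw [prod_insert ht, ← sum_filter, mul_left_comm]
      change _ * ψ z = _
      rw [sub_mul, one_mul, sum_mul]
      congr 1
      exact sum_congr rfl fun c _ => by ring
    rw [hR]
    rcases (I.filter fun c => tt c = t).eq_empty_or_nonempty with he | hne
    · obtain ⟨J, a, b, c, d⟩ := ih φ hφ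
      refine ⟨J, a, fun c hc => mem_insert_of_mem (b c hc),
        c.trans (card_le_card (subset_insert _ _)), ?_⟩
      rw [he, sum_empty, sub_zero]
      exact d
    · obtain ⟨c0, hc0, hmax⟩ := exists_max_image _ B hne
      obtain ⟨hI, htt⟩ := mem_filter.1 hc0
      obtain ⟨J, a, b, c, d⟩ := ih (fun z => φ z * (1 - θ c0 z))
        fun z => mul_nonneg (hφ z) (sub_nonneg.2 (h1 c0 z))
      have hn : c0 ∉ J := fun h => ht (htt ▸ b c0 h)
      refine ⟨insert c0 J, insert_subset hI a, ?_, ?_, ?_⟩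
      · intro c hc
        rcases mem_insert.1 hc with rfl | hc
        · rw [htt]; exact mem_insert_self _ _
        · exact mem_insert_of_mem (b c hc)
      · rw [card_insert_of_notMem hn, card_insert_of_notMem ht]; omega
      · have h2 : ∑ c ∈ I.filter fun c => tt c = t, ω c * B c ≤ B c0 := by
          calc ∑ c ∈ I.filter fun c => tt c = t, ω c * B c
              ≤ ∑ c ∈ I.filter fun c => tt c = t, ω c * B c0 :=
                sum_le_sum fun c hc => mul_le_mul_of_nonneg_left (hmax c hc) (hω c)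
            _ = (∑ c ∈ I, if tt c = t then ω c else 0) * B c0 := by rw [← sum_mul, sum_filter]
            _ ≤ B c0 := mul_le_of_le_one_left (hB0 c0) (hw t)
        have h3 : ∑ z ∈ Zf, φ z * (1 - θ c0 z) *
            ∏ t ∈ T, (1 - ∑ c ∈ I, if tt c = t then ω c * θ c z else 0) =
            ∑ z ∈ Zf, ψ z - B c0 := by
          rw [hB, ← sum_sub_distrib]
          exact sum_congr rfl fun z _ => by simp only [hψ]; ring
        have h4 : ∑ z ∈ Zf, φ z * ∏ c ∈ insert c0 J, (1 - θ c z) =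
            ∑ z ∈ Zf, φ z * (1 - θ c0 z) * ∏ c ∈ J, (1 - θ c z) :=
          sum_congr rfl fun z _ => by rw [prod_insert hn, mul_assoc]
        rw [h4]
        linarith

theorem ent_point {w g ρ φ o : ℝ} (hw : 0 ≤ w) (hg : 0 ≤ g) (hρ : 0 < ρ) (ho : 0 < o)
    (hφ0 : 0 ≤ φ) (hφ1 : φ ≤ 1) (h : w ≤ φ * ρ * o) :
    (g + w) * Real.log ((g + w) / ρ) ≤
      g * Real.log (g / ρ) + (1 + Real.log o) * w + φ * g := by
  rcases hw.eq_or_lt with rfl | hw
  · have := mul_nonneg hφ0 hg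
    simp only [add_zero, mul_zero]
    linarith
  have hs : 0 < g + w := by linarith
  have h1 : g * Real.log ((g + w) / ρ) ≤ g * Real.log (g / ρ) + w := by
    rcases hg.eq_or_lt with rfl | hg
    · simp [hw.le]
    have h2 : (g + w) / ρ = g / ρ * ((g + w) / g) := by field_simp
    have h3 := Real.log_le_sub_one_of_pos (div_pos hs hg)
    rw [h2, Real.log_mul (div_pos hg hρ).ne' (div_pos hs hg).ne', mul_add]
    have h4 : g * ((g + w) / g - 1) = w := by field_simp; ring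
    nlinarith [mul_le_mul_of_nonneg_left h3 hg.le]
  have h2 : w * Real.log ((g + w) / ρ) ≤ Real.log o * w + φ * g := by
    have h3 : (g + w) / ρ = o * ((g + w) / (ρ * o)) := by field_simp
    have h4 := Real.log_le_sub_one_of_pos (div_pos hs (mul_pos hρ ho))
    rw [h3, Real.log_mul ho.ne' (div_pos hs (mul_pos hρ ho)).ne', mul_add]
    have h5 : w * ((g + w) / (ρ * o)) ≤ φ * (g + w) := by
      rw [mul_div_assoc', div_le_iff₀ (mul_pos hρ ho)]
      nlinarith [mul_le_mul_of_nonneg_right h hs.le]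
    nlinarith [mul_le_mul_of_nonneg_left h4 hw.le, mul_le_mul_of_nonneg_right hφ1 hw.le]
  nlinarith

theorem ent_lower {g ρ : ℝ} (hg : 0 ≤ g) (hρ : 0 < ρ) : g - ρ ≤ g * Real.log (g / ρ) := by
  rcases hg.eq_or_lt with rfl | hg
  · simp [hρ.le]
  have h1 := Real.one_sub_inv_le_log_of_pos (div_pos hg hρ)
  have h2 : g * (1 - (g / ρ)⁻¹) = g - ρ := by field_simp
  nlinarith [mul_le_mul_of_nonneg_left h1 hg.le]

theorem ValE_nonneg (X : ℕ → Emi) (e a b : ℕ) : 0 ≤ ValE X e a b :=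
  sum_nonneg fun j _ => by
    have := (X j).val_pos
    split_ifs <;> positivity

theorem ValE_le (X : ℕ → Emi) (e a b : ℕ) : ValE X e a b ≤ ValS X a b :=
  sum_le_sum fun j _ => by
    have := (X j).val_pos
    split_ifs
    · exact le_rfl
    · exact this.le

theorem PW_le_one {K : Str → ℕ} (hK : Kr K) (X : ℕ → Emi) (e hi : ℕ)
    (ho : ∀ i j, i < j → j < hi → nEnd (X i).n ≤ (X j).n) : PW K X e [] 0 hi ≤ 1 := by
  have h1 : PW K X e [] 0 hi ≤ ∑ j ∈ Ico 0 hi, Pay K [] (X j).n (nEnd (X j).n) :=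
    sum_le_sum fun j _ => by
      have := Pay_nonneg K [] (X j).n (nEnd (X j).n)
      split_ifs
      · exact le_rfl
      · exact this
  refine h1.trans ?_
  have h2 := hK.sum_PayL [] ((Ico 0 hi).biUnion fun j => Ico (X j).n (nEnd (X j).n))
  rwa [sum_biUnion] at h2
  intro i hi' j hj hij
  have a := (mem_Ico.1 (mem_coe.1 hi')).2
  have b := (mem_Ico.1 (mem_coe.1 hj)).2
  refine disjoint_left.2 fun l h3 h4 => ?_
  have c := mem_Ico.1 h3
  have d := mem_Ico.1 h4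
  rcases lt_or_gt_of_ne hij with h | h
  · have := ho i j h b; omega
  · have := ho j i h a; omega

theorem rec_bound {K : Str → ℕ} {X : ℕ → Emi} {ρ : ℝ} (hρ : 0 < ρ) {a b : ℕ}
    (h : EntB K X [] 0 ρ a b (2 * ρ)) (e : ℕ) :
    (2 ^ (2 * e + 12) * Real.log 2 - 2) * ValE X e a b ≤ 4 * 2 ^ e * PW K X e [] a b + 3 * ρ := by
  have hns : ∀ j ∈ Ico a b, (X j).root.length ≤ (Ico a b).sup fun j => (X j).root.length :=
    fun j hj => le_sup (f := fun j => (X j).root.length) hj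
  set ns := (Ico a b).sup fun j => (X j).root.length
  have h1 := h e ns hns
  have h2 : ∑ z ∈ Om ns, (2⁻¹ : ℝ) ^ ns * (GG X e a b z - ρ) ≤
      ∑ z ∈ Om ns, (2⁻¹ : ℝ) ^ ns * (GG X e a b z * Real.log (GG X e a b z / ρ)) :=
    sum_le_sum fun z _ =>
      mul_le_mul_of_nonneg_left (ent_lower (GG_nonneg _ _ _ _ _) hρ) (by positivity)
  have h3 : ∑ z ∈ Om ns, (2⁻¹ : ℝ) ^ ns * (GG X e a b z - ρ) = ValE X e a b - ρ := by
    simp only [mul_sub]
    rw [sum_sub_distrib, sum_GG X e a b ns hns, sum_const, card_Om, nsmul_eq_mul]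
    push_cast
    simp only [inv_pow]
    field_simp
  rw [pow_zero] at h1
  nlinarith

end NGibbs

open NGibbs

theorem gibbs (R S : ℕ) (θ : ℕ → ℝ) (h0 : ∀ t, 0 ≤ θ t) (h1 : ∀ t, θ t ≤ 1) :
    ∑ t ∈ range (R * S), θ t * Real.exp (-∑ s ∈ (range S).erase (t % S),
      min 1 (∑ t' ∈ range (R * S), if t < t' ∧ t' % S = s then θ t' else 0)) ≤ R + 8 := by
  rcases Nat.eq_zero_or_pos S with rfl | hS
  · simp only [mul_zero, range_zero, sum_empty]
    positivity
  change ∑ t ∈ range (R * S), θ t * Real.exp (-LL (R * S) S θ t) ≤ R + 8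
  refine (sum_le_sum fun t ht => point h0 h1 (mem_range.1 ht) hS).trans ?_
  rw [sum_add_distrib, ← mul_sum, sum_range_sub (fun t => Real.exp (-Psi (R * S) S θ t)),
    sum_range_mul]
  have h2 : ∑ r ∈ range R, ∑ s ∈ range S,
      min 1 (bb (R * S) S θ (r * S + s + 1) ((r * S + s) % S)) *
        Real.exp (-LL (R * S) S θ (r * S + s)) ≤ ∑ r ∈ range R, (1 : ℝ) :=
    sum_le_sum fun r _ => round h0 r
  rw [sum_const, card_range, nsmul_eq_mul, mul_one] at h2
  have h3 : Real.exp (-Psi (R * S) S θ (R * S)) ≤ 1 :=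
    Real.exp_le_one_iff.2 (neg_nonpos.2
      (sum_nonneg fun s _ => le_min zero_le_one (bb_nonneg h0 _ _)))
  have h4 := Real.exp_pos (-Psi (R * S) S θ 0)
  linarith

theorem select {Z ι : Type} [DecidableEq ι] (Zf : Finset Z) (I : Finset ι) (T : Finset ℕ)
    (tt : ι → ℕ) (ω : ι → ℝ)
    (θ : ι → Z → ℝ) (hω : ∀ c, 0 ≤ ω c) (hw : ∀ t, (∑ c ∈ I, if tt c = t then ω c else 0) ≤ 1)
    (h0 : ∀ c z, 0 ≤ θ c z) (h1 : ∀ c z, θ c z ≤ 1) (hT : ∀ c ∈ I, tt c ∈ T) :
    ∃ J ⊆ I, J.card ≤ T.card ∧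
      ∑ z ∈ Zf, min 1 (∑ c ∈ I, ω c * θ c z) ≤ 2 * ∑ z ∈ Zf, min 1 (∑ c ∈ J, θ c z) := by
  obtain ⟨J, a, -, c, d⟩ := select_aux Zf I tt ω θ hω hw h0 h1 T (fun _ => 1) fun _ => zero_le_one
  refine ⟨J, a, c, ?_⟩
  simp only [one_mul] at d
  have h2 : ∀ z ∈ Zf, min 1 (∑ c ∈ I, ω c * θ c z) ≤
      2 * (1 - ∏ t ∈ T, (1 - ∑ c ∈ I, if tt c = t then ω c * θ c z else 0)) := by
    intro z _
    have b0 : ∀ t ∈ T, 0 ≤ ∑ c ∈ I, if tt c = t then ω c * θ c z else 0 := fun t _ =>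
      sum_nonneg fun c _ => by
        have := mul_nonneg (hω c) (h0 c z)
        split_ifs <;> simp [this]
    have b1 : ∀ t ∈ T, (∑ c ∈ I, if tt c = t then ω c * θ c z else 0) ≤ 1 := fun t _ =>
      (sum_le_sum fun c _ => by
        split_ifs
        · exact mul_le_of_le_one_right (hω c) (h1 c z)
        · exact le_rfl).trans (hw t)
    have h3 := prod_mul_le T _ b0 b1
    have h4 : ∑ t ∈ T, (∑ c ∈ I, if tt c = t then ω c * θ c z else 0) =
        ∑ c ∈ I, ω c * θ c z := by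
      rw [sum_comm]
      exact sum_congr rfl fun c hc => by rw [sum_ite_eq T (tt c), if_pos (hT c hc)]
    rw [h4] at h3
    have h5 : 0 ≤ ∏ t ∈ T, (1 - ∑ c ∈ I, if tt c = t then ω c * θ c z else 0) :=
      prod_nonneg fun t ht => sub_nonneg.2 (b1 t ht)
    have h6 : 0 ≤ ∑ c ∈ I, ω c * θ c z := sum_nonneg fun c _ => mul_nonneg (hω c) (h0 c z)
    set P := ∏ t ∈ T, (1 - ∑ c ∈ I, if tt c = t then ω c * θ c z else 0)
    set A := ∑ c ∈ I, ω c * θ c z
    rcases le_total 1 A with h | h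
    · rw [min_eq_left h]
      nlinarith [mul_le_mul_of_nonneg_left h h5]
    · rw [min_eq_right h]
      by_contra hc
      have h7 : 2 - A < 2 * P := by linarith
      nlinarith [mul_lt_mul_of_pos_right h7 (by linarith : 0 < 1 + A),
        mul_nonneg h6 (sub_nonneg.2 h)]
  have h3 : ∀ z ∈ Zf, 1 - ∏ c ∈ J, (1 - θ c z) ≤ min 1 (∑ c ∈ J, θ c z) := fun z _ =>
    le_min (sub_le_self _ (prod_nonneg fun c _ => sub_nonneg.2 (h1 c z)))
      (one_sub_prod_le J _ (fun c _ => h0 c z) fun c _ => h1 c z)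
  have h4 := sum_le_sum h2
  have h5 := sum_le_sum h3
  rw [← mul_sum, sum_sub_distrib] at h4
  rw [sum_sub_distrib] at h5
  linarith

theorem wide_ent {K : Str → ℕ} {X : ℕ → Emi} {σ : Str} {q : ℕ} {ρ0 err φ V : ℝ}
    {lo mid hi e0 : ℕ} (h : EntB K X σ q ρ0 lo mid err) (h1 : lo ≤ mid) (h2 : mid ≤ hi)
    (hρ : 0 < ρ0) (hφ0 : 0 ≤ φ) (hφ1 : φ ≤ 1) (hV : ValS X lo mid ≤ V)
    (he : ∀ j ∈ Ico mid hi, (X j).e = e0)
    (hd : ∀ z, GG X e0 mid hi z ≤ φ * ρ0 * 2⁻¹ ^ 2 ^ (2 * e0 + 12)) :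
    EntB K X σ q ρ0 lo hi (err + φ * V) := by
  intro e ns hns
  have hsub1 : Ico lo mid ⊆ Ico lo hi := Ico_subset_Ico le_rfl h2
  have hsub2 : Ico mid hi ⊆ Ico lo hi := Ico_subset_Ico h1 le_rfl
  have h3 := h e ns fun j hj => hns j (hsub1 hj)
  have eG : ∀ z, GG X e lo hi z = GG X e lo mid z + GG X e mid hi z := fun z =>
    (sum_Ico_consecutive _ h1 h2).symm
  have eV : ValE X e lo hi = ValE X e lo mid + ValE X e mid hi :=
    (sum_Ico_consecutive _ h1 h2).symm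
  have eP : PW K X e σ lo hi = PW K X e σ lo mid + PW K X e σ mid hi :=
    (sum_Ico_consecutive _ h1 h2).symm
  have hP : 0 ≤ 4 * 2 ^ e * PW K X e σ mid hi := by
    have := PW_nonneg K X e σ mid hi
    positivity
  have hd' : ∀ z, GG X e mid hi z ≤ φ * ρ0 * 2⁻¹ ^ 2 ^ (2 * e + 12) := by
    intro z
    by_cases hee : e = e0
    · subst hee; exact hd z
    · have : GG X e mid hi z = 0 :=
        sum_eq_zero fun j hj => if_neg fun hh => hee (hh.1.symm.trans (he j hj))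
      rw [this]; positivity
  have h4 : ∑ z ∈ Om ns, (2⁻¹ : ℝ) ^ ns * (GG X e lo hi z * Real.log (GG X e lo hi z / ρ0)) ≤
      ∑ z ∈ Om ns, ((2⁻¹ : ℝ) ^ ns * (GG X e lo mid z * Real.log (GG X e lo mid z / ρ0)) +
        (1 + Real.log (2⁻¹ ^ 2 ^ (2 * e + 12))) * (2⁻¹ ^ ns * GG X e mid hi z) +
        φ * (2⁻¹ ^ ns * GG X e lo mid z)) := by
    refine sum_le_sum fun z _ => ?_
    have h5 := ent_point (GG_nonneg X e mid hi z) (GG_nonneg X e lo mid z) hρ (by positivity)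
      hφ0 hφ1 (hd' z)
    rw [eG]
    refine (mul_le_mul_of_nonneg_left h5 (by positivity)).trans_eq ?_
    ring
  rw [sum_add_distrib, sum_add_distrib, ← mul_sum _ _ φ,
    ← mul_sum _ _ (1 + Real.log (2⁻¹ ^ 2 ^ (2 * e + 12))),
    sum_GG X e mid hi ns fun j hj => hns j (hsub2 hj),
    sum_GG X e lo mid ns fun j hj => hns j (hsub1 hj), Real.log_pow, Real.log_inv] at h4
  have h5 : φ * ValE X e lo mid ≤ φ * V :=
    mul_le_mul_of_nonneg_left ((ValE_le X e lo mid).trans hV) hφ0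
  have h6 : 0 ≤ 2 * 2⁻¹ ^ q * ValE X e mid hi := by
    have := ValE_nonneg X e mid hi
    positivity
  rw [eV, eP]
  push_cast at h4
  nlinarith

theorem root_bound {K : Str → ℕ} (hK : Kr K) (X : ℕ → Emi) (rs : List Rec) (hi k : ℕ)
    (ht : Tiles 0 rs hi) (hl : rs.length ≤ 2 ^ k)
    (he : ∀ c ∈ rs, EntB K X [] 0 (2⁻¹ ^ (3 + k)) c.a c.b (2 * 2⁻¹ ^ (3 + k)))
    (ho : ∀ i j, i < j → j < hi → nEnd (X i).n ≤ (X j).n) : ValS X 0 hi ≤ 2⁻¹ ^ 7 := by
  have h1 : ∀ e, ValE X e 0 hi ≤ 2⁻¹ ^ 8 * 2⁻¹ ^ e := by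
    intro e
    have eV : ValE X e 0 hi = ∑ i : Fin rs.length, ValE X e rs[i].a rs[i].b := by
      rw [ValE, ht.sum, sum_map_eq]; rfl
    have eP : PW K X e [] 0 hi = ∑ i : Fin rs.length, PW K X e [] rs[i].a rs[i].b := by
      rw [PW, ht.sum, sum_map_eq]; rfl
    have h2 : ∑ i : Fin rs.length, (2 ^ (2 * e + 12) * Real.log 2 - 2) *
        ValE X e rs[i].a rs[i].b ≤ ∑ i : Fin rs.length,
          (4 * 2 ^ e * PW K X e [] rs[i].a rs[i].b + 3 * 2⁻¹ ^ (3 + k)) :=
      sum_le_sum fun i _ => rec_bound (by positivity) (he _ (List.getElem_mem _)) e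
    rw [← mul_sum, ← eV, sum_add_distrib, ← mul_sum, ← eP, sum_const, card_univ,
      Fintype.card_fin, nsmul_eq_mul] at h2
    have h3 := PW_le_one hK X e hi ho
    have h4 : (rs.length : ℝ) * (3 * 2⁻¹ ^ (3 + k)) ≤ 3 / 8 := by
      have h5 : (rs.length : ℝ) ≤ 2 ^ k := by exact_mod_cast hl
      calc (rs.length : ℝ) * (3 * 2⁻¹ ^ (3 + k)) ≤ 2 ^ k * (3 * 2⁻¹ ^ (3 + k)) :=
            mul_le_mul_of_nonneg_right h5 (by positivity)
        _ = 3 / 8 := by
            rw [pow_add]; simp only [inv_pow]; field_simp; norm_num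
    have h5 : (1 : ℝ) ≤ 2 ^ e := one_le_pow₀ (by norm_num)
    have h6 := Real.log_two_gt_d9
    have h7 := ValE_nonneg X e 0 hi
    have h8 : (2 : ℝ) ^ (2 * e + 12) = 4096 * (2 ^ e * 2 ^ e) := by ring
    rw [h8] at h2
    have h9 : (2⁻¹ : ℝ) ^ 8 * 2⁻¹ ^ e = 1 / (256 * 2 ^ e) := by
      simp only [inv_pow]; field_simp; norm_num
    rw [h9, le_div_iff₀ (by positivity)]
    set p : ℝ := 2 ^ e
    set v := ValE X e 0 hi
    have h10 : 4 * p * PW K X e [] 0 hi ≤ 4 * p := mul_le_of_le_one_right (by positivity) h3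
    have h11 : 2000 * (p * p) ≤ 4096 * (p * p) * Real.log 2 - 2 := by nlinarith
    have h12 : 2000 * (p * p) * v ≤ 5 * p := by nlinarith
    have h13 : 2000 * (p * v) ≤ 5 := by
      have : p * (2000 * (p * v)) ≤ p * 5 := by linarith
      exact le_of_mul_le_mul_left this (by positivity)
    linarith
  have hE : ∀ j ∈ Ico 0 hi, (X j).e ∈ range (((Ico 0 hi).sup fun j => (X j).e) + 1) :=
    fun j hj => mem_range.2 (Nat.lt_succ_of_le (le_sup (f := fun j => (X j).e) hj))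
  set E := ((Ico 0 hi).sup fun j => (X j).e) + 1
  have h2 : ValS X 0 hi = ∑ e ∈ range E, ValE X e 0 hi := by
    unfold ValE ValS
    rw [sum_comm]
    exact sum_congr rfl fun j hj => by rw [sum_ite_eq (range E) (X j).e, if_pos (hE j hj)]
  have h3 : ∀ n : ℕ, ∑ e ∈ range n, (2⁻¹ : ℝ) ^ e = 2 - 2 * 2⁻¹ ^ n := by
    intro n
    induction n with
    | zero => simp
    | succ n ih => rw [sum_range_succ, ih, pow_succ]; ring
  rw [h2]
  refine (sum_le_sum fun e _ => h1 e).trans ?_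
  rw [← mul_sum, h3]
  have : (0 : ℝ) < 2⁻¹ ^ E := by positivity
  norm_num
  linarith

end Pool.Agent.Lib.MP_848037_lc.Neg
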