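import Pool.Agent.Lib.MP_848037_lc.NY

/-!
Existence of a wave: a random set of strings catches a lot of the flow through light edges.
-/

set_option autoImplicit false

namespace Pool.Agent.Lib.MP_848037_lc.Neg

open Finset Pool.Agent.Shared.Type2

namespace NWave

/-- derandomised choice of a random subset for a quadratic objective -/
theorem quad {ι : Type} [DecidableEq ι] (Z : Finset ι) (β : ι → ι → ℝ) (hβ : ∀ t, 0 ≤ β t t)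
    {p : ℝ} (h0 : 0 ≤ p) (h1 : p ≤ 1) (α : ι → ℝ) :
    ∃ H ⊆ Z, p * ∑ t ∈ Z, (α t - β t t) - p ^ 2 * ∑ t ∈ Z, ∑ u ∈ Z, β t u ≤
      ∑ t ∈ H, α t - ∑ t ∈ H, ∑ u ∈ H, β t u := by
  induction Z using Finset.induction_on generalizing α with
  | empty => exact ⟨∅, Subset.rfl, by simp⟩
  | insert z Z hz ih =>
    obtain ⟨H1, s1, e1⟩ := ih α
    obtain ⟨H2, s2, e2⟩ := ih fun t => α t - β z t - β t z
    have hz2 : z ∉ H2 := fun h => hz (s2 h)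
    have k1 : ∑ t ∈ Z, (α t - β z t - β t z - β t t) =
        ∑ t ∈ Z, (α t - β t t) - ∑ t ∈ Z, β z t - ∑ t ∈ Z, β t z := by
      rw [← sum_sub_distrib, ← sum_sub_distrib]
      exact sum_congr rfl fun t _ => by ring
    have k2 : ∑ t ∈ H2, (α t - β z t - β t z) =
        ∑ t ∈ H2, α t - ∑ t ∈ H2, β z t - ∑ t ∈ H2, β t z := by
      rw [← sum_sub_distrib, ← sum_sub_distrib]
    rw [k1, k2] at e2
    have k3 : 0 ≤ p ^ 2 * β z z := mul_nonneg (sq_nonneg p) (hβ z)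
    by_contra hc
    push Not at hc
    have c1 := hc H1 (s1.trans (subset_insert _ _))
    have c2 := hc (insert z H2) (insert_subset_insert _ s2)
    simp only [sum_insert hz, sum_insert hz2, sum_add_distrib] at c1 c2
    rcases eq_or_lt_of_le h0 with rfl | h0'
    · simp only [zero_mul, ne_eq, OfNat.ofNat_ne_zero, not_false_eq_true, zero_pow,
        sub_self] at c1 e1
      linarith
    · have d1 := mul_le_mul_of_nonneg_left (e1.trans c1.le) (sub_nonneg.2 h1)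
      have d2 : p * (α z - β z z + (p * (∑ t ∈ Z, (α t - β t t) - ∑ t ∈ Z, β z t -
          ∑ t ∈ Z, β t z) - p ^ 2 * ∑ t ∈ Z, ∑ u ∈ Z, β t u)) < p * (p * (α z - β z z +
          ∑ t ∈ Z, (α t - β t t)) - p ^ 2 * (β z z + ∑ u ∈ Z, β z u +
          (∑ t ∈ Z, β t z + ∑ t ∈ Z, ∑ u ∈ Z, β t u))) :=
        mul_lt_mul_of_pos_left (by linarith) h0'
      nlinarith

/-- a random set of columns -/
theorem colour {ι κ : Type} [DecidableEq ι] (Rw : Finset κ) (Z : Finset ι) (v : κ → ι → ℝ)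
    {a p : ℝ} (ha : 0 < a) (hv0 : ∀ ρ τ, 0 ≤ v ρ τ) (hv1 : ∀ ρ τ, v ρ τ ≤ a) (h0 : 0 ≤ p)
    (h1 : p ≤ 1) (hrow : ∀ ρ ∈ Rw, p * ∑ τ ∈ Z, v ρ τ ≤ a) (c : ℝ) :
    ∃ H ⊆ Z, p * ((∑ ρ ∈ Rw, ∑ τ ∈ Z, v ρ τ) / 2 - c * Z.card) + c * H.card ≤
      ∑ ρ ∈ Rw, min a (∑ τ ∈ H, v ρ τ) := by
  obtain ⟨H, hH, e⟩ := quad Z (fun t u => ∑ ρ ∈ Rw, v ρ t * v ρ u / (4 * a))
    (fun t => sum_nonneg fun ρ _ => div_nonneg (mul_self_nonneg _) (by positivity)) h0 h1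
    (fun t => ∑ ρ ∈ Rw, v ρ t - c)
  refine ⟨H, hH, ?_⟩
  have sq : ∀ S : Finset ι, ∑ t ∈ S, ∑ u ∈ S, ∑ ρ ∈ Rw, v ρ t * v ρ u / (4 * a) =
      ∑ ρ ∈ Rw, (∑ t ∈ S, v ρ t) ^ 2 / (4 * a) := by
    intro S
    simp only [pow_two, sum_mul_sum, sum_div]
    rw [sum_comm (s := Rw)]
    exact sum_congr rfl fun t _ => sum_comm
  rw [sq, sq] at e
  simp only [sum_sub_distrib, sum_const, nsmul_eq_mul] at e
  rw [sum_comm (s := Z), sum_comm (s := Z), sum_comm (s := H)] at e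
  have b1 : ∑ ρ ∈ Rw, ∑ t ∈ Z, v ρ t * v ρ t / (4 * a) ≤ (∑ ρ ∈ Rw, ∑ t ∈ Z, v ρ t) / 4 := by
    simp only [sum_div]
    refine sum_le_sum fun ρ _ => sum_le_sum fun t _ => ?_
    rw [div_le_div_iff₀ (by positivity) (by norm_num)]
    nlinarith [mul_le_mul_of_nonneg_left (hv1 ρ t) (hv0 ρ t)]
  have b2 : p ^ 2 * ∑ ρ ∈ Rw, (∑ t ∈ Z, v ρ t) ^ 2 / (4 * a) ≤
      p * ((∑ ρ ∈ Rw, ∑ t ∈ Z, v ρ t) / 4) := by
    rw [sum_div, mul_sum, mul_sum]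
    refine sum_le_sum fun ρ hρ => ?_
    have hS : 0 ≤ p * ∑ t ∈ Z, v ρ t := mul_nonneg h0 (sum_nonneg fun t _ => hv0 ρ t)
    rw [← mul_div_assoc, ← mul_div_assoc, div_le_div_iff₀ (by positivity) (by norm_num)]
    nlinarith [mul_le_mul_of_nonneg_left (hrow ρ hρ) hS]
  have b3 : ∑ ρ ∈ Rw, ∑ t ∈ H, v ρ t - ∑ ρ ∈ Rw, (∑ t ∈ H, v ρ t) ^ 2 / (4 * a) ≤
      ∑ ρ ∈ Rw, min a (∑ τ ∈ H, v ρ τ) := by
    rw [← sum_sub_distrib]
    refine sum_le_sum fun ρ _ => le_min ?_ ?_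
    · rw [sub_le_iff_le_add, ← sub_le_iff_le_add', le_div_iff₀ (by positivity)]
      nlinarith [sq_nonneg (∑ t ∈ H, v ρ t - 2 * a)]
    · exact sub_le_self _ (by positivity)
  have b4 := mul_le_mul_of_nonneg_left b1 h0
  nlinarith

theorem two_inv (a : ℕ) : (2 : ℝ) ^ a * 2⁻¹ ^ a = 1 := by
  rw [← mul_pow]; norm_num

theorem inv_le {a b : ℕ} (h : a ≤ b) : (2⁻¹ : ℝ) ^ b ≤ 2⁻¹ ^ a :=
  pow_le_pow_of_le_one (by norm_num) (by norm_num) h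

theorem two_le {a b : ℕ} (h : a ≤ b) : (2 : ℝ) ^ a ≤ 2 ^ b := pow_le_pow_right₀ (by norm_num) h

theorem sub_mul_inv {a b : ℕ} (h : a ≤ b) : (2 : ℝ) ^ (b - a) * 2⁻¹ ^ b = 2⁻¹ ^ a := by
  obtain ⟨c, rfl⟩ := Nat.exists_eq_add_of_le h
  rw [Nat.add_sub_cancel_left, pow_add, mul_left_comm, two_inv, mul_one]

theorem ev_nonneg (D : Lab) (n : ℕ) (ζ : Str) (l : ℕ) {f : Str → Str → ℝ}
    (h0 : ∀ ρ ξ, 0 ≤ f ρ ξ) (ρ0 τ0 : Str) : 0 ≤ ev D n ζ l f ρ0 τ0 :=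
  sum_nonneg fun _ _ => sum_nonneg fun _ _ => mul_nonneg (h0 _ _) (Uv_nonneg _ _ _ _ _)

theorem row_eq (D : Lab) {n : ℕ} {ζ : Str} {l l' : ℕ} (f : Str → Str → ℝ) (h1 : ζ.length ≤ l')
    (h2 : l' ≤ nEnd n) (ρ0 : Str) : ∑ τ0 ∈ Zs ζ l', ev D n ζ l f ρ0 τ0 =
      ∑ ρ ∈ Zs ρ0 (nEnd n), ∑ ξ ∈ Zs ζ (nEnd n), f ρ ξ * Uv D n ζ l ξ := by
  unfold ev
  rw [sum_comm]
  exact sum_congr rfl fun ρ _ => (sum_Zs h1 h2 _).symm

theorem badL_le {D : Lab} (hD : DesignOK D) {n : ℕ} {ζ : Str} (hn : 20 ≤ n) (hζ : ζ.length ≤ n)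
    {f : Str → Str → ℝ} (h0 : ∀ ρ ξ, 0 ≤ f ρ ξ)
    (hz : ∀ ξ ∈ Zs ζ (nEnd n), ∑ ρ ∈ Om (nEnd n), f ρ ξ ≤ 2⁻¹ ^ nEnd n) {r l : ℕ}
    (hr : r ≤ mm n) (hl : l ∈ Ico (n0 n) (nC n)) : badL D n ζ r l f ≤ 2⁻¹ ^ ζ.length := by
  have a1 := le_sub_so hr (mem_Ico.1 hl).1
  have a2 := (mem_Ico.1 hl).2
  have a3 := nC_le_nEnd n
  calc badL D n ζ r l f ≤ ∑ ρ0 ∈ Om (l - so n r), ∑ τ0 ∈ Zs ζ (l - so n r), ev D n ζ l f ρ0 τ0 :=
        sum_le_sum fun ρ0 _ => sum_le_sum fun τ0 _ => by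
          split_ifs
          · exact le_rfl
          · exact ev_nonneg D n ζ l h0 _ _
    _ = ∑ ρ ∈ Om (nEnd n), ∑ ξ ∈ Zs ζ (nEnd n), f ρ ξ * Uv D n ζ l ξ := by
        rw [sum_Om_Zs (l := l - so n r) (m := nEnd n) (by omega)]
        exact sum_congr rfl fun ρ0 _ => row_eq D f (by omega) (by omega) ρ0
    _ = ∑ ξ ∈ Zs ζ (nEnd n), (∑ ρ ∈ Om (nEnd n), f ρ ξ) * Uv D n ζ l ξ := by
        rw [sum_comm]
        exact sum_congr rfl fun ξ _ => (sum_mul _ _ _).symm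
    _ ≤ ∑ ξ ∈ Zs ζ (nEnd n), 2⁻¹ ^ nEnd n * Uv D n ζ l ξ :=
        sum_le_sum fun ξ hξ => mul_le_mul_of_nonneg_right (hz ξ hξ) (Uv_nonneg _ _ _ _ _)
    _ = 2⁻¹ ^ ζ.length := by
        rw [← mul_sum, Uv_sum hD hn hζ hl (by omega), mul_comm, sub_mul_inv (by omega)]

/-- a level with much light flow outside the used levels -/
theorem exists_level {D : Lab} (hD : DesignOK D) {n : ℕ} {ζ : Str} (hn : 20 ≤ n)
    (hζ : ζ.length ≤ n) {f : Str → Str → ℝ} (h0 : ∀ ρ ξ, 0 ≤ f ρ ξ)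
    (hz : ∀ ξ ∈ Zs ζ (nEnd n), ∑ ρ ∈ Om (nEnd n), f ρ ξ ≤ 2⁻¹ ^ nEnd n)
    (hb : ¬ NoBad D n ζ f) (U : Finset ℕ) (hU : U.card ≤ 2 ^ (5 * jT n)) :
    ∃ r ≤ mm n, ∃ l ∈ Ico (n0 n) (nC n), l - so n r ∉ U ∧
      (2⁻¹ : ℝ) ^ (2 * n + r + ζ.length) / 2 ≤ badL D n ζ r l f := by
  unfold NoBad at hb
  push Not at hb
  obtain ⟨r, hr, hb⟩ := hb
  refine ⟨r, hr, ?_⟩
  by_contra hc
  push Not at hc
  have hj := jT_big n
  have c1 : ((Ico (n0 n) (nC n)).filter fun l => l - so n r ∈ U).card ≤ U.card := by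
    refine card_le_card_of_injOn (fun l => l - so n r) (fun l hl => ?_) fun l hl l' hl' e => ?_
    · exact (mem_filter.1 hl).2
    · have b1 := le_sub_so hr (mem_Ico.1 (mem_filter.1 hl).1).1
      have b2 := le_sub_so hr (mem_Ico.1 (mem_filter.1 hl').1).1
      simp only at e
      omega
  have c2 : ∑ l ∈ Ico (n0 n) (nC n), badL D n ζ r l f ≤ ∑ l ∈ Ico (n0 n) (nC n),
      ((if l - so n r ∈ U then (2⁻¹ : ℝ) ^ ζ.length else 0) +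
        2⁻¹ ^ (2 * n + r + ζ.length) / 2) := by
    refine sum_le_sum fun l hl => ?_
    split_ifs with h
    · exact (badL_le hD hn hζ h0 hz hr hl).trans (le_add_of_nonneg_right (by positivity))
    · rw [zero_add]; exact (hc l hl h).le
  rw [sum_add_distrib, ← sum_filter, sum_const, sum_const, Nat.card_Ico, nsmul_eq_mul,
    nsmul_eq_mul, show nC n - n0 n = 2 ^ (6 * jT n) from Nat.add_sub_cancel_left _ _] at c2
  have c3 : (((Ico (n0 n) (nC n)).filter fun l => l - so n r ∈ U).card : ℝ) ≤ 2 ^ (5 * jT n) := by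
    exact_mod_cast c1.trans hU
  have c4 : (2 : ℝ) ^ (5 * jT n) ≤ 2⁻¹ ^ (2 * n + r) * 2 ^ (6 * jT n) / 2 := by
    have e : (2 : ℝ) ^ (5 * jT n) = 2⁻¹ ^ (2 * n + r) * 2 ^ (5 * jT n + (2 * n + r) + 1) / 2 := by
      rw [pow_succ, pow_add (2 : ℝ) (5 * jT n)]
      linear_combination (-2 ^ (5 * jT n) : ℝ) * two_inv (2 * n + r)
    rw [e]
    gcongr
    · norm_num
    · omega
  have c5 := mul_le_mul_of_nonneg_right (c3.trans c4) (by positivity : (0 : ℝ) ≤ 2⁻¹ ^ ζ.length)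
  rw [pow_add (2⁻¹ : ℝ) (2 * n + r)] at c2 hb
  push_cast at c2
  linarith

end NWave

open NWave in
theorem wave_exists {D : Lab} (hD : DesignOK D) (x : Emi) (hn : 20 ≤ x.n)
    (hζ : x.root.length ≤ x.n) (f : Str → Str → ℝ) (h0 : ∀ ρ ξ, 0 ≤ f ρ ξ)
    (hz : ∀ ξ ∈ Zs x.root (nEnd x.n), ∑ ρ ∈ Om (nEnd x.n), f ρ ξ ≤ 2⁻¹ ^ nEnd x.n)
    (hx : ∀ ρ ∈ Om (nEnd x.n), ∑ ξ ∈ Zs x.root (nEnd x.n), f ρ ξ ≤ 2 ^ x.n * 2⁻¹ ^ nEnd x.n)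
    (hb : ¬ NoBad D x.n x.root f) (U : Finset ℕ) (hU : U.card ≤ 2 ^ (5 * jT x.n)) :
    ∃ l ∈ Ico x.n (nC x.n), l ∉ U ∧ ∃ H ⊆ Zs x.root l, ∃ d ≤ lc x + jT x.n,
      lc x ≤ d + 2 * jT x.n ∧ H.card * 2 ^ lc x ≤ 2 ^ (l + d) ∧
      (2⁻¹ : ℝ) ^ (lc x + 3) ≤ 2⁻¹ ^ d * ∑ ρ0 ∈ Om l, min (8 * 2⁻¹ ^ (l + 3 * x.n))
        (2 ^ (2 * jT x.n) * ∑ τ ∈ H, ∑ ρ ∈ Zs ρ0 (nEnd x.n), ∑ ξ ∈ Zs τ (nEnd x.n), f ρ ξ) := by
  obtain ⟨r, hr, l, hl, hlU, hbad⟩ := exists_level hD hn hζ h0 hz hb U hU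
  have hlc : 5 * jT x.n ≤ lc x := by unfold lc; omega
  generalize lc x = c at hlc ⊢
  generalize x.n = n at *
  generalize x.root = ζ at *
  have hj := jT_big n
  have a1 := le_sub_so hr (mem_Ico.1 hl).1
  have a2 := (mem_Ico.1 hl).2
  have a3 := nC_le_nEnd n
  unfold badL at hbad
  generalize hl' : l - so n r = l' at hbad hlU
  have a4 : n ≤ l' := by omega
  have a5 : l' ≤ l := by omega
  refine ⟨l', mem_Ico.2 ⟨a4, by omega⟩, hlU, ?_⟩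
  set v : Str → Str → ℝ := fun ρ0 τ0 =>
    if ev D n ζ l f ρ0 τ0 ≤ (2⁻¹ : ℝ) ^ (l' + 5 * n + r) then ev D n ζ l f ρ0 τ0 else 0 with hv
  have hv0 : ∀ ρ τ, 0 ≤ v ρ τ := fun ρ τ => by
    simp only [hv]
    split_ifs
    · exact ev_nonneg D n ζ l h0 _ _
    · exact le_rfl
  have hv1 : ∀ ρ τ, v ρ τ ≤ (2⁻¹ : ℝ) ^ (l' + 5 * n + r) := fun ρ τ => by
    simp only [hv]
    split_ifs with h
    · exact h
    · positivity
  have hv2 : ∀ ρ τ, v ρ τ ≤ ev D n ζ l f ρ τ := fun ρ τ => by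
    simp only [hv]
    split_ifs
    · exact le_rfl
    · exact ev_nonneg D n ζ l h0 _ _
  have hrow : ∀ ρ0 ∈ Om l', (2⁻¹ : ℝ) ^ (jT n + 6 * n + r) * ∑ τ ∈ Zs ζ l', v ρ0 τ ≤
      2⁻¹ ^ (l' + 5 * n + r) := by
    intro ρ0 hρ0
    have b1 : ∑ τ ∈ Zs ζ l', v ρ0 τ ≤ 2 ^ jT n * 2 ^ n * 2⁻¹ ^ l' :=
      calc ∑ τ ∈ Zs ζ l', v ρ0 τ ≤ ∑ τ ∈ Zs ζ l', ev D n ζ l f ρ0 τ :=
            sum_le_sum fun τ _ => hv2 _ _
        _ = _ := row_eq D f (by omega) (by omega) ρ0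
        _ ≤ ∑ ρ ∈ Zs ρ0 (nEnd n), 2 ^ jT n * (2 ^ n * (2⁻¹ : ℝ) ^ nEnd n) := by
            refine sum_le_sum fun ρ hρ => ?_
            refine le_trans ?_ (mul_le_mul_of_nonneg_left (hx ρ (Zs_subset _ _ hρ))
              (by positivity))
            rw [mul_sum]
            refine sum_le_sum fun ξ _ => ?_
            rw [mul_comm]
            exact mul_le_mul_of_nonneg_right (Uv_le hD hn hζ hl ξ) (h0 _ _)
        _ = 2 ^ jT n * 2 ^ n * 2⁻¹ ^ l' := by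
            rw [sum_const, card_Zs (by rw [mem_Om.1 hρ0]; omega), mem_Om.1 hρ0, nsmul_eq_mul,
              ← sub_mul_inv (a := l') (b := nEnd n) (by omega)]
            push_cast
            ring
    refine (mul_le_mul_of_nonneg_left b1 (by positivity)).trans (le_of_eq ?_)
    rw [show jT n + 6 * n + r = (jT n + n) + (5 * n + r) by ring, ← pow_add, add_assoc l',
      pow_add (2⁻¹ : ℝ) (jT n + n), pow_add (2⁻¹ : ℝ) l']
    linear_combination ((2⁻¹ : ℝ) ^ (5 * n + r) * 2⁻¹ ^ l') * two_inv (jT n + n)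
  obtain ⟨H, hH, e⟩ := colour (Om l') (Zs ζ l') v (by positivity) hv0 hv1 (by positivity)
    (pow_le_one₀ (by norm_num) (by norm_num)) hrow (2⁻¹ ^ (2 * n + r) * 2⁻¹ ^ l' / 8)
  refine ⟨H, hH, ?_⟩
  set Ψ : ℝ := ∑ ρ0 ∈ Om l', min (8 * 2⁻¹ ^ (l' + 3 * n))
    (2 ^ (2 * jT n) * ∑ τ ∈ H, ∑ ρ ∈ Zs ρ0 (nEnd n), ∑ ξ ∈ Zs τ (nEnd n), f ρ ξ) with hΨ
  have hγ : (0 : ℝ) < 2⁻¹ ^ (2 * n + r) / 8 := by positivity
  have b1 : ∑ ρ ∈ Om l', min ((2⁻¹ : ℝ) ^ (l' + 5 * n + r)) (∑ τ ∈ H, v ρ τ) ≤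
      2⁻¹ ^ (2 * n + r) / 8 * Ψ := by
    rw [hΨ, mul_sum]
    refine sum_le_sum fun ρ0 _ => ?_
    rw [mul_min_of_nonneg _ _ hγ.le]
    refine min_le_min (le_of_eq ?_) ?_
    · rw [show l' + 5 * n + r = (2 * n + r) + (l' + 3 * n) by ring, pow_add]
      ring
    · rw [← mul_assoc, mul_sum]
      refine sum_le_sum fun τ _ => (hv2 _ _).trans ?_
      have b2 : (2 : ℝ) ^ jT n ≤ 2⁻¹ ^ (2 * n + r) / 8 * 2 ^ (2 * jT n) := by
        have e : (2 : ℝ) ^ jT n = 2⁻¹ ^ (2 * n + r) / 8 * 2 ^ (jT n + (2 * n + r) + 3) := by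
          rw [pow_add (2 : ℝ) _ 3, pow_add (2 : ℝ) (jT n)]
          linear_combination (-2 ^ jT n : ℝ) * two_inv (2 * n + r)
        rw [e]
        exact mul_le_mul_of_nonneg_left (two_le (by omega)) hγ.le
      unfold ev
      rw [mul_sum]
      refine sum_le_sum fun ρ _ => ?_
      rw [mul_sum]
      refine sum_le_sum fun ξ _ => ?_
      rw [mul_comm]
      exact mul_le_mul_of_nonneg_right ((Uv_le hD hn hζ hl ξ).trans b2) (h0 _ _)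
  have b2 : (2⁻¹ : ℝ) ^ l' * (Zs ζ l').card = 2⁻¹ ^ ζ.length := by
    rw [card_Zs (by omega), mul_comm, ← sub_mul_inv (a := ζ.length) (b := l') (by omega)]
    push_cast
    rfl
  have b3 : (2⁻¹ : ℝ) ^ (jT n + 6 * n + r) * 2⁻¹ ^ ζ.length + 2⁻¹ ^ l' * H.card ≤ Ψ := by
    refine le_of_mul_le_mul_left (le_trans ?_ (e.trans b1)) hγ
    have b4 : (2⁻¹ : ℝ) ^ (2 * n + r) / 8 * 2⁻¹ ^ ζ.length ≤
        (∑ ρ ∈ Om l', ∑ τ ∈ Zs ζ l', v ρ τ) / 2 -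
          2⁻¹ ^ (2 * n + r) * 2⁻¹ ^ l' / 8 * (Zs ζ l').card := by
      rw [pow_add (2⁻¹ : ℝ) (2 * n + r)] at hbad
      have b5 : (2⁻¹ : ℝ) ^ (2 * n + r) * 2⁻¹ ^ l' / 8 * (Zs ζ l').card =
          2⁻¹ ^ (2 * n + r) / 8 * 2⁻¹ ^ ζ.length := by rw [← b2]; ring
      change _ ≤ ∑ ρ ∈ Om l', ∑ τ ∈ Zs ζ l', v ρ τ at hbad
      rw [b5]
      linarith
    have b6 := mul_le_mul_of_nonneg_left b4
      (by positivity : (0 : ℝ) ≤ 2⁻¹ ^ (jT n + 6 * n + r))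
    linarith
  have b4 : (2⁻¹ : ℝ) ^ (2 * jT n) ≤ Ψ := by
    refine le_trans ?_ b3
    rw [← pow_add]
    exact (inv_le (by omega)).trans (le_add_of_nonneg_right (by positivity))
  have b5 : (2⁻¹ : ℝ) ^ l' * H.card ≤ Ψ := le_trans (le_add_of_nonneg_left (by positivity)) b3
  have b6 : Ψ ≤ 1 := by
    refine (sum_le_sum fun ρ _ => min_le_left _ _).trans ?_
    rw [sum_const, card_Om, nsmul_eq_mul, pow_add]
    push_cast
    have := inv_le (show 3 ≤ 3 * n by omega)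
    have e := two_inv l'
    calc (2 : ℝ) ^ l' * (8 * (2⁻¹ ^ l' * 2⁻¹ ^ (3 * n))) = 8 * 2⁻¹ ^ (3 * n) := by
          linear_combination (8 * 2⁻¹ ^ (3 * n) : ℝ) * e
      _ ≤ 1 := by linarith
  have b7 : (2 : ℝ) ^ (c + 3 - 2 * jT n) ≤ 2 ^ (c + 3) * Ψ := by
    refine le_trans (le_of_eq ?_) (mul_le_mul_of_nonneg_left b4 (by positivity))
    obtain ⟨u, hu⟩ := Nat.exists_eq_add_of_le (show 2 * jT n ≤ c + 3 by omega)
    rw [hu, Nat.add_sub_cancel_left, pow_add]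
    linear_combination (-2 ^ u : ℝ) * two_inv (2 * jT n)
  obtain ⟨d, d1, d2⟩ := exists_nat_pow_near ((one_le_pow₀ (by norm_num)).trans b7)
    (show (1 : ℝ) < 2 by norm_num)
  refine ⟨d, ?_, ?_, ?_, ?_⟩
  · have : (2 : ℝ) ^ d ≤ 2 ^ (c + 3) :=
      d1.trans (mul_le_of_le_one_right (by positivity) b6)
    have := (pow_le_pow_iff_right₀ (show (1 : ℝ) < 2 by norm_num)).1 this
    omega
  · have := (pow_lt_pow_iff_right₀ (show (1 : ℝ) < 2 by norm_num)).1 (b7.trans_lt d2)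
    omega
  · have b8 : (H.card : ℝ) * 2 ^ c ≤ 2 ^ (l' + d) := by
      have b9 : (H.card : ℝ) ≤ 2 ^ l' * Ψ := by
        refine le_trans (le_of_eq ?_) (mul_le_mul_of_nonneg_left b5 (by positivity))
        rw [← mul_assoc, two_inv, one_mul]
      have b10 : Ψ * 2 ^ c ≤ 2 ^ d := by
        rw [pow_add, pow_add] at d2
        have : (0 : ℝ) < 2 ^ d := by positivity
        linarith
      calc (H.card : ℝ) * 2 ^ c ≤ 2 ^ l' * Ψ * 2 ^ c :=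
            mul_le_mul_of_nonneg_right b9 (by positivity)
        _ ≤ 2 ^ l' * 2 ^ d := by
            rw [mul_assoc]; exact mul_le_mul_of_nonneg_left b10 (by positivity)
        _ = _ := (pow_add _ _ _).symm
    exact_mod_cast b8
  · have := mul_le_mul_of_nonneg_left d1 (by positivity : (0 : ℝ) ≤ 2⁻¹ ^ (c + 3) * 2⁻¹ ^ d)
    calc (2⁻¹ : ℝ) ^ (c + 3) = 2⁻¹ ^ (c + 3) * 2⁻¹ ^ d * 2 ^ d := by
          linear_combination (-2⁻¹ ^ (c + 3) : ℝ) * two_inv d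
      _ ≤ _ := this
      _ = _ := by linear_combination ((2⁻¹ : ℝ) ^ d * Ψ) * two_inv (c + 3)

end Pool.Agent.Lib.MP_848037_lc.Neg
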