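import Pool.Agent.Lib.MP_848037_lc.NTestA
import Pool.Agent.Lib.MP_848037_lc.NWave

/-!
If no candidate passes the test for waves, little tilted flow passes through light edges.
-/

set_option autoImplicit false

namespace Pool.Agent.Lib.MP_848037_lc.Neg

open Finset Pool.Agent.Shared.Type2 NTest

theorem wave_found {D : Lab} (hD : DesignOK D) (X : ℕ → Emi) (F : Fr) (a b j : ℕ) (x : Emi)
    (hn : 20 ≤ x.n) (hζ : x.root.length ≤ x.n) (lw : ℕ) (hlw : lw ≤ x.n)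
    (hlen : ∀ i ∈ Ico a b, nEnd x.n ≤ (X i).root.length ∧ nEnd x.n ≤ (X i).own.length)
    (hcap : ∀ ρ ∈ Om (nEnd x.n), (∑ i ∈ Ico a b, if ρ <+: (X i).own then (X i).val else 0) ≤
      2 ^ lw * 2⁻¹ ^ (3 + F.b + F.k + F.q + nEnd x.n))
    (hc : F.cnt j ≤ 2 ^ (5 * jT x.n))
    (hno : ∀ w ∈ cands x, wtest F ((List.range (b - a)).map fun i => X (a + i)) j x w = false)
    (f : Str → Str → ℝ) (h0 : ∀ ρ ξ, 0 ≤ f ρ ξ)
    (hf : ∀ ρ ∈ Om (nEnd x.n), ∀ ξ ∈ Zs x.root (nEnd x.n),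
      f ρ ξ ≤ 2 ^ (3 + F.b + F.k + F.q) * ww X x.e a b ρ ξ)
    (hz : ∀ ξ ∈ Zs x.root (nEnd x.n), ∑ ρ ∈ Om (nEnd x.n), f ρ ξ ≤ 2⁻¹ ^ nEnd x.n) :
    NoBad D x.n x.root f := by
  by_contra hb
  have hx : ∀ ρ ∈ Om (nEnd x.n),
      ∑ ξ ∈ Zs x.root (nEnd x.n), f ρ ξ ≤ 2 ^ x.n * 2⁻¹ ^ nEnd x.n := by
    intro ρ hρ
    refine (sum_le_sum (hf ρ hρ)).trans ?_
    rw [← mul_sum]
    refine (mul_le_mul_of_nonneg_left ((sum_ww_out X x.e a b _ ρ x.root).trans (hcap ρ hρ))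
      (by positivity)).trans ?_
    have h1 : (2 : ℝ) ^ (3 + F.b + F.k + F.q) *
        (2 ^ lw * 2⁻¹ ^ (3 + F.b + F.k + F.q + nEnd x.n)) = 2 ^ lw * 2⁻¹ ^ nEnd x.n := by
      rw [pow_add _ (3 + F.b + F.k + F.q), inv_pow]; field_simp
    rw [h1]
    exact mul_le_mul_of_nonneg_right (pow_le_pow_right₀ one_le_two hlw) (by positivity)
  obtain ⟨l, hl, hlU, H, hH, d, hd, p1, p2, p3⟩ := wave_exists hD x hn hζ f h0 hz hx hb
    ((F.wv.filter fun w => decide (w.1 = j)).map Prod.snd).toFinset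
    ((List.toFinset_card_le _).trans (by rw [List.length_map]; exact hc))
  obtain ⟨hl1, hl2⟩ := mem_Ico.1 hl
  have hl3 : l ≤ nEnd x.n := hl2.le.trans (nC_le_nEnd _)
  have hζ' : x.root.length ≤ l := hζ.trans hl1
  have h1 : ((zsL x.root l).filter fun v => decide (v ∈ H)).toFinset = H := by
    ext v
    simp only [List.mem_toFinset, List.mem_filter, decide_eq_true_eq, mem_zsL hζ']
    exact ⟨fun h => h.2, fun h => ⟨hH h, h⟩⟩
  have h2 : ((zsL x.root l).filter fun v => decide (v ∈ H)).Nodup := (nodup_zsL _ _).filter _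
  have h3 := hno _ (mem_cands'.2 ⟨hl1, hl2, List.filter_sublist
    (p := fun v => decide (v ∈ H)), hd⟩)
  rw [← Bool.not_eq_true, wtest_iff X F a b j x l d _ h2
    (fun τ hτ => (mem_Zs.1 ((mem_zsL hζ').1 (List.mem_filter.1 hτ).1)).1)
    (fun i hi => ⟨hl3.trans (hlen i hi).1, hl3.trans (hlen i hi).2⟩),
    ← List.toFinset_card_of_nodup h2, h1] at h3
  refine h3 ⟨fun h => hlU ?_, p1, p2, p3.trans ?_⟩
  · simp only [List.mem_toFinset, List.mem_map, List.mem_filter, decide_eq_true_eq]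
    exact ⟨(j, l), ⟨h, rfl⟩, rfl⟩
  · refine mul_le_mul_of_nonneg_left (sum_le_sum fun ρ0 _ => min_le_min le_rfl ?_) (by positivity)
    rw [pow_add, mul_assoc]
    refine mul_le_mul_of_nonneg_left ?_ (by positivity)
    rw [mul_sum]
    refine sum_le_sum fun τ hτ => ?_
    refine le_trans ?_ (mul_le_mul_of_nonneg_left (sum_ww_le X x.e a b (nEnd x.n) ρ0 τ)
      (by positivity))
    rw [mul_sum]
    refine sum_le_sum fun ρ hρ => ?_
    rw [mul_sum]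
    refine sum_le_sum fun ξ hξ => hf ρ (Zs_subset _ _ hρ) ξ ?_
    exact mem_Zs.2 ⟨(mem_Zs.1 hξ).1, (mem_Zs.1 (hH hτ)).2.trans (mem_Zs.1 hξ).2⟩

end Pool.Agent.Lib.MP_848037_lc.Neg
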