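import Pool.Agent.Lib.MP_848037_lc.NEpoch
import Pool.Agent.Lib.MP_848037_lc.NTest
import Pool.Agent.Lib.MP_848037_lc.NBlk
import Pool.Agent.Lib.MP_848037_lc.NCost

/-!
The stack invariant: definitions, monotonicity, and the closing of a slot.
-/

set_option autoImplicit false

namespace Pool.Agent.Lib.MP_848037_lc.Neg

open Finset Pool.Agent.Shared.Type2

theorem half_le {a b : ℕ} (h : a ≤ b) : (2⁻¹ : ℝ) ^ b ≤ 2⁻¹ ^ a :=
  pow_le_pow_of_le_one (by norm_num) (by norm_num) h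

theorem two_half {a b c : ℕ} (h : c = a + b) : (2 : ℝ) ^ a * 2⁻¹ ^ c = 2⁻¹ ^ b := by
  rw [h, pow_add, ← mul_assoc, ← mul_pow]; norm_num

theorem two_half' {a b c : ℕ} (h : a = c + b) : (2 : ℝ) ^ a * 2⁻¹ ^ c = 2 ^ b := by
  rw [h, pow_add, mul_right_comm, ← mul_pow]; norm_num

theorem two_half_le {a b c d : ℕ} (h : a + d ≤ c + b) :
    (2 : ℝ) ^ a * 2⁻¹ ^ b ≤ 2 ^ c * 2⁻¹ ^ d := by
  have h1 : (2 : ℝ) ^ (a + d) ≤ 2 ^ (c + b) := pow_le_pow_right₀ (by norm_num) h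
  rw [inv_pow, inv_pow, ← div_eq_mul_inv, ← div_eq_mul_inv, div_le_div_iff₀ (by positivity)
    (by positivity), ← pow_add, ← pow_add]
  exact h1

section defs

variable (K : Str → ℕ) (kl : Str × ℕ → ℕ → Bool) (D : Lab) (X : ℕ → Emi)

/-- Indicator that all frames of block `m` are wide. -/
noncomputable def pwv (s : ℕ) (req : List Rq) (ps : List Fr) (m : ℕ) : ℝ :=
  if allW kl s req ps m = true then 1 else 0

/-- Payments at the levels used by the waves for emission `j`. -/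
noncomputable def usedP (F : Fr) (j : ℕ) : ℝ :=
  (F.wv.map fun w => if w.1 = j then PayL K F.σ w.2 else 0).sum

/-- Bound for the value lost so far. -/
noncomputable def Lost (F : Fr) : ℝ :=
  ∑ i ∈ range (2 ^ F.k), lostC K F i * (2 - 2 * 2⁻¹ ^ F.rc i)

/-- Accounting of the waves for emission `j`. -/
def WA (req : List Rq) (F : Fr) (j : ℕ) : Prop :=
  (F.cnt j : ℝ) * 2⁻¹ ^ (lc (X j) + 3) ≤
    8 * 2 ^ (X j).e * 2⁻¹ ^ (3 * (X j).n) * usedP K F j +
      2 ^ (2 * jT (X j).n) * 2⁻¹ ^ lc (X j) * 2 ^ (2 * jT (X j).n + (F.σ.length + F.q + 1)) *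
        2⁻¹ ^ F.N * (Blk K req F (X j).e).card

/-- Facts about a frame. -/
structure HF (s : ℕ) (st : MS) (F : Fr) (ps : List Fr) : Prop where
  ev : ∀ j ∈ Ico F.iE st.em.length, ∀ r ∈ st.req, r.2.1 ≤ F.N → r.1 <+: (X j).root →
    K ((X j).own.take r.2.1) ≤ r.2.2 + (X j).e
  wa : ∀ j ∈ Ico F.i0 F.i1, WA K X st.req F j
  mc : F.J * 2⁻¹ ^ (3 + F.b + F.k) * (1 / 4 - (2⁻¹ ^ (F.q + 5) + 2 * 2⁻¹ ^ (F.q + 7) +
    pwv kl s st.req ps F.m * 2⁻¹ ^ F.rem / 4)) - Lost K F ≤ ValS X F.i1 F.iE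

/-- Value of the finished slots of the current epoch. -/
def MC2 (s : ℕ) (req : List Rq) (F : Fr) (ps : List Fr) (lo : ℕ) : Prop :=
  F.iE ≤ lo ∧ ∃ W : Finset ℕ, 2 * W.card ≤ F.S ∧
    (∀ a ∈ W, a < F.S ∧ wide kl s req F (kidS F.σ F.N a) = true) ∧
    2⁻¹ ^ (3 + F.cb) * (F.t * (1 / 4 - (2⁻¹ ^ (F.q + 5) + 2⁻¹ ^ (F.q + 7))) -
      pwv kl s req ps F.m * (2⁻¹ ^ F.rem / 2) * ((range F.t).filter fun t => t % F.S ∈ W).card) ≤
        ValS X F.iE lo

/-- The records of the epoch of `F` while its child `c` is at work. -/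
structure RsMid (F c : Fr) (rs : List Rec) : Prop where
  til : Tiles F.iE rs c.iE
  le : ∀ r ∈ rs, r.t ≤ F.t
  rec' : ∀ r ∈ rs, RecOK K X F.σ F.N F.q F.cb r
  slot : ∀ t, t ≠ F.t → SlotOK K D X F.σ F.N F.q F.cb rs t
  wt : (rs.map fun r => if r.t = F.t then (2⁻¹ : ℝ) ^ r.r else 0).sum ≤ c.J * 2⁻¹ ^ c.k
  old : ∀ r ∈ rs, r.t < F.t → r.b ≤ c.i1
  gb : ∀ j ∈ Ico c.i0 c.i1, 2 ^ (5 * jT (X j).n) ≤ c.cnt j ∨
    badW K D X F.σ F.N F.q F.cb rs (X j) F.t ≤ c.cnt j * 2⁻¹ ^ c.k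

/-- The finished epochs of the first frame. -/
def RootOK (c : Fr) : Prop :=
  ∃ rs, Tiles 0 rs c.iE ∧ rs.length ≤ c.J ∧
    ∀ r ∈ rs, EntB K X [] 0 (2⁻¹ ^ (3 + 20)) r.a r.b (2 * 2⁻¹ ^ (3 + 20))

/-- Facts about a frame and its parents, without its current epoch. -/
def Below (s : ℕ) (st : MS) : Fr → List Fr → Prop
  | c, [] => HF K kl X s st c [] ∧ RootOK K X c
  | c, F :: ps => HF K kl X s st c (F :: ps) ∧ (∃ rs, RsMid K D X F c rs) ∧
      MC2 kl X s st.req F ps c.i1 ∧ Below s st F ps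

/-- The stack invariant. -/
def SInv (s : ℕ) (st : MS) : Prop :=
  ∃ F ps, st.fs = F :: ps ∧ Below K kl D X s st F ps ∧
    (∃ rs, EpOK K D X F.σ F.N F.q F.cb rs F.iE st.em.length F.t) ∧
    MC2 kl X s st.req F ps st.em.length

/-- What an epoch that ends at `hi` hands to the parent. -/
structure EpRes (c : Fr) (hi : ℕ) : Prop where
  tot : ValS X c.iE hi ≤ 2⁻¹ ^ (3 + c.b + c.k)
  ent : EntB K X c.σ c.q (2 ^ c.σ.length * 2⁻¹ ^ (3 + c.b + c.k)) c.iE hi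
    ((1 + 2⁻¹ ^ c.q) * 2⁻¹ ^ (3 + c.b + c.k))

end defs

variable {K : Str → ℕ} {kl : Str × ℕ → ℕ → Bool} {D : Lab} {X : ℕ → Emi}

/-! ### Monotonicity -/

theorem FrWF.σN {st : MS} {F : Fr} (h : FrWF st F) : F.σ.length ≤ F.N := by
  have := h.lo
  exact le_trans (by omega) (Nat.le_add_right F.k _)

theorem valid_mono (hkl : Appr K kl) {s s' : ℕ} {req nw : List Rq} {e : ℕ} {y ζ : Str}
    (hs : s ≤ s') (hn : ∀ r ∈ nw, y.length < r.2.1) (h : valid kl s req e y ζ = true) :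
    valid kl s' (req ++ nw) e y ζ = true := by
  simp only [valid, List.all_eq_true, List.mem_append, Bool.or_eq_true, decide_eq_true_eq] at h ⊢
  rintro r (hr | hr)
  · rcases h r hr with a | a
    · exact Or.inl a
    · exact Or.inr (hkl.mono _ _ _ hs a)
  · exact Or.inl (Or.inl (hn r hr))

theorem wide_mono (hkl : Appr K kl) {s s' : ℕ} {req nw : List Rq} {F : Fr} {y : Str}
    (hs : s ≤ s') (hn : ∀ r ∈ nw, y.length < r.2.1) (h : wide kl s req F y = true) :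
    wide kl s' (req ++ nw) F y = true := by
  simp only [wide, decide_eq_true_eq] at h ⊢
  refine h.trans (List.Sublist.length_le (List.monotone_filter_right _ fun i hi => ?_))
  exact valid_mono hkl hs hn hi

theorem allW_mono (hkl : Appr K kl) {s s' : ℕ} {req nw : List Rq} {ps : List Fr} {m : ℕ}
    (hs : s ≤ s') (hσ : ∀ G ∈ ps, G.σ.length ≤ G.N) (hn : ∀ r ∈ nw, ∀ G ∈ ps, G.N < r.2.1)
    (h : allW kl s req ps m = true) : allW kl s' (req ++ nw) ps m = true := by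
  simp only [allW, List.all_eq_true, Bool.or_eq_true] at h ⊢
  intro G hG
  refine (h G hG).imp id fun a => wide_mono hkl hs (fun r hr => ?_) a
  rw [Fr.kid, length_kidS (hσ G hG)]
  exact hn r hr G hG

theorem pwv_nonneg (s : ℕ) (req : List Rq) (ps : List Fr) (m : ℕ) : 0 ≤ pwv kl s req ps m := by
  unfold pwv; split_ifs <;> norm_num

theorem pwv_le (s : ℕ) (req : List Rq) (ps : List Fr) (m : ℕ) : pwv kl s req ps m ≤ 1 := by
  unfold pwv; split_ifs <;> norm_num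

theorem pwv_mono (hkl : Appr K kl) {s s' : ℕ} {req nw : List Rq} {ps : List Fr} {m : ℕ}
    (hs : s ≤ s') (hσ : ∀ G ∈ ps, G.σ.length ≤ G.N) (hn : ∀ r ∈ nw, ∀ G ∈ ps, G.N < r.2.1) :
    pwv kl s req ps m ≤ pwv kl s' (req ++ nw) ps m := by
  by_cases h : allW kl s req ps m = true
  · simp [pwv, h, allW_mono hkl hs hσ hn h]
  · rw [pwv, if_neg h]; exact pwv_nonneg _ _ _ _

theorem MC2.mono (hkl : Appr K kl) {s s' : ℕ} {req nw : List Rq} {F : Fr} {ps : List Fr}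
    {lo lo' : ℕ} (hs : s ≤ s') (hσ : ∀ G ∈ F :: ps, G.σ.length ≤ G.N)
    (hn : ∀ r ∈ nw, ∀ G ∈ F :: ps, G.N < r.2.1) (hlo : lo ≤ lo') (h : MC2 kl X s req F ps lo) :
    MC2 kl X s' (req ++ nw) F ps lo' := by
  obtain ⟨h0, W, h1, h2, h3⟩ := h
  refine ⟨h0.trans hlo, W, h1, fun a ha => ⟨(h2 a ha).1, wide_mono hkl hs (fun r hr => ?_)
    (h2 a ha).2⟩, ?_⟩
  · rw [length_kidS (hσ F List.mem_cons_self)]
    exact hn r hr F List.mem_cons_self
  · have h4 := pwv_mono hkl (m := F.m) (req := req) hs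
      (fun G hG => hσ G (List.mem_cons_of_mem _ hG))
      fun r hr G hG => hn r hr G (List.mem_cons_of_mem _ hG)
    have h5 := ValS_add X h0 hlo
    have h6 := ValS_nonneg X lo lo'
    refine le_trans ?_ (h3.trans (by linarith))
    gcongr

theorem WA.mono {req req' : List Rq} {F : Fr} {j : ℕ} (hr : ∀ r ∈ req, r ∈ req')
    (h : WA K X req F j) : WA K X req' F j := by
  refine le_trans h ?_
  have := card_le_card (blk_mono K hr F (X j).e)
  gcongr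

theorem HF.mono (hkl : Appr K kl) {s s' : ℕ} {st st' : MS} {nw : List Rq} {F : Fr} {ps : List Fr}
    (hs : s ≤ s') (hreq : st'.req = st.req ++ nw) (hσ : ∀ G ∈ F :: ps, G.σ.length ≤ G.N)
    (hn : ∀ r ∈ nw, ∀ G ∈ F :: ps, G.N < r.2.1)
    (hev : ∀ j ∈ Ico st.em.length st'.em.length, ∀ r ∈ st.req, r.2.1 ≤ F.N → r.1 <+: (X j).root →
      K ((X j).own.take r.2.1) ≤ r.2.2 + (X j).e)
    (h : HF K kl X s st F ps) : HF K kl X s' st' F ps := by
  refine ⟨fun j hj r hr h1 h2 => ?_, fun j hj => (h.wa j hj).mono fun r hr => ?_, ?_⟩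
  · rw [hreq] at hr
    rcases List.mem_append.1 hr with hr | hr
    · rcases lt_or_ge j st.em.length with a | a
      · exact h.ev j (mem_Ico.2 ⟨(mem_Ico.1 hj).1, a⟩) r hr h1 h2
      · exact hev j (mem_Ico.2 ⟨a, (mem_Ico.1 hj).2⟩) r hr h1 h2
    · exact absurd (hn r hr F List.mem_cons_self) (by omega)
  · rw [hreq]; exact List.mem_append_left _ hr
  · have h4 := pwv_mono hkl (m := F.m) (req := st.req) hs
      (fun G hG => hσ G (List.mem_cons_of_mem _ hG))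
      fun r hr G hG => hn r hr G (List.mem_cons_of_mem _ hG)
    refine le_trans ?_ h.mc
    rw [hreq]
    gcongr

theorem Below.mono (hkl : Appr K kl) {s s' : ℕ} {st st' : MS} {nw : List Rq} {F : Fr}
    {ps : List Fr} (hs : s ≤ s') (hreq : st'.req = st.req ++ nw)
    (hσ : ∀ G ∈ F :: ps, G.σ.length ≤ G.N) (hn : ∀ r ∈ nw, ∀ G ∈ F :: ps, G.N < r.2.1)
    (hev : ∀ j ∈ Ico st.em.length st'.em.length, ∀ r ∈ st.req, ∀ G ∈ F :: ps, r.2.1 ≤ G.N →
      r.1 <+: (X j).root → K ((X j).own.take r.2.1) ≤ r.2.2 + (X j).e)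
    (h : Below K kl D X s st F ps) : Below K kl D X s' st' F ps := by
  induction ps generalizing F with
  | nil => exact ⟨h.1.mono hkl hs hreq hσ hn fun j hj r hr => hev j hj r hr F List.mem_cons_self,
      h.2⟩
  | cons G ps ih =>
    obtain ⟨h1, h2, h3, h4⟩ := h
    have a1 : ∀ G' ∈ G :: ps, G'.σ.length ≤ G'.N := fun G' h => hσ G' (List.mem_cons_of_mem _ h)
    have a2 : ∀ r ∈ nw, ∀ G' ∈ G :: ps, G'.N < r.2.1 :=
      fun r hr G' h => hn r hr G' (List.mem_cons_of_mem _ h)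
    refine ⟨h1.mono hkl hs hreq hσ hn fun j hj r hr => hev j hj r hr F List.mem_cons_self, h2, ?_,
      ih a1 a2 (fun j hj r hr G' h => hev j hj r hr G' (List.mem_cons_of_mem _ h)) h4⟩
    rw [hreq]
    exact h3.mono hkl hs a1 a2 le_rfl

theorem Below.hf {s : ℕ} {st : MS} {F : Fr} {ps : List Fr} (h : Below K kl D X s st F ps) :
    HF K kl X s st F ps := by
  cases ps <;> exact h.1

theorem Below.next {s : ℕ} {st : MS} {F : Fr} {ps : List Fr} (h : Below K kl D X s st F ps) :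
    Below K kl D X s st F.next ps := by
  cases ps with
  | nil => exact ⟨⟨h.1.ev, h.1.wa, h.1.mc⟩, h.2⟩
  | cons G ps =>
    obtain ⟨h1, ⟨rs, h2⟩, h3, h4⟩ := h
    exact ⟨⟨h1.ev, h1.wa, h1.mc⟩, ⟨rs, ⟨h2.til, h2.le, h2.rec', h2.slot, h2.wt, h2.old, h2.gb⟩⟩,
      h3, h4⟩

theorem EntB.mono {σ : Str} {q : ℕ} {ρ0 err err' : ℝ} {a b : ℕ} (h : EntB K X σ q ρ0 a b err)
    (he : err ≤ err') : EntB K X σ q ρ0 a b err' :=
  fun e ns hns => (h e ns hns).trans (by linarith)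

end Pool.Agent.Lib.MP_848037_lc.Neg
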