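import Pool.Agent.Lib.MP_848037_lc.NInv1

/-!
Closing a slot, and closing all frames above a given one.
-/

set_option autoImplicit false

namespace Pool.Agent.Lib.MP_848037_lc.Neg

open Finset Pool.Agent.Shared.Type2

variable {K : Str → ℕ} {kl : Str × ℕ → ℕ → Bool} {D : Lab} {X : ℕ → Emi}

theorem usedP_le {st : MS} {c : Fr} (hc : FrWF st c) (j : ℕ) :
    usedP K c j ≤ Pay K c.σ (st.ex j).n (nEnd (st.ex j).n) := by
  classical
  rw [usedP, ← List.sum_toFinset _ hc.nd, ← sum_filter,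
    ← sum_image (s := c.wv.toFinset.filter fun w => w.1 = j) (g := fun w => w.2)
      (f := fun l => PayL K c.σ l) fun a ha b hb e =>
        Prod.ext ((mem_filter.1 ha).2.trans (mem_filter.1 hb).2.symm) e]
  refine sum_le_sum_of_subset_of_nonneg (fun l hl => ?_) fun _ _ _ => PayL_nonneg _ _ _
  obtain ⟨w, hw, rfl⟩ := mem_image.1 hl
  obtain ⟨a, rfl⟩ := mem_filter.1 hw
  obtain ⟨-, -, b1, b2⟩ := hc.wv w (List.mem_toFinset.1 a)
  exact mem_Ico.2 ⟨b1, b2.trans_le (nC_le_nEnd _)⟩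

theorem quota (hK : Kr K) {st : MS} (h : WF D st) (hX : Agree X st) {c : Fr} (hc : FrWF st c)
    {req : List Rq} {j : ℕ} (hj : j ∈ Ico c.i0 c.i1) (hw : WA K X req c j)
    (hq : 2 ^ (5 * jT (X j).n) ≤ c.cnt j) :
    (X j).val ≤ 2 ^ (X j).e * Pay K c.σ (X j).n (nEnd (X j).n) := by
  obtain ⟨j0, j1⟩ := mem_Ico.1 hj
  have jl : j < st.em.length := j1.trans_le (hc.i1E.trans hc.iE)
  have h1 := usedP_le (K := K) hc j
  obtain ⟨e1, -, e2, -⟩ := h.ems j jl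
  have e3 := hc.mid j j0 jl
  rw [hX j jl] at h1 e1 e2 e3
  have h2 := blk_le hK req c (X j).e
  have h3 := jT_big (X j).n
  have hP := Pay_nonneg K c.σ (X j).n (nEnd (X j).n)
  unfold WA at hw
  set x := X j
  set P := Pay K c.σ x.n (nEnd x.n)
  have h4 : (2 : ℝ) ^ (5 * jT x.n) ≤ c.cnt j := by exact_mod_cast hq
  have h5 : (2 : ℝ) ^ (2 * jT x.n) * 2⁻¹ ^ lc x * 2 ^ (2 * jT x.n + (c.σ.length + c.q + 1)) *
      2⁻¹ ^ c.N * (Blk K req c x.e).card ≤ 2 ^ (5 * jT x.n) * 2⁻¹ ^ (lc x + 4) := by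
    calc _ = (2 : ℝ) ^ (2 * jT x.n) * 2⁻¹ ^ lc x * 2 ^ (2 * jT x.n + (c.σ.length + c.q + 1)) *
          ((Blk K req c x.e).card * 2⁻¹ ^ c.N) := by ring
      _ ≤ (2 : ℝ) ^ (2 * jT x.n) * 2⁻¹ ^ lc x * 2 ^ (2 * jT x.n + (c.σ.length + c.q + 1)) *
          2 ^ (x.e + c.h) := by gcongr
      _ = 2 ^ (2 * jT x.n + (2 * jT x.n + (c.σ.length + c.q + 1)) + (x.e + c.h)) * 2⁻¹ ^ lc x := by
          simp only [pow_add]; ring
      _ ≤ _ := two_half_le (by unfold Fr.h; omega)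
  have h6 : (2 : ℝ) ^ (5 * jT x.n) * 2⁻¹ ^ (lc x + 4) = x.val * 2⁻¹ ^ (2 * x.n + 4) := by
    rw [two_half (b := x.A + (2 * x.n + 4)) (by unfold lc; omega), pow_add]; rfl
  have h7 : (2 : ℝ) ^ (5 * jT x.n) * 2⁻¹ ^ (lc x + 3) = 2 * (2 ^ (5 * jT x.n) * 2⁻¹ ^ (lc x + 4)) := by
    rw [pow_succ (2⁻¹ : ℝ) (lc x + 3)]; ring
  have h8 : x.val * 2⁻¹ ^ (2 * x.n + 4) ≤ 8 * 2 ^ x.e * 2⁻¹ ^ (3 * x.n) * P := by
    have a : (2 : ℝ) ^ (5 * jT x.n) * 2⁻¹ ^ (lc x + 3) ≤ c.cnt j * 2⁻¹ ^ (lc x + 3) := by gcongr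
    have b : 8 * 2 ^ x.e * 2⁻¹ ^ (3 * x.n) * usedP K c j ≤ 8 * 2 ^ x.e * 2⁻¹ ^ (3 * x.n) * P := by
      gcongr
    linarith
  have h9 : (8 : ℝ) * 2⁻¹ ^ (3 * x.n) ≤ 2⁻¹ ^ (2 * x.n + 4) := by
    have := two_half_le (a := 3) (b := 3 * x.n) (c := 0) (d := 2 * x.n + 4) (by omega)
    norm_num at this ⊢
    exact this
  have h10 : x.val * 2⁻¹ ^ (2 * x.n + 4) ≤ 2 ^ x.e * P * 2⁻¹ ^ (2 * x.n + 4) := by
    refine h8.trans ?_
    calc _ = 2 ^ x.e * P * (8 * 2⁻¹ ^ (3 * x.n)) := by ring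
      _ ≤ _ := by gcongr
  exact le_of_mul_le_mul_right h10 (by positivity)

section recs

variable {σ : Str} {N q cb : ℕ} {rs : List Rec}

theorem badW_nonneg (x : Emi) (t : ℕ) : 0 ≤ badW K D X σ N q cb rs x t :=
  List.sum_nonneg fun a ha => by
    obtain ⟨c, -, rfl⟩ := List.mem_map.1 ha
    split_ifs <;> positivity

theorem badW_zero (x : Emi) {t : ℕ} (h : ∀ c ∈ rs, c.t ≠ t) : badW K D X σ N q cb rs x t = 0 :=
  List.sum_eq_zero fun a ha => by
    obtain ⟨c, hc, rfl⟩ := List.mem_map.1 ha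
    exact if_neg fun e => h c hc e.1

theorem badW_snoc_le (x : Emi) (t : ℕ) (c : Rec) :
    badW K D X σ N q cb (rs ++ [c]) x t ≤ badW K D X σ N q cb rs x t + 2⁻¹ ^ c.r := by
  simp only [badW, List.map_append, List.sum_append, List.map_cons, List.map_nil, List.sum_cons,
    List.sum_nil, add_zero]
  split_ifs
  · exact le_rfl
  · gcongr; positivity

theorem badW_snoc_eq (x : Emi) (t : ℕ) (c : Rec) (h : c.t ≠ t ∨
    GoodR K D X x (kidS σ N t) (3 + cb + c.r + (q + 1)) (N + q + 2) c.a c.b) :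
    badW K D X σ N q cb (rs ++ [c]) x t = badW K D X σ N q cb rs x t := by
  simp only [badW, List.map_append, List.sum_append, List.map_cons, List.map_nil, List.sum_cons,
    List.sum_nil, add_zero]
  rw [if_neg (by tauto), add_zero]

theorem slot_snoc_ne {t : ℕ} {c : Rec} (hle : ∀ r ∈ rs, r.t ≤ c.t) (ht : t ≠ c.t)
    (h : SlotOK K D X σ N q cb rs t) : SlotOK K D X σ N q cb (rs ++ [c]) t := by
  refine ⟨by simpa [ht.symm] using h.wt, fun r hr h1 j hj => ?_⟩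
  rw [badW_snoc_eq _ _ _ (Or.inl ht.symm)]
  rcases List.mem_append.1 hr with hr | hr
  · exact h.good r hr h1 j hj
  · rw [List.mem_singleton.1 hr] at h1
    right
    rw [badW_zero _ fun r hr e => by have := hle r hr; omega]
    positivity

theorem EpOK.mono {lo hi tb tb' : ℕ} (h : EpOK K D X σ N q cb rs lo hi tb) (ht : tb ≤ tb') :
    EpOK K D X σ N q cb rs lo hi tb' :=
  ⟨h.til, fun c hc => (h.lt c hc).trans_le ht, h.rec', h.slot⟩

theorem epOK_nil (lo tb : ℕ) : EpOK K D X σ N q cb [] lo lo tb :=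
  ⟨rfl, by simp, by simp, fun t => ⟨by simp, by simp⟩⟩

end recs

theorem close_slot (hK : Kr K) {st : MS} (h : WF D st) (hX : Agree X st) {F c : Fr}
    (hc : FrWF st c) (hl : LinkWF c F) {rs : List Rec} (hr : RsMid K D X F c rs) {req : List Rq}
    (hw : ∀ j ∈ Ico c.i0 c.i1, WA K X req c j) {hi : ℕ} (hhi : c.iE ≤ hi)
    (hn : RecOK K X F.σ F.N F.q F.cb ⟨F.t, c.iE, hi, c.k⟩) :
    EpOK K D X F.σ F.N F.q F.cb (rs ++ [⟨F.t, c.iE, hi, c.k⟩]) F.iE hi (F.t + 1) := by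
  refine ⟨hr.til.snoc hhi _ _, fun r hr' => ?_, fun r hr' => ?_, fun t => ?_⟩
  · rcases List.mem_append.1 hr' with a | a
    · exact Nat.lt_succ_of_le (hr.le r a)
    · rw [List.mem_singleton.1 a]; exact Nat.lt_succ_self _
  · rcases List.mem_append.1 hr' with a | a
    · exact hr.rec' r a
    · rw [List.mem_singleton.1 a]; exact hn
  by_cases ht : t = F.t
  swap
  · exact slot_snoc_ne hr.le ht (hr.slot t ht)
  subst ht
  have hJ : ((c.J : ℝ) + 1) * 2⁻¹ ^ c.k ≤ 1 := by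
    have h1 : (c.J : ℝ) + 1 ≤ 2 ^ c.k := by exact_mod_cast hc.J
    calc _ ≤ (2 : ℝ) ^ c.k * 2⁻¹ ^ c.k := by gcongr
      _ = 1 := by rw [← mul_pow]; norm_num
  refine ⟨?_, fun r hr' h1 j hj => ?_⟩
  · have := hr.wt
    simp only [List.map_append, List.sum_append, List.map_cons, List.map_nil, List.sum_cons,
      List.sum_nil, add_zero, if_true]
    linarith
  · have hr'' : r ∈ rs := by
      rcases List.mem_append.1 hr' with a | a
      · exact a
      · rw [List.mem_singleton.1 a] at h1; exact absurd h1 (lt_irrefl _)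
    have a1 := hr.til.mem hr''
    have a2 := hr.old r hr'' h1
    have a3 := mem_Ico.1 hj
    have hj' : j ∈ Ico c.i0 c.i1 := mem_Ico.2 ⟨by rw [hl.i0]; omega, by omega⟩
    by_cases hq : 2 ^ (5 * jT (X j).n) ≤ c.cnt j
    · left
      have := quota hK h hX hc hj' (hw j hj') hq
      rwa [hl.σ] at this
    · right
      have b1 := (hr.gb j hj').resolve_left hq
      have b2 := badW_snoc_le (K := K) (D := D) (X := X) (σ := F.σ) (N := F.N) (q := F.q)
        (cb := F.cb) (rs := rs) (X j) F.t ⟨F.t, c.iE, hi, c.k⟩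
      have b3 : (c.cnt j : ℝ) + 1 ≤ 2 ^ (5 * jT (X j).n) := by exact_mod_cast not_le.1 hq
      have b4 := hc.old j (by omega)
      rw [hX j (by have := hc.i1E; have := hc.iE; omega)] at b4
      have b5 := pow_le_nEnd (X j).n
      have b6 := jT_big (X j).n
      have b7 := @Nat.lt_two_pow_self (6 * jT (X j).n)
      have b8 := two_half_le (a := 5 * jT (X j).n) (b := c.k) (c := 0) (d := (X j).n) (by omega)
      have b9 : ((c.cnt j : ℝ) + 1) * 2⁻¹ ^ c.k ≤ 2 ^ (5 * jT (X j).n) * 2⁻¹ ^ c.k := by gcongr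
      simp only [pow_zero, one_mul] at b8 b2
      linarith

theorem slots_mul (F : Fr) : (F.slots : ℝ) * 2⁻¹ ^ (3 + F.cb) = 2⁻¹ ^ (3 + F.b + F.k) := by
  unfold Fr.slots
  push_cast
  exact two_half (by unfold Fr.cb; omega)

theorem rho_eq {F : Fr} (hσ : F.σ.length ≤ F.N) :
    (2 : ℝ) ^ (F.q + 6 + F.N) * 2⁻¹ ^ (3 + F.cb) = 2 ^ F.σ.length * 2⁻¹ ^ (3 + F.b + F.k) :=
  le_antisymm (two_half_le (by unfold Fr.cb; omega)) (two_half_le (by unfold Fr.cb; omega))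

theorem ep_res (hD : DesignOK D) {F : Fr} (hσ : F.σ.length ≤ F.N) {rs : List Rec} {hi tb : ℕ}
    (h : EpOK K D X F.σ F.N F.q F.cb rs F.iE hi tb) (ht : tb ≤ F.slots) : EpRes K X F hi := by
  have h1 : (tb : ℝ) * 2⁻¹ ^ (3 + F.cb) ≤ 2⁻¹ ^ (3 + F.b + F.k) := by
    rw [← slots_mul]
    have : (tb : ℝ) ≤ F.slots := by exact_mod_cast ht
    gcongr
  refine ⟨(ep_tot h).trans h1, ?_⟩
  rw [← rho_eq hσ]
  exact (epoch_ent hD h hσ ht).mono (by gcongr)

theorem rec_of_res {F c : Fr} (hσ : F.σ.length ≤ F.N) (hl : LinkWF c F) {hi : ℕ}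
    (h : EpRes K X c hi) (h1 : ∀ j ∈ Ico c.iE hi, c.σ <+: (X j).own ∧ F.fresh ≤ (X j).n ∧
      (X j).root.length ≤ (X j).n) : RecOK K X F.σ F.N F.q F.cb ⟨F.t, c.iE, hi, c.k⟩ := by
  have e1 : c.σ = kidS F.σ F.N F.t := hl.σ
  have e2 : c.σ.length = F.N := by rw [e1, length_kidS hσ]
  refine ⟨fun j hj => e1 ▸ (h1 j hj).1, fun j hj => (h1 j hj).2, ?_, ?_⟩
  · have := h.tot
    rwa [hl.b] at this
  · have := h.ent
    rwa [e2, hl.b, hl.q, e1] at this

/-- The state of a frame after everything above it has been given up. -/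
def Closed (K : Str → ℕ) (kl : Str × ℕ → ℕ → Bool) (D : Lab) (X : ℕ → Emi) (s : ℕ) (st : MS)
    (F : Fr) (ps : List Fr) : Prop :=
  Below K kl D X s st F ps ∧ (∃ rs tb, EpOK K D X F.σ F.N F.q F.cb rs F.iE st.em.length tb ∧
    tb ≤ F.slots ∧ tb ≤ F.t + 1) ∧ ∃ lo ≤ st.em.length, MC2 kl X s st.req F ps lo

theorem closed_all (hK : Kr K) (hD : DesignOK D) {s : ℕ} {st : MS} (h : WF D st) (hX : Agree X st)
    (hI : SInv K kl D X s st) (pre : List Fr) (F : Fr) (ps : List Fr)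
    (hfs : st.fs = pre ++ F :: ps) : Closed K kl D X s st F ps := by
  induction pre using List.reverseRecOn generalizing F ps with
  | nil =>
    obtain ⟨F', ps', e, h1, ⟨rs, h2⟩, h3⟩ := hI
    rw [e] at hfs
    obtain ⟨rfl, rfl⟩ := List.cons.inj hfs
    have hF := h.frs F' (e ▸ List.mem_cons_self)
    exact ⟨h1, ⟨rs, _, h2, hF.t, Nat.le_succ _⟩, _, le_rfl, h3⟩
  | append_singleton pre c ih =>
    rw [List.append_assoc, List.singleton_append] at hfs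
    obtain ⟨⟨b1, ⟨rs, b2⟩, b3, b4⟩, ⟨rs', tb, b5, b6, -⟩, -⟩ := ih c (F :: ps) hfs
    have hc := h.frs c (by rw [hfs]; simp)
    have hF := h.frs F (by rw [hfs]; simp)
    have hl : LinkWF c F := by
      have := h.chain
      rw [hfs] at this
      exact (List.isChain_cons_cons.1 (this.suffix (List.suffix_append _ _))).1
    have r1 := rec_of_res hF.σN hl (ep_res hD hc.σN b5 b6) fun j hj => by
      obtain ⟨j0, j1⟩ := mem_Ico.1 hj
      have a1 := hc.new j (hc.i1E.trans j0) j1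
      have a2 := hF.new j (by
        have := hF.i1E; have := hl.i0; have := hc.i01; have := hc.i1E; omega) j1
      have a3 := h.ems j j1
      rw [hX j j1] at a1 a2 a3
      exact ⟨a1.2.1, a2.1, a3.2.1⟩
    exact ⟨b4, ⟨_, _, close_slot hK h hX hc hl b2 b1.wa hc.iE r1, hl.t, le_rfl⟩, _,
      hc.i1E.trans hc.iE, b3⟩

end Pool.Agent.Lib.MP_848037_lc.Neg
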