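import Pool.Agent.Lib.MP_848037_lc.NInv2

/-!
Values of slots and epochs, and the waves at the end of an epoch.
-/

set_option autoImplicit false

namespace Pool.Agent.Lib.MP_848037_lc.Neg

open Finset Pool.Agent.Shared.Type2

variable {K : Str → ℕ} {kl : Str × ℕ → ℕ → Bool} {D : Lab} {X : ℕ → Emi}

theorem card_wide {F : Fr} (hσ : F.σ.length ≤ F.N) (p : Str → Bool) :
    ((range F.S).filter fun a => p (kidS F.σ F.N a) = true).card =
      ((zsL F.σ F.N).filter p).length := by
  rw [← List.toFinset_card_of_nodup ((nodup_zsL _ _).filter _), List.toFinset_filter,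
    toFinset_zsL hσ, card_filter, card_filter, sum_kidS hσ]
  rfl

theorem MC2.step {s : ℕ} {req : List Rq} {F : Fr} {ps : List Fr} {lo lo' : ℕ}
    (hσ : F.σ.length ≤ F.N) (h : MC2 kl X s req F ps lo) (ht : trig kl s req F = false)
    (hlo : lo ≤ lo') (hv : 2⁻¹ ^ (3 + F.cb) * (1 / 4 - (2⁻¹ ^ (F.q + 5) + 2⁻¹ ^ (F.q + 7)) -
      pwv kl s req (F :: ps) F.m * (2⁻¹ ^ F.rem / 2)) ≤ ValS X lo lo') :
    MC2 kl X s req F.next ps lo' := by
  obtain ⟨h0, W, h1, h2, h3⟩ := h
  set W' := (range F.S).filter fun a => wide kl s req F (kidS F.σ F.N a) = true with hW'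
  have c1 : 2 * W'.card ≤ F.S := by
    rw [hW', card_wide hσ]
    simp only [trig, decide_eq_false_iff_not, not_le] at ht
    exact ht.le
  refine ⟨h0.trans hlo, W', c1, fun a ha => ⟨mem_range.1 (mem_filter.1 ha).1,
    (mem_filter.1 ha).2⟩, ?_⟩
  have c2 : ((range F.t).filter fun t => t % F.S ∈ W).card ≤
      ((range F.t).filter fun t => t % F.S ∈ W').card :=
    card_le_card (monotone_filter_right _ fun t _ ht =>
      mem_filter.2 ⟨mem_range.2 (h2 _ ht).1, (h2 _ ht).2⟩)
  have c3 : pwv kl s req ps F.m * (((range (F.t + 1)).filter fun t => t % F.S ∈ W').card : ℝ) =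
      pwv kl s req ps F.m * ((range F.t).filter fun t => t % F.S ∈ W').card +
        pwv kl s req (F :: ps) F.m := by
    have e1 : F.t % F.S ∈ W' ↔ wide kl s req F F.kid = true := by
      rw [hW', mem_filter, mem_range, Fr.S, kidS_mod]
      exact and_iff_right (Nat.mod_lt _ (by positivity))
    rw [range_add_one, filter_insert]
    by_cases e : wide kl s req F F.kid = true
    · rw [if_pos (e1.2 e), card_insert_of_notMem (by simp)]
      have : pwv kl s req (F :: ps) F.m = pwv kl s req ps F.m := by simp [pwv, allW, e]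
      rw [this]; push_cast; ring
    · rw [if_neg (mt e1.1 e)]
      have : pwv kl s req (F :: ps) F.m = 0 := by simp [pwv, allW, e]
      rw [this, add_zero]
  have c4 := ValS_add X h0 hlo
  have c5 := pwv_nonneg (kl := kl) s req ps F.m
  have c6 : pwv kl s req ps F.m * (2⁻¹ ^ F.rem / 2) *
      (((range F.t).filter fun t => t % F.S ∈ W).card : ℝ) ≤ pwv kl s req ps F.m *
        (2⁻¹ ^ F.rem / 2) * ((range F.t).filter fun t => t % F.S ∈ W').card := by gcongr
  change 2⁻¹ ^ (3 + F.cb) * (((F.t + 1 : ℕ) : ℝ) * (1 / 4 - (2⁻¹ ^ (F.q + 5) + 2⁻¹ ^ (F.q + 7))) -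
      pwv kl s req ps F.m * (2⁻¹ ^ F.rem / 2) *
        ((range (F.t + 1)).filter fun t => t % F.S ∈ W').card) ≤ ValS X F.iE lo'
  rw [mul_right_comm (pwv kl s req ps F.m), c3]
  have c7 : (0 : ℝ) < 2⁻¹ ^ (3 + F.cb) := by positivity
  push_cast
  nlinarith

theorem count_le {S t : ℕ} (hS : 0 < S) {W : Finset ℕ} (hW : 2 * W.card ≤ S) :
    2 * ((range t).filter fun t => t % S ∈ W).card ≤ t + S := by
  have h1 : ((range t).filter fun t => t % S ∈ W).card ≤ (range (t / S + 1) ×ˢ W).card := by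
    refine card_le_card_of_injOn (fun a => (a / S, a % S)) (fun a ha => ?_) fun a _ b _ e => ?_
    · obtain ⟨a1, a2⟩ := mem_filter.1 ha
      exact mem_product.2 ⟨mem_range.2 (Nat.lt_succ_of_le (Nat.div_le_div_right
        (mem_range.1 a1).le)), a2⟩
    · obtain ⟨e1, e2⟩ := Prod.mk.inj e
      rw [← Nat.div_add_mod a S, ← Nat.div_add_mod b S, e1, e2]
  rw [card_product, card_range] at h1
  have h2 := Nat.div_mul_le_self t S
  nlinarith

theorem ep_val {s : ℕ} {st : MS} {F : Fr} {ps : List Fr} {lo hi hi' : ℕ} (hF : FrWF st F)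
    (h : MC2 kl X s st.req F ps lo) (hlo : lo ≤ hi) (hhi : hi ≤ hi') {L : ℝ}
    (hw : (F.slots - (F.t + 1) : ℕ) * 2⁻¹ ^ (3 + F.cb) / 4 - L ≤ ValS X hi hi') :
    2⁻¹ ^ (3 + F.b + F.k) * (1 / 4 - (2⁻¹ ^ (F.q + 5) + 2 * 2⁻¹ ^ (F.q + 7) +
      pwv kl s st.req ps F.m * 2⁻¹ ^ F.rem / 4)) - L ≤ ValS X F.iE hi' := by
  obtain ⟨h0, W, h1, -, h3⟩ := h
  have hS : 0 < F.S := by unfold Fr.S; positivity
  have c1 : 2 * (((range F.t).filter fun t => t % F.S ∈ W).card : ℝ) ≤ F.t + F.S := by
    exact_mod_cast count_le hS h1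
  have c2 : (F.slots : ℝ) ≤ F.t + (F.slots - (F.t + 1) : ℕ) + 1 := by
    exact_mod_cast (by omega : F.slots ≤ F.t + (F.slots - (F.t + 1)) + 1)
  have c3 : (F.t : ℝ) ≤ F.slots := by exact_mod_cast hF.t
  have c4 : (F.slots : ℝ) * 2⁻¹ ^ (F.q + 7) = F.S / 2 := by
    unfold Fr.slots Fr.S
    push_cast
    rw [pow_succ (2⁻¹ : ℝ), ← mul_assoc, two_half' (b := F.N - F.σ.length) rfl]; ring
  have c5 : (1 : ℝ) ≤ F.S := by exact_mod_cast hS
  have c6 : (2⁻¹ : ℝ) ^ F.rem ≤ 2⁻¹ := by simpa using half_le hF.rem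
  have c7 := pwv_nonneg (kl := kl) s st.req ps F.m
  have c8 := pwv_le (kl := kl) s st.req ps F.m
  have c9 := ValS_add X h0 hlo
  have c10 := ValS_add X (h0.trans hlo) hhi
  have c11 := ValS_nonneg X lo hi
  rw [← slots_mul]
  set p := pwv kl s st.req ps F.m * 2⁻¹ ^ F.rem with hp
  have p0 : 0 ≤ p := by positivity
  have p1 : p ≤ 2⁻¹ := by
    calc p ≤ 1 * 2⁻¹ := by rw [hp]; gcongr
      _ = _ := one_mul _
  set c : ℝ := (((range F.t).filter fun t => t % F.S ∈ W).card : ℝ)
  set r : ℝ := ((F.slots - (F.t + 1) : ℕ) : ℝ)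
  set a : ℝ := 2⁻¹ ^ (F.q + 5)
  set b : ℝ := 2⁻¹ ^ (F.q + 7)
  have a0 : 0 ≤ a := by positivity
  have b0 : 0 ≤ b := by positivity
  have key : (F.slots : ℝ) * (1 / 4 - (a + 2 * b + p / 4)) ≤
      F.t * (1 / 4 - (a + b)) - p / 2 * c + r / 4 := by
    have d1 : (F.t : ℝ) * (a + b) ≤ F.slots * (a + b) := by gcongr
    have d2 : p * (2 * c) ≤ p * (F.slots + F.S) := by gcongr; linarith
    have d3 : p * F.S ≤ 2⁻¹ * F.S := by gcongr
    nlinarith
  have d4 : (0 : ℝ) < 2⁻¹ ^ (3 + F.cb) := by positivity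
  have d5 := mul_le_mul_of_nonneg_left key d4.le
  have d6 : pwv kl s st.req ps F.m * (2⁻¹ ^ F.rem / 2) = p / 2 := by rw [hp]; ring
  rw [d6] at h3
  nlinarith

/-- The frame after the end of its epoch. -/
def endF (kl : Str × ℕ → ℕ → Bool) (s : ℕ) (st : MS) (F : Fr) : Fr :=
  { F with
    J := F.J + 1
    t := 0
    iE := (st.em ++ newEm kl s st F).length
    rl := F.rl ++ overs kl s st.req F
    wv := F.wv ++ (waves (st.em ++ newEm kl s st F) F).map fun w => (w.1, w.2.1) }

theorem Lost_endF (s : ℕ) (st : MS) (F : Fr) : Lost K (endF kl s st F) =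
    Lost K F + ((overs kl s st.req F).map fun i => lostC K F i * 2⁻¹ ^ F.rc i).sum := by
  have hn : (overs kl s st.req F).Nodup := List.nodup_range.filter _
  have h1 : ∀ i, (endF kl s st F).rc i = F.rc i + if i ∈ overs kl s st.req F then 1 else 0 := by
    intro i
    simp only [Fr.rc, endF, List.filter_append, List.length_append]
    congr 1
    have : ((overs kl s st.req F).filter fun j => decide (j = i)).length =
        (overs kl s st.req F).count i := by
      rw [List.count_eq_length_filter]; congr 2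
    rw [this]
    split_ifs with h
    · exact List.count_eq_one_of_mem hn h
    · exact List.count_eq_zero_of_not_mem h
  have h2 : (overs kl s st.req F).toFinset =
      (range (2 ^ F.k)).filter fun i => i ∈ overs kl s st.req F := by
    ext i
    simp only [List.mem_toFinset, mem_filter, mem_range, iff_and_self]
    exact fun h => List.mem_range.1 (List.mem_filter.1 h).1
  rw [← List.sum_toFinset _ hn, h2, sum_filter, Lost, Lost, ← sum_add_distrib]
  refine sum_congr rfl fun i _ => ?_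
  rw [h1]
  change lostC K F i * _ = _
  split_ifs
  · rw [pow_succ]; ring
  · simp

theorem Lost_le (hK : Kr K) {F : Fr} (hlo : F.σ.length + F.b + 2 * F.q + 18 ≤ F.k) :
    Lost K F ≤ 2⁻¹ ^ (3 + F.b) * 2⁻¹ ^ (F.q + 7) := by
  have h1 : ∑ i ∈ range (2 ^ F.k), PayL K [] (F.k + 1 + i) ≤ 1 := by
    have := hK.sum_PayL [] ((range (2 ^ F.k)).image fun i => F.k + 1 + i)
    rwa [sum_image fun a _ b _ e => by simpa using e] at this
  calc Lost K F ≤ ∑ i ∈ range (2 ^ F.k), lostC K F i * 2 := sum_le_sum fun i _ => by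
        have := PayL_nonneg K [] (F.k + 1 + i)
        have h2 : 0 ≤ lostC K F i := by unfold lostC; positivity
        have h3 : (0 : ℝ) ≤ 2⁻¹ ^ F.rc i := by positivity
        gcongr; linarith
    _ = 2 ^ (F.σ.length + F.e + F.h + 1) * 2⁻¹ ^ (3 + F.b + F.k + lB F.e) *
        ∑ i ∈ range (2 ^ F.k), PayL K [] (F.k + 1 + i) := by
        rw [mul_sum]
        refine sum_congr rfl fun i _ => ?_
        rw [lostC, pow_succ (2 : ℝ)]; ring
    _ ≤ 2 ^ (F.σ.length + F.e + F.h + 1) * 2⁻¹ ^ (3 + F.b + F.k + lB F.e) * 1 := by gcongr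
    _ ≤ 2 ^ 0 * 2⁻¹ ^ (3 + F.b + (F.q + 7)) := by
        rw [mul_one]
        refine two_half_le ?_
        have : 0 < 2 ^ (2 * F.e + 12) := by positivity
        unfold Fr.h lB; omega
    _ = _ := by rw [pow_zero, one_mul, pow_add]

/-- The wave made for emission `j`, if any. -/
def piece (em : List Emi) (F : Fr) (j : ℕ) : List (ℕ × ℕ × List Str × ℕ) :=
  cond (decide (F.cnt j < 2 ^ (5 * jT (em.getD j default).n)))
    ((((cands (em.getD j default)).filter
      (wtest F (em.drop F.iE) j (em.getD j default))).take 1).map fun w => (j, w)) []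

theorem piece_cases (em : List Emi) (F : Fr) (j : ℕ) :
    (piece em F j = [] ∧ (2 ^ (5 * jT (em.getD j default).n) ≤ F.cnt j ∨
      ∀ w ∈ cands (em.getD j default), wtest F (em.drop F.iE) j (em.getD j default) w = false)) ∨
    ∃ w ∈ cands (em.getD j default), wtest F (em.drop F.iE) j (em.getD j default) w = true ∧
      piece em F j = [(j, w)] := by
  unfold piece
  by_cases h : F.cnt j < 2 ^ (5 * jT (em.getD j default).n)
  · rw [decide_eq_true h, cond_true]
    cases e : (cands (em.getD j default)).filter (wtest F (em.drop F.iE) j (em.getD j default)) with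
    | nil =>
      refine Or.inl ⟨rfl, Or.inr fun w hw => ?_⟩
      simpa using List.filter_eq_nil_iff.1 e w hw
    | cons w l =>
      have : w ∈ (cands (em.getD j default)).filter
        (wtest F (em.drop F.iE) j (em.getD j default)) := e ▸ List.mem_cons_self
      exact Or.inr ⟨w, (List.mem_filter.1 this).1, (List.mem_filter.1 this).2, rfl⟩
  · rw [decide_eq_false h, cond_false]
    exact Or.inl ⟨rfl, Or.inl (not_lt.1 h)⟩

theorem piece_sub {em : List Emi} {F : Fr} {j : ℕ} (hj : j ∈ Ico F.i0 F.i1)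
    {w : ℕ × ℕ × List Str × ℕ} (hw : w ∈ piece em F j) : w ∈ waves em F := by
  obtain ⟨j0, j1⟩ := mem_Ico.1 hj
  obtain ⟨a, rfl⟩ := Nat.exists_eq_add_of_le j0
  exact List.mem_flatMap.2 ⟨a, List.mem_range.2 (by omega), hw⟩

theorem waves_sum (em : List Emi) {F : Fr} {j : ℕ} (hj : j ∈ Ico F.i0 F.i1) (ψ : ℕ → ℝ) :
    (((waves em F).map fun w => (w.1, w.2.1)).map fun w => if w.1 = j then ψ w.2 else 0).sum =
      ((piece em F j).map fun w => ψ w.2.1).sum := by
  obtain ⟨j0, j1⟩ := mem_Ico.1 hj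
  obtain ⟨a, rfl⟩ := Nat.exists_eq_add_of_le j0
  have h1 : ∀ (l : List ℕ) (g : ℕ → List (ℕ × ℕ × List Str × ℕ)) (φ : ℕ × ℕ × List Str × ℕ → ℝ),
      ((l.flatMap g).map φ).sum = (l.map fun a => ((g a).map φ).sum).sum := by
    intro l g φ
    induction l with
    | nil => rfl
    | cons a l ih => simp [ih]
  have h2 : ∀ b, ∀ w ∈ piece em F b, w.1 = b := fun b w hw => by
    rcases piece_cases em F b with ⟨e, -⟩ | ⟨w', -, -, e⟩ <;> rw [e] at hw
    · simp at hw
    · rw [List.mem_singleton.1 hw]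
  rw [List.map_map]
  change ((List.flatMap (fun a => piece em F (F.i0 + a)) _).map _).sum = _
  rw [h1, ← List.sum_toFinset _ List.nodup_range, List.toFinset_range, sum_eq_single a]
  · exact congrArg List.sum (List.map_congr_left fun w hw => if_pos (h2 _ w hw))
  · intro b _ hb
    refine List.sum_eq_zero fun y hy => ?_
    obtain ⟨w, hw, rfl⟩ := List.mem_map.1 hy
    exact if_neg (by have := h2 _ w hw; simp only; omega)
  · intro h
    exact absurd (mem_range.2 (by omega)) h

theorem cnt_eq (F : Fr) (j : ℕ) :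
    (F.cnt j : ℝ) = (F.wv.map fun w => if w.1 = j then (1 : ℝ) else 0).sum := by
  unfold Fr.cnt
  induction F.wv with
  | nil => simp
  | cons w l ih => by_cases h : w.1 = j <;> simp [List.filter_cons, h, ← ih, add_comm]

theorem cnt_endF (s : ℕ) (st : MS) {F : Fr} {j : ℕ} (hj : j ∈ Ico F.i0 F.i1) :
    ((endF kl s st F).cnt j : ℝ) = F.cnt j + (piece (st.em ++ newEm kl s st F) F j).length := by
  rw [cnt_eq, cnt_eq]
  simp only [endF, List.map_append, List.sum_append]
  rw [waves_sum _ hj fun _ => 1]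
  simp

theorem usedP_endF (s : ℕ) (st : MS) {F : Fr} {j : ℕ} (hj : j ∈ Ico F.i0 F.i1) :
    usedP K (endF kl s st F) j = usedP K F j +
      ((piece (st.em ++ newEm kl s st F) F j).map fun w => PayL K F.σ w.2.1).sum := by
  simp only [usedP, endF, List.map_append, List.sum_append]
  rw [waves_sum _ hj fun l => PayL K F.σ l]

theorem drop_eq {st : MS} (hX : Agree X st) (a : ℕ) :
    st.em.drop a = (List.range (st.em.length - a)).map fun i => X (a + i) := by
  refine List.ext_getElem (by simp) fun i h1 h2 => ?_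
  have h3 : a + i < st.em.length := by simp at h1; omega
  rw [List.getElem_drop, List.getElem_map, List.getElem_range, ← hX _ h3, MS.ex,
    List.getD_eq_getElem _ _ h3]

theorem cap_down {a b N l : ℕ} (hl : l ≤ N) (hlen : ∀ j ∈ Ico a b, N ≤ (X j).own.length)
    {lw lu : ℕ} (h : ∀ y ∈ Om N, (∑ j ∈ Ico a b, if y <+: (X j).own then (X j).val else 0) ≤
      2 ^ lw * 2⁻¹ ^ (lu + N)) {ρ : Str} (hρ : ρ ∈ Om l) :
    (∑ j ∈ Ico a b, if ρ <+: (X j).own then (X j).val else 0) ≤ 2 ^ lw * 2⁻¹ ^ (lu + l) := by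
  have hρ' := mem_Om.1 hρ
  calc _ ≤ ∑ j ∈ Ico a b, ∑ y ∈ Zs ρ N, if y <+: (X j).own then (X j).val else 0 :=
        sum_le_sum fun j hj => by
          have hv := (X j).val_pos
          split_ifs with e
          · refine le_trans (le_of_eq (if_pos (List.take_prefix N _)).symm)
              (single_le_sum (f := fun y => if y <+: (X j).own then (X j).val else 0)
                (fun y _ => by split_ifs <;> positivity) (mem_Zs.2 ⟨?_, take_pre e (by omega)⟩))
            have := hlen j hj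
            simp; omega
          · exact sum_nonneg fun y _ => by split_ifs <;> positivity
    _ ≤ ∑ _y ∈ Zs ρ N, (2 : ℝ) ^ lw * 2⁻¹ ^ (lu + N) := by
        rw [sum_comm]
        exact sum_le_sum fun y hy => h y (Zs_subset _ _ hy)
    _ = _ := by
        rw [sum_const, card_Zs (by omega), nsmul_eq_mul]
        push_cast
        rw [mul_left_comm, two_half (b := lu + l) (by omega)]

end Pool.Agent.Lib.MP_848037_lc.Neg
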