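import Pool.Agent.Lib.MP_848037_lc.NInv3

/-!
Facts about the end of an epoch.
-/

set_option autoImplicit false

namespace Pool.Agent.Lib.MP_848037_lc.Neg

open Finset Pool.Agent.Shared.Type2

variable {K : Str → ℕ} {kl : Str × ℕ → ℕ → Bool} {D : Lab} {X : ℕ → Emi} {s : ℕ} {st : MS}
  {F : Fr} {ps : List Fr}

theorem len_le_end : st.em.length ≤ (endEp kl D s st F ps).em.length := by
  simp [endEp]

theorem end_facts (hkl : Appr K kl) (hF : FrWF st F) (hX0 : Agree X st)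
    (hX : Agree X (endEp kl D s st F ps)) (hH : HF K kl X s st F ps) :
    ∀ j ∈ Ico F.iE (endEp kl D s st F ps).em.length, F.σ <+: (X j).own ∧
      F.N ≤ (X j).own.length ∧ F.k ≤ (X j).root.length ∧ ∀ r ∈ st.req, r.2.1 ≤ F.N →
        r.1 <+: (X j).root → K ((X j).own.take r.2.1) ≤ r.2.2 + (X j).e := by
  intro j hj
  obtain ⟨j0, j1⟩ := mem_Ico.1 hj
  rcases lt_or_ge j st.em.length with a | a
  · have := hF.new j (hF.i1E.trans j0) a
    rw [hX0 j a] at this
    exact ⟨this.2.1, this.2.2.1, this.2.2.2, hH.ev j (mem_Ico.2 ⟨j0, a⟩)⟩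
  · obtain ⟨b1, b2, b3, -, b4⟩ := emit_valid hkl hF hX j (mem_Ico.2 ⟨a, j1⟩)
    exact ⟨(mem_Zs.1 b2).2, (mem_Zs.1 b2).1.ge, b3.ge, b1 ▸ b4⟩

theorem end_res (hkl : Appr K kl) (hD : DesignOK D) (hF : FrWF st F)
    (hX : Agree X (endEp kl D s st F ps)) {rs : List Rec} {tb : ℕ}
    (hE : EpOK K D X F.σ F.N F.q F.cb rs F.iE st.em.length tb) (h1 : tb ≤ F.slots)
    (h2 : tb ≤ F.t + 1) : EpRes K X F (endEp kl D s st F ps).em.length := by
  have c1 : (tb : ℝ) + (F.slots - (F.t + 1) : ℕ) ≤ F.slots := by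
    exact_mod_cast (by omega : tb + (F.slots - (F.t + 1)) ≤ F.slots)
  have c2 := ep_tot hE
  have c3 := emit_le hF hX
  have c4 : (0 : ℝ) < 2⁻¹ ^ (3 + F.cb) := by positivity
  have c5 := ValS_add X hF.iE (len_le_end (kl := kl) (D := D) (s := s) (F := F) (ps := ps))
  obtain ⟨φ, p0, p1, p2⟩ := emit_dens hF hX
  have c6 : (0 : ℝ) < F.slots := by unfold Fr.slots; positivity
  have c7 : (0 : ℝ) ≤ tb := by positivity
  have c8 : (0 : ℝ) ≤ (F.slots - (F.t + 1) : ℕ) := by positivity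
  refine ⟨by rw [← slots_mul]; nlinarith, ?_⟩
  rw [← rho_eq hF.σN, ← slots_mul]
  refine (wide_ent (epoch_ent hD hE hF.σN h1) hF.iE len_le_end (by positivity) p0 (by nlinarith) c2
    (fun j hj => (emit_valid hkl hF hX j hj).1) p2).mono ?_
  have c9 : φ * tb ≤ (F.slots - (F.t + 1) : ℕ) := by nlinarith
  have c10 : (0 : ℝ) ≤ 2⁻¹ ^ F.q := by positivity
  have c11 := mul_le_mul_of_nonneg_right c1 c4.le
  have c12 := mul_le_mul_of_nonneg_right c9 c4.le
  have c13 := mul_le_mul_of_nonneg_left c11 c10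
  have c14 := mul_nonneg c10 (mul_nonneg c8 c4.le)
  nlinarith

theorem end_cap (hF : FrWF st F) (hX : Agree X (endEp kl D s st F ps)) {rs : List Rec} {tb : ℕ}
    (hE : EpOK K D X F.σ F.N F.q F.cb rs F.iE st.em.length tb) (h1 : tb ≤ F.slots) :
    ∀ y ∈ Om F.N, (∑ j ∈ Ico F.iE (endEp kl D s st F ps).em.length,
      if y <+: (X j).own then (X j).val else 0) ≤
        2 ^ (F.σ.length + F.q + 1) * 2⁻¹ ^ (3 + F.b + F.k + F.q + F.N) := by
  intro y hy
  have c1 := ep_kid hE hF.σN h1 y (mem_Om.1 hy)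
  have c2 := emit_kid hF hX y (mem_Om.1 hy)
  have c3 := hF.σN
  have c4 := two_half_le (a := F.q + 6 + 1) (b := 3 + F.cb) (c := F.σ.length + F.q + 1)
    (d := 3 + F.b + F.k + F.q + F.N) (by unfold Fr.cb; omega)
  rw [← sum_Ico_consecutive _ hF.iE len_le_end]
  rw [pow_succ (2 : ℝ) (F.q + 6)] at c4
  linarith

theorem end_val (hK : Kr K) (hkl : Appr K kl) (hF : FrWF st F) (hR : RCok K F)
    (hX : Agree X (endEp kl D s st F ps)) (hfin : fin kl s st.req F = true)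
    (hH : HF K kl X s st F ps) {lo : ℕ} (hlo : lo ≤ st.em.length)
    (hM : MC2 kl X s st.req F ps lo) :
    (F.J + 1) * 2⁻¹ ^ (3 + F.b + F.k) * (1 / 4 - (2⁻¹ ^ (F.q + 5) + 2 * 2⁻¹ ^ (F.q + 7) +
      pwv kl s st.req ps F.m * 2⁻¹ ^ F.rem / 4)) - Lost K (endF kl s st F) ≤
        ValS X F.i1 (endEp kl D s st F ps).em.length := by
  have c1 := ep_val hF hM hlo len_le_end (emit_ge hK hkl hF hR hX hfin)
  have c2 := hH.mc
  have c3 := ValS_add X hF.i1E
    (hF.iE.trans (len_le_end (kl := kl) (D := D) (s := s) (F := F) (ps := ps)))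
  rw [Lost_endF]
  linarith

theorem ex_end (hF : FrWF st F) (hX : Agree X (endEp kl D s st F ps)) {j : ℕ}
    (hj : j ∈ Ico F.i0 F.i1) : (st.em ++ newEm kl s st F).getD j default = X j :=
  hX j ((mem_Ico.1 hj).2.trans_le (hF.i1E.trans (hF.iE.trans len_le_end)))

theorem end_wa (hkl : Appr K kl) (h : WF D st) (hF : FrWF st F) (hX0 : Agree X st)
    (hX : Agree X (endEp kl D s st F ps)) (hH : HF K kl X s st F ps) {rs : List Rec} {tb : ℕ}
    (hE : EpOK K D X F.σ F.N F.q F.cb rs F.iE st.em.length tb) (h1 : tb ≤ F.slots) :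
    ∀ j ∈ Ico F.i0 F.i1, WA K X (endEp kl D s st F ps).req (endF kl s st F) j := by
  intro j hj
  have hsub : ∀ r ∈ st.req, r ∈ (endEp kl D s st F ps).req := fun r hr => List.mem_append_left _ hr
  obtain ⟨j0, j1⟩ := mem_Ico.1 hj
  have jl : j < st.em.length := j1.trans_le (hF.i1E.trans hF.iE)
  unfold WA
  rw [cnt_endF s st hj, usedP_endF s st hj]
  rcases piece_cases (st.em ++ newEm kl s st F) F j with ⟨e, -⟩ | ⟨⟨l, H, d⟩, w1, w2, e⟩
  · rw [e, List.length_nil, List.map_nil, List.sum_nil, Nat.cast_zero, add_zero, add_zero]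
    exact (hH.wa j hj).mono hsub
  have hm := piece_sub hj (e ▸ List.mem_singleton_self _)
  rw [e]
  rw [ex_end hF hX hj] at w1 w2
  have a1 := h.ems j jl
  have a2 := hF.mid j j0 jl
  have a3 := hF.old j j1
  rw [hX0 j jl] at a1 a2 a3
  obtain ⟨b1, b2, b3, b4, -⟩ := mem_cands a1.2.1 w1
  have b5 := nC_le_nEnd (X j).n
  have hf := end_facts hkl hF hX0 hX hH
  have hkN : F.k ≤ F.N := Nat.le_add_right _ _
  have hd := drop_eq hX F.iE
  change (st.em ++ newEm kl s st F).drop F.iE = _ at hd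
  rw [hd, wtest_iff X F _ _ j (X j) l d H b3 (fun τ hτ => (mem_Zs.1 (b4 τ hτ)).1)
    fun i hi => ⟨by have := (hf i hi).2.2.1; omega, by have := (hf i hi).2.1; omega⟩] at w2
  obtain ⟨-, t1, -, t2⟩ := w2
  have t3 := wave_account K X F F.iE (endEp kl D s st F ps).em.length (X j).e (X j).n l d
    (3 + F.b + F.k + F.q) (F.σ.length + F.q + 1) (2 * jT (X j).n) H.toFinset st.req
    (endEp kl D s st F ps).req (by omega) (by omega) (fun τ hτ => ⟨(mem_Zs.1 (b4 τ
      (List.mem_toFinset.1 hτ))).1, List.mem_append_right _ (List.mem_append_right _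
        (List.mem_append_left _ (List.mem_flatMap.2 ⟨_, hm,
          List.mem_map.2 ⟨τ, List.mem_toFinset.1 hτ, rfl⟩⟩)))⟩) hsub hF.pin0
    (fun i hi => ⟨(hf i hi).1, (hf i hi).2.1, (hf i hi).2.2.1, fun e => e ▸ (hf i hi).2.2.2⟩)
    (end_cap hF hX hE h1)
  have t4 := hH.wa j hj
  unfold WA at t4
  have t5 : (0 : ℝ) ≤ ((Blk K (endEp kl D s st F ps).req F (X j).e).card : ℝ) -
      (Blk K st.req F (X j).e).card :=
    sub_nonneg.2 (by exact_mod_cast card_le_card (blk_mono K hsub F (X j).e))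
  have t6 := two_half_le (a := 0) (b := d) (c := 2 * jT (X j).n) (d := lc (X j)) (by omega)
  rw [pow_zero, one_mul] at t6
  have t7 : (2⁻¹ : ℝ) ^ d * 2 ^ (2 * jT (X j).n + (F.σ.length + F.q + 1)) * 2⁻¹ ^ F.N *
      (((Blk K (endEp kl D s st F ps).req F (X j).e).card : ℝ) - (Blk K st.req F (X j).e).card) ≤
      2 ^ (2 * jT (X j).n) * 2⁻¹ ^ lc (X j) * 2 ^ (2 * jT (X j).n + (F.σ.length + F.q + 1)) *
        2⁻¹ ^ F.N * (((Blk K (endEp kl D s st F ps).req F (X j).e).card : ℝ) -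
          (Blk K st.req F (X j).e).card) := by gcongr
  change ((F.cnt j : ℝ) + ((1 : ℕ) : ℝ)) * _ ≤ _ * (usedP K F j + (PayL K F.σ l + 0)) +
    _ * 2 ^ (2 * jT (X j).n + (F.σ.length + F.q + 1)) * 2⁻¹ ^ F.N *
      ((Blk K (endEp kl D s st F ps).req F (X j).e).card : ℝ)
  push_cast
  linarith

theorem end_good (hkl : Appr K kl) (hD : DesignOK D) (h : WF D st) (hF : FrWF st F)
    (hX0 : Agree X st) (hX : Agree X (endEp kl D s st F ps)) (hH : HF K kl X s st F ps)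
    {rs : List Rec} {tb : ℕ} (hE : EpOK K D X F.σ F.N F.q F.cb rs F.iE st.em.length tb)
    (h1 : tb ≤ F.slots) {j : ℕ} (hj : j ∈ Ico F.i0 F.i1)
    (hno : ∀ w ∈ cands (X j), wtest F ((st.em ++ newEm kl s st F).drop F.iE) j (X j) w = false) :
    GoodR K D X (X j) F.σ (3 + F.b + F.k + F.q) (F.σ.length + F.q + 1) F.iE
      (endEp kl D s st F ps).em.length := by
  obtain ⟨j0, j1⟩ := mem_Ico.1 hj
  have jl : j < st.em.length := j1.trans_le (hF.i1E.trans hF.iE)
  have a1 := h.ems j jl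
  have a2 := hF.mid j j0 jl
  have a3 := hF.old j j1
  have a4 := hF.cnt j j0 j1
  rw [hX0 j jl] at a1 a2 a3 a4
  have hf := end_facts hkl hF hX0 hX hH
  have hkN : F.k ≤ F.N := Nat.le_add_right _ _
  have hcap := fun ρ hρ => cap_down (l := nEnd (X j).n) (by omega) (fun i hi => (hf i hi).2.1)
    (end_cap hF hX hE h1) (ρ := ρ) hρ
  have hd := drop_eq hX F.iE
  change (st.em ++ newEm kl s st F).drop F.iE = _ at hd
  rw [hd] at hno
  have hlen : ∀ i ∈ Ico F.iE (endEp kl D s st F ps).em.length,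
      nEnd (X j).n ≤ (X i).root.length ∧ nEnd (X j).n ≤ (X i).own.length := fun i hi =>
    ⟨by have := (hf i hi).2.2.1; omega, by have := (hf i hi).2.1; omega⟩
  refine ⟨fun i hi => ⟨(hlen i hi).1, (hlen i hi).2, (hf i hi).1⟩, fun i hi e r hr hp => ?_, hcap,
    fun f f0 f1 f2 => wave_found hD X F _ _ j (X j) a1.1 a1.2.1 _ (by omega) hlen hcap a4 hno f
      f0 f1 f2⟩
  rw [← e]
  refine (hf i hi).2.2.2 r (a1.2.2.2.2 r hr) ?_ hp
  obtain ⟨l, hl, i', hi', τ, -, b, hb, rfl⟩ := (mem_design a1.2.1).1 hr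
  obtain ⟨l0, l1⟩ := mem_Ico.1 hl
  have := tgt_lt_jT hD a1.1 a1.2.1 l0 (l1.le.trans (nC_le_nEnd _)) hi' τ hb
  unfold nEnd at a3
  simp only
  omega

theorem end_mid (hkl : Appr K kl) (hD : DesignOK D) (h : WF D st) (hF : FrWF st F)
    (hX0 : Agree X st) (hX : Agree X (endEp kl D s st F ps)) (hH : HF K kl X s st F ps)
    {rs : List Rec} {tb : ℕ} (hE : EpOK K D X F.σ F.N F.q F.cb rs F.iE st.em.length tb)
    (h1 : tb ≤ F.slots) {G : Fr} (hσ : G.σ.length ≤ G.N) (hl : LinkWF F G) {rs' : List Rec}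
    (hr : RsMid K D X G F rs')
    (hn : RecOK K X G.σ G.N G.q G.cb ⟨G.t, F.iE, (endEp kl D s st F ps).em.length, F.k⟩) :
    RsMid K D X G (endF kl s st F)
      (rs' ++ [⟨G.t, F.iE, (endEp kl D s st F ps).em.length, F.k⟩]) := by
  refine ⟨hr.til.snoc (hF.iE.trans len_le_end) _ _, fun r hr' => ?_, fun r hr' => ?_,
    fun t ht => slot_snoc_ne hr.le ht (hr.slot t ht), ?_, fun r hr' a => ?_, fun j hj => ?_⟩
  · rcases List.mem_append.1 hr' with a | a
    · exact hr.le r a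
    · rw [List.mem_singleton.1 a]
  · rcases List.mem_append.1 hr' with a | a
    · exact hr.rec' r a
    · rw [List.mem_singleton.1 a]; exact hn
  · have := hr.wt
    simp only [List.map_append, List.sum_append, List.map_cons, List.map_nil, List.sum_cons,
      List.sum_nil, add_zero, if_true]
    change _ ≤ ((F.J + 1 : ℕ) : ℝ) * 2⁻¹ ^ F.k
    push_cast
    linarith
  · rcases List.mem_append.1 hr' with b | b
    · exact hr.old r b a
    · rw [List.mem_singleton.1 b] at a; exact absurd a (lt_irrefl _)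
  have hj' : j ∈ Ico F.i0 F.i1 := hj
  have c1 := cnt_endF (kl := kl) s st hj'
  by_cases hq : 2 ^ (5 * jT (X j).n) ≤ F.cnt j
  · left
    have : (F.cnt j : ℝ) ≤ (endF kl s st F).cnt j := by rw [c1]; simp
    exact hq.trans (by exact_mod_cast this)
  right
  have c2 := (hr.gb j hj').resolve_left hq
  change _ ≤ _ * 2⁻¹ ^ F.k
  rw [c1]
  rcases piece_cases (st.em ++ newEm kl s st F) F j with ⟨e, a⟩ | ⟨w, -, -, e⟩
  · rw [ex_end hF hX hj'] at a
    have c3 := end_good hkl hD h hF hX0 hX hH hE h1 hj' (a.resolve_left hq)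
    have e1 : F.σ = kidS G.σ G.N G.t := hl.σ
    have e2 : F.σ.length = G.N := by rw [e1, length_kidS hσ]
    rw [e2, hl.b, hl.q, e1] at c3
    rw [badW_snoc_eq _ _ _ (Or.inr c3), e]
    simpa using c2
  · have c3 := badW_snoc_le (K := K) (D := D) (X := X) (σ := G.σ) (N := G.N) (q := G.q)
      (cb := G.cb) (rs := rs') (X j) G.t ⟨G.t, F.iE, (endEp kl D s st F ps).em.length, F.k⟩
    rw [e]
    simp only [List.length_singleton, Nat.cast_one] at c3 ⊢
    linarith

end Pool.Agent.Lib.MP_848037_lc.Neg
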