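import Pool.Agent.Lib.MP_848037_lc.NBasic

/-!
Existence of a universal upper semicomputable function satisfying the Kraft inequality.
-/

set_option autoImplicit false

namespace Pool.Agent.Lib.MP_848037_lc.Neg

open Finset Pool.Agent.Shared.Type2

namespace NK

open Nat.Partrec

/-- The pair `a` is enumerated by the code `c` at stage `s`. -/
def sn (c s : ℕ) (a : Str × ℕ) : Bool :=
  (Code.evaln s (Denumerable.ofNat Code c) (Encodable.encode a)).isSome

@[fun_prop] theorem td_sn {X : Type} [Rep X] {c s : X → ℕ} {a : X → Str × ℕ} (hc : TD c)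
    (hs : TD s) (ha : TD a) : TD fun x => sn (c x) (s x) (a x) := by
  have h : Primrec fun p : (ℕ × ℕ) × Str × ℕ => sn p.1.1 p.1.2 p.2 :=
    Primrec.option_isSome.comp (Code.primrec_evaln.comp
      (((Primrec.snd.comp Primrec.fst).pair ((Primrec.ofNat Code).comp
        (Primrec.fst.comp Primrec.fst))).pair (Primrec.encode.comp Primrec.snd)))
  exact TD.prim h ((hc.pair hs).pair ha)

theorem sn_mono {c s t : ℕ} {a : Str × ℕ} (h : s ≤ t) (h1 : sn c s a = true) :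
    sn c t a = true := by
  obtain ⟨y, hy⟩ := Option.isSome_iff_exists.1 h1
  exact Option.isSome_iff_exists.2 ⟨y, Code.evaln_mono h hy⟩

theorem exists_sn {p : Str × ℕ → Prop} (hp : REPred p) :
    ∃ c, ∀ a, p a ↔ ∃ s, sn c s a = true := by
  obtain ⟨c, hc⟩ := Code.exists_code.1 hp
  refine ⟨Encodable.encode c, fun a => ?_⟩
  have h1 : p a ↔ (c.eval (Encodable.encode a)).Dom := by
    rw [hc]; simp [Part.assert]
  rw [h1, Part.dom_iff_mem]
  simp only [sn, Denumerable.ofNat_encode, Code.evaln_complete, Option.isSome_iff_exists]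
  exact exists_comm

/-- The weight of the pairs seen at stage `s`, scaled by `2 ^ s`. -/
def wt (c s : ℕ) : ℕ :=
  ∑ l ∈ range s, ∑ σ ∈ Om l, ∑ k ∈ range s, if sn c s (σ, k) = true then 2 ^ (s - k) else 0

@[fun_prop] theorem td_wt {X : Type} [Rep X] {c s : X → ℕ} (hc : TD c) (hs : TD s) :
    TD fun x => wt (c x) (s x) := by
  unfold wt
  fun_prop

/-- The pairs inspected at stage `s`. -/
def box (s : ℕ) : Finset (Str × ℕ) := ((range s).biUnion Om) ×ˢ range s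

theorem mem_box {s : ℕ} {a : Str × ℕ} : a ∈ box s ↔ a.1.length < s ∧ a.2 < s := by
  simp [box]

/-- The weight of the pairs seen at stage `s`. -/
noncomputable def Wt (c s : ℕ) : ENNReal :=
  ∑ a ∈ box s, if sn c s a = true then 2⁻¹ ^ a.2 else 0

theorem Wt_mul (c s : ℕ) : Wt c s * 2 ^ s = wt c s := by
  rw [Wt, box, sum_product, sum_biUnion fun a _ b _ hab => disjoint_left.2 fun σ h1 h2 =>
    hab ((mem_Om.1 h1).symm.trans (mem_Om.1 h2))]
  simp only [wt, sum_mul, Nat.cast_sum]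
  refine sum_congr rfl fun l _ => sum_congr rfl fun σ _ => sum_congr rfl fun k hk => ?_
  split_ifs
  · obtain ⟨j, rfl⟩ := Nat.exists_eq_add_of_le (mem_range.1 hk).le
    rw [Nat.add_sub_cancel_left, pow_add, ← mul_assoc, ← mul_pow,
      ENNReal.inv_mul_cancel (by simp) (by simp), one_pow, one_mul]
    simp
  · simp

theorem wt_le_iff (c s : ℕ) : wt c s ≤ 2 * 2 ^ s ↔ Wt c s ≤ 2 := by
  rw [← ENNReal.mul_le_mul_iff_left (c := 2 ^ s) (by simp) (by simp), Wt_mul]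
  exact_mod_cast Iff.rfl

/-- The pairs accepted from the code `c`. -/
def Acc (c : ℕ) (a : Str × ℕ) : Prop := ∃ s, a ∈ box s ∧ sn c s a = true ∧ Wt c s ≤ 2

open Classical in
theorem acc_sum (c : ℕ) :
    (∑' a : Str × ℕ, if Acc c a then (2⁻¹ : ENNReal) ^ a.2 else 0) ≤ 2 := by
  rw [ENNReal.tsum_eq_iSup_sum]
  refine iSup_le fun F => ?_
  rw [← sum_filter]
  rcases (F.filter (Acc c)).eq_empty_or_nonempty with h | h
  · simp [h]
  have h1 : ∀ a : Str × ℕ, ∃ s, Acc c a → a ∈ box s ∧ sn c s a = true ∧ Wt c s ≤ 2 := fun a => by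
    by_cases ha : Acc c a
    · exact ha.imp fun s hs _ => hs
    · exact ⟨0, fun h => absurd h ha⟩
  choose t ht using h1
  obtain ⟨b, hb, hm⟩ := exists_max_image _ t h
  refine le_trans ?_ (ht b (mem_filter.1 hb).2).2.2
  rw [Wt, ← sum_filter]
  refine sum_le_sum_of_subset fun a ha => ?_
  obtain ⟨h2, h3, -⟩ := ht a (mem_filter.1 ha).2
  have h4 := hm a ha
  rw [mem_box] at h2
  exact mem_filter.2 ⟨mem_box.2 ⟨by omega, by omega⟩, sn_mono h4 h3⟩

theorem geom (m : ℕ) : ∑' k : ℕ, (2⁻¹ : ENNReal) ^ (k + m) = 2 * 2⁻¹ ^ m := by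
  simp only [pow_add]
  rw [ENNReal.tsum_mul_right, ENNReal.tsum_geometric, ENNReal.one_sub_inv_two, inv_inv]

theorem tail_sum (m : ℕ) :
    (∑' k : ℕ, if m ≤ k then (2⁻¹ : ENNReal) ^ k else 0) = 2 * 2⁻¹ ^ m := by
  rw [← geom, ← Function.Injective.tsum_eq (g := fun k => k + m) (add_left_injective m)]
  · simp
  · intro k hk
    have : m ≤ k := by
      by_contra h
      exact hk (if_neg h)
    exact ⟨k - m, Nat.sub_add_cancel this⟩

theorem acc_of {f : Str → ℕ} (hf : REPred fun p : Str × ℕ => f p.1 ≤ p.2)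
    (hk : (∑' σ : Str, (2⁻¹ : ENNReal) ^ f σ) ≤ 1) : ∃ c, ∀ σ, Acc c (σ, f σ) := by
  obtain ⟨c, hc⟩ := exists_sn hf
  refine ⟨c, fun σ => ?_⟩
  obtain ⟨s, hs⟩ := (hc (σ, f σ)).1 le_rfl
  refine ⟨s + σ.length + f σ + 1, mem_box.2 ⟨by simp only; omega, by simp only; omega⟩,
    sn_mono (by omega) hs, ?_⟩
  calc _ ≤ ∑' a : Str × ℕ, if f a.1 ≤ a.2 then (2⁻¹ : ENNReal) ^ a.2 else 0 := by
        refine le_trans (sum_le_sum fun a _ => ?_) (ENNReal.sum_le_tsum _)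
        split_ifs with h1 h2
        · exact le_rfl
        · exact absurd ((hc a).2 ⟨_, h1⟩) h2
        · exact zero_le
        · exact le_rfl
    _ = 2 * ∑' σ : Str, (2⁻¹ : ENNReal) ^ f σ := by
        rw [ENNReal.tsum_prod', ← ENNReal.tsum_mul_left]
        exact tsum_congr fun σ => tail_sum (f σ)
    _ ≤ 2 := mul_le_of_le_one_right' hk

/-- The admissible lengths for `σ`. -/
def T (σ : Str) : Set ℕ := {n | 2 * σ.length + 2 ≤ n ∨ ∃ c k, Acc c (σ, k) ∧ k + c + 3 ≤ n}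

theorem T_ne (σ : Str) : (T σ).Nonempty := ⟨_, Or.inl le_rfl⟩

theorem sInf_le_iff' (σ : Str) (n : ℕ) : sInf (T σ) ≤ n ↔ n ∈ T σ :=
  ⟨fun h => (Nat.sInf_mem (T_ne σ)).imp (fun a => a.trans h)
    fun ⟨c, k, a, b⟩ => ⟨c, k, a, b.trans h⟩, fun h => Nat.sInf_le h⟩

theorem half_two (m : ℕ) : (2 : ENNReal) * 2⁻¹ ^ (m + 1) = 2⁻¹ ^ m := by
  rw [pow_succ', ← mul_assoc, ENNReal.mul_inv_cancel (by simp) (by simp), one_mul]

open Classical in
theorem kraft : (∑' σ : Str, (2⁻¹ : ENNReal) ^ sInf (T σ)) ≤ 1 := by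
  have h1 : ∑' σ : Str, (2⁻¹ : ENNReal) ^ (2 * σ.length + 2) = 2⁻¹ := by
    have h := tsum_len fun i => 2⁻¹ ^ (i + 2)
    simp only [← pow_add] at h
    rw [geom, half_two, pow_one] at h
    rw [← h]
    exact tsum_congr fun σ => by congr 1; omega
  have h2 : (∑' σ : Str, ∑' c : ℕ, 2⁻¹ ^ (c + 3) *
      ∑' k : ℕ, if Acc c (σ, k) then (2⁻¹ : ENNReal) ^ k else 0) ≤ 2⁻¹ := by
    rw [ENNReal.tsum_comm]
    calc _ ≤ ∑' c : ℕ, (2⁻¹ : ENNReal) ^ (c + 2) := ENNReal.tsum_le_tsum fun c => by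
          rw [ENNReal.tsum_mul_left, ← half_two (c + 2), mul_comm 2]
          refine mul_le_mul_right (le_trans (le_of_eq ?_) (acc_sum c)) _
          rw [ENNReal.tsum_prod']
      _ = 2⁻¹ := by rw [geom, half_two, pow_one]
  calc _ ≤ ∑' σ : Str, ((2⁻¹ : ENNReal) ^ (2 * σ.length + 2) + ∑' c : ℕ, 2⁻¹ ^ (c + 3) *
        ∑' k : ℕ, if Acc c (σ, k) then (2⁻¹ : ENNReal) ^ k else 0) :=
        ENNReal.tsum_le_tsum fun σ => by
          rcases Nat.sInf_mem (T_ne σ) with a | ⟨c, k, a, b⟩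
          · exact le_add_right (half_anti a)
          · refine le_add_left ((half_anti b).trans (le_trans ?_ (ENNReal.le_tsum c)))
            rw [add_assoc, add_comm k, pow_add]
            refine mul_le_mul_right (le_trans ?_ (ENNReal.le_tsum k)) _
            rw [if_pos a]
    _ ≤ 2⁻¹ + 2⁻¹ := by rw [ENNReal.tsum_add, h1]; exact add_le_add_right h2 _
    _ = 1 := ENNReal.inv_two_add_inv_two

theorem re : REPred fun p : Str × ℕ => sInf (T p.1) ≤ p.2 := by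
  refine re_of_test (k := fun a s => decide (2 * a.1.length + 2 ≤ a.2) ||
    (List.range a.2).any fun c => (List.range a.2).any fun k => decide (k + c + 3 ≤ a.2) &&
      decide (a.1.length < s) && decide (k < s) && sn c s (a.1, k) &&
        decide (wt c s ≤ 2 * 2 ^ s)) (by fun_prop) ?_
  rintro ⟨σ, n⟩
  rw [sInf_le_iff']
  simp only [T, Acc, mem_box, Set.mem_ofPred_eq, List.any_eq_true, List.mem_range,
    Bool.or_eq_true, Bool.and_eq_true, decide_eq_true_eq, wt_le_iff]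
  constructor
  · rintro (a | ⟨c, k, ⟨s, ⟨a1, a2⟩, a3, a4⟩, b⟩)
    · exact ⟨0, Or.inl a⟩
    · exact ⟨s, Or.inr ⟨c, by omega, k, by omega, ⟨⟨⟨b, a1⟩, a2⟩, a3⟩, a4⟩⟩
  · rintro ⟨s, a | ⟨c, -, k, -, ⟨⟨⟨b, a1⟩, a2⟩, a3⟩, a4⟩⟩
    · exact Or.inl a
    · exact Or.inr ⟨c, k, ⟨s, ⟨a1, a2⟩, a3, a4⟩, b⟩

end NK

theorem exists_K : ∃ K : Str → ℕ, IsK K :=
  ⟨fun σ => sInf (NK.T σ), NK.re, NK.kraft, fun f hf hk => by
    obtain ⟨c, hc⟩ := NK.acc_of hf hk
    exact ⟨c + 3, fun σ => Nat.sInf_le (Or.inr ⟨c, f σ, hc σ, by omega⟩)⟩⟩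

end Pool.Agent.Lib.MP_848037_lc.Neg
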