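import Pool.Agent.Lib.MP_848037_lc.NInv4
import Pool.Agent.Lib.MP_848037_lc.NFinish
import Pool.Agent.Lib.MP_848037_lc.NK
import Pool.Agent.Lib.MP_848037_lc.NDelta
import Pool.Agent.Lib.MP_848037_lc.NCount
import Pool.Agent.Lib.MP_848037_lc.NDesign

/-!
The stack invariant is kept by every step; the machine never stops and its requests are cheap.
-/

set_option autoImplicit false

namespace Pool.Agent.Lib.MP_848037_lc.Neg

open Finset Pool.Agent.Shared.Type2

variable {K : Str → ℕ} {kl : Str × ℕ → ℕ → Bool} {D : Lab} {X : ℕ → Emi} {s : ℕ} {st : MS}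

theorem mc2_zero {req : List Rq} {F : Fr} {ps : List Fr} (h : F.t = 0) :
    MC2 kl X s req F ps F.iE :=
  ⟨le_rfl, ∅, by simp, by simp, by simp [h, ValS]⟩

theorem mc_zero {F : Fr} (h1 : F.J = 0) (h2 : F.rl = []) (h3 : F.i1 = F.iE) (a b : ℝ) :
    F.J * a * b - Lost K F ≤ ValS X F.i1 F.iE := by
  have : Lost K F = 0 := sum_eq_zero fun i _ => by simp [Fr.rc, h2]
  rw [this, h1, h3, ValS, Ico_self, sum_empty]
  simp

theorem wa_zero {F : Fr} (h : F.wv = []) (req : List Rq) (j : ℕ) : WA K X req F j := by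
  have h1 : F.cnt j = 0 := by simp [Fr.cnt, h]
  have h2 : usedP K F j = 0 := by simp [usedP, h]
  unfold WA
  rw [h1, h2, Nat.cast_zero, zero_mul, mul_zero, zero_add]
  exact mul_nonneg (mul_nonneg (mul_nonneg (by positivity) (by positivity)) (by positivity))
    (Nat.cast_nonneg _)

theorem chain_N {F : Fr} {ps : List Fr} (h : (F :: ps).IsChain LinkWF) :
    ∀ G ∈ ps, G.N ≤ F.N := by
  induction ps generalizing F with
  | nil => simp
  | cons G ps ih =>
    obtain ⟨h1, h2⟩ := List.isChain_cons_cons.1 h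
    have h3 : G.N ≤ F.N := by
      have := h1.k
      refine le_trans ?_ (Nat.le_add_right F.k _)
      unfold Fr.fresh at this; omega
    intro G' hG'
    rcases List.mem_cons.1 hG' with rfl | a
    · exact h3
    · exact (ih h2 G' a).trans h3

theorem sinv_push (hkl : Appr K kl) (h : WF D st) (hI : SInv K kl D X s st) :
    SInv K kl D X (s + 1) (push st) := by
  obtain ⟨F, ps, e, h1, ⟨rs, h2⟩, h3⟩ := hI
  obtain ⟨nw, n1, n2⟩ := push_lev h
  have hσ : ∀ G ∈ F :: ps, G.σ.length ≤ G.N := fun G hG => (h.frs G (e ▸ hG)).σN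
  rw [e] at n2
  have e1 : st.fs.getD 0 default = F := by rw [e]; rfl
  refine ⟨child st F, F :: ps, by rw [push, e1, e], ⟨⟨fun j hj => ?_, fun j hj => ?_, ?_⟩,
    ⟨rs, h2.til, fun r hr => (h2.lt r hr).le, h2.rec', fun t _ => h2.slot t, ?_,
      fun r hr _ => (h2.til.mem hr).2.2, fun j _ => Or.inr ?_⟩, ?_, ?_⟩,
    ⟨[], epOK_nil _ _⟩, mc2_zero rfl⟩
  · exact absurd (mem_Ico.1 hj).2 (not_lt.2 (mem_Ico.1 hj).1)
  · exact wa_zero rfl _ _
  · exact mc_zero rfl rfl rfl _ _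
  · refine le_of_eq_of_le (List.sum_eq_zero fun a ha => ?_) (by positivity)
    obtain ⟨c, hc, rfl⟩ := List.mem_map.1 ha
    exact if_neg (h2.lt c hc).ne
  · rw [badW_zero _ fun c hc => (h2.lt c hc).ne]
    positivity
  · rw [n1]
    exact h3.mono hkl (Nat.le_succ s) hσ n2 le_rfl
  · exact h1.mono hkl (Nat.le_succ s) n1 hσ n2 fun j hj => absurd hj (by simp [push])

theorem sinv_skip (hkl : Appr K kl) (h : WF D st) {pre : List Fr} {F : Fr} {ps : List Fr}
    (hfs : st.fs = pre ++ F :: ps) (hC : Closed K kl D X s st F ps)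
    (h1 : fin kl s st.req F = false) (h2 : F.rem = 1)
    (h3 : allW kl s st.req (F :: ps) F.m = true) :
    SInv K kl D X (s + 1) { st with fs := F.next :: ps } := by
  obtain ⟨b1, ⟨rs, tb, b2, -, b3⟩, lo, b4, b5⟩ := hC
  have hσ : ∀ G ∈ F :: ps, G.σ.length ≤ G.N := fun G hG =>
    (h.frs G (hfs ▸ List.mem_append_right _ hG)).σN
  have hσ' : ∀ G ∈ F.next :: ps, G.σ.length ≤ G.N := fun G hG => by
    rcases List.mem_cons.1 hG with rfl | a
    · exact hσ F List.mem_cons_self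
    · exact hσ G (List.mem_cons_of_mem _ a)
  refine ⟨F.next, ps, rfl, (b1.mono hkl (nw := []) (st' := { st with fs := F.next :: ps })
    (Nat.le_succ s) (List.append_nil st.req).symm hσ (by simp) fun j hj => absurd hj (by simp)).next, ⟨rs, b2.mono b3⟩, ?_⟩
  have c1 := (b5.step (hσ F List.mem_cons_self) (Bool.or_eq_false_iff.1 h1).2 b4 (by
    have := ValS_nonneg X lo st.em.length
    have c2 : (0 : ℝ) ≤ 2⁻¹ ^ (F.q + 5) + 2⁻¹ ^ (F.q + 7) := by positivity
    have c3 : (0 : ℝ) < 2⁻¹ ^ (3 + F.cb) := by positivity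
    rw [pwv, if_pos h3, h2]
    nlinarith)).mono hkl (nw := []) (Nat.le_succ s) hσ' (by simp) le_rfl
  rwa [List.append_nil] at c1

theorem root_res {pre : List Fr} {F : Fr} (h : WF D st) (hfs : st.fs = pre ++ [F]) {hi : ℕ}
    (hhi : F.iE ≤ hi) (h1 : RootOK K X F) (h2 : EpRes K X F hi) :
    ∃ rs, Tiles 0 rs hi ∧ rs.length ≤ F.J + 1 ∧
      ∀ r ∈ rs, EntB K X [] 0 (2⁻¹ ^ (3 + 20)) r.a r.b (2 * 2⁻¹ ^ (3 + 20)) := by
  obtain ⟨rs, a1, a2, a3⟩ := h1
  obtain ⟨e1, e2, e3, e4, -⟩ := h.root F (by rw [hfs]; simp)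
  refine ⟨_, a1.snoc hhi 0 0, by simpa using a2, fun r hr => ?_⟩
  rcases List.mem_append.1 hr with a | a
  · exact a3 r a
  · have := h2.ent
    rw [e1, e2, e3, e4, List.length_nil, pow_zero, pow_zero, one_mul, one_add_one_eq_two] at this
    rw [List.mem_singleton.1 a]
    exact this

theorem sinv_end (hK : Kr K) (hkl : Appr K kl) (hD : DesignOK D) (h : WF D st) {pre : List Fr}
    {F : Fr} {ps : List Fr} (hfs : st.fs = pre ++ F :: ps) (hX0 : Agree X st)
    (hX : Agree X (endEp kl D s st F ps)) (h' : WF D (endEp kl D s st F ps)) (hR : RCok K F)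
    (hC : Closed K kl D X s st F ps) (hfin : fin kl s st.req F = true)
    (hno : ∀ ps', ps' <:+ ps → ps' ≠ [] → act kl s st.req ps' = false) :
    SInv K kl D X (s + 1) (endEp kl D s st F ps) := by
  obtain ⟨b1, ⟨rs, tb, b2, b3, b4⟩, lo, b5, b6⟩ := hC
  have hF := h.frs F (by rw [hfs]; simp)
  have hσ : ∀ G ∈ ps, G.σ.length ≤ G.N := fun G hG => (h.frs G (by rw [hfs]; simp [hG])).σN
  have hch : (F :: ps).IsChain LinkWF := by
    have := h.chain
    rw [hfs] at this
    exact this.suffix (List.suffix_append _ _)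
  obtain ⟨nw, n1, n2⟩ := endEp_lev (kl := kl) (s := s) hD h hfs
  have r1 := end_res hkl hD hF hX b2 b3 b4
  have r2 := end_val hK hkl hF hR hX hfin b1.hf b5 b6
  have r3 := end_facts hkl hF hX0 hX b1.hf
  have hle := hF.iE.trans (len_le_end (kl := kl) (D := D) (s := s) (F := F) (ps := ps))
  have hev : ∀ j ∈ Ico st.em.length (endEp kl D s st F ps).em.length, ∀ r ∈ st.req, ∀ G ∈ ps,
      r.2.1 ≤ G.N → r.1 <+: (X j).root → K ((X j).own.take r.2.1) ≤ r.2.2 + (X j).e :=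
    fun j hj r hr G hG a => (r3 j (mem_Ico.2 ⟨hF.iE.trans (mem_Ico.1 hj).1,
      (mem_Ico.1 hj).2⟩)).2.2.2 r hr (a.trans (chain_N hch G hG))
  have hrec : ∀ G, G.σ.length ≤ G.N → LinkWF F G → FrWF st G →
      RecOK K X G.σ G.N G.q G.cb ⟨G.t, F.iE, (endEp kl D s st F ps).em.length, F.k⟩ :=
    fun G a1 a2 a3 => rec_of_res a1 a2 r1 fun j hj => by
      obtain ⟨j0, j1⟩ := mem_Ico.1 hj
      have a4 := (h'.ems j j1).2.1
      rw [hX j j1] at a4
      refine ⟨(r3 j hj).1, ?_, a4⟩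
      rcases lt_or_ge j st.em.length with a | a
      · have := (a3.new j (by
          have := a3.i1E; have := a2.i0; have := hF.i01; have := hF.i1E; omega) a).1
        rwa [hX0 j a] at this
      · exact a3.fr.trans (emit_valid hkl hF hX j (mem_Ico.2 ⟨a, j1⟩)).2.2.2.1
  by_cases hJ : F.J + 1 < 2 ^ F.k
  · have e : (endEp kl D s st F ps).fs = endF kl s st F :: ps := by
      simp only [endEp, decide_eq_true hJ, cond_true]; rfl
    have hH : HF K kl X (s + 1) (endEp kl D s st F ps) (endF kl s st F) ps := by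
      have hwa := end_wa hkl h hF hX0 hX b1.hf b2 b3
      refine ⟨fun j hj => absurd (mem_Ico.1 hj).2 (not_lt.2 (mem_Ico.1 hj).1), hwa,
        le_trans ?_ r2⟩
      have := pwv_mono hkl (m := F.m) (req := st.req) (Nat.le_succ s) hσ n2
      rw [n1]
      change ((F.J + 1 : ℕ) : ℝ) * 2⁻¹ ^ (3 + F.b + F.k) * (1 / 4 - (2⁻¹ ^ (F.q + 5) +
        2 * 2⁻¹ ^ (F.q + 7) + pwv kl (s + 1) (st.req ++ nw) ps F.m * 2⁻¹ ^ F.rem / 4)) - _ ≤ _
      push_cast
      gcongr
    refine ⟨_, _, e, ?_, ⟨[], epOK_nil _ _⟩, mc2_zero rfl⟩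
    cases ps with
    | nil => exact ⟨hH, root_res h hfs hle b1.2 r1⟩
    | cons G ps =>
      obtain ⟨c1, ⟨rs', c2⟩, c3, c4⟩ := b1
      have hl := (List.isChain_cons_cons.1 hch).1
      have hG := h.frs G (by rw [hfs]; simp)
      refine ⟨hH, ⟨_, end_mid hkl hD h hF hX0 hX c1 b2 b3 hG.σN hl c2 (hrec G hG.σN hl hG)⟩, ?_,
        c4.mono hkl (Nat.le_succ s) n1 hσ n2 hev⟩
      rw [n1]
      exact c3.mono hkl (Nat.le_succ s) hσ n2 le_rfl
  have hJ' : ((F.J : ℝ) + 1) * 2⁻¹ ^ (3 + F.b + F.k) = 2⁻¹ ^ (3 + F.b) := by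
    have h1 : F.J + 1 = 2 ^ F.k := by have := hF.J; omega
    have h2 : (F.J : ℝ) + 1 = 2 ^ F.k := by exact_mod_cast h1
    rw [h2, two_half (b := 3 + F.b) (by omega)]
  have hL : Lost K (endF kl s st F) ≤ 2⁻¹ ^ (3 + F.b) * 2⁻¹ ^ (F.q + 7) := Lost_le hK hF.lo
  rw [hJ'] at r2
  cases ps with
  | nil =>
    exfalso
    obtain ⟨rs', a1, a2, a3⟩ := root_res h hfs hle b1.2 r1
    obtain ⟨-, e2, e3, e4, -, e5, -, e6⟩ := h.root F (by rw [hfs]; simp)
    have a4 := root_bound hK X rs' _ 20 a1 (by have := hF.J; rw [e2] at this; omega) a3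
      fun i j hij hj => by
        have := h'.ord i j hij hj
        rwa [hX i (hij.trans hj), hX j hj] at this
    have a5 := pwv_le (kl := kl) s st.req [] F.m
    rw [e3, e4] at hL
    rw [e3, e4, e5, e6] at r2
    norm_num at hL r2 a4
    linarith
  | cons G ps =>
    obtain ⟨c1, ⟨rs', c2⟩, c3, c4⟩ := b1
    have hl := (List.isChain_cons_cons.1 hch).1
    have hG := h.frs G (by rw [hfs]; simp)
    have e : (endEp kl D s st F (G :: ps)).fs = G.next :: ps := by
      simp only [endEp, decide_eq_false hJ, cond_false]; rfl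
    have hσ' : ∀ G' ∈ G.next :: ps, G'.σ.length ≤ G'.N := fun G' hG' => by
      rcases List.mem_cons.1 hG' with rfl | a
      · exact hG.σN
      · exact hσ G' (List.mem_cons_of_mem _ a)
    have n2' : ∀ r ∈ nw, ∀ G' ∈ G.next :: ps, G'.N < r.2.1 := fun r hr G' hG' => by
      rcases List.mem_cons.1 hG' with rfl | a
      · exact n2 r hr G List.mem_cons_self
      · exact n2 r hr G' (List.mem_cons_of_mem _ a)
    refine ⟨_, _, e, (c4.mono hkl (Nat.le_succ s) n1 hσ n2 hev).next,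
      ⟨_, close_slot hK h hX0 hF hl c2 c1.wa hle (hrec G hG.σN hl hG)⟩, ?_⟩
    have ht : trig kl s st.req G = false :=
      (Bool.or_eq_false_iff.1 (Bool.or_eq_false_iff.1
        (hno _ List.suffix_rfl (List.cons_ne_nil _ _))).1).2
    rw [n1]
    refine (c3.step hG.σN ht (hF.i1E.trans hle) (le_trans ?_ r2)).mono hkl (Nat.le_succ s) hσ'
      n2' le_rfl
    have d1 : pwv kl s st.req (G :: ps) F.m * 2⁻¹ ^ F.rem / 4 ≤
        2⁻¹ ^ (G.q + 7) + pwv kl s st.req (G :: ps) G.m * (2⁻¹ ^ G.rem / 2) := by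
      have p0 := pwv_nonneg (kl := kl) s st.req (G :: ps) G.m
      have p1 := pwv_le (kl := kl) s st.req (G :: ps) F.m
      have e1 := hl.m
      have e2 := hl.rem
      by_cases hr : G.rem = 1
      · rw [if_pos hr] at e2
        have : (0 : ℝ) ≤ pwv kl s st.req (G :: ps) G.m * (2⁻¹ ^ G.rem / 2) := by positivity
        have p2 : (0 : ℝ) < 2⁻¹ ^ G.q := by positivity
        rw [e2, pow_add, pow_add]
        nlinarith
      · rw [if_neg hr] at e1 e2
        have e3 : G.rem = F.rem + 1 := by have := hG.rem; omega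
        have : (0 : ℝ) ≤ 2⁻¹ ^ (G.q + 7) := by positivity
        rw [e1, e3, pow_succ (2⁻¹ : ℝ) F.rem]
        linarith
    rw [hl.b, hl.q] at hL ⊢
    have d2 : (0 : ℝ) < 2⁻¹ ^ (3 + G.cb) := by positivity
    have d3 : (0 : ℝ) < 2⁻¹ ^ G.q := by positivity
    have d4 := mul_le_mul_of_nonneg_left d1 d2.le
    have d5 := mul_pos d2 d3
    simp only [pow_add (2⁻¹ : ℝ) G.q, add_assoc G.q] at hL d4 ⊢
    nlinarith

theorem sinv_step (hK : Kr K) (hkl : Appr K kl) (hD : DesignOK D) (h : WF D st)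
    (hX0 : Agree X st) (hX : Agree X (step kl D s st)) (hR : ∀ F ∈ st.fs, RCok K F)
    (hI : SInv K kl D X s st) : SInv K kl D X (s + 1) (step kl D s st) := by
  have hne : st.fs ≠ [] := by
    obtain ⟨F, ps, e, -⟩ := hI
    simp [e]
  have h' := wf_step (kl := kl) (s := s) hD h hne
  rcases step_cases kl D s st with ⟨-, e⟩ | ⟨pre, F, ps, hfs, hno, ⟨a, e⟩ | ⟨a, b, c, e⟩⟩
  · rw [e]; exact sinv_push hkl h hI
  · rw [e] at hX h' ⊢
    exact sinv_end hK hkl hD h hfs hX0 hX h' (hR F (by rw [hfs]; simp))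
      (closed_all hK hD h hX0 hI pre F ps hfs) a hno
  · rw [e]; exact sinv_skip hkl h hfs (closed_all hK hD h hX0 hI pre F ps hfs) a b c

theorem exists_agree (kl : Str × ℕ → ℕ → Bool) (D : Lab) : ∃ X, ∀ s, Agree X (run kl D s) := by
  classical
  have h1 : ∀ s, (run kl D s).em <+: (run kl D (s + 1)).em := fun s => by
    change _ <+: (step kl D s (run kl D s)).em
    rcases step_cases kl D s (run kl D s) with
      ⟨-, e⟩ | ⟨pre, F, ps, -, -, ⟨-, e⟩ | ⟨-, -, -, e⟩⟩ <;> rw [e]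
    · exact List.prefix_rfl
    · exact List.prefix_append _ _
  have h2 : ∀ s t, s ≤ t → (run kl D s).em <+: (run kl D t).em := fun s t hst => by
    induction t, hst using Nat.le_induction with
    | base => exact List.prefix_rfl
    | succ t _ ih => exact ih.trans (h1 t)
  refine ⟨fun j => if h : ∃ s, j < (run kl D s).em.length then (run kl D (Nat.find h)).ex j
    else default, fun s j hj => ?_⟩
  have h3 : ∃ s, j < (run kl D s).em.length := ⟨s, hj⟩
  simp only [dif_pos h3]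
  obtain ⟨l, e⟩ := h2 _ _ (Nat.find_min' h3 hj)
  rw [MS.ex, MS.ex, ← e, List.getD_append _ _ _ _ (Nat.find_spec h3)]

theorem main_inv (hK : Kr K) (hkl : Appr K kl) (hD : DesignOK D) (s : ℕ) :
    (run kl D s).fs ≠ [] ∧ ((run kl D s).req.map rcost).sum ≤ 1 := by
  obtain ⟨X, hX⟩ := exists_agree kl D
  have hne : ∀ {s st}, SInv K kl D X s st → st.fs ≠ [] := fun ⟨F, ps, e, _⟩ => by simp [e]
  have key : ∀ s, WF D (run kl D s) ∧ (∀ F ∈ (run kl D s).fs, RCok K F) ∧
      CostInv K X (run kl D s) ∧ SInv K kl D X s (run kl D s) := by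
    intro s
    induction s with
    | zero =>
      refine ⟨wf_run hD 0 (by simp), fun F hF i _ => Or.inl ?_, cost_init K X kl D,
        root, [], rfl, ⟨⟨fun j hj => absurd hj (by simp [run]), fun j hj => absurd hj
          (by simp [root]), mc_zero rfl rfl rfl _ _⟩, [], rfl, le_rfl, by simp⟩,
        ⟨[], epOK_nil _ _⟩, mc2_zero rfl⟩
      rw [List.mem_singleton.1 hF]; rfl
    | succ s ih =>
      obtain ⟨a1, a2, a3, a4⟩ := ih
      have a5 := sinv_step hK hkl hD a1 (hX s) (hX (s + 1)) a2 a4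
      refine ⟨wf_step hD a1 (hne a4), rc_step hK hkl a1 a2,
        cost_step hK hkl a1 (hne a4) (hne a5) (hX s) (hX (s + 1)) a2 (fun F ps e => ?_) a3, a5⟩
      obtain ⟨-, ⟨rs, tb, b1, b2, -⟩, -⟩ := closed_all hK hD a1 (hX s) a4 [] F ps e
      have hF := a1.frs F (e ▸ List.mem_cons_self)
      exact (ep_res hD hF.σN b1 b2).tot.trans (pow_le_one₀ (by norm_num) (by norm_num))
  obtain ⟨a1, a2, a3, a4⟩ := key s
  exact ⟨hne a4, cost_le hK a1 (hne a4) (hX s) a2 a3⟩

theorem exists_counter {K : Str → ℕ} (hK : IsK K) : ∃ (x : ℕ → Bool) (a : ℕ → ℕ → Bool),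
    Computable₂ a ∧ (∀ i, ∃ s0, ∀ s ≥ s0, a s i = x i) ∧
      Set.Countable {z : ℕ → Bool | ∃ c : ℕ, ∀ n : ℕ, K (xs x n) ≤ K (xs z n) + c} := by
  obtain ⟨kl, k1, k2, k3⟩ := re_approx hK.re
  obtain ⟨D, d1, d2⟩ := design_of_lab exists_lab
  have hkl : Appr K kl := ⟨k2, k3⟩
  exact finish hK hkl d2 (td_run k1 d1) (fun s => (main_inv (kr_of_isK hK) hkl d2 s).1)
    fun s => (main_inv (kr_of_isK hK) hkl d2 s).2

end Pool.Agent.Lib.MP_848037_lc.Neg
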