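import Pool.Agent.Lib.MP_848037_lc.NY

/-!
The loss at one level: edge classes.
-/

set_option autoImplicit false

namespace Pool.Agent.Lib.MP_848037_lc.Neg

open Finset Pool.Agent.Shared.Type2

namespace NLevel

theorem fib {ζ : Str} {l m : ℕ} (h1 : ζ.length ≤ l) (h2 : l ≤ m) (φ : Str → Str → ℝ) :
    ∑ ξ ∈ Zs ζ m, φ (ξ.take l) ξ = ∑ τ ∈ Zs ζ l, ∑ ξ ∈ Zs τ m, φ τ ξ := by
  rw [sum_Zs h1 h2]
  refine sum_congr rfl fun τ hτ => sum_congr rfl fun ξ hξ => ?_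
  rw [(pre_iff_take (mem_Zs.1 hτ).1).1 (mem_Zs.1 hξ).2]

theorem fib2 {ζ : Str} {l m : ℕ} (h1 : ζ.length ≤ l) (h2 : l ≤ m) (q : Str → Str → Prop)
    [∀ a b, Decidable (q a b)] (g : Str → Str → ℝ) :
    (∑ ρ ∈ Om m, ∑ ξ ∈ Zs ζ m, if q (ρ.take l) (ξ.take l) then g ρ ξ else 0) =
      ∑ ρ0 ∈ Om l, ∑ τ ∈ Zs ζ l,
        if q ρ0 τ then ∑ ρ ∈ Zs ρ0 m, ∑ ξ ∈ Zs τ m, g ρ ξ else 0 := by
  rw [← Zs_nil, ← Zs_nil, fib (Nat.zero_le l) h2
    fun a ρ => ∑ ξ ∈ Zs ζ m, if q a (ξ.take l) then g ρ ξ else 0]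
  refine sum_congr rfl fun ρ0 _ => ?_
  rw [sum_congr rfl fun ρ _ => fib h1 h2 fun b ξ => if q ρ0 b then g ρ ξ else 0, sum_comm]
  refine sum_congr rfl fun τ _ => ?_
  split_ifs <;> simp

theorem Zs_sub {ζ τ : Str} {l : ℕ} (hτ : τ ∈ Zs ζ l) (m : ℕ) : Zs τ m ⊆ Zs ζ m := fun _ hξ =>
  mem_Zs.2 ⟨(mem_Zs.1 hξ).1, (mem_Zs.1 hτ).2.trans (mem_Zs.1 hξ).2⟩

theorem pw {l m : ℕ} (h : l ≤ m) : (2⁻¹ : ℝ) ^ m * 2 ^ (m - l) = 2⁻¹ ^ l := by
  obtain ⟨d, rfl⟩ := Nat.exists_eq_add_of_le h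
  rw [Nat.add_sub_cancel_left, pow_add]
  simp only [inv_pow]
  field_simp

theorem col {ζ τ : Str} {l m : ℕ} {F : Str → Str → ℝ}
    (hF : ∀ ξ ∈ Zs ζ m, ∑ ρ ∈ Om m, F ρ ξ ≤ 2⁻¹ ^ m) {Y : Str → ℝ} (hY0 : ∀ ξ, 0 ≤ Y ξ)
    (hτ : τ ∈ Zs ζ l) (hl : l ≤ m) (hY : ∑ ξ ∈ Zs τ m, Y ξ = 2 ^ (m - l)) :
    ∑ ρ ∈ Om m, ∑ ξ ∈ Zs τ m, F ρ ξ * Y ξ ≤ 2⁻¹ ^ l := by
  rw [sum_comm, ← pw hl, ← hY, mul_sum]
  refine sum_le_sum fun ξ hξ => ?_
  rw [← sum_mul]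
  exact mul_le_mul_of_nonneg_right (hF ξ (Zs_sub hτ m hξ)) (hY0 ξ)

theorem col' {ζ τ : Str} {l m : ℕ} {F : Str → Str → ℝ} (h0 : ∀ ρ ξ, 0 ≤ F ρ ξ)
    (hF : ∀ ξ ∈ Zs ζ m, ∑ ρ ∈ Om m, F ρ ξ ≤ 2⁻¹ ^ m) {Y : Str → ℝ} (hY0 : ∀ ξ, 0 ≤ Y ξ)
    (hτ : τ ∈ Zs ζ l) (hl : l ≤ m) (hY : ∑ ξ ∈ Zs τ m, Y ξ = 2 ^ (m - l)) (ρ0 : Str) :
    ∑ ρ ∈ Zs ρ0 m, ∑ ξ ∈ Zs τ m, F ρ ξ * Y ξ ≤ 2⁻¹ ^ l :=
  (sum_le_sum_of_subset_of_nonneg (Zs_subset _ _) fun ρ _ _ =>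
    sum_nonneg fun ξ _ => mul_nonneg (h0 ρ ξ) (hY0 ξ)).trans (col hF hY0 hτ hl hY)

theorem zdeg {ζ τ : Str} {l m : ℕ} {F : Str → Str → ℝ} (h0 : ∀ ρ ξ, 0 ≤ F ρ ξ)
    (hF : ∀ ξ ∈ Zs ζ m, ∑ ρ ∈ Om m, F ρ ξ ≤ 2⁻¹ ^ m) {Y : Str → ℝ} (hY0 : ∀ ξ, 0 ≤ Y ξ)
    (hτ : τ ∈ Zs ζ l) (hl : l ≤ m) (hY : ∑ ξ ∈ Zs τ m, Y ξ = 2 ^ (m - l)) (a : ℕ)
    (S : Finset Str) (hS : S ⊆ Om l)
    (h : ∀ ρ0 ∈ S, (2⁻¹ : ℝ) ^ (l + a) < ∑ ρ ∈ Zs ρ0 m, ∑ ξ ∈ Zs τ m, F ρ ξ * Y ξ) :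
    S.card ≤ 2 ^ a := by
  have h1 := col hF hY0 hτ hl hY
  rw [sum_Om_Zs hl] at h1
  have h2 := (card_nsmul_le_sum S _ _ fun ρ0 h' => (h ρ0 h').le).trans
    ((sum_le_sum_of_subset_of_nonneg hS fun ρ0 _ _ => sum_nonneg fun ρ _ =>
      sum_nonneg fun ξ _ => mul_nonneg (h0 ρ ξ) (hY0 ξ)).trans h1)
  rw [nsmul_eq_mul, pow_add, mul_left_comm] at h2
  have h3 : (S.card : ℝ) * 2⁻¹ ^ a ≤ 1 := (mul_le_iff_le_one_right (by positivity)).1 h2
  rw [inv_pow, ← div_eq_mul_inv, div_le_one (by positivity)] at h3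
  exact_mod_cast h3

theorem lvl {n l : ℕ} {ζ : Str} (hζ : ζ.length ≤ n) (hl : l ∈ Ico (n0 n) (nC n)) {r : ℕ}
    (hr : r ≤ mm n) : ζ.length ≤ l - so n r ∧ l - so n r ≤ l ∧ l ≤ nEnd n := by
  have h1 := le_sub_so hr (mem_Ico.1 hl).1
  have h2 := (mem_Ico.1 hl).2
  have h3 := nC_le_nEnd n
  omega

open Classical in
/-- The chain of heavy edges. -/
theorem exists_chain {D : Lab} (hD : DesignOK D) {n : ℕ} {ζ : Str} (hn : 20 ≤ n)
    (hζ : ζ.length ≤ n) {l : ℕ} (hl : l ∈ Ico (n0 n) (nC n)) {ι : Type} (I : Finset ι)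
    (f : ι → Str → Str → ℝ) (hI : I.card ≤ 2 ^ n) (h0 : ∀ c ρ ξ, 0 ≤ f c ρ ξ)
    (hz : ∀ c ∈ I, ∀ ξ ∈ Zs ζ (nEnd n), ∑ ρ ∈ Om (nEnd n), f c ρ ξ ≤ 2⁻¹ ^ nEnd n) :
    ∃ E : ℕ → Finset (Str × Str),
      (∀ r, E r ⊆ Om (l - so n r) ×ˢ Zs ζ (l - so n r)) ∧
      (∀ r ≤ mm n, ∀ τ, ((E r).filter fun p => p.2 = τ).card ≤ 2 ^ (6 * n + r)) ∧
      (∀ r < mm n, ∀ p ∈ E r,
        (p.1.take (l - so n (r + 1)), p.2.take (l - so n (r + 1))) ∈ E (r + 1)) ∧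
      (∑ ρ ∈ Om (nEnd n), ∑ ξ ∈ Zs ζ (nEnd n), if (ρ.take l, ξ.take l) ∈ E 0 then 0 else
        (∑ c ∈ I, f c ρ ξ) * Uv D n ζ l ξ) ≤
        ∑ c ∈ I, ∑ r ∈ range (mm n + 1), badL D n ζ r l (f c) := by
  let heavy : ℕ → Str → Str → Prop := fun r a b =>
    ∃ c ∈ I, (2⁻¹ : ℝ) ^ (l - so n r + 5 * n + r) < ev D n ζ l (f c) a b
  refine ⟨fun r => (Om (l - so n r) ×ˢ Zs ζ (l - so n r)).filter fun p => ∀ r', r ≤ r' →
    r' ≤ mm n → heavy r' (p.1.take (l - so n r')) (p.2.take (l - so n r')),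
    fun r => filter_subset _ _, fun r hr τ => ?_, fun r hr p hp => ?_, ?_⟩
  · obtain ⟨k1, k2, k3⟩ := lvl hζ hl hr
    by_cases hτ : τ ∈ Zs ζ (l - so n r)
    swap
    · rw [filter_eq_empty_iff.2, card_empty]
      · exact Nat.zero_le _
      · rintro p hp rfl
        exact hτ (mem_product.1 (mem_filter.1 hp).1).2
    have h1 : ∀ c ∈ I, ((Om (l - so n r)).filter fun a => (2⁻¹ : ℝ) ^ (l - so n r + 5 * n + r) <
        ev D n ζ l (f c) a τ).card ≤ 2 ^ (5 * n + r) := by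
      intro c hc
      refine zdeg (h0 c) (hz c hc) (Uv_nonneg D n ζ l) hτ (k2.trans k3) ?_ _ _ (filter_subset _ _)
        fun a ha => ?_
      · rw [Uv_sum hD hn hζ hl ((mem_Zs.1 hτ).1.trans_le k2), (mem_Zs.1 hτ).1]
      · rw [← add_assoc]
        exact (mem_filter.1 ha).2
    refine le_trans (card_le_card_of_injOn Prod.fst (t := I.biUnion fun c =>
      (Om (l - so n r)).filter fun a => (2⁻¹ : ℝ) ^ (l - so n r + 5 * n + r) <
        ev D n ζ l (f c) a τ) (fun p hp => ?_) fun p hp p' hp' h => ?_) ?_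
    · obtain ⟨h2, h3⟩ := mem_filter.1 (mem_coe.1 hp)
      obtain ⟨h4, h5⟩ := mem_filter.1 h2
      obtain ⟨h6, h7⟩ := mem_product.1 h4
      obtain ⟨c, hc, h8⟩ := h5 r le_rfl hr
      rw [List.take_of_length_le (mem_Om.1 h6).le, List.take_of_length_le (mem_Zs.1 h7).1.le,
        h3] at h8
      exact mem_coe.2 (mem_biUnion.2 ⟨c, hc, mem_filter.2 ⟨h6, h8⟩⟩)
    · exact Prod.ext h ((mem_filter.1 (mem_coe.1 hp)).2.trans
        (mem_filter.1 (mem_coe.1 hp')).2.symm)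
    · refine (card_biUnion_le_card_mul _ _ _ h1).trans ?_
      rw [show 6 * n + r = n + (5 * n + r) by ring, pow_add 2 n]
      exact Nat.mul_le_mul_right _ hI
  · obtain ⟨h1, h2⟩ := mem_filter.1 hp
    obtain ⟨h3, h4⟩ := mem_product.1 h1
    have h5 : l - so n (r + 1) ≤ l - so n r := Nat.sub_le_sub_left (so_mono n (Nat.le_succ r)) l
    refine mem_filter.2 ⟨mem_product.2 ⟨mem_Om.2 ?_, take_mem_Zs h4 (lvl hζ hl hr).1 h5⟩,
      fun r' h6 h7 => ?_⟩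
    · rw [List.length_take, mem_Om.1 h3]
      exact min_eq_left h5
    · have h8 : l - so n r' ≤ l - so n (r + 1) := Nat.sub_le_sub_left (so_mono n h6) l
      simp only [List.take_take, min_eq_left h8]
      exact h2 r' (by omega) h7
  · have h1 : ∀ c ∈ I, ∀ r ∈ range (mm n + 1), badL D n ζ r l (f c) =
        ∑ ρ ∈ Om (nEnd n), ∑ ξ ∈ Zs ζ (nEnd n),
          if ev D n ζ l (f c) (ρ.take (l - so n r)) (ξ.take (l - so n r)) ≤
            (2⁻¹ : ℝ) ^ (l - so n r + 5 * n + r) then f c ρ ξ * Uv D n ζ l ξ else 0 := by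
      intro c _ r hr
      obtain ⟨k1, k2, k3⟩ := lvl hζ hl (Nat.lt_succ_iff.1 (mem_range.1 hr))
      rw [fib2 k1 (k2.trans k3) fun a b => ev D n ζ l (f c) a b ≤
        (2⁻¹ : ℝ) ^ (l - so n r + 5 * n + r)]
      rfl
    rw [sum_congr rfl fun c hc => sum_congr rfl (h1 c hc)]
    rw [sum_congr rfl fun c _ => sum_comm, sum_comm (s := I)]
    refine sum_le_sum fun ρ hρ => ?_
    rw [sum_congr rfl fun c _ => sum_comm, sum_comm (s := I)]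
    refine sum_le_sum fun ξ hξ => ?_
    have h2 : ∀ c r, 0 ≤ if ev D n ζ l (f c) (ρ.take (l - so n r)) (ξ.take (l - so n r)) ≤
        (2⁻¹ : ℝ) ^ (l - so n r + 5 * n + r) then f c ρ ξ * Uv D n ζ l ξ else 0 := by
      intro c r
      split_ifs
      · exact mul_nonneg (h0 c ρ ξ) (Uv_nonneg D n ζ l ξ)
      · exact le_rfl
    split_ifs with h3
    · exact sum_nonneg fun c _ => sum_nonneg fun r _ => h2 c r
    obtain ⟨k1, -, k3⟩ := lvl hζ hl (Nat.zero_le (mm n))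
    rw [so_zero, Nat.sub_zero] at k1
    obtain ⟨r, hr, h4⟩ : ∃ r ≤ mm n, ¬heavy r (ρ.take (l - so n r)) (ξ.take (l - so n r)) := by
      by_contra h
      push Not at h
      refine h3 (mem_filter.2 ⟨mem_product.2 ⟨mem_Om.2 ?_, take_mem_Zs hξ k1 k3⟩,
        fun r' _ h5 => ?_⟩)
      · rw [List.length_take, mem_Om.1 hρ]
        exact min_eq_left k3
      · simp only [List.take_take, min_eq_left (Nat.sub_le l _)]
        exact h r' h5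
    rw [sum_mul]
    refine sum_le_sum fun c hc => le_trans ?_
      (single_le_sum (fun r _ => h2 c r) (mem_range.2 (Nat.lt_succ_of_le hr)))
    rw [if_pos (not_lt.1 fun h => h4 ⟨c, hc, h⟩)]

theorem card_of_fib {E : Finset (Str × Str)} {A B : Finset Str} (h : E ⊆ A ×ˢ B) {k : ℕ}
    (hk : ∀ τ, (E.filter fun p => p.2 = τ).card ≤ k) : E.card ≤ B.card * k := by
  rw [card_eq_sum_card_fiberwise (f := Prod.snd) (t := B) fun p hp => (mem_product.1 (h hp)).2]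
  exact sum_le_card_nsmul _ _ _ fun τ _ => hk τ

theorem earl_le {E : Finset (Str × Str)} {a b : ℕ}
    (h1 : ∀ τ, (E.filter fun p => p.2 = τ).card ≤ a)
    (h2 : ∀ p ∈ E, (E.filter fun p' => p'.1 = p.1).card ≤ b) (τ : Str) :
    (earl E τ).card ≤ a * b := by
  refine le_trans (card_le_card (t := (E.filter fun p => p.2 = τ).biUnion fun p =>
    (E.filter fun p' => p'.1 = p.1).image Prod.snd) fun τ' h => ?_) ?_
  · obtain ⟨-, -, ρ, -, h3, h4⟩ := mem_filter.1 h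
    exact mem_biUnion.2 ⟨(ρ, τ), mem_filter.2 ⟨h3, rfl⟩,
      mem_image.2 ⟨(ρ, τ'), mem_filter.2 ⟨h4, rfl⟩, rfl⟩⟩
  · exact (card_biUnion_le_card_mul _ _ b fun p hp =>
      card_image_le.trans (h2 p (mem_filter.1 hp).1)).trans (Nat.mul_le_mul_right _ (h1 τ))

theorem mid_le {T : ℕ} (G : ℕ → ℕ) (hG : Monotone G) (k : ℕ) {a : ℝ} (ha : 0 ≤ a) :
    (∑ i ∈ range T, if G i ≤ k ∧ k < G (i + 1) then a else 0) ≤ a := by
  rw [← sum_filter, sum_const, nsmul_eq_mul]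
  refine mul_le_of_le_one_left ha ?_
  have h : ((range T).filter fun i => G i ≤ k ∧ k < G (i + 1)).card ≤ 1 := by
    refine card_le_one.2 fun i hi j hj => ?_
    obtain ⟨h1, h2⟩ := (mem_filter.1 hi).2
    obtain ⟨h3, h4⟩ := (mem_filter.1 hj).2
    by_contra h
    rcases lt_or_gt_of_ne h with h | h
    · have := hG (show i + 1 ≤ j from h)
      omega
    · have := hG (show j + 1 ≤ i from h)
      omega
  exact_mod_cast h

theorem big_le {E : Finset (Str × Str)} {A B : Finset Str} (h : E ⊆ A ×ˢ B) (G : ℕ) :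
    (A.filter fun a => G ≤ (E.filter fun p => p.1 = a).card).card * G ≤ E.card := by
  rw [card_eq_sum_card_fiberwise (s := E) (f := Prod.fst) (t := A)
    fun p hp => (mem_product.1 (h hp)).1]
  exact (card_nsmul_le_sum _ _ _ fun a ha => (mem_filter.1 ha).2).trans
    (sum_le_sum_of_subset (filter_subset _ _))

theorem split {β : Type} (B : Finset β) (t : β → ℝ) (ht : ∀ b, 0 ≤ t b) (hot co : β → Prop)
    [DecidablePred hot] [DecidablePred co] (N Y : ℝ) (hN : 0 < N) {F : ℝ} (hF : 0 ≤ F)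
    (hY : Y = (∑ b ∈ B, if hot b then t b else 0) / N) {p0 p1 ex : Prop} [Decidable p0]
    [Decidable p1] [Decidable ex] {k a a' : ℕ} (h : p0 → k < a → p1) :
    F * Y ≤ (∑ b ∈ B, if p1 ∧ ¬co b ∧ hot b then F * t b / N else 0) +
      (if p0 then 0 else F * Y) + (if p0 ∧ a ≤ k ∧ k < a' then F * Y else 0) +
      (if a' ≤ k then F * Y else 0) + (if ex then F * Y else 0) +
      ∑ b ∈ B, if ¬ex ∧ co b then F * (if hot b then t b else 0) / N else 0 := by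
  have h1 : ∀ b, 0 ≤ F * t b / N := fun b => div_nonneg (mul_nonneg hF (ht b)) hN.le
  have h2 : 0 ≤ F * Y := by
    rw [hY]
    exact mul_nonneg hF (div_nonneg (sum_nonneg fun b _ => ite_nonneg (ht b) le_rfl) hN.le)
  have h3 : 0 ≤ ∑ b ∈ B, if p1 ∧ ¬co b ∧ hot b then F * t b / N else 0 :=
    sum_nonneg fun b _ => ite_nonneg (h1 b) le_rfl
  have h4 : 0 ≤ ∑ b ∈ B, if ¬ex ∧ co b then F * (if hot b then t b else 0) / N else 0 :=
    sum_nonneg fun b _ => ite_nonneg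
      (div_nonneg (mul_nonneg hF (ite_nonneg (ht b) le_rfl)) hN.le) le_rfl
  have h5 : 0 ≤ if p0 then 0 else F * Y := ite_nonneg le_rfl h2
  have h6 : 0 ≤ if p0 ∧ a ≤ k ∧ k < a' then F * Y else 0 := ite_nonneg h2 le_rfl
  have h7 : 0 ≤ if a' ≤ k then F * Y else 0 := ite_nonneg h2 le_rfl
  have h8 : 0 ≤ if ex then F * Y else 0 := ite_nonneg h2 le_rfl
  by_cases c0 : p0
  swap
  · rw [if_neg c0]
    linarith
  by_cases c1 : a' ≤ k
  · rw [if_pos c1]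
    linarith
  by_cases c2 : a ≤ k
  · rw [if_pos (show p0 ∧ a ≤ k ∧ k < a' from ⟨c0, c2, not_le.1 c1⟩)]
    linarith
  by_cases c3 : ex
  · rw [if_pos c3]
    linarith
  have h9 : F * Y = (∑ b ∈ B, if p1 ∧ ¬co b ∧ hot b then F * t b / N else 0) +
      ∑ b ∈ B, if ¬ex ∧ co b then F * (if hot b then t b else 0) / N else 0 := by
    rw [hY, ← sum_add_distrib, sum_div, mul_sum]
    refine sum_congr rfl fun b _ => ?_
    by_cases d1 : hot b <;> by_cases d2 : co b <;>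
      simp [d1, d2, c3, h c0 (not_le.1 c2), mul_div_assoc]
  linarith

theorem num {n l a : ℕ} (h : a ≤ l) :
    (2 : ℝ) ^ (l - a) * 2⁻¹ ^ l * 2⁻¹ ^ n = 2⁻¹ ^ (n + a) := by
  rw [mul_comm ((2 : ℝ) ^ (l - a)), pw h, pow_add, mul_comm]

end NLevel

open NLevel

open Classical in
theorem level_bound {D : Lab} (hD : DesignOK D) {n : ℕ} {ζ : Str} (hn : 20 ≤ n)
    (hζ : ζ.length ≤ n) {l : ℕ} (hl : l ∈ Ico (n0 n) (nC n)) {ι : Type} (I : Finset ι)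
    (f : ι → Str → Str → ℝ) (lw : ℕ) (hI : I.card * 2 ^ lw ≤ 2 ^ n) (h0 : ∀ c ρ ξ, 0 ≤ f c ρ ξ)
    (hz : ∀ c ∈ I, ∀ ξ ∈ Zs ζ (nEnd n), ∑ ρ ∈ Om (nEnd n), f c ρ ξ ≤ 2⁻¹ ^ nEnd n)
    (hx : ∀ c ∈ I, ∀ ρ ∈ Om (nEnd n), ∑ ξ ∈ Zs ζ (nEnd n), f c ρ ξ ≤ 2 ^ lw * 2⁻¹ ^ nEnd n)
    (lam : Str → ℝ) (hl0 : ∀ ξ, 0 ≤ lam ξ) (hl1 : ∀ ξ, lam ξ ≤ 1)
    (hF : ∀ ξ ∈ Zs ζ (nEnd n), lam ξ * ∑ c ∈ I, ∑ ρ ∈ Om (nEnd n), f c ρ ξ ≤ 2⁻¹ ^ nEnd n) :
    ∃ E : ℕ → Finset (Str × Str),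
      (nT n : ℝ) * ∑ ξ ∈ Zs ζ (nEnd n),
          (lam ξ * ∑ c ∈ I, ∑ ρ ∈ Om (nEnd n), f c ρ ξ) * Uv D n ζ l ξ ≤
        (∑ i ∈ range (nT n), ∑ ρ ∈ Om (nEnd n), ∑ ξ ∈ Zs ζ (nEnd n), ∑ b ∈ range (2 ^ zz n i),
          (if (ρ.take l, ξ.take l) ∈ E i ∧ b ∉ coin n i (D (n, ζ, i, l)) (E i) (ξ.take l) ∧
              hot D n ζ i l (ξ.take l) b <+: ξ then
            (lam ξ * ∑ c ∈ I, f c ρ ξ) * 2 ^ tgt D n ζ i l (ξ.take l) b / 2 ^ zz n i else 0)) +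
        nT n * (∑ c ∈ I, ∑ r ∈ range (mm n + 1), badL D n ζ r l (f c)) +
        nT n * (4 * 2⁻¹ ^ (n + ζ.length)) := by
  obtain ⟨E, e1, e2, e3, e4⟩ := exists_chain hD hn hζ hl I f
    (le_trans (Nat.le_mul_of_pos_right _ (by positivity)) hI) h0 hz
  obtain ⟨k1, -, k3⟩ := lvl hζ hl (Nat.zero_le (mm n))
  have e10 := e1 0
  rw [so_zero, Nat.sub_zero] at k1 e10
  have ecard : ∀ r ≤ mm n, (E r).card ≤ 2 ^ (6 * n + r + (l - so n r - ζ.length)) := by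
    intro r hr
    rw [pow_add, mul_comm]
    exact (card_of_fib (e1 r) (e2 r hr)).trans (Nat.mul_le_mul_right _ (card_Zs_le _ _))
  have ec0 : ((E 0).card : ℝ) ≤ 2 ^ (6 * n) * 2 ^ (l - ζ.length) := by
    have := ecard 0 (Nat.zero_le _)
    rw [so_zero, Nat.sub_zero, add_zero, pow_add] at this
    exact_mod_cast this
  set deg : Str → ℕ := fun a => ((E 0).filter fun p => p.1 = a).card with hdeg
  set E' : ℕ → Finset (Str × Str) := fun i => (E 0).filter fun p => deg p.1 < 2 ^ (2 * zz n i)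
    with hE'
  set ex : ℕ → Str → Prop := fun i τ =>
    2 ^ zz n i ≤ 2 ^ n * (coin n i (D (n, ζ, i, l)) (E' i) τ).card with hex
  set F : Str → Str → ℝ := fun ρ ξ => lam ξ * ∑ c ∈ I, f c ρ ξ with hFd
  have hS0 : ∀ ρ ξ, 0 ≤ ∑ c ∈ I, f c ρ ξ := fun ρ ξ => sum_nonneg fun c _ => h0 c ρ ξ
  have F0 : ∀ ρ ξ, 0 ≤ F ρ ξ := fun ρ ξ => mul_nonneg (hl0 ξ) (hS0 ρ ξ)
  have F1 : ∀ ρ ξ, F ρ ξ ≤ ∑ c ∈ I, f c ρ ξ := fun ρ ξ => mul_le_of_le_one_left (hS0 ρ ξ) (hl1 ξ)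
  have Fe : ∀ ξ, lam ξ * ∑ c ∈ I, ∑ ρ ∈ Om (nEnd n), f c ρ ξ = ∑ ρ ∈ Om (nEnd n), F ρ ξ := by
    intro ξ
    rw [sum_comm, mul_sum]
  have Fz : ∀ ξ ∈ Zs ζ (nEnd n), ∑ ρ ∈ Om (nEnd n), F ρ ξ ≤ 2⁻¹ ^ nEnd n :=
    fun ξ hξ => Fe ξ ▸ hF ξ hξ
  have hT : (0 : ℝ) < nT n := by exact_mod_cast nT_pos n
  have hTU : ∀ ξ, (nT n : ℝ) * Uv D n ζ l ξ = ∑ i ∈ range (nT n), Yv D n ζ i l ξ := by
    intro ξ
    rw [Uv]
    field_simp
  have hYs : ∀ i ∈ range (nT n), ∀ τ ∈ Zs ζ l,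
      ∑ ξ ∈ Zs τ (nEnd n), Yv D n ζ i l ξ = 2 ^ (nEnd n - l) := by
    intro i hi τ hτ
    rw [Yv_sum hD hn hζ (mem_range.1 hi) hl (mem_Zs.1 hτ).1.le, (mem_Zs.1 hτ).1]
  have b1 : (∑ i ∈ range (nT n), ∑ ρ ∈ Om (nEnd n), ∑ ξ ∈ Zs ζ (nEnd n),
      if (ρ.take l, ξ.take l) ∈ E 0 then 0 else F ρ ξ * Yv D n ζ i l ξ) ≤
      nT n * ∑ c ∈ I, ∑ r ∈ range (mm n + 1), badL D n ζ r l (f c) := by
    refine le_trans ?_ (mul_le_mul_of_nonneg_left e4 hT.le)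
    rw [sum_comm, mul_sum]
    refine sum_le_sum fun ρ _ => ?_
    rw [sum_comm, mul_sum]
    refine sum_le_sum fun ξ _ => ?_
    split_ifs
    · simp
    · rw [← mul_sum, ← hTU, mul_left_comm]
      exact mul_le_mul_of_nonneg_left
        (mul_le_mul_of_nonneg_right (F1 ρ ξ) (Uv_nonneg D n ζ l ξ)) hT.le
  have b2 : (∑ i ∈ range (nT n), ∑ ρ ∈ Om (nEnd n), ∑ ξ ∈ Zs ζ (nEnd n),
      if (ρ.take l, ξ.take l) ∈ E 0 ∧ 2 ^ (2 * zz n i) ≤ deg (ρ.take l) ∧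
        deg (ρ.take l) < 2 ^ (2 * zz n (i + 1)) then F ρ ξ * Yv D n ζ i l ξ else 0) ≤
      nT n * 2⁻¹ ^ (n + ζ.length) := by
    calc _ ≤ ∑ i ∈ range (nT n), ∑ a ∈ Om l, ∑ τ ∈ Zs ζ l, if (a, τ) ∈ E 0 then
          (if 2 ^ (2 * zz n i) ≤ deg a ∧ deg a < 2 ^ (2 * zz n (i + 1)) then (2⁻¹ : ℝ) ^ l
            else 0) else 0 := by
          refine sum_le_sum fun i hi => ?_
          rw [fib2 k1 k3 fun a τ => (a, τ) ∈ E 0 ∧ 2 ^ (2 * zz n i) ≤ deg a ∧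
            deg a < 2 ^ (2 * zz n (i + 1))]
          refine sum_le_sum fun a _ => sum_le_sum fun τ hτ => ?_
          rw [ite_and]
          split_ifs
          · exact col' F0 Fz (Yv_nonneg D n ζ i l) hτ k3 (hYs i hi τ hτ) a
          · exact le_rfl
          · exact le_rfl
      _ ≤ ∑ a ∈ Om l, ∑ τ ∈ Zs ζ l, if (a, τ) ∈ E 0 then (2⁻¹ : ℝ) ^ l else 0 := by
          rw [sum_comm]
          refine sum_le_sum fun a _ => ?_
          rw [sum_comm]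
          refine sum_le_sum fun τ _ => ?_
          split_ifs
          · exact mid_le (fun i => 2 ^ (2 * zz n i)) (fun i j h => Nat.pow_le_pow_right
              (by norm_num) (Nat.mul_le_mul_left _ ((zz_mono n).monotone h))) _ (by positivity)
          · simp
      _ = (E 0).card * (2⁻¹ : ℝ) ^ l := by
          rw [← sum_product' (f := fun a τ => if (a, τ) ∈ E 0 then (2⁻¹ : ℝ) ^ l else 0),
            sum_ite_mem, inter_eq_right.2 e10, sum_const, nsmul_eq_mul]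
      _ ≤ 2 ^ (6 * n) * 2 ^ (l - ζ.length) * (2⁻¹ : ℝ) ^ l := by gcongr
      _ = _ := by
          rw [← num k1, nT, show 7 * n = 6 * n + n by ring, pow_add]
          push_cast
          simp only [inv_pow]
          field_simp
  have b3 : ∀ i ∈ range (nT n), (∑ ρ ∈ Om (nEnd n), ∑ ξ ∈ Zs ζ (nEnd n),
      if 2 ^ (2 * zz n (i + 1)) ≤ deg (ρ.take l) then F ρ ξ * Yv D n ζ i l ξ else 0) ≤
      2⁻¹ ^ (n + ζ.length) := by
    intro i _
    have h1 : ∀ ρ ∈ Om (nEnd n), ∑ ξ ∈ Zs ζ (nEnd n), F ρ ξ * Yv D n ζ i l ξ ≤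
        2 ^ n * 2⁻¹ ^ nEnd n * 2 ^ zz n (i + 1) := by
      intro ρ hρ
      have h2 : ((I.card : ℝ) * 2 ^ lw) ≤ 2 ^ n := by exact_mod_cast hI
      calc _ ≤ ∑ ξ ∈ Zs ζ (nEnd n), (∑ c ∈ I, f c ρ ξ) * 2 ^ zz n (i + 1) :=
            sum_le_sum fun ξ _ => mul_le_mul (F1 ρ ξ) (Yv_le hD hn hζ hl ξ)
              (Yv_nonneg D n ζ i l ξ) (hS0 ρ ξ)
        _ = (∑ c ∈ I, ∑ ξ ∈ Zs ζ (nEnd n), f c ρ ξ) * 2 ^ zz n (i + 1) := by
            rw [← sum_mul, sum_comm]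
        _ ≤ (I.card * (2 ^ lw * 2⁻¹ ^ nEnd n)) * 2 ^ zz n (i + 1) := by
            gcongr
            simpa using sum_le_card_nsmul I _ _ fun c hc => hx c hc ρ hρ
        _ ≤ _ := by
            rw [← mul_assoc]
            gcongr
    have h3 : (((Om l).filter fun a => 2 ^ (2 * zz n (i + 1)) ≤ deg a).card : ℝ) *
        2 ^ (2 * zz n (i + 1)) ≤ 2 ^ (6 * n) * 2 ^ (l - ζ.length) :=
      le_trans (by exact_mod_cast big_le e10 (2 ^ (2 * zz n (i + 1)))) ec0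
    have h4 : (2 : ℝ) ^ (8 * n) ≤ 2 ^ zz n (i + 1) :=
      pow_le_pow_right₀ (by norm_num) (by have := zz_ge' hn (i + 1); omega)
    calc _ ≤ ∑ ρ ∈ Om (nEnd n), if 2 ^ (2 * zz n (i + 1)) ≤ deg (ρ.take l) then
          (2 : ℝ) ^ n * 2⁻¹ ^ nEnd n * 2 ^ zz n (i + 1) else 0 := by
          refine sum_le_sum fun ρ hρ => ?_
          split_ifs
          · exact h1 ρ hρ
          · simp
      _ = ∑ a ∈ Om l, if 2 ^ (2 * zz n (i + 1)) ≤ deg a then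
          (2 : ℝ) ^ n * 2⁻¹ ^ l * 2 ^ zz n (i + 1) else 0 := by
          rw [← Zs_nil, ← Zs_nil, fib (Nat.zero_le l) k3 fun a _ =>
            if 2 ^ (2 * zz n (i + 1)) ≤ deg a then
              (2 : ℝ) ^ n * 2⁻¹ ^ nEnd n * 2 ^ zz n (i + 1) else 0]
          refine sum_congr rfl fun a ha => ?_
          rw [sum_const, card_Zs ((mem_Zs.1 ha).1.trans_le k3), (mem_Zs.1 ha).1, nsmul_eq_mul,
            ← pw k3]
          push_cast
          split_ifs <;> ring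
      _ = ((Om l).filter fun a => 2 ^ (2 * zz n (i + 1)) ≤ deg a).card *
          ((2 : ℝ) ^ n * 2⁻¹ ^ l * 2 ^ zz n (i + 1)) := by
          rw [← sum_filter, sum_const, nsmul_eq_mul]
      _ ≤ _ := by
          rw [← num k1]
          refine le_of_mul_le_mul_right ?_ (by positivity : (0 : ℝ) < 2 ^ (2 * zz n (i + 1)))
          rw [mul_right_comm]
          refine (mul_le_mul_of_nonneg_right h3 (by positivity)).trans ?_
          have h5 : (2 : ℝ) ^ (8 * n) * 2⁻¹ ^ n = 2 ^ (6 * n) * 2 ^ n := by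
            rw [show 8 * n = 6 * n + n + n by ring, pow_add, pow_add, inv_pow]
            field_simp
          calc _ = (2 : ℝ) ^ (l - ζ.length) * 2⁻¹ ^ l * 2 ^ zz n (i + 1) *
                (2 ^ (8 * n) * 2⁻¹ ^ n) := by rw [h5]; ring
            _ ≤ (2 : ℝ) ^ (l - ζ.length) * 2⁻¹ ^ l * 2 ^ zz n (i + 1) *
                (2 ^ zz n (i + 1) * 2⁻¹ ^ n) := by gcongr
            _ = _ := by rw [two_mul, pow_add]; ring
  have b4 : ∀ i ∈ range (nT n), (∑ ρ ∈ Om (nEnd n), ∑ ξ ∈ Zs ζ (nEnd n),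
      if ex i (ξ.take l) then F ρ ξ * Yv D n ζ i l ξ else 0) ≤ 2⁻¹ ^ (n + ζ.length) := by
    intro i hi
    have hsub : E' i ⊆ E 0 := filter_subset _ _
    have h1 := (hD n ζ i l hn hζ (mem_Ico.1 hl).1 k3).2 (fun r => if r = 0 then E' i else E r)
      (fun r _ => by
        split_ifs with h
        · subst h
          exact hsub.trans (e1 0)
        · exact e1 r)
      (fun r hr => by
        split_ifs with h
        · subst h
          exact (card_le_card hsub).trans (ecard 0 hr)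
        · exact ecard r hr)
      (fun r hr p hp => by
        rw [if_neg (Nat.succ_ne_zero r)]
        refine e3 r hr p ?_
        split_ifs at hp with h
        · subst h
          exact hsub hp
        · exact hp)
      (fun τ => by
        rw [if_pos rfl, pow_add]
        exact earl_le (fun τ => (card_le_card (filter_subset_filter _ hsub)).trans
          (e2 0 (Nat.zero_le _) τ)) (fun p hp => (card_le_card (filter_subset_filter _ hsub)).trans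
          (mem_filter.1 hp).2.le) τ)
    simp only [if_true] at h1
    have h2 : (2 : ℝ) ^ n * ((Zs ζ l).filter (ex i)).card ≤ 2 ^ (l - ζ.length) := by
      exact_mod_cast h1
    calc _ = ∑ τ ∈ Zs ζ l, if ex i τ then ∑ ρ ∈ Om (nEnd n), ∑ ξ ∈ Zs τ (nEnd n),
          F ρ ξ * Yv D n ζ i l ξ else 0 := by
          rw [sum_congr rfl fun ρ _ => fib k1 k3 fun τ ξ =>
            if ex i τ then F ρ ξ * Yv D n ζ i l ξ else 0, sum_comm]
          refine sum_congr rfl fun τ _ => ?_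
          split_ifs <;> simp
      _ ≤ ∑ τ ∈ Zs ζ l, if ex i τ then (2⁻¹ : ℝ) ^ l else 0 := by
          refine sum_le_sum fun τ hτ => ?_
          split_ifs
          · exact col Fz (Yv_nonneg D n ζ i l) hτ k3 (hYs i hi τ hτ)
          · exact le_rfl
      _ = 2 ^ n * ((Zs ζ l).filter (ex i)).card * (2⁻¹ : ℝ) ^ l * 2⁻¹ ^ n := by
          rw [← sum_filter, sum_const, nsmul_eq_mul, inv_pow 2 n]
          field_simp
      _ ≤ _ := by
          rw [← num k1]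
          gcongr
  have b5 : ∀ i ∈ range (nT n), (∑ ρ ∈ Om (nEnd n), ∑ ξ ∈ Zs ζ (nEnd n),
      ∑ b ∈ range (2 ^ zz n i), if ¬ex i (ξ.take l) ∧
        b ∈ coin n i (D (n, ζ, i, l)) (E' i) (ξ.take l) then
          F ρ ξ * (if hot D n ζ i l (ξ.take l) b <+: ξ then
            (2 : ℝ) ^ tgt D n ζ i l (ξ.take l) b else 0) / 2 ^ zz n i else 0) ≤
      2⁻¹ ^ (n + ζ.length) := by
    intro i hi
    calc _ = ∑ τ ∈ Zs ζ l, ∑ b ∈ range (2 ^ zz n i),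
          if ¬ex i τ ∧ b ∈ coin n i (D (n, ζ, i, l)) (E' i) τ then
            (∑ ρ ∈ Om (nEnd n), ∑ ξ ∈ Zs τ (nEnd n), F ρ ξ *
              (if hot D n ζ i l (ξ.take l) b <+: ξ then
                (2 : ℝ) ^ tgt D n ζ i l (ξ.take l) b else 0)) / 2 ^ zz n i else 0 := by
          rw [sum_congr rfl fun ρ _ => fib k1 k3 fun τ ξ => ∑ b ∈ range (2 ^ zz n i),
            if ¬ex i τ ∧ b ∈ coin n i (D (n, ζ, i, l)) (E' i) τ then
              F ρ ξ * (if hot D n ζ i l (ξ.take l) b <+: ξ then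
                (2 : ℝ) ^ tgt D n ζ i l (ξ.take l) b else 0) / 2 ^ zz n i else 0, sum_comm]
          refine sum_congr rfl fun τ _ => ?_
          rw [sum_congr rfl fun ρ _ => sum_comm, sum_comm]
          refine sum_congr rfl fun b _ => ?_
          by_cases h : ¬ex i τ ∧ b ∈ coin n i (D (n, ζ, i, l)) (E' i) τ
          · simp only [if_pos h, sum_div]
          · simp only [if_neg h, sum_const_zero]
      _ ≤ ∑ τ ∈ Zs ζ l, (2⁻¹ : ℝ) ^ l * 2⁻¹ ^ n := by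
          refine sum_le_sum fun τ hτ => ?_
          by_cases h : ex i τ
          · simp only [h, not_true, false_and, if_false, sum_const_zero]
            positivity
          have h1 : (2 : ℝ) ^ n * (coin n i (D (n, ζ, i, l)) (E' i) τ).card ≤ 2 ^ zz n i := by
            exact_mod_cast (not_le.1 h).le
          calc _ ≤ ∑ b ∈ range (2 ^ zz n i), if b ∈ coin n i (D (n, ζ, i, l)) (E' i) τ then
                (2⁻¹ : ℝ) ^ l / 2 ^ zz n i else 0 := by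
                refine sum_le_sum fun b hb => ?_
                simp only [h, not_false_iff, true_and]
                by_cases h2 : b ∈ coin n i (D (n, ζ, i, l)) (E' i) τ
                · rw [if_pos h2, if_pos h2]
                  exact div_le_div_of_nonneg_right (col Fz
                    (fun ξ => ite_nonneg (by positivity) le_rfl) hτ k3 (hot_sum hD hn hζ
                      (mem_range.1 hi) hl (mem_Zs.1 hτ).1 (mem_range.1 hb))) (by positivity)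
                · rw [if_neg h2, if_neg h2]
            _ = 2 ^ n * (coin n i (D (n, ζ, i, l)) (E' i) τ).card *
                ((2⁻¹ : ℝ) ^ l * 2⁻¹ ^ n / 2 ^ zz n i) := by
                have h2 : coin n i (D (n, ζ, i, l)) (E' i) τ ⊆ range (2 ^ zz n i) :=
                  filter_subset _ _
                rw [sum_ite_mem, inter_eq_right.2 h2, sum_const, nsmul_eq_mul, inv_pow 2 n]
                field_simp
            _ ≤ 2 ^ zz n i * ((2⁻¹ : ℝ) ^ l * 2⁻¹ ^ n / 2 ^ zz n i) := by gcongr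
            _ = _ := by field_simp
      _ = _ := by
          rw [sum_const, card_Zs k1, nsmul_eq_mul, ← num k1]
          push_cast
          ring
  refine ⟨E', ?_⟩
  have hL : (nT n : ℝ) * ∑ ξ ∈ Zs ζ (nEnd n),
      (lam ξ * ∑ c ∈ I, ∑ ρ ∈ Om (nEnd n), f c ρ ξ) * Uv D n ζ l ξ =
      ∑ i ∈ range (nT n), ∑ ρ ∈ Om (nEnd n), ∑ ξ ∈ Zs ζ (nEnd n), F ρ ξ * Yv D n ζ i l ξ := by
    rw [sum_congr rfl fun i _ => sum_comm, sum_comm, mul_sum]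
    refine sum_congr rfl fun ξ _ => ?_
    rw [Fe, mul_left_comm, hTU, mul_sum]
    exact sum_congr rfl fun i _ => sum_mul _ _ _
  have hsp := sum_le_sum (s := range (nT n)) fun i _ => sum_le_sum (s := Om (nEnd n)) fun ρ _ =>
    sum_le_sum (s := Zs ζ (nEnd n)) fun ξ _ => split (range (2 ^ zz n i))
      (fun b => (2 : ℝ) ^ tgt D n ζ i l (ξ.take l) b) (fun _ => by positivity)
      (fun b => hot D n ζ i l (ξ.take l) b <+: ξ)
      (fun b => b ∈ coin n i (D (n, ζ, i, l)) (E' i) (ξ.take l)) (2 ^ zz n i) (Yv D n ζ i l ξ)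
      (by positivity) (F0 ρ ξ) rfl (p0 := (ρ.take l, ξ.take l) ∈ E 0)
      (p1 := (ρ.take l, ξ.take l) ∈ E' i) (ex := ex i (ξ.take l)) (k := deg (ρ.take l))
      (a := 2 ^ (2 * zz n i)) (a' := 2 ^ (2 * zz n (i + 1))) fun h1 h2 => mem_filter.2 ⟨h1, h2⟩
  simp only [sum_add_distrib] at hsp
  have c3 := sum_le_card_nsmul _ _ _ b3
  have c4 := sum_le_card_nsmul _ _ _ b4
  have c5 := sum_le_card_nsmul _ _ _ b5
  rw [card_range, nsmul_eq_mul] at c3 c4 c5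
  rw [hL]
  linarith

end Pool.Agent.Lib.MP_848037_lc.Neg
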