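import Pool.Agent.Lib.MP_848037_lc.NBasic

/-!
Unsynchronised hits are paid: grouping of the terms and distinctness of the exponents.
-/

set_option autoImplicit false

namespace Pool.Agent.Lib.MP_848037_lc.Neg

open Finset Pool.Agent.Shared.Type2

namespace NPay

theorem geo (A : Finset ℕ) {M : ℝ} (hM : 0 ≤ M) (h : ∀ a ∈ A, (2⁻¹ : ℝ) ^ a ≤ M) :
    ∑ a ∈ A, (2⁻¹ : ℝ) ^ a ≤ 2 * M := by
  rcases A.eq_empty_or_nonempty with rfl | hA
  · simpa using hM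
  have h1 : A ⊆ Ico (A.min' hA) (A.max' hA + 1) := fun a ha =>
    mem_Ico.2 ⟨A.min'_le a ha, Nat.lt_succ_of_le (A.le_max' a ha)⟩
  have h2 := geom_sum_Ico_le_of_lt_one (x := (2⁻¹ : ℝ)) (m := A.min' hA) (n := A.max' hA + 1)
    (by norm_num) (by norm_num)
  have h3 := h _ (A.min'_mem hA)
  have h4 := sum_le_sum_of_subset_of_nonneg (f := fun a => (2⁻¹ : ℝ) ^ a) h1
    fun _ _ _ => by positivity
  have h5 : (2⁻¹ : ℝ) ^ A.min' hA / (1 - 2⁻¹) = 2 * 2⁻¹ ^ A.min' hA := by ring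
  linarith

/-- exponent of the requests of level `l` and tier `i` -/
def len (x : Emi) (l i : ℕ) : ℕ := x.A + (l - x.root.length) + 6 * jT x.n + 7 * x.n + zz x.n i

/-- active groups -/
def Act (D : Lab) (K : Str → ℕ) (x : Emi) (y : Str) (E : ℕ → ℕ → Finset (Str × Str))
    (l i b : ℕ) (τ ρ : Str) : Prop :=
  (ρ.take l, τ) ∈ E l i ∧ b ∉ coin x.n i (D (x.n, x.root, i, l)) (E l i) τ ∧ y <+: ρ ∧
    K ρ ≤ len x l i + x.e ∧ ρ.length = l + tgt D x.n x.root i l τ b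

theorem mem_coin {n i b : ℕ} {lab : Str → ℕ → ℕ} {E : Finset (Str × Str)} {ρ τ τ' : Str}
    (hb : b < 2 ^ zz n i) (h1 : (ρ, τ) ∈ E) (h2 : (ρ, τ') ∈ E)
    (h3 : Encodable.encode τ' < Encodable.encode τ) (h4 : lab τ' b = lab τ b) :
    b ∈ coin n i lab E τ :=
  mem_filter.2 ⟨mem_range.2 hb, τ', mem_filter.2 ⟨mem_image.2 ⟨_, h2, rfl⟩, h3, ρ,
    mem_image.2 ⟨_, h1, rfl⟩, h1, h2⟩, h4⟩

theorem act_inj {D : Lab} (hD : DesignOK D) {K : Str → ℕ} {x : Emi} (hn : 20 ≤ x.n)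
    (hζ : x.root.length ≤ x.n) {y : Str} {E : ℕ → ℕ → Finset (Str × Str)}
    {l i b l' i' b' : ℕ} {τ τ' ρ : Str} (hl : l ∈ Ico (n0 x.n) (nC x.n))
    (hl' : l' ∈ Ico (n0 x.n) (nC x.n)) (hb : b < 2 ^ zz x.n i) (hb' : b' < 2 ^ zz x.n i')
    (h : Act D K x y E l i b τ ρ) (h' : Act D K x y E l' i' b' τ' ρ)
    (he : len x l i = len x l' i') : l = l' ∧ i = i' ∧ b = b' ∧ τ = τ' := by
  obtain ⟨a1, a2⟩ := mem_Ico.1 hl
  obtain ⟨a3, a4⟩ := mem_Ico.1 hl'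
  have a5 := le_n0 x.n
  have a6 := nC_le_nEnd x.n
  have t1 := tgt_lt hD hn hζ a1 (by omega) τ hb
  have t2 := tgt_lt hD hn hζ a3 (by omega) τ' hb'
  have e1 := h.2.2.2.2.symm.trans h'.2.2.2.2
  have u1 : 2 * zz x.n i ≤ tgt D x.n x.root i l τ b := by unfold tgt; omega
  have u2 : 2 * zz x.n i' ≤ tgt D x.n x.root i' l' τ' b' := by unfold tgt; omega
  unfold len at he
  have hi : i = i' := by
    rcases lt_trichotomy i i' with hlt | heq | hlt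
    · have := (zz_mono x.n).monotone (show i + 1 ≤ i' from hlt)
      omega
    · exact heq
    · have := (zz_mono x.n).monotone (show i' + 1 ≤ i from hlt)
      omega
  subst hi
  have hll : l = l' := by omega
  subst hll
  have q1 := (hD x.n x.root i l hn hζ a1 (by omega)).1 τ b
  have q2 := (hD x.n x.root i l hn hζ a1 (by omega)).1 τ' b'
  have e2 : D (x.n, x.root, i, l) τ b + 2 ^ (3 * zz x.n i) * b =
      D (x.n, x.root, i, l) τ' b' + 2 ^ (3 * zz x.n i) * b' := by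
    unfold tgt at e1
    rw [mul_comm _ b, mul_comm _ b']
    omega
  have hbb : b = b' := by
    have := congrArg (· / 2 ^ (3 * zz x.n i)) e2
    simp only [Nat.add_mul_div_left _ _ (show 0 < 2 ^ (3 * zz x.n i) by positivity),
      Nat.div_eq_of_lt q1, Nat.div_eq_of_lt q2, zero_add] at this
    exact this
  subst hbb
  have e3 : D (x.n, x.root, i, l) τ b = D (x.n, x.root, i, l) τ' b := by omega
  refine ⟨rfl, rfl, rfl, ?_⟩
  rcases lt_trichotomy (Encodable.encode τ) (Encodable.encode τ') with hlt | heq | hlt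
  · exact absurd (mem_coin hb h'.1 h.1 hlt e3) h'.2.1
  · exact Encodable.encode_injective heq
  · exact absurd (mem_coin hb h.1 h'.1 hlt e3.symm) h.2.1

open Classical in
theorem group_le {D : Lab} (hD : DesignOK D) (K : Str → ℕ) (x : Emi) (hn : 20 ≤ x.n)
    (hζ : x.root.length ≤ x.n) {y : Str} (hy : y.length ≤ x.n) (F : Str → Str → ℝ)
    (h0 : ∀ ρ ξ, 0 ≤ F ρ ξ)
    (hz : ∀ ξ ∈ Zs x.root (nEnd x.n), ∑ ρ ∈ Om (nEnd x.n), F ρ ξ ≤ 2⁻¹ ^ nEnd x.n)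
    (hs : ∀ ρ ∈ Om (nEnd x.n), ∀ ξ ∈ Zs x.root (nEnd x.n), 0 < F ρ ξ → y <+: ρ ∧
      ∀ r ∈ design D x, r.1 <+: ξ → K (ρ.take r.2.1) ≤ r.2.2 + x.e)
    (E : ℕ → ℕ → Finset (Str × Str)) {l i b : ℕ} (hl : l ∈ Ico (n0 x.n) (nC x.n))
    (hi : i < nT x.n) (hb : b < 2 ^ zz x.n i) {τ ρ' : Str} (hτ : τ ∈ Zs x.root l)
    (hρ' : ρ'.length = l + tgt D x.n x.root i l τ b) :
    ∑ ρ ∈ Zs ρ' (nEnd x.n), ∑ ξ ∈ Zs τ (nEnd x.n),
        (if (ρ.take l, ξ.take l) ∈ E l i ∧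
            b ∉ coin x.n i (D (x.n, x.root, i, l)) (E l i) (ξ.take l) ∧
            hot D x.n x.root i l (ξ.take l) b <+: ξ then
          F ρ ξ * 2 ^ tgt D x.n x.root i l (ξ.take l) b / 2 ^ zz x.n i else 0) ≤
      if Act D K x y E l i b τ ρ' then (2⁻¹ : ℝ) ^ l / 2 ^ zz x.n i else 0 := by
  obtain ⟨a1, a2⟩ := mem_Ico.1 hl
  have a5 := le_n0 x.n
  have a6 := nC_le_nEnd x.n
  have t1 := tgt_lt_jT hD hn hζ a1 (by omega) hi τ hb
  have a7 : l + tgt D x.n x.root i l τ b ≤ nEnd x.n := by unfold nEnd; omega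
  obtain ⟨b1, b2⟩ := mem_Zs.1 hτ
  have hξτ : ∀ ξ ∈ Zs τ (nEnd x.n), ξ.take l = τ := fun ξ hξ =>
    (pre_iff_take b1).1 (mem_Zs.1 hξ).2
  have hξζ : ∀ ξ ∈ Zs τ (nEnd x.n), ξ ∈ Zs x.root (nEnd x.n) := fun ξ hξ =>
    mem_Zs.2 ⟨(mem_Zs.1 hξ).1, b2.trans (mem_Zs.1 hξ).2⟩
  split_ifs with hA
  · set j := tgt D x.n x.root i l τ b with hj
    calc _ ≤ ∑ ρ ∈ Zs ρ' (nEnd x.n), ∑ ξ ∈ Zs τ (nEnd x.n),
            (if hot D x.n x.root i l τ b <+: ξ then F ρ ξ * (2 ^ j / 2 ^ zz x.n i) else 0) := by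
          refine sum_le_sum fun ρ _ => sum_le_sum fun ξ hξ => ?_
          rw [hξτ ξ hξ]
          have := h0 ρ ξ
          split_ifs with c1 c2
          · exact le_of_eq (mul_div_assoc _ _ _)
          · exact absurd c1.2.2 c2
          · positivity
          · exact le_rfl
      _ ≤ ∑ ρ ∈ Om (nEnd x.n), ∑ ξ ∈ Zs τ (nEnd x.n),
            (if hot D x.n x.root i l τ b <+: ξ then F ρ ξ * (2 ^ j / 2 ^ zz x.n i) else 0) := by
          refine sum_le_sum_of_subset_of_nonneg (Zs_subset _ _) fun ρ _ _ =>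
            sum_nonneg fun ξ _ => ?_
          have := h0 ρ ξ
          split_ifs <;> positivity
      _ ≤ ∑ ξ ∈ Zs τ (nEnd x.n), (if hot D x.n x.root i l τ b <+: ξ then
            (2⁻¹ : ℝ) ^ nEnd x.n * (2 ^ j / 2 ^ zz x.n i) else 0) := by
          rw [sum_comm]
          refine sum_le_sum fun ξ hξ => ?_
          split_ifs
          · rw [← sum_mul]
            exact mul_le_mul_of_nonneg_right (hz ξ (hξζ ξ hξ)) (by positivity)
          · simp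
      _ ≤ ∑ _ξ ∈ Zs (hot D x.n x.root i l τ b) (nEnd x.n),
            (2⁻¹ : ℝ) ^ nEnd x.n * (2 ^ j / 2 ^ zz x.n i) := by
          rw [← sum_filter]
          refine sum_le_sum_of_subset_of_nonneg (fun ξ hξ => ?_) fun _ _ _ => by positivity
          obtain ⟨c1, c2⟩ := mem_filter.1 hξ
          exact mem_Zs.2 ⟨(mem_Zs.1 c1).1, c2⟩
      _ = _ := by
          rw [sum_const, card_Zs (by rw [length_hot, b1]; exact a7), length_hot, b1, ← hj,
            nsmul_eq_mul]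
          obtain ⟨d, hd⟩ := Nat.exists_eq_add_of_le a7
          rw [hd, Nat.add_sub_cancel_left]
          push_cast
          simp only [pow_add, inv_pow]
          field_simp
  · refine le_of_eq (sum_eq_zero fun ρ hρ => sum_eq_zero fun ξ hξ => ?_)
    rw [hξτ ξ hξ]
    split_ifs with c1
    · rcases (h0 ρ ξ).eq_or_lt with c2 | c2
      · rw [← c2]; simp
      · exfalso
        obtain ⟨d1, d2⟩ := mem_Zs.1 hρ
        obtain ⟨s1, s2⟩ := hs ρ (mem_Om.2 d1) ξ (hξζ ξ hξ) c2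
        have s3 := s2 _ ((mem_design hζ).2 ⟨l, hl, i, hi, τ, hτ, b, hb, rfl⟩) c1.2.2
        have e1 : ρ.take (l + tgt D x.n x.root i l τ b) = ρ' := (pre_iff_take hρ').1 d2
        refine hA ⟨?_, c1.2.1, ?_, ?_, hρ'⟩
        · rw [take_of_pre d2 (by omega)]; exact c1.1
        · rw [← e1]; exact take_pre s1 (by omega)
        · rw [← e1]; exact s3
    · rfl

theorem weight (x : Emi) {l : ℕ} (i : ℕ) (h : x.root.length ≤ l) :
    x.val * 2 ^ x.root.length * ((2⁻¹ : ℝ) ^ l / 2 ^ zz x.n i) =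
      2 ^ (6 * jT x.n) * nT x.n * 2⁻¹ ^ len x l i := by
  obtain ⟨d, rfl⟩ := Nat.exists_eq_add_of_le h
  unfold len Emi.val nT
  rw [Nat.add_sub_cancel_left]
  push_cast
  simp only [pow_add, inv_pow]
  field_simp

end NPay

open NPay in
theorem pay_count {D : Lab} (hD : DesignOK D) (K : Str → ℕ) (x : Emi) (hn : 20 ≤ x.n)
    (hζ : x.root.length ≤ x.n) {y : Str} (hy : y.length ≤ x.n) (F : Str → Str → ℝ)
    (h0 : ∀ ρ ξ, 0 ≤ F ρ ξ)
    (hz : ∀ ξ ∈ Zs x.root (nEnd x.n), ∑ ρ ∈ Om (nEnd x.n), F ρ ξ ≤ 2⁻¹ ^ nEnd x.n)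
    (hs : ∀ ρ ∈ Om (nEnd x.n), ∀ ξ ∈ Zs x.root (nEnd x.n), 0 < F ρ ξ → y <+: ρ ∧
      ∀ r ∈ design D x, r.1 <+: ξ → K (ρ.take r.2.1) ≤ r.2.2 + x.e)
    (E : ℕ → ℕ → Finset (Str × Str)) :
    x.val * 2 ^ x.root.length * ∑ l ∈ Ico (n0 x.n) (nC x.n), ∑ i ∈ range (nT x.n),
      ∑ ρ ∈ Om (nEnd x.n), ∑ ξ ∈ Zs x.root (nEnd x.n), ∑ b ∈ range (2 ^ zz x.n i),
        (if (ρ.take l, ξ.take l) ∈ E l i ∧
            b ∉ coin x.n i (D (x.n, x.root, i, l)) (E l i) (ξ.take l) ∧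
            hot D x.n x.root i l (ξ.take l) b <+: ξ then
          F ρ ξ * 2 ^ tgt D x.n x.root i l (ξ.take l) b / 2 ^ zz x.n i else 0) ≤
      2 ^ (6 * jT x.n) * nT x.n * (2 * 2 ^ x.e * Pay K y x.n (nEnd x.n)) := by
  classical
  have a5 := le_n0 x.n
  have a6 := nC_le_nEnd x.n
  have hv := x.val_pos
  set U : Finset Str := (Ico x.n (nEnd x.n)).biUnion fun l => Zs y l with hU
  have hPay : Pay K y x.n (nEnd x.n) = ∑ ρ ∈ U, (2⁻¹ : ℝ) ^ K ρ := by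
    rw [hU, sum_biUnion]
    · rfl
    · intro a _ b _ hab
      exact disjoint_left.2 fun ρ h1 h2 => hab ((mem_Zs.1 h1).1.symm.trans (mem_Zs.1 h2).1)
  set I : Finset (Σ _ : ℕ, Σ _ : ℕ, ℕ × Str) := (Ico (n0 x.n) (nC x.n)).sigma fun l =>
    (range (nT x.n)).sigma fun i => range (2 ^ zz x.n i) ×ˢ Zs x.root l with hI
  have step1 : ∀ l ∈ Ico (n0 x.n) (nC x.n), ∀ i ∈ range (nT x.n),
      x.val * 2 ^ x.root.length *
      ∑ ρ ∈ Om (nEnd x.n), ∑ ξ ∈ Zs x.root (nEnd x.n), ∑ b ∈ range (2 ^ zz x.n i),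
        (if (ρ.take l, ξ.take l) ∈ E l i ∧
            b ∉ coin x.n i (D (x.n, x.root, i, l)) (E l i) (ξ.take l) ∧
            hot D x.n x.root i l (ξ.take l) b <+: ξ then
          F ρ ξ * 2 ^ tgt D x.n x.root i l (ξ.take l) b / 2 ^ zz x.n i else 0) ≤
      2 ^ (6 * jT x.n) * nT x.n * ∑ p ∈ range (2 ^ zz x.n i) ×ˢ Zs x.root l, ∑ ρ ∈ U,
        if Act D K x y E l i p.1 p.2 ρ then (2⁻¹ : ℝ) ^ len x l i else 0 := by
    intro l hl i hi
    obtain ⟨a1, a2⟩ := mem_Ico.1 hl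
    rw [sum_comm, sum_congr rfl fun ξ _ => sum_comm, sum_comm, sum_product, mul_sum, mul_sum]
    refine sum_le_sum fun b hb => ?_
    rw [sum_Zs (l := l) (by omega) (by omega), mul_sum, mul_sum]
    refine sum_le_sum fun τ hτ => ?_
    have t1 := tgt_lt_jT hD hn hζ a1 (by omega) (mem_range.1 hi) τ (mem_range.1 hb)
    have a7 : l + tgt D x.n x.root i l τ b < nEnd x.n := by unfold nEnd; omega
    rw [sum_comm, sum_Om_Zs a7.le]
    refine (mul_le_mul_of_nonneg_left (sum_le_sum fun ρ' hρ' =>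
      group_le hD K x hn hζ hy F h0 hz hs E hl (mem_range.1 hi) (mem_range.1 hb) hτ
        (mem_Om.1 hρ')) (by positivity)).trans ?_
    rw [← sum_filter, ← sum_filter, sum_const, sum_const, nsmul_eq_mul, nsmul_eq_mul,
      mul_left_comm, weight x i (by omega), mul_left_comm]
    refine mul_le_mul_of_nonneg_left (mul_le_mul_of_nonneg_right ?_ (by positivity))
      (by positivity)
    refine Nat.cast_le.2 (card_le_card fun ρ hρ => ?_)
    obtain ⟨c1, c2⟩ := mem_filter.1 hρ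
    refine mem_filter.2 ⟨mem_biUnion.2 ⟨_, mem_Ico.2 ⟨by omega, a7⟩,
      mem_Zs.2 ⟨mem_Om.1 c1, c2.2.2.1⟩⟩, c2⟩
  have step2 : ∀ ρ ∈ U, (∑ g ∈ I, if Act D K x y E g.1 g.2.1 g.2.2.1 g.2.2.2 ρ then
      (2⁻¹ : ℝ) ^ len x g.1 g.2.1 else 0) ≤ 2 * 2 ^ x.e * 2⁻¹ ^ K ρ := by
    intro ρ _
    rw [← sum_filter, ← sum_image (f := fun a => (2⁻¹ : ℝ) ^ a)
      (g := fun g : Σ _ : ℕ, Σ _ : ℕ, ℕ × Str => len x g.1 g.2.1), mul_assoc]
    · refine geo _ (by positivity) fun a ha => ?_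
      obtain ⟨g, hg, rfl⟩ := mem_image.1 ha
      have h1 := (mem_filter.1 hg).2.2.2.2.1
      have h2 : (2⁻¹ : ℝ) ^ (len x g.1 g.2.1 + x.e) ≤ 2⁻¹ ^ K ρ :=
        pow_le_pow_of_le_one (by norm_num) (by norm_num) h1
      calc (2⁻¹ : ℝ) ^ len x g.1 g.2.1 = 2 ^ x.e * 2⁻¹ ^ (len x g.1 g.2.1 + x.e) := by
            simp only [pow_add, inv_pow]
            field_simp
        _ ≤ _ := mul_le_mul_of_nonneg_left h2 (by positivity)
    · rintro ⟨l, i, b, τ⟩ hg ⟨l', i', b', τ'⟩ hg' he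
      obtain ⟨c1, c2⟩ := mem_filter.1 (mem_coe.1 hg)
      obtain ⟨c3, c4⟩ := mem_filter.1 (mem_coe.1 hg')
      simp only [hI, mem_sigma, mem_product, mem_range] at c1 c3
      obtain ⟨rfl, rfl, rfl, rfl⟩ := act_inj hD hn hζ c1.1 c3.1 c1.2.2.1 c3.2.2.1 c2 c4 he
      rfl
  calc _ ≤ ∑ l ∈ Ico (n0 x.n) (nC x.n), ∑ i ∈ range (nT x.n), 2 ^ (6 * jT x.n) * nT x.n *
          ∑ p ∈ range (2 ^ zz x.n i) ×ˢ Zs x.root l, ∑ ρ ∈ U,
            if Act D K x y E l i p.1 p.2 ρ then (2⁻¹ : ℝ) ^ len x l i else 0 := by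
        rw [mul_sum]
        refine sum_le_sum fun l hl => ?_
        rw [mul_sum]
        exact sum_le_sum fun i hi => step1 l hl i hi
    _ = 2 ^ (6 * jT x.n) * nT x.n * ∑ ρ ∈ U, ∑ g ∈ I,
          if Act D K x y E g.1 g.2.1 g.2.2.1 g.2.2.2 ρ then (2⁻¹ : ℝ) ^ len x g.1 g.2.1 else 0 := by
        simp only [← mul_sum]
        congr 1
        rw [sum_comm (s := U), hI, sum_sigma]
        refine sum_congr rfl fun l _ => ?_
        rw [sum_sigma]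
    _ ≤ _ := by
        refine mul_le_mul_of_nonneg_left ?_ (by positivity)
        rw [hPay, mul_sum]
        exact sum_le_sum step2

end Pool.Agent.Lib.MP_848037_lc.Neg
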