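import Pool.Agent.Lib.MP_848037_lc.NY
import Pool.Agent.Lib.MP_848037_lc.NPay
import Pool.Agent.Lib.MP_848037_lc.NLevel

/-! Assembly of the static bound from the law of large numbers, the level bound and the payment count. -/

set_option autoImplicit false

namespace Pool.Agent.Lib.MP_848037_lc.Neg

open Finset Pool.Agent.Shared.Type2

namespace NStatic

/-- The damping factor. -/
noncomputable def lam (a s : ℝ) : ℝ := if s ≤ a then 1 else a / s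

theorem lam_nonneg {a s : ℝ} (ha : 0 ≤ a) : 0 ≤ lam a s := by
  unfold lam
  split_ifs with h
  · exact zero_le_one
  · exact div_nonneg ha (by linarith)

theorem lam_le {a s : ℝ} (ha : 0 ≤ a) : lam a s ≤ 1 := by
  unfold lam
  split_ifs with h
  · exact le_rfl
  · exact (div_le_one (by linarith)).2 (by linarith)

theorem lam_mul {a s : ℝ} (ha : 0 ≤ a) : lam a s * s = min a s := by
  unfold lam
  split_ifs with h
  · rw [one_mul, min_eq_right h]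
  · have : s ≠ 0 := ne_of_gt (by linarith)
    rw [div_mul_cancel₀ _ this, min_eq_left (by linarith)]

theorem geom_le (m : ℕ) : ∑ r ∈ range m, (2⁻¹ : ℝ) ^ r ≤ 2 := by
  have h : ∑ r ∈ range m, (2⁻¹ : ℝ) ^ r = 2 - 2 * 2⁻¹ ^ m := by
    induction m with
    | zero => simp
    | succ m ih => rw [sum_range_succ, ih, pow_succ]; ring
  have : (0 : ℝ) ≤ 2⁻¹ ^ m := by positivity
  linarith

theorem bad_le {D : Lab} {n : ℕ} {ζ : Str} {ι : Type} (I : Finset ι) (f : ι → Str → Str → ℝ)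
    (hI : I.card ≤ 2 ^ n) (hb : ∀ c ∈ I, NoBad D n ζ (f c)) :
    ∑ l ∈ Ico (n0 n) (nC n), ∑ c ∈ I, ∑ r ∈ range (mm n + 1), badL D n ζ r l (f c) ≤
      2 ^ (6 * jT n) * (2 * 2⁻¹ ^ (n + ζ.length)) := by
  rw [sum_comm]
  have h1 : ∀ c ∈ I, ∑ l ∈ Ico (n0 n) (nC n), ∑ r ∈ range (mm n + 1), badL D n ζ r l (f c) ≤
      2 * ((2⁻¹ : ℝ) ^ (2 * n + ζ.length) * 2 ^ (6 * jT n)) := fun c hc => by
    rw [sum_comm]
    calc _ ≤ ∑ r ∈ range (mm n + 1),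
          (2⁻¹ : ℝ) ^ r * ((2⁻¹ : ℝ) ^ (2 * n + ζ.length) * 2 ^ (6 * jT n)) :=
          sum_le_sum fun r hr => by
            refine (hb c hc r (Nat.lt_succ_iff.1 (mem_range.1 hr))).trans (le_of_eq ?_)
            rw [← mul_assoc, ← pow_add]
            congr 2
            ring
      _ ≤ _ := by
          rw [← sum_mul]
          exact mul_le_mul_of_nonneg_right (geom_le _) (by positivity)
  refine (sum_le_sum h1).trans ?_
  rw [sum_const, nsmul_eq_mul]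
  have h2 : (I.card : ℝ) ≤ 2 ^ n := by exact_mod_cast hI
  calc _ ≤ (2 : ℝ) ^ n * (2 * ((2⁻¹ : ℝ) ^ (2 * n + ζ.length) * 2 ^ (6 * jT n))) :=
        mul_le_mul_of_nonneg_right h2 (by positivity)
    _ = _ := by
        rw [show 2 * n + ζ.length = n + (n + ζ.length) by ring, pow_add (2⁻¹ : ℝ) n]
        have : (2 : ℝ) ^ n * 2⁻¹ ^ n = 1 := by rw [← mul_pow]; norm_num
        linear_combination (2 * (2⁻¹ : ℝ) ^ (n + ζ.length) * 2 ^ (6 * jT n)) * this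

theorem arith {R T w p ε C U M B Q : ℝ} (hR : 0 < R) (hT : 0 < T) (hw : 0 ≤ w) (hp : 0 ≤ p)
    (he : w * ε = p) (h1 : R * C ≤ U + R * ε) (h3 : w * M ≤ R * T * Q)
    (h4 : T * U ≤ M + T * B + R * (T * (4 * ε))) (h5 : B ≤ R * (2 * ε)) :
    w * C ≤ Q + 9 * p := by
  have h6 := mul_le_mul_of_nonneg_left h1 hT.le
  have h7 := mul_le_mul_of_nonneg_left h5 hT.le
  have h8 : T * (R * C) ≤ M + 7 * (R * T) * ε := by linarith
  have h9 := mul_le_mul_of_nonneg_left h8 hw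
  have h10 := mul_nonneg (mul_pos hR hT).le hp
  refine le_of_mul_le_mul_left ?_ (mul_pos hR hT)
  have h11 : w * (7 * (R * T) * ε) = 7 * (R * T * p) := by rw [← he]; ring
  linarith

end NStatic

open NStatic in
/-- Assembly of `lln`, `level_bound`, `pay_count`. -/
theorem static {D : Lab} (hD : DesignOK D) (K : Str → ℕ) (x : Emi) (hn : 20 ≤ x.n)
    (hζ : x.root.length ≤ x.n) {y : Str} (hy : y.length ≤ x.n) {ι : Type} (I : Finset ι)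
    (f : ι → Str → Str → ℝ) (lw : ℕ) (hI : I.card * 2 ^ lw ≤ 2 ^ x.n) (h0 : ∀ c ρ ξ, 0 ≤ f c ρ ξ)
    (hz : ∀ c ∈ I, ∀ ξ ∈ Zs x.root (nEnd x.n), ∑ ρ ∈ Om (nEnd x.n), f c ρ ξ ≤ 2⁻¹ ^ nEnd x.n)
    (hx : ∀ c ∈ I, ∀ ρ ∈ Om (nEnd x.n),
      ∑ ξ ∈ Zs x.root (nEnd x.n), f c ρ ξ ≤ 2 ^ lw * 2⁻¹ ^ nEnd x.n)
    (hs : ∀ c ∈ I, ∀ ρ ∈ Om (nEnd x.n), ∀ ξ ∈ Zs x.root (nEnd x.n), 0 < f c ρ ξ → y <+: ρ ∧
      ∀ r ∈ design D x, r.1 <+: ξ → K (ρ.take r.2.1) ≤ r.2.2 + x.e)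
    (hb : ∀ c ∈ I, NoBad D x.n x.root (f c)) :
    x.val * 2 ^ x.root.length * ∑ ξ ∈ Zs x.root (nEnd x.n),
        min (2⁻¹ ^ nEnd x.n) (∑ c ∈ I, ∑ ρ ∈ Om (nEnd x.n), f c ρ ξ) ≤
      2 * 2 ^ x.e * Pay K y x.n (nEnd x.n) + 9 * x.val * 2⁻¹ ^ x.n := by
  classical
  have ha : (0 : ℝ) ≤ 2⁻¹ ^ nEnd x.n := by positivity
  set S : Str → ℝ := fun ξ => ∑ c ∈ I, ∑ ρ ∈ Om (nEnd x.n), f c ρ ξ with hS
  set L : Str → ℝ := fun ξ => lam (2⁻¹ ^ nEnd x.n) (S ξ) with hL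
  have hS0 : ∀ ξ, 0 ≤ S ξ := fun ξ => sum_nonneg fun c _ => sum_nonneg fun ρ _ => h0 c ρ ξ
  have hL0 : ∀ ξ, 0 ≤ L ξ := fun ξ => lam_nonneg ha
  have hL1 : ∀ ξ, L ξ ≤ 1 := fun ξ => lam_le ha
  have hLS : ∀ ξ, L ξ * S ξ = min (2⁻¹ ^ nEnd x.n) (S ξ) := fun ξ => lam_mul ha
  have hF : ∀ ξ, L ξ * S ξ ≤ 2⁻¹ ^ nEnd x.n := fun ξ => (hLS ξ).trans_le (min_le_left _ _)
  have h1 := lln hD hn hζ (fun ξ => L ξ * S ξ) (fun ξ => mul_nonneg (hL0 ξ) (hS0 ξ))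
    fun ξ _ => hF ξ
  have h2 := fun (l : ℕ) (hl : l ∈ Ico (n0 x.n) (nC x.n)) =>
    level_bound hD hn hζ hl I f lw hI h0 hz hx L hL0 hL1 fun ξ _ => hF ξ
  choose! E hE using h2
  have h3 := pay_count hD K x hn hζ hy (fun ρ ξ => L ξ * ∑ c ∈ I, f c ρ ξ)
    (fun ρ ξ => mul_nonneg (hL0 ξ) (sum_nonneg fun c _ => h0 c ρ ξ))
    (fun ξ _ => by
      rw [← mul_sum, sum_comm]
      exact hF ξ)
    (fun ρ hρ ξ hξ hpos => by
      have h4 : 0 < ∑ c ∈ I, f c ρ ξ := by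
        by_contra hc
        exact absurd hpos (not_lt.2 (mul_nonpos_of_nonneg_of_nonpos (hL0 ξ) (not_lt.1 hc)))
      obtain ⟨c, hc, hc'⟩ := exists_lt_of_sum_lt (s := I) (f := fun _ => (0 : ℝ))
        (g := fun c => f c ρ ξ) (by simpa using h4)
      exact hs c hc ρ hρ ξ hξ hc') E
  have h4 := sum_le_sum hE
  have hI' : I.card ≤ 2 ^ x.n :=
    (Nat.le_mul_of_pos_right _ (by positivity)).trans hI
  have h5 := bad_le I f hI' hb
  rw [sum_add_distrib, sum_add_distrib, ← mul_sum, ← mul_sum, sum_const, Nat.card_Ico,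
    show nC x.n - n0 x.n = 2 ^ (6 * jT x.n) from Nat.add_sub_cancel_left .., nsmul_eq_mul] at h4
  push_cast at h4
  have hT : (0 : ℝ) < nT x.n := by exact_mod_cast nT_pos x.n
  have hv := x.val_pos
  have he : x.val * 2 ^ x.root.length * 2⁻¹ ^ (x.n + x.root.length) = x.val * 2⁻¹ ^ x.n := by
    rw [mul_assoc, pow_add, mul_left_comm ((2 : ℝ) ^ _), ← mul_pow]; norm_num
  have h6 := arith (by positivity) hT (by positivity) (by positivity) he h1 h3 h4 h5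
  simp only [hLS] at h6
  linarith

end Pool.Agent.Lib.MP_848037_lc.Neg
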