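import Pool.Agent.Lib.MP_848037_lc.NBasic

/-!
The test for waves, read over the reals, and the list of candidates.
-/

set_option autoImplicit false

namespace Pool.Agent.Lib.MP_848037_lc.Neg

open Finset Pool.Agent.Shared.Type2

namespace NTest

theorem sumL {β : Type*} [AddCommMonoid β] (X : ℕ → Emi) (a b : ℕ) (g : Emi → β) :
    (((List.range (b - a)).map fun i => X (a + i)).map g).sum = ∑ j ∈ Ico a b, g (X j) := by
  rw [sum_Ico_eq_sum_range, List.map_map]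
  rfl

theorem sum_allS {β : Type*} [AddCommMonoid β] (l : ℕ) (g : Str → β) :
    ((allS l).map g).sum = ∑ ρ ∈ Om l, g ρ := by
  rw [Om, List.sum_toFinset _ (nodup_allS l)]

/-- At most one string of a given length lies below `w`. -/
theorem sum_pre {l : ℕ} (T : Finset Str) (hT : ∀ τ ∈ T, τ.length = l) (w : Str) (P : Prop)
    [Decidable P] (v : ℝ) :
    (∑ τ ∈ T, if P ∧ τ <+: w then v else 0) = if P ∧ w.take l ∈ T then v else 0 := by
  by_cases hP : P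
  · simp only [hP, true_and]
    rw [sum_congr rfl fun τ hτ => if_congr ((pre_iff_take (hT τ hτ)).trans eq_comm) rfl rfl,
      sum_ite_eq']
  · simp [hP]

theorem wN_cast (X : ℕ → Emi) (a b e l : ℕ) (H : List Str) (hH' : ∀ τ ∈ H, τ.length = l)
    {ρ : Str} (hρ : ρ.length = l) :
    (wN ((List.range (b - a)).map fun i => X (a + i)) e l ρ H : ℝ) =
      2 ^ (∑ j ∈ Ico a b, (X j).A) * ∑ τ ∈ H.toFinset, ww X e a b ρ τ := by
  unfold wN ww
  rw [sumL, sumL, sum_comm, mul_sum, Nat.cast_sum]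
  refine sum_congr rfl fun j hj => ?_
  have h1 : (X j).A ≤ ∑ j ∈ Ico a b, (X j).A :=
    single_le_sum (f := fun j => (X j).A) (fun _ _ => Nat.zero_le _) hj
  have h2 := sum_pre H.toFinset (fun τ hτ => hH' τ (List.mem_toFinset.1 hτ)) (X j).root
    ((X j).e = e ∧ ρ <+: (X j).own) (X j).val
  simp only [and_assoc] at h2
  rw [h2]
  obtain ⟨c, hc⟩ := Nat.exists_eq_add_of_le h1
  rw [hc, Nat.add_sub_cancel_left]
  have h3 : ((2 : ℝ) ^ ((X j).A + c)) * (X j).val = 2 ^ c := by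
    unfold Emi.val
    rw [pow_add, inv_pow]
    field_simp
  by_cases h : (X j).e = e ∧ ρ <+: (X j).own ∧ (X j).root.take l ∈ H.toFinset
  · rw [if_pos h, h3]
    obtain ⟨p1, p2, p3⟩ := h
    rw [pre_iff_take hρ] at p2
    rw [List.mem_toFinset] at p3
    have : (decide ((X j).e = e) && decide ((X j).own.take l = ρ) &&
        H.any fun τ => decide ((X j).root.take l = τ)) = true := by
      simp [p1, p2, p3]
    rw [this]
    simp
  · rw [if_neg h, mul_zero]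
    have : (decide ((X j).e = e) && decide ((X j).own.take l = ρ) &&
        H.any fun τ => decide ((X j).root.take l = τ)) = false := by
      rw [← Bool.not_eq_true]
      intro h'
      apply h
      simp only [Bool.and_eq_true, decide_eq_true_eq, List.any_eq_true] at h'
      obtain ⟨⟨p1, p2⟩, τ, p3, p4⟩ := h'
      exact ⟨p1, (pre_iff_take hρ).2 p2, by rw [p4]; exact List.mem_toFinset.2 p3⟩
    rw [this]
    simp

theorem scale (d l n M c s : ℕ) (T : Finset Str) (W : Str → ℝ) :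
    ((2 : ℝ) ^ (d + l + 3 * n + M) ≤ 2 ^ (c + 3) *
      ∑ ρ ∈ T, min (2 ^ (M + 3)) (2 ^ (s + l + 3 * n) * (2 ^ M * W ρ))) ↔
    (2⁻¹ : ℝ) ^ (c + 3) ≤ 2⁻¹ ^ d * ∑ ρ ∈ T, min (8 * 2⁻¹ ^ (l + 3 * n)) (2 ^ s * W ρ) := by
  have h1 : ∀ ρ, min ((2 : ℝ) ^ (M + 3)) (2 ^ (s + l + 3 * n) * (2 ^ M * W ρ)) =
      2 ^ (l + 3 * n + M) * min (8 * 2⁻¹ ^ (l + 3 * n)) (2 ^ s * W ρ) := by
    intro ρ
    rw [mul_min_of_nonneg _ _ (by positivity)]
    congr 1
    · rw [inv_pow, pow_add _ (l + 3 * n) M, pow_add _ M 3]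
      field_simp
      norm_num
    · ring
  simp only [h1, ← mul_sum]
  generalize ∑ ρ ∈ T, min (8 * (2⁻¹ : ℝ) ^ (l + 3 * n)) (2 ^ s * W ρ) = S
  have h2 : (0 : ℝ) < 2 ^ (d + l + 3 * n + M) * 2 ^ (c + 3) := by positivity
  rw [← mul_le_mul_iff_right₀ h2 (b := 2⁻¹ ^ (c + 3))]
  have h3 : (2 : ℝ) ^ (d + l + 3 * n + M) * 2 ^ (c + 3) * 2⁻¹ ^ (c + 3) =
      2 ^ (d + l + 3 * n + M) := by
    rw [inv_pow]; field_simp
  have h4 : (2 : ℝ) ^ (d + l + 3 * n + M) * 2 ^ (c + 3) * (2⁻¹ ^ d * S) =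
      2 ^ (c + 3) * (2 ^ (l + 3 * n + M) * S) := by
    rw [inv_pow, show d + l + 3 * n + M = d + (l + 3 * n + M) by ring, pow_add _ d]; field_simp
  rw [h3, h4]

/-- The flow through the extensions of an edge is at most the flow through the edge. -/
theorem sum_ww_le (X : ℕ → Emi) (e a b m : ℕ) (ρ0 τ : Str) :
    ∑ ρ ∈ Zs ρ0 m, ∑ ξ ∈ Zs τ m, ww X e a b ρ ξ ≤ ww X e a b ρ0 τ := by
  unfold ww
  rw [sum_congr rfl fun ρ _ => sum_comm, sum_comm]
  refine sum_le_sum fun j _ => ?_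
  have h1 : ∀ ρ, (∑ ξ ∈ Zs τ m, if (X j).e = e ∧ ρ <+: (X j).own ∧ ξ <+: (X j).root then (X j).val
      else 0) = if ((X j).e = e ∧ (X j).root.take m ∈ Zs τ m) ∧ ρ <+: (X j).own then (X j).val
      else 0 := by
    intro ρ
    have h2 := sum_pre (Zs τ m) (fun ξ hξ => (mem_Zs.1 hξ).1) (X j).root
      ((X j).e = e ∧ ρ <+: (X j).own) (X j).val
    simp only [and_assoc] at h2 ⊢
    rw [h2]
    exact if_congr (by tauto) rfl rfl
  simp only [h1]
  rw [sum_pre (Zs ρ0 m) (fun ξ hξ => (mem_Zs.1 hξ).1)]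
  split_ifs with p q
  · exact le_rfl
  · exact absurd ⟨p.1.1, (mem_Zs.1 p.2).2.trans (List.take_prefix _ _),
      (mem_Zs.1 p.1.2).2.trans (List.take_prefix _ _)⟩ q
  · exact (X j).val_pos.le
  · exact le_rfl

/-- The flow out of `ρ`. -/
theorem sum_ww_out (X : ℕ → Emi) (e a b m : ℕ) (ρ τ : Str) :
    ∑ ξ ∈ Zs τ m, ww X e a b ρ ξ ≤
      ∑ i ∈ Ico a b, if ρ <+: (X i).own then (X i).val else 0 := by
  unfold ww
  rw [sum_comm]
  refine sum_le_sum fun j _ => ?_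
  have h2 := sum_pre (Zs τ m) (fun ξ hξ => (mem_Zs.1 hξ).1) (X j).root
    ((X j).e = e ∧ ρ <+: (X j).own) (X j).val
  simp only [and_assoc] at h2
  rw [h2]
  split_ifs with p q
  · exact le_rfl
  · exact absurd p.2.1 q
  · exact (X j).val_pos.le
  · exact le_rfl

theorem mem_cands' {x : Emi} {l d : ℕ} {H : List Str} :
    (l, H, d) ∈ cands x ↔ x.n ≤ l ∧ l < nC x.n ∧ H.Sublist (zsL x.root l) ∧ d ≤ lc x + jT x.n := by
  simp only [cands, List.mem_flatMap, List.mem_map, List.mem_range, subs_eq, List.mem_sublists',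
    Prod.mk.injEq]
  constructor
  · rintro ⟨a, ha, H', hH', d', hd', rfl, rfl, rfl⟩
    exact ⟨by omega, by omega, hH', by omega⟩
  · rintro ⟨h1, h2, h3, h4⟩
    obtain ⟨a, rfl⟩ := Nat.exists_eq_add_of_le h1
    exact ⟨a, by omega, H, h3, d, by omega, rfl, rfl, rfl⟩

end NTest

open NTest

theorem wtest_iff (X : ℕ → Emi) (F : Fr) (a b j : ℕ) (x : Emi) (l d : ℕ) (H : List Str)
    (hH : H.Nodup) (hH' : ∀ τ ∈ H, τ.length = l)
    (hlen : ∀ i ∈ Ico a b, l ≤ (X i).root.length ∧ l ≤ (X i).own.length) :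
    wtest F ((List.range (b - a)).map fun i => X (a + i)) j x (l, H, d) = true ↔
      (j, l) ∉ F.wv ∧ lc x ≤ d + 2 * jT x.n ∧ H.length * 2 ^ lc x ≤ 2 ^ (l + d) ∧
      (2⁻¹ : ℝ) ^ (lc x + 3) ≤ 2⁻¹ ^ d * ∑ ρ ∈ Om l, min (8 * 2⁻¹ ^ (l + 3 * x.n))
        (2 ^ (2 * jT x.n + (3 + F.b + F.k + F.q)) * ∑ τ ∈ H.toFinset, ww X x.e a b ρ τ) := by
  have _ := hH
  have _ := hlen
  unfold wtest
  simp only [Bool.and_eq_true, decide_eq_true_eq, Bool.not_eq_true', ← Bool.not_eq_true,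
    List.any_eq_true, exists_eq_right, and_assoc]
  refine and_congr Iff.rfl (and_congr Iff.rfl (and_congr Iff.rfl ?_))
  rw [← scale d l x.n (∑ j ∈ Ico a b, (X j).A), sumL X a b fun y => y.A, sum_allS,
    ← Nat.cast_le (α := ℝ)]
  push_cast
  rw [sum_congr (s₁ := Om l) rfl fun ρ hρ => by rw [wN_cast X a b x.e l H hH' (mem_Om.1 hρ)]]

theorem mem_cands {x : Emi} (hζ : x.root.length ≤ x.n) {l d : ℕ} {H : List Str}
    (h : (l, H, d) ∈ cands x) :
    x.n ≤ l ∧ l < nC x.n ∧ H.Nodup ∧ (∀ τ ∈ H, τ ∈ Zs x.root l) ∧ d ≤ lc x + jT x.n := by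
  obtain ⟨h1, h2, h3, h4⟩ := mem_cands'.1 h
  exact ⟨h1, h2, h3.nodup (nodup_zsL _ _), fun τ hτ => (mem_zsL (hζ.trans h1)).1 (h3.subset hτ),
    h4⟩

end Pool.Agent.Lib.MP_848037_lc.Neg
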