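import Pool.Agent.Lib.MP_848037_lc.NBasic

/-!
Bookkeeping for the machine: the cases of a step and the structural invariant.
-/

set_option autoImplicit false
set_option linter.unusedVariables false

namespace Pool.Agent.Lib.MP_848037_lc.Neg

open Finset Pool.Agent.Shared.Type2

namespace NWF

theorem lastIdx_none {p : ℕ → Bool} {n : ℕ} (h : lastIdx p n = none) : ∀ i < n, p i = false := by
  induction n with
  | zero => intro i hi; omega
  | succ n ih =>
    have e : lastIdx p (n + 1) = cond (p n) (some n) (lastIdx p n) := rfl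
    rw [e] at h
    cases hp : p n with
    | true => rw [hp] at h; simp at h
    | false =>
      rw [hp] at h
      intro i hi
      rcases Nat.lt_succ_iff_lt_or_eq.1 hi with hi | rfl
      · exact ih h i hi
      · exact hp

theorem lastIdx_some {p : ℕ → Bool} {n i : ℕ} (h : lastIdx p n = some i) :
    i < n ∧ p i = true ∧ ∀ j, i < j → j < n → p j = false := by
  induction n with
  | zero => exact absurd h (by simp [lastIdx])
  | succ n ih =>
    have e : lastIdx p (n + 1) = cond (p n) (some n) (lastIdx p n) := rfl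
    rw [e] at h
    cases hp : p n with
    | true =>
      rw [hp] at h
      obtain rfl : n = i := by simpa using h
      exact ⟨by omega, hp, fun j h1 h2 => by omega⟩
    | false =>
      rw [hp] at h
      obtain ⟨a, b, c⟩ := ih h
      refine ⟨by omega, b, fun j h1 h2 => ?_⟩
      rcases Nat.lt_succ_iff_lt_or_eq.1 h2 with h2 | rfl
      · exact c j h1 h2
      · exact hp

theorem suffix_drop {α : Type} {ps fs : List α} (h : ps <:+ fs) (hne : ps ≠ []) :
    ∃ i < fs.length, ps = fs.drop i ∧ i + ps.length = fs.length := by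
  obtain ⟨u, rfl⟩ := h
  have := List.length_pos_iff.2 hne
  exact ⟨u.length, by simp; omega, by simp, by simp⟩

theorem bump_cons (F : Fr) (ps : List Fr) : bump (F :: ps) = F.next :: ps := rfl

theorem bump_nil : bump [] = [] := rfl

end NWF

open NWF

theorem step_cases (kl : Str × ℕ → ℕ → Bool) (D : Lab) (s : ℕ) (st : MS) :
    ((∀ ps, ps <:+ st.fs → ps ≠ [] → act kl s st.req ps = false) ∧
      step kl D s st = push st) ∨
    ∃ pre F ps, st.fs = pre ++ F :: ps ∧
      (∀ ps', ps' <:+ ps → ps' ≠ [] → act kl s st.req ps' = false) ∧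
      ((fin kl s st.req F = true ∧ step kl D s st = endEp kl D s st F ps) ∨
        (fin kl s st.req F = false ∧ F.rem = 1 ∧ allW kl s st.req (F :: ps) F.m = true ∧
          step kl D s st = { st with fs := F.next :: ps })) := by
  cases h : lastIdx (fun i => act kl s st.req (st.fs.drop i)) st.fs.length with
  | none =>
    refine Or.inl ⟨fun ps h1 h2 => ?_, by rw [step, h]; rfl⟩
    obtain ⟨i, hi, rfl, -⟩ := suffix_drop h1 h2
    exact lastIdx_none h i hi
  | some i =>
    obtain ⟨h1, h2, h3⟩ := lastIdx_some h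
    have hd : st.fs.drop i = st.fs[i] :: st.fs.drop (i + 1) := List.drop_eq_getElem_cons h1
    have hg : st.fs.getD i default = st.fs[i] := List.getD_eq_getElem _ _ h1
    refine Or.inr ⟨st.fs.take i, st.fs[i], st.fs.drop (i + 1), ?_, fun ps' a b => ?_, ?_⟩
    · rw [← hd, List.take_append_drop]
    · obtain ⟨j, hj, e, e2⟩ := suffix_drop (a.trans (List.drop_suffix _ _)) b
      have := a.length_le
      rw [List.length_drop] at this
      rw [e]
      exact h3 j (by omega) hj
    · have hs : step kl D s st = cond (fin kl s st.req st.fs[i])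
          (endEp kl D s st st.fs[i] (st.fs.drop (i + 1)))
          { st with fs := bump (st.fs.drop i) } := by
        rw [step, h, ← hg]; rfl
      cases hf : fin kl s st.req st.fs[i] with
      | true => exact Or.inl ⟨rfl, by rw [hs, hf]; rfl⟩
      | false =>
        have h4 : act kl s st.req (st.fs[i] :: st.fs.drop (i + 1)) = true := by
          rw [← hd]; exact h2
        simp only [act, List.getD_cons_zero, hf, Bool.false_or, Bool.and_eq_true,
          decide_eq_true_eq] at h4
        exact Or.inr ⟨rfl, h4.1, h4.2, by rw [hs, hf, hd, bump_cons]; rfl⟩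

namespace NWF

/-! ### Arithmetic of the parameters -/

theorem itE_succ (j n : ℕ) : itE (j + 1) n = nEnd (itE j n) := rfl

theorem itE_mono (n : ℕ) : Monotone fun j => itE j n :=
  monotone_nat_of_le_succ fun j => by rw [itE_succ]; exact (lt_nEnd _).le

theorem le_itE (j n : ℕ) : n ≤ itE j n := itE_mono n (Nat.zero_le j)

theorem nEnd_itE {a b : ℕ} (h : a < b) (n : ℕ) : nEnd (itE a n) ≤ itE b n :=
  itE_mono n (Nat.succ_le_of_lt h)

theorem k_le_N (F : Fr) : F.k ≤ F.N := Nat.le_add_right _ _

theorem N_fresh (F : Fr) : F.N + F.cb + 2 * F.q + 20 = F.fresh := rfl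

theorem b_le_cb (F : Fr) : F.b ≤ F.cb := by unfold Fr.cb; omega

theorem sig_le {st : MS} {F : Fr} (h : FrWF st F) : F.σ.length ≤ F.N := by
  have := h.lo; have := k_le_N F; omega

theorem length_kid {st : MS} {F : Fr} (h : FrWF st F) : F.kid.length = F.N :=
  length_kidS (sig_le h) _

theorem mem_cands' {x : Emi} (hζ : x.root.length ≤ x.n) {w : ℕ × List Str × ℕ}
    (h : w ∈ cands x) : x.n ≤ w.1 ∧ w.1 < nC x.n ∧ ∀ τ ∈ w.2.1, τ.length = w.1 := by
  simp only [cands, List.mem_flatMap, List.mem_range, List.mem_map] at h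
  obtain ⟨a, ha, H, hH, d, -, rfl⟩ := h
  rw [subs_eq, List.mem_sublists'] at hH
  exact ⟨by simp, by simp only; omega,
    fun τ hτ => (mem_Zs.1 ((mem_zsL (by omega)).1 (hH.subset hτ))).1⟩

/-! ### The stack -/

/-- `G` lies below `F` in the stack. -/
structure Anc (F G : Fr) : Prop where
  kid : G.kid <+: F.σ
  k : G.fresh ≤ F.k
  i : G.iE ≤ F.i0
  t : G.t < G.slots

theorem anc_of_chain {st : MS} {F : Fr} {ps : List Fr} (hc : (F :: ps).IsChain LinkWF)
    (hf : ∀ G ∈ ps, FrWF st G) : ∀ G ∈ ps, Anc F G := by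
  induction ps generalizing F with
  | nil => simp
  | cons P ps ih =>
    obtain ⟨h1, h2⟩ := List.isChain_cons_cons.1 hc
    have hP := hf P (by simp)
    intro G hG
    rcases List.mem_cons.1 hG with rfl | hG
    · exact ⟨by rw [h1.σ], h1.k, h1.i0.ge, h1.t⟩
    · have a := ih h2 (fun G hG => hf G (by simp [hG])) G hG
      refine ⟨a.kid.trans ?_, ?_, ?_, a.t⟩
      · rw [h1.σ]; exact pre_kidS _ _ _
      · have := a.k; have := h1.k; have := k_le_N P; have := N_fresh P; omega
      · have := a.i; have := h1.i0; have := hP.i01; have := hP.i1E; omega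

theorem chain_of {D : Lab} {st : MS} (h : WF D st) {pre ps : List Fr}
    (hfs : st.fs = pre ++ ps) : ps.IsChain LinkWF := by
  have := h.chain
  rw [hfs] at this
  exact this.right_of_append

/-- The chain lemma. -/
theorem anc_of {D : Lab} {st : MS} (h : WF D st) {pre : List Fr} {F : Fr} {ps : List Fr}
    (hfs : st.fs = pre ++ F :: ps) : ∀ G ∈ ps, Anc F G :=
  anc_of_chain (st := st) (chain_of h hfs) fun G hG => h.frs G (by simp [hfs, hG])

/-- The data of the first frame. -/
def RootP (F : Fr) : Prop :=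
  F.σ = [] ∧ F.k = 20 ∧ F.b = 0 ∧ F.q = 0 ∧ F.m = 0 ∧ F.rem = 4 ∧ F.i0 = 0 ∧ F.i1 = 0

/-- The static fields agree. -/
structure Same (F' F : Fr) : Prop where
  σ : F'.σ = F.σ
  k : F'.k = F.k
  b : F'.b = F.b
  q : F'.q = F.q
  m : F'.m = F.m
  rem : F'.rem = F.rem
  i0 : F'.i0 = F.i0
  i1 : F'.i1 = F.i1

theorem same_next (F : Fr) : Same F.next F := ⟨rfl, rfl, rfl, rfl, rfl, rfl, rfl, rfl⟩

theorem chain_same {F' F : Fr} {ps : List Fr} (e : Same F' F) (h : (F :: ps).IsChain LinkWF) :
    (F' :: ps).IsChain LinkWF := by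
  cases ps with
  | nil => exact List.isChain_singleton _
  | cons P ps =>
    obtain ⟨h1, h2⟩ := List.isChain_cons_cons.1 h
    exact List.isChain_cons_cons.2 ⟨⟨h1.t, e.σ.trans h1.σ, e.b.trans h1.b, e.q.trans h1.q,
      e.m.trans h1.m, e.rem.trans h1.rem, e.i0.trans h1.i0, e.k ▸ h1.k⟩, h2⟩

theorem root_same {F' F : Fr} {ps : List Fr} (e : Same F' F)
    (h : ∀ G ∈ (F :: ps).getLast?, RootP G) : ∀ G ∈ (F' :: ps).getLast?, RootP G := by
  cases ps with
  | nil =>
    intro G hG
    obtain rfl : F' = G := by simpa using hG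
    obtain ⟨a1, a2, a3, a4, a5, a6, a7, a8⟩ := h F (by simp)
    exact ⟨e.σ.trans a1, e.k.trans a2, e.b.trans a3, e.q.trans a4, e.m.trans a5,
      e.rem.trans a6, e.i0.trans a7, e.i1.trans a8⟩
  | cons P ps =>
    intro G hG
    exact h G (by rw [List.getLast?_cons_cons] at hG ⊢; exact hG)

theorem root_of {D : Lab} {st : MS} (h : WF D st) {pre : List Fr} {F : Fr} {ps : List Fr}
    (hfs : st.fs = pre ++ F :: ps) : ∀ G ∈ (F :: ps).getLast?, RootP G := by
  intro G hG
  refine h.root G ?_
  rw [hfs, List.getLast?_append_of_ne_nil _ (List.cons_ne_nil _ _)]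
  exact hG

/-! ### Frames survive extensions of the state -/

theorem ex_append {st st' : MS} {nw : List Emi} (he : st'.em = st.em ++ nw) {j : ℕ}
    (hj : j < st.em.length) : st'.ex j = st.ex j := by
  unfold MS.ex
  rw [he, List.getD_append _ _ _ _ hj]

theorem frwf_ext {st st' : MS} {G : Fr} (h : FrWF st G) {nw : List Emi}
    (he : st'.em = st.em ++ nw) (hn : st.n ≤ st'.n) (hr : ∀ r ∈ st.req, r ∈ st'.req)
    (hw : ∀ j, st.em.length ≤ j → j < st'.em.length → G.fresh ≤ (st'.ex j).n ∧
      G.σ <+: (st'.ex j).own ∧ G.N ≤ (st'.ex j).own.length ∧ G.k ≤ (st'.ex j).root.length) :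
    FrWF st' G := by
  have h1 := h.i1E
  have h2 := h.iE
  have h3 : st.em.length ≤ st'.em.length := by rw [he]; simp
  refine ⟨h.lo, h.fr.trans hn, h.mq, h.rem, h.J, h.t, h.i01, h.i1E, h2.trans h3,
    fun j hj => ?_, fun j a b => ?_, fun j a b => ?_, fun i hi => hr _ (h.pin0 i hi),
    fun i hi => hr _ (h.pinc i hi), h.nd, fun w hw => ?_, fun j a b => ?_⟩
  · rw [ex_append he (by omega)]; exact h.old j hj
  · rcases lt_or_ge j st.em.length with c | c
    · rw [ex_append he c]; exact h.mid j a c
    · have := (hw j c b).1; have := h.lo; have := k_le_N G; have := N_fresh G; omega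
  · rcases lt_or_ge j st.em.length with c | c
    · rw [ex_append he c]; exact h.new j a c
    · exact hw j c b
  · have := h.wv w hw
    rw [ex_append he (by omega)]; exact this
  · rw [ex_append he (by omega)]; exact h.cnt j a b

theorem frwf_next {st : MS} {G : Fr} (h : FrWF st G) (ht : G.t < G.slots) : FrWF st G.next :=
  ⟨h.lo, h.fr, h.mq, h.rem, h.J, ht, h.i01, h.i1E, h.iE, h.old, h.mid, h.new, h.pin0, h.pinc,
    h.nd, h.wv, h.cnt⟩

theorem mem_pins {F : Fr} {r : Rq} : r ∈ pins F ↔ ∃ i < 2 ^ F.k, F.pin i 0 = r := by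
  simp only [pins, List.mem_map, List.mem_range]

theorem pin_len {F : Fr} {i : ℕ} (hi : i < 2 ^ F.k) (c : ℕ) :
    (F.pin i c).1.length ≤ (F.pin i c).2.1 := by
  have := length_cell hi
  simp only [Fr.pin]; omega

theorem lt_slots {kl : Str × ℕ → ℕ → Bool} {s : ℕ} {req : List Rq} {F : Fr}
    (h : fin kl s req F = false) : F.t < F.slots := by
  simp only [fin, Bool.or_eq_false_iff, decide_eq_false_iff_not] at h
  omega

/-! ### Moving to the next slot -/

theorem wf_next {D : Lab} {st : MS} (h : WF D st) {pre : List Fr} {F : Fr} {ps : List Fr}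
    (hfs : st.fs = pre ++ F :: ps) (ht : F.t < F.slots) : WF D { st with fs := F.next :: ps } := by
  have key : ∀ G, FrWF st G → FrWF { st with fs := F.next :: ps } G := fun G g =>
    ⟨g.lo, g.fr, g.mq, g.rem, g.J, g.t, g.i01, g.i1E, g.iE, g.old, g.mid, g.new, g.pin0, g.pinc,
      g.nd, g.wv, g.cnt⟩
  refine ⟨h.ems, h.ord, h.rq, fun G hG => key G ?_, chain_same (same_next F) (chain_of h hfs),
    root_same (same_next F) (root_of h hfs)⟩
  rcases List.mem_cons.1 hG with rfl | hG
  · exact frwf_next (h.frs F (by simp [hfs])) ht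
  · exact h.frs G (by simp [hfs, hG])

/-! ### Pushing a child -/

theorem wf_push {D : Lab} {st : MS} (h : WF D st) {F : Fr} {ps : List Fr} (hfs : st.fs = F :: ps)
    (ht : F.t < F.slots) : WF D (push st) := by
  have hg : st.fs.getD 0 default = F := by rw [hfs]; rfl
  have hF := h.frs F (by simp [hfs])
  have e1 : (push st).n = (child st F).fresh := by rw [← hg]; rfl
  have e2 : (push st).req = st.req ++ pins (child st F) := by rw [← hg]; rfl
  have e3 : (push st).em = st.em := rfl
  have e4 : (push st).fs = child st F :: F :: ps := by rw [← hfs, ← hg]; rfl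
  have e5 : ∀ j, (push st).ex j = st.ex j := fun _ => rfl
  have hk : (child st F).k = st.n := rfl
  have hn : st.n ≤ (push st).n := by
    have := k_le_N (child st F); have := N_fresh (child st F); omega
  have hr : ∀ r ∈ st.req, r ∈ (push st).req := fun r a => e2 ▸ List.mem_append_left _ a
  have hlo : (child st F).σ.length + (child st F).b + 2 * (child st F).q + 18 = F.fresh := by
    have := length_kid hF
    have := N_fresh F
    simp only [child]; omega
  refine ⟨fun j hj => ?_, h.ord, fun r a => ?_, fun G hG => ?_, ?_, ?_⟩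
  · obtain ⟨a, b, c, d, e⟩ := h.ems j hj
    exact ⟨a, b, c, d.trans hn, fun r x => hr r (e r x)⟩
  · rw [e2] at a
    rcases List.mem_append.1 a with a | a
    · exact h.rq r a
    · obtain ⟨i, hi, rfl⟩ := mem_pins.1 a
      exact pin_len hi 0
  · rw [e4] at hG
    rcases List.mem_cons.1 hG with rfl | hG
    · have p0 : ∀ i < 2 ^ (child st F).k, (child st F).pin i 0 ∈ (push st).req := fun i hi =>
        e2 ▸ List.mem_append_right _ (mem_pins.2 ⟨i, hi, rfl⟩)
      refine ⟨hlo ▸ hF.fr, e1.ge, ?_, ?_, Nat.two_pow_pos _, Nat.zero_le _, hF.iE, le_rfl, le_rfl,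
        fun j hj => (h.ems j hj).2.2.2.1, fun j a b => ?_, fun j a b => ?_, p0, p0,
        List.nodup_nil, fun w hw => absurd hw List.not_mem_nil, fun _ _ _ => Nat.zero_le _⟩
      · have := hF.mq
        simp only [child]
        cases decide (F.rem = 1) <;> simp only [cond] <;> omega
      · have := hF.rem
        simp only [child]
        by_cases c : F.rem = 1
        · simp [c]
        · simp only [c, decide_false, cond]; omega
      · rw [hlo]
        exact (hF.new j (hF.i1E.trans a) b).1
      · exact absurd b (not_lt.2 a)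
    · exact frwf_ext (nw := []) (h.frs G (hfs ▸ hG)) (by simp [e3]) hn hr
        fun j a b => absurd b (not_lt.2 a)
  · rw [e4]
    refine List.isChain_cons_cons.2 ⟨⟨ht, rfl, rfl, rfl, ?_, ?_, rfl, hF.fr⟩, hfs ▸ h.chain⟩
    · by_cases c : F.rem = 1 <;> simp [child, c]
    · by_cases c : F.rem = 1 <;> simp [child, c]
  · rw [e4, List.getLast?_cons_cons, ← hfs]
    exact h.root

/-! ### The end of an epoch -/

section ep

variable {kl : Str × ℕ → ℕ → Bool} {D : Lab} {s : ℕ} {st : MS} {F : Fr}

theorem mem_pairs (hσ : F.σ.length ≤ F.N) {req : List Rq} {p : Str × Str}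
    (h : p ∈ pairs kl s req F) : F.σ <+: p.1 ∧ p.1.length = F.N ∧ p.2.length = F.k := by
  unfold pairs at h
  cases hc : (trig kl s req F && decide (F.t + 1 < F.slots)) with
  | false => rw [hc] at h; simp at h
  | true =>
    rw [hc] at h
    simp only [cond, List.mem_flatMap, List.mem_filter, List.mem_map] at h
    obtain ⟨y, ⟨hy, -⟩, i, hi, rfl⟩ := h
    have h1 := mem_Zs.1 ((mem_zsL hσ).1 hy)
    have h2 := List.mem_range.1 (List.mem_filter.1 (List.mem_of_mem_take hi)).1
    exact ⟨h1.2, h1.1, length_cell h2⟩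

theorem length_newEm : (newEm kl s st F).length = (pairs kl s st.req F).length := by
  simp [newEm]

theorem mem_newEm (hσ : F.σ.length ≤ F.N) {x : Emi} (h : x ∈ newEm kl s st F) :
    x.e = F.e ∧ F.σ <+: x.own ∧ x.own.length = F.N ∧ x.root.length = F.k ∧
      ∃ a < (pairs kl s st.req F).length, x.n = itE a st.n := by
  simp only [newEm, List.mem_map, List.mem_range] at h
  obtain ⟨a, ha, rfl⟩ := h
  have : (pairs kl s st.req F).getD a ([], []) ∈ pairs kl s st.req F := by
    rw [List.getD_eq_getElem _ _ ha]; exact List.getElem_mem _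
  obtain ⟨h1, h2, h3⟩ := mem_pairs hσ this
  exact ⟨rfl, h1, h2, h3, a, ha, rfl⟩

theorem ex_new {st' : MS} (he : st'.em = st.em ++ newEm kl s st F) {j : ℕ}
    (h1 : st.em.length ≤ j) (h2 : j < st'.em.length) :
    st'.ex j ∈ newEm kl s st F ∧ (st'.ex j).n = itE (j - st.em.length) st.n := by
  have h3 : j - st.em.length < (newEm kl s st F).length := by
    rw [he, List.length_append] at h2; omega
  have e : st'.ex j = (newEm kl s st F)[j - st.em.length] := by
    unfold MS.ex
    rw [he, List.getD_append_right _ _ _ _ h1, List.getD_eq_getElem _ _ h3]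
  rw [e]
  exact ⟨List.getElem_mem _, by simp [newEm]⟩

theorem mem_waves {em : List Emi} {w : ℕ × ℕ × List Str × ℕ} (h : w ∈ waves em F) :
    F.i0 ≤ w.1 ∧ w.1 < F.i1 ∧ F.cnt w.1 < 2 ^ (5 * jT (em.getD w.1 default).n) ∧
      w.2 ∈ cands (em.getD w.1 default) ∧ (w.1, w.2.1) ∉ F.wv := by
  simp only [waves, List.mem_flatMap, List.mem_range] at h
  obtain ⟨a, ha, h⟩ := h
  by_cases c : F.cnt (F.i0 + a) < 2 ^ (5 * jT (em.getD (F.i0 + a) default).n)
  · simp only [c, decide_true, cond, List.mem_map] at h
    obtain ⟨v, hv, rfl⟩ := h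
    obtain ⟨h1, h2⟩ := List.mem_filter.1 (List.mem_of_mem_take hv)
    refine ⟨by simp, by simp only; omega, c, h1, fun m => ?_⟩
    simp only [wtest, Bool.and_eq_true, Bool.not_eq_true', List.any_eq_false,
      decide_eq_true_eq] at h2
    exact h2.1.1.1 _ m rfl
  · simp only [c, decide_false, cond] at h
    exact absurd h List.not_mem_nil

theorem sub_flatMap {α β : Type} (g : ℕ → List α) (p : α → β) (f : ℕ → β)
    (h : ∀ a, ((g a).map p).Sublist [f a]) (l : List ℕ) :
    ((l.flatMap g).map p).Sublist (l.map f) := by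
  induction l with
  | nil => simp
  | cons a l ih =>
    rw [List.flatMap_cons, List.map_append, List.map_cons]
    exact (h a).append ih

theorem nodup_waves (em : List Emi) (F : Fr) : ((waves em F).map fun w => w.1).Nodup := by
  refine (sub_flatMap _ _ (fun a => F.i0 + a) (fun a => ?_) _).nodup
    (List.nodup_range.map fun _ _ h => Nat.add_left_cancel h)
  cases decide (F.cnt (F.i0 + a) < 2 ^ (5 * jT (em.getD (F.i0 + a) default).n)) with
  | false => simp
  | true =>
    simp only [cond]
    generalize (cands (em.getD (F.i0 + a) default)).filter _ = L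
    cases L <;> simp

theorem mem_waveRq {ws : List (ℕ × ℕ × List Str × ℕ)} {r : Rq} (h : r ∈ waveRq ws) :
    ∃ w ∈ ws, r.1 ∈ w.2.2.1 ∧ r.2.1 = w.2.1 := by
  simp only [waveRq, List.mem_flatMap, List.mem_map] at h
  obtain ⟨w, hw, τ, hτ, rfl⟩ := h
  exact ⟨w, hw, hτ, rfl⟩

theorem mem_overs {req : List Rq} {i : ℕ} :
    i ∈ overs kl s req F ↔ i < 2 ^ F.k ∧ ovr kl s req F i = true := by
  simp [overs]

theorem count_overs (req : List Rq) (i : ℕ) :
    ((overs kl s req F).filter fun j => decide (j = i)).length =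
      if i ∈ overs kl s req F then 1 else 0 := by
  have hn : (overs kl s req F).Nodup := List.nodup_range.filter _
  have e : ((overs kl s req F).filter fun j => decide (j = i)).length =
      (overs kl s req F).count i := by
    rw [List.count_eq_length_filter]; rfl
  rw [e]
  split_ifs with c
  · exact List.count_eq_one_of_mem hn c
  · exact List.count_eq_zero_of_not_mem c

/-- The new requests: length of the root and height. -/
theorem new_rq (h : WF D st) (hF : FrWF st F) {r : Rq}
    (hr : r ∈ (newEm kl s st F).flatMap (design D) ++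
      (waveRq (waves (st.em ++ newEm kl s st F) F) ++
        (overs kl s st.req F).map fun i => F.pin i (F.rc i + 1))) :
    r.1.length ≤ r.2.1 ∧ F.σ.length < r.2.1 := by
  have h1 := hF.lo
  have h2 := hF.fr
  have h3 := k_le_N F
  have h4 := N_fresh F
  rcases List.mem_append.1 hr with a | a
  · obtain ⟨x, hx, a⟩ := List.mem_flatMap.1 a
    obtain ⟨-, -, -, b, c, -, d⟩ := mem_newEm (sig_le hF) hx
    have h5 := le_itE c st.n
    obtain ⟨l, hl, i, -, τ, hτ, v, -, rfl⟩ := (mem_design (by omega)).1 a
    have h6 := (mem_Zs.1 hτ).1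
    have h7 := le_n0 x.n
    have h8 := (mem_Ico.1 hl).1
    simp only [length_hot]
    omega
  rcases List.mem_append.1 a with a | a
  · obtain ⟨w, hw, b, c⟩ := mem_waveRq a
    obtain ⟨a1, a2, -, a4, -⟩ := mem_waves hw
    have h5 : w.1 < st.em.length := by have := hF.i1E; have := hF.iE; omega
    rw [List.getD_append _ _ _ _ h5] at a4
    obtain ⟨b1, -, b3⟩ := mem_cands' (h.ems w.1 h5).2.1 a4
    have h6 := hF.mid w.1 a1 h5
    have h7 := b3 _ b
    omega
  · obtain ⟨i, hi, rfl⟩ := List.mem_map.1 a
    refine ⟨pin_len (mem_overs.1 hi).1 _, ?_⟩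
    simp only [Fr.pin]; omega

theorem wf_endEp (h : WF D st) {pre ps : List Fr} (hfs : st.fs = pre ++ F :: ps) :
    WF D (endEp kl D s st F ps) := by
  have hF := h.frs F (by simp [hfs])
  set st' := endEp kl D s st F ps with hst
  have e1 : st'.n = itE (pairs kl s st.req F).length st.n := rfl
  have e2 : st'.req = st.req ++ ((newEm kl s st F).flatMap (design D) ++
    (waveRq (waves (st.em ++ newEm kl s st F) F) ++
      (overs kl s st.req F).map fun i => F.pin i (F.rc i + 1))) := rfl
  have e3 : st'.em = st.em ++ newEm kl s st F := rfl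
  have hn : st.n ≤ st'.n := le_itE _ _
  have hr : ∀ r ∈ st.req, r ∈ st'.req := fun r a => e2 ▸ List.mem_append_left _ a
  have hlen : st'.em.length = st.em.length + (pairs kl s st.req F).length := by
    rw [e3, List.length_append, length_newEm]
  have h1 := hF.lo
  have h2 := hF.fr
  have h3 := k_le_N F
  have h4 := N_fresh F
  have nw : ∀ j, st.em.length ≤ j → j < st'.em.length → st.n ≤ (st'.ex j).n ∧
      F.σ <+: (st'.ex j).own ∧ (st'.ex j).own.length = F.N ∧ (st'.ex j).root.length = F.k :=
    fun j a b => by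
      obtain ⟨c, d⟩ := ex_new e3 a b
      obtain ⟨-, c1, c2, c3, -⟩ := mem_newEm (sig_le hF) c
      exact ⟨d ▸ le_itE _ _, c1, c2, c3⟩
  have hF' : FrWF st' F := frwf_ext hF e3 hn hr fun j a b => by
    obtain ⟨c1, c2, c3, c4⟩ := nw j a b
    exact ⟨by omega, c2, c3.ge, c4.ge⟩
  have hps : ∀ G ∈ ps, FrWF st' G := fun G hG => by
    have g := h.frs G (by simp [hfs, hG])
    have an := anc_of h hfs G hG
    refine frwf_ext g e3 hn hr fun j a b => ?_
    obtain ⟨c1, c2, c3, c4⟩ := nw j a b
    have := g.fr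
    have := an.k
    have := k_le_N G
    have := N_fresh G
    exact ⟨by omega, ((pre_kidS _ _ _).trans an.kid).trans c2, by omega, by omega⟩
  have hch := chain_of h hfs
  have hro := root_of h hfs
  have stack : (∀ G ∈ st'.fs, FrWF st' G) ∧ st'.fs.IsChain LinkWF ∧
      ∀ G ∈ st'.fs.getLast?, RootP G := by
    by_cases c : F.J + 1 < 2 ^ F.k
    · set F' : Fr := { F with
        J := F.J + 1
        t := 0
        iE := (st.em ++ newEm kl s st F).length
        rl := F.rl ++ overs kl s st.req F
        wv := F.wv ++ (waves (st.em ++ newEm kl s st F) F).map fun w => (w.1, w.2.1) } with hF2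
      have e4 : st'.fs = F' :: ps := by
        rw [hst, endEp]; simp only [c, decide_true, cond]; rfl
      have sm : Same F' F := ⟨rfl, rfl, rfl, rfl, rfl, rfl, rfl, rfl⟩
      rw [e4]
      refine ⟨fun G hG => ?_, chain_same sm hch, root_same sm hro⟩
      rcases List.mem_cons.1 hG with rfl | hG
      swap
      · exact hps G hG
      have nd := nodup_waves (st.em ++ newEm kl s st F) F
      refine ⟨hF'.lo, hF'.fr, hF'.mq, hF'.rem, c, Nat.zero_le _, hF'.i01, hF'.i1E.trans hF'.iE,
        le_rfl, hF'.old, hF'.mid, hF'.new, hF'.pin0, fun i hi => ?_, ?_, fun w hw => ?_,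
        fun j a b => ?_⟩
      · have e : F'.rc i = F.rc i + if i ∈ overs kl s st.req F then 1 else 0 := by
          rw [← count_overs]
          simp only [Fr.rc, hF2, List.filter_append, List.length_append]
        change F.pin i (F'.rc i) ∈ st'.req
        rw [e]
        split_ifs with d
        · rw [e2]
          exact List.mem_append_right _ (List.mem_append_right _ (List.mem_append_right _
            (List.mem_map.2 ⟨i, d, rfl⟩)))
        · exact hF'.pinc i hi
      · refine List.nodup_append.2 ⟨hF.nd, ?_, fun a ha b hb e => ?_⟩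
        · refine List.Nodup.of_map (fun p : ℕ × ℕ => p.1) ?_
          rw [List.map_map]; exact nd
        · obtain ⟨w, hw, rfl⟩ := List.mem_map.1 hb
          exact (mem_waves hw).2.2.2.2 (e ▸ ha)
      · rcases List.mem_append.1 hw with hw | hw
        · exact hF'.wv w hw
        · obtain ⟨v, hv, rfl⟩ := List.mem_map.1 hw
          obtain ⟨a1, a2, -, a4, -⟩ := mem_waves hv
          have h5 : v.1 < st.em.length := by have := hF.i1E; have := hF.iE; omega
          have h6 : (st'.ex v.1).root.length ≤ (st'.ex v.1).n := by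
            rw [ex_append e3 h5]; exact (h.ems v.1 h5).2.1
          obtain ⟨b1, b2, -⟩ := mem_cands' h6 a4
          exact ⟨a1, a2, b1, b2⟩
      · have e : F'.cnt j = F.cnt j +
            ((waves (st.em ++ newEm kl s st F) F).map fun w => w.1).count j := by
          simp only [Fr.cnt, hF2, List.filter_append, List.length_append,
            List.count_eq_length_filter, List.filter_map, List.length_map]
          rfl
        rw [e]
        by_cases d : j ∈ (waves (st.em ++ newEm kl s st F) F).map fun w => w.1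
        · rw [List.count_eq_one_of_mem nd d]
          obtain ⟨w, hw, rfl⟩ := List.mem_map.1 d
          exact (mem_waves hw).2.2.1
        · rw [List.count_eq_zero_of_not_mem d]
          exact hF'.cnt j a b
    · have e4 : st'.fs = bump ps := by
        rw [hst, endEp]; simp only [c, decide_false, cond]
      rw [e4]
      cases ps with
      | nil => exact ⟨by simp [bump_nil], by simp [bump_nil], by simp [bump_nil]⟩
      | cons P ps =>
        rw [bump_cons]
        obtain ⟨l1, l2⟩ := List.isChain_cons_cons.1 hch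
        refine ⟨fun G hG => ?_, chain_same (same_next P) l2, root_same (same_next P) ?_⟩
        · rcases List.mem_cons.1 hG with rfl | hG
          · exact frwf_next (hps P (by simp)) l1.t
          · exact hps G (by simp [hG])
        · rw [List.getLast?_cons_cons] at hro; exact hro
  refine ⟨fun j hj => ?_, fun i j a b => ?_, fun r a => ?_, stack.1, stack.2.1, stack.2.2⟩
  · rcases lt_or_ge j st.em.length with c | c
    · rw [ex_append e3 c]
      obtain ⟨a, b, c, d, e⟩ := h.ems j c
      exact ⟨a, b, c, d.trans hn, fun r x => hr r (e r x)⟩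
    · obtain ⟨c1, -, -, c4⟩ := nw j c hj
      obtain ⟨d1, d2⟩ := ex_new e3 c hj
      have d3 := (mem_newEm (sig_le hF) d1).1
      have d4 : F.e ≤ F.m := Nat.unpair_left_le _
      have d5 := hF.mq
      refine ⟨by omega, by omega, by omega, ?_, fun r x => ?_⟩
      · rw [d2, e1]; exact nEnd_itE (by omega) _
      · rw [e2]
        exact List.mem_append_right _ (List.mem_append_left _ (List.mem_flatMap.2 ⟨_, d1, x⟩))
  · rcases lt_or_ge j st.em.length with c | c
    · rw [ex_append e3 c, ex_append e3 (a.trans c)]; exact h.ord i j a c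
    · rcases lt_or_ge i st.em.length with d | d
      · rw [ex_append e3 d]
        exact (h.ems i d).2.2.2.1.trans (nw j c b).1
      · rw [(ex_new e3 c b).2, (ex_new e3 d (a.trans b)).2]
        exact nEnd_itE (by omega) _
  · rw [e2] at a
    rcases List.mem_append.1 a with a | a
    · exact h.rq r a
    · exact (new_rq h hF a).1

end ep

theorem wf_init (D : Lab) (F : Fr) (h : RootP F) (h1 : F.J = 0) (h2 : F.t = 0) (h3 : F.iE = 0)
    (h4 : F.rl = []) (h5 : F.wv = []) : WF D ⟨F.fresh, pins F, [], [F]⟩ := by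
  obtain ⟨a1, a2, a3, a4, a5, a6, a7, a8⟩ := h
  refine ⟨fun j hj => absurd hj (Nat.not_lt_zero _), fun i j _ hj => absurd hj (Nat.not_lt_zero _),
    fun r a => ?_, fun G hG => ?_, List.isChain_singleton _, fun G hG => ?_⟩
  · obtain ⟨i, hi, rfl⟩ := mem_pins.1 a
    exact pin_len hi 0
  · obtain rfl : G = F := by simpa using hG
    have p0 : ∀ i < 2 ^ G.k, G.pin i 0 ∈ pins G := fun i hi => mem_pins.2 ⟨i, hi, rfl⟩
    refine ⟨by rw [a1, a2, a3, a4]; decide, le_rfl, by omega, by omega, h1 ▸ Nat.two_pow_pos _,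
      h2 ▸ Nat.zero_le _, by omega, by omega, h3.le, fun j hj => by omega,
      fun j _ hj => absurd hj (Nat.not_lt_zero _), fun j _ hj => absurd hj (Nat.not_lt_zero _),
      p0, fun i hi => ?_, h5 ▸ List.nodup_nil, fun w hw => ?_, fun j _ hj => by omega⟩
    · have : G.rc i = 0 := by rw [Fr.rc, h4]; rfl
      rw [this]; exact p0 i hi
    · rw [h5] at hw; exact absurd hw List.not_mem_nil
  · obtain rfl : F = G := by simpa using hG
    exact ⟨a1, a2, a3, a4, a5, a6, a7, a8⟩

end NWF

theorem wf_step {kl : Str × ℕ → ℕ → Bool} {D : Lab} (hD : DesignOK D) {s : ℕ} {st : MS}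
    (h : WF D st) (hne : st.fs ≠ []) : WF D (step kl D s st) := by
  rcases step_cases kl D s st with ⟨h1, h2⟩ | ⟨pre, F, ps, hfs, -, ⟨-, h2⟩ | ⟨h1, -, -, h2⟩⟩
  · rw [h2]
    obtain ⟨F, ps, hfs⟩ := List.exists_cons_of_ne_nil hne
    have h3 := h1 st.fs List.suffix_rfl hne
    rw [hfs] at h3
    simp only [act, List.getD_cons_zero, Bool.or_eq_false_iff] at h3
    exact wf_push h hfs (lt_slots h3.1)
  · rw [h2]; exact wf_endEp h hfs
  · rw [h2]; exact wf_next h hfs (lt_slots h1)

theorem wf_run {kl : Str × ℕ → ℕ → Bool} {D : Lab} (hD : DesignOK D) (s : ℕ)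
    (hne : ∀ s' < s, (run kl D s').fs ≠ []) : WF D (run kl D s) := by
  induction s with
  | zero => exact wf_init D root ⟨rfl, rfl, rfl, rfl, rfl, rfl, rfl, rfl⟩ rfl rfl rfl rfl rfl
  | succ s ih =>
    exact wf_step hD (ih fun s' hs => hne s' (by omega)) (hne s (by omega))

theorem endEp_lev {kl : Str × ℕ → ℕ → Bool} {D : Lab} (hD : DesignOK D) {s : ℕ} {st : MS}
    (h : WF D st) {pre : List Fr} {F : Fr} {ps : List Fr} (hfs : st.fs = pre ++ F :: ps) :
    ∃ nw, (endEp kl D s st F ps).req = st.req ++ nw ∧ ∀ r ∈ nw, ∀ G ∈ ps, G.N < r.2.1 := by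
  refine ⟨_, rfl, fun r hr G hG => ?_⟩
  have h1 := (new_rq h (h.frs F (by simp [hfs])) hr).2
  have h2 := (anc_of h hfs G hG).kid.length_le
  have h3 := length_kid (h.frs G (by simp [hfs, hG]))
  omega

theorem push_lev {D : Lab} {st : MS} (h : WF D st) :
    ∃ nw, (push st).req = st.req ++ nw ∧ ∀ r ∈ nw, ∀ G ∈ st.fs, G.N < r.2.1 := by
  refine ⟨_, rfl, fun r hr G hG => ?_⟩
  obtain ⟨i, -, rfl⟩ := mem_pins.1 hr
  have h1 := (h.frs G hG).fr
  have h2 := N_fresh G
  simp only [Fr.pin, child]
  omega

end Pool.Agent.Lib.MP_848037_lc.Neg
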