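import Pool.Agent.Lib.MP_848037_lc.NBasic

/-!
Tower property, bounds and the law of large numbers for the normalised counts of hot strings.
-/

set_option autoImplicit false

namespace Pool.Agent.Lib.MP_848037_lc.Neg

open Finset Pool.Agent.Shared.Type2

theorem Yv_nonneg (D : Lab) (n : ℕ) (ζ : Str) (i l : ℕ) (ξ : Str) : 0 ≤ Yv D n ζ i l ξ :=
  div_nonneg (sum_nonneg fun _ _ => by split_ifs <;> positivity) (by positivity)

theorem Yv_le {D : Lab} (hD : DesignOK D) {n : ℕ} {ζ : Str} {i l : ℕ} (hn : 20 ≤ n)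
    (hζ : ζ.length ≤ n) (hl : l ∈ Ico (n0 n) (nC n)) (ξ : Str) :
    Yv D n ζ i l ξ ≤ 2 ^ zz n (i + 1) := by
  obtain ⟨h0, h1⟩ := mem_Ico.1 hl
  rw [Yv, div_le_iff₀ (by positivity)]
  refine (sum_le_card_nsmul _ _ ((2 : ℝ) ^ zz n (i + 1)) fun b hb => ?_).trans ?_
  · split_ifs
    · exact pow_le_pow_right₀ (by norm_num)
        (tgt_lt hD hn hζ h0 (h1.le.trans (nC_le_nEnd n)) _ (mem_range.1 hb)).le
    · positivity
  · rw [card_range, nsmul_eq_mul, mul_comm]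
    push_cast
    exact le_rfl

theorem hot_sum {D : Lab} (hD : DesignOK D) {n : ℕ} {ζ : Str} {i l : ℕ} (hn : 20 ≤ n)
    (hζ : ζ.length ≤ n) (hi : i < nT n) (hl : l ∈ Ico (n0 n) (nC n)) {τ : Str} (hτ : τ.length = l)
    {b : ℕ} (hb : b < 2 ^ zz n i) :
    (∑ ξ ∈ Zs τ (nEnd n), if hot D n ζ i l (ξ.take l) b <+: ξ then
      (2 : ℝ) ^ tgt D n ζ i l (ξ.take l) b else 0) = 2 ^ (nEnd n - l) := by
  obtain ⟨h0, h1⟩ := mem_Ico.1 hl
  have h2 := tgt_lt_jT hD hn hζ h0 (h1.le.trans (nC_le_nEnd n)) hi τ hb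
  have h3 : (hot D n ζ i l τ b).length ≤ nEnd n := by
    rw [length_hot]; unfold nEnd; omega
  rw [sum_congr rfl fun ξ hξ => by rw [(pre_iff_take hτ).1 (mem_Zs.1 hξ).2], ← sum_filter,
    sum_const]
  have e : (Zs τ (nEnd n)).filter (fun ξ => hot D n ζ i l τ b <+: ξ) =
      Zs (hot D n ζ i l τ b) (nEnd n) := by
    ext ξ
    simp only [mem_filter, mem_Zs]
    exact ⟨fun h => ⟨h.1.1, h.2⟩, fun h => ⟨⟨h.1, (List.prefix_append _ _).trans h.2⟩, h.2⟩⟩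
  rw [e, card_Zs h3, nsmul_eq_mul]
  push_cast
  rw [← pow_add]
  congr 1
  rw [length_hot] at h3 ⊢
  omega

theorem Yv_sum {D : Lab} (hD : DesignOK D) {n : ℕ} {ζ : Str} {i l : ℕ} (hn : 20 ≤ n)
    (hζ : ζ.length ≤ n) (hi : i < nT n) (hl : l ∈ Ico (n0 n) (nC n)) {τ : Str}
    (hτ : τ.length ≤ l) :
    ∑ ξ ∈ Zs τ (nEnd n), Yv D n ζ i l ξ = 2 ^ (nEnd n - τ.length) := by
  have h1 : l ≤ nEnd n := (mem_Ico.1 hl).2.le.trans (nC_le_nEnd n)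
  have e : ∀ τ' ∈ Zs τ l, ∑ ξ ∈ Zs τ' (nEnd n), Yv D n ζ i l ξ = 2 ^ (nEnd n - l) := by
    intro τ' h
    unfold Yv
    rw [← sum_div, sum_comm,
      sum_congr rfl fun b hb => hot_sum hD hn hζ hi hl (mem_Zs.1 h).1 (mem_range.1 hb),
      sum_const, card_range, nsmul_eq_mul]
    push_cast
    exact mul_div_cancel_left₀ _ (by positivity)
  rw [sum_Zs hτ h1, sum_congr rfl e, sum_const, card_Zs hτ, nsmul_eq_mul]
  push_cast
  rw [← pow_add]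
  congr 1
  omega

theorem Uv_nonneg (D : Lab) (n : ℕ) (ζ : Str) (l : ℕ) (ξ : Str) : 0 ≤ Uv D n ζ l ξ :=
  div_nonneg (sum_nonneg fun _ _ => Yv_nonneg _ _ _ _ _ _) (by positivity)

theorem Uv_le {D : Lab} (hD : DesignOK D) {n : ℕ} {ζ : Str} {l : ℕ} (hn : 20 ≤ n)
    (hζ : ζ.length ≤ n) (hl : l ∈ Ico (n0 n) (nC n)) (ξ : Str) :
    Uv D n ζ l ξ ≤ 2 ^ jT n := by
  have hT : (0 : ℝ) < nT n := by exact_mod_cast nT_pos n
  rw [Uv, div_le_iff₀ hT]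
  refine (sum_le_card_nsmul _ _ ((2 : ℝ) ^ jT n) fun i hi => ?_).trans ?_
  · exact (Yv_le hD hn hζ hl ξ).trans (pow_le_pow_right₀ (by norm_num)
      ((zz_mono n).monotone (mem_range.1 hi)))
  · rw [card_range, nsmul_eq_mul, mul_comm]

theorem Uv_sum {D : Lab} (hD : DesignOK D) {n : ℕ} {ζ : Str} {l : ℕ} (hn : 20 ≤ n)
    (hζ : ζ.length ≤ n) (hl : l ∈ Ico (n0 n) (nC n)) {τ : Str} (hτ : τ.length ≤ l) :
    ∑ ξ ∈ Zs τ (nEnd n), Uv D n ζ l ξ = 2 ^ (nEnd n - τ.length) := by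
  have hT : (0 : ℝ) < nT n := by exact_mod_cast nT_pos n
  unfold Uv
  rw [← sum_div, sum_comm, sum_congr rfl fun i hi => Yv_sum hD hn hζ (mem_range.1 hi) hl hτ,
    sum_const, card_range, nsmul_eq_mul]
  exact mul_div_cancel_left₀ _ hT.ne'

namespace NY

theorem Uv_local {D : Lab} (hD : DesignOK D) {n : ℕ} {ζ : Str} {l : ℕ} (hn : 20 ≤ n)
    (hζ : ζ.length ≤ n) (hl : l ∈ Ico (n0 n) (nC n)) {τ ξ : Str} (hτ : l + jT n ≤ τ.length)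
    (h : τ <+: ξ) : Uv D n ζ l ξ = Uv D n ζ l τ := by
  obtain ⟨h0, h1⟩ := mem_Ico.1 hl
  unfold Uv Yv
  congr 1
  refine sum_congr rfl fun i hi => ?_
  congr 1
  refine sum_congr rfl fun b hb => ?_
  rw [← take_of_pre h (by omega : l ≤ τ.length)]
  have h2 := tgt_lt_jT hD hn hζ h0 (h1.le.trans (nC_le_nEnd n)) (mem_range.1 hi) (τ.take l)
    (mem_range.1 hb)
  refine if_congr ⟨fun h3 => List.prefix_of_prefix_length_le h3 h ?_, fun h3 => h3.trans h⟩ rfl rfl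
  rw [length_hot, List.length_take]
  omega

theorem far {D : Lab} (hD : DesignOK D) {n : ℕ} {ζ : Str} {l l' : ℕ} (hn : 20 ≤ n)
    (hζ : ζ.length ≤ n) (hl : l ∈ Ico (n0 n) (nC n)) (hl' : l' ∈ Ico (n0 n) (nC n))
    (h : l + jT n ≤ l') :
    ∑ ξ ∈ Zs ζ (nEnd n), Uv D n ζ l ξ * Uv D n ζ l' ξ = 2 ^ (nEnd n - ζ.length) := by
  have h0 := le_n0 n
  have h1 : ζ.length ≤ l := by have := (mem_Ico.1 hl).1; omega
  have h2 : l' ≤ nEnd n := (mem_Ico.1 hl').2.le.trans (nC_le_nEnd n)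
  rw [← Uv_sum hD hn hζ hl h1, sum_Zs (l := l') (by omega) h2, sum_Zs (l := l') (by omega) h2]
  refine sum_congr rfl fun τ hτ => ?_
  have e := (mem_Zs.1 hτ).1
  have e1 : ∀ ξ ∈ Zs τ (nEnd n), Uv D n ζ l ξ = Uv D n ζ l τ := fun ξ hξ =>
    Uv_local hD hn hζ hl (by omega) (mem_Zs.1 hξ).2
  rw [sum_congr rfl fun ξ hξ => by rw [e1 ξ hξ], sum_congr rfl e1, ← mul_sum,
    Uv_sum hD hn hζ hl' e.le, sum_const, card_Zs (by omega), nsmul_eq_mul, mul_comm]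
  push_cast
  rfl

theorem cov {D : Lab} (hD : DesignOK D) {n : ℕ} {ζ : Str} {l l' : ℕ} (hn : 20 ≤ n)
    (hζ : ζ.length ≤ n) (hl : l ∈ Ico (n0 n) (nC n)) (hl' : l' ∈ Ico (n0 n) (nC n)) :
    ∑ ξ ∈ Zs ζ (nEnd n), (Uv D n ζ l ξ - 1) * (Uv D n ζ l' ξ - 1) ≤
      if l' ∈ Ico (l - jT n) (l + jT n) then (2 : ℝ) ^ jT n * 2 ^ (nEnd n - ζ.length) else 0 := by
  have h0 := le_n0 n
  have h1 : ζ.length ≤ l := by have := (mem_Ico.1 hl).1; omega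
  have h2 : ζ.length ≤ l' := by have := (mem_Ico.1 hl').1; omega
  have h3 := lt_nEnd n
  have e : ∑ ξ ∈ Zs ζ (nEnd n), (Uv D n ζ l ξ - 1) * (Uv D n ζ l' ξ - 1) =
      ∑ ξ ∈ Zs ζ (nEnd n), Uv D n ζ l ξ * Uv D n ζ l' ξ - 2 ^ (nEnd n - ζ.length) := by
    rw [sum_congr rfl fun ξ _ => show (Uv D n ζ l ξ - 1) * (Uv D n ζ l' ξ - 1) =
      Uv D n ζ l ξ * Uv D n ζ l' ξ - Uv D n ζ l ξ - Uv D n ζ l' ξ + 1 by ring,
      sum_add_distrib, sum_sub_distrib, sum_sub_distrib, Uv_sum hD hn hζ hl h1,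
      Uv_sum hD hn hζ hl' h2, sum_const, card_Zs (by omega), nsmul_eq_mul]
    push_cast
    ring
  rw [e]
  split_ifs with h
  · rw [← Uv_sum hD hn hζ hl' h2, mul_sum]
    refine (sub_le_self _ (sum_nonneg fun _ _ => Uv_nonneg _ _ _ _ _)).trans
      (sum_le_sum fun ξ _ => mul_le_mul_of_nonneg_right (Uv_le hD hn hζ hl ξ) (Uv_nonneg _ _ _ _ _))
  · rw [mem_Ico] at h
    rcases le_or_gt (l + jT n) l' with h4 | h4
    · rw [far hD hn hζ hl hl' h4, sub_self]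
    · rw [sum_congr rfl fun ξ _ => mul_comm _ _, far hD hn hζ hl' hl (by omega), sub_self]

theorem card_lev (n : ℕ) : (Ico (n0 n) (nC n)).card = 2 ^ (6 * jT n) := by
  rw [Nat.card_Ico, nC, Nat.add_sub_cancel_left]

theorem second {D : Lab} (hD : DesignOK D) {n : ℕ} {ζ : Str} (hn : 20 ≤ n) (hζ : ζ.length ≤ n) :
    ∑ ξ ∈ Zs ζ (nEnd n), (∑ l ∈ Ico (n0 n) (nC n), (Uv D n ζ l ξ - 1)) ^ 2 ≤
      2 ^ (6 * jT n) * (2 * jT n * (2 ^ jT n * 2 ^ (nEnd n - ζ.length))) := by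
  simp only [sq, sum_mul_sum]
  rw [sum_comm]
  refine (sum_le_card_nsmul _ _ (2 * jT n * (2 ^ jT n * 2 ^ (nEnd n - ζ.length)) : ℝ)
    fun l hl => ?_).trans ?_
  · rw [sum_comm]
    refine (sum_le_sum fun l' hl' => cov hD hn hζ hl hl').trans ?_
    rw [← sum_filter, sum_const, nsmul_eq_mul]
    refine mul_le_mul_of_nonneg_right ?_ (by positivity)
    have : ((Ico (n0 n) (nC n)).filter fun l' => l' ∈ Ico (l - jT n) (l + jT n)).card ≤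
        2 * jT n :=
      (card_le_card fun a ha => (mem_filter.1 ha).2).trans (by rw [Nat.card_Ico]; omega)
    exact_mod_cast this
  · rw [card_lev, nsmul_eq_mul]
    push_cast
    exact le_rfl

end NY

theorem lln {D : Lab} (hD : DesignOK D) {n : ℕ} {ζ : Str} (hn : 20 ≤ n) (hζ : ζ.length ≤ n)
    (c : Str → ℝ) (h0 : ∀ ξ, 0 ≤ c ξ) (h1 : ∀ ξ ∈ Zs ζ (nEnd n), c ξ ≤ 2⁻¹ ^ nEnd n) :
    2 ^ (6 * jT n) * ∑ ξ ∈ Zs ζ (nEnd n), c ξ ≤
      ∑ l ∈ Ico (n0 n) (nC n), ∑ ξ ∈ Zs ζ (nEnd n), c ξ * Uv D n ζ l ξ +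
        2 ^ (6 * jT n) * 2⁻¹ ^ (n + ζ.length) := by
  have h2 := NY.second hD hn hζ
  have h3 := lt_nEnd n
  set W : Str → ℝ := fun ξ => ∑ l ∈ Ico (n0 n) (nC n), (Uv D n ζ l ξ - 1) with hW
  set R : ℝ := 2 ^ (6 * jT n) with hR
  set P : ℝ := 2 ^ n with hP
  set Z : ℝ := 2 ^ (nEnd n - ζ.length) with hZ
  have R0 : 0 < R := by positivity
  have P0 : 0 < P := by positivity
  have Z0 : 0 < Z := by positivity
  have e1 : ∑ l ∈ Ico (n0 n) (nC n), ∑ ξ ∈ Zs ζ (nEnd n), c ξ * Uv D n ζ l ξ =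
      ∑ ξ ∈ Zs ζ (nEnd n), c ξ * W ξ + R * ∑ ξ ∈ Zs ζ (nEnd n), c ξ := by
    rw [sum_comm, mul_sum, ← sum_add_distrib]
    refine sum_congr rfl fun ξ _ => ?_
    rw [← mul_sum, hW]
    simp only [sum_sub_distrib, sum_const, NY.card_lev, nsmul_eq_mul]
    push_cast
    ring
  have e2 : ∀ ξ ∈ Zs ζ (nEnd n), -(c ξ * W ξ) ≤
      2⁻¹ ^ nEnd n * (P / (2 * R) * W ξ ^ 2 + R / (2 * P)) := by
    intro ξ hξ
    have a1 : -W ξ ≤ P / (2 * R) * W ξ ^ 2 + R / (2 * P) := by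
      have : P / (2 * R) * W ξ ^ 2 + R / (2 * P) + W ξ = (P * W ξ + R) ^ 2 / (2 * R * P) := by
        field_simp
        ring
      have : 0 ≤ (P * W ξ + R) ^ 2 / (2 * R * P) := by positivity
      linarith
    rw [← mul_neg]
    exact (mul_le_mul_of_nonneg_left a1 (h0 ξ)).trans
      (mul_le_mul_of_nonneg_right (h1 ξ hξ) (by positivity))
  have e3 := sum_le_sum e2
  rw [sum_neg_distrib, ← mul_sum, sum_add_distrib, ← mul_sum, sum_const, card_Zs (by omega),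
    nsmul_eq_mul] at e3
  push_cast at e3
  have e4 : 2 * P ^ 2 * (jT n * 2 ^ jT n) ≤ R := by
    have b1 : (jT n : ℝ) ≤ 2 ^ jT n := by exact_mod_cast (@Nat.lt_two_pow_self (jT n)).le
    have b2 := jT_big n
    calc 2 * P ^ 2 * (jT n * 2 ^ jT n) ≤ 2 * P ^ 2 * (2 ^ jT n * 2 ^ jT n) := by gcongr
      _ = 2 ^ (2 * n + 1 + 2 * jT n) := by rw [hP]; ring
      _ ≤ R := pow_le_pow_right₀ (by norm_num) (by omega)
  have e5 : P / (2 * R) * ∑ ξ ∈ Zs ζ (nEnd n), W ξ ^ 2 ≤ Z * (R / (2 * P)) := by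
    refine (mul_le_mul_of_nonneg_left h2 (by positivity)).trans ?_
    have : P / (2 * R) * (R * (2 * jT n * (2 ^ jT n * Z))) =
        Z * (2 * P ^ 2 * (jT n * 2 ^ jT n) / (2 * P)) := by
      field_simp
    rw [this]
    gcongr
  have e6 : (2⁻¹ : ℝ) ^ nEnd n * (Z * (R / (2 * P)) + Z * (R / (2 * P))) =
      R * 2⁻¹ ^ (n + ζ.length) := by
    obtain ⟨d, hd⟩ := Nat.exists_eq_add_of_le (show ζ.length ≤ nEnd n by omega)
    rw [hZ, hP, hd, Nat.add_sub_cancel_left, pow_add, pow_add]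
    simp only [inv_pow]
    field_simp
    norm_num
  have e7 : (2⁻¹ : ℝ) ^ nEnd n * (P / (2 * R) * ∑ ξ ∈ Zs ζ (nEnd n), W ξ ^ 2 + Z * (R / (2 * P))) ≤
      2⁻¹ ^ nEnd n * (Z * (R / (2 * P)) + Z * (R / (2 * P))) := by gcongr
  rw [e1]
  linarith

end Pool.Agent.Lib.MP_848037_lc.Neg
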