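import Pool.Agent.Lib.MP_848037_lc.ThinLimit

/-!
Sequences that carry a left-c.e. sequence on the multiples of `d` lie on a thin tree.
-/

set_option autoImplicit false

namespace Pool.Agent.Lib.MP_848037_lc

open Finset Filter Pool.Agent.Shared.Type2

/-- The strings that agree with stage `s` of `a` on the multiples of `d`. -/
def ceT (a : ℕ → ℕ → Bool) (d s : ℕ) (σ : Str) : Bool :=
  (List.range σ.length).all fun i => decide (σ.length ≤ d * i) || σ.getD (d * i) false == a s i

theorem ceT_iff {a : ℕ → ℕ → Bool} {d s : ℕ} {σ : Str} (hd : 1 ≤ d) :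
    ceT a d s σ = true ↔ ∀ i, d * i < σ.length → σ.getD (d * i) false = a s i := by
  simp only [ceT, List.all_eq_true, List.mem_range, Bool.or_eq_true, decide_eq_true_eq, beq_iff_eq]
  refine ⟨fun h i hi => (h i ((Nat.le_mul_of_pos_left i hd).trans_lt hi)).resolve_left (by omega),
    fun h i _ => (le_or_gt _ _).imp_right (h i)⟩

theorem ceT_pre {a : ℕ → ℕ → Bool} {d s : ℕ} {σ v : Str} (hd : 1 ≤ d)
    (h : ceT a d s (σ ++ v) = true) : ceT a d s σ = true := by
  rw [ceT_iff hd] at h ⊢
  intro i hi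
  rw [← h i (by simp; omega), List.getD_append _ _ _ _ hi]

theorem ceT_once {a : ℕ → ℕ → Bool} {d : ℕ} (hd : 1 ≤ d) (ha : Monotone fun s => toLex (a s)) :
    Once (ceT a d) := by
  refine ⟨fun s σ b => ceT_pre hd, fun r s t σ h1 h2 a1 a2 => ?_⟩
  rw [ceT_iff hd] at a1 a2 ⊢
  intro i
  induction i using Nat.strong_induction_on with
  | _ i ih =>
    intro hi
    have lo : ∀ j < i, d * j < σ.length := fun j hj => (Nat.mul_le_mul_left d hj.le).trans_lt hi
    by_contra c
    rcases lt_or_gt_of_ne c with e | e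
    · exact (ha h2).not_gt ⟨i, fun j hj => (a2 j (lo j hj)).symm.trans (ih j hj (lo j hj)),
        (a2 i hi).symm.trans_lt e⟩
    · exact (ha h1).not_gt ⟨i, fun j hj => (ih j hj (lo j hj)).symm.trans (a1 j (lo j hj)),
        e.trans_eq (a1 i hi)⟩

theorem ceT_card (a : ℕ → ℕ → Bool) {d : ℕ} (hd : 1 ≤ d) (s n : ℕ) :
    ((Om n).filter fun τ => ceT a d s τ = true).card ≤ 2 ^ (n - n / d + 0) := by
  have step : ∀ n, ((Om (n + 1)).filter fun τ => ceT a d s τ = true).card ≤
      ((Om n).filter fun τ => ceT a d s τ = true).card * if d ∣ n then 1 else 2 := fun n => by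
    rw [card_filter, sum_Om_add, card_filter, sum_mul]
    refine sum_le_sum fun u hu => ?_
    rw [← card_filter]
    by_cases c : ceT a d s u = true
    · rw [if_pos c, one_mul]
      split_ifs with e
      · obtain ⟨i, rfl⟩ := e
        refine card_le_one_iff_subset_singleton.2 ⟨[a s i], fun v hv => ?_⟩
        obtain ⟨h1, h2⟩ := mem_filter.1 hv
        obtain ⟨b, rfl⟩ := List.length_eq_one_iff.1 (mem_Om.1 h1)
        rw [← (ceT_iff hd).1 h2 i (by simp [mem_Om.1 hu]), ← mem_Om.1 hu]
        simp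
      · exact (card_filter_le _ _).trans (card_Om 1).le
    · rw [filter_false_of_mem fun v _ h => c (ceT_pre hd h)]
      simp
  have key : ∀ n, ((Om (n + 1)).filter fun τ => ceT a d s τ = true).card ≤ 2 ^ (n - n / d) := by
    intro n
    induction n with
    | zero =>
      refine (step 0).trans ?_
      simpa using (card_filter_le _ _).trans (card_Om 0).le
    | succ n ih =>
      refine (step _).trans ?_
      have := Nat.div_le_self n d
      rw [Nat.succ_div]
      split_ifs
      · rw [mul_one, Nat.add_sub_add_right]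
        exact ih
      · rw [add_zero, Nat.succ_sub this, pow_succ]
        exact Nat.mul_le_mul_right _ ih
  rcases n with _ | n
  · simpa using (card_filter_le _ _).trans (card_Om 0).le
  · refine (key n).trans (Nat.pow_le_pow_right (by norm_num) ?_)
    rw [Nat.succ_div]
    split_ifs <;> omega

theorem IsK.ce_cone {K : Str → ℕ} (hK : IsK K) {a : ℕ → ℕ → Bool} (hc : Computable₂ a)
    (ha : Monotone fun s => toLex (a s)) {d : ℕ} (hd : 1 ≤ d) (x : ℕ → Bool)
    (hx : ∀ i, ∃ s₀, ∀ s ≥ s₀, a s i = x (d * i)) :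
    ¬ {z : ℕ → Bool | ∃ c, ∀ n, K (xs x n) ≤ K (xs z n) + c}.Countable ∧
      ¬ ∃ C, ∀ N, ∃ n ≥ N, K (List.replicate n false) + n ≤ K (xs x n) + C := by
  have h1 : TD fun p : ℕ × ℕ => a p.1 p.2 := TD.of_computable hc
  refine hK.thin_cone (ceT_once hd ha) ?_ hd (ceT_card a hd) x fun n => ?_
  · unfold ceT
    refine TD.all (by fun_prop) (TD.or' (by fun_prop) (TD.beq' (by fun_prop) ?_))
    exact h1.comp' (f := fun p : (ℕ × Str) × ℕ => (p.1.1, p.2)) (by fun_prop)
  · refine ((eventually_all_finset (range n)).2 fun i _ => eventually_atTop.2 (hx i)).mono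
      fun s hs => (ceT_iff hd).2 fun i hi => ?_
    rw [length_xs] at hi
    rw [hs i (mem_range.2 ((Nat.le_mul_of_pos_left i hd).trans_lt hi)),
      List.getD_eq_getElem _ _ (by simpa using hi)]
    simp [xs]

end Pool.Agent.Lib.MP_848037_lc
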