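import Pool.Agent.Lib.MP_848037_lc.Cone

/-!
The cost lemma: strings on a thin tree that every string enters and leaves at most once can be
given the weights `2^(-|τ| - e s |τ|)` whenever the exponents `e s n` change rarely.
-/

set_option autoImplicit false

namespace Pool.Agent.Lib.MP_848037_lc

open Finset Pool.Agent.Shared.Type2

theorem sum_Om_add {β : Type*} [AddCommMonoid β] (a b : ℕ) (F : Str → β) :
    ∑ σ ∈ Om (a + b), F σ = ∑ u ∈ Om a, ∑ v ∈ Om b, F (u ++ v) := by
  rw [← sum_product']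
  refine sum_nbij' (fun σ => (σ.take a, σ.drop a)) (fun p => p.1 ++ p.2) ?_ ?_ ?_ ?_ ?_
  · intro σ h
    have := mem_Om.1 h
    simp [this]
  · intro p h
    obtain ⟨h1, h2⟩ := mem_product.1 h
    simp [mem_Om.1 h1, mem_Om.1 h2]
  · intro σ _
    simp
  · intro p h
    obtain ⟨h1, h2⟩ := mem_product.1 h
    simp [← mem_Om.1 h1]
  · intro σ _
    simp

theorem card_Om (n : ℕ) : (Om n).card = 2 ^ n := by
  rw [Om, List.toFinset_card_of_nodup (nodup_allS n)]
  induction n with
  | zero => rfl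
  | succ n ih =>
    have : allS (n + 1) = (allS n).map (fun s => false :: s) ++ (allS n).map (fun s => true :: s) :=
      rfl
    rw [this, List.length_append, List.length_map, List.length_map, ih, pow_succ]
    omega

theorem sum_Om_take {β : Type*} [AddCommMonoid β] (a b : ℕ) (F : Str → β) :
    ∑ σ ∈ Om (a + b), F (σ.take a) = 2 ^ b • ∑ u ∈ Om a, F u := by
  rw [sum_Om_add, smul_sum]
  refine sum_congr rfl fun u hu => ?_
  rw [sum_congr rfl (g := fun _ => F u) fun v _ => by simp [← mem_Om.1 hu], sum_const, card_Om]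

theorem tsum_Om (h : Str → ENNReal) : ∑' τ, h τ = ∑' n, ∑ τ ∈ Om n, h τ := by
  have h1 : ∀ τ : Str, h τ = ∑' n : ℕ, if n = τ.length then h τ else 0 := fun τ => by
    rw [tsum_ite_eq]
  rw [tsum_congr h1, ENNReal.tsum_comm]
  refine tsum_congr fun n => ?_
  rw [tsum_eq_sum (s := Om n) fun τ hτ => if_neg fun e => hτ (mem_Om.2 e.symm)]
  exact sum_congr rfl fun τ hτ => if_pos (mem_Om.1 hτ).symm

theorem tsum_chg (Φ : ℕ → ℕ) (hΦ : Monotone Φ) (B : ℕ) (hB : ∀ s, Φ s ≤ B) :
    (∑' s, if Φ (s + 1) ≠ Φ s then (1 : ENNReal) else 0) ≤ B := by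
  refine ENNReal.tsum_le_of_sum_range_le fun S => ?_
  have : ∀ S, (∑ s ∈ range S, if Φ (s + 1) ≠ Φ s then (1 : ENNReal) else 0) ≤ Φ S := by
    intro S
    induction S with
    | zero => simp
    | succ S ih =>
      rw [sum_range_succ]
      have h1 := hΦ (Nat.le_succ S)
      split_ifs with h
      · have h2 : Φ S + 1 ≤ Φ (S + 1) := by
          simp only [Nat.succ_eq_add_one] at h1
          omega
        calc _ ≤ (Φ S : ENNReal) + 1 := by gcongr
          _ ≤ _ := by exact_mod_cast h2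
      · rw [add_zero]
        exact ih.trans (by exact_mod_cast h1)
  exact (this S).trans (by exact_mod_cast hB S)

/-- A sequence of trees that every string enters and leaves at most once. -/
structure Once (T : ℕ → Str → Bool) : Prop where
  tree : ∀ s σ b, T s (σ ++ [b]) = true → T s σ = true
  once : ∀ r s t σ, r ≤ s → s ≤ t → T r σ = true → T t σ = true → T s σ = true

theorem Once.take {T : ℕ → Str → Bool} (hT : Once T) {s : ℕ} {σ : Str} (h : T s σ = true)
    (n : ℕ) : T s (σ.take n) = true := by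
  induction σ using List.reverseRecOn with
  | nil => simpa using h
  | append_singleton σ b ih =>
    rcases le_or_gt n σ.length with c | c
    · rw [List.take_append_of_le_length c]
      exact ih (hT.tree _ _ _ h)
    · rwa [List.take_of_length_le (by simp; omega)]

open Classical in
/-- The least weight that a string is asked to carry while it is on the tree. -/
noncomputable def lowW (T : ℕ → Str → Bool) (e : ℕ → ℕ → ℕ) (τ : Str) : ENNReal :=
  if ∃ s, T s τ = true then ⨅ s, ⨅ (_ : T s τ = true), 2⁻¹ ^ e s τ.length else 0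

theorem lowW_le {T : ℕ → Str → Bool} {e : ℕ → ℕ → ℕ} {s : ℕ} {τ : Str} (h : T s τ = true) :
    lowW T e τ ≤ 2⁻¹ ^ e s τ.length := by
  rw [lowW, if_pos ⟨s, h⟩]
  exact iInf₂_le s h

theorem tsum_lowW {T : ℕ → Str → Bool} (hT : Once T) (e : ℕ → ℕ → ℕ) (C : ENNReal)
    (hB : ∀ s N, ∑ n ∈ range N, (2⁻¹ : ENNReal) ^ e s n ≤ C) :
    ∑' τ : Str, 2⁻¹ ^ τ.length * lowW T e τ ≤ C := by
  classical
  rw [tsum_Om]
  refine ENNReal.tsum_le_of_sum_range_le fun N => ?_
  have h1 : ∀ n ∈ range N, ∑ τ ∈ Om n, 2⁻¹ ^ τ.length * lowW T e τ =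
      ∑ y ∈ Om N, 2⁻¹ ^ N * lowW T e (y.take n) := by
    intro n hn
    obtain ⟨j, rfl⟩ := Nat.exists_eq_add_of_le (mem_range.1 hn).le
    rw [sum_Om_take n j fun u => 2⁻¹ ^ (n + j) * lowW T e u, smul_sum]
    refine sum_congr rfl fun τ hτ => ?_
    rw [mem_Om.1 hτ, nsmul_eq_mul, ← mul_assoc, pow_add]
    congr 1
    push_cast
    rw [mul_left_comm, ← mul_pow, ENNReal.mul_inv_cancel (by simp) (by simp), one_pow, mul_one]
  rw [sum_congr rfl h1, sum_comm]
  have h2 : ∀ y ∈ Om N, ∑ n ∈ range N, 2⁻¹ ^ N * lowW T e (y.take n) ≤ 2⁻¹ ^ N * C := by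
    intro y hy
    rw [← mul_sum]
    gcongr
    have key : ∀ m, m ≤ N → ∃ s, ∀ n < m, lowW T e (y.take n) ≤ 2⁻¹ ^ e s n := by
      intro m
      induction m with
      | zero => exact fun _ => ⟨0, fun n hn => absurd hn (by omega)⟩
      | succ m ih =>
        intro hm
        by_cases c : ∃ s, T s (y.take m) = true
        · obtain ⟨s, hs⟩ := c
          refine ⟨s, fun n hn => ?_⟩
          have h3 := hT.take hs n
          rw [List.take_take, min_eq_left (by omega)] at h3
          have h4 := lowW_le (e := e) h3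
          rwa [List.length_take, mem_Om.1 hy, min_eq_left (by omega)] at h4
        · obtain ⟨s, hs⟩ := ih (by omega)
          refine ⟨s, fun n hn => ?_⟩
          rcases Nat.lt_succ_iff_lt_or_eq.1 hn with d | rfl
          · exact hs n d
          · rw [lowW, if_neg c]
            exact zero_le
    obtain ⟨s, hs⟩ := key N le_rfl
    exact (sum_le_sum fun n hn => hs n (mem_range.1 hn)).trans (hB s N)
  refine (sum_le_sum h2).trans (le_of_eq ?_)
  rw [sum_const, card_Om, nsmul_eq_mul, ← mul_assoc]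
  push_cast
  rw [← mul_pow, ENNReal.mul_inv_cancel (by simp) (by simp), one_pow, one_mul]

theorem exists_chg (f : ℕ → ℕ) {a b : ℕ} (h : a ≤ b) (hne : f a ≠ f b) :
    ∃ s, a ≤ s ∧ s < b ∧ f (s + 1) ≠ f s := by
  induction b, h using Nat.le_induction with
  | base => exact absurd rfl hne
  | succ b hb ih =>
    by_cases c : f (b + 1) = f b
    · obtain ⟨s, h1, h2, h3⟩ := ih (by rwa [c] at hne)
      exact ⟨s, h1, by omega, h3⟩
    · exact ⟨b, hb, by omega, c⟩

variable {K : Str → ℕ}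

theorem IsK.thin (hK : IsK K) {T : ℕ → Str → Bool} (hT : Once T)
    (hTc : TD fun p : ℕ × Str => T p.1 p.2) (e : ℕ → ℕ → ℕ)
    (he : TD fun p : ℕ × ℕ => e p.1 p.2) (wd B : ℕ → ℕ) (Φ : ℕ → ℕ → ℕ)
    (hw : ∀ s n, ((Om n).filter fun τ => T s τ = true).card ≤ wd n)
    (hΦ : ∀ n, Monotone (Φ n)) (hΦB : ∀ n s, Φ n s ≤ B n)
    (hΦe : ∀ n s, Φ n (s + 1) = Φ n s → e (s + 1) n = e s n) (c₀ : ℕ)
    (hB : ∀ s N, ∑ n ∈ range N, (2⁻¹ : ENNReal) ^ e s n ≤ 2 ^ c₀)
    (hC : ∑' n, (2⁻¹ : ENNReal) ^ n * (wd n * B n) ≤ 2 ^ c₀) :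
    ∃ c, ∀ s τ, T s τ = true → K τ ≤ τ.length + e s τ.length + c := by
  classical
  let I : Str → ENNReal := fun τ => ∑' s, if T (s + 1) τ = true ∧
    Φ τ.length (s + 1) ≠ Φ τ.length s then 1 else 0
  refine Exists.elim (hK.req
    (R := fun p => ∃ s, T s p.1 = true ∧ p.2 = p.1.length + e s p.1.length + (c₀ + 1))
    (re_of_test (k := fun a s => T s a.1 && decide (a.2 = a.1.length + e s a.1.length + (c₀ + 1)))
      (by fun_prop) (by simp))
    (fun τ => 2⁻¹ ^ (c₀ + 1) * (2⁻¹ ^ τ.length * lowW T e τ + 2⁻¹ ^ τ.length * I τ)) ?_ ?_)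
    fun c hc => ⟨c₀ + 1 + c, fun s τ h => by
      have := hc τ (τ.length + e s τ.length + (c₀ + 1)) ⟨s, h, rfl⟩
      omega⟩
  · rintro τ k ⟨s, h, hk⟩
    simp only at h hk
    subst hk
    rw [pow_add, pow_add, mul_comm, ← mul_add]
    gcongr
    by_cases c : ∀ t, T t τ = true → e t τ.length = e s τ.length
    · refine le_add_right ?_
      rw [lowW, if_pos ⟨s, h⟩]
      exact le_iInf₂ fun t ht => by rw [c t ht]
    · push Not at c
      obtain ⟨t, ht, hne⟩ := c
      have h1 : ∃ r, T (r + 1) τ = true ∧ e (r + 1) τ.length ≠ e r τ.length := by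
        rcases le_total s t with d | d
        · obtain ⟨r, a1, a2, a3⟩ := exists_chg (fun r => e r τ.length) d hne.symm
          exact ⟨r, hT.once s _ t τ (by omega) (by omega) h ht, a3⟩
        · obtain ⟨r, a1, a2, a3⟩ := exists_chg (fun r => e r τ.length) d hne
          exact ⟨r, hT.once t _ s τ (by omega) (by omega) ht h, a3⟩
      obtain ⟨r, a1, a2⟩ := h1
      refine le_add_left (le_trans (pow_le_one₀ (by simp) (by simp))
        (le_trans ?_ (ENNReal.le_tsum r)))
      rw [if_pos ⟨a1, fun d => a2 (hΦe _ _ d)⟩]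
  · rw [ENNReal.tsum_mul_left, ENNReal.tsum_add]
    have h1 := tsum_lowW hT e _ hB
    have h2 : ∑' τ : Str, 2⁻¹ ^ τ.length * I τ ≤ 2 ^ c₀ := by
      rw [tsum_Om]
      refine le_trans (ENNReal.tsum_le_tsum fun n => ?_) hC
      rw [sum_congr rfl (g := fun τ => 2⁻¹ ^ n * ∑' s, if T (s + 1) τ = true ∧
        Φ n (s + 1) ≠ Φ n s then 1 else 0) fun τ hτ => by simp only [I, mem_Om.1 hτ], ← mul_sum,
        ← Summable.tsum_finsetSum fun _ _ => ENNReal.summable]
      gcongr
      calc _ ≤ ∑' s, (wd n : ENNReal) * if Φ n (s + 1) ≠ Φ n s then 1 else 0 := by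
            refine ENNReal.tsum_le_tsum fun s => ?_
            by_cases d : Φ n (s + 1) ≠ Φ n s
            · simp only [d, and_true, if_true, mul_one, ne_eq, not_false_eq_true]
              rw [sum_boole]
              exact_mod_cast hw (s + 1) n
            · simp [d]
        _ ≤ _ := by
            rw [ENNReal.tsum_mul_left]
            gcongr
            exact tsum_chg _ (hΦ n) _ (hΦB n)
    calc _ ≤ (2⁻¹ : ENNReal) ^ (c₀ + 1) * (2 ^ c₀ + 2 ^ c₀) := by gcongr
      _ = 1 := by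
        rw [← two_mul, ← pow_succ', ← mul_pow, ENNReal.inv_mul_cancel (by simp) (by simp), one_pow]

end Pool.Agent.Lib.MP_848037_lc
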