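import Pool.Agent.Lib.MP_848037_lc.ThinStep

/-!
The levels of the construction at each stage, and a potential that counts their changes.
-/

set_option autoImplicit false

namespace Pool.Agent.Lib.MP_848037_lc

open Finset Filter Pool.Agent.Shared.Type2

/-- The total mass at stage `s`. -/
def mtot (M : ℕ → Str → ℕ) (s : ℕ) : ℕ := ∑ n ∈ range (s + 1), ∑ σ ∈ Om n, M s σ

/-- The total mass rounded to precision `p`. -/
def Fq (M : ℕ → Str → ℕ) (p s : ℕ) : ℕ := mtot M s * 2 ^ p / 2 ^ s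

theorem ex_tt (M : ℕ → Str → ℕ) (p s : ℕ) : ∃ t, decide (Fq M p t = Fq M p s) = true :=
  ⟨s, by simp⟩

/-- The first stage with the same rounded total mass. -/
def tt (M : ℕ → Str → ℕ) (p s : ℕ) : ℕ := Nat.find (ex_tt M p s)

variable {M : ℕ → Str → ℕ} {g : ℕ}

theorem tt_congr {p s s' : ℕ} (h : Fq M p s' = Fq M p s) : tt M p s' = tt M p s := by
  unfold tt
  congr 1
  rw [h]

theorem Fq_congr {p P s s' : ℕ} (hp : p ≤ P) (h : Fq M P s' = Fq M P s) :
    Fq M p s' = Fq M p s := by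
  obtain ⟨k, rfl⟩ := Nat.exists_eq_add_of_le hp
  have : ∀ s, Fq M p s = Fq M (p + k) s / 2 ^ k := fun s => by
    rw [Fq, Fq, Nat.div_div_eq_div_mul, pow_add, ← mul_assoc,
      Nat.mul_div_mul_right _ _ (by positivity)]
  rw [this, this, h]

theorem Mass.mono' (hM : Mass M) (t k : ℕ) (σ : Str) : 2 ^ k * M t σ ≤ M (t + k) σ := by
  induction k with
  | zero => simp
  | succ k ih =>
    have := hM.mono (t + k) σ
    rw [pow_succ, ← add_assoc]
    linarith

theorem Mass.Fq_mono (hM : Mass M) (p : ℕ) : Monotone (Fq M p) := by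
  refine monotone_nat_of_le_succ fun s => ?_
  have h1 : 2 * mtot M s ≤ mtot M (s + 1) := by
    rw [mtot, mtot, sum_range_succ _ (s + 1), mul_sum]
    refine le_add_right (sum_le_sum fun n _ => ?_)
    rw [mul_sum]
    exact sum_le_sum fun σ _ => hM.mono s σ
  rw [Fq, Fq, ← Nat.mul_div_mul_right (mtot M s * 2 ^ p) (2 ^ s) (show 0 < 2 by norm_num), pow_succ]
  exact Nat.div_le_div_right (by nlinarith [Nat.zero_le (2 ^ p)])

theorem Mass.Fq_le (hM : Mass M) (p s : ℕ) : Fq M p s ≤ 2 ^ (p + 1) := by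
  have h1 : mtot M s ≤ 2 ^ (s + 1) := by rw [mtot, sum_lens]; exact hM.tot _ _
  refine Nat.div_le_of_le_mul ?_
  calc _ ≤ 2 ^ (s + 1) * 2 ^ p := Nat.mul_le_mul_right _ h1
    _ = _ := by ring

theorem Mass.tail_le (hM : Mass M) {p s N : ℕ} (h : tt M p s ≤ N) :
    tail M s N * 2 ^ p ≤ 2 ^ s := by
  have h1 : Fq M p (tt M p s) = Fq M p s := of_decide_eq_true (Nat.find_spec (ex_tt M p s))
  have h2 : tt M p s ≤ s := Nat.find_min' _ (by simp)
  generalize tt M p s = t at *
  obtain ⟨k, rfl⟩ := Nat.exists_eq_add_of_le h2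
  have h3 : 2 ^ k * mtot M t + tail M (t + k) N ≤ mtot M (t + k) := by
    have a1 : 2 ^ k * mtot M t ≤ ∑ n ∈ range (t + 1), ∑ σ ∈ Om n, M (t + k) σ := by
      rw [mtot, mul_sum]
      refine sum_le_sum fun n _ => ?_
      rw [mul_sum]
      exact sum_le_sum fun σ _ => hM.mono' t k σ
    have a2 : tail M (t + k) N = ∑ n ∈ (range (t + k)).image (fun j => N + (j + 1)),
        ∑ σ ∈ Om n, M (t + k) σ := by
      rw [tail, sum_image fun a _ b _ h => by simpa using h]
    have a3 : Disjoint (range (t + 1)) ((range (t + k)).image fun j => N + (j + 1)) :=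
      disjoint_left.2 fun n b1 b2 => by
        obtain ⟨j, -, rfl⟩ := mem_image.1 b2
        have := mem_range.1 b1
        omega
    refine (Nat.add_le_add_right a1 _).trans ?_
    rw [a2, ← sum_union a3, mtot]
    refine sum_le_sum_of_ne_zero fun n _ b => mem_range.2 ?_
    by_contra c
    exact b (sum_eq_zero fun σ hσ => hM.supp _ _ (by rw [mem_Om.1 hσ]; omega))
  have h4 : mtot M (t + k) * 2 ^ p < 2 ^ (t + k) * (Fq M p (t + k) + 1) :=
    Nat.lt_mul_div_succ _ (by positivity)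
  have h5 : 2 ^ t * Fq M p t ≤ mtot M t * 2 ^ p := Nat.mul_div_le _ _
  rw [← h1, pow_add] at h4
  have h6 := Nat.mul_le_mul_left (2 ^ k) h5
  have h7 := Nat.mul_le_mul_right (2 ^ p) h3
  rw [pow_add]
  nlinarith

/-- The number of groups of lengths that the next level takes. -/
def rad (M : ℕ → Str → ℕ) (s Q : ℕ) : ℕ := max 1 (tt M (4 * Q + 3) s - Q)

/-- The walk chosen on level `l`. -/
def pick (M : ℕ → Str → ℕ) (g s l : ℕ) (A es : List ℕ) : ℕ :=
  lst (2 ^ rad M s es.length) fun v => bud l (rad M s es.length) v &&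
    goodB g (M s) s (l + 1) (g * es.length :: A) (es ++ wl l (rad M s es.length) v)

/-- Flip positions, exponents and the code of the walks on level `l` at stage `s`. -/
def lev (M : ℕ → Str → ℕ) (g s l : ℕ) : List ℕ × List ℕ × ℕ :=
  nrec l ([], [], 0) fun l x => (g * x.2.1.length :: x.1,
    x.2.1 ++ wl l (rad M s x.2.1.length) (pick M g s l x.1 x.2.1),
    x.2.2 * 2 ^ rad M s x.2.1.length + pick M g s l x.1 x.2.1)

/-- The exponent for the group of lengths number `q`. -/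
def expo (M : ℕ → Str → ℕ) (g s q : ℕ) : ℕ := (lev M g s (q + 1)).2.1.getD q 0

theorem td_ex (hM : TD fun p : ℕ × Str => M p.1 p.2) (g : ℕ) :
    TD fun p : ℕ × ℕ => expo M g p.1 p.2 := by
  have h1 : TD (mtot M) := by unfold mtot; fun_prop
  have h2 : TD fun p : ℕ × ℕ => Fq M p.1 p.2 := by unfold Fq; fun_prop
  have h3 : TD fun p : ℕ × ℕ => tt M p.1 p.2 :=
    TD.find' (c := fun (p : ℕ × ℕ) t => decide (Fq M p.1 t = Fq M p.1 p.2)) (by fun_prop)
      fun p => ex_tt M p.1 p.2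
  have h4 : TD fun p : ℕ × ℕ => rad M p.1 p.2 := by unfold rad; fun_prop
  have h5 : TD fun p : ℕ × ℕ × ℕ => wl p.1 p.2.1 p.2.2 := by unfold wl; fun_prop
  have h6 : TD fun p : (ℕ × ℕ) × List ℕ × List ℕ => pick M g p.1.1 p.1.2 p.2.1 p.2.2 := by
    unfold pick
    refine td_lst (by fun_prop) (TD.and' (by fun_prop) (td_goodB g (by fun_prop) (by fun_prop)
      (by fun_prop) (by fun_prop) (TD.append (by fun_prop) ?_)))
    exact h5.comp' (f := fun p : ((ℕ × ℕ) × List ℕ × List ℕ) × ℕ =>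
      (p.1.1.2, rad M p.1.1.1 p.1.2.2.length, p.2)) (by fun_prop)
  have h7 : TD fun p : (ℕ × ℕ) × ℕ × List ℕ × List ℕ × ℕ =>
      pick M g p.1.1 p.2.1 p.2.2.1 p.2.2.2.1 :=
    h6.comp' (f := fun p : (ℕ × ℕ) × ℕ × List ℕ × List ℕ × ℕ =>
      ((p.1.1, p.2.1), p.2.2.1, p.2.2.2.1)) (by fun_prop)
  have h8 : TD fun p : ℕ × ℕ => lev M g p.1 p.2 := by
    unfold lev
    refine TD.nrec' (by fun_prop) (by fun_prop) (TD.pair (by fun_prop) (TD.pair
      (TD.append (by fun_prop) ?_) (TD.add (by fun_prop) h7)))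
    exact h5.comp' (f := fun p : (ℕ × ℕ) × ℕ × List ℕ × List ℕ × ℕ =>
      (p.2.1, rad M p.1.1 p.2.2.2.1.length, pick M g p.1.1 p.2.1 p.2.2.1 p.2.2.2.1))
      (TD.pair (by fun_prop) (TD.pair (by fun_prop) h7))
  have h9 : TD fun p : ℕ × ℕ => lev M g p.1 (p.2 + 1) :=
    h8.comp' (f := fun p : ℕ × ℕ => (p.1, p.2 + 1)) (by fun_prop)
  exact TD.lgetD (by fun_prop) (TD.fst (TD.snd h9)) (by fun_prop)

section

variable (M g)

/-- The flip positions. -/
def LA (s l : ℕ) : List ℕ := (lev M g s l).1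
/-- The exponents. -/
def LE (s l : ℕ) : List ℕ := (lev M g s l).2.1
/-- The code of the walks. -/
def LV (s l : ℕ) : ℕ := (lev M g s l).2.2
/-- The number of groups. -/
def LQ (s l : ℕ) : ℕ := (LE M g s l).length
/-- The number of groups on the next level. -/
def LR (s l : ℕ) : ℕ := rad M s (LQ M g s l)
/-- The walk on the next level. -/
def Lv (s l : ℕ) : ℕ := pick M g s l (LA M g s l) (LE M g s l)

theorem LA_succ (s l : ℕ) : LA M g s (l + 1) = g * LQ M g s l :: LA M g s l := rfl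
theorem LE_succ (s l : ℕ) : LE M g s (l + 1) = LE M g s l ++ wl l (LR M g s l) (Lv M g s l) := rfl
theorem LV_succ (s l : ℕ) : LV M g s (l + 1) = LV M g s l * 2 ^ LR M g s l + Lv M g s l := rfl
theorem LQ_succ (s l : ℕ) : LQ M g s (l + 1) = LQ M g s l + LR M g s l := by
  simp [LQ, LE_succ]
theorem LR_pos (s l : ℕ) : 1 ≤ LR M g s l := le_max_left _ _

theorem LQ_mono (s : ℕ) : StrictMono (LQ M g s) := strictMono_nat_of_lt_succ fun l => by
  have := LR_pos M g s l
  rw [LQ_succ]; omega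

theorem length_LA (s l : ℕ) : (LA M g s l).length = l := by
  induction l with
  | zero => rfl
  | succ l ih => rw [LA_succ, List.length_cons, ih]

theorem getD_LE (s : ℕ) {l q : ℕ} (h : q < LQ M g s l) :
    (LE M g s l).getD q 0 = expo M g s q := by
  have key : ∀ l l', l ≤ l' → q < LQ M g s l →
      (LE M g s l').getD q 0 = (LE M g s l).getD q 0 := by
    intro l l' h1 h2
    induction l', h1 using Nat.le_induction with
    | base => rfl
    | succ l' h1 ih =>
      rw [LE_succ, List.getD_append _ _ _ _ (h2.trans_le ((LQ_mono M g s).monotone h1)), ih]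
  change _ = (LE M g s (q + 1)).getD q 0
  rcases le_total l (q + 1) with c | c
  · exact (key _ _ c h).symm
  · exact key _ _ c (LQ_mono M g s).le_apply

theorem ex_eq (s l : ℕ) {i : ℕ} (h : i < LR M g s l) :
    expo M g s (LQ M g s l + i) = wk (l + 4) (LR M g s l) (Lv M g s l) i := by
  rw [← getD_LE M g s (l := l + 1) (by rw [LQ_succ]; omega), LE_succ]
  exact getD_wl h

end

theorem Mass.pick_spec (hM : Mass M) (hg : 1 ≤ g) {s l : ℕ}
    (h : goodB g (M s) s l (LA M g s l) (LE M g s l) = true) :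
    Lv M g s l < 2 ^ LR M g s l ∧ bud l (LR M g s l) (Lv M g s l) = true ∧
      goodB g (M s) s (l + 1) (LA M g s (l + 1)) (LE M g s (l + 1)) = true := by
  have h1 : l ≤ LQ M g s l := (LQ_mono M g s).le_apply
  have h2 : tt M (4 * LQ M g s l + 3) s ≤ g * (LQ M g s l + LR M g s l) := by
    have : tt M (4 * LQ M g s l + 3) s - LQ M g s l ≤ LR M g s l := le_max_right _ _
    exact le_trans (by omega) (Nat.le_mul_of_pos_left _ hg)
  obtain ⟨v, a1, a2, a3⟩ := hM.step (R := LR M g s l) (length_LA M g s l) h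
    (le_trans (Nat.mul_le_mul_left _ (Nat.pow_le_pow_right (by norm_num)
      (by change 3 * l + LQ M g s l + 3 ≤ _; omega))) (hM.tail_le h2))
  have b1 : Lv M g s l < 2 ^ LR M g s l :=
    lt_of_le_of_lt (lst_le (Bool.and_eq_true_iff.2 ⟨a2, a3⟩)) a1
  exact ⟨b1, Bool.and_eq_true_iff.1 ((lst_spec _ _).2.2 b1)⟩

theorem Mass.good (hM : Mass M) (hg : 1 ≤ g) (s l : ℕ) :
    goodB g (M s) s l (LA M g s l) (LE M g s l) = true := by
  induction l with
  | zero => exact hM.goodB_zero s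
  | succ l ih => exact (hM.pick_spec hg ih).2.2

theorem Mass.Lv_lt (hM : Mass M) (hg : 1 ≤ g) (s l : ℕ) : Lv M g s l < 2 ^ LR M g s l :=
  (hM.pick_spec hg (hM.good hg s l)).1

theorem Mass.LV_lt (hM : Mass M) (hg : 1 ≤ g) (s l : ℕ) : LV M g s l < 2 ^ LQ M g s l := by
  induction l with
  | zero => exact Nat.two_pow_pos _
  | succ l ih =>
    have h1 := hM.Lv_lt hg s l
    have h2 := Nat.mul_le_mul_right (2 ^ LR M g s l) (Nat.succ_le_of_lt ih)
    rw [LV_succ, LQ_succ, pow_add]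
    rw [Nat.succ_mul] at h2
    omega

theorem Mass.sum_ex (hM : Mass M) (hg : 1 ≤ g) (s N : ℕ) :
    ∑ q ∈ range N, (2⁻¹ : ENNReal) ^ expo M g s q ≤ 2 := by
  have key : ∀ l, ∑ q ∈ range (LQ M g s l), (2⁻¹ : ENNReal) ^ expo M g s q ≤
      ∑ i ∈ range l, 2⁻¹ ^ i := by
    intro l
    induction l with
    | zero => exact le_of_eq rfl
    | succ l ih =>
      rw [LQ_succ, sum_range_add, sum_range_succ]
      refine add_le_add ih (le_trans (le_of_eq (sum_congr rfl fun i hi => ?_))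
        (bud_sum (hM.pick_spec hg (hM.good hg s l)).2.1))
      rw [ex_eq M g s l (mem_range.1 hi)]
  refine (sum_le_sum_of_subset (range_mono (LQ_mono M g s).le_apply)).trans ((key N).trans ?_)
  refine (ENNReal.sum_le_tsum _).trans (le_of_eq ?_)
  rw [ENNReal.tsum_geometric, ENNReal.one_sub_inv_two, inv_inv]

theorem Mass.cmp (hM : Mass M) (hg : 1 ≤ g) {q s : ℕ}
    (hF : Fq M (4 * q + 3) (s + 1) = Fq M (4 * q + 3) s) (l : ℕ) (hl : ∀ i < l, LQ M g s i ≤ q) :
    LQ M g (s + 1) l = LQ M g s l ∧ LA M g (s + 1) l = LA M g s l ∧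
      LV M g s l ≤ LV M g (s + 1) l ∧
      (LV M g (s + 1) l = LV M g s l → LE M g (s + 1) l = LE M g s l) := by
  induction l with
  | zero => exact ⟨rfl, rfl, le_rfl, fun _ => rfl⟩
  | succ l ih =>
    obtain ⟨a1, a2, a3, a4⟩ := ih fun i hi => hl i (by omega)
    have a5 : LR M g (s + 1) l = LR M g s l := by
      have := hl l (by omega)
      rw [LR, LR, a1, rad, rad, tt_congr (Fq_congr (by omega) hF)]
    have b1 := hM.Lv_lt hg s l
    have b2 := hM.Lv_lt hg (s + 1) l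
    rw [a5] at b2
    have b3 : LV M g s l < LV M g (s + 1) l → LV M g s (l + 1) < LV M g (s + 1) (l + 1) :=
      fun c => by
        have := Nat.mul_le_mul_right (2 ^ LR M g s l) (Nat.succ_le_of_lt c)
        rw [LV_succ, LV_succ, a5]
        rw [Nat.succ_mul] at this
        omega
    refine ⟨by rw [LQ_succ, LQ_succ, a1, a5], by rw [LA_succ, LA_succ, a1, a2], ?_, fun c => ?_⟩
    · rcases a3.lt_or_eq with c | c
      · exact (b3 c).le
      · obtain ⟨-, d1, d2⟩ := hM.pick_spec hg (hM.good hg (s + 1) l)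
        rw [LA_succ, LE_succ, a1, a2, a4 c.symm, a5] at d2
        rw [a5] at d1
        rw [LV_succ, LV_succ, a5, c]
        exact Nat.add_le_add_left (lst_le (Bool.and_eq_true_iff.2 ⟨d1, hM.goodB_anti d2⟩)) _
    · have d : LV M g (s + 1) l = LV M g s l := by
        by_contra d
        have := b3 (by omega)
        omega
      rw [LV_succ, LV_succ, a5, d] at c
      rw [LE_succ, LE_succ, a5, a4 d, Nat.add_left_cancel c]

theorem ex_lvl (M : ℕ → Str → ℕ) (g s q : ℕ) : ∃ l, q < LQ M g s (l + 1) :=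
  ⟨q, (LQ_mono M g s).le_apply⟩

/-- The level that fixes the exponent of group `q`. -/
def lvl (M : ℕ → Str → ℕ) (g s q : ℕ) : ℕ := Nat.find (ex_lvl M g s q)

theorem lvl_le (s q : ℕ) {i : ℕ} (h : i < lvl M g s q + 1) : LQ M g s i ≤ q := by
  rcases i with _ | i
  · exact Nat.zero_le _
  · exact not_lt.1 (Nat.find_min (ex_lvl M g s q) (show i < lvl M g s q by omega))

/-- The part of the code that fixes the exponent of group `q`. -/
def pre' (M : ℕ → Str → ℕ) (g s q : ℕ) : ℕ :=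
  LV M g s (lvl M g s q + 1) / 2 ^ (LQ M g s (lvl M g s q + 1) - q)

theorem Mass.pre_lt (hM : Mass M) (hg : 1 ≤ g) (s q : ℕ) : pre' M g s q < 2 ^ q := by
  have h1 : q < LQ M g s (lvl M g s q + 1) := Nat.find_spec (ex_lvl M g s q)
  refine Nat.div_lt_of_lt_mul ?_
  rw [← pow_add, Nat.sub_add_cancel h1.le]
  exact hM.LV_lt hg _ _

theorem Mass.pre_cmp (hM : Mass M) (hg : 1 ≤ g) {q s : ℕ}
    (hF : Fq M (4 * q + 3) (s + 1) = Fq M (4 * q + 3) s) : pre' M g s q ≤ pre' M g (s + 1) q ∧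
      (pre' M g (s + 1) q = pre' M g s q → expo M g (s + 1) q = expo M g s q) := by
  have h1 : q < LQ M g s (lvl M g s q + 1) := Nat.find_spec (ex_lvl M g s q)
  have h2 : ∀ l ≤ lvl M g s q + 1, LQ M g (s + 1) l = LQ M g s l := fun l hl =>
    (hM.cmp hg hF l fun i hi => lvl_le s q (by omega)).1
  have h3 : lvl M g (s + 1) q = lvl M g s q := (Nat.find_eq_iff _).2 ⟨by rwa [h2 _ le_rfl],
    fun i hi => by rw [h2 _ (by omega)]; exact not_lt.2 (lvl_le s q (by omega))⟩
  have h4 := (hM.cmp hg hF (lvl M g s q + 1) fun i hi => lvl_le s q hi).2.2.1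
  have h5 := lvl_le (M := M) (g := g) s q (Nat.lt_succ_self _)
  rw [pre', pre', h3, h2 _ le_rfl]
  refine ⟨Nat.div_le_div_right h4, fun c => ?_⟩
  have h6 := h2 _ le_rfl
  have h7 := h2 _ (Nat.le_succ _)
  generalize lvl M g s q = L at *
  obtain ⟨i, rfl⟩ := Nat.exists_eq_add_of_le h5
  have h8 : LR M g (s + 1) L = LR M g s L := by rw [LQ_succ, LQ_succ] at h6; omega
  rw [LQ_succ] at h1
  have h9 : i < LR M g s L := by omega
  have b1 := hM.Lv_lt hg s L
  have b2 := hM.Lv_lt hg (s + 1) L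
  rw [ex_eq M g s L h9, ← h7, ex_eq M g (s + 1) L (by omega), h8]
  refine wk_congr _ _ h9.le ?_
  rw [LV_succ, LV_succ, LQ_succ, h8, Nat.add_sub_add_left] at c
  rw [h8] at b2
  obtain ⟨k, hk⟩ := Nat.exists_eq_add_of_le h9.le
  rw [hk, Nat.add_sub_cancel_left] at c ⊢
  rw [hk] at b1 b2
  have key : ∀ V v : ℕ, v < 2 ^ (i + k) → (V * 2 ^ (i + k) + v) / 2 ^ k % 2 ^ i = v / 2 ^ k :=
    fun V v hv => by
      rw [pow_add, ← mul_assoc, add_comm, Nat.add_mul_div_right _ _ (by positivity),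
        Nat.add_mul_mod_self_right, Nat.mod_eq_of_lt]
      exact Nat.div_lt_of_lt_mul (by rwa [← pow_add, add_comm])
  rw [← key _ _ b1, ← key _ _ b2, c]

/-- The potential that counts the changes of the exponent of group `q`. -/
def pot (M : ℕ → Str → ℕ) (g q s : ℕ) : ℕ := Fq M (4 * q + 3) s * 2 ^ q + pre' M g s q

theorem Mass.pot_spec (hM : Mass M) (hg : 1 ≤ g) (q : ℕ) : Monotone (pot M g q) ∧
    (∀ s, pot M g q s ≤ 2 ^ (5 * q + 5)) ∧
    ∀ s, pot M g q (s + 1) = pot M g q s → expo M g (s + 1) q = expo M g s q := by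
  have key : ∀ s, Fq M (4 * q + 3) (s + 1) ≠ Fq M (4 * q + 3) s →
      pot M g q s < pot M g q (s + 1) := fun s c => by
    have h1 := Nat.mul_le_mul_right (2 ^ q)
      (Nat.succ_le_of_lt ((hM.Fq_mono (4 * q + 3) (Nat.le_succ s)).lt_of_ne c.symm))
    have h2 := hM.pre_lt hg s q
    rw [Nat.succ_mul, Nat.succ_eq_add_one] at h1
    rw [pot, pot]
    omega
  refine ⟨monotone_nat_of_le_succ fun s => ?_, fun s => ?_, fun s h => ?_⟩
  · by_cases c : Fq M (4 * q + 3) (s + 1) = Fq M (4 * q + 3) s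
    · rw [pot, pot, c]
      exact Nat.add_le_add_left (hM.pre_cmp hg c).1 _
    · exact (key s c).le
  · have h1 := Nat.mul_le_mul_right (2 ^ q) (hM.Fq_le (4 * q + 3) s)
    have h2 := hM.pre_lt hg s q
    have h3 : 2 ^ q ≤ 2 ^ (4 * q + 3 + 1) * 2 ^ q := Nat.le_mul_of_pos_left _ (by positivity)
    have h4 : 2 ^ (5 * q + 5) = 2 * (2 ^ (4 * q + 3 + 1) * 2 ^ q) := by ring
    rw [pot]
    omega
  · have c : Fq M (4 * q + 3) (s + 1) = Fq M (4 * q + 3) s := by
      by_contra c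
      have := key s c
      omega
    rw [pot, pot, c] at h
    exact (hM.pre_cmp hg c).2 (Nat.add_left_cancel h)

end Pool.Agent.Lib.MP_848037_lc
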