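import Pool.Agent.Lib.MP_848037_lc.ThinLevel

/-!
The limit of the construction, and the upper cone of a sequence on a thin tree.
-/

set_option autoImplicit false

namespace Pool.Agent.Lib.MP_848037_lc

open Finset Filter Pool.Agent.Shared.Type2

theorem ev_const {f : ℕ → ℕ} {B : ℕ} (h : ∀ᶠ s in atTop, f s ≤ f (s + 1) ∧ f s ≤ B) :
    ∀ᶠ s in atTop, f (s + 1) = f s := by
  obtain ⟨s₀, h⟩ := eventually_atTop.1 h
  have key : ∀ k s, s₀ ≤ s → B - f s ≤ k → ∃ t, ∀ u ≥ t, f (u + 1) = f u := by
    intro k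
    have mono : ∀ s t, s₀ ≤ s → s ≤ t → f s ≤ f t := fun s t a b => by
      induction t, b using Nat.le_induction with
      | base => exact le_rfl
      | succ t b ih => exact ih.trans (h t (a.trans b)).1
    induction k with
    | zero =>
      refine fun s a b => ⟨s, fun u hu => ?_⟩
      have := mono s u a hu
      have := h u (a.trans hu)
      have := h (u + 1) (by omega)
      omega
    | succ k ih =>
      intro s a b
      by_cases c : ∀ u ≥ s, f (u + 1) = f u
      · exact ⟨s, c⟩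
      · push Not at c
        obtain ⟨u, hu, c⟩ := c
        have := mono s u a hu
        have := h u (a.trans hu)
        exact ih (u + 1) (by omega) (by omega)
  exact eventually_atTop.2 (key _ s₀ le_rfl le_rfl)

theorem ev_lim {α : Type*} {f : ℕ → α} (h : ∀ᶠ s in atTop, f (s + 1) = f s) :
    ∃ x, ∀ᶠ s in atTop, f s = x := by
  obtain ⟨t, h⟩ := eventually_atTop.1 h
  refine ⟨f t, eventually_atTop.2 ⟨t, fun s hs => ?_⟩⟩
  induction s, hs using Nat.le_induction with
  | base => rfl
  | succ s hs ih => rw [h s hs, ih]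

variable {M : ℕ → Str → ℕ} {g : ℕ}

theorem Mass.lev_lim (hM : Mass M) (hg : 1 ≤ g) (l : ℕ) :
    ∃ x : List ℕ × List ℕ, ∀ᶠ s in atTop, (LA M g s l, LE M g s l) = x := by
  induction l with
  | zero => exact ⟨([], []), Eventually.of_forall fun _ => rfl⟩
  | succ l ih =>
    obtain ⟨x, hx⟩ := ih
    have h1 : ∀ᶠ s in atTop, Fq M (4 * x.2.length + 3) (s + 1) = Fq M (4 * x.2.length + 3) s :=
      ev_const (Eventually.of_forall fun s => ⟨hM.Fq_mono _ (Nat.le_succ s), hM.Fq_le _ s⟩)
    have h2 := (hx.and h1).mono fun s hs => hM.cmp hg hs.2 (l + 1) fun i hi => by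
      rw [← hs.1]
      exact (LQ_mono M g s).monotone (Nat.le_of_lt_succ hi)
    obtain ⟨Q, hQ⟩ := ev_lim (f := fun s => LQ M g s (l + 1)) (h2.mono fun s hs => hs.1)
    have h3 := ev_const (f := fun s => LV M g s (l + 1)) (B := 2 ^ Q)
      ((h2.and hQ).mono fun s hs => ⟨hs.1.2.2.1, hs.2 ▸ (hM.LV_lt hg s (l + 1)).le⟩)
    exact ev_lim ((h2.and h3).mono fun s hs => by rw [hs.1.2.1, hs.1.2.2.2 hs.2])

theorem Mass.limit (hM : Mass M) (hg : 1 ≤ g) : ∃ (E Q : ℕ → ℕ) (A : ℕ → List ℕ),
    StrictMono Q ∧ A 0 = [] ∧ (∀ l, A (l + 1) = g * Q l :: A l) ∧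
    (∀ q, ∀ᶠ s in atTop, expo M g s q = E q) ∧
    ∀ l, ∃ y : Str, y.length = g * Q l ∧ ∀ s n, 1 ≤ n → n ≤ g * Q l →
      2 ^ n * sym (M s) (A l) (y.take n) * 2 ^ E ((n - 1) / g) ≤ 2 ^ (9 + s) := by
  choose x hx using hM.lev_lim hg
  have hA : ∀ l, ∀ᶠ s in atTop, LA M g s l = (x l).1 := fun l =>
    (hx l).mono fun s hs => congrArg Prod.fst hs
  have hE : ∀ l, ∀ᶠ s in atTop, LE M g s l = (x l).2 := fun l =>
    (hx l).mono fun s hs => congrArg Prod.snd hs
  have h0 : ∀ q, ∀ᶠ s in atTop, expo M g s q = (x (q + 1)).2.getD q 0 := fun q =>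
    (hE (q + 1)).mono fun s hs => by rw [← hs]; rfl
  refine ⟨fun q => (x (q + 1)).2.getD q 0, fun l => (x l).2.length, fun l => (x l).1,
    strictMono_nat_of_lt_succ fun l => ?_, ?_, fun l => ?_, h0, fun l => ?_⟩
  · obtain ⟨s, h1, h2⟩ := ((hE l).and (hE (l + 1))).exists
    simp only [← h1, ← h2]
    exact LQ_mono M g s (Nat.lt_succ_self l)
  · obtain ⟨s, h1⟩ := (hA 0).exists
    exact h1.symm
  · obtain ⟨s, ⟨h1, h2⟩, h3⟩ := (((hA l).and (hA (l + 1))).and (hE l)).exists
    simp only [← h1, ← h2, ← h3]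
    rfl
  have anti : ∀ y s t, s ≤ t → okB g (M t) t l (x l).1 (x l).2 y = true →
      okB g (M s) s l (x l).1 (x l).2 y = true := fun y s t h => by
    induction t, h using Nat.le_induction with
    | base => exact id
    | succ t _ ih => exact fun c => ih (hM.okB_anti c)
  have h1 : ∃ y ∈ Om (g * (x l).2.length), ∀ s, okB g (M s) s l (x l).1 (x l).2 y = true := by
    by_contra c
    push Not at c
    have h2 : ∀ᶠ t in atTop, ∀ y ∈ Om (g * (x l).2.length),
        okB g (M t) t l (x l).1 (x l).2 y ≠ true := (eventually_all_finset _).2 fun y hy => by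
      obtain ⟨s, hs⟩ := c y hy
      exact eventually_atTop.2 ⟨s, fun t ht d => hs (anti y s t ht d)⟩
    obtain ⟨t, ⟨a1, a2⟩, a3⟩ := ((h2.and (hA l)).and (hE l)).exists
    have h3 := goodB_iff.1 (hM.good hg t l)
    rw [a2, a3, filter_false_of_mem a1] at h3
    simp at h3
  obtain ⟨y, hy, h2⟩ := h1
  refine ⟨y, mem_Om.1 hy, fun s n a1 a2 => ?_⟩
  have a2' : n ≤ g * (x l).2.length := a2
  have a3 : (n - 1) / g < (x l).2.length := Nat.div_lt_of_lt_mul (by omega)
  have a4 := (okB_iff.1 (h2 s)).1 _ a3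
  obtain ⟨t, b1, b2⟩ := ((hE l).and (h0 ((n - 1) / g))).exists
  have a5 := getD_LE M g t (l := l) (q := (n - 1) / g) (by rwa [LQ, b1])
  rw [b1, b2] at a5
  rw [a5] at a4
  refine le_trans (Nat.mul_le_mul_right _ ?_) a4
  have a6 := single_le_sum (f := fun j => 2 ^ (g * ((n - 1) / g) + j + 1) *
    sym (M s) (x l).1 (y.take (g * ((n - 1) / g) + j + 1))) (fun _ _ => Nat.zero_le _)
    (mem_range.2 (Nat.mod_lt (n - 1) hg))
  simp only [Nat.div_add_mod, Nat.sub_add_cancel a1] at a6
  exact a6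

variable {K : Str → ℕ}

theorem IsK.mass (hK : IsK K) : ∃ M : ℕ → Str → ℕ, Mass M ∧ (TD fun p : ℕ × Str => M p.1 p.2) ∧
    ∀ σ, ∀ᶠ s in atTop, 2 ^ s ≤ M s σ * 2 ^ K σ := by
  obtain ⟨k1, a1, a2, a3⟩ := re_approx hK.re
  refine ⟨fun s σ => if σ.length ≤ s then
    ∑ k ∈ range (s + 1), if k1 (σ, k) s = true then 2 ^ (s - k) else 0 else 0,
    ⟨fun s σ => ?_, fun s σ h => if_neg (by omega), fun s F => ?_⟩, by fun_prop, fun σ => ?_⟩
  · by_cases c : σ.length ≤ s
    · rw [if_pos c, if_pos (by omega), sum_range_succ _ (s + 1), mul_sum]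
      refine le_add_right (sum_le_sum fun k hk => ?_)
      have := mem_range.1 hk
      by_cases d : k1 (σ, k) s = true
      · rw [if_pos d, if_pos (a2 _ _ _ (Nat.le_succ s) d), ← pow_succ',
          show s - k + 1 = s + 1 - k by omega]
      · simp [d]
    · simp [c]
  · have h1 : ∀ σ, ((if σ.length ≤ s then ∑ k ∈ range (s + 1),
        if k1 (σ, k) s = true then 2 ^ (s - k) else 0 else 0 : ℕ) : ENNReal) ≤
        2 ^ (s + 1) * 2⁻¹ ^ K σ := fun σ => by
      split_ifs
      · have b1 : ∀ n, (∑ k ∈ range n, if K σ ≤ k then (2⁻¹ : ENNReal) ^ k else 0) +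
            (if K σ ≤ n then 2 * 2⁻¹ ^ n else 2 * 2⁻¹ ^ K σ) ≤ 2 * 2⁻¹ ^ K σ := fun n => by
          induction n with
          | zero =>
            by_cases d : K σ ≤ 0
            · rw [if_pos d, show K σ = 0 by omega]; simp
            · rw [if_neg d]; simp
          | succ n ih =>
            refine le_trans ?_ ih
            rw [sum_range_succ, add_assoc]
            gcongr
            by_cases d : K σ ≤ n
            · rw [if_pos d, if_pos d, if_pos (by omega), pow_succ', ← mul_assoc,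
                ENNReal.mul_inv_cancel (by simp) (by simp), one_mul, two_mul]
            · rw [if_neg d, if_neg d, zero_add]
              split_ifs with d'
              · rw [show K σ = n + 1 by omega]
              · exact le_rfl
        calc _ ≤ ∑ k ∈ range (s + 1), 2 ^ s * if K σ ≤ k then (2⁻¹ : ENNReal) ^ k else 0 := by
              push_cast
              refine sum_le_sum fun k hk => ?_
              split_ifs with d d'
              · obtain ⟨j, rfl⟩ := Nat.exists_eq_add_of_le (Nat.le_of_lt_succ (mem_range.1 hk))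
                rw [Nat.add_sub_cancel_left, pow_add, mul_right_comm, ← mul_pow,
                  ENNReal.mul_inv_cancel (by simp) (by simp), one_pow, one_mul]
              · exact absurd ((a3 (σ, k)).2 ⟨s, d⟩) d'
              · exact zero_le
              · exact zero_le
          _ ≤ _ := by
              rw [← mul_sum, pow_succ, mul_assoc]
              gcongr
              exact le_trans le_self_add (b1 _)
      · simp
    have h2 : ((∑ σ ∈ F, if σ.length ≤ s then ∑ k ∈ range (s + 1),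
        if k1 (σ, k) s = true then 2 ^ (s - k) else 0 else 0 : ℕ) : ENNReal) ≤ 2 ^ (s + 1) := by
      rw [Nat.cast_sum]
      refine (sum_le_sum fun σ _ => h1 σ).trans ?_
      rw [← mul_sum]
      exact mul_le_of_le_one_right' ((ENNReal.sum_le_tsum F).trans hK.kraft)
    exact_mod_cast h2
  · obtain ⟨t, ht⟩ := (a3 (σ, K σ)).1 le_rfl
    refine eventually_atTop.2 ⟨max t (max σ.length (K σ)), fun s hs => ?_⟩
    simp only [max_le_iff] at hs
    dsimp only
    rw [if_pos hs.2.1]
    refine le_trans ?_ (Nat.mul_le_mul_right _ (single_le_sum (fun _ _ => Nat.zero_le _)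
      (mem_range.2 (Nat.lt_succ_of_le hs.2.2))))
    rw [if_pos (a2 _ _ _ hs.1 ht), ← pow_add, Nat.sub_add_cancel hs.2.2]

theorem uncount_flip (a : ℕ → ℕ) (ha : ∀ i, i ≤ a i) (G : Str → Prop)
    (h1 : ∀ N, ∃ y : Str, N ≤ y.length ∧ G y) (h2 : ∀ i y, G y → G (flp (a i) y))
    (Z : Set (ℕ → Bool)) (hZ : ∀ z, (∀ n, ∃ y, xs z n <+: y ∧ G y) → z ∈ Z) : ¬ Z.Countable := by
  let P : Str → Prop := fun τ => ∀ N, ∃ y : Str, τ <+: y ∧ N ≤ y.length ∧ G y
  have s1 : ∀ τ, P τ → ∃ b, P (τ ++ [b]) := fun τ h => by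
    by_contra c
    simp only [P, not_exists, not_forall, not_and] at c
    choose N hN using c
    obtain ⟨y, ⟨u, rfl⟩, b1, b2⟩ := h (max (N false) (N true) + τ.length + 1)
    rcases u with _ | ⟨b, u⟩
    · simp at b1
    · refine hN b _ ⟨u, by simp⟩ (le_trans ?_ b1) b2
      cases b <;> omega
  have s2 : ∀ τ, P τ → ∀ k, ∃ u : Str, u.length = k ∧ P (τ ++ u) := fun τ h k => by
    induction k with
    | zero => exact ⟨[], rfl, by simpa using h⟩
    | succ k ih =>
      obtain ⟨u, b1, b2⟩ := ih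
      obtain ⟨b, b3⟩ := s1 _ b2
      exact ⟨u ++ [b], by simp [b1], by rwa [← List.append_assoc]⟩
  refine uncount P (fun N => by simpa using h1 N) (fun τ h => ?_) Z fun z hz => hZ z fun n => ?_
  · have b0 := ha τ.length
    obtain ⟨u, b1, b2⟩ := s2 τ h (a τ.length + 1 - τ.length)
    have b3 : τ ++ (flp (a τ.length) (τ ++ u)).drop τ.length = flp (a τ.length) (τ ++ u) := by
      conv_rhs => rw [← List.take_append_drop τ.length (flp _ _), take_flp, List.take_left,
        flp_of_le b0]
    have b4 : u ≠ (flp (a τ.length) (τ ++ u)).drop τ.length := fun e =>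
      flp_ne (σ := τ ++ u) (a := a τ.length) (by simp; omega) (by rw [← b3, ← e])
    refine ⟨u, _, b2, ?_, fun c => b4 (c.eq_of_length (by simp)),
      fun c => b4 (c.eq_of_length (by simp)).symm⟩
    rw [b3]
    intro N
    obtain ⟨y, c1, c2, c3⟩ := b2 N
    refine ⟨flp (a τ.length) y, ?_, by simpa using c2, h2 _ _ c3⟩
    rw [List.prefix_iff_eq_take] at c1 ⊢
    rw [length_flp, take_flp, ← c1]
  · obtain ⟨m, b1, b2⟩ := hz n
    obtain ⟨y, c1, -, c3⟩ := b2 0
    exact ⟨y, (xs_pre z b1).trans c1, c3⟩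

theorem IsK.thin_cone (hK : IsK K) {T : ℕ → Str → Bool} (hT : Once T)
    (hTc : TD fun p : ℕ × Str => T p.1 p.2) {d c : ℕ} (hd : 1 ≤ d)
    (hw : ∀ s n, ((Om n).filter fun τ => T s τ = true).card ≤ 2 ^ (n - n / d + c))
    (x : ℕ → Bool) (hx : ∀ n, ∀ᶠ s in atTop, T s (xs x n) = true) :
    ¬ {z : ℕ → Bool | ∃ c, ∀ n, K (xs x n) ≤ K (xs z n) + c}.Countable ∧
      ¬ ∃ C, ∀ N, ∃ n ≥ N, K (List.replicate n false) + n ≤ K (xs x n) + C := by
  obtain ⟨M, hM, hMc, hMK⟩ := hK.mass
  obtain ⟨g, hgd⟩ : ∃ g, g = 6 * d := ⟨_, rfl⟩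
  have hg : 1 ≤ g := by omega
  obtain ⟨E, Q, A, hQ, A0, A1, hE, hy⟩ := hM.limit hg
  have half : ∀ a b : ℕ, (2⁻¹ : ENNReal) ^ (a + b) * 2 ^ b = 2⁻¹ ^ a := fun a b => by
    rw [pow_add, mul_assoc, ← mul_pow, ENNReal.inv_mul_cancel (by simp) (by simp), one_pow, mul_one]
  have grp : ∀ (F : ℕ → ENNReal) (N : ℕ), ∑ n ∈ range N, F ((n - 1) / g) ≤
      F 0 + g * ∑ q ∈ range N, F q := fun F N => by
    have h1 : ∑ n ∈ range (g * N), F (n / g) = g * ∑ q ∈ range N, F q := by
      induction N with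
      | zero => simp
      | succ N ih =>
        have h2 : ∑ j ∈ range g, F ((g * N + j) / g) = g * F N := by
          rw [sum_congr rfl (g := fun _ => F N) fun j hj => by
            rw [Nat.mul_add_div hg, Nat.div_eq_of_lt (mem_range.1 hj), add_zero]]
          simp
        rw [mul_add, mul_one, sum_range_add, ih, h2, sum_range_succ, mul_add]
    refine (sum_le_sum_of_subset (range_mono (show N ≤ g * N + 1 from
      (Nat.le_mul_of_pos_left N hg).trans (Nat.le_succ _)))).trans ?_
    rw [sum_range_succ', ← h1, add_comm]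
    simp
  have big : ∀ b : ℕ, (2 : ENNReal) ^ b + g * (2 ^ b * 2) ≤ 2 ^ (b + g + 2) := fun b => by
    have h1 : 1 + g * 2 ≤ 2 ^ (g + 2) := by
      have := Nat.lt_two_pow_self (n := g)
      rw [pow_add]; omega
    have h2 : 2 ^ b + g * (2 ^ b * 2) ≤ 2 ^ (b + g + 2) := by
      rw [add_assoc, pow_add]; nlinarith [Nat.zero_le (2 ^ b)]
    exact_mod_cast h2
  obtain ⟨c₁, hc₁⟩ := hK.thin hT hTc (fun s n => expo M g s ((n - 1) / g))
    ((td_ex hMc g).comp' (f := fun p : ℕ × ℕ => (p.1, (p.2 - 1) / g)) (by fun_prop))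
    (fun n => 2 ^ (n - n / d + c)) (fun n => 2 ^ (5 * ((n - 1) / g) + 5))
    (fun n => pot M g ((n - 1) / g)) hw (fun n => (hM.pot_spec hg _).1)
    (fun n => (hM.pot_spec hg _).2.1) (fun n => (hM.pot_spec hg _).2.2) (c + 5 + g + 2)
    (fun s N => by
      refine (grp (fun q => 2⁻¹ ^ expo M g s q) N).trans (le_trans ?_ (big (c + 5)))
      have h1 : (1 : ENNReal) ≤ 2 ^ (c + 5) := one_le_pow₀ (by simp)
      refine add_le_add ((pow_le_one₀ (by simp) (by simp)).trans h1) ?_
      gcongr
      exact (hM.sum_ex hg s N).trans (le_mul_of_one_le_left' h1))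
    (ENNReal.tsum_le_of_sum_range_le fun N => by
      refine le_trans (sum_le_sum fun n _ => ?_) ((grp (fun q => 2 ^ (c + 5) * 2⁻¹ ^ q) N).trans
        (le_trans ?_ (big (c + 5))))
      · have h1 : 6 * ((n - 1) / g) ≤ n / d := by
          rw [Nat.le_div_iff_mul_le hd]
          have := Nat.mul_div_le (n - 1) g
          rw [hgd] at this ⊢
          calc _ = 6 * d * ((n - 1) / (6 * d)) := by ring
            _ ≤ n := by omega
        have h2 := Nat.div_le_self n d
        generalize (n - 1) / g = q at *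
        obtain ⟨r, hr⟩ : ∃ r, n = q + r := ⟨n - q, by omega⟩
        push_cast
        rw [← pow_add, ← half q r, ← hr, mul_left_comm, ← pow_add]
        exact mul_le_mul_right (pow_le_pow_right₀ (by simp) (by omega)) _
      · rw [pow_zero, mul_one, ← mul_sum]
        gcongr
        refine (ENNReal.sum_le_tsum _).trans (le_of_eq ?_)
        rw [ENNReal.tsum_geometric, ENNReal.one_sub_inv_two, inv_inv])
  have up : ∀ n, K (xs x n) ≤ n + E ((n - 1) / g) + c₁ := fun n => by
    obtain ⟨s, h1, h2⟩ := ((hx n).and (hE ((n - 1) / g))).exists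
    simpa [h2] using hc₁ s _ h1
  have memA : ∀ l i, i < l → g * Q i ∈ A l := fun l => by
    induction l with
    | zero => omega
    | succ l ih =>
      intro i hi
      rw [A1]
      rcases Nat.lt_succ_iff_lt_or_eq.1 hi with c | rfl
      · exact List.mem_cons_of_mem _ (ih i c)
      · exact List.mem_cons_self
  have len : ∀ l, l ≤ g * Q l := fun l => hQ.le_apply.trans (Nat.le_mul_of_pos_left _ hg)
  constructor
  · refine uncount_flip (fun i => g * Q i) len (fun y => ∀ S : List ℕ, (∀ a ∈ S, ∃ i, a = g * Q i) →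
      ∀ n, 1 ≤ n → n ≤ y.length → E ((n - 1) / g) + n ≤ K ((S.foldr flp y).take n) + 9)
      (fun N => ?_) (fun i y h S hS n h1 h2 => ?_) _ fun z hz => ⟨9 + c₁, fun n => ?_⟩
    · obtain ⟨y, h1, h2⟩ := hy N
      refine ⟨y, h1 ▸ len N, fun S hS n h3 h4 => ?_⟩
      have h5 : (S.foldr flp y).take n ∈ vars (A N) (y.take n) := by
        induction S with
        | nil => exact self_mem_vars _ _
        | cons a S ih =>
          rw [List.foldr_cons, take_flp]
          refine flp_mem_vars ?_ (ih fun b hb => hS b (List.mem_cons_of_mem _ hb))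
          obtain ⟨i, rfl⟩ := hS a List.mem_cons_self
          rcases lt_or_ge i N with c | c
          · exact Or.inl (memA N i c)
          · have := Nat.mul_le_mul_left g (hQ.monotone c)
            exact Or.inr (by rw [List.length_take]; omega)
      obtain ⟨s, h6⟩ := (hMK ((S.foldr flp y).take n)).exists
      have h7 := h2 s n h3 (by omega)
      have h8 := le_sym (f := M s) h5
      have h9 : 2 ^ (E ((n - 1) / g) + n + s) ≤ 2 ^ (K ((S.foldr flp y).take n) + 9 + s) :=
        calc _ = 2 ^ n * 2 ^ s * 2 ^ E ((n - 1) / g) := by ring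
          _ ≤ 2 ^ n * (sym (M s) (A N) (y.take n) * 2 ^ K ((S.foldr flp y).take n)) *
              2 ^ E ((n - 1) / g) := by gcongr; exact h6.trans (by gcongr)
          _ = 2 ^ n * sym (M s) (A N) (y.take n) * 2 ^ E ((n - 1) / g) *
              2 ^ K ((S.foldr flp y).take n) := by ring
          _ ≤ 2 ^ (9 + s) * 2 ^ K ((S.foldr flp y).take n) := by gcongr
          _ = _ := by ring
      have := (Nat.pow_le_pow_iff_right (by norm_num)).1 h9
      omega
    · have := h (S ++ [g * Q i]) (fun a ha => by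
        rcases List.mem_append.1 ha with c | c
        · exact hS a c
        · exact ⟨i, List.mem_singleton.1 c⟩) n h1 (by simpa using h2)
      simpa using this
    · rcases Nat.eq_zero_or_pos n with rfl | h0
      · exact Nat.le_add_right _ _
      obtain ⟨y, h1, h2⟩ := hz n
      have h3 := h2 [] (by simp) n h0 (by simpa using h1.length_le)
      rw [List.prefix_iff_eq_take, length_xs] at h1
      rw [List.foldr_nil, ← h1] at h3
      have := up n
      omega
  · rintro ⟨C, hC⟩
    obtain ⟨c₂, hc₂⟩ := hK.ext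
    obtain ⟨n, h1, h2⟩ := hC (g * Q (C + c₁ + c₂ + K [] + 10) + 1)
    generalize hj : C + c₁ + c₂ + K [] + 10 = j at h1
    have cnt : ∀ l i, i ≤ l → i ≤ j → i ≤ (A l).countP fun a => decide (a < n) := fun l => by
      induction l with
      | zero => omega
      | succ l ih =>
        intro i a1 a2
        rw [A1, List.countP_cons]
        rcases a1.lt_or_eq with c | rfl
        · have := ih i (by omega) a2
          omega
        · have := ih l le_rfl (by omega)
          have := Nat.mul_le_mul_left g (hQ.monotone (show l ≤ j by omega))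
          rw [if_pos (decide_eq_true (by omega))]
          omega
    have h3 := len j
    have h4 := len n
    obtain ⟨y, h5, h6⟩ := hy n
    obtain ⟨s, h7⟩ := ((eventually_all_finset (Om n)).2 fun ρ _ => hMK ρ).exists
    obtain ⟨B, hB⟩ : ∃ B, B = K [] + n + K (List.replicate n false) + c₂ := ⟨_, rfl⟩
    have h8 : (y.take n).length = n := by rw [List.length_take]; omega
    have h9 := sym_mono (f := fun _ => 2 ^ s) (f' := fun ρ => 2 ^ B * M s ρ) (c := 1) (A n)
      (y.take n) fun ρ e => by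
        rw [h8] at e
        have a1 := hc₂ [] ρ
        simp only [List.nil_append, List.length_nil, zero_add, e] at a1
        rw [one_mul, mul_comm]
        exact (h7 ρ (mem_Om.2 e)).trans (Nat.mul_le_mul_left _
          (Nat.pow_le_pow_right (by norm_num) (by omega)))
    rw [one_mul, sym_const, h8, sym, List.sum_map_mul_left] at h9
    have h10 := h6 s n (by omega) h4
    have h11 : 2 ^ (n + j + E ((n - 1) / g) + s) ≤ 2 ^ (B + 9 + s) :=
      calc _ = 2 ^ n * (2 ^ j * 2 ^ s) * 2 ^ E ((n - 1) / g) := by ring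
        _ ≤ 2 ^ n * (2 ^ B * sym (M s) (A n) (y.take n)) * 2 ^ E ((n - 1) / g) := by
            exact Nat.mul_le_mul_right _ (Nat.mul_le_mul_left _ (le_trans (Nat.mul_le_mul_right _
              (Nat.pow_le_pow_right (by norm_num) (cnt n j (by omega) le_rfl))) h9))
        _ = 2 ^ B * (2 ^ n * sym (M s) (A n) (y.take n) * 2 ^ E ((n - 1) / g)) := by ring
        _ ≤ 2 ^ B * 2 ^ (9 + s) := by gcongr
        _ = _ := by ring
    have := (Nat.pow_le_pow_iff_right (by norm_num)).1 h11
    have := up n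
    omega

end Pool.Agent.Lib.MP_848037_lc
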