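import Pool.Agent.Lib.MP_848037_lc.ThinCost

/-!
Stage masses, bit flips, symmetrised masses and the walks that code bound vectors.
-/

set_option autoImplicit false

namespace Pool.Agent.Lib.MP_848037_lc

open Finset Pool.Agent.Shared.Type2

section td

variable {X : Type} [Rep X]

theorem td_lsum {l : X → List ℕ} (hl : TD l) : TD fun x => (l x).sum := by
  have h1 : TD fun x => (l x).foldr (fun a b => a + b) 0 := by fun_prop
  exact h1.of_eq fun x => by
    induction l x with
    | nil => rfl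
    | cons a t ih => simp [ih]

@[fun_prop] theorem td_sum_range {n : X → ℕ} {f : X → ℕ → ℕ} (hn : TD n)
    (hf : TD fun p : X × ℕ => f p.1 p.2) : TD fun x => ∑ i ∈ range (n x), f x i :=
  (td_lsum (TD.map hn.range hf)).of_eq fun x => by
    induction n x with
    | zero => rfl
    | succ m ih => rw [List.range_succ, List.map_append, List.sum_append, ih, sum_range_succ]; simp

@[fun_prop] theorem td_sum_Om {n : X → ℕ} {f : X → Str → ℕ} (hn : TD n)
    (hf : TD fun p : X × Str => f p.1 p.2) : TD fun x => ∑ σ ∈ Om (n x), f x σ :=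
  (td_lsum (TD.map (td_allS hn) hf)).of_eq fun x => by
    rw [Om, List.sum_toFinset _ (nodup_allS _)]

end td

/-- Flip the bit at position `a`. -/
def flp (a : ℕ) (σ : Str) : Str :=
  (List.range σ.length).map fun i => xor (σ.getD i false) (decide (i = a))

@[simp] theorem length_flp (a : ℕ) (σ : Str) : (flp a σ).length = σ.length := by simp [flp]

theorem getElem_flp (a : ℕ) (σ : Str) (i : ℕ) (h : i < (flp a σ).length) :
    (flp a σ)[i] = xor (σ[i]'(by simpa using h)) (decide (i = a)) := by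
  have h' : i < σ.length := by simpa using h
  simp [flp, List.getElem?_eq_getElem h']

@[simp] theorem flp_flp (a : ℕ) (σ : Str) : flp a (flp a σ) = σ :=
  List.ext_getElem (by simp) fun i _ _ => by simp [getElem_flp]

theorem flp_comm (a b : ℕ) (σ : Str) : flp a (flp b σ) = flp b (flp a σ) :=
  List.ext_getElem (by simp) fun i _ _ => by
    simp only [getElem_flp, Bool.xor_assoc]
    rw [Bool.xor_comm (decide (i = b))]

theorem flp_of_le {a : ℕ} {σ : Str} (h : σ.length ≤ a) : flp a σ = σ :=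
  List.ext_getElem (by simp) fun i _ _ => by
    rw [getElem_flp, decide_eq_false (by omega)]; simp

theorem take_flp (a n : ℕ) (σ : Str) : (flp a σ).take n = flp a (σ.take n) :=
  List.ext_getElem (by simp) fun i _ _ => by simp [getElem_flp]

theorem flp_ne {a : ℕ} {σ : Str} (h : a < σ.length) : flp a σ ≠ σ := fun e => by
  have h1 := getElem_flp a σ a (by simpa using h)
  simp only [e, decide_true, Bool.xor_true] at h1
  cases h2 : σ[a] <;> simp [h2] at h1

@[fun_prop] theorem td_flp {X : Type} [Rep X] {f : X → ℕ} {g : X → Str} (hf : TD f) (hg : TD g) :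
    TD fun x => flp (f x) (g x) := by
  unfold flp; fun_prop

theorem sum_flp (a n : ℕ) (f : Str → ℕ) : ∑ σ ∈ Om n, f (flp a σ) = ∑ σ ∈ Om n, f σ :=
  sum_nbij' (flp a) (flp a) (by simp) (by simp) (by simp) (by simp) (by simp)

/-- All strings obtained from `σ` by flipping some of the positions in `A`. -/
def vars (A : List ℕ) (σ : Str) : List Str :=
  A.foldr (fun a L => if a < σ.length then L ++ L.map (flp a) else L) [σ]

theorem vars_cons (a : ℕ) (A : List ℕ) (σ : Str) : vars (a :: A) σ =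
    if a < σ.length then vars A σ ++ (vars A σ).map (flp a) else vars A σ := rfl

theorem length_of_mem_vars {A : List ℕ} {σ ρ : Str} (h : ρ ∈ vars A σ) : ρ.length = σ.length := by
  induction A generalizing ρ with
  | nil => simp_all [vars]
  | cons a A ih =>
    rw [vars_cons] at h
    split_ifs at h
    · rcases List.mem_append.1 h with h | h
      · exact ih h
      · obtain ⟨ρ', h', rfl⟩ := List.mem_map.1 h
        simpa using ih h'
    · exact ih h

theorem self_mem_vars (A : List ℕ) (σ : Str) : σ ∈ vars A σ := by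
  induction A with
  | nil => simp [vars]
  | cons a A ih => rw [vars_cons]; split_ifs <;> simp [ih]

theorem flp_mem_vars {A : List ℕ} {σ ρ : Str} {a : ℕ} (ha : a ∈ A ∨ σ.length ≤ a)
    (h : ρ ∈ vars A σ) : flp a ρ ∈ vars A σ := by
  by_cases c : σ.length ≤ a
  · rwa [flp_of_le (by rwa [length_of_mem_vars h])]
  replace ha := ha.resolve_right c
  induction A generalizing ρ with
  | nil => simp at ha
  | cons b A ih =>
    rw [vars_cons] at h ⊢
    rcases List.mem_cons.1 ha with rfl | ha
    · rw [if_pos (by omega)] at h ⊢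
      rcases List.mem_append.1 h with h | h
      · exact List.mem_append_right _ (List.mem_map_of_mem h)
      · obtain ⟨ρ', h', rfl⟩ := List.mem_map.1 h
        exact List.mem_append_left _ (by simpa using h')
    · split_ifs at h ⊢
      · rcases List.mem_append.1 h with h | h
        · exact List.mem_append_left _ (ih h ha)
        · obtain ⟨ρ', h', rfl⟩ := List.mem_map.1 h
          rw [flp_comm]
          exact List.mem_append_right _ (List.mem_map_of_mem (ih h' ha))
      · exact ih h ha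

theorem length_vars (A : List ℕ) (σ : Str) :
    (vars A σ).length = 2 ^ A.countP fun a => decide (a < σ.length) := by
  induction A with
  | nil => rfl
  | cons a A ih =>
    rw [vars_cons, List.countP_cons]
    split_ifs with h h' h'
    · simp [ih, pow_succ]; omega
    · simp [h] at h'
    · simp [h] at h'
    · simp [ih]

/-- The symmetrised mass. -/
def sym (f : Str → ℕ) (A : List ℕ) (σ : Str) : ℕ := ((vars A σ).map f).sum

theorem sym_cons (f : Str → ℕ) (a : ℕ) (A : List ℕ) (σ : Str) : sym f (a :: A) σ =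
    if a < σ.length then sym f A σ + sym (fun ρ => f (flp a ρ)) A σ else sym f A σ := by
  rw [sym, vars_cons]
  split_ifs
  · simp [sym, Function.comp_def]
  · rfl

theorem sum_sym (A : List ℕ) (n : ℕ) (f : Str → ℕ) :
    ∑ σ ∈ Om n, sym f A σ ≤ 2 ^ A.length * ∑ σ ∈ Om n, f σ := by
  induction A generalizing f with
  | nil => simp [sym, vars]
  | cons a A ih =>
    calc _ ≤ ∑ σ ∈ Om n, (sym f A σ + sym (fun ρ => f (flp a ρ)) A σ) :=
          sum_le_sum fun σ _ => by rw [sym_cons]; split_ifs <;> omega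
      _ ≤ _ := by
          rw [sum_add_distrib]
          have h1 := ih f
          have h2 := ih fun ρ => f (flp a ρ)
          rw [sum_flp] at h2
          rw [List.length_cons, pow_succ]
          linarith

theorem le_sym {f : Str → ℕ} {A : List ℕ} {σ ρ : Str} (h : ρ ∈ vars A σ) : f ρ ≤ sym f A σ :=
  List.single_le_sum (by simp) _ (List.mem_map_of_mem h)

theorem sym_mono {f f' : Str → ℕ} {c : ℕ} (A : List ℕ) (σ : Str)
    (h : ∀ ρ : Str, ρ.length = σ.length → c * f ρ ≤ f' ρ) : c * sym f A σ ≤ sym f' A σ := by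
  rw [sym, sym, ← List.sum_map_mul_left]
  exact List.sum_le_sum fun ρ hρ => h ρ (length_of_mem_vars hρ)

theorem sym_const (c : ℕ) (A : List ℕ) (σ : Str) :
    sym (fun _ => c) A σ = 2 ^ (A.countP fun a => decide (a < σ.length)) * c := by
  simp [sym, length_vars]

@[fun_prop] theorem td_sym {X : Type} [Rep X] {f : X → Str → ℕ} {A : X → List ℕ} {g : X → Str}
    (hf : TD fun p : X × Str => f p.1 p.2) (hA : TD A) (hg : TD g) :
    TD fun x => sym (f x) (A x) (g x) := by
  have h1 : TD fun x => vars (A x) (g x) := by unfold vars; fun_prop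
  exact td_lsum (TD.map h1 hf)

/-- A walk with steps `±1` read off the `R` binary digits of `v`. -/
def wk (e R v i : ℕ) : ℕ := nrec i e fun j a => if v / 2 ^ (R - 1 - j) % 2 = 1 then a + 1 else a - 1

theorem wk_succ (e R v i : ℕ) : wk e R v (i + 1) =
    if v / 2 ^ (R - 1 - i) % 2 = 1 then wk e R v i + 1 else wk e R v i - 1 := rfl

theorem wk_le (e R v i : ℕ) : wk e R v i ≤ e + i := by
  induction i with
  | zero => exact le_rfl
  | succ i ih => rw [wk_succ]; split_ifs <;> omega

theorem wk_congr (e R : ℕ) {v v' i : ℕ} (hi : i ≤ R) (h : v / 2 ^ (R - i) = v' / 2 ^ (R - i)) :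
    wk e R v i = wk e R v' i := by
  have key : ∀ j ≤ i, wk e R v j = wk e R v' j := by
    intro j hj
    induction j with
    | zero => rfl
    | succ j ih =>
      have h1 : ∀ u : ℕ, u / 2 ^ (R - 1 - j) = u / 2 ^ (R - i) / 2 ^ (i - 1 - j) := fun u => by
        rw [Nat.div_div_eq_div_mul, ← pow_add]
        congr 2
        omega
      rw [wk_succ, wk_succ, ih (by omega), h1 v, h1 v', h]
  exact key i le_rfl

theorem exists_digits (b : ℕ → Prop) (R : ℕ) :
    ∃ v < 2 ^ R, ∀ j < R, (v / 2 ^ (R - 1 - j) % 2 = 1 ↔ b j) := by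
  classical
  induction R with
  | zero => exact ⟨0, by simp, by simp⟩
  | succ R ih =>
    obtain ⟨v, h1, h2⟩ := ih
    refine ⟨2 * v + if b R then 1 else 0, by rw [pow_succ]; split_ifs <;> omega, fun j hj => ?_⟩
    rcases Nat.lt_succ_iff_lt_or_eq.1 hj with c | rfl
    · rw [← h2 j c, show R + 1 - 1 - j = 1 + (R - 1 - j) by omega, pow_add,
        ← Nat.div_div_eq_div_mul]
      have : (2 * v + if b R then 1 else 0) / 2 ^ 1 = v := by split_ifs <;> omega
      rw [this]
    · simp only [Nat.add_sub_cancel, Nat.sub_self, pow_zero, Nat.div_one]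
      split_ifs with d
      · simp only [d, iff_true]; omega
      · simp only [d, iff_false]; omega

/-- The walk keeps to its budget. -/
def bud (l R v : ℕ) : Bool :=
  decide (∑ i ∈ range R, 2 ^ (l + 4 + R - wk (l + 4) R v i) ≤ 2 ^ (4 + R))

theorem exists_walk (D : ℕ → ℕ) (l R s : ℕ) (h : (∑ i ∈ range R, D i) * 2 ^ l ≤ 2 ^ (4 + s)) :
    ∃ v < 2 ^ R, bud l R v = true ∧ ∀ i < R, D i * 2 ^ wk (l + 4) R v i ≤ 2 ^ (9 + s) := by
  classical
  obtain ⟨d, dd⟩ : ∃ d : ℕ → ℝ, ∀ i, d i = D i / 2 ^ (9 + s) := ⟨_, fun _ => rfl⟩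
  have d0 : ∀ i, 0 ≤ d i := fun i => by rw [dd]; positivity
  have hd : ∑ i ∈ range R, d i ≤ (1 / 2) ^ (l + 5) := by
    have h1 : ((∑ i ∈ range R, D i : ℕ) : ℝ) * 2 ^ l ≤ 2 ^ (4 + s) := by exact_mod_cast h
    simp only [dd]
    rw [← sum_div, div_le_iff₀ (by positivity), one_div, inv_pow, inv_mul_eq_div,
      le_div_iff₀ (by positivity)]
    push_cast at h1
    calc _ = (∑ i ∈ range R, (D i : ℝ)) * 2 ^ l * 2 ^ 5 := by ring
      _ ≤ 2 ^ (4 + s) * 2 ^ 5 := by gcongr
      _ = _ := by ring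
  obtain ⟨τ, τ0, τ1⟩ : ∃ τ : ℕ → ℝ, τ 0 = 0 ∧ ∀ k, τ (k + 1) = d (R - 1 - k) + τ k / 2 :=
    ⟨fun k => nrec k 0 fun k a => d (R - 1 - k) + a / 2, rfl, fun _ => rfl⟩
  obtain ⟨t, tt⟩ : ∃ t : ℕ → ℝ, ∀ i, t i = τ (R - i) := ⟨_, fun _ => rfl⟩
  have t0 : ∀ i, 0 ≤ t i := fun i => by
    rw [tt]
    induction R - i with
    | zero => exact τ0.ge
    | succ k ih => rw [τ1]; exact add_nonneg (d0 _) (by positivity)
  have t1 : ∀ i < R, t i = d i + t (i + 1) / 2 := fun i hi => by
    rw [tt, tt, show R - i = R - (i + 1) + 1 by omega, τ1,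
      show R - 1 - (R - (i + 1)) = i by omega]
  have tR : ∀ i, R ≤ i → t i = 0 := fun i hi => by rw [tt, Nat.sub_eq_zero_of_le hi, τ0]
  have t2 : ∑ i ∈ range R, t (i + 1) ≤ ∑ i ∈ range R, t i := by
    have := sum_range_succ' t R
    rw [sum_range_succ, tR R le_rfl] at this
    linarith [t0 0]
  have t3 : ∑ i ∈ range R, t i ≤ 2 * (1 / 2) ^ (l + 5) := by
    have := sum_congr rfl fun i (hi : i ∈ range R) => t1 i (mem_range.1 hi)
    rw [sum_add_distrib, ← sum_div] at this
    linarith
  have t4 : ∀ i, t i ≤ (1 / 2) ^ (l + 4) := fun i => by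
    rcases lt_or_ge i R with c | c
    · have := single_le_sum (f := t) (fun j _ => t0 j) (mem_range.2 c)
      rw [pow_succ] at t3
      linarith
    · rw [tR i c]; positivity
  have hrec : ∀ G : ℕ → ℕ → ℕ, ∃ e : ℕ → ℕ, e 0 = l + 4 ∧ ∀ i, e (i + 1) = G i (e i) :=
    fun G => ⟨fun i => nrec i (l + 4) G, rfl, fun _ => rfl⟩
  obtain ⟨e, e0, e1⟩ := hrec fun j a =>
    if t (j + 1) ≤ (1 / 2 : ℝ) ^ (a + 1) then a + 1 else a - 1
  obtain ⟨v, hv, hb⟩ := exists_digits (fun j => t (j + 1) ≤ (1 / 2) ^ (e j + 1)) R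
  have e2 : ∀ i ≤ R, wk (l + 4) R v i = e i := fun i hi => by
    induction i with
    | zero => exact e0.symm
    | succ i ih => rw [wk_succ, e1, ih (by omega)]; simp only [hb i (by omega)]
  have e3 : ∀ i, ¬ t (i + 1) ≤ (1 / 2) ^ (e i + 1) →
      (1 / 2 : ℝ) ^ (e i - 1) = 2 * (1 / 2) ^ e i := fun i c => by
    rcases Nat.eq_zero_or_pos (e i) with z | z
    · exfalso
      refine c ((t4 _).trans ?_)
      rw [z]
      exact pow_le_pow_of_le_one (by norm_num) (by norm_num) (by omega)
    · obtain ⟨k, hk⟩ : ∃ k, e i = k + 1 := ⟨e i - 1, by omega⟩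
      rw [hk, pow_succ, Nat.add_sub_cancel]; ring
  have e4 : ∀ i ≤ R, t i ≤ (1 / 2) ^ e i := fun i hi => by
    induction i with
    | zero => rw [e0]; exact t4 0
    | succ i ih =>
      rw [e1]
      split_ifs with c
      · exact c
      · rw [e3 i c]
        have := t1 i (by omega)
        linarith [ih (by omega), d0 i]
  have e5 : ∀ i, (1 / 2 : ℝ) ^ e (i + 1) ≤ (1 / 2) ^ e i / 2 + 4 * t (i + 1) := fun i => by
    rw [e1]
    split_ifs with c
    · rw [pow_succ]; linarith [t0 (i + 1)]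
    · rw [e3 i c]
      rw [pow_succ] at c
      have : (0 : ℝ) ≤ (1 / 2) ^ e i := by positivity
      linarith
  have e6 : ∑ i ∈ range R, (1 / 2 : ℝ) ^ e i ≤ (1 / 2) ^ l := by
    have h1 := sum_le_sum fun i (_ : i ∈ range R) => e5 i
    rw [sum_add_distrib, ← sum_div, ← mul_sum] at h1
    have h2 := sum_range_succ' (fun i => (1 / 2 : ℝ) ^ e i) R
    rw [sum_range_succ] at h2
    have h3 : (0 : ℝ) ≤ (1 / 2) ^ e R := by positivity
    have h4 : (1 / 2 : ℝ) ^ e 0 = (1 / 2) ^ l / 16 := by
      rw [e0, pow_add]; ring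
    have h5 : (1 / 2 : ℝ) ^ (l + 5) = (1 / 2) ^ l / 32 := by rw [pow_add]; ring
    have h6 : (0 : ℝ) ≤ (1 / 2) ^ l := by positivity
    linarith
  refine ⟨v, hv, decide_eq_true ?_, fun i hi => ?_⟩
  · have h1 : ∑ i ∈ range R, (2 : ℝ) ^ (l + 4 + R - wk (l + 4) R v i) ≤ 2 ^ (4 + R) := by
      calc _ = ∑ i ∈ range R, (2 : ℝ) ^ (l + 4 + R) * (1 / 2) ^ e i :=
            sum_congr rfl fun i hi => by
              have h2 := wk_le (l + 4) R v i
              have h3 := mem_range.1 hi
              rw [← e2 i h3.le, pow_sub₀ _ (by norm_num) (by omega), one_div, inv_pow]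
        _ ≤ 2 ^ (l + 4 + R) * (1 / 2) ^ l := by rw [← mul_sum]; gcongr
        _ = _ := by rw [one_div, inv_pow]; field_simp; ring
    exact_mod_cast h1
  · have h1 : d i ≤ (1 / 2) ^ e i := by
      have := t1 i hi
      linarith [e4 i hi.le, t0 (i + 1)]
    rw [e2 i hi.le]
    rw [dd] at h1
    rw [div_le_iff₀ (by positivity), one_div, inv_pow, inv_mul_eq_div,
      le_div_iff₀ (by positivity)] at h1
    exact_mod_cast h1

theorem bud_sum {l R v : ℕ} (h : bud l R v = true) :
    ∑ i ∈ range R, (2⁻¹ : ENNReal) ^ wk (l + 4) R v i ≤ 2⁻¹ ^ l := by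
  have h1 : ((∑ i ∈ range R, 2 ^ (l + 4 + R - wk (l + 4) R v i) : ℕ) : ENNReal) ≤ 2 ^ (4 + R) := by
    exact_mod_cast of_decide_eq_true h
  have h2 : ∀ a b : ℕ, (2⁻¹ : ENNReal) ^ (a + b) * 2 ^ b = 2⁻¹ ^ a := fun a b => by
    rw [pow_add, mul_assoc, ← mul_pow, ENNReal.inv_mul_cancel (by simp) (by simp), one_pow, mul_one]
  push_cast at h1
  calc _ = ∑ i ∈ range R, (2⁻¹ : ENNReal) ^ (l + 4 + R) * 2 ^ (l + 4 + R - wk (l + 4) R v i) :=
        sum_congr rfl fun i hi => by
          have h3 := wk_le (l + 4) R v i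
          have h4 := mem_range.1 hi
          rw [← h2 (wk (l + 4) R v i) (l + 4 + R - wk (l + 4) R v i)]
          congr 2
          omega
    _ ≤ 2⁻¹ ^ (l + 4 + R) * 2 ^ (4 + R) := by rw [← mul_sum]; gcongr
    _ = _ := by rw [add_assoc, h2]

/-- The least `v < n` with `p v`, or `n`. -/
def lst (n : ℕ) (p : ℕ → Bool) : ℕ := nrec n 0 fun k m => if p m = true then m else k + 1

theorem lst_spec (n : ℕ) (p : ℕ → Bool) : lst n p ≤ n ∧ (∀ u < lst n p, p u = false) ∧
    (lst n p < n → p (lst n p) = true) := by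
  induction n with
  | zero => simp [lst]
  | succ n ih =>
    have : lst (n + 1) p = if p (lst n p) = true then lst n p else n + 1 := rfl
    obtain ⟨h1, h2, h3⟩ := ih
    rw [this]
    split_ifs with c
    · exact ⟨by omega, h2, fun _ => c⟩
    · refine ⟨le_rfl, fun u hu => ?_, fun h => absurd h (by omega)⟩
      have h4 : lst n p = n := by by_contra d; exact c (h3 (by omega))
      rcases Nat.lt_succ_iff_lt_or_eq.1 hu with d | rfl
      · exact h2 u (by omega)
      · rw [h4] at c; simpa using c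

theorem lst_le {n v : ℕ} {p : ℕ → Bool} (h : p v = true) : lst n p ≤ v := by
  by_contra c
  simp [(lst_spec n p).2.1 v (by omega)] at h

end Pool.Agent.Lib.MP_848037_lc
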