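import Pool.Agent.Lib.MP_848037_lc.ThinMass

/-!
One level of the construction: an abundant class of strings below a bound vector, with small
tails, extends to such a class on the next level.
-/

set_option autoImplicit false

namespace Pool.Agent.Lib.MP_848037_lc

open Finset Pool.Agent.Shared.Type2

/-- Stage masses, scaled by `2 ^ s` at stage `s`. -/
structure Mass (M : ℕ → Str → ℕ) : Prop where
  mono : ∀ s σ, 2 * M s σ ≤ M (s + 1) σ
  supp : ∀ s σ, s < σ.length → M s σ = 0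
  tot : ∀ s (F : Finset Str), ∑ σ ∈ F, M s σ ≤ 2 ^ (s + 1)

/-- The density met along `y` in the group of lengths number `q`. -/
def Dn (g : ℕ) (f : Str → ℕ) (A : List ℕ) (y : Str) (q : ℕ) : ℕ :=
  ∑ j ∈ range g, 2 ^ (g * q + j + 1) * sym f A (y.take (g * q + j + 1))

/-- The mass strictly above `y`. -/
def Wn (s : ℕ) (f : Str → ℕ) (A : List ℕ) (y : Str) : ℕ :=
  ∑ j ∈ range s, ∑ u ∈ Om (j + 1), sym f A (y ++ u)

/-- `y` is below the bound vector and has a small tail. -/
def okB (g : ℕ) (f : Str → ℕ) (s l : ℕ) (A es : List ℕ) (y : Str) : Bool :=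
  ((List.range es.length).all fun q => decide (Dn g f A y q * 2 ^ es.getD q 0 ≤ 2 ^ (9 + s))) &&
    decide (Wn s f (g * es.length :: A) y * 2 ^ (g * es.length + l) ≤ 2 ^ (2 + s))

theorem okB_iff {g : ℕ} {f : Str → ℕ} {s l : ℕ} {A es : List ℕ} {y : Str} :
    okB g f s l A es y = true ↔ (∀ q < es.length, Dn g f A y q * 2 ^ es.getD q 0 ≤ 2 ^ (9 + s)) ∧
      Wn s f (g * es.length :: A) y * 2 ^ (g * es.length + l) ≤ 2 ^ (2 + s) := by
  simp [okB]

/-- The class of such strings is abundant. -/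
def goodB (g : ℕ) (f : Str → ℕ) (s l : ℕ) (A es : List ℕ) : Bool :=
  decide (2 ^ (g * es.length) ≤
    (∑ y ∈ Om (g * es.length), (okB g f s l A es y).toNat) * 2 ^ (l + es.length))

theorem goodB_iff {g : ℕ} {f : Str → ℕ} {s l : ℕ} {A es : List ℕ} :
    goodB g f s l A es = true ↔ 2 ^ (g * es.length) ≤
      ((Om (g * es.length)).filter fun y => okB g f s l A es y = true).card * 2 ^ (l + es.length) := by
  rw [goodB, decide_eq_true_eq, card_filter]
  refine iff_of_eq (congrArg (fun t => _ ≤ t * _) (sum_congr rfl fun y _ => ?_))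
  cases okB g f s l A es y <;> rfl

section td

variable {X : Type} [Rep X]

@[fun_prop] theorem td_Dn (g : ℕ) {f : X → Str → ℕ} {A : X → List ℕ} {y : X → Str} {q : X → ℕ}
    (hf : TD fun p : X × Str => f p.1 p.2) (hA : TD A) (hy : TD y) (hq : TD q) :
    TD fun x => Dn g (f x) (A x) (y x) (q x) := by
  unfold Dn
  refine td_sum_range (by fun_prop) (TD.mul (by fun_prop) (td_sym ?_ (by fun_prop) (by fun_prop)))
  exact hf.comp' (f := fun p : (X × ℕ) × Str => (p.1.1, p.2)) (by fun_prop)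

@[fun_prop] theorem td_Wn {s : X → ℕ} {f : X → Str → ℕ} {A : X → List ℕ} {y : X → Str}
    (hs : TD s) (hf : TD fun p : X × Str => f p.1 p.2) (hA : TD A) (hy : TD y) :
    TD fun x => Wn (s x) (f x) (A x) (y x) := by
  unfold Wn
  refine td_sum_range hs (td_sum_Om (by fun_prop) (td_sym ?_ (by fun_prop) (by fun_prop)))
  exact hf.comp' (f := fun p : ((X × ℕ) × Str) × Str => (p.1.1.1, p.2)) (by fun_prop)

@[fun_prop] theorem td_okB (g : ℕ) {f : X → Str → ℕ} {s l : X → ℕ} {A es : X → List ℕ}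
    {y : X → Str} (hf : TD fun p : X × Str => f p.1 p.2) (hs : TD s) (hl : TD l) (hA : TD A)
    (he : TD es) (hy : TD y) : TD fun x => okB g (f x) (s x) (l x) (A x) (es x) (y x) := by
  unfold okB
  refine TD.and' (TD.all (by fun_prop) (TD.decide_le (TD.mul (td_Dn g ?_ (by fun_prop)
    (by fun_prop) (by fun_prop)) (by fun_prop)) (by fun_prop)))
    (TD.decide_le (TD.mul (td_Wn hs hf (by fun_prop) hy) (by fun_prop)) (by fun_prop))
  exact hf.comp' (f := fun p : (X × ℕ) × Str => (p.1.1, p.2)) (by fun_prop)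

@[fun_prop] theorem td_goodB (g : ℕ) {f : X → Str → ℕ} {s l : X → ℕ} {A es : X → List ℕ}
    (hf : TD fun p : X × Str => f p.1 p.2) (hs : TD s) (hl : TD l) (hA : TD A)
    (he : TD es) : TD fun x => goodB g (f x) (s x) (l x) (A x) (es x) := by
  unfold goodB
  refine TD.decide_le (by fun_prop) (TD.mul (td_sum_Om (by fun_prop) (TD.toNat' (td_okB g ?_
    (by fun_prop) (by fun_prop) (by fun_prop) (by fun_prop) (by fun_prop)))) (by fun_prop))
  exact hf.comp' (f := fun p : (X × Str) × Str => (p.1.1, p.2)) (by fun_prop)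

@[fun_prop] theorem td_wk {e R v i : X → ℕ} (he : TD e) (hR : TD R) (hv : TD v) (hi : TD i) :
    TD fun x => wk (e x) (R x) (v x) (i x) := by
  unfold wk; fun_prop

@[fun_prop] theorem td_bud {l R v : X → ℕ} (hl : TD l) (hR : TD R) (hv : TD v) :
    TD fun x => bud (l x) (R x) (v x) := by
  unfold bud; fun_prop

@[fun_prop] theorem td_lst {n : X → ℕ} {p : X → ℕ → Bool} (hn : TD n)
    (hp : TD fun q : X × ℕ => p q.1 q.2) : TD fun x => lst (n x) (p x) := by
  unfold lst
  refine TD.nrec' hn (by fun_prop) (TD.ite' (TD.decide_bool ?_) (by fun_prop) (by fun_prop))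
  exact hp.comp' (f := fun q : X × ℕ × ℕ => (q.1, q.2.2)) (by fun_prop)

end td

variable {M : ℕ → Str → ℕ} {g : ℕ}

theorem Mass.okB_anti (hM : Mass M) {s l : ℕ} {A es : List ℕ} {y : Str}
    (h : okB g (M (s + 1)) (s + 1) l A es y = true) : okB g (M s) s l A es y = true := by
  obtain ⟨h1, h2⟩ := okB_iff.1 h
  have h0 : ∀ A σ, 2 * sym (M s) A σ ≤ sym (M (s + 1)) A σ := fun A σ =>
    sym_mono A σ fun ρ _ => hM.mono s ρ
  refine okB_iff.2 ⟨fun q hq => ?_, ?_⟩
  · have h3 : 2 * Dn g (M s) A y q ≤ Dn g (M (s + 1)) A y q := by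
      rw [Dn, Dn, mul_sum]
      exact sum_le_sum fun j _ => by rw [mul_left_comm]; exact Nat.mul_le_mul_left _ (h0 _ _)
    have h4 := (Nat.mul_le_mul_right _ h3).trans (h1 q hq)
    rw [← add_assoc, pow_succ] at h4
    linarith
  · have h3 : ∀ A, 2 * Wn s (M s) A y ≤ Wn (s + 1) (M (s + 1)) A y := fun A => by
      rw [Wn, Wn, mul_sum, sum_range_succ]
      refine le_add_right (sum_le_sum fun j _ => ?_)
      rw [mul_sum]
      exact sum_le_sum fun u _ => h0 _ _
    have h4 := (Nat.mul_le_mul_right _ (h3 _)).trans h2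
    rw [← add_assoc, pow_succ] at h4
    linarith

theorem Mass.goodB_anti (hM : Mass M) {s l : ℕ} {A es : List ℕ}
    (h : goodB g (M (s + 1)) (s + 1) l A es = true) : goodB g (M s) s l A es = true :=
  goodB_iff.2 ((goodB_iff.1 h).trans (Nat.mul_le_mul_right _ (card_le_card fun _ hy =>
    mem_filter.2 ⟨(mem_filter.1 hy).1, hM.okB_anti (mem_filter.1 hy).2⟩)))

/-- The mass on strings longer than `N`. -/
def tail (M : ℕ → Str → ℕ) (s N : ℕ) : ℕ := ∑ j ∈ range s, ∑ σ ∈ Om (N + (j + 1)), M s σ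

theorem sum_Wn (M : ℕ → Str → ℕ) (s N : ℕ) (A : List ℕ) :
    ∑ y ∈ Om N, Wn s (M s) A y ≤ 2 ^ A.length * tail M s N := by
  simp only [Wn, tail]
  rw [sum_comm, mul_sum]
  refine sum_le_sum fun j _ => ?_
  rw [← sum_Om_add N (j + 1) (sym (M s) A)]
  exact sum_sym _ _ _

theorem sum_lens {β : Type*} [AddCommMonoid β] (S : Finset ℕ) (f : Str → β) :
    ∑ n ∈ S, ∑ σ ∈ Om n, f σ = ∑ σ ∈ S.biUnion Om, f σ :=
  (sum_biUnion fun _ _ _ _ h => disjoint_left.2 fun _ h1 h2 =>
    h ((mem_Om.1 h1).symm.trans (mem_Om.1 h2))).symm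

theorem Mass.goodB_zero (hM : Mass M) (s : ℕ) : goodB g (M s) s 0 [] [] = true := by
  have h1 := sum_Wn M s 0 [0]
  have h2 : tail M s 0 ≤ 2 ^ (s + 1) := by
    rw [tail, ← sum_image (s := range s) (g := fun j => 0 + (j + 1))
      (f := fun n => ∑ σ ∈ Om n, M s σ) fun a _ b _ h => by simpa using h, sum_lens]
    exact hM.tot _ _
  have h3 : Om 0 = {[]} := rfl
  rw [h3, sum_singleton] at h1
  have h4 : okB g (M s) s 0 [] [] [] = true := okB_iff.2 ⟨by simp, by
    simp only [List.length_nil, mul_zero, add_zero, pow_zero, mul_one]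
    simp only [List.length_cons, List.length_nil] at h1
    rw [add_comm 2 s, pow_add]
    rw [pow_succ] at h2
    omega⟩
  rw [goodB_iff]
  simp only [List.length_nil, mul_zero, pow_zero, add_zero, mul_one, h3]
  exact card_pos.2 ⟨[], mem_filter.2 ⟨by simp, h4⟩⟩

theorem markov {α : Type*} (Z : Finset α) (f : α → ℕ) (c : ℕ) :
    (Z.filter fun a => ¬ f a ≤ c).card * c ≤ ∑ a ∈ Z, f a :=
  calc _ = ∑ _a ∈ Z.filter fun a => ¬ f a ≤ c, c := by simp
    _ ≤ ∑ a ∈ Z.filter fun a => ¬ f a ≤ c, f a := sum_le_sum fun a h => by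
        have := (mem_filter.1 h).2; omega
    _ ≤ _ := sum_le_sum_of_subset (filter_subset _ _)

theorem sum_groups (g R : ℕ) (F : ℕ → ℕ) :
    ∑ i ∈ range R, ∑ j ∈ range g, F (g * i + j) = ∑ j ∈ range (g * R), F j := by
  induction R with
  | zero => simp
  | succ R ih => rw [sum_range_succ, ih, mul_add, mul_one, sum_range_add]

theorem Mass.seg (hM : Mass M) (s Q R : ℕ) (A : List ℕ) {y : Str} (hy : y.length = g * Q) :
    ∑ u ∈ Om (g * R), ∑ i ∈ range R, Dn g (M s) A (y ++ u) (Q + i) ≤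
      2 ^ (g * Q + g * R) * Wn s (M s) A y := by
  have h1 : ∀ u, ∑ i ∈ range R, Dn g (M s) A (y ++ u) (Q + i) = ∑ j ∈ range (g * R),
      2 ^ (g * Q + (j + 1)) * sym (M s) A (y ++ u.take (j + 1)) := fun u => by
    rw [← sum_groups]
    refine sum_congr rfl fun i _ => sum_congr rfl fun j _ => ?_
    rw [show g * (Q + i) + j + 1 = g * Q + (g * i + j + 1) by ring, ← hy,
      List.take_length_add_append]
  simp only [h1]
  rw [sum_comm]
  calc _ = ∑ j ∈ range (g * R), 2 ^ (g * Q + g * R) * ∑ u ∈ Om (j + 1), sym (M s) A (y ++ u) :=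
        sum_congr rfl fun j hj => by
          obtain ⟨k, hk⟩ := Nat.exists_eq_add_of_le (Nat.succ_le_of_lt (mem_range.1 hj))
          rw [← mul_sum, hk, Nat.succ_eq_add_one,
            sum_Om_take (j + 1) k fun u => sym (M s) A (y ++ u), smul_eq_mul]
          ring
    _ ≤ _ := by
        rw [← mul_sum, Wn]
        gcongr ?_ * ?_
        · exact le_rfl
        refine sum_le_sum_of_ne_zero fun j _ h => mem_range.2 ?_
        by_contra c
        refine h (sum_eq_zero fun u hu => Nat.eq_zero_of_le_zero ?_)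
        have := sym_mono (f := M s) (f' := fun _ => 0) (c := 1) A (y ++ u) fun ρ e => by
          rw [hM.supp s ρ (by rw [e, List.length_append, mem_Om.1 hu]; omega)]
        rw [sym_const] at this
        omega

/-- The exponents given by a walk. -/
def wl (l R v : ℕ) : List ℕ := (List.range R).map (wk (l + 4) R v)

@[simp] theorem length_wl (l R v : ℕ) : (wl l R v).length = R := by simp [wl]

theorem getD_wl {es : List ℕ} {l R v i : ℕ} (h : i < R) :
    (es ++ wl l R v).getD (es.length + i) 0 = wk (l + 4) R v i := by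
  rw [List.getD_append_right _ _ _ _ (by omega), Nat.add_sub_cancel_left,
    List.getD_eq_getElem _ _ (by simpa using h)]
  simp [wl]

theorem Dn_cons {f : Str → ℕ} {A : List ℕ} {y : Str} {q a : ℕ} (h : g * (q + 1) ≤ a) :
    Dn g f (a :: A) y q = Dn g f A y q :=
  sum_congr rfl fun j hj => by
    have := mem_range.1 hj
    rw [sym_cons, if_neg]
    rw [List.length_take, mul_add] at *
    omega

theorem Dn_take {f : Str → ℕ} {A : List ℕ} {y : Str} {q N : ℕ} (h : g * (q + 1) ≤ N) :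
    Dn g f A (y.take N) q = Dn g f A y q :=
  sum_congr rfl fun j hj => by
    have := mem_range.1 hj
    rw [List.take_take, min_eq_left]
    rw [mul_add] at h
    omega

theorem Mass.step (hM : Mass M) {s l R : ℕ} {A es : List ℕ} (hA : A.length = l)
    (h : goodB g (M s) s l A es = true)
    (ht : tail M s (g * (es.length + R)) * 2 ^ (3 * l + es.length + 3) ≤ 2 ^ s) :
    ∃ v < 2 ^ R, bud l R v = true ∧
      goodB g (M s) s (l + 1) (g * es.length :: A) (es ++ wl l R v) = true := by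
  classical
  set Q := es.length with hQ
  set A' := g * Q :: A with hA'
  set Y := (Om (g * Q)).filter fun y => okB g (M s) s l A es y = true with hY
  have hg : 2 ^ (g * Q) ≤ Y.card * 2 ^ (l + Q) := goodB_iff.1 h
  set Z := (Om (g * Q + g * R)).filter fun y => y.take (g * Q) ∈ Y with hZ
  have sumZ : ∀ F : Str → ℕ, ∑ y ∈ Z, F y = ∑ y ∈ Y, ∑ u ∈ Om (g * R), F (y ++ u) := fun F => by
    rw [hZ, sum_filter, sum_Om_add, hY, sum_filter]
    refine sum_congr rfl fun y hy => ?_
    have e : ∀ u : Str, (y ++ u).take (g * Q) = y := fun u => by simp [← mem_Om.1 hy]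
    simp only [e, mem_filter, hy, true_and]
    split_ifs <;> simp
  have cZ : Z.card = Y.card * 2 ^ (g * R) := by
    rw [card_eq_sum_ones, sumZ]; simp [card_Om]
  let Sg : Str → ℕ := fun y => (∑ i ∈ range R, Dn g (M s) A' y (Q + i)) * 2 ^ l
  let Wt : Str → ℕ := fun y => Wn s (M s) (g * (Q + R) :: A') y * 2 ^ (g * (Q + R) + (l + 1))
  have m1 : 4 * (Z.filter fun y => ¬ Sg y ≤ 2 ^ (4 + s)).card ≤ Z.card := by
    have h1 := markov Z Sg (2 ^ (4 + s))
    have h2 : ∑ y ∈ Z, Sg y ≤ ∑ _y ∈ Y, 2 ^ (g * R) * 2 ^ (2 + s) := by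
      rw [sumZ]
      refine sum_le_sum fun y hy => ?_
      obtain ⟨a1, a2⟩ := mem_filter.1 hy
      simp only [Sg]
      rw [← sum_mul]
      calc _ ≤ 2 ^ (g * Q + g * R) * Wn s (M s) A' y * 2 ^ l :=
            Nat.mul_le_mul_right _ (hM.seg s Q R A' (mem_Om.1 a1))
        _ = 2 ^ (g * R) * (Wn s (M s) A' y * 2 ^ (g * Q + l)) := by ring
        _ ≤ _ := Nat.mul_le_mul_left _ (okB_iff.1 a2).2
    rw [sum_const, smul_eq_mul, ← mul_assoc, ← cZ] at h2
    refine Nat.le_of_mul_le_mul_right (c := 2 ^ (2 + s)) ?_ (by positivity)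
    calc _ = (Z.filter fun y => ¬ Sg y ≤ 2 ^ (4 + s)).card * 2 ^ (4 + s) := by ring
      _ ≤ _ := h1.trans h2
  have m2 : 4 * (Z.filter fun y => ¬ Wt y ≤ 2 ^ (2 + s)).card ≤ Z.card := by
    have h1 := markov Z Wt (2 ^ (2 + s))
    have h2 : ∑ y ∈ Z, Wt y ≤ 2 ^ (l + 2) * tail M s (g * (Q + R)) *
        2 ^ (g * (Q + R) + (l + 1)) := by
      simp only [Wt]
      rw [← sum_mul]
      refine Nat.mul_le_mul_right _ ((sum_le_sum_of_subset (filter_subset _ _)).trans ?_)
      have := sum_Wn M s (g * (Q + R)) (g * (Q + R) :: A')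
      rw [List.length_cons, hA', List.length_cons, hA] at this
      rwa [← mul_add g]
    refine Nat.le_of_mul_le_mul_right (c := 2 ^ (3 * l + Q + 3 + s)) ?_ (by positivity)
    calc _ = (Z.filter fun y => ¬ Wt y ≤ 2 ^ (2 + s)).card * 2 ^ (2 + s) * 2 ^ (3 * l + Q + 3) := by
          ring
      _ ≤ 2 ^ (l + 2) * tail M s (g * (Q + R)) * 2 ^ (g * (Q + R) + (l + 1)) *
          2 ^ (3 * l + Q + 3) := Nat.mul_le_mul_right _ (h1.trans h2)
      _ = tail M s (g * (Q + R)) * 2 ^ (3 * l + Q + 3) *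
          (2 ^ (g * Q) * 2 ^ (g * R + 2 * l + 3)) := by ring
      _ ≤ 2 ^ s * (Y.card * 2 ^ (l + Q) * 2 ^ (g * R + 2 * l + 3)) := by gcongr
      _ = _ := by rw [cZ]; ring
  set Z' := Z.filter fun y => Sg y ≤ 2 ^ (4 + s) ∧ Wt y ≤ 2 ^ (2 + s) with hZ'
  have m3 : Z.card ≤ 2 * Z'.card := by
    have : Z ⊆ Z' ∪ ((Z.filter fun y => ¬ Sg y ≤ 2 ^ (4 + s)) ∪
        Z.filter fun y => ¬ Wt y ≤ 2 ^ (2 + s)) := fun y hy => by
      simp only [hZ', mem_union, mem_filter, hy, true_and]
      tauto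
    have h1 := (card_le_card this).trans ((card_union_le _ _).trans
      (Nat.add_le_add_left (card_union_le _ _) _))
    omega
  have hv : ∀ y : Str, ∃ v, y ∈ Z' → v ∈ (range (2 ^ R)).filter (fun v => bud l R v = true) ∧
      ∀ i < R, Dn g (M s) A' y (Q + i) * 2 ^ wk (l + 4) R v i ≤ 2 ^ (9 + s) := fun y => by
    by_cases c : y ∈ Z'
    · obtain ⟨v, a1, a2, a3⟩ := exists_walk (fun i => Dn g (M s) A' y (Q + i)) l R s
        (mem_filter.1 c).2.1
      exact ⟨v, fun _ => ⟨mem_filter.2 ⟨mem_range.2 a1, a2⟩, a3⟩⟩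
    · exact ⟨0, fun d => absurd d c⟩
  choose V hV using hv
  have hne : Z'.Nonempty := by
    have h1 : 0 < Y.card := Nat.pos_of_ne_zero fun e => by
      rw [e, zero_mul] at hg
      exact absurd hg (by simp)
    have h2 : 0 < Z.card := by rw [cZ]; positivity
    exact card_pos.1 (by omega)
  obtain ⟨v, hv1, hv2⟩ := exists_max_image ((range (2 ^ R)).filter fun v => bud l R v = true)
    (fun v => (Z'.filter fun y => V y = v).card) ⟨_, (hV _ hne.choose_spec).1⟩
  have m4 : Z'.card ≤ 2 ^ R * (Z'.filter fun y => V y = v).card := by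
    rw [card_eq_sum_card_fiberwise fun y (hy : y ∈ (Z' : Set Str)) => (hV y hy).1]
    refine (sum_le_card_nsmul _ _ _ hv2).trans (Nat.mul_le_mul_right _ ?_)
    exact (card_filter_le _ _).trans (card_range _).le
  refine ⟨v, mem_range.1 (mem_filter.1 hv1).1, (mem_filter.1 hv1).2, goodB_iff.2 ?_⟩
  have hl : (es ++ wl l R v).length = Q + R := by simp [hQ]
  have m5 : (Z'.filter fun y => V y = v) ⊆ (Om (g * (Q + R))).filter fun y =>
      okB g (M s) s (l + 1) A' (es ++ wl l R v) y = true := fun y hy => by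
    obtain ⟨a1, rfl⟩ := mem_filter.1 hy
    obtain ⟨a2, -, a3⟩ := mem_filter.1 a1
    obtain ⟨a4, a5⟩ := mem_filter.1 a2
    refine mem_filter.2 ⟨by rwa [mul_add], okB_iff.2 ⟨fun q hq => ?_, by rw [hl]; exact a3⟩⟩
    rcases lt_or_ge q Q with c | c
    · have b1 := (okB_iff.1 (mem_filter.1 a5).2).1 q c
      have b2 : g * (q + 1) ≤ g * Q := Nat.mul_le_mul_left _ c
      rwa [List.getD_append _ _ _ _ c, hA', Dn_cons b2, ← Dn_take b2]
    · obtain ⟨i, rfl⟩ := Nat.exists_eq_add_of_le c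
      rw [hl] at hq
      rw [hQ, getD_wl (by omega)]
      exact (hV y a1).2 i (by omega)
  rw [hl]
  calc 2 ^ (g * (Q + R)) = 2 ^ (g * Q) * 2 ^ (g * R) := by ring
    _ ≤ Y.card * 2 ^ (l + Q) * 2 ^ (g * R) := by gcongr
    _ = Z.card * 2 ^ (l + Q) := by rw [cZ]; ring
    _ ≤ 2 * (2 ^ R * (Z'.filter fun y => V y = v).card) * 2 ^ (l + Q) := by
        gcongr; exact m3.trans (by gcongr)
    _ = (Z'.filter fun y => V y = v).card * 2 ^ (l + 1 + (Q + R)) := by ring
    _ ≤ _ := Nat.mul_le_mul_right _ (card_le_card m5)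

end Pool.Agent.Lib.MP_848037_lc
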